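import Pool.Agent.DL.NP.Spec

/-!
MP_3ff0f8_gt, ALGEBRA HALF, R1A block (helper16): a rigid vertex `u` of degree 4 with `G - u` nonplanar: definitions.
-/

open SimpleGraph Finset

namespace DL

/-! ## Matrices and bilinear forms on chains -/

/-- symmetric matrix -/
def Sy {α : Type} (b : Sym2 α → Sym2 α → ZMod 2) : Prop := ∀ e f, b e f = b f e

/-- the bilinear form of a matrix -/
def frm {α : Type} [Fintype α] [DecidableEq α] (b : Sym2 α → Sym2 α → ZMod 2) (X Y : Chain α) : ZMod 2 :=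
  ∑ e, ∑ f, b e f * (X e * Y f)

/-- the chain of one edge -/
def ed {α : Type} [DecidableEq α] (a b : α) : Chain α := chi {s(a, b)}

/-- the square `a ⊗ a` -/
def sqm {α : Type} (a : Chain α) : Sym2 α → Sym2 α → ZMod 2 := fun e f => a e * a f

/-- `a ⊗ b + b ⊗ a` -/
def dtm {α : Type} (a b : Chain α) : Sym2 α → Sym2 α → ZMod 2 := fun e f => a e * b f + b e * a f

/-- the form `κ = x_{cd}^{[2]} + x_{sc} . x_{cd}` -/
def kapm {α : Type} [DecidableEq α] (s c d : α) : Sym2 α → Sym2 α → ZMod 2 :=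
  sqm (ed c d) + dtm (ed s c) (ed c d)

/-- equality of forms on the cycle space of `J` -/
def FE {α : Type} [Fintype α] [DecidableEq α] (J : SimpleGraph α) (b b' : Sym2 α → Sym2 α → ZMod 2) : Prop :=
  ∀ X ∈ Z1 J, ∀ Y ∈ Z1 J, frm b X Y = frm b' X Y

/-- symmetric matrices supported on the edges at `v` : `Γ(ρ_v)` -/
def At {α : Type} (v : α) (b : Sym2 α → Sym2 α → ZMod 2) : Prop :=
  Sy b ∧ ∀ e f, b e f ≠ 0 → v ∈ e ∧ v ∈ f

section
variable {α : Type} [Fintype α] [DecidableEq α]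

/-- first bead of a 2-bead chain, as a chain -/
noncomputable def Ch2.bd0 {G : SimpleGraph α} {s t : α} (K : Ch2 G s t) : Chain α :=
  chi (K.pth ![false, false]) + chi (K.pth ![true, false])

/-- second bead -/
noncomputable def Ch2.bd1 {G : SimpleGraph α} {s t : α} (K : Ch2 G s t) : Chain α :=
  chi (K.pth ![false, false]) + chi (K.pth ![false, true])

/-- the chain sums of the path function `h` are given by the form `b` -/
def Rep (J : SimpleGraph α) (s t : α) (h : Finset (Sym2 α) → ZMod 2) (b : Sym2 α → Sym2 α → ZMod 2) :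
    Prop := ∀ K : Ch2 J s t, ∑ e : Fin 2 → Bool, h (K.pth e) = frm b K.bd0 K.bd1

/-- `b` vanishes on the beads of all chains from `s` to `t` : `K_st` -/
def InK (J : SimpleGraph α) (s t : α) (b : Sym2 α → Sym2 α → ZMod 2) : Prop :=
  Sy b ∧ ∀ K : Ch2 J s t, frm b K.bd0 K.bd1 = 0

end

/-- `s` has exactly the neighbours `t, c, d` (different) -/
def Bd {α : Type} (J : SimpleGraph α) (s t c d : α) : Prop :=
  c ≠ d ∧ c ≠ t ∧ d ≠ t ∧ ∀ x, J.Adj s x ↔ x = t ∨ x = c ∨ x = d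

/-- the bad edges for the edge `st` -/
def bads {α : Type} (J : SimpleGraph α) (s t : α) : Set (Sym2 α) :=
  {e | ∃ c d, e = s(c, d) ∧ J.Adj c d ∧ (Bd J s t c d ∨ Bd J t s c d)}

/-! ## The setting of R1A -/

/-- the graph `K_3 □ K_3` -/
def Is33 {α : Type} (G : SimpleGraph α) : Prop :=
  ∃ v : Fin 3 → Fin 3 → α, (∀ i j k l, v i j = v k l → i = k ∧ j = l) ∧
    ∀ x y, G.Adj x y ↔ ∃ i j k l, x = v i j ∧ y = v k l ∧ ((i = k ∧ j ≠ l) ∨ (i ≠ k ∧ j = l))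

/-- `G` 4-connected with at least 8 vertices, `u` rigid of degree 4 with neighbours `w i`, `G - u` nonplanar, `G` is
not `K_3 □ K_3` -/
structure R1 {α : Type} [Fintype α] [DecidableEq α] (G : SimpleGraph α) (u : α) (w : Fin 4 → α) : Prop where
  k48 : K48 G
  rig : Rig G u
  inj : Function.Injective w
  nu : ∀ x, G.Adj u x ↔ ∃ i, x = w i
  np : NP (del G {u})
  n33 : ¬ Is33 G

/-- the neighbours of `u` -/
def WW {α : Type} [DecidableEq α] (w : Fin 4 → α) : Finset α := univ.image w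

/-- the other vertices -/
noncomputable def CC {α : Type} [Fintype α] [DecidableEq α] (G : SimpleGraph α) (u : α) (w : Fin 4 → α) : Finset α :=
  VS G \ insert u (WW w)

/-- `M`: `G - u` without the edges between neighbours of `u` -/
def MM {α : Type} [DecidableEq α] (G : SimpleGraph α) (u : α) (w : Fin 4 → α) : SimpleGraph α :=
  (del G {u}).deleteEdges {e | ∃ i j, e = s(w i, w j)}

/-- type A vertex `w i`: neighbours `u, w j, c, d`, `c ~ d` not neighbours of `u` -/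
structure TA {α : Type} [Fintype α] [DecidableEq α] (G : SimpleGraph α) (u : α) (w : Fin 4 → α) (i j : Fin 4)
    (c d : α) : Prop where
  ij : i ≠ j
  nb : ∀ x, G.Adj (w i) x ↔ x = u ∨ x = w j ∨ x = c ∨ x = d
  cd : G.Adj c d
  cC : c ∈ CC G u w
  dC : d ∈ CC G u w

/-- the functional `θ = x_{w_i c} + x_{cd}` -/
def tht {α : Type} [DecidableEq α] (w : Fin 4 → α) (i : Fin 4) (c d : α) : Chain α := ed (w i) c + ed c d

/-- beta-pair: type A vertices `w i`, `w m` with a common neighbour `z`, `N(z) = {w i, w m, d, d'}` -/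
structure Bta {α : Type} [Fintype α] [DecidableEq α] (G : SimpleGraph α) (u : α) (w : Fin 4 → α)
    (i j m j' : Fin 4) (z d d' : α) : Prop where
  im : i ≠ m
  jm : j ≠ m
  ji : j' ≠ i
  dd : d ≠ d'
  ti : TA G u w i j z d
  tm : TA G u w m j' z d'
  nz : ∀ x, G.Adj z x ↔ x = w i ∨ x = w m ∨ x = d ∨ x = d'

/-- relation between the `θ_i^{[2]}`, `i ∈ S`, and local forms, on the cycle space of `M` -/
def RLN {α : Type} [Fintype α] [DecidableEq α] (G : SimpleGraph α) (u : α) (w : Fin 4 → α) (S : Finset (Fin 4))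
    (c d : Fin 4 → α) : Prop :=
  ∃ r : Fin 4 → Sym2 α → Sym2 α → ZMod 2, (∀ k, At (w k) (r k)) ∧
    ∀ X ∈ Z1 (MM G u w), ∀ Y ∈ Z1 (MM G u w),
      ∑ i ∈ S, pr (tht w i (c i) (d i)) X * pr (tht w i (c i) (d i)) Y + ∑ k, frm (r k) X Y = 0

/-- `X`, `Y` are the beads of a chain from `w k` to `w m` whose first tree contains `w l` and whose last tree contains
`w p` -/
def Cfg {α : Type} [Fintype α] [DecidableEq α] (G : SimpleGraph α) (u : α) (w : Fin 4 → α) (k l m p : Fin 4)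
    (X Y : Chain α) : Prop :=
  ∃ K : Ch2 (del G {u}) (w k) (w m), w l ∈ K.X 0 ∧ w p ∈ K.X 2 ∧ K.bd0 = X ∧ K.bd1 = Y

/-! ## The linear algebra of six pairs -/

/-- `r` is a sum of relations inside the four triples (`t p`: the triple without `p`) -/
def TRel {L : Type} [AddCommGroup L] [Module (ZMod 2) L] (K : Sym2 (Fin 4) → Submodule (ZMod 2) L)
    (r : Sym2 (Fin 4) → L) : Prop :=
  ∃ t : Fin 4 → Sym2 (Fin 4) → L, (∀ p e, t p e ∈ K e) ∧ (∀ p e, p ∈ e → t p e = 0) ∧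
    (∀ p, ∑ e, t p e = 0) ∧ ∀ e, r e = ∑ p, t p e

/-- the data of Lemma LIN -/
structure LD (L : Type) [AddCommGroup L] [Module (ZMod 2) L] where
  K : Sym2 (Fin 4) → Submodule (ZMod 2) L
  Ga : Fin 4 → Submodule (ZMod 2) L
  Xs : Sym2 (Fin 4) → Submodule (ZMod 2) L
  D : Sym2 (Fin 4) → Sym2 (Fin 4) → L
  A : Finset (Fin 4)
  j : Fin 4 → Fin 4
  th : Fin 4 → L
  bp : Fin 4 → Fin 4 → L → Prop
  Kd : ∀ e, e.IsDiag → K e = ⊥
  GK : ∀ e, ¬ e.IsDiag → ∀ i ∈ e, Ga i ≤ K e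
  XK : ∀ e, Xs e ≤ K e
  DX : ∀ e f, D e f ∈ Xs e
  DS : ∀ e f, D e f = D f e
  D0 : ∀ e, D e e = 0
  hj : ∀ i ∈ A, j i ≠ i
  hth : ∀ i ∈ A, th i ∈ K s(i, j i)
  dec : ∀ a b, a ≠ b → ∀ x ∈ K s(a, b), ∃ (τ : Fin 4 → L) (y : L) (ε ε' : ZMod 2),
    (∀ k, τ k ∈ Ga k ⊓ K s(a, b)) ∧ y ∈ Xs s(a, b) ∧ (ε ≠ 0 → a ∈ A ∧ j a = b) ∧ (ε' ≠ 0 → b ∈ A ∧ j b = a) ∧
    x = ∑ k, τ k + y + ε • th a + ε' • th b
  hbp : ∀ i m ϑ, bp i m ϑ → i ≠ m ∧ i ∈ A ∧ m ∈ A ∧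
    (∃ g ∈ Ga i, ∃ y ∈ Xs s(i, j i), th i = ϑ + g + y) ∧ ∃ g ∈ Ga m, ∃ y ∈ Xs s(m, j m), th m = ϑ + g + y
  H1 : ∀ S ⊆ A, S.Nonempty → ∀ (g : Fin 4 → L) (y : Sym2 (Fin 4) → L), (∀ i, g i ∈ Ga i) → (∀ e, y e ∈ Xs e) →
    ∑ i, g i + ∑ e, y e + ∑ i ∈ S, th i = 0 → ∃ i ∈ S, ∃ m ∈ S, ∃ ϑ, bp i m ϑ
  H2 : ∀ (g : Fin 4 → L) (y : Sym2 (Fin 4) → L), (∀ i, g i ∈ Ga i) → (∀ e, y e ∈ Xs e) →
    ∑ i, g i + ∑ e, y e = 0 → ∀ i, ∃ z : Fin 4 → L, (∀ l, z l ∈ Ga i ⊓ Xs s(i, l)) ∧ g i = ∑ l, z l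
  H3 : ∀ y : Sym2 (Fin 4) → L, (∀ e, y e ∈ Xs e) → ∑ e, y e = 0 →
    ∃ m : Sym2 (Fin 4) → Sym2 (Fin 4) → ZMod 2, (∀ e f, m e f = m f e) ∧ ∀ e, y e = ∑ f, m e f • D e f

end DL
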