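import Pool.Agent.DL.R1A.Spec
import Pool.Agent.DL.EX.INJ

section
/-!
MP_3ff0f8_gt, ALGEBRA HALF, R1A block, module R1A (helper16): the theorem R1A.
-/
open SimpleGraph Finset

namespace DL
namespace R1AM

set_option linter.unusedSectionVars false

variable {α : Type} [Fintype α] [DecidableEq α]

lemma dmono {G H : SimpleGraph α} {f : Finset (Sym2 α) → ZMod 2} (hle : H ≤ G) (hf : D4even G f) :
    D4even H f := fun D =>
  hf ⟨D.X, D.disj, D.T, fun i => (D.sub i).trans hle, D.inX, D.conn, D.acyc, D.p, D.q, D.pX, D.qX,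
    fun i b => hle (D.adj i b), D.ne⟩

lemma del_delE (G : SimpleGraph α) (u x : α) : del (delE G u x) {u} = del G {u} := by
  ext a b
  simp only [del, delE, deleteEdges_adj, Set.mem_singleton_iff, Finset.mem_singleton]
  constructor
  · rintro ⟨⟨h1, -⟩, h2, h3⟩
    exact ⟨h1, h2, h3⟩
  · rintro ⟨h1, h2, h3⟩
    refine ⟨⟨h1, fun h => ?_⟩, h2, h3⟩
    rw [Sym2.eq_iff] at h
    rcases h with h | h
    · exact h2 h.1
    · exact h3 h.2

lemma univ4 : ∀ k l m p : Fin 4, [k, l, m, p].Nodup → (univ : Finset (Fin 4)) = {k, l, m, p} := by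
  decide

lemma sum4 {L : Type*} [AddCommMonoid L] (F : Fin 4 → L) {k l m p : Fin 4} (h : [k, l, m, p].Nodup) :
    ∑ q, F q = F k + F l + F m + F p := by
  rw [univ4 k l m p h]
  simp only [List.nodup_cons, List.mem_cons, List.not_mem_nil, or_false, not_or,
    List.nodup_nil, and_true, not_false_eq_true] at h
  obtain ⟨⟨h1, h2, h3⟩, ⟨h4, h5⟩, h6⟩ := h
  rw [sum_insert (by simp [h1, h2, h3]), sum_insert (by simp [h4, h5]), sum_insert (by simp [h6]),
    sum_singleton]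
  simp only [add_assoc]

lemma univ6 : ∀ i j k p : Fin 4, [i, j, k, p].Nodup →
    (univ.filter fun e : Sym2 (Fin 4) => ¬ e.IsDiag) =
      {s(i, j), s(j, k), s(i, k), s(i, p), s(j, p), s(k, p)} := by
  decide

lemma card6 : ∀ i j k p : Fin 4, [i, j, k, p].Nodup →
    [s(i, j), s(j, k), s(i, k), s(i, p), s(j, p), s(k, p)].Nodup := by
  decide

lemma sum6 {L : Type*} [AddCommMonoid L] (F : Sym2 (Fin 4) → L) (hF : ∀ e, e.IsDiag → F e = 0)
    {i j k p : Fin 4} (h : [i, j, k, p].Nodup) :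
    ∑ e, F e = F s(i, j) + F s(j, k) + F s(i, k) + F s(i, p) + F s(j, p) + F s(k, p) := by
  have h0 : ∑ e, F e = ∑ e ∈ univ.filter (fun e : Sym2 (Fin 4) => ¬ e.IsDiag), F e := by
    rw [sum_filter]
    refine sum_congr rfl fun e _ => ?_
    by_cases he : e.IsDiag
    · rw [if_neg (not_not.2 he), hF e he]
    · rw [if_pos he]
  rw [h0, univ6 i j k p h]
  have h1 := card6 i j k p h
  simp only [List.nodup_cons, List.mem_cons, List.not_mem_nil, or_false, not_or,
    List.nodup_nil, and_true, not_false_eq_true] at h1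
  obtain ⟨⟨a1, a2, a3, a4, a5⟩, ⟨b1, b2, b3, b4⟩, ⟨c1, c2, c3⟩, ⟨d1, d2⟩, e1⟩ := h1
  rw [sum_insert (by simp only [mem_insert, Finset.mem_singleton, not_or]; exact ⟨a1, a2, a3, a4, a5⟩),
    sum_insert (by simp only [mem_insert, Finset.mem_singleton, not_or]; exact ⟨b1, b2, b3, b4⟩),
    sum_insert (by simp only [mem_insert, Finset.mem_singleton, not_or]; exact ⟨c1, c2, c3⟩),
    sum_insert (by simp only [mem_insert, Finset.mem_singleton, not_or]; exact ⟨d1, d2⟩),
    sum_insert (by simp only [Finset.mem_singleton]; exact e1), sum_singleton]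
  simp only [add_assoc]

lemma rf_add (J : SimpleGraph α) (b b' : Sym2 α → Sym2 α → ZMod 2) :
    rf J (b + b') = rf J b + rf J b' := by
  funext X Y
  exact frm_add b b' X.1 Y.1

lemma rf_zero (J : SimpleGraph α) : rf J (0 : Sym2 α → Sym2 α → ZMod 2) = 0 := by
  funext X Y
  exact frm_zero X.1 Y.1

lemma self {J : SimpleGraph α} (x : ↥(Z1 J) → ↥(Z1 J) → ZMod 2) : x + x = 0 := by
  funext X Y
  exact CharTwo.add_self_eq_zero (x X Y)

lemma eq_of {J : SimpleGraph α} {x y : ↥(Z1 J) → ↥(Z1 J) → ZMod 2} (h : x + y = 0) : x = y := by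
  have h1 : x + y + y = y := by rw [h, zero_add]
  rwa [add_assoc, self, add_zero] at h1

/-- pairs of indices -/
lemma exj : ∀ i j : Fin 4, i ≠ j → ∃ p q, [i, j, p, q].Nodup := by decide

lemma nd_ne {k l m p : Fin 4} (h : [k, l, m, p].Nodup) :
    k ≠ l ∧ k ≠ m ∧ k ≠ p ∧ l ≠ m ∧ l ≠ p ∧ m ≠ p := by
  simp only [List.nodup_cons, List.mem_cons, List.not_mem_nil, or_false, not_or,
    List.nodup_nil, and_true, not_false_eq_true] at h
  obtain ⟨⟨h1, h2, h3⟩, ⟨h4, h5⟩, h6⟩ := h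
  exact ⟨h1, h2, h3, h4, h5, h6⟩

/-- the class of the obstruction -/
noncomputable def rr {L : Type} [AddCommGroup L] (b : Fin 4 → Fin 4 → L) (e : Sym2 (Fin 4)) : L :=
  ∑ p, if p ∈ e ∨ e.IsDiag then 0 else ∑ a, if a ∈ e then b p a else 0

lemma rr_eq {L : Type} [AddCommGroup L] (b : Fin 4 → Fin 4 → L) {k l m p : Fin 4}
    (h : [k, l, m, p].Nodup) : rr b s(k, l) = b m k + b m l + (b p k + b p l) := by
  obtain ⟨h1, h2, h3, h4, h5, h6⟩ := nd_ne h
  have hd : ¬ (s(k, l) : Sym2 (Fin 4)).IsDiag := by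
    rw [Sym2.mk_isDiag_iff]
    exact h1
  have hi : ∀ q, (∑ a, if a ∈ s(k, l) then b q a else 0) = b q k + b q l := by
    intro q
    rw [sum4 _ h]
    simp [h2.symm, h3.symm, h4.symm, h5.symm]
  unfold rr
  simp only [hi]
  rw [sum4 _ h]
  simp [hd, h2.symm, h3.symm, h4.symm, h5.symm]

lemma rr_diag {L : Type} [AddCommGroup L] (b : Fin 4 → Fin 4 → L) (e : Sym2 (Fin 4)) (h : e.IsDiag) :
    rr b e = 0 := by
  unfold rr
  exact sum_eq_zero fun p _ => if_pos (Or.inr h)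

lemma nd0 : [(0 : Fin 4), 1, 2, 3].Nodup := by decide

lemma rr_sum {L : Type} [AddCommGroup L] (h2 : ∀ x : L, x + x = 0) (b : Fin 4 → Fin 4 → L) :
    ∑ e, rr b e = 0 := by
  rw [sum6 _ (rr_diag b) nd0, rr_eq b (show [(0 : Fin 4), 1, 2, 3].Nodup by decide),
    rr_eq b (show [(1 : Fin 4), 2, 0, 3].Nodup by decide),
    rr_eq b (show [(0 : Fin 4), 2, 1, 3].Nodup by decide),
    rr_eq b (show [(0 : Fin 4), 3, 1, 2].Nodup by decide),
    rr_eq b (show [(1 : Fin 4), 3, 0, 2].Nodup by decide),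
    rr_eq b (show [(2 : Fin 4), 3, 0, 1].Nodup by decide)]
  have : b 2 0 + b 2 1 + (b 3 0 + b 3 1) + (b 0 1 + b 0 2 + (b 3 1 + b 3 2)) +
      (b 1 0 + b 1 2 + (b 3 0 + b 3 2)) + (b 1 0 + b 1 3 + (b 2 0 + b 2 3)) +
      (b 0 1 + b 0 3 + (b 2 1 + b 2 3)) + (b 0 2 + b 0 3 + (b 1 2 + b 1 3)) =
      (b 0 1 + b 0 1) + (b 0 2 + b 0 2) + (b 0 3 + b 0 3) + (b 1 0 + b 1 0) + (b 1 2 + b 1 2) +
      (b 1 3 + b 1 3) + (b 2 0 + b 2 0) + (b 2 1 + b 2 1) + (b 2 3 + b 2 3) + (b 3 0 + b 3 0) +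
      (b 3 1 + b 3 1) + (b 3 2 + b 3 2) := by abel
  rw [this]
  simp only [h2]

end R1AM

/-- **R1Z** (helper16).  THEOREM R1A with the weakest hypotheses: `J = G - u`; for `f` it is only needed that it is in
`F(G - u w_p)` for the four edges at `u`. -/
def SpecR1Z : Prop := ∀ {α : Type} [Fintype α] [DecidableEq α] {G : SimpleGraph α} {u : α} {w : Fin 4 → α},
  R1 G u w → U (del G {u}) → KZ (del G {u}) →
  (∀ i j, i ≠ j → ¬ G.Adj (w i) (w j) → KZ (del G {u} ⊔ fromEdgeSet {s(w i, w j)})) →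
  ∀ f : Finset (Sym2 α) → ZMod 2, D4even G f → (∀ p, InF (delE G u (w p)) f) → InF G f

open R1AM

theorem specR1Z (hBDF : SpecBDF) (hRP1 : SpecRP1) (hRP2 : SpecRP2) (hD4X : SpecD4X) (hKJM : SpecKJM)
    (hLDG : SpecLDG) (hKIL : SpecKIL) (hCJ1 : SpecCJ1) (hFEV : SpecFEV) (hS3F : SpecS3F)
    (hPOL : SpecPOL) : SpecR1Z := by
  intro α _ _ G u w hR hUJ hKJ hKA f hf hU
  obtain ⟨hK3, -, -, hwV, -⟩ := hCJ1 hR
  have hJ : U (del G {u}) ∧ KZ (del G {u}) := ⟨hUJ, hKJ⟩
  have hS3 : S3S (del G {u}) := hS3F.k3 hK3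
  obtain ⟨p₀, hp₀, hp₀0, l₀, hl₀⟩ := hJ.1 f (dmono (fun a b h => h.1) hf)
  set φ₀ : Finset (Sym2 α) → ZMod 2 := fun C => p₀ (chi C) + ∑ a, ∑ b, ∑ c, ∑ d, l₀ a b c d * coh a b c d C
    with hφ₀
  have hφF : InF G φ₀ := ⟨p₀, hp₀, hp₀0, l₀, fun C _ => rfl⟩
  set g : Finset (Sym2 α) → ZMod 2 := fun C => f C + φ₀ C with hg
  have hgD : D4even G g := by
    intro D
    rw [hg]
    simp only [sum_add_distrib]
    rw [hf D, hFEV G φ₀ hφF D, add_zero]
  have hg0 : ∀ C, IsCyc (del G {u}) C → g C = 0 := by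
    intro C hC
    show f C + φ₀ C = 0
    rw [hl₀ C hC]
    exact CharTwo.add_self_eq_zero _
  suffices hgF : InF G g by
    refine MEBM.inF_congr (MEBM.inF_add hPOL hgF hφF) fun C _ => ?_
    show f C = f C + φ₀ C + φ₀ C
    rw [add_assoc, CharTwo.add_self_eq_zero, add_zero]
  -- the representing forms for the four triples
  have hβ : ∀ p : Fin 4, ∃ β : Fin 4 → Sym2 α → Sym2 α → ZMod 2, (∀ a, Sy (β a)) ∧
      ∀ a b : Fin 4, a ≠ p → b ≠ p → a ≠ b →
        Rep (del G {u}) (w a) (w b) (fun P => g ({s(u, w a), s(u, w b)} ∪ P)) (β a + β b) := by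
    intro p
    have h1 : del (delE G u (w p)) {u} = del G {u} := del_delE G u (w p)
    obtain ⟨β, hs, hβ⟩ := hRP1 (delE G u (w p)) u (h1 ▸ hS3) (h1 ▸ hJ.2) g
      (MEBM.inF_add hPOL (hU p) (MEBM.inF_mono (deleteEdges_le _) hφF)) (by rw [h1]; exact hg0)
    rw [h1] at hβ
    have hadj : ∀ a : Fin 4, a ≠ p → (delE G u (w p)).Adj u (w a) := by
      intro a ha
      rw [delE, deleteEdges_adj]
      refine ⟨(hR.nu _).2 ⟨a, rfl⟩, fun h => ha (hR.inj ?_)⟩
      rw [Set.mem_singleton_iff, Sym2.eq_iff] at h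
      rcases h with h | h
      · exact h.2
      · exact h.2.trans h.1
    exact ⟨fun a => β (w a), fun a => hs _, fun a b ha hb hab => hβ _ _ (hadj a ha) (hadj b hb)
      fun h => hab (hR.inj h)⟩
  choose β hβs hβR using hβ
  -- the obstruction
  set L := ↥(Z1 (del G {u})) → ↥(Z1 (del G {u})) → ZMod 2 with hL
  have hsy : ∀ p a b, Sy (β p a + β p b) := fun p a b => sy_add (hβs p a) (hβs p b)
  let B : Fin 4 → Fin 4 → L := fun p a => rf (del G {u}) (β p a)
  have hself : ∀ x : L, x + x = 0 := fun x => self x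
  have hadjJ : ∀ i, (w i) ∈ VS (del G {u}) := hwV
  have hrK : ∀ e, rr B e ∈ KJ G u w e := by
    intro e
    by_cases he : e.IsDiag
    · rw [rr_diag B e he]
      exact Submodule.zero_mem _
    · induction e using Sym2.ind with
      | _ k l =>
        rw [Sym2.mk_isDiag_iff] at he
        obtain ⟨m, p, hn⟩ := exj k l he
        obtain ⟨h1, h2, h3, h4, h5, h6⟩ := nd_ne hn
        rw [hKJM.mem he, rr_eq B hn]
        refine ⟨(β m k + β m l) + (β p k + β p l), ⟨sy_add (hsy _ _ _) (hsy _ _ _), fun K => ?_⟩, ?_⟩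
        · rw [frm_add, ← hβR m k l h2 h4 he K, ← hβR p k l h3 h5 he K]
          exact CharTwo.add_self_eq_zero _
        · rw [rf_add, rf_add, rf_add]
  have hrS : ∑ e, rr B e = 0 := rr_sum hself B
  have hkill : ∀ k l m p : Fin 4, [k, l, m, p].Nodup → ∀ K : Ch2 (del G {u}) (w k) (w m), w l ∈ K.X 0 →
      w p ∈ K.X 2 → ∀ (hX : K.bd0 ∈ Z1 (del G {u})) (hY : K.bd1 ∈ Z1 (del G {u})),
      rr B s(k, l) ⟨K.bd0, hX⟩ ⟨K.bd1, hY⟩ = 0 := by
    intro k l m p hn K hl hp hX hY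
    obtain ⟨h1, h2, h3, h4, h5, h6⟩ := nd_ne hn
    have h7 := hD4X g hgD K hl hp (fun h => h1 (hR.inj h)) (fun h => h6 (hR.inj h))
      ((hR.nu _).2 ⟨k, rfl⟩) ((hR.nu _).2 ⟨l, rfl⟩) ((hR.nu _).2 ⟨m, rfl⟩) ((hR.nu _).2 ⟨p, rfl⟩)
      (β p k + β p m) (β m k + β m p) (β p l + β p m) (β m l + β m p)
      (hβR p k m h3 h6 h2) (hβR m k p h2 h6.symm h3) (hβR p l m h5 h6 h4) (hβR m l p h4 h6.symm h5)
    rw [rr_eq B hn]
    show frm (β m k) K.bd0 K.bd1 + frm (β m l) K.bd0 K.bd1 +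
      (frm (β p k) K.bd0 K.bd1 + frm (β p l) K.bd0 K.bd1) = 0
    simp only [frm_add] at h7
    have e2 : (2 : ZMod 2) = 0 := rfl
    linear_combination h7 - (frm (β p m) K.bd0 K.bd1 + frm (β m p) K.bd0 K.bd1) * e2
  obtain ⟨D, hDK, hDD, hDb⟩ := hLDG hR hJ.2 hKA
  obtain ⟨t, ht1, ht2, ht3, ht4⟩ := hKIL hR hJ.2 D hDK hDD hDb (rr B) hrK hrS hkill
  -- the corrected representing forms
  have htd : ∀ p e, e.IsDiag → t p e = 0 := by
    intro p e he
    have h1 := ht1 p e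
    rw [hKJM.diag e he] at h1
    exact (Submodule.mem_bot _).1 h1
  have hbb : ∀ p i j : Fin 4, ∃ bb : Sym2 α → Sym2 α → ZMod 2, i ≠ j →
      InK (del G {u}) (w i) (w j) bb ∧ t p s(i, j) = rf (del G {u}) bb := by
    intro p i j
    by_cases hij : i = j
    · exact ⟨0, fun h => absurd hij h⟩
    · obtain ⟨bb, h1, h2⟩ := (hKJM.mem hij _).1 (ht1 p s(i, j))
      exact ⟨bb, fun _ => ⟨h1, h2⟩⟩
  choose bb hbb using hbb
  let c : Fin 4 → Fin 4 → Fin 4 → Sym2 α → Sym2 α → ZMod 2 := fun p i j => β p i + β p j + bb p i j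
  let C : Fin 4 → Fin 4 → Fin 4 → L := fun p i j => B p i + B p j + t p s(i, j)
  have hcC : ∀ p i j, i ≠ j → rf (del G {u}) (c p i j) = C p i j := by
    intro p i j hij
    show rf (del G {u}) (β p i + β p j + bb p i j) = _
    rw [rf_add, rf_add, ← (hbb p i j hij).2]
  have hCs : ∀ p i j, C p i j = C p j i := by
    intro p i j
    show B p i + B p j + t p s(i, j) = B p j + B p i + t p s(j, i)
    rw [Sym2.eq_swap (a := i), add_comm (B p i)]
  have hcR : ∀ p i j, i ≠ p → j ≠ p → i ≠ j → ∀ K : Ch2 (del G {u}) (w i) (w j),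
      ∑ e : Fin 2 → Bool, g ({s(u, w i), s(u, w j)} ∪ K.pth e) = frm (c p i j) K.bd0 K.bd1 := by
    intro p i j h1 h2 h3 K
    rw [show c p i j = β p i + β p j + bb p i j from rfl, frm_add, (hbb p i j h3).1.2 K, add_zero]
    exact hβR p i j h1 h2 h3 K
  have hin : ∀ {i j p q : Fin 4}, [i, j, p, q].Nodup → C p i j = C q i j := by
    intro i j p q hn
    apply eq_of
    have h1 := ht4 s(i, j)
    rw [rr_eq B hn, sum4 _ hn, ht2 i _ (Sym2.mem_mk_left _ _), ht2 j _ (Sym2.mem_mk_right _ _),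
      zero_add, zero_add] at h1
    show B p i + B p j + t p s(i, j) + (B q i + B q j + t q s(i, j)) = 0
    have h2 : B p i + B p j + t p s(i, j) + (B q i + B q j + t q s(i, j)) =
        (B p i + B p j + (B q i + B q j)) + (t p s(i, j) + t q s(i, j)) := by abel
    rw [h2, h1]
    exact hself _
  have htri : ∀ {i j k p : Fin 4}, [i, j, k, p].Nodup → C p i j + C p j k + C p i k = 0 := by
    intro i j k p hn
    have h1 := ht3 p
    rw [sum6 _ (htd p) hn, ht2 p s(i, p) (Sym2.mem_mk_right _ _), ht2 p s(j, p) (Sym2.mem_mk_right _ _),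
      ht2 p s(k, p) (Sym2.mem_mk_right _ _), add_zero, add_zero, add_zero] at h1
    have h2 : C p i j + C p j k + C p i k = (B p i + B p i) + (B p j + B p j) + (B p k + B p k) +
        (t p s(i, j) + t p s(j, k) + t p s(i, k)) := by
      show B p i + B p j + t p s(i, j) + (B p j + B p k + t p s(j, k)) +
        (B p i + B p k + t p s(i, k)) = _
      abel
    rw [h2, h1, hself (B p i), hself (B p j), hself (B p k)]
    simp
  let p0 : Fin 4 → Fin 4 := ![1, 2, 3, 1]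
  let γ : Fin 4 → Sym2 α → Sym2 α → ZMod 2 := fun i => if i = 0 then 0 else c (p0 i) 0 i
  have hγ : ∀ i q, i ≠ 0 → q ≠ 0 → q ≠ i → rf (del G {u}) (γ i) = C q 0 i := by
    intro i q hi hq hqi
    have h1 : γ i = c (p0 i) 0 i := if_neg hi
    rw [h1, hcC _ _ _ hi.symm]
    by_cases h2 : q = p0 i
    · rw [h2]
    · have h3 : p0 i ≠ 0 ∧ p0 i ≠ i := by
        show (![1, 2, 3, 1] : Fin 4 → Fin 4) i ≠ 0 ∧ (![1, 2, 3, 1] : Fin 4 → Fin 4) i ≠ i
        revert hi
        fin_cases i <;> decide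
      apply hin
      simp only [List.nodup_cons, List.mem_cons, List.not_mem_nil, or_false, not_or,
        List.nodup_nil, and_true, not_false_eq_true]
      exact ⟨⟨hi.symm, h3.1.symm, hq.symm⟩, ⟨h3.2.symm, hqi.symm⟩, fun h => h2 h.symm⟩
  have hγγ : ∀ i j, i ≠ j → ∃ p, i ≠ p ∧ j ≠ p ∧ rf (del G {u}) (γ i + γ j) = C p i j := by
    intro i j hij
    by_cases hi : i = 0
    · subst hi
      obtain ⟨p, q, hn⟩ := exj 0 j hij
      obtain ⟨h1, h2, h3, h4, h5, h6⟩ := nd_ne hn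
      refine ⟨p, h2, h4, ?_⟩
      rw [rf_add, hγ j p hij.symm h2.symm h4.symm, show γ 0 = 0 from if_pos rfl, rf_zero, zero_add]
    · by_cases hj : j = 0
      · subst hj
        obtain ⟨p, q, hn⟩ := exj i 0 hij
        obtain ⟨h1, h2, h3, h4, h5, h6⟩ := nd_ne hn
        refine ⟨p, h2, h4, ?_⟩
        rw [rf_add, hγ i p hi h4.symm h2.symm, show γ 0 = 0 from if_pos rfl, rf_zero, add_zero, hCs]
      · obtain ⟨p, hn⟩ : ∃ p, [0, i, j, p].Nodup := by
          revert hi hj hij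
          revert i j
          decide
        obtain ⟨h1, h2, h3, h4, h5, h6⟩ := nd_ne hn
        refine ⟨p, h5, h6, ?_⟩
        rw [rf_add, hγ i p hi h3.symm h5.symm, hγ j p hj h3.symm h6.symm]
        have h7 := htri hn
        -- C p 0 i + C p i j + C p 0 j = 0
        have h8 : C p 0 i + C p 0 j + C p i j = 0 := by
          rw [← h7]
          abel
        exact eq_of h8
  -- the final step
  refine hRP2 G u g hg0 (fun x => ∑ a, if x = w a then γ a else 0) ?_ ?_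
  · have hγs : ∀ i, Sy (γ i) := by
      intro i
      show Sy (if i = 0 then 0 else c (p0 i) 0 i)
      split_ifs with h
      · exact sy_zero
      · exact sy_add (hsy _ _ _) (hbb (p0 i) 0 i fun h' => h h'.symm).1.1
    intro x
    refine sum_induction (fun a => if x = w a then γ a else 0) Sy (fun _ _ => sy_add) sy_zero ?_
    intro a _
    show Sy (if x = w a then γ a else 0)
    split_ifs
    · exact hγs a
    · exact sy_zero
  · have hγw : ∀ a, (∑ a', if w a = w a' then γ a' else 0) = γ a := by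
      intro a
      rw [sum_eq_single a]
      · simp
      · intro b _ hb
        rw [if_neg fun h => hb (hR.inj h).symm]
      · simp
    intro x y hx hy hxy
    obtain ⟨i, rfl⟩ := (hR.nu x).1 hx
    obtain ⟨j, rfl⟩ := (hR.nu y).1 hy
    have hij : i ≠ j := fun h => hxy (by rw [h])
    simp only [hγw]
    intro K
    obtain ⟨p, h1, h2, h3⟩ := hγγ i j hij
    obtain ⟨hX, hY⟩ := hBDF.z0 K
    have h4 : rf (del G {u}) (γ i + γ j) ⟨K.bd0, hX⟩ ⟨K.bd1, hY⟩ =
        rf (del G {u}) (c p i j) ⟨K.bd0, hX⟩ ⟨K.bd1, hY⟩ := by rw [h3, hcC p i j hij]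
    exact (hcR p i j h1 h2 hij K).trans h4.symm

theorem specR1A (hR1Z : SpecR1Z) (hCJ1 : SpecCJ1) : SpecR1A := by
  intro α _ _ G u w hR IH hU f hf
  obtain ⟨hK3, hC1, hVS, hwV, hadd⟩ := hCJ1 hR
  have huV : u ∈ VS G := by
    have h1 : G.Adj u (w 0) := (hR.nu _).2 ⟨0, rfl⟩
    simp only [VS, mem_filter, mem_univ, true_and]
    exact ⟨w 0, h1⟩
  have h8 : 8 ≤ (VS G).card := hR.k48.2
  have hcard : (VS (del G {u})).card + 1 = (VS G).card := by
    rw [hVS, card_erase_of_mem huV]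
    omega
  have hJ := IH (del G {u}) hC1 hR.np (by omega) (by omega)
  refine hR1Z hR hJ.1 hJ.2 (fun i j hij hn => ?_) f hf fun p => hU p f (dmono (deleteEdges_le _) hf)
  obtain ⟨h1, h2, h3⟩ := hadd i j hij hn
  exact (IH _ h1 h2 (by rw [h3, ← hVS]; omega) (by rw [h3, ← hVS]; omega)).2

end DL
end

section
/-!
# MP_3ff0f8_gt, ALGEBRA HALF: R1A with the hypotheses used by the induction (helper61; the proof is helper16's R1A.lean)

`R1B`: instead of the induction hypothesis for all graphs with fewer vertices only `U J`, `KZ J`, `KZ (J + w_i w_j)`; instead of `U (delE G u w_p)` only `f ∈ F(delE G u w_p)`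
for the given `D_4`-even functions `f` of `G`.
-/
open SimpleGraph Finset

namespace DL

/-- **R1B** (from the same Specs as R1A) -/
def SpecR1B : Prop := ∀ {α : Type} [Fintype α] [DecidableEq α] {G : SimpleGraph α} {u : α} {w : Fin 4 → α},
  R1 G u w → U (del G {u}) → KZ (del G {u}) →
  (∀ i j, i ≠ j → ¬ G.Adj (w i) (w j) → KZ (del G {u} ⊔ fromEdgeSet {s(w i, w j)})) →
  (∀ f, D4even G f → ∀ p, InF (delE G u (w p)) f) → U G

open R1AM

theorem specR1B (hBDF : SpecBDF) (hRP1 : SpecRP1) (hRP2 : SpecRP2) (hD4X : SpecD4X) (hKJM : SpecKJM)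
    (hLDG : SpecLDG) (hKIL : SpecKIL) (hCJ1 : SpecCJ1) (hFEV : SpecFEV) (hS3F : SpecS3F)
    (hPOL : SpecPOL) : SpecR1B := by
  intro α _ _ G u w hR hJU hJK hJe hU f hf
  obtain ⟨hK3, hC1, hVS, hwV, hadd⟩ := hCJ1 hR
  have huV : u ∈ VS G := by
    have h1 : G.Adj u (w 0) := (hR.nu _).2 ⟨0, rfl⟩
    simp only [VS, mem_filter, mem_univ, true_and]
    exact ⟨w 0, h1⟩
  have h8 : 8 ≤ (VS G).card := by
    have h1 := hR.k48.2
    exact h1
  have hcard : (VS (del G {u})).card + 1 = (VS G).card := by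
    rw [hVS, card_erase_of_mem huV]
    omega
  have hJ : U (del G {u}) ∧ KZ (del G {u}) := ⟨hJU, hJK⟩
  have hS3 : S3S (del G {u}) := hS3F.k3 hK3
  -- replace f
  obtain ⟨p₀, hp₀, hp₀0, l₀, hl₀⟩ := hJ.1 f (dmono (fun a b h => h.1) hf)
  set φ₀ : Finset (Sym2 α) → ZMod 2 := fun C => p₀ (chi C) + ∑ a, ∑ b, ∑ c, ∑ d, l₀ a b c d * coh a b c d C
    with hφ₀
  have hφF : InF G φ₀ := ⟨p₀, hp₀, hp₀0, l₀, fun C _ => rfl⟩
  set g : Finset (Sym2 α) → ZMod 2 := fun C => f C + φ₀ C with hg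
  have hgD : D4even G g := by
    intro D
    rw [hg]
    simp only [sum_add_distrib]
    rw [hf D, hFEV G φ₀ hφF D, add_zero]
  have hg0 : ∀ C, IsCyc (del G {u}) C → g C = 0 := by
    intro C hC
    show f C + φ₀ C = 0
    rw [hl₀ C hC]
    exact CharTwo.add_self_eq_zero _
  suffices hgF : InF G g by
    refine MEBM.inF_congr (MEBM.inF_add hPOL hgF hφF) fun C _ => ?_
    show f C = f C + φ₀ C + φ₀ C
    rw [add_assoc, CharTwo.add_self_eq_zero, add_zero]
  -- the representing forms for the four triples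
  have hβ : ∀ p : Fin 4, ∃ β : Fin 4 → Sym2 α → Sym2 α → ZMod 2, (∀ a, Sy (β a)) ∧
      ∀ a b : Fin 4, a ≠ p → b ≠ p → a ≠ b →
        Rep (del G {u}) (w a) (w b) (fun P => g ({s(u, w a), s(u, w b)} ∪ P)) (β a + β b) := by
    intro p
    have h1 : del (delE G u (w p)) {u} = del G {u} := del_delE G u (w p)
    obtain ⟨β, hs, hβ⟩ := hRP1 (delE G u (w p)) u (h1 ▸ hS3) (h1 ▸ hJ.2) g
      (hU g hgD p) (by rw [h1]; exact hg0)
    rw [h1] at hβ
    have hadj : ∀ a : Fin 4, a ≠ p → (delE G u (w p)).Adj u (w a) := by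
      intro a ha
      rw [delE, deleteEdges_adj]
      refine ⟨(hR.nu _).2 ⟨a, rfl⟩, fun h => ha (hR.inj ?_)⟩
      rw [Set.mem_singleton_iff, Sym2.eq_iff] at h
      rcases h with h | h
      · exact h.2
      · exact h.2.trans h.1
    exact ⟨fun a => β (w a), fun a => hs _, fun a b ha hb hab => hβ _ _ (hadj a ha) (hadj b hb)
      fun h => hab (hR.inj h)⟩
  choose β hβs hβR using hβ
  -- the obstruction
  set L := ↥(Z1 (del G {u})) → ↥(Z1 (del G {u})) → ZMod 2 with hL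
  have hsy : ∀ p a b, Sy (β p a + β p b) := fun p a b => sy_add (hβs p a) (hβs p b)
  let B : Fin 4 → Fin 4 → L := fun p a => rf (del G {u}) (β p a)
  have hself : ∀ x : L, x + x = 0 := fun x => self x
  have hadjJ : ∀ i, (w i) ∈ VS (del G {u}) := hwV
  have hrK : ∀ e, rr B e ∈ KJ G u w e := by
    intro e
    by_cases he : e.IsDiag
    · rw [rr_diag B e he]
      exact Submodule.zero_mem _
    · induction e using Sym2.ind with
      | _ k l =>
        rw [Sym2.mk_isDiag_iff] at he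
        obtain ⟨m, p, hn⟩ := exj k l he
        obtain ⟨h1, h2, h3, h4, h5, h6⟩ := nd_ne hn
        rw [hKJM.mem he, rr_eq B hn]
        refine ⟨(β m k + β m l) + (β p k + β p l), ⟨sy_add (hsy _ _ _) (hsy _ _ _), fun K => ?_⟩, ?_⟩
        · rw [frm_add, ← hβR m k l h2 h4 he K, ← hβR p k l h3 h5 he K]
          exact CharTwo.add_self_eq_zero _
        · rw [rf_add, rf_add, rf_add]
  have hrS : ∑ e, rr B e = 0 := rr_sum hself B
  have hkill : ∀ k l m p : Fin 4, [k, l, m, p].Nodup → ∀ K : Ch2 (del G {u}) (w k) (w m), w l ∈ K.X 0 →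
      w p ∈ K.X 2 → ∀ (hX : K.bd0 ∈ Z1 (del G {u})) (hY : K.bd1 ∈ Z1 (del G {u})),
      rr B s(k, l) ⟨K.bd0, hX⟩ ⟨K.bd1, hY⟩ = 0 := by
    intro k l m p hn K hl hp hX hY
    obtain ⟨h1, h2, h3, h4, h5, h6⟩ := nd_ne hn
    have h7 := hD4X g hgD K hl hp (fun h => h1 (hR.inj h)) (fun h => h6 (hR.inj h))
      ((hR.nu _).2 ⟨k, rfl⟩) ((hR.nu _).2 ⟨l, rfl⟩) ((hR.nu _).2 ⟨m, rfl⟩) ((hR.nu _).2 ⟨p, rfl⟩)
      (β p k + β p m) (β m k + β m p) (β p l + β p m) (β m l + β m p)
      (hβR p k m h3 h6 h2) (hβR m k p h2 h6.symm h3) (hβR p l m h5 h6 h4) (hβR m l p h4 h6.symm h5)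
    rw [rr_eq B hn]
    show frm (β m k) K.bd0 K.bd1 + frm (β m l) K.bd0 K.bd1 +
      (frm (β p k) K.bd0 K.bd1 + frm (β p l) K.bd0 K.bd1) = 0
    simp only [frm_add] at h7
    have e2 : (2 : ZMod 2) = 0 := rfl
    linear_combination h7 - (frm (β p m) K.bd0 K.bd1 + frm (β m p) K.bd0 K.bd1) * e2
  obtain ⟨D, hDK, hDD, hDb⟩ := hLDG hR hJ.2 hJe
  obtain ⟨t, ht1, ht2, ht3, ht4⟩ := hKIL hR hJ.2 D hDK hDD hDb (rr B) hrK hrS hkill
  -- the corrected representing forms
  have htd : ∀ p e, e.IsDiag → t p e = 0 := by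
    intro p e he
    have h1 := ht1 p e
    rw [hKJM.diag e he] at h1
    exact (Submodule.mem_bot _).1 h1
  have hbb : ∀ p i j : Fin 4, ∃ bb : Sym2 α → Sym2 α → ZMod 2, i ≠ j →
      InK (del G {u}) (w i) (w j) bb ∧ t p s(i, j) = rf (del G {u}) bb := by
    intro p i j
    by_cases hij : i = j
    · exact ⟨0, fun h => absurd hij h⟩
    · obtain ⟨bb, h1, h2⟩ := (hKJM.mem hij _).1 (ht1 p s(i, j))
      exact ⟨bb, fun _ => ⟨h1, h2⟩⟩
  choose bb hbb using hbb
  let c : Fin 4 → Fin 4 → Fin 4 → Sym2 α → Sym2 α → ZMod 2 := fun p i j => β p i + β p j + bb p i j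
  let C : Fin 4 → Fin 4 → Fin 4 → L := fun p i j => B p i + B p j + t p s(i, j)
  have hcC : ∀ p i j, i ≠ j → rf (del G {u}) (c p i j) = C p i j := by
    intro p i j hij
    show rf (del G {u}) (β p i + β p j + bb p i j) = _
    rw [rf_add, rf_add, ← (hbb p i j hij).2]
  have hCs : ∀ p i j, C p i j = C p j i := by
    intro p i j
    show B p i + B p j + t p s(i, j) = B p j + B p i + t p s(j, i)
    rw [Sym2.eq_swap (a := i), add_comm (B p i)]
  have hcR : ∀ p i j, i ≠ p → j ≠ p → i ≠ j → ∀ K : Ch2 (del G {u}) (w i) (w j),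
      ∑ e : Fin 2 → Bool, g ({s(u, w i), s(u, w j)} ∪ K.pth e) = frm (c p i j) K.bd0 K.bd1 := by
    intro p i j h1 h2 h3 K
    rw [show c p i j = β p i + β p j + bb p i j from rfl, frm_add, (hbb p i j h3).1.2 K, add_zero]
    exact hβR p i j h1 h2 h3 K
  have hin : ∀ {i j p q : Fin 4}, [i, j, p, q].Nodup → C p i j = C q i j := by
    intro i j p q hn
    apply eq_of
    have h1 := ht4 s(i, j)
    rw [rr_eq B hn, sum4 _ hn, ht2 i _ (Sym2.mem_mk_left _ _), ht2 j _ (Sym2.mem_mk_right _ _),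
      zero_add, zero_add] at h1
    show B p i + B p j + t p s(i, j) + (B q i + B q j + t q s(i, j)) = 0
    have h2 : B p i + B p j + t p s(i, j) + (B q i + B q j + t q s(i, j)) =
        (B p i + B p j + (B q i + B q j)) + (t p s(i, j) + t q s(i, j)) := by abel
    rw [h2, h1]
    exact hself _
  have htri : ∀ {i j k p : Fin 4}, [i, j, k, p].Nodup → C p i j + C p j k + C p i k = 0 := by
    intro i j k p hn
    have h1 := ht3 p
    rw [sum6 _ (htd p) hn, ht2 p s(i, p) (Sym2.mem_mk_right _ _), ht2 p s(j, p) (Sym2.mem_mk_right _ _),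
      ht2 p s(k, p) (Sym2.mem_mk_right _ _), add_zero, add_zero, add_zero] at h1
    have h2 : C p i j + C p j k + C p i k = (B p i + B p i) + (B p j + B p j) + (B p k + B p k) +
        (t p s(i, j) + t p s(j, k) + t p s(i, k)) := by
      show B p i + B p j + t p s(i, j) + (B p j + B p k + t p s(j, k)) +
        (B p i + B p k + t p s(i, k)) = _
      abel
    rw [h2, h1, hself (B p i), hself (B p j), hself (B p k)]
    simp
  let p0 : Fin 4 → Fin 4 := ![1, 2, 3, 1]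
  let γ : Fin 4 → Sym2 α → Sym2 α → ZMod 2 := fun i => if i = 0 then 0 else c (p0 i) 0 i
  have hγ : ∀ i q, i ≠ 0 → q ≠ 0 → q ≠ i → rf (del G {u}) (γ i) = C q 0 i := by
    intro i q hi hq hqi
    have h1 : γ i = c (p0 i) 0 i := if_neg hi
    rw [h1, hcC _ _ _ hi.symm]
    by_cases h2 : q = p0 i
    · rw [h2]
    · have h3 : p0 i ≠ 0 ∧ p0 i ≠ i := by
        show (![1, 2, 3, 1] : Fin 4 → Fin 4) i ≠ 0 ∧ (![1, 2, 3, 1] : Fin 4 → Fin 4) i ≠ i
        revert hi
        fin_cases i <;> decide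
      apply hin
      simp only [List.nodup_cons, List.mem_cons, List.not_mem_nil, or_false, not_or,
        List.nodup_nil, and_true, not_false_eq_true]
      exact ⟨⟨hi.symm, h3.1.symm, hq.symm⟩, ⟨h3.2.symm, hqi.symm⟩, fun h => h2 h.symm⟩
  have hγγ : ∀ i j, i ≠ j → ∃ p, i ≠ p ∧ j ≠ p ∧ rf (del G {u}) (γ i + γ j) = C p i j := by
    intro i j hij
    by_cases hi : i = 0
    · subst hi
      obtain ⟨p, q, hn⟩ := exj 0 j hij
      obtain ⟨h1, h2, h3, h4, h5, h6⟩ := nd_ne hn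
      refine ⟨p, h2, h4, ?_⟩
      rw [rf_add, hγ j p hij.symm h2.symm h4.symm, show γ 0 = 0 from if_pos rfl, rf_zero, zero_add]
    · by_cases hj : j = 0
      · subst hj
        obtain ⟨p, q, hn⟩ := exj i 0 hij
        obtain ⟨h1, h2, h3, h4, h5, h6⟩ := nd_ne hn
        refine ⟨p, h2, h4, ?_⟩
        rw [rf_add, hγ i p hi h4.symm h2.symm, show γ 0 = 0 from if_pos rfl, rf_zero, add_zero, hCs]
      · obtain ⟨p, hn⟩ : ∃ p, [0, i, j, p].Nodup := by
          revert hi hj hij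
          revert i j
          decide
        obtain ⟨h1, h2, h3, h4, h5, h6⟩ := nd_ne hn
        refine ⟨p, h5, h6, ?_⟩
        rw [rf_add, hγ i p hi h3.symm h5.symm, hγ j p hj h3.symm h6.symm]
        have h7 := htri hn
        -- C p 0 i + C p i j + C p 0 j = 0
        have h8 : C p 0 i + C p 0 j + C p i j = 0 := by
          rw [← h7]
          abel
        exact eq_of h8
  -- the final step
  refine hRP2 G u g hg0 (fun x => ∑ a, if x = w a then γ a else 0) ?_ ?_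
  · have hγs : ∀ i, Sy (γ i) := by
      intro i
      show Sy (if i = 0 then 0 else c (p0 i) 0 i)
      split_ifs with h
      · exact sy_zero
      · exact sy_add (hsy _ _ _) (hbb (p0 i) 0 i fun h' => h h'.symm).1.1
    intro x
    refine sum_induction (fun a => if x = w a then γ a else 0) Sy (fun _ _ => sy_add) sy_zero ?_
    intro a _
    show Sy (if x = w a then γ a else 0)
    split_ifs
    · exact hγs a
    · exact sy_zero
  · have hγw : ∀ a, (∑ a', if w a = w a' then γ a' else 0) = γ a := by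
      intro a
      rw [sum_eq_single a]
      · simp
      · intro b _ hb
        rw [if_neg fun h => hb (hR.inj h).symm]
      · simp
    intro x y hx hy hxy
    obtain ⟨i, rfl⟩ := (hR.nu x).1 hx
    obtain ⟨j, rfl⟩ := (hR.nu y).1 hy
    have hij : i ≠ j := fun h => hxy (by rw [h])
    simp only [hγw]
    intro K
    obtain ⟨p, h1, h2, h3⟩ := hγγ i j hij
    obtain ⟨hX, hY⟩ := hBDF.z0 K
    have h4 : rf (del G {u}) (γ i + γ j) ⟨K.bd0, hX⟩ ⟨K.bd1, hY⟩ =
        rf (del G {u}) (c p i j) ⟨K.bd0, hX⟩ ⟨K.bd1, hY⟩ := by rw [h3, hcC p i j hij]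
    exact (hcR p i j h1 h2 hij K).trans h4.symm

end DL
end

section
/-!
MP_3ff0f8_gt, ALGEBRA HALF, R1A block, module TPD (helper56): the chain with the trees `{w k, w l}`, `T`, `{w m, w p}`.
-/
open SimpleGraph Finset

namespace DL

namespace TPDM

variable {α : Type} [Fintype α] [DecidableEq α]

/-- a chain from three trees -/
def mk {G : SimpleGraph α} {T0 T1 T2 : SimpleGraph α} {X0 X1 X2 : Finset α} (h0 : TreeOn T0 X0)
    (h1 : TreeOn T1 X1) (h2 : TreeOn T2 X2) (l0 : T0 ≤ G) (l1 : T1 ≤ G) (l2 : T2 ≤ G)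
    (d01 : Disjoint X0 X1) (d02 : Disjoint X0 X2) (d12 : Disjoint X1 X2)
    (s s' a a' b b' t t' : α) (hs : s ∈ X0) (hs' : s' ∈ X0) (ha : a ∈ X1) (ha' : a' ∈ X1)
    (hb : b ∈ X1) (hb' : b' ∈ X1) (ht : t ∈ X2) (ht' : t' ∈ X2)
    (e1 : G.Adj s a) (e2 : G.Adj s' a') (e3 : G.Adj b t) (e4 : G.Adj b' t')
    (n1 : s(s, a) ≠ s(s', a')) (n2 : s(b, t) ≠ s(b', t')) : Ch2 G s t where
  X := ![X0, X1, X2]
  disj := by
    intro i j hij
    fin_cases i <;> fin_cases j
    · exact absurd rfl hij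
    · exact d01
    · exact d02
    · exact d01.symm
    · exact absurd rfl hij
    · exact d12
    · exact d02.symm
    · exact d12.symm
    · exact absurd rfl hij
  T := ![T0, T1, T2]
  sub := by
    intro i
    fin_cases i
    exacts [l0, l1, l2]
  inX := by
    intro i
    fin_cases i
    exacts [h0.inX, h1.inX, h2.inX]
  conn := by
    intro i
    fin_cases i
    exacts [h0.conn, h1.conn, h2.conn]
  acyc := by
    intro i
    fin_cases i
    exacts [h0.acyc, h1.acyc, h2.acyc]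
  sX := hs
  tX := ht
  p := ![fun c => if c then s' else s, fun c => if c then b' else b]
  q := ![fun c => if c then a' else a, fun c => if c then t' else t]
  pX := by
    intro i c
    fin_cases i <;> cases c
    exacts [hs, hs', hb, hb']
  qX := by
    intro i c
    fin_cases i <;> cases c
    exacts [ha, ha', ht, ht']
  adj := by
    intro i c
    fin_cases i <;> cases c
    exacts [e1, e2, e3, e4]
  ne := by
    intro i
    fin_cases i
    exacts [n1, n2]

end TPDM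

open TPDM

theorem specTPD (hBDF : SpecBDF) (hTRE : SpecTRE) : SpecTPD := by
  intro α _ _ G u w hR k l m p hn hkl hmp T X hT hTG hXC ak hak al hal am ham ap hap ekk ell emm epp
  have hw : ∀ i, w i ≠ u := fun i => ((hR.nu (w i)).2 ⟨i, rfl⟩).ne.symm
  have hX : ∀ x ∈ X, x ≠ u ∧ ∀ i, x ≠ w i := by
    intro x hx
    have h := hXC hx
    rw [CC, mem_sdiff, mem_insert, not_or, WW, mem_image] at h
    exact ⟨h.2.1, fun i hi => h.2.2 ⟨i, mem_univ _, hi.symm⟩⟩
  have hadj : ∀ {a b}, G.Adj a b → a ≠ u → b ≠ u → (del G {u}).Adj a b := by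
    intro a b hab ha hb
    exact ⟨hab, by rwa [mem_singleton], by rwa [mem_singleton]⟩
  have hne : ∀ {i j : Fin 4}, i ≠ j → w i ≠ w j := fun h e => h (hR.inj e)
  simp only [List.nodup_cons, List.mem_cons, List.not_mem_nil, or_false, not_or, List.nodup_nil,
    not_false_iff, and_true] at hn
  obtain ⟨⟨h1, h2, h3⟩, ⟨h4, h5⟩, h6⟩ := hn
  have pk := hTRE.pth (IsPth.edge hkl)
  have pm := hTRE.pth (IsPth.edge hmp)
  have ev : ∀ a b : α, insert a (vs ({s(a, b)} : Finset (Sym2 α))) = {a, b} := by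
    intro a b
    rw [vs_singleton]
    simp
  rw [ev] at pk pm
  have le : ∀ {a b}, G.Adj a b → a ≠ u → b ≠ u →
      fromEdgeSet ((({s(a, b)} : Finset (Sym2 α)) : Set (Sym2 α))) ≤ del G {u} := by
    intro a b hab ha hb x y hxy
    rw [fromEdgeSet_adj, mem_coe, mem_singleton, Sym2.eq_iff] at hxy
    rcases hxy.1 with ⟨rfl, rfl⟩ | ⟨rfl, rfl⟩
    · exact hadj hab ha hb
    · exact hadj hab.symm hb ha
  have lT : T ≤ del G {u} := fun x y hxy =>
    hadj (hTG hxy) (hX x (hT.inX x y hxy)).1 (hX y (hT.inX y x hxy.symm)).1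
  have dX : ∀ i j : Fin 4, Disjoint ({w i, w j} : Finset α) X := by
    intro i j
    rw [Finset.disjoint_left]
    intro x hx hx'
    rw [mem_insert, mem_singleton] at hx
    rcases hx with rfl | rfl
    · exact (hX _ hx').2 _ rfl
    · exact (hX _ hx').2 _ rfl
  have d02 : Disjoint ({w k, w l} : Finset α) {w m, w p} := by
    rw [Finset.disjoint_left]
    intro x hx hx'
    rw [mem_insert, mem_singleton] at hx hx'
    rcases hx with rfl | rfl <;> rcases hx' with h | h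
    exacts [hne h2 h, hne h3 h, hne h4 h, hne h5 h]
  let K : Ch2 (del G {u}) (w k) (w m) := TPDM.mk pk.1 hT pm.1 (le hkl (hw _) (hw _)) lT
    (le hmp (hw _) (hw _)) (dX k l) d02 (dX m p).symm (w k) (w l) ak al am ap (w m) (w p)
    (by simp) (by simp) hak hal ham hap (by simp) (by simp) (hadj ekk (hw _) (hX _ hak).1)
    (hadj ell (hw _) (hX _ hal).1) (hadj emm.symm (hX _ ham).1 (hw _))
    (hadj epp.symm (hX _ hap).1 (hw _))
    (by
      intro h
      rw [Sym2.eq_iff] at h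
      rcases h with ⟨h, -⟩ | ⟨h, -⟩
      · exact hne h1 h
      · exact (hX _ hal).2 _ h.symm)
    (by
      intro h
      rw [Sym2.eq_iff] at h
      rcases h with ⟨-, h⟩ | ⟨-, h⟩
      · exact hne h6 h
      · exact (hX _ hap).2 _ h.symm)
  refine ⟨K, ?_, ?_, ?_, ?_⟩
  · show w l ∈ ({w k, w l} : Finset α)
    simp
  · show w p ∈ ({w m, w p} : Finset α)
    simp
  · rw [(hBDF.eq K).1]
    show ed (w k) ak + ed (w l) al +
      chi (tp (fromEdgeSet ((({s(w k, w l)} : Finset (Sym2 α)) : Set (Sym2 α)))) (w k) (w l)) +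
      chi (tp T ak al) = _
    rw [pk.2]
    rfl
  · rw [(hBDF.eq K).2]
    show ed am (w m) + ed ap (w p) + chi (tp T am ap) +
      chi (tp (fromEdgeSet ((({s(w m, w p)} : Finset (Sym2 α)) : Set (Sym2 α)))) (w m) (w p)) = _
    rw [pm.2, ed_comm am, ed_comm ap]
    show ed (w m) am + ed (w p) ap + chi (tp T am ap) + ed (w m) (w p) = _
    abel

end DL
end
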