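import Pool.Agent.DL.R1A.Base

/-!
# MP_3ff0f8_gt, ALGEBRA HALF, R1A block (helper16): rigid vertices of degree 4 with nonplanar `G - u`

Module `XXX` = file `DL/R1A/XXX.lean`, theorem `specXXX (hYYY : SpecYYY) … : SpecXXX`; the hypotheses may be any other
Specs named in the docstring (also of `DL/EX`, `DL/K`, `DL/NP`); own lemmas in the namespace `DL.XXXM`.  Base library:
`DL/PC.lean`, `DL/PC2.lean`, `DL/MENG.lean`, `DL/KC.lean`, `DL/TREE.lean`, and `DL/R1A/{Defs,Base}.lean` (read them first; Base is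
proved: bilinearity of `frm`, `At`, `FE`, `RLN.eval`, `TRel.add`, `TRel.move`).  The docstrings are self-contained; text:
/team-store/MP_3ff0f8_gt_R1A_h34.md (the proof here differs: no bases, no two paths theorem).

Notation: `G` 4-connected, `n ≥ 8` vertices, `u` rigid with neighbours `w 0, …, w 3`, `J = del G {u}`, `C = CC G u w` the other
vertices, `M = MM G u w` = `J` without the edges `w i w j`; a FORM is a symmetric matrix `b`, value `frm b X Y`.  `x_e` = the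
coordinate `e`, `x_e . v` = `dtm (ed e) v`, `a^{[2]}` = `sqm a`.  NB1 = `NBF.nb`: a nonempty `A` with `(NB G A).card ≤ 3` satisfies `VS G ⊆ A ∪ NB G A`.
NB2 = `NBF.rig`: `u ∈ NB G A`, `(NB G A).card = 4`, `2 ≤ A.card` imply `(VS G \ (A ∪ NB G A)).card ≤ 1`.
-/

open SimpleGraph Finset

namespace DL

/-! ## A. Beads, representing forms -/

/-- **BDF** (from TRE, DCB; 250 lines).  Beads.  `eq`: from `DCB.pth` (`chi` of the four paths) and `TRE.four`.  `z0`: chains of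
cycles (DCB.bead).  `s0`, `s1`: from `eq` (a tree path of `T i` has its vertices in `X i`).  `sw`: DCB.four.  `re`: the same trees
and edges with other ends (the beads do not depend on the ends, `eq`).  `rv`: the reversed chain (`X' i = X (2 - i)` etc.).  `mono`: a
chain of `G` is a chain of `G' ≥ G`. -/
structure SpecBDF : Prop where
  z0 : ∀ {α : Type} [Fintype α] [DecidableEq α] {G : SimpleGraph α} {s t : α} (K : Ch2 G s t),
    K.bd0 ∈ Z1 G ∧ K.bd1 ∈ Z1 G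
  eq : ∀ {α : Type} [Fintype α] [DecidableEq α] {G : SimpleGraph α} {s t : α} (K : Ch2 G s t),
    K.bd0 = ed (K.p 0 false) (K.q 0 false) + ed (K.p 0 true) (K.q 0 true) +
      chi (tp (K.T 0) (K.p 0 false) (K.p 0 true)) + chi (tp (K.T 1) (K.q 0 false) (K.q 0 true)) ∧
    K.bd1 = ed (K.p 1 false) (K.q 1 false) + ed (K.p 1 true) (K.q 1 true) +
      chi (tp (K.T 1) (K.p 1 false) (K.p 1 true)) + chi (tp (K.T 2) (K.q 1 false) (K.q 1 true))
  s0 : ∀ {α : Type} [Fintype α] [DecidableEq α] {G : SimpleGraph α} {s t : α} (K : Ch2 G s t) (e : Sym2 α),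
    K.bd0 e ≠ 0 → ∀ v ∈ e, v ∈ K.X 0 ∨ v ∈ K.X 1
  s1 : ∀ {α : Type} [Fintype α] [DecidableEq α] {G : SimpleGraph α} {s t : α} (K : Ch2 G s t) (e : Sym2 α),
    K.bd1 e ≠ 0 → ∀ v ∈ e, v ∈ K.X 1 ∨ v ∈ K.X 2
  sw : ∀ {α : Type} [Fintype α] [DecidableEq α] {G : SimpleGraph α} {s t : α} (K : Ch2 G s t)
    (e : Fin 2 → Bool), chi (K.pth e) = chi (K.pth ![false, false]) + (if e 0 then K.bd0 else 0) +
      if e 1 then K.bd1 else 0
  re : ∀ {α : Type} [Fintype α] [DecidableEq α] {G : SimpleGraph α} {s t : α} (K : Ch2 G s t) {s' t' : α},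
    s' ∈ K.X 0 → t' ∈ K.X 2 → ∃ K' : Ch2 G s' t', K'.X = K.X ∧ K'.T = K.T ∧ K'.p = K.p ∧ K'.q = K.q ∧
      K'.bd0 = K.bd0 ∧ K'.bd1 = K.bd1
  rv : ∀ {α : Type} [Fintype α] [DecidableEq α] {G : SimpleGraph α} {s t : α} (K : Ch2 G s t),
    ∃ K' : Ch2 G t s, K'.bd0 = K.bd1 ∧ K'.bd1 = K.bd0
  mono : ∀ {α : Type} [Fintype α] [DecidableEq α] {G G' : SimpleGraph α} {s t : α} (K : Ch2 G s t), G ≤ G' →
    ∃ K' : Ch2 G' s t, K'.X = K.X ∧ K'.T = K.T ∧ K'.p = K.p ∧ K'.q = K.q ∧ (∀ e, K'.pth e = K.pth e) ∧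
      K'.bd0 = K.bd0 ∧ K'.bd1 = K.bd1

/-- **RDR** (from BDF, TRE, DCB, PC2; 250 lines).  Chain sums of directions.  `K.pth e` is the concatenation of a path in `T 0` from `s` to `p 0
(e 0)`, the edge to `q 0 (e 0)`, a path in `T 1` to `p 1 (e 1)`, the edge to `q 1 (e 1)`, a path in `T 2` to `t` (`IsPth.dirn_append`).  If `cd` is an edge of `T 1`:
`dirn s c d (K.pth e) = A (e 0) B (e 1)`, `A b = 1` iff `q 0 b` is on the side of `c` in `T 1 - cd`, `B b = 1` iff `p 1 b` is on the side of `d`;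
the sum is `(A false + A true) (B false + B true)`, and `bd0 (cd) = 1` iff `cd` separates `q 0 false` from `q 0 true`.  If `cd` is an edge of `T 0`, `T 2`,
or a bead edge, `dirn` depends only on `e 0` or only on `e 1`, the sum is `0`, and `bd1 (cd) = 0` or `bd0 (cd) = 0` (BDF.s0, s1).  Otherwise all is `0`.  `dirn t c d P =
chi P (cd) + dirn s c d P` (dirn_reverse, dirn_add_swap), and the chain sum of `chi P (cd)` is `0` (DCB.four). -/
def SpecRDR : Prop := ∀ {α : Type} [Fintype α] [DecidableEq α] {G : SimpleGraph α} {s t : α} (K : Ch2 G s t)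
  (c d : α), ∑ e : Fin 2 → Bool, dirn s c d (K.pth e) = K.bd0 s(c, d) * K.bd1 s(c, d) ∧
    ∑ e : Fin 2 → Bool, dirn t c d (K.pth e) = K.bd0 s(c, d) * K.bd1 s(c, d)

/-- **RPQ** (from POL, BDF; 200 lines).  Quadratic functions.  For `DegLE 2 q` the second difference `q a + q (a + X) + q (a + Y) + q (a + X + Y)` does not
depend on `a`, and is additive in `X` and `Y` (POL.two).  `pol`: BDF.sw.  `form`: `b e f := q 0 + q δ_e + q δ_f + q (δ_e + δ_f)`.  `real`: `q c := Σ_{o e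
< o f} b e f c e c f` for an injective `o : Sym2 α → ℕ`.  `pr`: span induction. -/
structure SpecRPQ : Prop where
  pol : ∀ {α : Type} [Fintype α] [DecidableEq α] {G : SimpleGraph α} {s t : α} (K : Ch2 G s t)
    (q : Chain α → ZMod 2), DegLE 2 q → ∀ a : Chain α,
    ∑ e : Fin 2 → Bool, q (a + chi (K.pth e)) = q 0 + q K.bd0 + q K.bd1 + q (K.bd0 + K.bd1)
  form : ∀ {α : Type} [Fintype α] [DecidableEq α] (q : Chain α → ZMod 2), DegLE 2 q →
    ∃ b : Sym2 α → Sym2 α → ZMod 2, Sy b ∧ (∀ e, b e e = 0) ∧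
      ∀ X Y : Chain α, q 0 + q X + q Y + q (X + Y) = frm b X Y
  real : ∀ {α : Type} [Fintype α] [DecidableEq α] (b : Sym2 α → Sym2 α → ZMod 2), Sy b →
    ∃ q : Chain α → ZMod 2, DegLE 2 q ∧ q 0 = 0 ∧ ∀ X Y : Chain α,
      q X + q Y + q (X + Y) = ∑ e, ∑ f, if e = f then 0 else b e f * (X e * Y f)
  pr : ∀ {α : Type} [Fintype α] [DecidableEq α] (J : SimpleGraph α) (a : α) (ρ : Chain α → ZMod 2),
    ρ ∈ PR (star J a) → ∃ g : Sym2 α → Sym2 α → ZMod 2, At a g ∧ (∀ e, g e e = 0) ∧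
      ∀ X Y : Chain α, ρ X + ρ Y + ρ (X + Y) = frm g X Y

/-- **HBF** (from RDR, RPQ, BDF; 120 lines).  Every symmetric matrix is the form of a path function.  `q` from RPQ.real, `μ c d := b (cd) (cd)` for `o c < o
d` (`o : α → ℕ` injective), `0` otherwise.  Chain sum of `q`: `Σ_{e ≠ f} b e f bd0 e bd1 f`; of the directions: `Σ_{c,d} μ c d bd0 (cd) bd1 (cd) = Σ_e b e e
bd0 e bd1 e` (beads contain no diagonal `e`). -/
def SpecHBF : Prop := ∀ {α : Type} [Fintype α] [DecidableEq α] (b : Sym2 α → Sym2 α → ZMod 2), Sy b →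
  ∃ (q : Chain α → ZMod 2) (μ : α → α → ZMod 2), DegLE 2 q ∧ q 0 = 0 ∧
    (∀ X Y : Chain α, q X + q Y + q (X + Y) = ∑ e, ∑ f, if e = f then 0 else b e f * (X e * Y f)) ∧
    (∀ c, μ c c = 0) ∧ (∀ c d, c ≠ d → μ c d + μ d c = b s(c, d) s(c, d)) ∧
    ∀ {G : SimpleGraph α} {s t : α} (K : Ch2 G s t),
      ∑ e : Fin 2 → Bool, (q (chi (K.pth e)) + ∑ c, ∑ d, μ c d * dirn s c d (K.pth e)) =
        frm b K.bd0 K.bd1 ∧
      ∑ e : Fin 2 → Bool, (q (chi (K.pth e)) + ∑ c, ∑ d, μ c d * dirn t c d (K.pth e)) =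
        frm b K.bd0 K.bd1

/-- **RP1** (from EXD, RDR, RPQ, POL, PC2; 300 lines).  `φ ∈ F(G₁)` zero on the cycles of `J = G₁ - u`.  EXD for `J ≤ G₁` (extra edges: those at `u`): on cycles
`φ C = Σ_e C e q_e (chi C) + cohs μ C`, `q_e = 0` unless `e` is an edge at `u`, `μ a b c d ≠ 0` only if `ab` is an edge at `u` and `a, b, c, d` are different, so `c, d ≠
u`.  On a cycle `C = {ui, uj} ∪ P` only `e = ui, uj` contribute, `coh u i c d C = dirn i c d P`, `coh i u c d C = dirn j c d P` (PC2 coh_two, coh_two').  Chain sums over `K : Ch2 J i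
j`: `q_{ui}`: RPQ.pol, .form; directions: RDR (the same value for `i` and `j`).  So `β i := b_i + diag`, `b_i` the form of `q_{ui}`, `diag e e = Σ_{s(c,d) = e} (μ u i c d + μ i u c d)`. -/
def SpecRP1 : Prop := ∀ {α : Type} [Fintype α] [DecidableEq α] (G₁ : SimpleGraph α) (u : α),
  S3S (del G₁ {u}) → KZ (del G₁ {u}) → ∀ φ : Finset (Sym2 α) → ZMod 2, InF G₁ φ →
  (∀ C, IsCyc (del G₁ {u}) C → φ C = 0) →
  ∃ β : α → Sym2 α → Sym2 α → ZMod 2, (∀ i, Sy (β i)) ∧ ∀ i j, G₁.Adj u i → G₁.Adj u j → i ≠ j →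
    Rep (del G₁ {u}) i j (fun P => φ ({s(u, i), s(u, j)} ∪ P)) (β i + β j)

/-- **RP2** (from HBF, RDR, POL, RT1, PC2; 300 lines).  Converse.  HBF for `β i`: `q_i`, `μ_i`; replace `q_i` by `q_i ∘ res` (`res` = drop the edges at `u`) and put `μ_i c d = 0` if `u ∈
{c, d}` (no influence on paths of `J`).  `φ' C := Σ_i x_{ui} q_i (res (chi C)) + Σ_i Σ_{c,d} μ_i c d coh u i c d C ∈ F(G₁)`, zero on the cycles of `J`; on `{ui, uj} ∪ P` it is
`q_i (chi P) + q_j (chi P) + Σ μ_i c d dirn i c d P + Σ μ_j c d dirn j c d P`, with chain sums `frm (β i + β j)`.  So for every pair `ψ P = (φ + φ') ({ui, uj} ∪ P)` has chain sums `0`; RT1: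
`ψ P = w0 + Σ_{h ∈ P} w h`; `φ'' := Σ` over the pairs `{i, j}` (one orientation each) of `x_{ui} x_{uj} (w0 + Σ_{h ∌ u} w h x_h)`.  `φ = φ' + φ''` on all cycles. -/
def SpecRP2 : Prop := ∀ {α : Type} [Fintype α] [DecidableEq α] (G₁ : SimpleGraph α) (u : α)
  (φ : Finset (Sym2 α) → ZMod 2), (∀ C, IsCyc (del G₁ {u}) C → φ C = 0) →
  ∀ β : α → Sym2 α → Sym2 α → ZMod 2, (∀ i, Sy (β i)) →
  (∀ i j, G₁.Adj u i → G₁.Adj u j → i ≠ j →
    Rep (del G₁ {u}) i j (fun P => φ ({s(u, i), s(u, j)} ∪ P)) (β i + β j)) → InF G₁ φ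

/-- **D4X** (from BDF, TRE, DCB; 250 lines).  The `D_4` minor with the tree `{u}`: trees `K.X 0`, `K.X 1`, `K.X 2`, `{u}`; edges `K.p 0, K.q 0 | K.p 1, K.q 1 |` `t u`, `t' u` `| u s, u
s'`.  Its 16 cycles are `{ux, uy} ∪ (K_{xy}).pth ![e 0, e 1]`, `x ∈ {s, s'}`, `y ∈ {t, t'}`, `K_{xy}` the chain with the ends `x`, `y` (BDF.re); the beads are the same for all four. -/
def SpecD4X : Prop := ∀ {α : Type} [Fintype α] [DecidableEq α] {G : SimpleGraph α} {u s t s' t' : α}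
  (f : Finset (Sym2 α) → ZMod 2), D4even G f → ∀ K : Ch2 (del G {u}) s t, s' ∈ K.X 0 → t' ∈ K.X 2 →
  s ≠ s' → t ≠ t' → G.Adj u s → G.Adj u s' → G.Adj u t → G.Adj u t' →
  ∀ b b₁ b₂ b₃ : Sym2 α → Sym2 α → ZMod 2,
  Rep (del G {u}) s t (fun P => f ({s(u, s), s(u, t)} ∪ P)) b →
  Rep (del G {u}) s t' (fun P => f ({s(u, s), s(u, t')} ∪ P)) b₁ →
  Rep (del G {u}) s' t (fun P => f ({s(u, s'), s(u, t)} ∪ P)) b₂ →
  Rep (del G {u}) s' t' (fun P => f ({s(u, s'), s(u, t')} ∪ P)) b₃ →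
  frm (b + b₁ + b₂ + b₃) K.bd0 K.bd1 = 0

/-! ## B. The kernel `K_st` -/

/-- **KIN** (from BDF; 200 lines).  Members of `K_st`.  `at0`: `s ∈ K.X 0`, so `bd1` has no edge at `s` (BDF.s1).  `at1`: the same with `bd0`, `t`.  `dot`: neither bead contains `st`.  `kap`: `frm (bd0, bd1) =
bd1 (cd) (bd0 (cd) + bd0 (sc)) + bd0 (cd) bd1 (sc)`, `bd1 (sc) = 0`.  Let `bd1 (cd) ≠ 0`: `c, d ∉ K.X 0`, and `t ∉ K.X 0`, so `K.X 0 = {s}` (another vertex would be reachable
from `s` in `T 0 ≤ J`); the edges `p 0, q 0` are `s q`, `s q'`, `q ≠ q'` in `K.X 1`, not `t`: `{q, q'} = {c, d}`; `bd0 (sc) = 1` and `c, d ∈ K.X 1`; then `cd` is no bead edge and no edge of `T 2`, so it is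
an edge of `T 1` and `tp (T 1) c d = {cd}`: `bd0 (cd) = 1`.  `symm`: BDF.rv. -/
structure SpecKIN : Prop where
  at0 : ∀ {α : Type} [Fintype α] [DecidableEq α] {J : SimpleGraph α} {s t : α} {b : Sym2 α → Sym2 α → ZMod 2},
    At s b → InK J s t b
  at1 : ∀ {α : Type} [Fintype α] [DecidableEq α] {J : SimpleGraph α} {s t : α} {b : Sym2 α → Sym2 α → ZMod 2},
    At t b → InK J s t b
  dot : ∀ {α : Type} [Fintype α] [DecidableEq α] {J : SimpleGraph α} {s t : α} (v : Chain α),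
    InK J s t (dtm (ed s t) v)
  kap : ∀ {α : Type} [Fintype α] [DecidableEq α] {J : SimpleGraph α} {s t c d : α}, Bd J s t c d →
    InK J s t (kapm s c d)
  symm : ∀ {α : Type} [Fintype α] [DecidableEq α] {J : SimpleGraph α} {s t : α} {b : Sym2 α → Sym2 α → ZMod 2},
    InK J s t b → InK J t s b
  add : ∀ {α : Type} [Fintype α] [DecidableEq α] {J : SimpleGraph α} {s t : α} {b b' : Sym2 α → Sym2 α → ZMod 2},
    InK J s t b → InK J s t b' → InK J s t (b + b')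
  fe : ∀ {α : Type} [Fintype α] [DecidableEq α] {J : SimpleGraph α} {s t : α} {b b' : Sym2 α → Sym2 α → ZMod 2},
    InK J s t b → Sy b' → FE J b b' → InK J s t b'

/-- **INQ** (second half of the proof of `specINJ`, `DL/EX/INJ.lean`; from POL, TRA, I3K, DIR, S3F; 200 lines, mostly copy).  `x_{ab} q` is cubic and zero on all cycles of
`G`: I3K: `c(ab) q c = Σ_v r v c` on `Z1 G`; DIR for `delE G a b` (S3F.dhE) after dropping the products with `ab`: `r v = 0` on even traces for `v ≠ a, b`, and for `v = a`: `r a = r₀ + c(ab)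
ρ_a`, `r₀ ∈ TR (star (delE G a b) a)` zero on even traces; for `c(ab) = 1` the trace at `a` is odd, `r₀ c = r₀ c + r₀ (c + δ_k) ∈ PR`. -/
def SpecINQ : Prop := ∀ {α : Type} [Fintype α] [DecidableEq α] {G : SimpleGraph α} {a b : α}, G.Adj a b →
  KConn 3 G → ∀ q : Chain α → ZMod 2, DegLE 2 q → (∀ P, IsPth (delE G a b) a b P → q (chi P) = 0) →
  ∃ ρ ρ' : Chain α → ZMod 2, ρ ∈ PR (star (delE G a b) a) ∧ ρ' ∈ PR (star (delE G a b) b) ∧
    ∀ c : Chain α, (∀ e, c e ≠ 0 → e ∈ (delE G a b).edgeSet) →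
      (∀ v, bdy c v = if v = a ∨ v = b then 1 else 0) → q c = ρ c + ρ' c

/-- **DGC** (from HBF, RT1, LPE, POL, PC2; 250 lines).  The diagonal of an element of `K_st` is a cut.  HBF for `b`: `h P = q (chi P) + Σ μ c d dirn s c d P` has chain sums `0` on `delE N s t`, so RT1: `h P = w0 +
Σ_{h ∈ P} w h` on its `s`-`t` paths.  On a cycle `C` of `N` with `st ∈ C`, `C = st + P`: `coh t s c d C = dirn s c d P`; so on all cycles of `N` `Σ_{c,d} μ c d coh t s c d C = x_{st} (q + w0 + w)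
(chi C - st)` is cubic.  `KZ N` with `l t s c d := μ c d`: `Σ_{c,d} μ c d z (st) (cd) = 0` for `z ∈ Z_2(N)`, i.e. `Σ_e b e e z (st) e = 0` (`z (st) e = 0` for `e` not disjoint from `st`).  LPE.edge
for `N₁`: the rows `z (st) ·`, `z ∈ Z_2(N₁) ⊆ Z_2(N)`, fill `Z1 (del N₁ {s, t})`.  `cut`. -/
def SpecDGC : Prop := ∀ {α : Type} [Fintype α] [DecidableEq α] {N N₁ : SimpleGraph α} {s t : α}, N.Adj s t →
  KZ N → N₁ ≤ N → N₁.Adj s t → S3S (delE N₁ s t) → s ∈ VS (delE N₁ s t) → t ∈ VS (delE N₁ s t) →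
  ∀ b, InK (delE N s t) s t b →
  ∃ σ : α → ZMod 2, ∀ c d, (del N₁ {s, t}).Adj c d → b s(c, d) s(c, d) = σ c + σ d

/-- **KRN** (from DGC, INQ, RPQ, HBF, RT1, S3F, KIN, BDF, PC2; 250 lines).  KERNEL, `s`, `t` not adjacent.  `N = J + st` is 3-connected, `delE N s t = J`.  DGC (`N₁ = N`): `σ`.  `b' := b + Σ_{v ≠ s,
t} σ v • sqm (1_{star v})` (`1_{star v} e = 1` iff `v ∈ e`, `e` not diagonal): `FE J b b'` (`Σ_{e ∋ v} X e = 0`), `b' e e = 0` for the edges `e ∌ s, t` of `J`.  RPQ.real: `q` with `q X + q Y + q (X + Y) = Σ_{e ≠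
f} b' e f X e Y f`; its chain sums are `frm b' bd0 bd1 + Σ_e b' e e bd0 e bd1 e = 0` (`bd1 e = 0` for `e ∋ s`, `bd0 e = 0` for `e ∋ t`).  RT1: `q = w0 + w` on the `s`-`t` paths of `J`; INQ for
`N` and `q + w0 + w`: `= ρ + ρ'` on `s`-`t` chains.  Take such a chain `c₀` (a path) and `X, Y ∈ Z1 J`: the second difference at `c₀` gives `Σ_{e ≠ f} b' e f X e Y f = frm g_s X Y + frm g_t X Y` (RPQ.pr;
the second difference of `ρ` does not depend on the base point).  Add the diagonals at `s` and `t`: `g := g_s + diag`, `g' := g_t + diag'`. -/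
def SpecKRN : Prop := ∀ {α : Type} [Fintype α] [DecidableEq α] (J : SimpleGraph α) (s t : α), s ≠ t →
  ¬ J.Adj s t → s ∈ VS J → t ∈ VS J → KConn 3 J → KZ (J ⊔ fromEdgeSet {s(s, t)}) →
  ∀ b, InK J s t b → ∃ g g' : Sym2 α → Sym2 α → ZMod 2, At s g ∧ At t g' ∧ FE J b (g + g')

/-- **KRA** (from DGC, INQ, RPQ, HBF, RT1, S3F, KIN, BDF, KC, PC2; 350 lines).  KERNEL, `s`, `t` adjacent.  `N = J`, `N₁ = J` without the bad edges (at most one for `s` and one for `t`, different).  DGC: `σ`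
(`b` vanishes on the chains of `delE J s t`, BDF.mono).  If `cd` is the bad edge of `s` put `ε := b (cd) (cd) + σ c + σ d`, the same for `t`: `ε'`.  `b' := b + Σ_{v ≠ s, t} σ v • sqm (1_{star v}) + ε • kapm s c d
+ ε' • kapm t c' d'`: in `K_st` (KIN.kap, .symm), with zero diagonal at the edges `∌ s, t` of `J`.  As in KRN for the graph `delE J s t` (INQ for `G = J`): `frm b' X Y = frm (g + g') X Y` for `X,
Y ∈ Z1 (delE J s t)`.  Let `δ = b' + g + g'`, `X₀ ∈ Z1 J` with `X₀ (st) = 1` (a cycle through `st`).  `X = X' + X (st) X₀`, `X' ∈ Z1 (delE J s t)`, the same for `Y`: `frm δ X Y = X (st) v(Y) + Y (st) v(X) + k X (st) Y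
(st)`, `v(Y) = frm δ X₀ Y`, `k = frm δ X₀ X₀`; `k • sqm (ed s t)` is At `s`. -/
def SpecKRA : Prop := ∀ {α : Type} [Fintype α] [DecidableEq α] (J : SimpleGraph α) (s t : α), J.Adj s t →
  KConn 3 J → KZ J → S3S (delE (J.deleteEdges (bads J s t)) s t) →
  s ∈ VS (delE (J.deleteEdges (bads J s t)) s t) → t ∈ VS (delE (J.deleteEdges (bads J s t)) s t) →
  (¬ ∃ c d, Bd J s t c d ∧ Bd J t s c d) → ∀ b, InK J s t b →
  ∃ (g g' k k' : Sym2 α → Sym2 α → ZMod 2) (v : Chain α), At s g ∧ At t g' ∧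
    (k = 0 ∨ ∃ c d, J.Adj c d ∧ Bd J s t c d ∧ k = kapm s c d) ∧
    (k' = 0 ∨ ∃ c d, J.Adj c d ∧ Bd J t s c d ∧ k' = kapm t c d) ∧
    FE J b (g + g' + dtm (ed s t) v + k + k')

/-! ## C. Connectivity in the setting R1 -/

/-- **JS3** (from NBF, S3F, KC; 450 lines).  `J = G - u`, `H = (J - bad edges) - st`: S3S.  `n = |VS G| ≥ 8`.  A bad edge `cd` of `s` (`N_J(s) = {t, c, d}`) is bypassed in `H` by `c s d`, a bad edge `c'd'` of `t` by
`c' t d'`.  `N_J(s) = {t, c, d}`, `N_J(t) = {s, c, d}` is impossible: `NB G {s, t} ⊆ {u, c, d}`, NB1; so the two bad edges are different (and no edge at `s` or `t` is bad).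
(I) `s, t ∉ {p, q}`: `del H {p, q}` has the same connectivity as `del J {p, q}` without `st` (bypass).  `del J {p, q}` is connected.  If `st` is a bridge, sides `A ∋ s`, `B ∋ t`, `|A| + |B| = n - 3 ≥ 5`: if `|A| ≥ 2` then
`{u, p, q, s}` separates `A - s` from `B` in `G`, rigid: `|A| ≤ 2` or `|B| ≤ 1`; the same for `B`; so `|A| = 1` or `|B| = 1`, say `A = {s}` (`|A|, |B| ≤ 2` is too small): `N_J(s) = {t, p, q}` (3-connected), `N_H(s) = {p, q}`, `pq` is
bad or no edge, so `¬ H.Adj p q`, and `B` is connected in `H - {p, q, s}` (`s` was attached only to `t`; bypass `c'd'` by `t`).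
(II) `p = s`, `q ≠ t`: `J - {s, q}` is connected; in `H` only `cd` is missing (bypass `c'd'` by `t`).  If `cd` is a bridge of `J - {s, q}`, sides `P ∋ c`, `Q ∋ d`, `|P| + |Q| = n - 3 ≥ 5`: if `|P| ≥ 2` then `{u, s, q, c}` separates
`P - c` from `Q`: `|P| ≤ 2` or `|Q| ≤ 1`; the same with `Q`; so `|P| ≥ 3`, `|Q| = 1` (or the other way round): `Q = {d}`, `N_G(d) = {u, s, q, c}`, `NB G {s, d} ⊆ {u, t, c, q}`: NB1 or NB2 (`n - 6 ≥ 2`) contradiction.
(III) `{p, q} = {s, t}`: `J - {s, t}` is connected, in `H` `cd` and `c'd'` are missing.  If `P`, `Q` are separated in `H - {s, t}` and only one of them, say `cd`, joins `P ∋ c` to `Q ∋ d`: as in (II) with `q = t`: `N_G(d) ⊆ {u, s, t,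
c}`, `NB G {s, d} ⊆ {u, t, c}`: NB1.  If both join `P ∋ c, c'` to `Q ∋ d, d'`: `NB G (P - c - c') ⊆ {u, c, c'}` (`s`, `t` have no other neighbours), NB1: `P = {c, c'}`, `Q = {d, d'}`, `n ≤ 7`.
(IV) `t ∈ {p, q}`: symmetric.  One vertex `x` deleted: `x ≠ s, t`: `J - x` is 2-connected, without `st` connected, bypass; `x = s`: `J - s` is 2-connected, without `cd` connected, bypass `c'd'` by `t`.  A vertex with three
`H`-neighbours: a vertex of `J` different from `s, t, c, d, c', d'` (`n - 1 ≥ 7`). -/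
def SpecJS3 : Prop := ∀ {α : Type} [Fintype α] [DecidableEq α] {G : SimpleGraph α} {u s t : α}, K48 G →
  Rig G u → G.Adj u s → G.Adj u t → G.Adj s t →
  S3S (delE ((del G {u}).deleteEdges (bads (del G {u}) s t)) s t) ∧
  s ∈ VS (delE ((del G {u}).deleteEdges (bads (del G {u}) s t)) s t) ∧
  t ∈ VS (delE ((del G {u}).deleteEdges (bads (del G {u}) s t)) s t) ∧
  ¬ ∃ c d, Bd (del G {u}) s t c d ∧ Bd (del G {u}) t s c d

/-- **CJ1** (from S3F, NPC, KC; 150 lines).  `J` and `J + w_i w_j` are in C1.  `J` is 3-connected (KC del_vertex); `Sep J S P Q`, `S.card = 3`: `Sep G (insert u S) P Q`, `u` rigid.  Adding an edge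
between vertices of `J`: a separation of the larger graph is one of `J`, the vertex set is the same, NP is monotone. -/
def SpecCJ1 : Prop := ∀ {α : Type} [Fintype α] [DecidableEq α] {G : SimpleGraph α} {u : α} {w : Fin 4 → α},
  R1 G u w → KConn 3 (del G {u}) ∧ C1 (del G {u}) ∧ VS (del G {u}) = (VS G).erase u ∧
    (∀ i, w i ∈ VS (del G {u})) ∧
    ∀ i j, i ≠ j → ¬ G.Adj (w i) (w j) → C1 (del G {u} ⊔ fromEdgeSet {s(w i, w j)}) ∧
      NP (del G {u} ⊔ fromEdgeSet {s(w i, w j)}) ∧ VS (del G {u} ⊔ fromEdgeSet {s(w i, w j)}) = (VS G).erase u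

/-- **CWC** (from NBF, KC, PC; 250 lines).  `nbC`: `NB G A ⊆ WW w`; if `w i` has no neighbour in `A` then `|NB G A| ≤ 3`, but `u` is not in `A ∪ NB G A`: NB1.  `conn`: let `w j ∉ S`.  `C` is not empty (`n ≥ 8`).  Every `w k` has a
neighbour in `C` (nbC with `A = C`).  For `a ∈ C` the component of `a` in `G[C]` has a neighbour of `w j`; so everything outside `S` is connected to `w j` in `M - S`.  `dual`: a path in the connected graph `M` from `w j` to `w i` closed by the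
edge `w i w j`.  `mem`, `le`: `M` is `J` without the edges `w i w j`. -/
structure SpecCWC : Prop where
  nbC : ∀ {α : Type} [Fintype α] [DecidableEq α] {G : SimpleGraph α} {u : α} {w : Fin 4 → α}, R1 G u w →
    ∀ A ⊆ CC G u w, A.Nonempty → (∀ a ∈ A, ∀ b ∈ CC G u w, G.Adj a b → b ∈ A) → ∀ i, ∃ a ∈ A, G.Adj (w i) a
  conn : ∀ {α : Type} [Fintype α] [DecidableEq α] {G : SimpleGraph α} {u : α} {w : Fin 4 → α}, R1 G u w →
    ∀ S ⊆ WW w, S ≠ WW w → ConnOff (MM G u w) S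
  vs : ∀ {α : Type} [Fintype α] [DecidableEq α] {G : SimpleGraph α} {u : α} {w : Fin 4 → α}, R1 G u w →
    VS (MM G u w) = (VS G).erase u
  card : ∀ {α : Type} [Fintype α] [DecidableEq α] {G : SimpleGraph α} {u : α} {w : Fin 4 → α}, R1 G u w →
    3 ≤ (CC G u w).card ∧ (VS G).card = (CC G u w).card + 5
  dual : ∀ {α : Type} [Fintype α] [DecidableEq α] {G : SimpleGraph α} {u : α} {w : Fin 4 → α}, R1 G u w →
    ∀ i j, G.Adj (w i) (w j) → ∃ Z ∈ Z1 (del G {u}), Z s(w i, w j) = 1 ∧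
      ∀ k l, s(w k, w l) ≠ s(w i, w j) → Z s(w k, w l) = 0
  mem : ∀ {α : Type} [Fintype α] [DecidableEq α] {G : SimpleGraph α} {u : α} {w : Fin 4 → α} {X : Chain α},
    X ∈ Z1 (MM G u w) ↔ X ∈ Z1 (del G {u}) ∧ ∀ i j, X s(w i, w j) = 0

/-- **CCC** (from CWC; 100 lines).  If there is a type A vertex, `C` is connected: every component `A` of `G[C]` contains a neighbour of `w i`, i.e. `c` or `d`, and `c ~ d`.
`sub`: the cycle space of `G[C]` is in that of `M`, its elements avoid all `w k`. -/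
structure SpecCCC : Prop where
  conn : ∀ {α : Type} [Fintype α] [DecidableEq α] {G : SimpleGraph α} {u : α} {w : Fin 4 → α} {i j : Fin 4}
    {c d : α}, R1 G u w → TA G u w i j c d → ConnOff G (insert u (WW w))
  sub : ∀ {α : Type} [Fintype α] [DecidableEq α] {G : SimpleGraph α} {u : α} {w : Fin 4 → α} {Z : Chain α},
    Z ∈ Z1 (del G (insert u (WW w))) → Z ∈ Z1 (MM G u w) ∧ ∀ k e, w k ∈ e → Z e = 0

/-- **RCL** (from NBF, CWC; 100 lines).  A bad neighbour triple is of type A or B.  `N_G(w i) = {u, w j, c, d}`, `c ~ d`.  If `c, d` are both neighbours of `u` then `w i` has no neighbour in `C`, contradiction to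
CWC.nbC.  `sw`: `X (sd) = X (sc) + X (st)` on `Z1 J`. -/
structure SpecRCL : Prop where
  cls : ∀ {α : Type} [Fintype α] [DecidableEq α] {G : SimpleGraph α} {u : α} {w : Fin 4 → α}, R1 G u w →
    ∀ i j c d, i ≠ j → G.Adj (w i) (w j) → (del G {u}).Adj c d → Bd (del G {u}) (w i) (w j) c d →
    TA G u w i j c d ∨ ∃ k, k ≠ i ∧ k ≠ j ∧ ((c = w k ∧ d ∈ CC G u w) ∨ (d = w k ∧ c ∈ CC G u w))
  sw : ∀ {α : Type} [Fintype α] [DecidableEq α] {J : SimpleGraph α} {s t c d : α}, Bd J s t c d →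
    FE J (kapm s d c) (kapm s c d + dtm (ed s t) (ed c d))
  atk : ∀ {α : Type} [Fintype α] [DecidableEq α] (s k d : α), At k (kapm s k d)

/-- **DGM** (from TRC, CWC; 120 lines).  DIRECTNESS.  Fix `k`, the other indices `l, m, p`; `X, Y ∈ Z1 M`.  `M - {w l, w m} - w k` is connected (CWC.conn), TRC: there is `X' ∈ Z1 (M - {w l, w m})` with the same edges at `w k` as
`X`; also `Y' ∈ Z1 (M - {w p})` with the same edges at `w k` as `Y`.  `frm (r l) X' Y' = frm (r m) X' Y' = frm (r p) X' Y' = 0` (frm_at), so `0 = frm (r k) X' Y' = frm (r k) X Y` (frm_at_congr). -/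
def SpecDGM : Prop := ∀ {α : Type} [Fintype α] [DecidableEq α] {G : SimpleGraph α} {u : α} {w : Fin 4 → α},
  R1 G u w → ∀ r : Fin 4 → Sym2 α → Sym2 α → ZMod 2, (∀ k, At (w k) (r k)) →
  (∀ X ∈ Z1 (MM G u w), ∀ Y ∈ Z1 (MM G u w), ∑ k, frm (r k) X Y = 0) →
  ∀ k, ∀ X ∈ Z1 (MM G u w), ∀ Y ∈ Z1 (MM G u w), frm (r k) X Y = 0

/-- **LCF** (from TRC, CWC; 250 lines).  Local forms which vanish on `Z1 M`.  Let `y₀ ∈ C` be a neighbour of `w i`, `a_l := ed (w i) (w l) + ed (w i) y₀` for `w l ~ w i`.  For a chain `X ∈ Z1 J` let `X°` be its part at `w i`, `X_l =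
X (w i w l)`.  `X° = X^M + Σ_l X_l a_l`, `X^M` an even trace in `M`; by TRC (`M - w i` connected) it is the trace of an element of `Z1 M`; so `frm g X^M Y^M = 0` for all `X, Y ∈ Z1 J`.  Expand: `frm g X Y = Σ_l X_l frm g a_l Y + Σ_l Y_l frm g X a_l
+ Σ_{l,m} X_l Y_m frm g a_l a_m`.  `frm g a_l Y = pr ν_l Y`, `ν_l f := Σ_e a_l e g e f`; `μ_l := ν_l + Σ_{m > l} frm g a_l a_m • ed (w i) (w m)`, `c_l := frm g a_l a_l`. -/
def SpecLCF : Prop := ∀ {α : Type} [Fintype α] [DecidableEq α] {G : SimpleGraph α} {u : α} {w : Fin 4 → α},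
  R1 G u w → ∀ i g, At (w i) g → (∀ X ∈ Z1 (MM G u w), ∀ Y ∈ Z1 (MM G u w), frm g X Y = 0) →
  ∃ (μ : Fin 4 → Chain α) (c : Fin 4 → ZMod 2), (∀ l e, μ l e ≠ 0 → w i ∈ e) ∧
    (∀ l, ¬ G.Adj (w i) (w l) → μ l = 0 ∧ c l = 0) ∧
    FE (del G {u}) g (∑ l, (dtm (ed (w i) (w l)) (μ l) + c l • sqm (ed (w i) (w l))))

/-! ## D. Claim A: relations between the `θ_i^{[2]}` -/

/-- **M33** (60 lines).  Nine vertices with the neighbour lists of `K_3 □ K_3`: `v 0 0 = u`, `v 0 1 = a`, `v 0 2 = b`, `v 1 0 = c`, `v 2 0 = d`, `v 1 1 = p`, `v 2 1 = q`, `v 1 2 = r`, `v 2 2 = s`. -/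
def SpecM33 : Prop := ∀ {α : Type} [Fintype α] [DecidableEq α] {G : SimpleGraph α} (u a b c d p q r s : α),
  [u, a, b, c, d, p, q, r, s].Nodup → (∀ x ∈ VS G, x ∈ [u, a, b, c, d, p, q, r, s]) →
  (∀ x, G.Adj u x ↔ x ∈ [a, b, c, d]) → (∀ x, G.Adj a x ↔ x ∈ [u, b, p, q]) → (∀ x, G.Adj b x ↔ x ∈ [u, a, r, s]) →
  (∀ x, G.Adj c x ↔ x ∈ [u, d, p, r]) → (∀ x, G.Adj d x ↔ x ∈ [u, c, q, s]) → (∀ x, G.Adj p x ↔ x ∈ [a, c, q, r]) →
  (∀ x, G.Adj q x ↔ x ∈ [a, d, p, s]) → (∀ x, G.Adj r x ↔ x ∈ [b, c, p, s]) → (∀ x, G.Adj s x ↔ x ∈ [b, d, q, r]) →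
  Is33 G

/-- **CL8** (from VKA, NPC, KUR; 250 lines).  A planar graph with 7 vertices and the 13 edges `ak, az, ad, bk, bz, be, kz, kl, ld, le, zd, ze, de`.  Suppose `x ∈ Z_2(J)`, `vk x ≠ 0`.  (1) `x (ad) (zk) = 0` (row `zk` at `a`: `ak`, `az` meet
`zk`), `x (ak) (zd) = 0` (row `zd` at `a`), `x (ak) (zb) = x (ad) (zb) =: m` (row `zb` at `a`), `x (ak) (ze) = x (ad) (ze) = m` (row `ak` at `z`).  If `m = 1` add the torus of the cycles `a k l d` and `z b e` (`vk = 0`, VKA.tor).  So `m = 0`,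
`Zab a z x`, NPC.down: `contr J z a` is nonplanar: vertices `b, k, l, z, d, e`, edges `bk, bz, be, kz, kl, ld, le, zd, ze, de`.  (2) Now `x (be) (zk) = 0`, `x (bk) (ze) = 0` (rows at `b`), `x (bk) (zd) = 0` (row `bk` at `z`), `x (be) (zd) = 0` (row `zd` at `b`): `Zab b z x`, `contr · z b` is
nonplanar: `kz, kl, ld, le, zd, ze, de`.  (3) `x (kl) (zd) = 0`, `x (kl) (ze) = 0` (rows at `k`): `contr · z k` is nonplanar; it is `K_4` on `z, l, d, e`: every row of a 2-cycle is zero (`x (zl) (de)`: boundary at `d`), `vk = 0`. -/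
def SpecCL8 : Prop := ∀ {α : Type} [Fintype α] [DecidableEq α] {J : SimpleGraph α} (a b k l z d e : α),
  [a, b, k, l, z, d, e].Nodup → (∀ x y, J.Adj x y ↔ s(x, y) ∈ [s(a, k), s(a, z), s(a, d), s(b, k), s(b, z), s(b, e),
    s(k, z), s(k, l), s(l, d), s(l, e), s(z, d), s(z, e), s(d, e)]) → ¬ NP J

/-- **CL1** (from CL8, M33, NBF, CWC, PC2.cut; 450 lines).  Two type A vertices with the same `θ` on `Z1 M`: beta-pair.  Write `c_i, d_i` for `c, d` and `c_m, d_m` for `c', d'`; `k`, `l` the other two indices.  `cut` for `M` and `a = ed (w_i c_i) + ed (c_i d_i) + ed (w_m c_m) +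
ed (c_m d_m)`: `s` with `s x + s y = a (xy)` on the edges of `M`.  `c_i d_i ≠ c_m d_m` as edges (otherwise `s` differs on `w_i c_i` but not on `w_i d_i`, `c_i d_i`).  So `s c_i ≠ s w_i = s d_i`.  Normalize `s c_i = 0`; exchanging `c_m`, `d_m` (adds the
star of `w_m` to `a`) we may assume `s c_m = 0`, `s d_m = s w_m = 1`.  `P = {x ∈ C : s x = 0} ∋ c_i, c_m`, `Q = {x ∈ C : s x = 1} ∋ d_i, d_m`; the only edges between `P` and `Q` are `c_i d_i`, `c_m d_m`; `w_i`, `w_m` have only the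
neighbours `c_i, d_i`, `c_m, d_m` in `C`; all neighbours of `w_k` in `C` are on the side `s w_k`, the same for `w_l`.
CASE 2, `w_k`, `w_l` both on the side of `Q` (or both on `P`: exchange): `NB G (P - c_i - c_m) ⊆ {c_i, c_m}`: `P = {c_i, c_m}` (NB1).  If `c_i ≠ c_m` then `c_i` has at most the neighbours `w_i, d_i, c_m`.  So `P = {z}`, `N(z) = {w_i, w_m,
d_i, d_m}` (degree `≥ 4`), `d_i ≠ d_m`; `w_i ~ w_m` would give `NB G {z, w_i} = {u, w_m, d_i, d_m}`: NB2.  This is the beta-pair.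
CASE 1, `w_k` on `P`, `w_l` on `Q`: `NB G (P - c_i - c_m) ⊆ {c_i, c_m, w_k}`: `P = {c_i, c_m}`, and `Q = {d_i, d_m}`; `|C| ≥ 3`.
(1a) `|P| = |Q| = 2`, `n = 9`: `N(c_i) = {w_i, d_i, c_m, w_k}`, etc. (degree `≥ 4`).  `w_i ~ w_k`: `NB G {w_i, c_i} = {u, d_i, w_k, c_m}`: NB2; `w_i ~ w_l`: `NB G {w_i, d_i} = {u, w_l, c_i, d_m}`: NB2.  So `w_i ~ w_m`, then `w_k ~ w_l` (degree of `w_k`): M33
(`a = w_i, b = w_m, c = w_k, d = w_l, p = c_i, q = d_i, r = c_m, s = d_m`), contradiction to n33.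
(1b) `c_i = c_m = z`, `d_i ≠ d_m`, `n = 8` (or the same with `P`, `Q` exchanged; not both of size 1, `|C| ≥ 3`): `N(d_i) = {w_i, z, d_m, w_l}`, `N(d_m) = {w_m, z, d_i, w_l}`, `N(z) = {w_i, w_m, d_i, d_m, w_k}`.  `w_i ~ w_l`: `NB G {w_i, d_i} = {u, w_l, z, d_m}`: NB2; `w_i ~ w_m`: `NB G {z, w_i} ⊆
{u, w_m, d_i, d_m, w_k}`, use instead: then `w_k` has at most the neighbours `u, z, w_l`.  So `w_i ~ w_k`, and `w_m ~ w_k` the same way; `w_l ~ w_k` (degree of `w_l`).  `J` is the graph of CL8 (`a = w_i, b = w_m, k = w_k, l = w_l, z, d = d_i, e = d_m`): contradiction to NP. -/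
def SpecCL1 : Prop := ∀ {α : Type} [Fintype α] [DecidableEq α] {G : SimpleGraph α} {u : α} {w : Fin 4 → α},
  R1 G u w → ∀ i j m j' c d c' d', TA G u w i j c d → TA G u w m j' c' d' → i ≠ m →
  (∀ X ∈ Z1 (MM G u w), pr (tht w i c d) X = pr (tht w m c' d') X) →
  ∃ z e e', Bta G u w i j m j' z e e'

/-- **CBS** (from CCC, PC; 200 lines).  Bridges of `G[C]` and cycles through them.  `side`: `C` is connected, `cd` a bridge of `G[C]` (no element of its cycle space contains it): `P` = the vertices of `C` connected to `c` in `G[C] - cd`,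
`Q` = the others.  `cyc`: paths in `P` from `x` to `c` and in `Q` from `d` to `y`, closed by `cd` and `w a`. -/
structure SpecCBS : Prop where
  side : ∀ {α : Type} [Fintype α] [DecidableEq α] {G : SimpleGraph α} {u : α} {w : Fin 4 → α},
    ConnOff G (insert u (WW w)) → ∀ c ∈ CC G u w, ∀ d ∈ CC G u w, G.Adj c d →
    (∀ Z ∈ Z1 (del G (insert u (WW w))), Z s(c, d) = 0) → (∀ x ∈ CC G u w, ∀ y, G.Adj x y → y ∈ VS G) →
    ∃ P Q : Finset α, P ∪ Q = CC G u w ∧ Disjoint P Q ∧ c ∈ P ∧ d ∈ Q ∧ CSet G P ∧ CSet G Q ∧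
      ∀ x ∈ P, ∀ y ∈ Q, G.Adj x y → x = c ∧ y = d
  cyc : ∀ {α : Type} [Fintype α] [DecidableEq α] {G : SimpleGraph α} {u : α} {w : Fin 4 → α}, R1 G u w →
    ∀ (P Q : Finset α) (c d x y : α) (a : Fin 4), P ⊆ CC G u w → Q ⊆ CC G u w → Disjoint P Q → CSet G P →
    CSet G Q → c ∈ P → d ∈ Q → x ∈ P → y ∈ Q → G.Adj c d → G.Adj (w a) x → G.Adj (w a) y →
    ∃ X ∈ Z1 (MM G u w), X s(c, d) = 1 ∧ (∀ e, X e ≠ 0 → ∀ v ∈ e, v = w a ∨ v ∈ P ∨ v ∈ Q) ∧
      (∀ v, X s(w a, v) ≠ 0 → v = x ∨ v = y) ∧ X s(w a, y) = 1 ∧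
      ∀ v ∈ P, ∀ v' ∈ Q, X s(v, v') ≠ 0 → v = c ∧ v' = d

/-- **CL2** (from CCC, CBS, NBF, CWC; 250 lines).  One index.  `S = {i}`, `cd` a bridge of `G[C]`, sides `P ∋ c`, `Q ∋ d`.  (1) At most one `w_a`, `a ≠ i`, has neighbours in both `P` and `Q`: for two such `a ≠ b` take `X`, `Y` from CBS.cyc through `w_a`, `w_b`: `θ_i X = X (cd) =
1`, `θ_i Y = 1` (no edge at `w_i`), RLN.eval gives `1 = 0`.  (2) `NB G P ⊆ {d} ∪ WW w`: at most one `w` has no neighbour in `P` (NB1), the same for `Q`.  So for `{a, b, l}` = the indices `≠ i` (names): `w_a` has no neighbour in `Q`, `w_b` none in `P`.  `NB G (P - c) ⊆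
{c, w_a, w_l}` (`w_i` has in `P` only the neighbour `c`): `P = {c}`, and `Q = {d}`: `|C| = 2`, contradiction. -/
def SpecCL2 : Prop := ∀ {α : Type} [Fintype α] [DecidableEq α] {G : SimpleGraph α} {u : α} {w : Fin 4 → α},
  R1 G u w → ∀ (i : Fin 4) (j : Fin 4) (c d : Fin 4 → α), TA G u w i j (c i) (d i) →
  (∀ Z ∈ Z1 (del G (insert u (WW w))), Z s(c i, d i) = 0) → ¬ RLN G u w {i} c d

/-- **CL3** (from CCC, CBS, NBF, CWC; 250 lines).  Two indices with the same bridge `cd` (`c_m = c_i`, `d_m = d_i`).  `a`, `b` the other indices.  If `w_a` has neighbours in both `P` and `Q`: `X` = the triangle `w_i c d`, `Y` from CBS.cyc through `w_a`: `θ_i X = 1 + 1 = 0`,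
`θ_m X = X (cd) = 1`, `θ_i Y = θ_m Y = 1`: RLN.eval gives `1 = 0`.  So `w_a`, `w_b` are one-sided; `NB G P ⊆ {d} ∪ WW w` has at least 4 elements, the same for `Q`, so `w_a` is only on `P`, `w_b` only on `Q` (names).  `NB G (P - c) ⊆ {c, w_a}`: `P = {c}`, `Q =
{d}`: contradiction. -/
def SpecCL3 : Prop := ∀ {α : Type} [Fintype α] [DecidableEq α] {G : SimpleGraph α} {u : α} {w : Fin 4 → α},
  R1 G u w → ∀ (i m j j' : Fin 4) (c d : Fin 4 → α), i ≠ m → TA G u w i j (c i) (d i) →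
  TA G u w m j' (c m) (d m) → c m = c i → d m = d i →
  (∀ Z ∈ Z1 (del G (insert u (WW w))), Z s(c i, d i) = 0) → ¬ RLN G u w {i, m} c d

/-- **CL4** (from CCC, CBS, NBF, CWC; 350 lines).  Two indices, different bridges `e_i = c_i d_i`, `e_m = c_m d_m`.  The side `P` of `e_i` not containing `e_m`, the side `R` of `e_m` not containing `e_i`, `Q` the rest of `C` (nonempty, contains the other ends); names such that `c_i ∈ P`, `d_i, c_m ∈ Q`,
`d_m ∈ R` (exchanging `c`, `d` does not change `θ` on `Z1 M`, so RLN stays true).  `Q ∪ R`, `P`, `R`, `P ∪ Q`, `Q` are connected.  `a`, `b` the other indices.  `NB G P ⊆ {d_i, w_i, w_a, w_b}`, so `w_a`, `w_b` have neighbours in `P` and, the same way, in `R`.  If `w_a` has a neighbour in `Q`: `X` from CBS.cyc for `P`, `Q`, through `w_a`: `X (e_i) = 1`, `X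
(e_m) = 0`; `Y` from CBS.cyc for `P`, `Q ∪ R`, through `w_b`, with `y ∈ R`: `Y (e_i) = 1`, and `Y (e_m) = 1` (parity of the edges of `Y` leaving `R`: `e_m` and `w_b y`).  So `θ_i X = 1, θ_m X = 0, θ_i Y = θ_m Y = 1`: RLN.eval gives `1 = 0`.  So `w_a`, `w_b`
have no neighbours in `Q`: `NB G (Q - d_i - c_m) ⊆ {d_i, c_m}`: `Q = {d_i, c_m}`; if `d_i ≠ c_m` then `N(d_i) ⊆ {w_i, c_i, c_m}`.  So `Q = {z}`, `N(z) = {w_i, w_m, c_i, d_m}`; `w_i ~ w_m` is excluded by NB2 for `{z, w_i}`; `Bta` with `e = c_i`, `e' = d_m`. -/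
def SpecCL4 : Prop := ∀ {α : Type} [Fintype α] [DecidableEq α] {G : SimpleGraph α} {u : α} {w : Fin 4 → α},
  R1 G u w → ∀ (i m j j' : Fin 4) (c d : Fin 4 → α), i ≠ m → TA G u w i j (c i) (d i) →
  TA G u w m j' (c m) (d m) → s(c m, d m) ≠ s(c i, d i) →
  (∀ Z ∈ Z1 (del G (insert u (WW w))), Z s(c i, d i) = 0 ∧ Z s(c m, d m) = 0) → RLN G u w {i, m} c d →
  ∃ z e e', Bta G u w i j m j' z e e'

/-- **CL5** (from CCC, CBS, NBF, CWC; 250 lines).  At least three bridges: impossible (`n ≥ 8`).  Among all sides of all `c_i d_i`, `i ∈ S`, let `P` be one of minimal size, belonging to `e = c_i d_i`, `c_i ∈ P`.  No `e_m ≠ e`, `m ∈ S`, has an end in `P` (otherwise `e_m` is inside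
`P` and one of its sides is smaller).  So `NB G P ⊆ {d_i} ∪ {w_m : m ∉ S or e_m = e}`; NB1: `|{m ∈ S : e_m = e}| ≥ |S| - 1`.  If all `e_m = e`: three `w`'s have only the neighbours `c_i`, `d_i` in `C`, `NB G (P - c_i)` has at most two elements, `P = {c_i}`, and the other side
is `{d_i}` in the same way: `|C| = 2`.  Otherwise exactly one `e_m ≠ e`, `m ∈ S`; the side `R` of `e_m` not containing `e` contains no `e_k` but `e_m`: `NB G R ⊆ {one end} ∪ {w_m} ∪ {w_k : k ∉ S}` has at most 3 elements: NB1. -/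
def SpecCL5 : Prop := ∀ {α : Type} [Fintype α] [DecidableEq α] {G : SimpleGraph α} {u : α} {w : Fin 4 → α},
  R1 G u w → ∀ (S : Finset (Fin 4)) (j : Fin 4 → Fin 4) (c d : Fin 4 → α), 3 ≤ S.card →
  (∀ i ∈ S, TA G u w i (j i) (c i) (d i)) →
  ¬ ∀ i ∈ S, ∀ Z ∈ Z1 (del G (insert u (WW w))), Z s(c i, d i) = 0

/-- **CL6** (from CCC, M33, NBF, CWC, PC2.cut; 450 lines).  All four vertices of type A, the edges `e_i = c_i d_i` are in the same cycles of `G[C]`, and `Σ θ_i = 0` on `Z1 M`: impossible.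
(1) If `e_a = e_b = cd`, `a ≠ b`: evaluate `Σ θ_i` at the triangle `w_a c d` (in `Z1 M`): `θ_a = 1 + 1 = 0`, `θ_b = 1`, `θ_m = [e_m = cd]` for the others: exactly one further `e_m = cd`; let `p` be the fourth index, `e_p ≠ cd`.  `cut` for `G[C]` and `ed (cd) + ed (e_p)`: `C = P ∪ Q`, `c, c_p ∈ P`, `d, d_p
∈ Q` (names), only the two edges between them; all the `w` have their neighbours in `C` among `c, d, c_p, d_p`.  `NB G (P - c - c_p) ⊆ {c, c_p}`: `P = {c, c_p}`; if `c ≠ c_p` then `N(c_p) ⊆ {c, w_p, d_p}`: so `c = c_p`, and `d = d_p`, `e_p = cd`: contradiction.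
(2) The `e_i` are different.  `cut`: for `k = 1, 2, 3` a function `s_k` on `C` which changes exactly along `e_0` and `e_k`.  Let `ζ` be a cycle of `G[C]` through `e_0`; it contains `e_1, e_2, e_3`; `ζ - e_0` passes them in the order `a, b, c'` (a permutation of 1, 2, 3) when going from the end of `e_0` with
`σ = (s_1, s_2, s_3) = 0` (normalize) to the other end, where `σ = (1, 1, 1)`.  So `e_a` joins `F_0 = {σ = 0}` to `F_1 = {σ = δ_a}`, `e_b` joins `F_1` to `F_2 = {σ = δ_a + δ_b}`, `e_{c'}` joins `F_2` to `F_3 = {σ = 1}`, `e_0` joins `F_3` to `F_0`.  `C = F_0 ∪ … ∪ F_3` (connected; no other edges between different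
`F`'s).  All the `w` have their neighbours in `C` among the ends of the `e`'s, so `NB G (F - ends) ⊆` the (at most 2) ends in `F`: `F` = its ends; two different ends `x, y` in `F`, `x` on `e_a` say: `N(x) ⊆ {y, w_a, other end of e_a}`: contradiction.  So `F_k = {v_k}`, `n = 9`, `e_0 = v_3 v_0`, `e_a = v_0 v_1`,
`e_b = v_1 v_2`, `e_{c'} = v_2 v_3`, `N(v_0) = {v_3, v_1, w_0, w_a}` etc.  Consecutive ones are not adjacent: `w_0 ~ w_a`: `NB G {w_0, w_a} = {u, v_3, v_0, v_1}`: NB2 (`9 - 6 = 3`).  So `w_0 ~ w_b`, `w_a ~ w_{c'}`: M33 (`a = w_0, b = w_b, c = w_a, d = w_{c'}, p = v_0, q = v_3, r = v_1, s = v_2`), contradiction to n33. -/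
def SpecCL6 : Prop := ∀ {α : Type} [Fintype α] [DecidableEq α] {G : SimpleGraph α} {u : α} {w : Fin 4 → α},
  R1 G u w → ∀ (j : Fin 4 → Fin 4) (c d : Fin 4 → α), (∀ i, TA G u w i (j i) (c i) (d i)) →
  (∀ Z ∈ Z1 (del G (insert u (WW w))), ∀ i m, Z s(c i, d i) = Z s(c m, d m)) →
  (∀ Y ∈ Z1 (MM G u w), ∑ i, pr (tht w i (c i) (d i)) Y = 0) →
  ∀ Z ∈ Z1 (del G (insert u (WW w))), Z s(c 0, d 0) = 0

/-- **CLA** (from CL1, CL2, CL3, CL4, CL5, CL6, CCC; 200 lines).  CLAIM A.  For `Z ∈ Z1 (G[C])` (in `Z1 M`, no edge at any `w`) RLN.eval: `Σ_{i ∈ S} Z (e_i) θ_i Y = 0` for `Y ∈ Z1 M` (*).  Let `T_Z = {i ∈ S : Z (e_i) = 1}`; `Y = Z`: `|T_Z|` is even.  If some `|T_Z| = 2`, `T_Z = {i, m}`: `θ_i = θ_m` on `Z1 M`, CL1.  If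
all `T_Z` are empty: all `e_i`, `i ∈ S`, are bridges: CL5 (`|S| ≥ 3`), CL2 (`|S| = 1`), CL3, CL4 (`|S| = 2`; if `e_i = e_m` exchange `c_m`, `d_m` if necessary: `θ_m` does not change on `Z1 M`, because `w m` has exactly the neighbours `c_m`, `d_m` in `M`).  Otherwise some `T_Z` has 4 elements, `S` = all, and all `T_Z` are
empty or everything: (*) gives `Σ θ_i = 0`, CL6. -/
def SpecCLA : Prop := ∀ {α : Type} [Fintype α] [DecidableEq α] {G : SimpleGraph α} {u : α} {w : Fin 4 → α},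
  R1 G u w → ∀ (S : Finset (Fin 4)) (j : Fin 4 → Fin 4) (c d : Fin 4 → α), S.Nonempty →
  (∀ i ∈ S, TA G u w i (j i) (c i) (d i)) → RLN G u w S c d →
  ∃ i ∈ S, ∃ m ∈ S, ∃ z e e', Bta G u w i (j i) m (j m) z e e'

/-! ## E. The linear algebra -/

/-- **LIN** (from Base; 400 lines).  Pure linear algebra over the six pairs.  `P(e, a)` = `plc e a`.  All statements modulo `TRel K`.  MOVE: `P(e, a) ≡ P(f, a)` if `a ∈ K e ⊓ K f`, `e`, `f` nondiagonal with a common index (then some index `p` is in neither; TRel.move).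
(1) `r e = Σ_k τ_e k + y_e + ε_e th i + ε'_e th j` for `e = s(i, j)` (dec).  If `k ∈ e` then `τ_e k ∈ Ga k`; if `k ∉ e`, `e = s(i, j)`: MOVE `τ_e k` from `e` to `s(i, k)` (`Ga k ≤ K s(i, k)`).  Fix for every `k` a pair `h k ∋ k`; MOVE all `Ga k`-parts to `h k`.  So `r ≡ Σ_k P(h k, G_k) +
Σ_e P(e, y_e) + Σ_{i ∈ S} P(s(i, j i), th i)`, `G_k ∈ Ga k`, `y_e ∈ Xs e`, `S ⊆ A`; the sum of all entries is `0`.
(2) Induction on `|S|`.  If `S ≠ ∅`: H1 gives `i, m ∈ S`, `ϑ` with `bp i m ϑ`; `th i = ϑ + g + y`, `th m = ϑ + g' + y'` (hbp): `P(s(i, j i), th i) ≡ P(s(i, j i), ϑ) + P(h i, g) + P(s(i, j i), y)`, the same for `m`.  The remaining `P(e, ϑ) + P(f, ϑ)`, `e = s(i, j i)`, `f = s(m, j m)`, `ϑ ∈ K e ⊓ K f`: it is `0` if `e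
= f`, `≡ 0` if they share an index (MOVE), otherwise `i, j i, m, j m` are different: put `(i, m)` into `E`.  Continue with `S - i - m` (total sum still `0` because `ϑ + ϑ = 0`); the pairs in `E` are disjoint.
(3) `S = ∅`: `Σ G_k + Σ y_e = 0`, H2: `G_k = Σ_l z_{kl}`, `z_{kl} ∈ Ga k ⊓ Xs s(k, l)` (`= 0` for `l = k`, Xs of a diagonal pair is `⊥` by XK, Kd): MOVE from `h k` to `s(k, l)`.  So `r ≡ Σ_e P(e, y'_e)` + (terms of `E`), `y'_e ∈ Xs e`, `Σ y'_e = 0`, H3: `y'_e = Σ_f m e f • D e f`.  For `e ≠ f` sharing an index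
`P(e, D e f) + P(f, D f e)` is TRel (MOVE, `D e f = D f e ∈ Xs e ⊓ Xs f`); `D e e = 0`; `D e f = 0` if `e` or `f` is diagonal.  Keep the `m e f` with `e`, `f` without common index. -/
def SpecLIN : Prop := ∀ {L : Type} [AddCommGroup L] [Module (ZMod 2) L] (D : LD L) (r : Sym2 (Fin 4) → L),
  (∀ e, r e ∈ D.K e) → ∑ e, r e = 0 →
  ∃ (t : Sym2 (Fin 4) → L) (m : Sym2 (Fin 4) → Sym2 (Fin 4) → ZMod 2) (E : Finset (Fin 4 × Fin 4))
    (ϑ : Fin 4 × Fin 4 → L), TRel D.K t ∧ (∀ e f, m e f = m f e) ∧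
    (∀ e f, m e f ≠ 0 → ¬ e.IsDiag ∧ ¬ f.IsDiag ∧ ∀ v, ¬ (v ∈ e ∧ v ∈ f)) ∧
    (∀ q ∈ E, D.bp q.1 q.2 (ϑ q) ∧ [q.1, D.j q.1, q.2, D.j q.2].Nodup) ∧
    (∀ q ∈ E, ∀ q' ∈ E, q ≠ q' → [q.1, q.2, q'.1, q'.2].Nodup) ∧
    ∀ e, r e = t e + ∑ f, m e f • D.D e f +
      ∑ q ∈ E, if e = s(q.1, D.j q.1) ∨ e = s(q.2, D.j q.2) then ϑ q else 0

/-- the restriction of the form of a matrix to the cycle space -/
def rf {α : Type} [Fintype α] [DecidableEq α] (J : SimpleGraph α) (b : Sym2 α → Sym2 α → ZMod 2) :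
    ↥(Z1 J) → ↥(Z1 J) → ZMod 2 := fun X Y => frm b X.1 Y.1

/-- the spaces `K_ij` as spaces of forms on the cycle space of `J = G - u` -/
def KJ {α : Type} [Fintype α] [DecidableEq α] (G : SimpleGraph α) (u : α) (w : Fin 4 → α) (e : Sym2 (Fin 4)) :
    Submodule (ZMod 2) (↥(Z1 (del G {u})) → ↥(Z1 (del G {u})) → ZMod 2) :=
  Submodule.span (ZMod 2) {B | ∃ i j, e = s(i, j) ∧ i ≠ j ∧ ∃ b, InK (del G {u}) (w i) (w j) b ∧
    B = rf (del G {u}) b}

/-- **KJM** (from KIN; 60 lines).  Elements of `KJ`: the set is closed under sums (for `e = s(i, j) = s(i', j')` use KIN.symm), it contains `0` iff `e` is not diagonal. -/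
structure SpecKJM : Prop where
  mem : ∀ {α : Type} [Fintype α] [DecidableEq α] {G : SimpleGraph α} {u : α} {w : Fin 4 → α} {i j : Fin 4}, i ≠ j →
    ∀ B, B ∈ KJ G u w s(i, j) ↔ ∃ b, InK (del G {u}) (w i) (w j) b ∧ B = rf (del G {u}) b
  diag : ∀ {α : Type} [Fintype α] [DecidableEq α] {G : SimpleGraph α} {u : α} {w : Fin 4 → α}
    (e : Sym2 (Fin 4)), e.IsDiag → KJ G u w e = ⊥

/-- **LDG** (from KRN, KRA, JS3, CJ1, KIN, KJM, RCL, CWC, DGM, LCF, CLA; 450 lines).  The data LD for `L` = functions of two elements of `Z1 J`.  `K = KJ`; `Ga i = {rf b : At (w i) b}`; `Xs e` (`e = s(i, j)`) `= {rf (dtm (ed (w i) (w j)) v + c • sqm (ed (w i) (w j)))}` (`= ⊥` if `w i w j` is no edge of `J`,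
because then `X (w i w j) = 0` on `Z1 J`); `D e f = rf (dtm (chi {e.map w}) (chi {f.map w}))`; `A` = the indices of type A, `j`, `c`, `d` chosen, `th i = rf (sqm (tht w i (c i) (d i)))`, in `K s(i, j i)` because `sqm (tht) = kapm + sqm (ed (w i) (c i))` (kapm_add, KIN).  `dec`: KRN (not adjacent) or KRA (adjacent; JS3, CJ1); a `kapm` of type A is
`th + ` (element of `Ga`) + (element of `Xs`) (RCL.sw if the labels are exchanged), one of type B is in `Ga k ⊓ K e` for the third index `k` up to `Xs` (RCL.cls, .sw, .atk); `dtm (ed (w a) (w b)) v ∈ Xs`.  `bp i m ϑ := ∃ z e e', Bta G u w i (j i) m (j m) z e e' ∧ ϑ = rf (sqm (tht w i z e))`.  `hbp`: `{c i, d i} = {z, e}`; if `c i = z` they are equal;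
otherwise `pr (tht w i e z) = pr (tht w i z e) + X (w i w j)` on `Z1 J` (star of `w i`), so `th i = ϑ + sqm (ed (w i) (w j)) + dtm (ed (w i) (w j)) (tht w i z e)`; and `pr (tht w i z e) = pr (tht w m z e')` on `Z1 J` (star of `z`).  `H1`: restrict to `Z1 M` (CWC.mem: the `y e` vanish): RLN, CLA.  `H2`: restrict to `Z1 M`: DGM, LCF.  `H3`: CWC.dual: `Z_e` for
the edges `e` of `J[W]`; `y_e = dtm x_e v_e + c_e sqm x_e`; evaluate the sum at `(Z_e, Y)`, `Y ∈ Z1 M`: `pr v_e Y = 0`; at `(Z_e, Z_e)`: `c_e = 0`; `pr v_e X = Σ_f X_f pr v_e Z_f` on `Z1 J` (`X + Σ X_f Z_f ∈ Z1 M`), `m e f := pr v_e Z_f`; at `(Z_e, Z_f)`: `m e f = m f e`. -/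
def SpecLDG : Prop := ∀ {α : Type} [Fintype α] [DecidableEq α] {G : SimpleGraph α} {u : α} {w : Fin 4 → α},
  R1 G u w → KZ (del G {u}) →
  (∀ i j, i ≠ j → ¬ G.Adj (w i) (w j) → KZ (del G {u} ⊔ fromEdgeSet {s(w i, w j)})) →
  ∃ D : LD (↥(Z1 (del G {u})) → ↥(Z1 (del G {u})) → ZMod 2), D.K = KJ G u w ∧
    (∀ e f, D.D e f = rf (del G {u}) (dtm (chi {e.map w}) (chi {f.map w}))) ∧
    ∀ i m ϑ, D.bp i m ϑ → ∃ z e e', Bta G u w i (D.j i) m (D.j m) z e e' ∧
      ϑ = rf (del G {u}) (sqm (tht w i z e))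

/-! ## F. The `D_4` minors which kill the rest -/

/-- **TPD** (from BDF, TRE; 150 lines).  The chain with the trees `{w k, w l}` + edge, `T`, `{w m, w p}` + edge: `p 0 = w k, w l`, `q 0 = a_k, a_l`, `p 1 = a_m, a_p`, `q 1 = w m, w p`. -/
def SpecTPD : Prop := ∀ {α : Type} [Fintype α] [DecidableEq α] {G : SimpleGraph α} {u : α} {w : Fin 4 → α},
  R1 G u w → ∀ (k l m p : Fin 4), [k, l, m, p].Nodup → G.Adj (w k) (w l) → G.Adj (w m) (w p) →
  ∀ (T : SimpleGraph α) (X : Finset α), TreeOn T X → T ≤ G → X ⊆ CC G u w →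
  ∀ ak ∈ X, ∀ al ∈ X, ∀ am ∈ X, ∀ ap ∈ X, G.Adj (w k) ak → G.Adj (w l) al → G.Adj (w m) am → G.Adj (w p) ap →
  Cfg G u w k l m p (ed (w k) ak + ed (w l) al + ed (w k) (w l) + chi (tp T ak al))
    (ed (w m) am + ed (w p) ap + ed (w m) (w p) + chi (tp T am ap))

/-- **RCX** (from KUR, KC, PC, PC2; 400 lines).  THE CROSS.  `N(w k) = {u, w l, z, d}`, `N(w m) = {u, w p, z, d'}`, `N(z) = {w k, w m, d, d'}`.  `G - w k - w m` is 2-connected: KConn.two_paths from `{w l, w p}` to `{d, d'}`; `u` has there only the neighbours `w l`, `w p` and `z` only `d`, `d'`, so the two disjoint paths avoid `u` and `z`.  Either they go `w l … d'`, `w p … d`: done.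
Or `P₁ : w l … d`, `P₂ : w p … d'`: the cycles `w k w l P₁ d w k` and `w m w p P₂ d' w m` of `J` are disjoint, their torus `τ ∈ Z_2(J)` (KUR.tor) has `τ (w l w k) (w p w m) = 1`.  If `coh (w l) (w k) (w p) (w m) C = 0` for all cycles `C` of `J` then it is in `P_3(J)` and `KZ J` gives `τ (w l w k) (w p w m) = 0`.  So there is a cycle `C` of `J` which passes
`w l → w k` and later `w p → w m`: `C` without these two edges is a path `R₁` from `w k` to `w p` and a path `R₂` from `w m` to `w l`, disjoint.  The second vertex of `R₁` is `d` or `z`, that of `R₂` is `d'` or `z`.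
`R₁ = w k d …`: `z ∉ R₁` (otherwise `R₁` passes `d z d'` and `w m` has no next vertex on `R₂`); `R₂ = w m d' …` (then `z ∉ R₂`, its neighbours `d`, `w k` are on `R₁`) or `w m z d' …`: cut off.  `R₁ = w k z …`: the next vertex is `d` (if it is `d'` then `R₂` has no second vertex), and `R₂ = w m d' …`.
In all cases the parts `Q₁ : d … w p` and `Q₂ : d' … w l` are as claimed. -/
def SpecRCX : Prop := ∀ {α : Type} [Fintype α] [DecidableEq α] {G : SimpleGraph α} {u : α} {w : Fin 4 → α},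
  R1 G u w → KZ (del G {u}) → ∀ (k l m p : Fin 4) (z d d' : α), [k, l, m, p].Nodup →
  Bta G u w k l m p z d d' →
  ∃ Q₁ Q₂, IsPth (del G {u, w k, z, w m}) d (w p) Q₁ ∧ IsPth (del G {u, w k, z, w m}) d' (w l) Q₂ ∧
    Disjoint (vs Q₁) (vs Q₂)

/-- **BS0** (from TPD, CWC, TREE; 150 lines).  No `θ`.  Let `X` be a component of `G[C]`, `T` a spanning tree; every `w` has a neighbour in `X` (CWC.nbC).  TPD. -/
def SpecBS0 : Prop := ∀ {α : Type} [Fintype α] [DecidableEq α] {G : SimpleGraph α} {u : α} {w : Fin 4 → α},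
  R1 G u w → ∀ (k l m p : Fin 4), [k, l, m, p].Nodup → G.Adj (w k) (w l) → G.Adj (w m) (w p) →
  ∃ X Y, Cfg G u w k l m p X Y ∧ X s(w k, w l) = 1 ∧ Y s(w m, w p) = 1 ∧ X s(w m, w p) = 0

/-- **BS1** (from TPD, CWC, CCC, NBF, TREE; 250 lines).  One beta-pair.  Let `R` be the component of `d` in `G[C] - z`.  (i) `d' ∈ R`: every other component of `G[C] - z` would have its neighbours in `{z, w l, w p}` (NB1), so `R = C - z`, and `w l`, `w p` have neighbours in `R` (not `z`).  `X = R`, `a_k = d`, `a_m = d'`.  (ii) `d' ∉ R`: `NB G R ⊆ {z, w k,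
w l, w p}`, so all four are neighbours; `X = R ∪ {z}`, tree = spanning tree of `R` and the edge `zd`, `a_k = d`, `a_m = z`, `a_l, a_p ∈ R`.  In both cases the tree path from `a_k` to `a_l` avoids `z`, and `a_k ≠ z`: `θ` of the first bead is `X (w k z) + X (z d) = 0`. -/
def SpecBS1 : Prop := ∀ {α : Type} [Fintype α] [DecidableEq α] {G : SimpleGraph α} {u : α} {w : Fin 4 → α},
  R1 G u w → ∀ (k l m p : Fin 4) (z d d' : α), [k, l, m, p].Nodup → Bta G u w k l m p z d d' →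
  G.Adj (w k) (w l) → G.Adj (w m) (w p) →
  ∃ X Y, Cfg G u w k l m p X Y ∧ X s(w k, w l) = 1 ∧ Y s(w m, w p) = 1 ∧ X s(w m, w p) = 0 ∧
    pr (tht w k z d) X = 0

/-- **CR1** (from TPD, RCX, TRE; 250 lines).  `T` = path `b_p … d z d' … b_l`, where `b_p w p` is the last edge of `Q₁`, `b_l w l` the last edge of `Q₂`; `a_k = a_m = z`, `a_l = b_l`, `a_p = b_p`.  First bead: `w k z`, path from `z` through `d'` to `b_l`, `b_l w l`, `w l w k`: `θ = X (w k z) + X (z d) = 1 + 0`.  Second bead: `w m z`,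
path from `z` through `d` to `b_p`, …: `θ = 0 + 1`. -/
def SpecCR1 : Prop := ∀ {α : Type} [Fintype α] [DecidableEq α] {G : SimpleGraph α} {u : α} {w : Fin 4 → α},
  R1 G u w → KZ (del G {u}) → ∀ (k l m p : Fin 4) (z d d' : α), [k, l, m, p].Nodup →
  Bta G u w k l m p z d d' → G.Adj (w k) (w l) → G.Adj (w m) (w p) →
  ∃ X Y, Cfg G u w k l m p X Y ∧ X s(w k, w l) = 1 ∧ Y s(w m, w p) = 1 ∧ X s(w m, w p) = 0 ∧
    pr (tht w k z d) X = 1 ∧ pr (tht w k z d) Y = 1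

/-- **BS2** (from TPD, M33, CWC, CCC, NBF, TREE; 350 lines).  Two beta-pairs `(k, m; z)`, `(l, p; z')`: `N(w k) = {u, w l, z, d}`, `N(w m) = {u, w p, z, d'}`, `N(w l) = {u, w k, z', e}`, `N(w p) = {u, w m, z', e'}`, `N(z) = {w k, w m, d, d'}`, `N(z') = {w l, w p, e, e'}`.  `z ≠ z'`, `z` is not adjacent to `z'`.  `d ≠ e` (`NB G {w k, w l} = {u, z, z', d}`: NB2), `d' ≠ e'` the same.
CLAIM: `C - z - z'` is connected.  A component `K`: its neighbours are `w k, z` if `d ∈ K`, `w m, z` if `d' ∈ K`, `w l, z'` if `e ∈ K`, `w p, z'` if `e' ∈ K`; at least 4 (NB1): so `K` contains one of `d, d'` and one of `e, e'`.  If there are two components: `K ∋ d, e`, `K' ∋ d', e'`: `NB G (K - d - e) ⊆ {d, e}`, `K = {d, e}`, `N(d) ⊆ {w k, z, e}`: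
impossible.  Or `K ∋ d, e'`, `K' ∋ d', e`: `K = {d, e'}`; `d ≠ e'` gives `N(d) ⊆ {w k, z, e'}`; so `K = {y}`, `y = d = e'`, `K' = {y'}`, `y' = d' = e`, `n = 9`: M33 (`a = w k, b = w l, c = w m, d = w p, p = z, q = y, r = y', s = z'`), contradiction.
So let `T` be a spanning tree of `X = C - z - z'`, `a_k = d, a_m = d', a_l = e, a_p = e'`: `θ`, `θ'` vanish on the first bead. -/
def SpecBS2 : Prop := ∀ {α : Type} [Fintype α] [DecidableEq α] {G : SimpleGraph α} {u : α} {w : Fin 4 → α},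
  R1 G u w → ∀ (k l m p : Fin 4) (z d d' z' e e' : α), [k, l, m, p].Nodup → Bta G u w k l m p z d d' →
  Bta G u w l k p m z' e e' →
  ∃ X Y, Cfg G u w k l m p X Y ∧ X s(w k, w l) = 1 ∧ Y s(w m, w p) = 1 ∧ X s(w m, w p) = 0 ∧
    pr (tht w k z d) X = 0 ∧ pr (tht w l z' e) X = 0

/-- **CR2** (from TPD, RCX, TRE; 350 lines).  The cross at `z` avoiding `z'` (notation of BS2).  In `H = G - {u, w k, z, w m}` `N(w p) = {z', e'}`, `N(w l) = {z', e}`, `N(z') = {w l, w p, e, e'}`.  `Q₁` ends `… b_p w p`, `b_p ∈ {z', e'}`; `Q₂` ends `… b_l w l`, `b_l ∈ {z', e}`.  If `z' ∈ Q₁` (`z' ≠ d`): its two neighbours on `Q₁` are two of `w p, e,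
e'`; if one is `e` then `z', e ∈ Q₁` and `b_l` is impossible; so they are `w p` and `e'`: replace `e' z' w p` by `e' w p`.  The same for `Q₂` (with `e'` and `b_p`).  So `z' ∉ Q₁, Q₂`, `b_p = e'`, `b_l = e`.  Configuration of CR1; the beads have no edge at `z'`. -/
def SpecCR2 : Prop := ∀ {α : Type} [Fintype α] [DecidableEq α] {G : SimpleGraph α} {u : α} {w : Fin 4 → α},
  R1 G u w → KZ (del G {u}) → ∀ (k l m p : Fin 4) (z d d' z' e e' : α), [k, l, m, p].Nodup →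
  Bta G u w k l m p z d d' → Bta G u w l k p m z' e e' →
  ∃ X Y, Cfg G u w k l m p X Y ∧ X s(w k, w l) = 1 ∧ Y s(w m, w p) = 1 ∧ X s(w m, w p) = 0 ∧
    pr (tht w k z d) X = 1 ∧ pr (tht w k z d) Y = 1 ∧ pr (tht w l z' e) X = 0

/-- **KIL** (from LIN, BS0, BS1, BS2, CR1, CR2, KJM, KIN, BDF; 350 lines).  `r e = t e + Σ_f m e f • D e f + Σ_{q ∈ E} …` (LIN).  For a chain `K` from `w k` to `w m` with `w l ∈ K.X 0`, `w p ∈ K.X 2`: `t s(k, l) (bd0, bd1) = 0`: `t s(k, l) = Σ_q t_q s(k, l)`, for `q = p`: `t_p s(k, l) = t_p s(k, m) + t_p s(l, m)`, both vanish (there are chains with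
the same beads from `w k` and from `w l` to `w m`, BDF.re); for `q = m` the same with `w p`.  `D s(k, l) f (bd0, bd1)` is `0` unless `f = s(m, p)`, and then `bd0 (w k w l) bd1 (w m w p)` (as `bd0 (w m w p) = 0`).  A `q ∈ E` contributes iff `{s(q.1, j q.1), s(q.2, j q.2)} = {s(k, l), s(m, p)}`, `pr θ bd0 * pr θ bd1`.
`m e f = 0` may be assumed if `w w` of `e` or of `f` is no edge (`D = 0`).  If `E` is empty: BS0 gives `m e f = 0` for all disjoint `e`, `f` which are edges.  Let `q = (k, m) ∈ E`, `l = j k`, `p = j m`, `Bta G u w k l m p z d d'`.  Another `q' ∈ E` has `{q'.1, q'.2} = {l, p}`; `w l` is adjacent to `w k`, and `w (j l)` is its only neighbour among the `w`, so `j l = k`, `j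
p = m`.  `E = {q}`: BS1: `m s(k,l) s(m,p) = 0`; CR1: `m + 1 = 0`: contradiction.  `E = {q, q'}`: BS2: `m = 0`; CR2: `m + 1 + 0 = 0`: contradiction (for `q' = (p, l)` use `tht w p z' e' = tht w l z' e` on `Z1 J`). -/
def SpecKIL : Prop := ∀ {α : Type} [Fintype α] [DecidableEq α] {G : SimpleGraph α} {u : α} {w : Fin 4 → α},
  R1 G u w → KZ (del G {u}) → ∀ D : LD (↥(Z1 (del G {u})) → ↥(Z1 (del G {u})) → ZMod 2), D.K = KJ G u w →
  (∀ e f, D.D e f = rf (del G {u}) (dtm (chi {e.map w}) (chi {f.map w}))) →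
  (∀ i m ϑ, D.bp i m ϑ → ∃ z e e', Bta G u w i (D.j i) m (D.j m) z e e' ∧
      ϑ = rf (del G {u}) (sqm (tht w i z e))) →
  ∀ r : Sym2 (Fin 4) → ↥(Z1 (del G {u})) → ↥(Z1 (del G {u})) → ZMod 2, (∀ e, r e ∈ KJ G u w e) →
  ∑ e, r e = 0 →
  (∀ k l m p : Fin 4, [k, l, m, p].Nodup → ∀ K : Ch2 (del G {u}) (w k) (w m), w l ∈ K.X 0 → w p ∈ K.X 2 →
    ∀ (hX : K.bd0 ∈ Z1 (del G {u})) (hY : K.bd1 ∈ Z1 (del G {u})), r s(k, l) ⟨K.bd0, hX⟩ ⟨K.bd1, hY⟩ = 0) →
  TRel (KJ G u w) r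

/-- **R1A** (from RP1, RP2, D4X, LDG, KIL, KJM, CJ1, FEV, S3F, BDF, POL; 450 lines).  THEOREM R1A.  `f` `D_4`-even on `G`.  It is `D_4`-even on every subgraph.  `U J` (hypothesis for `J`, CJ1): `f = φ₀` on the cycles of `J`, `φ₀` given by a polynomial and coherence functions, so in `F(G)`; replace `f` by `f + φ₀` (FEV): `f = 0` on the cycles of `J`.  For every `p` `f ∈
F(delE G u (w p))` (hypothesis), RP1: `β p i` with `Rep J (w i) (w j) f_ij (β p i + β p j)` for `p ≠ i, j`.  For `e = s(i, j)`, `i ≠ j`: `r e := Σ_{p ∉ e} rf (β p i + β p j)` (two terms, so it is in `KJ e`: the difference of two representing forms), `r e = 0` for diagonal `e`.  `Σ_e r e = Σ_p Σ_{i ≠ p} 2 β p i = 0`.  Killed: D4X for `K` with the forms `β p k +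
β p m`, `β m k + β m p`, `β p l + β p m`, `β m l + β m p`: the sum is `β p k + β p l + β m k + β m l = r s(k, l)`.  KIL (with LDG): `r e = Σ_p t p e`.  Choose matrices `b p e` for `t p e` (KJM) and put `c e := β p i + β p j + b p e` for one `p ∉ e`; `rf (c e)` does not depend on `p ∉ e`, it represents `f_ij`, and in every triple the sum of the three `rf (c e)` is `0`.  So `γ 0 := 0`,
`γ i := c s(0, i)` satisfy `rf (γ i + γ j) = rf (c s(i, j))`: RP2 (beads are in `Z1 J`). -/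
def SpecR1A : Prop := ∀ {α : Type} [Fintype α] [DecidableEq α] {G : SimpleGraph α} {u : α} {w : Fin 4 → α},
  R1 G u w → (∀ G' : SimpleGraph α, C1 G' → NP G' → 7 ≤ (VS G').card → (VS G').card < (VS G).card → U G' ∧ KZ G') →
  (∀ p, U (delE G u (w p))) → U G

end DL
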