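import Pool.Agent.DL.R1A.Spec
import Pool.Agent.DL.NP.TRC

/-!
MP_3ff0f8_gt, ALGEBRA HALF, R1A block: module CL8 (helper21).  A planar graph on 7 vertices: `vk = 0` on its 2-cycles.
-/

open SimpleGraph Finset

namespace DL

set_option linter.unusedSectionVars false

namespace CL8M

variable {α : Type} [Fintype α] [DecidableEq α] {G : SimpleGraph α}
  {x : Sym2 α → Sym2 α → ZMod 2}

/-- the graph with the edge list `L` -/
def Fg (L : List (Sym2 α)) : SimpleGraph α := fromEdgeSet {e | e ∈ L}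

omit [Fintype α] [DecidableEq α] in
lemma fg_adj {L : List (Sym2 α)} {p q : α} : (Fg L).Adj p q ↔ s(p, q) ∈ L ∧ p ≠ q := by
  unfold Fg
  rw [fromEdgeSet_adj]
  rfl

lemma sh (hx : IsZ2 G x) {e f : Sym2 α} {v : α} (he : v ∈ e) (hf : v ∈ f) : x e f = 0 := by
  by_contra h
  exact (hx.2.1 e f h).2.2 v ⟨he, hf⟩

lemma row (hx : IsZ2 G x) {v : α} {e : Sym2 α} (hv : v ∉ e) : ∑ y, x e s(v, y) = 0 := by
  have h := hx.2.2 e v hv
  rw [← h]
  refine sum_bij (fun y _ => s(v, y)) ?_ ?_ ?_ ?_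
  · intro y _
    simp
  · intro y _ y' _ h
    rw [Sym2.eq_iff] at h
    rcases h with ⟨_, h⟩ | ⟨h1, h2⟩
    · exact h
    · exact h2.trans h1
  · intro f hf
    rw [mem_filter] at hf
    obtain ⟨y, rfl⟩ := Sym2.mem_iff_exists.1 hf.2
    exact ⟨y, mem_univ _, rfl⟩
  · intro y _
    rfl

/-- all the neighbours of `v` except `p` are in `e` or give a zero entry -/
lemma single (hx : IsZ2 G x) {v p : α} {e : Sym2 α} (hv : v ∉ e)
    (h : ∀ y, G.Adj v y → y ≠ p → y ∈ e ∨ x e s(v, y) = 0) : x e s(v, p) = 0 := by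
  rw [← row hx hv]
  symm
  refine sum_eq_single p (fun y _ hy => ?_) (fun h1 => absurd (mem_univ _) h1)
  by_contra h0
  rcases h y (hx.2.1 _ _ h0).2.1 hy with h1 | h1
  · exact h0 (sh hx h1 (Sym2.mem_mk_right v y))
  · exact h0 h1

lemma double (hx : IsZ2 G x) {v p q : α} {e : Sym2 α} (hv : v ∉ e) (hpq : p ≠ q)
    (h : ∀ y, G.Adj v y → y ≠ p → y ≠ q → y ∈ e ∨ x e s(v, y) = 0) : x e s(v, p) = x e s(v, q) := by
  have h1 : ∑ y, x e s(v, y) = x e s(v, p) + x e s(v, q) := by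
    refine sum_eq_add p q hpq (fun y _ hy => ?_) (fun h1 => absurd (mem_univ _) h1)
      (fun h1 => absurd (mem_univ _) h1)
    by_contra h0
    rcases h y (hx.2.1 _ _ h0).2.1 hy.1 hy.2 with h1 | h1
    · exact h0 (sh hx h1 (Sym2.mem_mk_right v y))
    · exact h0 h1
  rw [row hx hv] at h1
  have h2 : ∀ s t : ZMod 2, 0 = s + t → s = t := by decide
  exact h2 _ _ h1

/-- at most four vertices -/
lemma four {z l d e : α} (h : ∀ p q, G.Adj p q → q ∈ ({z, l, d, e} : Finset α)) : ¬ NP G := by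
  classical
  rintro ⟨r, hr, x, hx, hv⟩
  apply hv
  unfold vk
  refine sum_eq_zero fun p _ => sum_eq_zero fun q _ => sum_eq_zero fun s _ => sum_eq_zero fun t _ => ?_
  split_ifs with hi
  swap
  · rfl
  by_contra h0
  obtain ⟨hpq, hst, hdj⟩ := hx.2.1 _ _ h0
  have hpq' : G.Adj p q := hpq
  have hst' : G.Adj s t := hst
  have h1 : p ≠ s := by
    rintro rfl
    exact hdj p ⟨by simp, by simp⟩
  have h2 : p ≠ t := by
    rintro rfl
    exact hdj p ⟨by simp, by simp⟩
  have h3 : q ≠ s := by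
    rintro rfl
    exact hdj q ⟨by simp, by simp⟩
  have h4 : q ≠ t := by
    rintro rfl
    exact hdj q ⟨by simp, by simp⟩
  have hsub : ({p, q, s, t} : Finset α) ⊆ {z, l, d, e} := by
    intro y hy
    rw [mem_insert, mem_insert, mem_insert, mem_singleton] at hy
    rcases hy with rfl | rfl | rfl | rfl
    · exact h _ _ hpq'.symm
    · exact h _ _ hpq'
    · exact h _ _ hst'.symm
    · exact h _ _ hst'
  have hc4 : ({p, q, s, t} : Finset α).card = 4 := by
    rw [card_insert_of_notMem, card_insert_of_notMem, card_insert_of_notMem, card_singleton]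
    · simpa using hst'.ne
    · simp [h3, h4]
    · simp [hpq'.ne, h1, h2]
  have heq : ({p, q, s, t} : Finset α) = {z, l, d, e} := by
    refine eq_of_subset_of_card_le hsub ?_
    rw [hc4]
    exact card_le_four
  refine h0 (single hx (v := s) (p := t) (e := s(p, q)) ?_ ?_)
  · rw [Sym2.mem_iff]
    rintro (h | h)
    · exact h1 h.symm
    · exact h3 h.symm
  · intro y hy hyt
    left
    have := h _ _ hy
    rw [← heq] at this
    simp only [mem_insert, mem_singleton] at this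
    rw [Sym2.mem_iff]
    rcases this with h | h | h | h
    · exact Or.inl h
    · exact Or.inr h
    · exact absurd h hy.ne'
    · exact absurd h hyt

lemma zab (hx : IsZ2 G x) {a b : α}
    (h : ∀ y, G.Adj a y → y ≠ b → ∀ w, G.Adj b w → w ≠ a → y = w ∨ x s(a, y) s(b, w) = 0) :
    Zab a b x := by
  intro e f he hf h1 h2
  by_contra h0
  obtain ⟨y, rfl⟩ := Sym2.mem_iff_exists.1 he
  obtain ⟨w, rfl⟩ := Sym2.mem_iff_exists.1 hf
  obtain ⟨h3, h4, -⟩ := hx.2.1 _ _ h0
  have h5 : y ≠ b := by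
    rintro rfl
    exact h1 rfl
  have h6 : w ≠ a := by
    rintro rfl
    exact h2 Sym2.eq_swap
  rcases h y h3 h5 w h4 h6 with rfl | h7
  · exact h0 (sh hx (Sym2.mem_mk_right a y) (Sym2.mem_mk_right b y))
  · exact h0 h7

/-- contraction of `ab` onto `a`, for edge lists -/
lemma contr_le {L L' : List (Sym2 α)} {a b : α}
    (h : ∀ p q, s(p, q) ∈ L → p ≠ b → q ≠ b → s(p, q) ∈ L')
    (h' : ∀ q, (Fg L).Adj b q → q ≠ a → s(a, q) ∈ L') : contr (Fg L) a b ≤ Fg L' := by
  intro p q hpq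
  obtain ⟨h1, h2, h3, h4⟩ := hpq
  rw [fg_adj]
  refine ⟨?_, h3⟩
  rcases h4 with h4 | ⟨rfl, h4⟩ | ⟨rfl, h4⟩
  · exact h p q (fg_adj.1 h4).1 h1 h2
  · exact h' q h4 h3.symm
  · rw [Sym2.eq_swap]
    exact h' p h4.symm h3

lemma step3 (hNPC : SpecNPC) {k l z d e : α} (hnd : [k, l, z, d, e].Nodup) :
    ¬ NP (Fg [s(k, z), s(k, l), s(l, d), s(l, e), s(z, d), s(z, e), s(d, e)]) := by
  simp only [List.nodup_cons, List.mem_cons, List.not_mem_nil, or_false, not_or] at hnd
  obtain ⟨⟨kl, kz, kd, ke⟩, ⟨lz, ld, le⟩, ⟨zd, ze⟩, de, -⟩ := hnd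
  rintro ⟨r, hr, x, hx, hv⟩
  have Nk : ∀ y, (Fg [s(k, z), s(k, l), s(l, d), s(l, e), s(z, d), s(z, e), s(d, e)]).Adj k y →
      y = z ∨ y = l := by
    intro y hy
    rw [fg_adj] at hy
    simpa [Sym2.eq_iff, kl, kz, kd, ke] using hy.1
  have Nz : ∀ y, (Fg [s(k, z), s(k, l), s(l, d), s(l, e), s(z, d), s(z, e), s(d, e)]).Adj z y →
      y = k ∨ y = d ∨ y = e := by
    intro y hy
    rw [fg_adj] at hy
    simpa [Sym2.eq_iff, Ne.symm kz, Ne.symm lz, zd, ze] using hy.1
  have h1 : x s(k, l) s(z, d) = 0 := by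
    rw [hx.1]
    refine single hx (by simp [kz, kd]) (fun y hy hy' => ?_)
    rcases Nk y hy with rfl | rfl
    · simp
    · exact absurd rfl hy'
  have h2 : x s(k, l) s(z, e) = 0 := by
    rw [hx.1]
    refine single hx (by simp [kz, ke]) (fun y hy hy' => ?_)
    rcases Nk y hy with rfl | rfl
    · simp
    · exact absurd rfl hy'
  have hZ : Zab k z x := by
    refine zab hx fun y hy hyz w hw hwk => ?_
    rcases Nk y hy with rfl | rfl
    · exact absurd rfl hyz
    rcases Nz w hw with rfl | rfl | rfl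
    · exact absurd rfl hwk
    · exact Or.inr h1
    · exact Or.inr h2
  have h3 := (hNPC.down hr hx hv (fg_adj.2 ⟨by simp, kz⟩) hZ).2
  have h4 : contr (Fg [s(k, z), s(k, l), s(l, d), s(l, e), s(z, d), s(z, e), s(d, e)]) z k ≤
      Fg [s(z, l), s(l, d), s(l, e), s(z, d), s(z, e), s(d, e)] := by
    refine contr_le (fun p q h hp hq => ?_) (fun q h hq => ?_)
    · simp only [List.mem_cons, List.not_mem_nil, or_false] at h ⊢
      rcases h with h | h | h | h | h | h | h <;>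
        first
        | tauto
        | (exfalso; rw [Sym2.eq_iff] at h; tauto)
    · rcases Nk q h with rfl | rfl
      · exact absurd rfl hq
      · simp
  refine four (z := z) (l := l) (d := d) (e := e) ?_ (hNPC.mono h4 h3)
  intro p q hpq
  rw [fg_adj] at hpq
  have h5 : q ∈ s(p, q) := Sym2.mem_mk_right p q
  have h6 := hpq.1
  simp only [List.mem_cons, List.not_mem_nil, or_false] at h6
  simp only [mem_insert, mem_singleton]
  rcases h6 with h | h | h | h | h | h <;>
    · rw [h, Sym2.mem_iff] at h5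
      tauto

lemma step2 (hNPC : SpecNPC) {b k l z d e : α} (hnd : [b, k, l, z, d, e].Nodup) :
    ¬ NP (Fg [s(b, k), s(b, z), s(b, e), s(k, z), s(k, l), s(l, d), s(l, e), s(z, d), s(z, e), s(d, e)]) := by
  have hnd' : [k, l, z, d, e].Nodup := (List.nodup_cons.1 hnd).2
  simp only [List.nodup_cons, List.mem_cons, List.not_mem_nil, or_false, not_or] at hnd
  obtain ⟨⟨bk, bl, bz, bd, be⟩, ⟨kl, kz, kd, ke⟩, ⟨lz, ld, le⟩, ⟨zd, ze⟩, de, -⟩ := hnd
  rintro ⟨r, hr, x, hx, hv⟩
  have Nb : ∀ y, (Fg [s(b, k), s(b, z), s(b, e), s(k, z), s(k, l), s(l, d), s(l, e), s(z, d), s(z, e),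
      s(d, e)]).Adj b y → y = k ∨ y = z ∨ y = e := by
    intro y hy
    rw [fg_adj] at hy
    simpa [Sym2.eq_iff, bk, bl, bz, bd, be] using hy.1
  have Nz : ∀ y, (Fg [s(b, k), s(b, z), s(b, e), s(k, z), s(k, l), s(l, d), s(l, e), s(z, d), s(z, e),
      s(d, e)]).Adj z y → y = b ∨ y = k ∨ y = d ∨ y = e := by
    intro y hy
    rw [fg_adj] at hy
    simpa [Sym2.eq_iff, Ne.symm bz, Ne.symm kz, Ne.symm lz, zd, ze] using hy.1
  have h1 : x s(b, e) s(z, k) = 0 := by
    rw [hx.1]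
    refine single hx (by simp [bz, bk]) (fun y hy hy' => ?_)
    rcases Nb y hy with rfl | rfl | rfl
    · simp
    · simp
    · exact absurd rfl hy'
  have h2 : x s(b, k) s(z, e) = 0 := by
    rw [hx.1]
    refine single hx (by simp [bz, be]) (fun y hy hy' => ?_)
    rcases Nb y hy with rfl | rfl | rfl
    · exact absurd rfl hy'
    · simp
    · simp
  have h3 : x s(b, k) s(z, d) = 0 := by
    refine single hx (by simp [Ne.symm bz, Ne.symm kz]) (fun y hy hy' => ?_)
    rcases Nz y hy with rfl | rfl | rfl | rfl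
    · simp
    · simp
    · exact absurd rfl hy'
    · exact Or.inr h2
  have h4 : x s(b, e) s(z, d) = 0 := by
    rw [hx.1]
    refine single hx (by simp [bz, bd]) (fun y hy hy' => ?_)
    rcases Nb y hy with rfl | rfl | rfl
    · right
      rw [hx.1]
      exact h3
    · simp
    · exact absurd rfl hy'
  have hZ : Zab b z x := by
    refine zab hx fun y hy hyz w hw hwb => ?_
    rcases Nb y hy with rfl | rfl | rfl
    · rcases Nz w hw with rfl | rfl | rfl | rfl
      · exact absurd rfl hwb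
      · exact Or.inl rfl
      · exact Or.inr h3
      · exact Or.inr h2
    · exact absurd rfl hyz
    · rcases Nz w hw with rfl | rfl | rfl | rfl
      · exact absurd rfl hwb
      · exact Or.inr h1
      · exact Or.inr h4
      · exact Or.inl rfl
  have h5 := (hNPC.down hr hx hv (fg_adj.2 ⟨by simp, bz⟩) hZ).2
  have h6 : contr (Fg [s(b, k), s(b, z), s(b, e), s(k, z), s(k, l), s(l, d), s(l, e), s(z, d), s(z, e),
      s(d, e)]) z b ≤ Fg [s(k, z), s(k, l), s(l, d), s(l, e), s(z, d), s(z, e), s(d, e)] := by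
    refine contr_le (fun p q h hp hq => ?_) (fun q h hq => ?_)
    · simp only [List.mem_cons, List.not_mem_nil, or_false] at h ⊢
      rcases h with h | h | h | h | h | h | h | h | h | h <;>
        first
        | tauto
        | (exfalso; rw [Sym2.eq_iff] at h; tauto)
    · rcases Nb q h with rfl | rfl | rfl
      · simp
      · exact absurd rfl hq
      · simp
  exact step3 hNPC hnd' (hNPC.mono h6 h5)

lemma le1 {a b k l z d e : α} (Na : ∀ y, (Fg [s(a, k), s(a, z), s(a, d), s(b, k), s(b, z), s(b, e), s(k, z), s(k, l), s(l, d), s(l, e), s(z, d),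
      s(z, e), s(d, e)]).Adj a y → y = k ∨ y = z ∨ y = d) :
    contr (Fg [s(a, k), s(a, z), s(a, d), s(b, k), s(b, z), s(b, e), s(k, z), s(k, l), s(l, d), s(l, e), s(z, d),
      s(z, e), s(d, e)]) z a ≤ Fg [s(b, k), s(b, z), s(b, e), s(k, z), s(k, l), s(l, d), s(l, e), s(z, d), s(z, e), s(d, e)] := by
  refine contr_le (fun p q h hp hq => ?_) (fun q h hq => ?_)
  · clear Na
    simp only [List.mem_cons, List.not_mem_nil, or_false] at h
    rcases h with h | h | h | h | h | h | h | h | h | h | h | h | h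
    · rw [Sym2.eq_iff] at h
      rcases h with ⟨h, -⟩ | ⟨-, h⟩
      exacts [absurd h hp, absurd h hq]
    · rw [Sym2.eq_iff] at h
      rcases h with ⟨h, -⟩ | ⟨-, h⟩
      exacts [absurd h hp, absurd h hq]
    · rw [Sym2.eq_iff] at h
      rcases h with ⟨h, -⟩ | ⟨-, h⟩
      exacts [absurd h hp, absurd h hq]
    all_goals rw [h]; simp
  · rcases Na q h with rfl | rfl | rfl
    · simp
    · exact absurd rfl hq
    · simp

lemma key (hNPC : SpecNPC) {a b k l z d e : α} (hnd : [a, b, k, l, z, d, e].Nodup) {r : α → ℕ}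
    (hr : Function.Injective r)
    (hx : IsZ2 (Fg [s(a, k), s(a, z), s(a, d), s(b, k), s(b, z), s(b, e), s(k, z), s(k, l), s(l, d), s(l, e), s(z, d),
      s(z, e), s(d, e)]) x) (hv : vk r x ≠ 0) (h0 : x s(a, k) s(z, b) = 0) : False := by
  have hnd' : [b, k, l, z, d, e].Nodup := (List.nodup_cons.1 hnd).2
  simp only [List.nodup_cons, List.mem_cons, List.not_mem_nil, or_false, not_or] at hnd
  obtain ⟨⟨ab, ak, al, az, ad, ae⟩, ⟨bk, bl, bz, bd, be⟩, ⟨kl, kz, kd, ke⟩, ⟨lz, ld, le⟩, ⟨zd, ze⟩, de, -⟩ := hnd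
  have Na : ∀ y, (Fg [s(a, k), s(a, z), s(a, d), s(b, k), s(b, z), s(b, e), s(k, z), s(k, l), s(l, d), s(l, e), s(z, d),
      s(z, e), s(d, e)]).Adj a y → y = k ∨ y = z ∨ y = d := by
    intro y hy
    rw [fg_adj] at hy
    simpa [Sym2.eq_iff, ab, ak, al, az, ad, ae] using hy.1
  have Nz : ∀ y, (Fg [s(a, k), s(a, z), s(a, d), s(b, k), s(b, z), s(b, e), s(k, z), s(k, l), s(l, d), s(l, e), s(z, d),
      s(z, e), s(d, e)]).Adj z y → y = a ∨ y = b ∨ y = k ∨ y = d ∨ y = e := by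
    intro y hy
    rw [fg_adj] at hy
    simpa [Sym2.eq_iff, Ne.symm az, Ne.symm bz, Ne.symm kz, Ne.symm lz, zd, ze] using hy.1
  have h1 : x s(a, d) s(z, k) = 0 := by
    rw [hx.1]
    refine single hx (by simp [az, ak]) (fun y hy hy' => ?_)
    rcases Na y hy with rfl | rfl | rfl
    · simp
    · simp
    · exact absurd rfl hy'
  have h2 : x s(a, k) s(z, d) = 0 := by
    rw [hx.1]
    refine single hx (by simp [az, ad]) (fun y hy hy' => ?_)
    rcases Na y hy with rfl | rfl | rfl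
    · exact absurd rfl hy'
    · simp
    · simp
  have h3 : x s(a, d) s(z, b) = 0 := by
    rw [hx.1] at h0 ⊢
    rw [← h0]
    refine double hx (by simp [az, ab]) (Ne.symm kd) (fun y hy hy' hy'' => ?_)
    rcases Na y hy with rfl | rfl | rfl
    · exact absurd rfl hy''
    · simp
    · exact absurd rfl hy'
  have h4 : x s(a, k) s(z, e) = 0 := by
    refine single hx (by simp [Ne.symm az, Ne.symm kz]) (fun y hy hy' => ?_)
    rcases Nz y hy with rfl | rfl | rfl | rfl | rfl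
    · simp
    · exact Or.inr h0
    · simp
    · exact Or.inr h2
    · exact absurd rfl hy'
  have h5 : x s(a, d) s(z, e) = 0 := by
    refine single hx (by simp [Ne.symm az, zd]) (fun y hy hy' => ?_)
    rcases Nz y hy with rfl | rfl | rfl | rfl | rfl
    · simp
    · exact Or.inr h3
    · exact Or.inr h1
    · simp
    · exact absurd rfl hy'
  have hZ : Zab a z x := by
    refine zab hx fun y hy hyz w hw hwa => ?_
    rcases Na y hy with rfl | rfl | rfl
    · rcases Nz w hw with rfl | rfl | rfl | rfl | rfl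
      · exact absurd rfl hwa
      · exact Or.inr h0
      · exact Or.inl rfl
      · exact Or.inr h2
      · exact Or.inr h4
    · exact absurd rfl hyz
    · rcases Nz w hw with rfl | rfl | rfl | rfl | rfl
      · exact absurd rfl hwa
      · exact Or.inr h3
      · exact Or.inr h1
      · exact Or.inl rfl
      · exact Or.inr h5
  have h6 := (hNPC.down hr hx hv (fg_adj.2 ⟨by simp, az⟩) hZ).2
  exact step2 hNPC hnd' (hNPC.mono (le1 Na) h6)

end CL8M

open CL8M

theorem specCL8 (hVKA : SpecVKA) (hNPC : SpecNPC) (hKUR : SpecKUR) : SpecCL8 := by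
  intro α _ _ J a b k l z d e hnd hJ hNP
  have hnd0 := hnd
  simp only [List.nodup_cons, List.mem_cons, List.not_mem_nil, or_false, not_or] at hnd
  obtain ⟨⟨ab, ak, al, az, ad, ae⟩, ⟨bk, bl, bz, bd, be⟩, ⟨kl, kz, kd, ke⟩, ⟨lz, ld, le⟩, ⟨zd, ze⟩, de, -⟩ := hnd
  have hle : J ≤ Fg [s(a, k), s(a, z), s(a, d), s(b, k), s(b, z), s(b, e), s(k, z), s(k, l), s(l, d), s(l, e), s(z, d),
      s(z, e), s(d, e)] := fun p q h => fg_adj.2 ⟨(hJ p q).1 h, h.ne⟩
  obtain ⟨r, hr, x, hx, hv⟩ := hNPC.mono hle hNP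
  by_cases h0 : x s(a, k) s(z, b) = 0
  · exact key hNPC hnd0 hr hx hv h0
  have h1 : x s(a, k) s(z, b) = 1 := by
    have : ∀ t : ZMod 2, t ≠ 0 → t = 1 := by decide
    exact this _ h0
  have hc := F2NM.isCyc_four (G := Fg [s(a, k), s(a, z), s(a, d), s(b, k), s(b, z), s(b, e), s(k, z), s(k, l), s(l, d), s(l, e), s(z, d),
      s(z, e), s(d, e)]) (a := a) (b := k) (c := d) (d := l)
    (fg_adj.2 ⟨by simp, ak⟩) (fg_adj.2 ⟨by simp, ad⟩) (fg_adj.2 ⟨by simp [Sym2.eq_iff], Ne.symm ld⟩)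
    (fg_adj.2 ⟨by simp [Sym2.eq_iff], Ne.symm kl⟩) al (Ne.symm kd)
  have hT : tri z b e ∈ Z1 (del (Fg [s(a, k), s(a, z), s(a, d), s(b, k), s(b, z), s(b, e), s(k, z), s(k, l), s(l, d), s(l, e), s(z, d),
      s(z, e), s(d, e)]) {a, k, d, l}) := by
    refine F1NM.tri_mem ?_ ?_ ?_
    · refine ⟨fg_adj.2 ⟨by simp [Sym2.eq_iff], Ne.symm bz⟩, ?_, ?_⟩
      · simp [Ne.symm az, Ne.symm kz, zd, Ne.symm lz]
      · simp [Ne.symm ab, bk, bd, bl]
    · refine ⟨fg_adj.2 ⟨by simp, be⟩, ?_, ?_⟩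
      · simp [Ne.symm ab, bk, bd, bl]
      · simp [Ne.symm ae, Ne.symm ke, Ne.symm de, Ne.symm le]
    · refine ⟨fg_adj.2 ⟨by simp, ze⟩, ?_, ?_⟩
      · simp [Ne.symm az, Ne.symm kz, zd, Ne.symm lz]
      · simp [Ne.symm ae, Ne.symm ke, Ne.symm de, Ne.symm le]
  obtain ⟨hx', hv'⟩ := F1NM.addtor hVKA hKUR hr hx {a, k, d, l} hc.chi_mem (fun e v => F2NM.four_supp e v) hT
  refine key hNPC hnd0 hr hx' (by rw [hv']; exact hv) ?_
  have h2 : chi ({s(a, k), s(a, d), s(d, l), s(l, k)} : Finset (Sym2 α)) s(a, k) = 1 := by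
    rw [chi_apply, if_pos (by simp)]
  have h3 : tri z b e s(z, b) = 1 := by
    unfold tri
    rw [chi_apply, if_pos (by simp)]
  have h4 : tri z b e s(a, k) = 0 := by
    unfold tri
    rw [chi_apply, if_neg (by simp [Sym2.eq_iff, az, ab, ae])]
  show x s(a, k) s(z, b) + tor _ _ _ _ = 0
  unfold tor
  rw [h1, h2, h3, h4, zero_mul, add_zero, one_mul]
  decide

end DL
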