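import Pool.Agent.DL.R1A.CL4

/-!
# CLA: claim A (helper68)
-/

open SimpleGraph Finset

namespace DL

namespace CLAM

open CL5M CL4M

variable {α : Type} [Fintype α] [DecidableEq α] {G : SimpleGraph α} {u : α} {w : Fin 4 → α}

/-- exchanging `c m` and `d m` in a relation -/
theorem RLN_swap {S : Finset (Fin 4)} {c d : Fin 4 → α} {m j : Fin 4}
    (hT : TA G u w m j (c m) (d m)) (h : RLN G u w S c d) :
    RLN G u w S (Function.update c m (d m)) (Function.update d m (c m)) := by
  obtain ⟨r, hr, h1⟩ := h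
  refine ⟨r, hr, fun X hX Y hY => ?_⟩
  rw [← h1 X hX Y hY]
  congr 1
  refine sum_congr rfl fun i _ => ?_
  by_cases hi : i = m
  · subst hi
    rw [Function.update_self, Function.update_self, tht_swap hT hX, tht_swap hT hY]
  · rw [Function.update_of_ne hi, Function.update_of_ne hi]

theorem card_even : ∀ T : Finset (Fin 4), ((T.card : ℕ) : ZMod 2) = 0 → T.card ≠ 2 →
    T = ∅ ∨ T = univ := by
  decide

theorem sum_mul_card {T : Finset (Fin 4)} {f : Fin 4 → ZMod 2} (h : ∀ i ∈ T, f i = 1) :
    ∑ i ∈ T, f i = ((T.card : ℕ) : ZMod 2) := by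
  rw [sum_congr rfl h, sum_const, nsmul_eq_mul, mul_one]

end CLAM

open CL5M CL4M CLAM in
theorem specCLA (hCL1 : SpecCL1) (hCL2 : SpecCL2) (hCL3 : SpecCL3) (hCL4 : SpecCL4)
    (hCL5 : SpecCL5) (hCL6 : SpecCL6) (hCCC : SpecCCC) : SpecCLA := by
  classical
  intro α _ _ G u w hR S j c d hS hT hrel
  -- the relation (*)
  have star : ∀ Z ∈ Z1 (del G (insert u (WW w))), ∀ Y ∈ Z1 (MM G u w),
      ∑ i ∈ S.filter (fun i => Z s(c i, d i) = 1), pr (tht w i (c i) (d i)) Y = 0 := by
    intro Z hZ Y hY
    obtain ⟨h1, h2⟩ := hCCC.sub hZ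
    have h3 := hrel.eval h1 hY fun k => Or.inl fun e he => h2 k e he
    rw [sum_filter]
    refine Eq.trans (sum_congr rfl fun i _ => ?_) h3
    rw [pr_tht (w := w) (i := i) (c := c i) (d := d i) (X := Z), h2 i _ (Sym2.mem_mk_left _ _),
      zero_add]
    rcases zmod2_cases (Z s(c i, d i)) with h | h
    · rw [h, zero_mul, if_neg (by decide)]
    · rw [h, one_mul, if_pos rfl]
  have even : ∀ Z ∈ Z1 (del G (insert u (WW w))),
      (((S.filter (fun i => Z s(c i, d i) = 1)).card : ℕ) : ZMod 2) = 0 := by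
    intro Z hZ
    obtain ⟨h1, h2⟩ := hCCC.sub hZ
    rw [← sum_mul_card (f := fun i => pr (tht w i (c i) (d i)) Z)]
    · exact star Z hZ Z h1
    · intro i hi
      show pr (tht w i (c i) (d i)) Z = 1
      rw [pr_tht, h2 i _ (Sym2.mem_mk_left _ _), zero_add]
      exact (mem_filter.1 hi).2
  by_cases ha : ∃ Z ∈ Z1 (del G (insert u (WW w))),
      (S.filter (fun i => Z s(c i, d i) = 1)).card = 2
  · obtain ⟨Z, hZ, h2⟩ := ha
    obtain ⟨i, m, him, hF⟩ := card_eq_two.1 h2
    have hi : i ∈ S := (mem_filter.1 (hF ▸ mem_insert_self i {m})).1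
    have hm : m ∈ S := (mem_filter.1 (hF ▸ mem_insert_of_mem (mem_singleton_self m))).1
    obtain ⟨z, e, e', h⟩ := hCL1 hR i (j i) m (j m) (c i) (d i) (c m) (d m) (hT i hi) (hT m hm) him
      (fun X hX => by
        have := star Z hZ X hX
        rw [hF, sum_pair him] at this
        exact CharTwo.add_eq_zero.1 this)
    exact ⟨i, hi, m, hm, z, e, e', h⟩
  push Not at ha
  have hall : ∀ Z ∈ Z1 (del G (insert u (WW w))),
      S.filter (fun i => Z s(c i, d i) = 1) = ∅ ∨ S.filter (fun i => Z s(c i, d i) = 1) = univ :=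
    fun Z hZ => card_even _ (even Z hZ) (ha Z hZ)
  by_cases hb : ∃ Z ∈ Z1 (del G (insert u (WW w))), S.filter (fun i => Z s(c i, d i) = 1) = univ
  · exfalso
    obtain ⟨Z, hZ, hF⟩ := hb
    have hSu : ∀ i, i ∈ S := fun i => (mem_filter.1 (hF ▸ mem_univ i)).1
    have h1 : ∀ Z ∈ Z1 (del G (insert u (WW w))), ∀ i m, Z s(c i, d i) = Z s(c m, d m) := by
      intro Z' hZ' i m
      rcases hall Z' hZ' with h | h
      · have key : ∀ i, Z' s(c i, d i) = 0 := by
          intro i
          rcases zmod2_cases (Z' s(c i, d i)) with h0 | h0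
          · exact h0
          · have : i ∈ S.filter (fun i => Z' s(c i, d i) = 1) := mem_filter.2 ⟨hSu i, h0⟩
            rw [h] at this
            exact absurd this (notMem_empty _)
        rw [key, key]
      · have key : ∀ i, Z' s(c i, d i) = 1 := fun i => by
          have h5 : i ∈ S.filter (fun i => Z' s(c i, d i) = 1) := by
            rw [h]
            exact mem_univ i
          exact (mem_filter.1 h5).2
        rw [key, key]
    have h2 := hCL6 hR j c d (fun i => hT i (hSu i)) h1 (by
      intro Y hY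
      have := star Z hZ Y hY
      rw [hF] at this
      exact this) Z hZ
    have h3 : Z s(c 0, d 0) = 1 := by
      have h5 : (0 : Fin 4) ∈ S.filter (fun i => Z s(c i, d i) = 1) := by
        rw [hF]
        exact mem_univ 0
      exact (mem_filter.1 h5).2
    rw [h2] at h3
    exact absurd h3 (by decide)
  push Not at hb
  -- all are bridges
  have hbr : ∀ i ∈ S, ∀ Z ∈ Z1 (del G (insert u (WW w))), Z s(c i, d i) = 0 := by
    intro i hi Z hZ
    rcases zmod2_cases (Z s(c i, d i)) with h0 | h0
    · exact h0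
    · have h1 : i ∈ S.filter (fun i => Z s(c i, d i) = 1) := mem_filter.2 ⟨hi, h0⟩
      rcases hall Z hZ with h | h
      · rw [h] at h1
        exact absurd h1 (notMem_empty _)
      · exact absurd h (hb Z hZ)
  have hcard : S.card = 1 ∨ S.card = 2 ∨ 3 ≤ S.card := by
    have := card_pos.2 hS
    omega
  rcases hcard with h1 | h2 | h3
  · obtain ⟨i, rfl⟩ := card_eq_one.1 h1
    have hi := mem_singleton_self i
    exact absurd hrel (hCL2 hR i (j i) c d (hT i hi) (hbr i hi))
  · obtain ⟨i, m, him, rfl⟩ := card_eq_two.1 h2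
    have hi : i ∈ ({i, m} : Finset (Fin 4)) := mem_insert_self i {m}
    have hm : m ∈ ({i, m} : Finset (Fin 4)) := mem_insert_of_mem (mem_singleton_self m)
    by_cases he : s(c m, d m) = s(c i, d i)
    · exfalso
      rcases Sym2.eq_iff.1 he with ⟨e1, e2⟩ | ⟨e1, e2⟩
      · exact hCL3 hR i m (j i) (j m) c d him (hT i hi) (hT m hm) e1 e2 (hbr i hi) hrel
      · refine hCL3 hR i m (j i) (j m) (Function.update c m (d m)) (Function.update d m (c m)) him
          ?_ ?_ ?_ ?_ ?_ (RLN_swap (hT m hm) hrel)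
        · rw [Function.update_of_ne him, Function.update_of_ne him]
          exact hT i hi
        · rw [Function.update_self, Function.update_self]
          exact TA_swap (hT m hm)
        · rw [Function.update_of_ne him, Function.update_self]
          exact e2
        · rw [Function.update_of_ne him, Function.update_self]
          exact e1
        · rw [Function.update_of_ne him, Function.update_of_ne him]
          exact hbr i hi
    · obtain ⟨z, e, e', h⟩ := hCL4 hR i m (j i) (j m) c d him (hT i hi) (hT m hm) he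
        (fun Z hZ => ⟨hbr i hi Z hZ, hbr m hm Z hZ⟩) hrel
      exact ⟨i, hi, m, hm, z, e, e', h⟩
  · exact absurd hbr (hCL5 hR S j c d h3 hT)

end DL
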