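import Pool.Agent.DL.R1A.Spec
import Pool.Agent.DL.PC2
import Pool.Agent.DL.KC

section
/-!
# MP_3ff0f8_gt, R1A block, module CL1 (helper96)
-/
set_option autoImplicit false
set_option linter.unusedSectionVars false
set_option linter.unusedVariables false

open SimpleGraph Finset

namespace DL

namespace CL1M

variable {α : Type} [Fintype α] [DecidableEq α] {G : SimpleGraph α} {u : α} {w : Fin 4 → α}

omit [DecidableEq α] in
theorem mem_NB {A : Finset α} {x : α} : x ∈ NB G A ↔ x ∉ A ∧ ∃ a ∈ A, G.Adj a x := by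
  simp [NB]

/-- no nonempty set with at most three neighbours -/
theorem few (hNBF : SpecNBF) (hG : KConn 4 G) {D W : Finset α} {r : α} (hD : ∀ v ∈ D, v ∈ VS G)
    {v : α} (hv : v ∈ D) (hN : ∀ a ∈ D, ∀ x, G.Adj a x → x ∈ D ∨ x ∈ W) (hW : W.card ≤ 3)
    (hr : r ∈ VS G) (hrD : r ∉ D) (hrW : r ∉ W) : False := by
  have hsub : NB G D ⊆ W := by
    intro x hx
    obtain ⟨h1, a, ha, hax⟩ := mem_NB.1 hx
    exact (hN a ha x hax).resolve_left h1
  have h1 := hNBF.nb hG (fun v hv => hD v hv) ⟨v, hv⟩ (lt_of_le_of_lt (card_le_card hsub) (by omega)) hr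
  rw [mem_union] at h1
  exact h1.elim hrD fun h => hrW (hsub h)

/-- NB2 for a pair -/
theorem nb2 (hNBF : SpecNBF) (hK : K48 G) (hR : Rig G u) {p q : α} {W : Finset α} (hp : p ∈ VS G)
    (hq : q ∈ VS G) (hpq : p ≠ q) (hup : G.Adj p u ∨ G.Adj q u) (hu : u ≠ p ∧ u ≠ q) (hW : W.card ≤ 4)
    (hN : ∀ y, G.Adj p y → y = q ∨ y ∈ W) (hN' : ∀ y, G.Adj q y → y = p ∨ y ∈ W) : False := by
  have hsub : NB G {p, q} ⊆ W := by
    intro x hx
    obtain ⟨h1, a, ha, hax⟩ := mem_NB.1 hx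
    simp only [mem_insert, mem_singleton, not_or] at h1 ha
    rcases ha with rfl | rfl
    · exact (hN x hax).resolve_left h1.2
    · exact (hN' x hax).resolve_left h1.1
  have hPV : ({p, q} : Finset α) ⊆ VS G := by
    intro x hx
    simp only [mem_insert, mem_singleton] at hx
    rcases hx with rfl | rfl
    exacts [hp, hq]
  have hc2 : ({p, q} : Finset α).card = 2 := card_pair hpq
  have h8 := hK.2
  have hle := card_le_card hsub
  by_cases h4 : (NB G {p, q}).card < 4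
  · have h1 := card_le_card (hNBF.nb hK.1 hPV ⟨p, by simp⟩ h4)
    have h2 := card_union_le ({p, q} : Finset α) (NB G {p, q})
    omega
  · have huN : u ∈ NB G {p, q} := by
      refine mem_NB.2 ⟨by simp [hu.1, hu.2], ?_⟩
      rcases hup with h | h
      · exact ⟨p, by simp, h⟩
      · exact ⟨q, by simp, h⟩
    have h1 := hNBF.rig hR hPV huN (by omega) (by omega)
    have h2 := card_union_le ({p, q} : Finset α) (NB G {p, q})
    have h3 := le_card_sdiff ({p, q} ∪ NB G {p, q} : Finset α) (VS G)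
    omega

/-- degree at least four -/
theorem deg (hK : K48 G) {v : α} {W : Finset α} (hv : v ∈ VS G) (hN : ∀ y, G.Adj v y → y ∈ W)
    (hW : W.card ≤ 4) : ∀ y, G.Adj v y ↔ y ∈ W := by
  have h1 : nbs G v ⊆ W := fun x hx => hN x (mem_nbs.1 hx)
  have h2 := hK.1.le_nbs hv
  have h3 : nbs G v = W := eq_of_subset_of_card_le h1 (by omega)
  intro y
  rw [← h3, mem_nbs]

theorem deg3 (hK : K48 G) {v : α} {W : Finset α} (hv : v ∈ VS G) (hN : ∀ y, G.Adj v y → y ∈ W)
    (hW : W.card ≤ 3) : False := by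
  have h1 : nbs G v ⊆ W := fun x hx => hN x (mem_nbs.1 hx)
  have h2 := hK.1.le_nbs hv
  have h3 := card_le_card h1
  omega

theorem card4_le (a b c d : α) : ({a, b, c, d} : Finset α).card ≤ 4 := by
  refine (card_insert_le _ _).trans ?_
  have := card_le_three (a := b) (b := c) (c := d)
  omega

theorem mem_CC {x : α} : x ∈ CC G u w ↔ x ∈ VS G ∧ x ≠ u ∧ ∀ i, x ≠ w i := by
  simp only [CC, WW, mem_sdiff, mem_insert, mem_image, mem_univ, true_and, not_or, not_exists]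
  constructor
  · rintro ⟨h1, h2, h3⟩
    exact ⟨h1, h2, fun i h => h3 i h.symm⟩
  · rintro ⟨h1, h2, h3⟩
    exact ⟨h1, h2, fun i h => h3 i h.symm⟩

theorem R1.uw (h : R1 G u w) (i : Fin 4) : G.Adj u (w i) := (h.nu _).2 ⟨i, rfl⟩

theorem R1.wne (h : R1 G u w) {i m : Fin 4} (hne : i ≠ m) : w i ≠ w m := fun h' => hne (h.inj h')

theorem R1.uV (h : R1 G u w) : u ∈ VS G := left_mem_VS (R1.uw h 0)

theorem R1.wV (h : R1 G u w) (i : Fin 4) : w i ∈ VS G := right_mem_VS (R1.uw h i)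

theorem idx_all : ∀ i m k l p : Fin 4, i ≠ m → i ≠ k → i ≠ l → m ≠ k → m ≠ l → k ≠ l →
    p = i ∨ p = m ∨ p = k ∨ p = l := by decide

theorem idx_ex : ∀ i m : Fin 4, i ≠ m → ∃ k l, i ≠ k ∧ i ≠ l ∧ m ≠ k ∧ m ≠ l ∧ k ≠ l := by decide

theorem TA.symm {i j : Fin 4} {c d : α} (h : TA G u w i j c d) : TA G u w i j d c :=
  ⟨h.ij, fun x => by rw [h.nb]; tauto, h.cd.symm, h.dC, h.cC⟩

/-- the situation of CL1 after the choice of names -/
structure S1 (G : SimpleGraph α) (u : α) (w : Fin 4 → α) (i m k l j j' : Fin 4) (c d c' d' : α)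
    (s : α → ZMod 2) : Prop where
  h : R1 G u w
  ti : TA G u w i j c d
  tm : TA G u w m j' c' d'
  im : i ≠ m
  ik : i ≠ k
  il : i ≠ l
  nmk : m ≠ k
  ml : m ≠ l
  kl : k ≠ l
  e1 : s c' = s c
  e2 : s d' = s d
  e3 : s c ≠ s d
  ne : c ≠ c' ∨ d ≠ d'
  f1 : ∀ x ∈ CC G u w, ∀ y ∈ CC G u w, G.Adj x y → s y = s x ∨ (x = c ∧ y = d) ∨ (x = d ∧ y = c) ∨
    (x = c' ∧ y = d') ∨ (x = d' ∧ y = c')
  fk : ∀ x ∈ CC G u w, G.Adj (w k) x → s x = s (w k)
  fl : ∀ x ∈ CC G u w, G.Adj (w l) x → s x = s (w l)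

variable {i m k l j j' : Fin 4} {c d c' d' : α} {s : α → ZMod 2}

theorem S1.flip (h : S1 G u w i m k l j j' c d c' d' s) : S1 G u w i m k l j j' d c d' c' s := by
  refine ⟨h.h, TA.symm h.ti, TA.symm h.tm, h.im, h.ik, h.il, h.nmk, h.ml, h.kl, h.e2, h.e1, h.e3.symm,
    h.ne.symm, fun x hx y hy hxy => ?_, h.fk, h.fl⟩
  have := h.f1 x hx y hy hxy
  tauto

theorem S1.swap (h : S1 G u w i m k l j j' c d c' d' s) : S1 G u w i m l k j j' c d c' d' s :=
  ⟨h.h, h.ti, h.tm, h.im, h.il, h.ik, h.ml, h.nmk, h.kl.symm, h.e1, h.e2, h.e3, h.ne, h.f1, h.fl, h.fk⟩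

/-- neighbours of a vertex of `C` -/
theorem S1.nbx (h : S1 G u w i m k l j j' c d c' d' s) {x y : α} (hx : x ∈ CC G u w) (hxy : G.Adj x y) :
    (y = w i ∧ (x = c ∨ x = d)) ∨ (y = w m ∧ (x = c' ∨ x = d')) ∨ (y = w k ∧ s x = s (w k)) ∨
      (y = w l ∧ s x = s (w l)) ∨ (y ∈ CC G u w ∧ (s y = s x ∨ (x = c ∧ y = d) ∨ (x = d ∧ y = c) ∨
        (x = c' ∧ y = d') ∨ (x = d' ∧ y = c'))) := by
  have hxC := mem_CC.1 hx
  by_cases hy : y ∈ CC G u w
  · exact Or.inr (Or.inr (Or.inr (Or.inr ⟨hy, h.f1 x hx y hy hxy⟩)))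
  have hyu : y ≠ u := by
    rintro rfl
    obtain ⟨p, hp⟩ := (h.h.nu x).1 hxy.symm
    exact hxC.2.2 p hp
  have : ∃ p, y = w p := by
    by_contra hno
    exact hy (mem_CC.2 ⟨right_mem_VS hxy, hyu, fun p hp => hno ⟨p, hp⟩⟩)
  obtain ⟨p, rfl⟩ := this
  rcases idx_all i m k l p h.im h.ik h.il h.nmk h.ml h.kl with rfl | rfl | rfl | rfl
  · rcases (h.ti.nb x).1 hxy.symm with h1 | h1 | h1 | h1
    · exact absurd h1 hxC.2.1
    · exact absurd h1 (hxC.2.2 _)
    · exact Or.inl ⟨rfl, Or.inl h1⟩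
    · exact Or.inl ⟨rfl, Or.inr h1⟩
  · rcases (h.tm.nb x).1 hxy.symm with h1 | h1 | h1 | h1
    · exact absurd h1 hxC.2.1
    · exact absurd h1 (hxC.2.2 _)
    · exact Or.inr (Or.inl ⟨rfl, Or.inl h1⟩)
    · exact Or.inr (Or.inl ⟨rfl, Or.inr h1⟩)
  · exact Or.inr (Or.inr (Or.inl ⟨rfl, h.fk x hx hxy.symm⟩))
  · exact Or.inr (Or.inr (Or.inr (Or.inl ⟨rfl, h.fl x hx hxy.symm⟩)))

theorem S1.cd' (h : S1 G u w i m k l j j' c d c' d' s) : c ≠ d' ∧ d ≠ c' ∧ c ≠ d ∧ c' ≠ d' := by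
  refine ⟨?_, ?_, h.ti.cd.ne, h.tm.cd.ne⟩
  · rintro rfl; exact h.e3 h.e2
  · rintro rfl; exact h.e3 h.e1.symm

/-- the side `P` has only the elements `c`, `c'` -/
theorem S1.P_eq (hNBF : SpecNBF) (h : S1 G u w i m k l j j' c d c' d' s) (hl : s (w l) ≠ s c) :
    ∀ x ∈ CC G u w, s x = s c → x = c ∨ x = c' := by
  classical
  intro x hx hs
  by_contra hne
  rw [not_or] at hne
  obtain ⟨n1, n2, n3, n4⟩ := h.cd'
  refine few hNBF h.h.k48.1 (D := (CC G u w).filter fun x => s x = s c ∧ x ≠ c ∧ x ≠ c') (W := {c, c', w k})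
    (r := u) (fun v hv => (mem_CC.1 (mem_filter.1 hv).1).1) (v := x) (mem_filter.2 ⟨hx, hs, hne.1, hne.2⟩) ?_
    card_le_three (R1.uV h.h) ?_ ?_
  · intro a ha y hay
    rw [mem_filter] at ha
    obtain ⟨haC, hsa, ha1, ha2⟩ := ha
    have had : a ≠ d := by rintro rfl; exact h.e3 hsa.symm
    have had' : a ≠ d' := by rintro rfl; exact h.e3 (hsa.symm.trans h.e2)
    rcases h.nbx haC hay with ⟨_, h1 | h1⟩ | ⟨_, h1 | h1⟩ | ⟨h1, _⟩ | ⟨_, h1⟩ | ⟨hy, h1⟩
    · exact absurd h1 ha1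
    · exact absurd h1 had
    · exact absurd h1 ha2
    · exact absurd h1 had'
    · exact Or.inr (by simp [h1])
    · exact absurd (h1.symm.trans hsa) hl
    · have hsy : s y = s a := by
        rcases h1 with h1 | ⟨h1, _⟩ | ⟨h1, _⟩ | ⟨h1, _⟩ | ⟨h1, _⟩
        · exact h1
        · exact absurd h1 ha1
        · exact absurd h1 had
        · exact absurd h1 ha2
        · exact absurd h1 had'
      by_cases hy1 : y = c
      · exact Or.inr (by simp [hy1])
      by_cases hy2 : y = c'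
      · exact Or.inr (by simp [hy2])
      exact Or.inl (mem_filter.2 ⟨hy, hsy.trans hsa, hy1, hy2⟩)
  · intro hu
    exact (mem_CC.1 (mem_filter.1 hu).1).2.1 rfl
  · simp only [mem_insert, mem_singleton, not_or]
    exact ⟨fun h1 => (mem_CC.1 h.ti.cC).2.1 h1.symm, fun h1 => (mem_CC.1 h.tm.cC).2.1 h1.symm,
      (R1.uw h.h k).ne⟩

/-- neighbours of `c` -/
theorem S1.nbc (hNBF : SpecNBF) (h : S1 G u w i m k l j j' c d c' d' s) (hl : s (w l) ≠ s c) {y : α}
    (hy : G.Adj c y) : y = w i ∨ (y = w m ∧ c = c') ∨ (y = w k ∧ s c = s (w k)) ∨ y = d ∨ (y = c' ∧ c ≠ c') ∨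
      (y = d' ∧ c = c') := by
  obtain ⟨n1, n2, n3, n4⟩ := h.cd'
  rcases h.nbx h.ti.cC hy with ⟨h1, _⟩ | ⟨h1, h2 | h2⟩ | ⟨h1, h2⟩ | ⟨_, h1⟩ | ⟨hy', h1⟩
  · exact Or.inl h1
  · exact Or.inr (Or.inl ⟨h1, h2⟩)
  · exact absurd h2 n1
  · exact Or.inr (Or.inr (Or.inl ⟨h1, h2⟩))
  · exact absurd h1.symm hl
  · rcases h1 with h1 | ⟨_, h1⟩ | ⟨h1, _⟩ | ⟨h1, h2⟩ | ⟨h1, _⟩
    · rcases h.P_eq hNBF hl y hy' h1 with h2 | h2
      · exact absurd h2 hy.ne'
      · refine Or.inr (Or.inr (Or.inr (Or.inr (Or.inl ⟨h2, ?_⟩))))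
        rintro rfl
        exact hy.ne h2.symm
    · exact Or.inr (Or.inr (Or.inr (Or.inl h1)))
    · exact absurd h1 n3
    · exact Or.inr (Or.inr (Or.inr (Or.inr (Or.inr ⟨h2, h1⟩))))
    · exact absurd h1 n1

theorem S1.exch (h : S1 G u w i m k l j j' c d c' d' s) : S1 G u w m i k l j' j c' d' c d s := by
  refine ⟨h.h, h.tm, h.ti, h.im.symm, h.nmk, h.ml, h.ik, h.il, h.kl, h.e1.symm, h.e2.symm, ?_, ?_,
    fun x hx y hy hxy => ?_, h.fk, h.fl⟩
  · rw [h.e1, h.e2]; exact h.e3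
  · rcases h.ne with h1 | h1
    · exact Or.inl h1.symm
    · exact Or.inr h1.symm
  · have := h.f1 x hx y hy hxy
    tauto

/-- `j = m` iff `w i ~ w m` -/
theorem S1.jm (h : S1 G u w i m k l j j' c d c' d' s) : j = m ↔ G.Adj (w i) (w m) := by
  rw [h.ti.nb]
  constructor
  · rintro rfl; tauto
  · rintro (h1 | h1 | h1 | h1)
    · exact absurd h1 (R1.uw h.h m).ne'
    · exact (h.h.inj h1).symm
    · exact absurd h1.symm ((mem_CC.1 h.ti.cC).2.2 m)
    · exact absurd h1.symm ((mem_CC.1 h.ti.dC).2.2 m)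

/-- CASE 2 -/
theorem S1.case2 (hNBF : SpecNBF) (h : S1 G u w i m k l j j' c d c' d' s) (hk : s (w k) ≠ s c)
    (hl : s (w l) ≠ s c) : ∃ z e e', Bta G u w i j m j' z e e' := by
  obtain ⟨n1, n2, n3, n4⟩ := h.cd'
  have hcV : c ∈ VS G := (mem_CC.1 h.ti.cC).1
  have hcc : c = c' := by
    by_contra hne
    refine deg3 h.h.k48 hcV (W := {w i, d, c'}) (fun y hy => ?_) card_le_three
    simp only [mem_insert, mem_singleton]
    rcases h.nbc hNBF hl hy with h1 | ⟨_, h1⟩ | ⟨_, h1⟩ | h1 | ⟨h1, _⟩ | ⟨_, h1⟩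
    · exact Or.inl h1
    · exact absurd h1 hne
    · exact absurd h1.symm hk
    · exact Or.inr (Or.inl h1)
    · exact Or.inr (Or.inr h1)
    · exact absurd h1 hne
  subst hcc
  have hdd : d ≠ d' := h.ne.resolve_left fun h1 => h1 rfl
  have hN := deg h.h.k48 hcV (W := {w i, w m, d, d'}) (fun y hy => by
    simp only [mem_insert, mem_singleton]
    rcases h.nbc hNBF hl hy with h1 | ⟨h1, _⟩ | ⟨_, h1⟩ | h1 | ⟨_, h1⟩ | ⟨h1, _⟩
    · exact Or.inl h1
    · exact Or.inr (Or.inl h1)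
    · exact absurd h1.symm hk
    · exact Or.inr (Or.inr (Or.inl h1))
    · exact absurd rfl h1
    · exact Or.inr (Or.inr (Or.inr h1))) (card4_le _ _ _ _)
  have hjm : j ≠ m := by
    intro hj
    have ham := h.jm.1 hj
    refine nb2 hNBF h.h.k48 h.h.rig (p := w i) (q := c) (W := {u, w m, d, d'}) (R1.wV h.h i) hcV
      ((mem_CC.1 h.ti.cC).2.2 i).symm (Or.inl (R1.uw h.h i).symm)
      ⟨(R1.uw h.h i).ne, (mem_CC.1 h.ti.cC).2.1.symm⟩ (card4_le _ _ _ _) (fun y hy => ?_) fun y hy => ?_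
    · simp only [mem_insert, mem_singleton]
      rcases (h.ti.nb y).1 hy with h1 | h1 | h1 | h1
      · exact Or.inr (Or.inl h1)
      · rw [hj] at h1; exact Or.inr (Or.inr (Or.inl h1))
      · exact Or.inl h1
      · exact Or.inr (Or.inr (Or.inr (Or.inl h1)))
    · have := (hN y).1 hy
      simp only [mem_insert, mem_singleton] at this ⊢
      tauto
  have hji : j' ≠ i := by
    intro hj
    exact hjm (h.jm.2 (h.exch.jm.1 hj).symm)
  exact ⟨c, d, d', h.im, hjm, hji, hdd, h.ti, h.tm, fun x => by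
    rw [hN x]; simp only [mem_insert, mem_singleton]⟩

theorem zm2 : ∀ a b c : ZMod 2, a ≠ b → c = a ∨ c = b := by decide

/-- `w i` and `w k` are not adjacent if `c ≠ c'` -/
theorem S1.j_ne_k (hNBF : SpecNBF) (h : S1 G u w i m k l j j' c d c' d' s) (hl : s (w l) ≠ s c)
    (hc : c ≠ c') : j ≠ k := by
  rintro rfl
  have hcC := mem_CC.1 h.ti.cC
  refine nb2 hNBF h.h.k48 h.h.rig (p := w i) (q := c) (W := {u, w j, d, c'}) (R1.wV h.h i) hcC.1
    (hcC.2.2 i).symm (Or.inl (R1.uw h.h i).symm) ⟨(R1.uw h.h i).ne, hcC.2.1.symm⟩ (card4_le _ _ _ _)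
    (fun y hy => ?_) fun y hy => ?_
  · simp only [mem_insert, mem_singleton]
    rcases (h.ti.nb y).1 hy with h1 | h1 | h1 | h1 <;> tauto
  · simp only [mem_insert, mem_singleton]
    rcases h.nbc hNBF hl hy with h1 | ⟨_, h1⟩ | ⟨h1, _⟩ | h1 | ⟨h1, _⟩ | ⟨_, h1⟩ <;> tauto

/-- neighbours of `w k` -/
theorem S1.nbk (h : S1 G u w i m k l j j' c d c' d' s) {y : α} (hy : G.Adj (w k) y) :
    y = u ∨ (y = w i ∧ j = k) ∨ (y = w m ∧ j' = k) ∨ y = w l ∨ (y ∈ CC G u w ∧ s y = s (w k)) := by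
  by_cases hyu : y = u
  · exact Or.inl hyu
  by_cases hyC : y ∈ CC G u w
  · exact Or.inr (Or.inr (Or.inr (Or.inr ⟨hyC, h.fk y hyC hy⟩)))
  have : ∃ p, y = w p := by
    by_contra hno
    exact hyC (mem_CC.2 ⟨right_mem_VS hy, hyu, fun p hp => hno ⟨p, hp⟩⟩)
  obtain ⟨p, rfl⟩ := this
  rcases idx_all i m k l p h.im h.ik h.il h.nmk h.ml h.kl with rfl | rfl | rfl | rfl
  · refine Or.inr (Or.inl ⟨rfl, ?_⟩)
    rcases (h.ti.nb _).1 hy.symm with h1 | h1 | h1 | h1
    · exact absurd h1 (R1.uw h.h k).ne'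
    · exact (h.h.inj h1).symm
    · exact absurd h1.symm ((mem_CC.1 h.ti.cC).2.2 k)
    · exact absurd h1.symm ((mem_CC.1 h.ti.dC).2.2 k)
  · refine Or.inr (Or.inr (Or.inl ⟨rfl, ?_⟩))
    rcases (h.tm.nb _).1 hy.symm with h1 | h1 | h1 | h1
    · exact absurd h1 (R1.uw h.h k).ne'
    · exact (h.h.inj h1).symm
    · exact absurd h1.symm ((mem_CC.1 h.tm.cC).2.2 k)
    · exact absurd h1.symm ((mem_CC.1 h.tm.dC).2.2 k)
  · exact absurd rfl hy.ne
  · exact Or.inr (Or.inr (Or.inr (Or.inl rfl)))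

/-- all vertices -/
theorem S1.all (hNBF : SpecNBF) (h : S1 G u w i m k l j j' c d c' d' s) (hk : s (w k) = s c)
    (hl : s (w l) = s d) {x : α} (hx : x ∈ VS G) :
    x = u ∨ x = w i ∨ x = w m ∨ x = w k ∨ x = w l ∨ x = c ∨ x = d ∨ x = c' ∨ x = d' := by
  by_cases hxu : x = u
  · exact Or.inl hxu
  by_cases hxC : x ∈ CC G u w
  · rcases zm2 (s c) (s d) (s x) h.e3 with h1 | h1
    · rcases h.P_eq hNBF (by rw [hl]; exact h.e3.symm) x hxC h1 with h2 | h2 <;> tauto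
    · rcases h.flip.swap.P_eq hNBF (by rw [hk]; exact h.e3) x hxC h1 with h2 | h2 <;> tauto
  have : ∃ p, x = w p := by
    by_contra hno
    exact hxC (mem_CC.2 ⟨hx, hxu, fun p hp => hno ⟨p, hp⟩⟩)
  obtain ⟨p, rfl⟩ := this
  rcases idx_all i m k l p h.im h.ik h.il h.nmk h.ml h.kl with rfl | rfl | rfl | rfl <;> tauto

/-- CASE 1a -/
theorem S1.case1a (hNBF : SpecNBF) (hM33 : SpecM33) (h : S1 G u w i m k l j j' c d c' d' s)
    (hk : s (w k) = s c) (hl : s (w l) = s d) (hc : c ≠ c') (hd : d ≠ d') : False := by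
  have hl' : s (w l) ≠ s c := by rw [hl]; exact h.e3.symm
  have hk' : s (w k) ≠ s d := by rw [hk]; exact h.e3
  have h2 := h.flip.swap
  have h3 := h.exch
  have h4 := h.exch.flip.swap
  have nc := deg h.h.k48 (mem_CC.1 h.ti.cC).1 (W := {w i, w k, d, c'}) (fun y hy => by
    simp only [mem_insert, mem_singleton]
    rcases h.nbc hNBF hl' hy with h1 | ⟨_, h1⟩ | ⟨h1, _⟩ | h1 | ⟨h1, _⟩ | ⟨_, h1⟩ <;> tauto) (card4_le _ _ _ _)
  have nd := deg h.h.k48 (mem_CC.1 h.ti.dC).1 (W := {w i, w l, c, d'}) (fun y hy => by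
    simp only [mem_insert, mem_singleton]
    rcases h2.nbc hNBF hk' hy with h1 | ⟨_, h1⟩ | ⟨h1, _⟩ | h1 | ⟨h1, _⟩ | ⟨_, h1⟩ <;> tauto) (card4_le _ _ _ _)
  have nc' := deg h.h.k48 (mem_CC.1 h.tm.cC).1 (W := {w m, w k, d', c}) (fun y hy => by
    simp only [mem_insert, mem_singleton]
    rcases h3.nbc hNBF (by rw [h.e1]; exact hl') hy with h1 | ⟨_, h1⟩ | ⟨h1, _⟩ | h1 | ⟨h1, _⟩ | ⟨_, h1⟩
    · tauto
    · exact absurd h1.symm hc
    · tauto
    · tauto
    · tauto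
    · exact absurd h1.symm hc) (card4_le _ _ _ _)
  have nd' := deg h.h.k48 (mem_CC.1 h.tm.dC).1 (W := {w m, w l, c', d}) (fun y hy => by
    simp only [mem_insert, mem_singleton]
    rcases h4.nbc hNBF (by rw [h.e2]; exact hk') hy with h1 | ⟨_, h1⟩ | ⟨h1, _⟩ | h1 | ⟨h1, _⟩ | ⟨_, h1⟩
    · tauto
    · exact absurd h1.symm hd
    · tauto
    · tauto
    · tauto
    · exact absurd h1.symm hd) (card4_le _ _ _ _)
  have hjk : j ≠ k := h.j_ne_k hNBF hl' hc
  have hjl : j ≠ l := h2.j_ne_k hNBF hk' hd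
  have hjm : j = m := by
    rcases idx_all i m k l j h.im h.ik h.il h.nmk h.ml h.kl with h1 | h1 | h1 | h1
    · exact absurd h1.symm h.ti.ij
    · exact h1
    · exact absurd h1 hjk
    · exact absurd h1 hjl
  have hji : j' = i := h3.jm.2 (h.jm.1 hjm).symm
  have nk := deg h.h.k48 (R1.wV h.h k) (W := {u, w l, c, c'}) (fun y hy => by
    simp only [mem_insert, mem_singleton]
    rcases h.nbk hy with h1 | ⟨_, h1⟩ | ⟨_, h1⟩ | h1 | ⟨h1, h5⟩
    · tauto
    · exact absurd h1 hjk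
    · exact absurd (h1.symm.trans hji) h.ik.symm
    · tauto
    · rcases h.P_eq hNBF hl' y h1 (h5.trans hk) with h6 | h6 <;> tauto) (card4_le _ _ _ _)
  have nl := deg h.h.k48 (R1.wV h.h l) (W := {u, w k, d, d'}) (fun y hy => by
    simp only [mem_insert, mem_singleton]
    rcases h2.nbk hy with h1 | ⟨_, h1⟩ | ⟨_, h1⟩ | h1 | ⟨h1, h5⟩
    · tauto
    · exact absurd h1 hjl
    · exact absurd (h1.symm.trans hji) h.il.symm
    · tauto
    · rcases h2.P_eq hNBF hk' y h1 (h5.trans hl) with h6 | h6 <;> tauto) (card4_le _ _ _ _)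
  obtain ⟨n1, n2, n3, n4⟩ := h.cd'
  have hcC := mem_CC.1 h.ti.cC
  have hdC := mem_CC.1 h.ti.dC
  have hcC' := mem_CC.1 h.tm.cC
  have hdC' := mem_CC.1 h.tm.dC
  refine h.h.n33 (hM33 u (w i) (w m) (w k) (w l) c d c' d' ?_ (fun x hx => ?_) (fun x => ?_) (fun x => ?_)
    (fun x => ?_) (fun x => ?_) (fun x => ?_) (fun x => ?_) (fun x => ?_) (fun x => ?_) fun x => ?_)
  · have w1 := fun p => (R1.uw h.h p).ne
    simp only [List.nodup_cons, List.mem_cons, List.not_mem_nil, or_false, not_or, List.nodup_nil, and_true,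
      not_false_eq_true]
    exact ⟨⟨w1 i, w1 m, w1 k, w1 l, hcC.2.1.symm, hdC.2.1.symm, hcC'.2.1.symm, hdC'.2.1.symm⟩,
      ⟨R1.wne h.h h.im, R1.wne h.h h.ik, R1.wne h.h h.il, (hcC.2.2 i).symm, (hdC.2.2 i).symm,
        (hcC'.2.2 i).symm, (hdC'.2.2 i).symm⟩,
      ⟨R1.wne h.h h.nmk, R1.wne h.h h.ml, (hcC.2.2 m).symm, (hdC.2.2 m).symm,
        (hcC'.2.2 m).symm, (hdC'.2.2 m).symm⟩,
      ⟨R1.wne h.h h.kl, (hcC.2.2 k).symm, (hdC.2.2 k).symm, (hcC'.2.2 k).symm, (hdC'.2.2 k).symm⟩,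
      ⟨(hcC.2.2 l).symm, (hdC.2.2 l).symm, (hcC'.2.2 l).symm, (hdC'.2.2 l).symm⟩,
      ⟨n3, hc, n1⟩, ⟨n2, hd⟩, n4⟩
  · have := h.all hNBF hk hl hx
    simpa using this
  · rw [h.h.nu x]
    simp only [List.mem_cons, List.not_mem_nil, or_false]
    constructor
    · rintro ⟨p, rfl⟩
      rcases idx_all i m k l p h.im h.ik h.il h.nmk h.ml h.kl with rfl | rfl | rfl | rfl <;> tauto
    · rintro (h1 | h1 | h1 | h1) <;> exact ⟨_, h1⟩
  · rw [h.ti.nb x, hjm]
    simp only [List.mem_cons, List.not_mem_nil, or_false]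
  · rw [h.tm.nb x, hji]
    simp only [List.mem_cons, List.not_mem_nil, or_false]
  · rw [nk x]
    simp only [List.mem_cons, List.not_mem_nil, or_false, mem_insert, mem_singleton]
  · rw [nl x]
    simp only [List.mem_cons, List.not_mem_nil, or_false, mem_insert, mem_singleton]
  · rw [nc x]
    simp only [List.mem_cons, List.not_mem_nil, or_false, mem_insert, mem_singleton]
  · rw [nd x]
    simp only [List.mem_cons, List.not_mem_nil, or_false, mem_insert, mem_singleton]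
  · rw [nc' x]
    simp only [List.mem_cons, List.not_mem_nil, or_false, mem_insert, mem_singleton]
    tauto
  · rw [nd' x]
    simp only [List.mem_cons, List.not_mem_nil, or_false, mem_insert, mem_singleton]
    tauto

/-- CASE 1b -/
theorem S1.case1b (hNBF : SpecNBF) (hCL8 : SpecCL8) (hCWC : SpecCWC)
    (h : S1 G u w i m k l j j' c d c' d' s)
    (hk : s (w k) = s c) (hl : s (w l) = s d) (hc : c = c') (hd : d ≠ d') : False := by
  have hl' : s (w l) ≠ s c := by rw [hl]; exact h.e3.symm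
  have hk' : s (w k) ≠ s d := by rw [hk]; exact h.e3
  subst hc
  have h2 := h.flip.swap
  have h3 := h.exch
  have h4 := h.exch.flip.swap
  have nd := deg h.h.k48 (mem_CC.1 h.ti.dC).1 (W := {w i, w l, c, d'}) (fun y hy => by
    simp only [mem_insert, mem_singleton]
    rcases h2.nbc hNBF hk' hy with h1 | ⟨_, h1⟩ | ⟨h1, _⟩ | h1 | ⟨h1, _⟩ | ⟨_, h1⟩ <;> tauto) (card4_le _ _ _ _)
  have nd' := deg h.h.k48 (mem_CC.1 h.tm.dC).1 (W := {w m, w l, c, d}) (fun y hy => by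
    simp only [mem_insert, mem_singleton]
    rcases h4.nbc hNBF (by rw [h.e2]; exact hk') hy with h1 | ⟨_, h1⟩ | ⟨h1, _⟩ | h1 | ⟨h1, _⟩ | ⟨_, h1⟩
    · tauto
    · exact absurd h1.symm hd
    · tauto
    · tauto
    · tauto
    · exact absurd h1.symm hd) (card4_le _ _ _ _)
  have hjl : j ≠ l := h2.j_ne_k hNBF hk' hd
  have hjl' : j' ≠ l := h4.j_ne_k hNBF (by rw [h.e2]; exact hk') hd.symm
  -- `w k` is adjacent to `c`
  have hkc : G.Adj (w k) c := by
    obtain ⟨a, ha, hka⟩ := hCWC.nbC h.h (CC G u w) (Subset.refl _) ⟨c, h.ti.cC⟩ (fun _ _ b hb _ => hb) k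
    rcases h.P_eq hNBF hl' a ha ((h.fk a ha hka).trans hk) with h1 | h1
    · exact h1 ▸ hka
    · exact h1 ▸ hka
  have hPk : ∀ y ∈ CC G u w, s y = s (w k) → y = c := fun y hy h5 => by
    rcases h.P_eq hNBF hl' y hy (h5.trans hk) with h6 | h6 <;> exact h6
  have hjm : j ≠ m := by
    intro hjm
    have hji : j' = i := h3.jm.2 (h.jm.1 hjm).symm
    refine deg3 h.h.k48 (R1.wV h.h k) (W := {u, w l, c}) (fun y hy => ?_) card_le_three
    simp only [mem_insert, mem_singleton]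
    rcases h.nbk hy with h1 | ⟨_, h1⟩ | ⟨_, h1⟩ | h1 | ⟨h1, h5⟩
    · tauto
    · exact absurd (h1.symm.trans hjm) h.nmk.symm
    · exact absurd (h1.symm.trans hji) h.ik.symm
    · tauto
    · exact Or.inr (Or.inr (hPk y h1 h5))
  have hji : j' ≠ i := fun h5 => hjm (h.jm.2 (h3.jm.1 h5).symm)
  have hjk : j = k := by
    rcases idx_all i m k l j h.im h.ik h.il h.nmk h.ml h.kl with h1 | h1 | h1 | h1
    · exact absurd h1.symm h.ti.ij
    · exact absurd h1 hjm
    · exact h1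
    · exact absurd h1 hjl
  have hjk' : j' = k := by
    rcases idx_all i m k l j' h.im h.ik h.il h.nmk h.ml h.kl with h1 | h1 | h1 | h1
    · exact absurd h1 hji
    · exact absurd h1.symm h.tm.ij
    · exact h1
    · exact absurd h1 hjl'
  have nl := deg h.h.k48 (R1.wV h.h l) (W := {u, w k, d, d'}) (fun y hy => by
    simp only [mem_insert, mem_singleton]
    rcases h2.nbk hy with h1 | ⟨_, h1⟩ | ⟨_, h1⟩ | h1 | ⟨h1, h5⟩
    · tauto
    · exact absurd h1 hjl
    · exact absurd h1 hjl'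
    · tauto
    · rcases h2.P_eq hNBF hk' y h1 (h5.trans hl) with h6 | h6 <;> tauto) (card4_le _ _ _ _)
  have hlk : G.Adj (w l) (w k) := (nl _).2 (by simp)
  have nc : ∀ y, G.Adj c y ↔ y = w i ∨ y = w m ∨ y = w k ∨ y = d ∨ y = d' := by
    intro y
    constructor
    · intro hy
      rcases h.nbc hNBF hl' hy with h1 | ⟨h1, _⟩ | ⟨h1, _⟩ | h1 | ⟨_, h1⟩ | ⟨h1, _⟩ <;> tauto
    · rintro (rfl | rfl | rfl | rfl | rfl)
      · exact ((h.ti.nb c).2 (by tauto)).symm
      · exact ((h.tm.nb c).2 (by tauto)).symm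
      · exact hkc.symm
      · exact h.ti.cd
      · exact h.tm.cd
  have nk : ∀ y, G.Adj (w k) y ↔ y = u ∨ y = w i ∨ y = w m ∨ y = w l ∨ y = c := by
    intro y
    constructor
    · intro hy
      rcases h.nbk hy with h1 | ⟨h1, _⟩ | ⟨h1, _⟩ | h1 | ⟨h1, h5⟩
      · tauto
      · tauto
      · tauto
      · tauto
      · have := hPk y h1 h5; tauto
    · rintro (rfl | rfl | rfl | rfl | rfl)
      · exact (R1.uw h.h k).symm
      · exact ((h.ti.nb _).2 (by rw [hjk]; tauto)).symm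
      · exact ((h.tm.nb _).2 (by rw [hjk']; tauto)).symm
      · exact hlk.symm
      · exact hkc
  obtain ⟨n1, n2, n3, n4⟩ := h.cd'
  have hcC := mem_CC.1 h.ti.cC
  have hdC := mem_CC.1 h.ti.dC
  have hdC' := mem_CC.1 h.tm.dC
  have w1 := fun p => (R1.uw h.h p).ne'
  refine hCL8 (J := del G {u}) (w i) (w m) (w k) (w l) c d d' ?_ (fun x y => ?_) h.h.np
  · simp only [List.nodup_cons, List.mem_cons, List.not_mem_nil, or_false, not_or, List.nodup_nil, and_true,
      not_false_eq_true]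
    exact ⟨⟨R1.wne h.h h.im, R1.wne h.h h.ik, R1.wne h.h h.il, (hcC.2.2 i).symm, (hdC.2.2 i).symm,
        (hdC'.2.2 i).symm⟩,
      ⟨R1.wne h.h h.nmk, R1.wne h.h h.ml, (hcC.2.2 m).symm, (hdC.2.2 m).symm, (hdC'.2.2 m).symm⟩,
      ⟨R1.wne h.h h.kl, (hcC.2.2 k).symm, (hdC.2.2 k).symm, (hdC'.2.2 k).symm⟩,
      ⟨(hcC.2.2 l).symm, (hdC.2.2 l).symm, (hdC'.2.2 l).symm⟩,
      ⟨n3, n1⟩, hd⟩
  · rw [del_adj, mem_singleton, mem_singleton]
    constructor
    · rintro ⟨hxy, hxu, hyu⟩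
      have sw : ∀ {L : List (Sym2 α)} {x y : α}, s(y, x) ∈ L → s(x, y) ∈ L := by
        intro L x y h5
        rwa [Sym2.eq_swap]
      rcases h.all hNBF hk hl (left_mem_VS hxy) with rfl | rfl | rfl | rfl | rfl | rfl | rfl | rfl | rfl
      · exact absurd rfl hxu
      · have := (h.ti.nb y).1 hxy
        rw [hjk] at this
        rcases this with rfl | rfl | rfl | rfl
        · exact absurd rfl hyu
        · exact List.mem_iff_getElem.2 ⟨0, by simp, rfl⟩
        · exact List.mem_iff_getElem.2 ⟨1, by simp, rfl⟩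
        · exact List.mem_iff_getElem.2 ⟨2, by simp, rfl⟩
      · have := (h.tm.nb y).1 hxy
        rw [hjk'] at this
        rcases this with rfl | rfl | rfl | rfl
        · exact absurd rfl hyu
        · exact List.mem_iff_getElem.2 ⟨3, by simp, rfl⟩
        · exact List.mem_iff_getElem.2 ⟨4, by simp, rfl⟩
        · exact List.mem_iff_getElem.2 ⟨5, by simp, rfl⟩
      · rcases (nk y).1 hxy with rfl | rfl | rfl | rfl | rfl
        · exact absurd rfl hyu
        · exact sw (List.mem_iff_getElem.2 ⟨0, by simp, rfl⟩)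
        · exact sw (List.mem_iff_getElem.2 ⟨3, by simp, rfl⟩)
        · exact List.mem_iff_getElem.2 ⟨7, by simp, rfl⟩
        · exact List.mem_iff_getElem.2 ⟨6, by simp, rfl⟩
      · have := (nl y).1 hxy
        simp only [mem_insert, mem_singleton] at this
        rcases this with rfl | rfl | rfl | rfl
        · exact absurd rfl hyu
        · exact sw (List.mem_iff_getElem.2 ⟨7, by simp, rfl⟩)
        · exact List.mem_iff_getElem.2 ⟨8, by simp, rfl⟩
        · exact List.mem_iff_getElem.2 ⟨9, by simp, rfl⟩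
      · rcases (nc y).1 hxy with rfl | rfl | rfl | rfl | rfl
        · exact sw (List.mem_iff_getElem.2 ⟨1, by simp, rfl⟩)
        · exact sw (List.mem_iff_getElem.2 ⟨4, by simp, rfl⟩)
        · exact sw (List.mem_iff_getElem.2 ⟨6, by simp, rfl⟩)
        · exact List.mem_iff_getElem.2 ⟨10, by simp, rfl⟩
        · exact List.mem_iff_getElem.2 ⟨11, by simp, rfl⟩
      · have := (nd y).1 hxy
        simp only [mem_insert, mem_singleton] at this
        rcases this with rfl | rfl | rfl | rfl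
        · exact sw (List.mem_iff_getElem.2 ⟨2, by simp, rfl⟩)
        · exact sw (List.mem_iff_getElem.2 ⟨8, by simp, rfl⟩)
        · exact sw (List.mem_iff_getElem.2 ⟨10, by simp, rfl⟩)
        · exact List.mem_iff_getElem.2 ⟨12, by simp, rfl⟩
      · rcases (nc y).1 hxy with rfl | rfl | rfl | rfl | rfl
        · exact sw (List.mem_iff_getElem.2 ⟨1, by simp, rfl⟩)
        · exact sw (List.mem_iff_getElem.2 ⟨4, by simp, rfl⟩)
        · exact sw (List.mem_iff_getElem.2 ⟨6, by simp, rfl⟩)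
        · exact List.mem_iff_getElem.2 ⟨10, by simp, rfl⟩
        · exact List.mem_iff_getElem.2 ⟨11, by simp, rfl⟩
      · have := (nd' y).1 hxy
        simp only [mem_insert, mem_singleton] at this
        rcases this with rfl | rfl | rfl | rfl
        · exact sw (List.mem_iff_getElem.2 ⟨5, by simp, rfl⟩)
        · exact sw (List.mem_iff_getElem.2 ⟨9, by simp, rfl⟩)
        · exact sw (List.mem_iff_getElem.2 ⟨11, by simp, rfl⟩)
        · exact sw (List.mem_iff_getElem.2 ⟨12, by simp, rfl⟩)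
    · intro h5
      have e : ∀ {a b : α}, s(x, y) = s(a, b) → G.Adj a b → a ≠ u → b ≠ u → G.Adj x y ∧ x ≠ u ∧ y ≠ u := by
        intro a b he hab ha hb
        rw [Sym2.eq_iff] at he
        rcases he with ⟨rfl, rfl⟩ | ⟨rfl, rfl⟩
        · exact ⟨hab, ha, hb⟩
        · exact ⟨hab.symm, hb, ha⟩
      simp only [List.mem_cons, List.not_mem_nil, or_false] at h5
      rcases h5 with h5 | h5 | h5 | h5 | h5 | h5 | h5 | h5 | h5 | h5 | h5 | h5 | h5
      · exact e h5 ((h.ti.nb _).2 (by rw [hjk]; tauto)) (w1 _) (w1 _)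
      · exact e h5 ((h.ti.nb _).2 (by tauto)) (w1 _) hcC.2.1
      · exact e h5 ((h.ti.nb _).2 (by tauto)) (w1 _) hdC.2.1
      · exact e h5 ((h.tm.nb _).2 (by rw [hjk']; tauto)) (w1 _) (w1 _)
      · exact e h5 ((h.tm.nb _).2 (by tauto)) (w1 _) hcC.2.1
      · exact e h5 ((h.tm.nb _).2 (by tauto)) (w1 _) hdC'.2.1
      · exact e h5 hkc (w1 _) hcC.2.1
      · exact e h5 hlk.symm (w1 _) (w1 _)
      · exact e h5 ((nl _).2 (by simp)) (w1 _) hdC.2.1
      · exact e h5 ((nl _).2 (by simp)) (w1 _) hdC'.2.1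
      · exact e h5 h.ti.cd hcC.2.1 hdC.2.1
      · exact e h5 h.tm.cd hcC.2.1 hdC'.2.1
      · exact e h5 ((nd _).2 (by simp)) hdC.2.1 hdC'.2.1

/-- CASE 1 -/
theorem S1.case1 (hNBF : SpecNBF) (hM33 : SpecM33) (hCL8 : SpecCL8) (hCWC : SpecCWC)
    (h : S1 G u w i m k l j j' c d c' d' s) (hk : s (w k) = s c) (hl : s (w l) = s d) : False := by
  by_cases hc : c = c'
  · exact h.case1b hNBF hCL8 hCWC hk hl hc (h.ne.resolve_left fun h1 => h1 hc)
  · by_cases hd : d = d'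
    · exact h.flip.swap.case1b hNBF hCL8 hCWC hl hk hd hc
    · exact h.case1a hNBF hM33 hk hl hc hd

/-- all cases -/
theorem S1.fin (hNBF : SpecNBF) (hM33 : SpecM33) (hCL8 : SpecCL8) (hCWC : SpecCWC)
    (h : S1 G u w i m k l j j' c d c' d' s) : ∃ z e e', Bta G u w i j m j' z e e' := by
  rcases zm2 (s c) (s d) (s (w k)) h.e3 with hk | hk
  · rcases zm2 (s c) (s d) (s (w l)) h.e3 with hl | hl
    · exact h.flip.case2 hNBF (by rw [hk]; exact h.e3) (by rw [hl]; exact h.e3)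
    · exact (h.case1 hNBF hM33 hCL8 hCWC hk hl).elim
  · rcases zm2 (s c) (s d) (s (w l)) h.e3 with hl | hl
    · exact (h.swap.case1 hNBF hM33 hCL8 hCWC hl hk).elim
    · exact h.case2 hNBF (by rw [hk]; exact h.e3.symm) (by rw [hl]; exact h.e3.symm)

end CL1M

open CL1M

theorem specCL1 (hCL8 : SpecCL8) (hM33 : SpecM33) (hNBF : SpecNBF) (hCWC : SpecCWC) : SpecCL1 := by
  intro α _ _ G u w h i j m j' c d c' d' hi hm him hth
  -- the cut function
  have hsum : ∀ X ∈ Z1 (MM G u w), ∑ e, (tht w i c d + tht w m c' d') e * X e = 0 := by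
    intro X hX
    have h1 := hth X hX
    have h2 : pr (tht w i c d + tht w m c' d') X = 0 := by
      rw [pr_add, h1]; exact zmod2_add_self _
    exact h2
  obtain ⟨s, hs⟩ := cut hsum
  have hcC := mem_CC.1 hi.cC
  have hdC := mem_CC.1 hi.dC
  have hcC' := mem_CC.1 hm.cC
  have hdC' := mem_CC.1 hm.dC
  have hM : ∀ x y, G.Adj x y → x ∈ CC G u w → y ≠ u → (MM G u w).Adj x y := by
    intro x y hxy hx hy
    have hx' := mem_CC.1 hx
    rw [MM, deleteEdges_adj, del_adj, mem_singleton, mem_singleton]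
    refine ⟨⟨hxy, hx'.2.1, hy⟩, ?_⟩
    rintro ⟨p, q, he⟩
    rw [Sym2.eq_iff] at he
    rcases he with ⟨h1, _⟩ | ⟨h1, _⟩
    · exact hx'.2.2 p h1
    · exact hx'.2.2 q h1
  have hval : ∀ x y, (tht w i c d + tht w m c' d') s(x, y) =
      ((if s(x, y) = s(w i, c) then 1 else 0) + (if s(x, y) = s(c, d) then 1 else 0)) +
      ((if s(x, y) = s(w m, c') then 1 else 0) + (if s(x, y) = s(c', d') then 1 else 0)) := by
    intro x y
    simp only [Pi.add_apply, tht, ed_apply]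
  have wc : ∀ p x y z, x ∈ CC G u w → y ∈ CC G u w → s(x, y) ≠ s(w p, z) := by
    intro p x y z hx hy he
    rw [Sym2.eq_iff] at he
    rcases he with ⟨h1, _⟩ | ⟨_, h1⟩
    · exact (mem_CC.1 hx).2.2 p h1
    · exact (mem_CC.1 hy).2.2 p h1
  -- values on the edges inside `C`
  have hCC : ∀ x ∈ CC G u w, ∀ y ∈ CC G u w, G.Adj x y → s x + s y =
      (if s(x, y) = s(c, d) then 1 else 0) + (if s(x, y) = s(c', d') then 1 else 0) := by
    intro x hx y hy hxy
    rw [← hs x y (hM x y hxy hx (mem_CC.1 hy).2.1), hval, if_neg (wc i x y c hx hy), if_neg (wc m x y c' hx hy),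
      zero_add, zero_add]
  have hwC : ∀ p x, x ∈ CC G u w → G.Adj (w p) x → s x + s (w p) =
      (if s(x, w p) = s(w i, c) then 1 else 0) + (if s(x, w p) = s(w m, c') then 1 else 0) := by
    intro p x hx hpx
    rw [← hs x (w p) (hM x (w p) hpx.symm hx (R1.uw h p).ne'), hval, if_neg (c := s(x, w p) = s(c, d)),
      if_neg (c := s(x, w p) = s(c', d')), add_zero, add_zero]
    · intro he
      exact wc p c' d' x hm.cC hm.dC (by rw [← he, Sym2.eq_swap])
    · intro he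
      exact wc p c d x hi.cC hi.dC (by rw [← he, Sym2.eq_swap])
  have ws : ∀ p q x y, x ∈ CC G u w → y ∈ CC G u w → (s(x, w p) = s(w q, y) ↔ p = q ∧ x = y) := by
    intro p q x y hx hy
    rw [Sym2.eq_iff]
    constructor
    · rintro (⟨h1, _⟩ | ⟨h1, h2⟩)
      · exact absurd h1 ((mem_CC.1 hx).2.2 q)
      · exact ⟨h.inj h2, h1⟩
    · rintro ⟨rfl, rfl⟩
      exact Or.inr ⟨rfl, rfl⟩
  have nic : G.Adj (w i) c := (hi.nb c).2 (by tauto)
  have nid : G.Adj (w i) d := (hi.nb d).2 (by tauto)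
  have nmc : G.Adj (w m) c' := (hm.nb c').2 (by tauto)
  have nmd : G.Adj (w m) d' := (hm.nb d').2 (by tauto)
  have v1 : s c + s (w i) = 1 := by
    rw [hwC i c hi.cC nic, if_pos ((ws _ _ _ _ hi.cC hi.cC).2 ⟨rfl, rfl⟩),
      if_neg (fun h1 => him ((ws _ _ _ _ hi.cC hm.cC).1 h1).1), add_zero]
  have v2 : s d + s (w i) = 0 := by
    rw [hwC i d hi.dC nid, if_neg (fun h1 => hi.cd.ne' ((ws _ _ _ _ hi.dC hi.cC).1 h1).2),
      if_neg (fun h1 => him ((ws _ _ _ _ hi.dC hm.cC).1 h1).1), add_zero]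
  have v3 : s c' + s (w m) = 1 := by
    rw [hwC m c' hm.cC nmc, if_pos (c := s(c', w m) = s(w m, c')) ((ws _ _ _ _ hm.cC hm.cC).2 ⟨rfl, rfl⟩),
      if_neg (fun h1 => him ((ws _ _ _ _ hm.cC hi.cC).1 h1).1.symm), zero_add]
  have v4 : s d' + s (w m) = 0 := by
    rw [hwC m d' hm.dC nmd, if_neg (c := s(d', w m) = s(w m, c'))
      (fun h1 => hm.cd.ne' ((ws _ _ _ _ hm.dC hm.cC).1 h1).2),
      if_neg (fun h1 => him ((ws _ _ _ _ hm.dC hi.cC).1 h1).1.symm), zero_add]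
  have z1 : ∀ a b c : ZMod 2, a + c = 1 → b + c = 0 → a ≠ b := by decide
  have e3 : s c ≠ s d := z1 _ _ _ v1 v2
  have e3' : s c' ≠ s d' := z1 _ _ _ v3 v4
  have hne : s(c, d) ≠ s(c', d') := by
    intro he
    have := hCC c hi.cC d hi.dC hi.cd
    rw [if_pos rfl, if_pos he] at this
    have z2 : ∀ a b : ZMod 2, a + b = 1 + 1 → a = b := by decide
    exact e3 (z2 _ _ this)
  obtain ⟨k, l, ik, il, mk, ml, kl⟩ := idx_ex i m him
  have hf1 : ∀ x ∈ CC G u w, ∀ y ∈ CC G u w, G.Adj x y → s y = s x ∨ (x = c ∧ y = d) ∨ (x = d ∧ y = c) ∨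
      (x = c' ∧ y = d') ∨ (x = d' ∧ y = c') := by
    intro x hx y hy hxy
    have h1 := hCC x hx y hy hxy
    by_cases e1 : s(x, y) = s(c, d)
    · rw [Sym2.eq_iff] at e1; tauto
    by_cases e2 : s(x, y) = s(c', d')
    · rw [Sym2.eq_iff] at e2; tauto
    rw [if_neg e1, if_neg e2] at h1
    have z2 : ∀ a b : ZMod 2, a + b = 0 + 0 → b = a := by decide
    exact Or.inl (z2 _ _ h1)
  have hfk : ∀ p, i ≠ p → m ≠ p → ∀ x ∈ CC G u w, G.Adj (w p) x → s x = s (w p) := by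
    intro p hip hmp x hx hpx
    have h1 := hwC p x hx hpx
    rw [if_neg (fun h2 => hip ((ws _ _ _ _ hx hi.cC).1 h2).1.symm),
      if_neg (fun h2 => hmp ((ws _ _ _ _ hx hm.cC).1 h2).1.symm)] at h1
    have z2 : ∀ a b : ZMod 2, a + b = 0 + 0 → a = b := by decide
    exact z2 _ _ h1
  have hne' : c ≠ c' ∨ d ≠ d' := by
    by_contra hcon
    rw [not_or, not_not, not_not] at hcon
    exact hne (by rw [hcon.1, hcon.2])
  have hne'' : c ≠ d' ∨ d ≠ c' := by
    by_contra hcon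
    rw [not_or, not_not, not_not] at hcon
    exact hne (by rw [hcon.1, hcon.2, Sym2.eq_swap])
  have fin : ∀ {c'' d'' : α}, TA G u w m j' c'' d'' → s c'' = s c → s d'' = s d → (c ≠ c'' ∨ d ≠ d'') →
      (∀ x ∈ CC G u w, ∀ y ∈ CC G u w, G.Adj x y → s y = s x ∨ (x = c ∧ y = d) ∨ (x = d ∧ y = c) ∨
      (x = c'' ∧ y = d'') ∨ (x = d'' ∧ y = c'')) → ∃ z e e', Bta G u w i j m j' z e e' := by
    intro c'' d'' t1 t2 t3 t4 t5
    have h1 : S1 G u w i m k l j j' c d c'' d'' s := ⟨h, hi, t1, him, ik, il, mk, ml, kl, t2, t3, e3, t4, t5,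
      hfk k ik mk, hfk l il ml⟩
    exact h1.fin hNBF hM33 hCL8 hCWC
  rcases zm2 (s c) (s d) (s c') e3 with h1 | h1
  · refine fin hm h1 ?_ hne' hf1
    rcases zm2 (s c) (s d) (s d') e3 with h2 | h2
    · exact absurd (h1.trans h2.symm) e3'
    · exact h2
  · refine fin (TA.symm hm) ?_ h1 hne'' fun x hx y hy hxy => ?_
    · rcases zm2 (s c) (s d) (s d') e3 with h2 | h2
      · exact h2
      · exact absurd (h1.trans h2.symm) e3'
    · rcases hf1 x hx y hy hxy with h3 | h3 | h3 | h3 | h3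
      · exact Or.inl h3
      · exact Or.inr (Or.inl h3)
      · exact Or.inr (Or.inr (Or.inl h3))
      · exact Or.inr (Or.inr (Or.inr (Or.inr h3)))
      · exact Or.inr (Or.inr (Or.inr (Or.inl h3)))

end DL
end

section
/-!
# MP_3ff0f8_gt, R1A block, module CL6 (helper96)
-/
set_option autoImplicit false
set_option linter.unusedSectionVars false
set_option linter.unusedVariables false

open SimpleGraph Finset

namespace DL

namespace CL6M

open CL1M

variable {α : Type} [Fintype α] [DecidableEq α] {G : SimpleGraph α} {u : α} {w : Fin 4 → α}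

/-- `s` changes exactly along the edges `e`, `f` inside `C` -/
def CutF (G : SimpleGraph α) (u : α) (w : Fin 4 → α) (s : α → ZMod 2) (e f : Sym2 α) : Prop :=
  ∀ z ∈ CC G u w, ∀ t ∈ CC G u w, G.Adj z t →
    s z + s t = (if s(z, t) = e then 1 else 0) + (if s(z, t) = f then 1 else 0)

theorem adjC {x y : α} : (del G (insert u (WW w))).Adj x y ↔ G.Adj x y ∧ x ∈ CC G u w ∧ y ∈ CC G u w := by
  rw [del_adj]
  constructor
  · rintro ⟨h1, h2, h3⟩
    exact ⟨h1, mem_sdiff.2 ⟨left_mem_VS h1, h2⟩, mem_sdiff.2 ⟨right_mem_VS h1, h3⟩⟩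
  · rintro ⟨h1, h2, h3⟩
    exact ⟨h1, (mem_sdiff.1 h2).2, (mem_sdiff.1 h3).2⟩

theorem z_eq : ∀ a b : ZMod 2, a + b = 0 + 0 → a = b := by decide
theorem z_eq' : ∀ a b : ZMod 2, a + b = 0 → a = b := by decide
theorem z_ne : ∀ a b : ZMod 2, a + b = 1 + 0 → a ≠ b := by decide
theorem z_ne' : ∀ a b : ZMod 2, a + b = 0 + 1 → a ≠ b := by decide
theorem z_tr : ∀ a b c : ZMod 2, a ≠ b → b ≠ c → a = c := by decide

/-- neighbours of a vertex of `C` -/
theorem nbC {x y : α} (h : R1 G u w) (hx : x ∈ CC G u w) (hxy : G.Adj x y) :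
    (∃ p, y = w p) ∨ y ∈ CC G u w := by
  by_cases hy : y ∈ CC G u w
  · exact Or.inr hy
  left
  have hyu : y ≠ u := by
    rintro rfl
    obtain ⟨p, hp⟩ := (h.nu x).1 hxy.symm
    exact (mem_CC.1 hx).2.2 p hp
  by_contra hno
  exact hy (mem_CC.2 ⟨right_mem_VS hxy, hyu, fun p hp => hno ⟨p, hp⟩⟩)

/-- the only neighbours of a type A vertex in `C` -/
theorem TA.ends {i j : Fin 4} {c d z : α} (h : TA G u w i j c d) (hz : z ∈ CC G u w) (hzw : G.Adj z (w i)) :
    z = c ∨ z = d := by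
  have hzC := mem_CC.1 hz
  rcases (h.nb z).1 hzw.symm with h1 | h1 | h1 | h1
  · exact absurd h1 hzC.2.1
  · exact absurd h1 (hzC.2.2 _)
  · exact Or.inl h1
  · exact Or.inr h1

/-! ### Part (2): the cyclic order -/

structure S6 (G : SimpleGraph α) (u : α) (w : Fin 4 → α) (i n p q : Fin 4) (j : Fin 4 → Fin 4)
    (x y : Fin 4 → α) : Prop where
  h : R1 G u w
  ht : ∀ k, TA G u w k (j k) (x k) (y k)
  hin : i ≠ n
  ip : i ≠ p
  iq : i ≠ q
  np : n ≠ p
  nq : n ≠ q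
  pq : p ≠ q
  cut : ∀ a b : Fin 4, a ≠ b → ∃ s : α → ZMod 2, CutF G u w s s(x a, y a) s(x b, y b) ∧
    s (y i) = s (x n) ∧ s (y n) = s (x p) ∧ s (y p) = s (x q) ∧ s (y q) = s (x i)
  ne : ∀ a b, a ≠ b → s(x a, y a) ≠ s(x b, y b)

variable {i n p q : Fin 4} {j : Fin 4 → Fin 4} {x y : Fin 4 → α}

theorem S6.rot (h : S6 G u w i n p q j x y) : S6 G u w n p q i j x y := by
  refine ⟨h.h, h.ht, h.np, h.nq, h.hin.symm, h.pq, h.ip.symm, h.iq.symm, fun a b hab => ?_, h.ne⟩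
  obtain ⟨s, h1, h2, h3, h4, h5⟩ := h.cut a b hab
  exact ⟨s, h1, h3, h4, h5, h2⟩

theorem S6.all (h : S6 G u w i n p q j x y) (k : Fin 4) : k = i ∨ k = n ∨ k = p ∨ k = q :=
  idx_all i n p q k h.hin h.ip h.iq h.np h.nq h.pq

/-- the group between `e_i` and `e_n` -/
theorem S6.cls0 (h : S6 G u w i n p q j x y) : ∃ s : α → ZMod 2,
    (∀ k z, (z = x k ∨ z = y k) → s z = s (y i) → (k = i ∧ z = y i) ∨ (k = n ∧ z = x n)) ∧
    (∀ z ∈ CC G u w, ∀ t ∈ CC G u w, G.Adj z t → s z = s t ∨ s(z, t) = s(x i, y i) ∨ s(z, t) = s(x n, y n)) ∧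
    s (y i) = s (x n) := by
  obtain ⟨s, h1, h2, h3, h4, h5⟩ := h.cut i n h.hin
  have hv : ∀ k, s (x k) + s (y k) = (if s(x k, y k) = s(x i, y i) then 1 else 0) +
      (if s(x k, y k) = s(x n, y n) then 1 else 0) := fun k => h1 _ (h.ht k).cC _ (h.ht k).dC (h.ht k).cd
  have vi : s (x i) ≠ s (y i) := by
    have := hv i
    rw [if_pos rfl, if_neg (h.ne i n h.hin)] at this
    exact z_ne _ _ this
  have vn : s (x n) ≠ s (y n) := by
    have := hv n
    rw [if_pos rfl, if_neg (h.ne n i h.hin.symm)] at this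
    exact z_ne' _ _ this
  have vp : s (x p) = s (y p) := by
    have := hv p
    rw [if_neg (h.ne p i h.ip.symm), if_neg (h.ne p n h.np.symm)] at this
    exact z_eq _ _ this
  have vq : s (x q) = s (y q) := by
    have := hv q
    rw [if_neg (h.ne q i h.iq.symm), if_neg (h.ne q n h.nq.symm)] at this
    exact z_eq _ _ this
  refine ⟨s, fun k z hz hs => ?_, fun z hz t ht hzt => ?_, h2⟩
  · have w1 : s (y n) ≠ s (y i) := by rw [h2]; exact vn.symm
    have w2 : s (x p) ≠ s (y i) := by rw [← h3]; exact w1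
    have w3 : s (y p) ≠ s (y i) := by rw [← vp]; exact w2
    have w4 : s (x q) ≠ s (y i) := by rw [← h4]; exact w3
    have w5 : s (y q) ≠ s (y i) := by rw [← vq]; exact w4
    rcases h.all k with rfl | rfl | rfl | rfl <;> rcases hz with rfl | rfl
    · exact absurd hs vi
    · exact Or.inl ⟨rfl, rfl⟩
    · exact Or.inr ⟨rfl, rfl⟩
    · exact absurd hs w1
    · exact absurd hs w2
    · exact absurd hs w3
    · exact absurd hs w4
    · exact absurd hs w5
  · have h6 := h1 z hz t ht hzt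
    by_cases e1 : s(z, t) = s(x i, y i)
    · exact Or.inr (Or.inl e1)
    by_cases e2 : s(z, t) = s(x n, y n)
    · exact Or.inr (Or.inr e2)
    rw [if_neg e1, if_neg e2] at h6
    exact Or.inl (z_eq _ _ h6)

/-- the group between `e_i` and `e_n` is one vertex -/
theorem S6.cls (hNBF : SpecNBF) (h : S6 G u w i n p q j x y) : ∃ s : α → ZMod 2,
    (∀ k z, (z = x k ∨ z = y k) → s z = s (y i) → (k = i ∧ z = y i) ∨ (k = n ∧ z = x n)) ∧
    (∀ z ∈ CC G u w, ∀ t ∈ CC G u w, G.Adj z t → s z = s t ∨ s(z, t) = s(x i, y i) ∨ s(z, t) = s(x n, y n)) ∧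
    y i = x n ∧ ∀ z ∈ CC G u w, s z = s (y i) → z = y i := by
  classical
  obtain ⟨s, hA, hB, hE⟩ := h.cls0
  have hend : ∀ z, z = x i ∨ z = y i ∨ z = x n ∨ z = y n → s z = s (y i) → z = y i ∨ z = x n := by
    intro z hz hs
    rcases hz with hz | hz | hz | hz
    · rcases hA i z (Or.inl hz) hs with h1 | h1
      exacts [Or.inl h1.2, Or.inr h1.2]
    · exact Or.inl hz
    · exact Or.inr hz
    · rcases hA n z (Or.inr hz) hs with h1 | h1
      exacts [Or.inl h1.2, Or.inr h1.2]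
  have hF : ∀ z ∈ CC G u w, s z = s (y i) → z = y i ∨ z = x n := by
    intro z hz hs
    by_contra hne
    rw [not_or] at hne
    refine few hNBF h.h.k48.1 (D := (CC G u w).filter fun z => s z = s (y i) ∧ z ≠ y i ∧ z ≠ x n)
      (W := {y i, x n}) (r := u) (fun v hv => (mem_CC.1 (mem_filter.1 hv).1).1) (v := z)
      (mem_filter.2 ⟨hz, hs, hne.1, hne.2⟩) ?_ (card_le_two.trans (by norm_num)) (R1.uV h.h) ?_ ?_
    · intro a ha t hat
      rw [mem_filter] at ha
      obtain ⟨haC, hsa, ha1, ha2⟩ := ha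
      rcases nbC h.h haC hat with ⟨k, rfl⟩ | htC
      · exfalso
        rcases TA.ends (h.ht k) haC hat with h1 | h1
        · rcases hA k a (Or.inl h1) hsa with h2 | h2
          exacts [ha1 h2.2, ha2 h2.2]
        · rcases hA k a (Or.inr h1) hsa with h2 | h2
          exacts [ha1 h2.2, ha2 h2.2]
      · have hst : s a = s t := by
          rcases hB a haC t htC hat with h1 | h1 | h1
          · exact h1
          · exfalso
            rw [Sym2.eq_iff] at h1
            have h2 := hend a (by tauto) hsa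
            tauto
          · exfalso
            rw [Sym2.eq_iff] at h1
            have h2 := hend a (by tauto) hsa
            tauto
        by_cases t1 : t = y i
        · exact Or.inr (by simp [t1])
        by_cases t2 : t = x n
        · exact Or.inr (by simp [t2])
        exact Or.inl (mem_filter.2 ⟨htC, hst.symm.trans hsa, t1, t2⟩)
    · intro hu
      exact (mem_CC.1 (mem_filter.1 hu).1).2.1 rfl
    · simp only [mem_insert, mem_singleton, not_or]
      exact ⟨(mem_CC.1 (h.ht i).dC).2.1.symm, (mem_CC.1 (h.ht n).cC).2.1.symm⟩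
  have heq : y i = x n := by
    by_contra hne
    refine deg3 h.h.k48 (mem_CC.1 (h.ht i).dC).1 (W := {x n, w i, x i}) (fun t ht => ?_) card_le_three
    simp only [mem_insert, mem_singleton]
    rcases nbC h.h (h.ht i).dC ht with ⟨k, rfl⟩ | htC
    · rcases TA.ends (h.ht k) (h.ht i).dC ht with h1 | h1
      · rcases hA k (y i) (Or.inl h1) rfl with h2 | h2
        · rw [h2.1]; tauto
        · exact absurd h2.2 hne
      · rcases hA k (y i) (Or.inr h1) rfl with h2 | h2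
        · rw [h2.1]; tauto
        · exact absurd h2.2 hne
    · rcases hB (y i) (h.ht i).dC t htC ht with h1 | h1 | h1
      · rcases hF t htC h1.symm with h2 | h2
        · exact absurd h2 ht.ne'
        · exact Or.inl h2
      · rw [Sym2.eq_iff] at h1
        rcases h1 with ⟨h1, _⟩ | ⟨_, h1⟩
        · exact absurd h1 (h.ht i).cd.ne'
        · exact Or.inr (Or.inr h1)
      · exfalso
        rw [Sym2.eq_iff] at h1
        rcases h1 with ⟨h1, _⟩ | ⟨h1, _⟩
        · exact hne h1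
        · rcases hA n (y i) (Or.inr h1) rfl with h2 | h2
          · exact h.hin h2.1.symm
          · exact hne h2.2
  refine ⟨s, hA, hB, heq, fun z hz hs => ?_⟩
  rcases hF z hz hs with h1 | h1
  · exact h1
  · rw [h1, heq]

/-- the four vertices are different -/
theorem S6.yne (hNBF : SpecNBF) (h : S6 G u w i n p q j x y) {k : Fin 4} (hk : k ≠ i) : y k ≠ y i := by
  obtain ⟨s, hA, hB, heq, hF⟩ := h.cls hNBF
  intro h1
  rcases hA k (y k) (Or.inr rfl) (by rw [h1]) with h2 | h2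
  · exact hk h2.1
  · have h3 := h2.1
    subst h3
    exact (h.ht k).cd.ne' h2.2

/-- neighbours of the vertex `y i = x n` -/
theorem S6.nbv (hNBF : SpecNBF) (h : S6 G u w i n p q j x y) :
    ∀ t, G.Adj (y i) t ↔ t ∈ ({w i, w n, x i, y n} : Finset α) := by
  obtain ⟨s, hA, hB, heq, hF⟩ := h.cls hNBF
  refine deg h.h.k48 (mem_CC.1 (h.ht i).dC).1 (fun t ht => ?_) (card4_le _ _ _ _)
  simp only [mem_insert, mem_singleton]
  rcases nbC h.h (h.ht i).dC ht with ⟨k, rfl⟩ | htC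
  · have : k = i ∨ k = n := by
      rcases TA.ends (h.ht k) (h.ht i).dC ht with h1 | h1
      · rcases hA k (y i) (Or.inl h1) rfl with h2 | h2
        exacts [Or.inl h2.1, Or.inr h2.1]
      · rcases hA k (y i) (Or.inr h1) rfl with h2 | h2
        exacts [Or.inl h2.1, Or.inr h2.1]
    rcases this with rfl | rfl
    · exact Or.inl rfl
    · exact Or.inr (Or.inl rfl)
  · rcases hB (y i) (h.ht i).dC t htC ht with h1 | h1 | h1
    · exact absurd (hF t htC h1.symm) ht.ne'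
    · rw [Sym2.eq_iff] at h1
      rcases h1 with ⟨h1, _⟩ | ⟨_, h1⟩
      · exact absurd h1 (h.ht i).cd.ne'
      · exact Or.inr (Or.inr (Or.inl h1))
    · rw [Sym2.eq_iff] at h1
      rcases h1 with ⟨_, h1⟩ | ⟨h1, _⟩
      · exact Or.inr (Or.inr (Or.inr h1))
      · exact absurd (heq.symm.trans h1) (h.ht n).cd.ne

/-- consecutive `w`'s are not adjacent -/
theorem S6.jne (hNBF : SpecNBF) (h : S6 G u w i n p q j x y) : j i ≠ n ∧ j n ≠ i := by
  obtain ⟨s, hA, hB, heq, hF⟩ := h.cls hNBF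
  have key : ¬ G.Adj (w i) (w n) := by
    intro hin
    refine nb2 hNBF h.h.k48 h.h.rig (p := w i) (q := w n) (W := {u, x i, y i, y n}) (R1.wV h.h i)
      (R1.wV h.h n) (R1.wne h.h h.hin) (Or.inl (R1.uw h.h i).symm) ⟨(R1.uw h.h i).ne, (R1.uw h.h n).ne⟩
      (card4_le _ _ _ _) (fun t ht => ?_) fun t ht => ?_
    · simp only [mem_insert, mem_singleton]
      have h0 : w n = w (j i) := by
        rcases ((h.ht i).nb _).1 hin with h1 | h1 | h1 | h1
        · exact absurd h1 (R1.uw h.h n).ne'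
        · exact h1
        · exact absurd h1.symm ((mem_CC.1 (h.ht i).cC).2.2 n)
        · exact absurd h1.symm ((mem_CC.1 (h.ht i).dC).2.2 n)
      rcases ((h.ht i).nb t).1 ht with h1 | h1 | h1 | h1
      · tauto
      · rw [← h0] at h1; tauto
      · tauto
      · tauto
    · simp only [mem_insert, mem_singleton]
      have h0 : w i = w (j n) := by
        rcases ((h.ht n).nb _).1 hin.symm with h1 | h1 | h1 | h1
        · exact absurd h1 (R1.uw h.h i).ne'
        · exact h1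
        · exact absurd h1.symm ((mem_CC.1 (h.ht n).cC).2.2 i)
        · exact absurd h1.symm ((mem_CC.1 (h.ht n).dC).2.2 i)
      rcases ((h.ht n).nb t).1 ht with h1 | h1 | h1 | h1
      · tauto
      · rw [← h0] at h1; tauto
      · rw [← heq] at h1; tauto
      · tauto
  constructor
  · intro hj
    exact key (((h.ht i).nb _).2 (Or.inr (Or.inl (by rw [hj]))))
  · intro hj
    exact key (((h.ht n).nb _).2 (Or.inr (Or.inl (by rw [hj])))).symm

/-- all vertices of `C` -/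
theorem S6.allC (hNBF : SpecNBF) (h : S6 G u w i n p q j x y) : ∀ z ∈ CC G u w, ∃ k, z = y k := by
  classical
  have h1 := h.rot
  have h2 := h1.rot
  have h3 := h2.rot
  -- `x k = y (previous)`
  have hxy : ∀ k, ∃ k', x k = y k' := by
    intro k
    rcases h.all k with rfl | rfl | rfl | rfl
    · obtain ⟨s, hA, hB, heq, hF⟩ := h3.cls hNBF; exact ⟨_, heq.symm⟩
    · obtain ⟨s, hA, hB, heq, hF⟩ := h.cls hNBF; exact ⟨_, heq.symm⟩
    · obtain ⟨s, hA, hB, heq, hF⟩ := h1.cls hNBF; exact ⟨_, heq.symm⟩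
    · obtain ⟨s, hA, hB, heq, hF⟩ := h2.cls hNBF; exact ⟨_, heq.symm⟩
  -- an edge from `z` to `y k` with `z` none of the four
  have hno : ∀ z ∈ CC G u w, (∀ k, z ≠ y k) → ∀ k, ¬ G.Adj z (y k) := by
    have key : ∀ {i n p q : Fin 4}, S6 G u w i n p q j x y → ∀ z ∈ CC G u w, (∀ k, z ≠ y k) →
        ¬ G.Adj z (y i) := by
      intro i n p q h z hz hzn hadj
      have := (h.nbv hNBF z).1 hadj.symm
      simp only [mem_insert, mem_singleton] at this
      rcases this with h1 | h1 | h1 | h1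
      · exact (mem_CC.1 hz).2.2 _ h1
      · exact (mem_CC.1 hz).2.2 _ h1
      · obtain ⟨k', hk'⟩ := hxy i
        exact hzn k' (h1.trans hk')
      · exact hzn _ h1
    intro z hz hzn k
    rcases h.all k with rfl | rfl | rfl | rfl
    · exact key h z hz hzn
    · exact key h1 z hz hzn
    · exact key h2 z hz hzn
    · exact key h3 z hz hzn
  intro z hz
  by_contra hcon
  rw [not_exists] at hcon
  refine few hNBF h.h.k48.1 (D := (CC G u w).filter fun z => ∀ k, z ≠ y k)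
    (W := ∅) (r := u) (fun v hv => (mem_CC.1 (mem_filter.1 hv).1).1) (v := z)
    (mem_filter.2 ⟨hz, hcon⟩) ?_ (by simp) (R1.uV h.h) ?_ (by simp)
  · intro a ha t hat
    rw [mem_filter] at ha
    refine Or.inl (mem_filter.2 ?_)
    rcases nbC h.h ha.1 hat with ⟨k, rfl⟩ | htC
    · exfalso
      rcases TA.ends (h.ht k) ha.1 hat with h4 | h4
      · obtain ⟨k', hk'⟩ := hxy k
        exact ha.2 k' (h4.trans hk')
      · exact ha.2 k h4
    · refine ⟨htC, fun k hk => ?_⟩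
      subst hk
      exact hno a ha.1 ha.2 k hat
  · intro hu
    exact (mem_CC.1 (mem_filter.1 hu).1).2.1 rfl

/-- the cyclic order leads to `K_3 □ K_3` -/
theorem S6.fin (hNBF : SpecNBF) (hM33 : SpecM33) (h : S6 G u w i n p q j x y) : False := by
  have h1 := h.rot
  have h2 := h1.rot
  have h3 := h2.rot
  obtain ⟨a1, a2⟩ := h.jne hNBF
  obtain ⟨b1, b2⟩ := h1.jne hNBF
  obtain ⟨c1, c2⟩ := h2.jne hNBF
  obtain ⟨d1, d2⟩ := h3.jne hNBF
  have ji : j i = p := by
    rcases h.all (j i) with h4 | h4 | h4 | h4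
    · exact absurd h4.symm (h.ht i).ij
    · exact absurd h4 a1
    · exact h4
    · exact absurd h4 d2
  have jn : j n = q := by
    rcases h.all (j n) with h4 | h4 | h4 | h4
    · exact absurd h4 a2
    · exact absurd h4.symm (h.ht n).ij
    · exact absurd h4 b1
    · exact h4
  have jp : j p = i := by
    rcases h.all (j p) with h4 | h4 | h4 | h4
    · exact h4
    · exact absurd h4 b2
    · exact absurd h4.symm (h.ht p).ij
    · exact absurd h4 c1
  have jq : j q = n := by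
    rcases h.all (j q) with h4 | h4 | h4 | h4
    · exact absurd h4 d1
    · exact h4
    · exact absurd h4 c2
    · exact absurd h4.symm (h.ht q).ij
  obtain ⟨s0, hA0, hB0, e0, hF0⟩ := h.cls hNBF
  obtain ⟨s1, hA1, hB1, e1, hF1⟩ := h1.cls hNBF
  obtain ⟨s2, hA2, hB2, e2, hF2⟩ := h2.cls hNBF
  obtain ⟨s3, hA3, hB3, e3, hF3⟩ := h3.cls hNBF
  -- v0 = y i = x n, v1 = y n = x p, v2 = y p = x q, v3 = y q = x i
  have w1 := fun k => (R1.uw h.h k).ne
  have yC := fun k => mem_CC.1 (h.ht k).dC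
  refine h.h.n33 (hM33 u (w i) (w p) (w n) (w q) (y i) (y q) (y n) (y p) ?_ (fun t ht => ?_) (fun t => ?_)
    (fun t => ?_) (fun t => ?_) (fun t => ?_) (fun t => ?_) (fun t => ?_) (fun t => ?_) (fun t => ?_)
    fun t => ?_)
  · simp only [List.nodup_cons, List.mem_cons, List.not_mem_nil, or_false, not_or, List.nodup_nil, and_true,
      not_false_eq_true]
    exact ⟨⟨w1 _, w1 _, w1 _, w1 _, (yC i).2.1.symm, (yC q).2.1.symm, (yC n).2.1.symm, (yC p).2.1.symm⟩,
      ⟨R1.wne h.h h.ip, R1.wne h.h h.hin, R1.wne h.h h.iq, ((yC i).2.2 _).symm, ((yC q).2.2 _).symm,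
        ((yC n).2.2 _).symm, ((yC p).2.2 _).symm⟩,
      ⟨R1.wne h.h h.np.symm, R1.wne h.h h.pq, ((yC i).2.2 _).symm, ((yC q).2.2 _).symm,
        ((yC n).2.2 _).symm, ((yC p).2.2 _).symm⟩,
      ⟨R1.wne h.h h.nq, ((yC i).2.2 _).symm, ((yC q).2.2 _).symm, ((yC n).2.2 _).symm, ((yC p).2.2 _).symm⟩,
      ⟨((yC i).2.2 _).symm, ((yC q).2.2 _).symm, ((yC n).2.2 _).symm, ((yC p).2.2 _).symm⟩,
      ⟨h3.yne hNBF h.iq, h1.yne hNBF h.hin, h2.yne hNBF h.ip⟩,
      ⟨h1.yne hNBF h.nq.symm, h2.yne hNBF h.pq.symm⟩, h2.yne hNBF h.np⟩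
  · simp only [List.mem_cons, List.not_mem_nil, or_false]
    by_cases htu : t = u
    · exact Or.inl htu
    by_cases htC : t ∈ CC G u w
    · obtain ⟨k, rfl⟩ := h.allC hNBF t htC
      rcases h.all k with rfl | rfl | rfl | rfl <;> tauto
    · have : ∃ k, t = w k := by
        by_contra hno
        exact htC (mem_CC.2 ⟨ht, htu, fun k hk => hno ⟨k, hk⟩⟩)
      obtain ⟨k, rfl⟩ := this
      rcases h.all k with rfl | rfl | rfl | rfl <;> tauto
  · rw [h.h.nu t]
    simp only [List.mem_cons, List.not_mem_nil, or_false]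
    constructor
    · rintro ⟨k, rfl⟩
      rcases h.all k with rfl | rfl | rfl | rfl <;> tauto
    · rintro (h4 | h4 | h4 | h4) <;> exact ⟨_, h4⟩
  · rw [(h.ht i).nb t, ji, ← e3]
    simp only [List.mem_cons, List.not_mem_nil, or_false]
    tauto
  · rw [(h.ht p).nb t, jp, ← e1]
    simp only [List.mem_cons, List.not_mem_nil, or_false]
  · rw [(h.ht n).nb t, jn, ← e0]
    simp only [List.mem_cons, List.not_mem_nil, or_false]
  · rw [(h.ht q).nb t, jq, ← e2]
    simp only [List.mem_cons, List.not_mem_nil, or_false]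
    tauto
  · rw [h.nbv hNBF t, ← e3]
    simp only [List.mem_cons, List.not_mem_nil, or_false, mem_insert, mem_singleton]
  · rw [h3.nbv hNBF t, ← e2]
    simp only [List.mem_cons, List.not_mem_nil, or_false, mem_insert, mem_singleton]
    tauto
  · rw [h1.nbv hNBF t, ← e0]
    simp only [List.mem_cons, List.not_mem_nil, or_false, mem_insert, mem_singleton]
    tauto
  · rw [h2.nbv hNBF t, ← e1]
    simp only [List.mem_cons, List.not_mem_nil, or_false, mem_insert, mem_singleton]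
    tauto

/-! ### Part (1): equal edges -/

theorem side1 (hNBF : SpecNBF) (h : R1 G u w) {p : Fin 4} {c₁ d₁ c₂ d₂ : α} {s : α → ZMod 2}
    (C1 : c₁ ∈ CC G u w) (C2 : c₂ ∈ CC G u w)
    (hw : ∀ k, ∀ z ∈ CC G u w, G.Adj z (w k) → (k ≠ p ∧ (z = c₁ ∨ z = d₁)) ∨ (k = p ∧ (z = c₂ ∨ z = d₂)))
    (hB : ∀ z ∈ CC G u w, ∀ t ∈ CC G u w, G.Adj z t → s z = s t ∨ s(z, t) = s(c₁, d₁) ∨ s(z, t) = s(c₂, d₂))
    (v1 : s d₁ ≠ s c₁) (v2 : s c₂ = s c₁) (v3 : s d₂ = s d₁) : c₂ = c₁ := by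
  classical
  have hd1 : ∀ z, s z = s c₁ → z ≠ d₁ := fun z hz h1 => v1 (by rw [← h1, hz])
  have hd2 : ∀ z, s z = s c₁ → z ≠ d₂ := fun z hz h1 => v1 (by rw [← v3, ← h1, hz])
  have hF : ∀ z ∈ CC G u w, s z = s c₁ → z = c₁ ∨ z = c₂ := by
    intro z hz hs
    by_contra hne
    rw [not_or] at hne
    refine few hNBF h.k48.1 (D := (CC G u w).filter fun z => s z = s c₁ ∧ z ≠ c₁ ∧ z ≠ c₂)
      (W := {c₁, c₂}) (r := u) (fun v hv => (mem_CC.1 (mem_filter.1 hv).1).1) (v := z)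
      (mem_filter.2 ⟨hz, hs, hne.1, hne.2⟩) ?_ (card_le_two.trans (by norm_num)) (R1.uV h) ?_ ?_
    · intro a ha t hat
      rw [mem_filter] at ha
      obtain ⟨haC, hsa, ha1, ha2⟩ := ha
      have n1 := hd1 a hsa
      have n2 := hd2 a hsa
      rcases nbC h haC hat with ⟨k, rfl⟩ | htC
      · exfalso
        rcases hw k a haC hat with ⟨_, h1 | h1⟩ | ⟨_, h1 | h1⟩
        exacts [ha1 h1, n1 h1, ha2 h1, n2 h1]
      · have hst : s a = s t := by
          rcases hB a haC t htC hat with h1 | h1 | h1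
          · exact h1
          · exfalso
            rw [Sym2.eq_iff] at h1
            rcases h1 with ⟨h1, _⟩ | ⟨h1, _⟩
            exacts [ha1 h1, n1 h1]
          · exfalso
            rw [Sym2.eq_iff] at h1
            rcases h1 with ⟨h1, _⟩ | ⟨h1, _⟩
            exacts [ha2 h1, n2 h1]
        by_cases t1 : t = c₁
        · exact Or.inr (by simp [t1])
        by_cases t2 : t = c₂
        · exact Or.inr (by simp [t2])
        exact Or.inl (mem_filter.2 ⟨htC, hst.symm.trans hsa, t1, t2⟩)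
    · intro hu
      exact (mem_CC.1 (mem_filter.1 hu).1).2.1 rfl
    · simp only [mem_insert, mem_singleton, not_or]
      exact ⟨(mem_CC.1 C1).2.1.symm, (mem_CC.1 C2).2.1.symm⟩
  by_contra hne
  refine deg3 h.k48 (mem_CC.1 C2).1 (W := {c₁, w p, d₂}) (fun t ht => ?_) card_le_three
  simp only [mem_insert, mem_singleton]
  rcases nbC h C2 ht with ⟨k, rfl⟩ | htC
  · rcases hw k c₂ C2 ht with ⟨_, h1 | h1⟩ | ⟨h1, _⟩
    · exact absurd h1 hne
    · exact absurd h1 (hd1 _ v2)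
    · rw [h1]; tauto
  · rcases hB c₂ C2 t htC ht with h1 | h1 | h1
    · rcases hF t htC (h1.symm.trans v2) with h2 | h2
      · exact Or.inl h2
      · exact absurd h2 ht.ne'
    · exfalso
      rw [Sym2.eq_iff] at h1
      rcases h1 with ⟨h1, _⟩ | ⟨h1, _⟩
      · exact hne h1
      · exact hd1 _ v2 h1
    · rw [Sym2.eq_iff] at h1
      rcases h1 with ⟨_, h1⟩ | ⟨h1, _⟩
      · exact Or.inr (Or.inr h1)
      · exact absurd h1 (hd2 _ v2)

theorem part1 (hNBF : SpecNBF) (h : R1 G u w) {j : Fin 4 → Fin 4} {c d : Fin 4 → α}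
    (ht : ∀ i, TA G u w i (j i) (c i) (d i)) {a p : Fin 4} {s : α → ZMod 2}
    (hcut : CutF G u w s s(c a, d a) s(c p, d p)) (hp : s(c p, d p) ≠ s(c a, d a))
    (hall : ∀ k, k ≠ p → s(c k, d k) = s(c a, d a)) : False := by
  have v1 : s (c a) ≠ s (d a) := by
    have := hcut _ (ht a).cC _ (ht a).dC (ht a).cd
    rw [if_pos rfl, if_neg hp.symm] at this
    exact z_ne _ _ this
  have v2 : s (c p) ≠ s (d p) := by
    have := hcut _ (ht p).cC _ (ht p).dC (ht p).cd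
    rw [if_pos rfl, if_neg hp] at this
    exact z_ne' _ _ this
  have hB : ∀ z ∈ CC G u w, ∀ t ∈ CC G u w, G.Adj z t →
      s z = s t ∨ s(z, t) = s(c a, d a) ∨ s(z, t) = s(c p, d p) := by
    intro z hz t ht hzt
    have h6 := hcut z hz t ht hzt
    by_cases e1 : s(z, t) = s(c a, d a)
    · exact Or.inr (Or.inl e1)
    by_cases e2 : s(z, t) = s(c p, d p)
    · exact Or.inr (Or.inr e2)
    rw [if_neg e1, if_neg e2] at h6
    exact Or.inl (z_eq _ _ h6)
  have hw : ∀ k, ∀ z ∈ CC G u w, G.Adj z (w k) → (k ≠ p ∧ (z = c a ∨ z = d a)) ∨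
      (k = p ∧ (z = c p ∨ z = d p)) := by
    intro k z hz hzw
    have h1 := TA.ends (ht k) hz hzw
    by_cases hk : k = p
    · subst hk; exact Or.inr ⟨rfl, h1⟩
    · refine Or.inl ⟨hk, ?_⟩
      have h2 := hall k hk
      rw [Sym2.eq_iff] at h2
      rcases h2 with ⟨h2, h3⟩ | ⟨h2, h3⟩ <;> rw [h2, h3] at h1 <;> tauto
  rcases zm2 (s (c a)) (s (d a)) (s (c p)) v1 with h1 | h1
  · have h2 : s (d p) = s (d a) := by
      rcases zm2 (s (c a)) (s (d a)) (s (d p)) v1 with h2 | h2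
      · exact absurd (h1.trans h2.symm) v2
      · exact h2
    have e1 := side1 hNBF h (ht a).cC (ht p).cC hw hB v1.symm h1 h2
    have e2 := side1 hNBF h (ht a).dC (ht p).dC (p := p) (c₁ := d a) (d₁ := c a) (c₂ := d p) (d₂ := c p) (s := s)
      (fun k z hz hzw => by have := hw k z hz hzw; tauto)
      (fun z hz t ht hzt => by
        rcases hB z hz t ht hzt with h3 | h3 | h3
        · exact Or.inl h3
        · exact Or.inr (Or.inl (h3.trans Sym2.eq_swap))
        · exact Or.inr (Or.inr (h3.trans Sym2.eq_swap))) v1 h2 h1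
    exact hp (by rw [e1, e2])
  · have h2 : s (d p) = s (c a) := by
      rcases zm2 (s (c a)) (s (d a)) (s (d p)) v1 with h2 | h2
      · exact h2
      · exact absurd (h1.trans h2.symm) v2
    have e1 := side1 hNBF h (ht a).cC (ht p).dC (p := p) (c₁ := c a) (d₁ := d a) (c₂ := d p) (d₂ := c p) (s := s)
      (fun k z hz hzw => by have := hw k z hz hzw; tauto)
      (fun z hz t ht hzt => by
        rcases hB z hz t ht hzt with h3 | h3 | h3
        · exact Or.inl h3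
        · exact Or.inr (Or.inl h3)
        · exact Or.inr (Or.inr (h3.trans Sym2.eq_swap))) v1.symm h2 h1
    have e2 := side1 hNBF h (ht a).dC (ht p).cC (p := p) (c₁ := d a) (d₁ := c a) (c₂ := c p) (d₂ := d p) (s := s)
      (fun k z hz hzw => by have := hw k z hz hzw; tauto)
      (fun z hz t ht hzt => by
        rcases hB z hz t ht hzt with h3 | h3 | h3
        · exact Or.inl h3
        · exact Or.inr (Or.inl (h3.trans Sym2.eq_swap))
        · exact Or.inr (Or.inr h3)) v1 h1 h2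
    exact hp (by rw [e1, e2, Sym2.eq_swap])

theorem exCut {a b c d : α}
    (hZ : ∀ Z ∈ Z1 (del G (insert u (WW w))), Z s(a, b) = Z s(c, d)) :
    ∃ s : α → ZMod 2, CutF G u w s s(a, b) s(c, d) := by
  have hsum : ∀ X ∈ Z1 (del G (insert u (WW w))), ∑ e, (ed a b + ed c d) e * X e = 0 := by
    intro X hX
    have h2 : pr (ed a b + ed c d) X = 0 := by
      rw [pr_add, pr_ed, pr_ed, hZ X hX]; exact zmod2_add_self _
    exact h2
  obtain ⟨s, hs⟩ := cut hsum
  refine ⟨s, fun z hz t ht hzt => ?_⟩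
  rw [← hs z t (adjC.2 ⟨hzt, hz, ht⟩), Pi.add_apply, ed_apply, ed_apply]

/-- the triangle `w a, c, d` in `M` -/
theorem tri_mem (h : R1 G u w) {a j : Fin 4} {c d : α} (ht : TA G u w a j c d) :
    chi {s(w a, d), s(w a, c), s(c, d)} ∈ Z1 (MM G u w) := by
  have hM : ∀ x y, G.Adj x y → x ∈ CC G u w → y ≠ u → (MM G u w).Adj x y := by
    intro x y hxy hx hy
    have hx' := mem_CC.1 hx
    rw [MM, deleteEdges_adj, del_adj, mem_singleton, mem_singleton]
    refine ⟨⟨hxy, hx'.2.1, hy⟩, ?_⟩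
    rintro ⟨p, q, he⟩
    rw [Sym2.eq_iff] at he
    rcases he with ⟨h1, _⟩ | ⟨h1, _⟩
    · exact hx'.2.2 p h1
    · exact hx'.2.2 q h1
  have hc := mem_CC.1 ht.cC
  have hd := mem_CC.1 ht.dC
  have a1 : (MM G u w).Adj c d := hM c d ht.cd ht.cC hd.2.1
  have a2 : (MM G u w).Adj (w a) c := (hM c (w a) ((ht.nb c).2 (by tauto)).symm ht.cC (R1.uw h a).ne').symm
  have a3 : (MM G u w).Adj (w a) d := (hM d (w a) ((ht.nb d).2 (by tauto)).symm ht.dC (R1.uw h a).ne').symm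
  have hv : w a ∉ vs ({s(c, d)} : Finset (Sym2 α)) := by
    rw [vs_singleton, mem_insert, mem_singleton, not_or]
    exact ⟨(hc.2.2 a).symm, (hd.2.2 a).symm⟩
  have p1 := (IsPth.edge a1).cons a2 hv
  have p2 := p1.isCyc a3 (by
    rw [mem_insert, mem_singleton, not_or]
    refine ⟨fun h1 => ?_, fun h1 => ?_⟩
    · rw [Sym2.eq_iff] at h1
      rcases h1 with ⟨_, h1⟩ | ⟨h1, _⟩
      · exact ht.cd.ne' h1
      · exact hc.2.2 a h1.symm
    · exact hv (by rw [← h1]; exact left_mem_vs (mem_singleton_self _)))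
  exact p2.chi_mem

/-- equal edges: all but one -/
theorem part0 (h : R1 G u w) {j : Fin 4 → Fin 4} {c d : Fin 4 → α}
    (ht : ∀ i, TA G u w i (j i) (c i) (d i))
    (hth : ∀ Y ∈ Z1 (MM G u w), ∑ i, pr (tht w i (c i) (d i)) Y = 0) {a b : Fin 4} (hab : a ≠ b)
    (he : s(c b, d b) = s(c a, d a)) :
    ∃ p, s(c p, d p) ≠ s(c a, d a) ∧ ∀ k, k ≠ p → s(c k, d k) = s(c a, d a) := by
  have h1 := hth _ (tri_mem h (ht a))
  simp only [pr_tht] at h1
  have e1 : ∀ k, k ≠ a → chi {s(w a, d a), s(w a, c a), s(c a, d a)} s(w k, c k) = 0 := by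
    intro k hk
    rw [chi, if_neg]
    have hkc := mem_CC.1 (ht k).cC
    have hac := mem_CC.1 (ht a).cC
    have had := mem_CC.1 (ht a).dC
    rw [mem_insert, mem_insert, mem_singleton, not_or, not_or]
    refine ⟨fun h2 => ?_, fun h2 => ?_, fun h2 => ?_⟩ <;> rw [Sym2.eq_iff] at h2 <;>
      rcases h2 with ⟨h2, h3⟩ | ⟨h2, h3⟩
    · exact hk (h.inj h2)
    · exact hkc.2.2 a h3
    · exact hk (h.inj h2)
    · exact hkc.2.2 a h3
    · exact hac.2.2 k h2.symm
    · exact had.2.2 k h2.symm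
  have e1' : chi {s(w a, d a), s(w a, c a), s(c a, d a)} s(w a, c a) = 1 := chi_of_mem (by simp)
  have e2 : ∀ k, chi {s(w a, d a), s(w a, c a), s(c a, d a)} s(c k, d k) =
      if s(c k, d k) = s(c a, d a) then 1 else 0 := by
    intro k
    have hkc := mem_CC.1 (ht k).cC
    have hkd := mem_CC.1 (ht k).dC
    rw [chi]
    congr 1
    rw [mem_insert, mem_insert, mem_singleton]
    apply propext
    constructor
    · rintro (h2 | h2 | h2)
      · rw [Sym2.eq_iff] at h2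
        rcases h2 with ⟨h2, _⟩ | ⟨_, h2⟩
        · exact absurd h2 (hkc.2.2 a)
        · exact absurd h2 (hkd.2.2 a)
      · rw [Sym2.eq_iff] at h2
        rcases h2 with ⟨h2, _⟩ | ⟨_, h2⟩
        · exact absurd h2 (hkc.2.2 a)
        · exact absurd h2 (hkd.2.2 a)
      · exact h2
    · exact fun h2 => Or.inr (Or.inr h2)
  obtain ⟨k, l, ik, il, mk, ml, kl⟩ := idx_ex a b hab
  have hS : (univ : Finset (Fin 4)) = {a, b, k, l} := by
    ext q
    simp only [mem_univ, mem_insert, mem_singleton, true_iff]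
    exact idx_all a b k l q hab ik il mk ml kl
  rw [hS, sum_insert, sum_insert, sum_insert, sum_singleton] at h1
  · rw [e1', e1 b hab.symm, e1 k ik.symm, e1 l il.symm, e2 a, e2 b, e2 k, e2 l, if_pos rfl, if_pos he] at h1
    by_cases hk : s(c k, d k) = s(c a, d a)
    · by_cases hl : s(c l, d l) = s(c a, d a)
      · rw [if_pos hk, if_pos hl] at h1
        exact absurd h1 (by decide)
      · refine ⟨l, hl, fun q hq => ?_⟩
        rcases idx_all a b k l q hab ik il mk ml kl with rfl | rfl | rfl | rfl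
        exacts [rfl, he, hk, absurd rfl hq]
    · by_cases hl : s(c l, d l) = s(c a, d a)
      · refine ⟨k, hk, fun q hq => ?_⟩
        rcases idx_all a b k l q hab ik il mk ml kl with rfl | rfl | rfl | rfl
        exacts [rfl, he, absurd rfl hq, hl]
      · rw [if_neg hk, if_neg hl] at h1
        exact absurd h1 (by decide)
  · simpa using kl
  · simp [mk, ml]
  · simp [hab, ik, il]

/-! ### The order on the cycle -/

theorem first_edge {H : SimpleGraph α} {E : Set (Sym2 α)} {s t : α} {P : Finset (Sym2 α)}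
    (hP : IsPth H s t P) (hE : ∃ e ∈ P, e ∈ E) :
    ∃ x y P1 P2, s(x, y) ∈ E ∧ s(x, y) ∈ P ∧ IsPth H s x P1 ∧ IsPth H y t P2 ∧ (∀ e ∈ P1, e ∉ E) ∧
      P1 ⊆ P ∧ P2 ⊆ P ∧ s(x, y) ∉ P2 ∧ ∀ e ∈ P, e = s(x, y) ∨ e ∈ P1 ∨ e ∈ P2 := by
  revert hE
  refine IsPth.rec_left (motive := fun s P => (∃ e ∈ P, e ∈ E) →
    ∃ x y P1 P2, s(x, y) ∈ E ∧ s(x, y) ∈ P ∧ IsPth H s x P1 ∧ IsPth H y t P2 ∧ (∀ e ∈ P1, e ∉ E) ∧
      P1 ⊆ P ∧ P2 ⊆ P ∧ s(x, y) ∉ P2 ∧ ∀ e ∈ P, e = s(x, y) ∨ e ∈ P1 ∨ e ∈ P2) ?_ ?_ hP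
  · rintro ⟨e, he, _⟩
    simp at he
  · intro v s P hvs hv hvt hsP ih hE
    by_cases h1 : s(v, s) ∈ E
    · refine ⟨v, s, ∅, P, h1, mem_insert_self _ _, IsPth.nil _, hsP, by simp, by simp, subset_insert _ _,
        fun h2 => hv (left_mem_vs h2), fun e he => ?_⟩
      rw [mem_insert] at he
      tauto
    · obtain ⟨e, he, heE⟩ := hE
      rw [mem_insert] at he
      have he' : e ∈ P := he.resolve_left fun h2 => h1 (h2 ▸ heE)
      obtain ⟨x, y, P1, P2, a1, a2, a3, a4, a5, a6, a7, a8, a9⟩ := ih ⟨e, he', heE⟩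
      refine ⟨x, y, insert s(v, s) P1, P2, a1, mem_insert_of_mem a2,
        a3.cons hvs fun h2 => hv (vs_mono a6 h2), a4, fun f hf => ?_, insert_subset_insert _ a6,
        a7.trans (subset_insert _ _), a8, fun f hf => ?_⟩
      · rw [mem_insert] at hf
        rcases hf with rfl | hf
        · exact h1
        · exact a5 f hf
      · rw [mem_insert] at hf
        rcases hf with rfl | hf
        · exact Or.inr (Or.inl (mem_insert_self _ _))
        · rcases a9 f hf with h2 | h2 | h2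
          · exact Or.inl h2
          · exact Or.inr (Or.inl (mem_insert_of_mem h2))
          · exact Or.inr (Or.inr h2)

/-- `s` is constant on paths avoiding the two edges -/
theorem s_const {s : α → ZMod 2} {e f : Sym2 α} (hs : CutF G u w s e f) {z t : α} {P : Finset (Sym2 α)}
    (hP : IsPth (del G (insert u (WW w))) z t P) (he : e ∉ P) (hf : f ∉ P) : s z = s t := by
  revert he hf
  refine IsPth.rec_left (motive := fun z P => e ∉ P → f ∉ P → s z = s t) ?_ ?_ hP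
  · intro _ _; rfl
  · intro v z P hvz hv hvt hzP ih he hf
    rw [mem_insert, not_or] at he hf
    rw [← ih he.2 hf.2]
    obtain ⟨h1, h2, h3⟩ := adjC.1 hvz
    have h4 := hs v h2 z h3 h1
    rw [if_neg (Ne.symm he.1), if_neg (Ne.symm hf.1)] at h4
    exact z_eq _ _ h4

theorem idx1 : ∃ k : Fin 4, k ≠ 0 := ⟨1, by decide⟩
theorem idx2 : ∀ a : Fin 4, ∃ k : Fin 4, k ≠ 0 ∧ k ≠ a := by decide
theorem idx3 : ∀ a b : Fin 4, ∃ k : Fin 4, k ≠ 0 ∧ k ≠ a ∧ k ≠ b := by decide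

/-- the cyclic order of the four edges -/
theorem order (h : R1 G u w) {j : Fin 4 → Fin 4} {c d : Fin 4 → α}
    (ht : ∀ i, TA G u w i (j i) (c i) (d i))
    (hZ : ∀ Z ∈ Z1 (del G (insert u (WW w))), ∀ i m, Z s(c i, d i) = Z s(c m, d m))
    (hne : ∀ a b, a ≠ b → s(c a, d a) ≠ s(c b, d b)) {Z₀ : Chain α}
    (hZ₀ : Z₀ ∈ Z1 (del G (insert u (WW w)))) (h0 : Z₀ s(c 0, d 0) ≠ 0) :
    ∃ (n p q : Fin 4) (x y : Fin 4 → α), S6 G u w 0 n p q j x y := by
  obtain ⟨C, hC, hC0, _⟩ := exists_isCyc_of_mem hZ₀ h0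
  have hCall : ∀ k, s(c k, d k) ∈ C := by
    intro k
    have h1 := hZ _ hC.chi_mem k 0
    rw [chi_of_mem hC0] at h1
    by_contra h2
    rw [chi, if_neg h2] at h1
    exact zero_ne_one h1
  have hP := hC.isPth hC0
  set P := C \ {s(c 0, d 0)} with hPdef
  have hP0 : s(c 0, d 0) ∉ P := by simp [hPdef]
  have hPk : ∀ k, k ≠ 0 → s(c k, d k) ∈ P := fun k hk => by
    rw [hPdef, mem_sdiff, mem_singleton]
    exact ⟨hCall k, hne k 0 hk⟩
  set E : Set (Sym2 α) := {e | ∃ i, e = s(c i, d i)} with hE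
  obtain ⟨k1, hk1⟩ := idx1
  obtain ⟨x1, y1, Q1, P2, a1, a2, a3, a4, a5, a6, a7, a8, a9⟩ :=
    first_edge hP (E := E) ⟨_, hPk k1 hk1, k1, rfl⟩
  obtain ⟨a, ha⟩ := a1
  have ha0 : a ≠ 0 := by
    rintro rfl
    exact hP0 (ha ▸ a2)
  have hP2 : ∀ k, k ≠ 0 → k ≠ a → s(c k, d k) ∈ P2 := by
    intro k hk0 hka
    rcases a9 _ (hPk k hk0) with h1 | h1 | h1
    · exact absurd (h1.trans ha) (hne k a hka)
    · exact absurd ⟨k, rfl⟩ (a5 _ h1)
    · exact h1
  obtain ⟨k2, hk2, hk2'⟩ := idx2 a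
  obtain ⟨x2, y2, Q2, P3, b1, b2, b3, b4, b5, b6, b7, b8, b9⟩ :=
    first_edge a4 (E := E) ⟨_, hP2 k2 hk2 hk2', k2, rfl⟩
  obtain ⟨b, hb⟩ := b1
  have hb0 : b ≠ 0 := by
    rintro rfl
    exact hP0 (hb ▸ a7 b2)
  have hba : b ≠ a := by
    rintro rfl
    exact a8 (ha ▸ hb ▸ b2)
  have hP3 : ∀ k, k ≠ 0 → k ≠ a → k ≠ b → s(c k, d k) ∈ P3 := by
    intro k hk0 hka hkb
    rcases b9 _ (hP2 k hk0 hka) with h1 | h1 | h1
    · exact absurd (h1.trans hb) (hne k b hkb)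
    · exact absurd ⟨k, rfl⟩ (b5 _ h1)
    · exact h1
  obtain ⟨k3, hk3, hk3', hk3''⟩ := idx3 a b
  obtain ⟨x3, y3, Q3, P4, c1, c2, c3, c4, c5, c6, c7, c8, c9⟩ :=
    first_edge b4 (E := E) ⟨_, hP3 k3 hk3 hk3' hk3'', k3, rfl⟩
  obtain ⟨e, he⟩ := c1
  have he0 : e ≠ 0 := by
    rintro rfl
    exact hP0 (he ▸ a7 (b7 c2))
  have hea : e ≠ a := by
    rintro rfl
    exact a8 (ha ▸ he ▸ b7 c2)
  have heb : e ≠ b := by
    rintro rfl
    exact b8 (hb ▸ he ▸ c2)
  have hP4 : ∀ k, s(c k, d k) ∉ P4 := by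
    intro k hk
    rcases idx_all 0 a b e k ha0.symm hb0.symm he0.symm hba.symm hea.symm heb.symm with rfl | rfl | rfl | rfl
    · exact hP0 (a7 (b7 (c7 hk)))
    · exact a8 (ha ▸ b7 (c7 hk))
    · exact b8 (hb ▸ c7 hk)
    · exact c8 (he ▸ hk)
  -- orientation
  have orient : ∀ (k : Fin 4) (x y : α), s(x, y) = s(c k, d k) → TA G u w k (j k) x y := by
    intro k x y hxy
    rw [Sym2.eq_iff] at hxy
    rcases hxy with ⟨rfl, rfl⟩ | ⟨rfl, rfl⟩
    · exact ht k
    · exact TA.symm (ht k)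
  set X : Fin 4 → α := fun k => if k = a then x1 else if k = b then x2 else if k = e then x3 else d 0 with hX
  set Y : Fin 4 → α := fun k => if k = a then y1 else if k = b then y2 else if k = e then y3 else c 0 with hY
  have X0 : X 0 = d 0 := by simp only [hX]; rw [if_neg ha0.symm, if_neg hb0.symm, if_neg he0.symm]
  have Y0 : Y 0 = c 0 := by simp only [hY]; rw [if_neg ha0.symm, if_neg hb0.symm, if_neg he0.symm]
  have Xa : X a = x1 := by simp [hX]
  have Ya : Y a = y1 := by simp [hY]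
  have Xb : X b = x2 := by simp [hX, hba]
  have Yb : Y b = y2 := by simp [hY, hba]
  have Xe : X e = x3 := by simp [hX, hea, heb]
  have Ye : Y e = y3 := by simp [hY, hea, heb]
  have hXY : ∀ k, s(X k, Y k) = s(c k, d k) := by
    intro k
    rcases idx_all 0 a b e k ha0.symm hb0.symm he0.symm hba.symm hea.symm heb.symm with rfl | rfl | rfl | rfl
    · rw [X0, Y0, Sym2.eq_swap]
    · rw [Xa, Ya, ha]
    · rw [Xb, Yb, hb]
    · rw [Xe, Ye, he]
  refine ⟨a, b, e, X, Y, h, fun k => orient k _ _ (hXY k), ha0.symm, hb0.symm, he0.symm, hba.symm, hea.symm,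
    heb.symm, fun k l hkl => ?_, fun k l hkl => by rw [hXY, hXY]; exact hne k l hkl⟩
  rw [hXY, hXY]
  obtain ⟨s, hs⟩ := exCut (G := G) (u := u) (w := w) (fun Z hZ' => hZ Z hZ' k l)
  refine ⟨s, hs, ?_, ?_, ?_, ?_⟩
  · rw [Y0, Xa]
    exact s_const hs a3 (fun h1 => a5 _ h1 ⟨k, rfl⟩) fun h1 => a5 _ h1 ⟨l, rfl⟩
  · rw [Ya, Xb]
    exact s_const hs b3 (fun h1 => b5 _ h1 ⟨k, rfl⟩) fun h1 => b5 _ h1 ⟨l, rfl⟩
  · rw [Yb, Xe]
    exact s_const hs c3 (fun h1 => c5 _ h1 ⟨k, rfl⟩) fun h1 => c5 _ h1 ⟨l, rfl⟩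
  · rw [Ye, X0]
    exact s_const hs c4 (hP4 k) (hP4 l)

end CL6M

open CL6M

theorem specCL6 (hM33 : SpecM33) (hNBF : SpecNBF) : SpecCL6 := by
  intro α _ _ G u w h j c d ht hZ hth Z₀ hZ₀
  by_contra h0
  by_cases hne : ∀ a b, a ≠ b → s(c a, d a) ≠ s(c b, d b)
  · obtain ⟨n, p, q, x, y, h6⟩ := order h ht hZ hne hZ₀ h0
    exact h6.fin hNBF hM33
  · push Not at hne
    obtain ⟨a, b, hab, he⟩ := hne
    obtain ⟨p, hp, hall⟩ := part0 h ht hth hab he.symm
    obtain ⟨s, hs⟩ := exCut (G := G) (u := u) (w := w) (fun Z hZ' => hZ Z hZ' a p)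
    exact part1 hNBF h ht hs hp hall

end DL
end

section
/-!
MP_3ff0f8_gt, ALGEBRA HALF, R1A block, module RCX (helper56): the cross at a beta-pair.
-/
open SimpleGraph Finset

namespace DL

namespace RCXM

set_option linter.unusedSectionVars false

variable {α : Type} [Fintype α] [DecidableEq α] {G : SimpleGraph α} {u : α} {w : Fin 4 → α}

theorem mem_CC {x : α} : x ∈ CC G u w ↔ x ∈ VS G ∧ x ≠ u ∧ ∀ i, x ≠ w i := by
  rw [CC, mem_sdiff, mem_insert, not_or, WW, mem_image]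
  constructor
  · rintro ⟨h1, h2, h3⟩
    exact ⟨h1, h2, fun i hi => h3 ⟨i, mem_univ _, hi.symm⟩⟩
  · rintro ⟨h1, h2, h3⟩
    exact ⟨h1, h2, fun ⟨i, _, hi⟩ => h3 i hi.symm⟩

/-- an inner vertex of a path has two different neighbours on the path -/
theorem two_nbs {H : SimpleGraph α} {s t v : α} {P : Finset (Sym2 α)} (h : IsPth H s t P)
    (hv : v ∈ vs P) (hs : v ≠ s) (ht : v ≠ t) :
    ∃ x y, x ≠ y ∧ s(v, x) ∈ P ∧ s(v, y) ∈ P ∧ x ∈ vs P ∧ y ∈ vs P ∧ H.Adj v x ∧ H.Adj v y := by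
  obtain ⟨P1, P2, h1, h2, h3, h4, _⟩ := h.split (Or.inr hv)
  obtain ⟨x, hx, hx1, _, _⟩ := h1.symm.uncons hs
  obtain ⟨y, hy, hy1, _, _⟩ := h2.uncons ht
  have h5 : s(v, x) ∈ P := h3 ▸ mem_union_left _ hx1
  have h6 : s(v, y) ∈ P := h3 ▸ mem_union_right _ hy1
  refine ⟨x, y, fun e => ?_, h5, h6, right_mem_vs h5, right_mem_vs h6, hx, hy⟩
  subst e
  exact Finset.disjoint_left.1 h4 hx1 hy1

/-- first step of a path -/
theorem step {H : SimpleGraph α} {s t : α} {P : Finset (Sym2 α)} (h : IsPth H s t P) (hst : s ≠ t) :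
    ∃ x P', H.Adj s x ∧ s(s, x) ∈ P ∧ s ∉ vs P' ∧ IsPth H x t P' ∧ vs P' ⊆ vs P ∧ x ∈ vs P ∧
      P' ⊆ P := by
  obtain ⟨x, h1, h2, h3, h4⟩ := h.uncons hst
  exact ⟨x, _, h1, h2, h3, h4, vs_mono sdiff_subset, right_mem_vs h2, sdiff_subset⟩

theorem four : ∀ k l m p i : Fin 4, k ≠ l → k ≠ m → k ≠ p → l ≠ m → l ≠ p → m ≠ p →
    i = k ∨ i = l ∨ i = m ∨ i = p := by
  decide

/-- the configuration of a beta-pair -/
structure Cf (G : SimpleGraph α) (u wk wl wm wp z d d' : α) : Prop where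
  nd : [u, wk, wl, wm, wp, z].Nodup
  d1 : d ≠ u ∧ d ≠ wk ∧ d ≠ wl ∧ d ≠ wm ∧ d ≠ wp ∧ d ≠ z
  d2 : d' ≠ u ∧ d' ≠ wk ∧ d' ≠ wl ∧ d' ≠ wm ∧ d' ≠ wp ∧ d' ≠ z
  dd : d ≠ d'
  nu : ∀ x, G.Adj u x ↔ x = wk ∨ x = wl ∨ x = wm ∨ x = wp
  nk : ∀ x, G.Adj wk x ↔ x = u ∨ x = wl ∨ x = z ∨ x = d
  nm : ∀ x, G.Adj wm x ↔ x = u ∨ x = wp ∨ x = z ∨ x = d'
  nz : ∀ x, G.Adj z x ↔ x = wk ∨ x = wm ∨ x = d ∨ x = d'

theorem cf (hR : R1 G u w) {k l m p : Fin 4} {z d d' : α} (hn : [k, l, m, p].Nodup)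
    (hB : Bta G u w k l m p z d d') : Cf G u (w k) (w l) (w m) (w p) z d d' := by
  have hw : ∀ i, u ≠ w i := fun i => ((hR.nu (w i)).2 ⟨i, rfl⟩).ne
  have hz := mem_CC.1 hB.ti.cC
  have hd := mem_CC.1 hB.ti.dC
  have hd' := mem_CC.1 hB.tm.dC
  have hne : ∀ {i j : Fin 4}, i ≠ j → w i ≠ w j := fun h e => h (hR.inj e)
  simp only [List.nodup_cons, List.mem_cons, List.not_mem_nil, or_false, not_or, List.nodup_nil,
    not_false_iff, and_true] at hn
  obtain ⟨⟨h1, h2, h3⟩, ⟨h4, h5⟩, h6⟩ := hn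
  refine ⟨?_, ⟨hd.2.1, hd.2.2 _, hd.2.2 _, hd.2.2 _, hd.2.2 _, hB.ti.cd.ne.symm⟩,
    ⟨hd'.2.1, hd'.2.2 _, hd'.2.2 _, hd'.2.2 _, hd'.2.2 _, hB.tm.cd.ne.symm⟩, hB.dd, ?_, hB.ti.nb,
    hB.tm.nb, hB.nz⟩
  · simp only [List.nodup_cons, List.mem_cons, List.not_mem_nil, or_false, not_or, List.nodup_nil,
      not_false_iff, and_true]
    exact ⟨⟨hw _, hw _, hw _, hw _, hz.2.1.symm⟩, ⟨hne h1, hne h2, hne h3, (hz.2.2 _).symm⟩,
      ⟨hne h4, hne h5, (hz.2.2 _).symm⟩, ⟨hne h6, (hz.2.2 _).symm⟩, (hz.2.2 _).symm⟩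
  · intro x
    rw [hR.nu]
    constructor
    · rintro ⟨i, rfl⟩
      rcases four k l m p i h1 h2 h3 h4 h5 h6 with rfl | rfl | rfl | rfl <;> simp
    · rintro (rfl | rfl | rfl | rfl)
      exacts [⟨_, rfl⟩, ⟨_, rfl⟩, ⟨_, rfl⟩, ⟨_, rfl⟩]

/-- a path which avoids four vertices -/
theorem avoid {s t a b c e : α} {P : Finset (Sym2 α)} (h : IsPth G s t P) (ha : a ∉ vs P)
    (hb : b ∉ vs P) (hc : c ∉ vs P) (he : e ∉ vs P) : IsPth (del G {a, b, c, e}) s t P := by
  rw [isPth_del]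
  refine ⟨h, ?_⟩
  rw [Finset.disjoint_left]
  intro x hx hx1
  simp only [mem_insert, mem_singleton] at hx1
  rcases hx1 with rfl | rfl | rfl | rfl
  exacts [ha hx, hb hx, hc hx, he hx]

/-- the two paths of the cross, from the two paths of a cycle of `G - u` -/
theorem fromCyc {wk wl wm wp z d d' : α} (hC : Cf G u wk wl wm wp z d d')
    {R₁ R₂ : Finset (Sym2 α)} (h1 : IsPth (del G {u}) wk wp R₁) (h2 : IsPth (del G {u}) wm wl R₂)
    (hD : Disjoint (insert wk (vs R₁)) (insert wl (vs R₂))) :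
    ∃ Q₁ Q₂, IsPth (del G {u, wk, z, wm}) d wp Q₁ ∧ IsPth (del G {u, wk, z, wm}) d' wl Q₂ ∧
      Disjoint (vs Q₁) (vs Q₂) := by
  obtain ⟨hnd, ⟨a1, a2, a3, a4, a5, a6⟩, ⟨b1, b2, b3, b4, b5, b6⟩, hdd, nu, nk, nm, nz⟩ := hC
  simp only [List.nodup_cons, List.mem_cons, List.not_mem_nil, or_false, not_or, List.nodup_nil,
    not_false_iff, and_true] at hnd
  obtain ⟨⟨c1, c2, c3, c4, c5⟩, ⟨c6, c7, c8, c9⟩, ⟨c10, c11, c12⟩, ⟨c13, c14⟩, c15⟩ := hnd
  have hkR : wk ∈ vs R₁ := h1.left_mem c8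
  have hpR : wp ∈ vs R₁ := h1.right_mem c8
  have hmR : wm ∈ vs R₂ := h2.left_mem (Ne.symm c10)
  have hlR : wl ∈ vs R₂ := h2.right_mem (Ne.symm c10)
  have hD1 : ∀ x, x ∈ vs R₁ → x ∉ vs R₂ := fun x hx hx' =>
    Finset.disjoint_left.1 hD (mem_insert_of_mem hx) (mem_insert_of_mem hx')
  have hu1 : u ∉ vs R₁ := Finset.disjoint_right.1 (vs_of_isPth_del h1) (mem_singleton_self _)
  have hu2 : u ∉ vs R₂ := Finset.disjoint_right.1 (vs_of_isPth_del h2) (mem_singleton_self _)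
  have hlk : wl ∉ vs R₁ := fun h => hD1 _ h hlR
  have hmk : wm ∉ vs R₁ := fun h => hD1 _ h hmR
  have hk2 : wk ∉ vs R₂ := hD1 _ hkR
  have hp2 : wp ∉ vs R₂ := hD1 _ hpR
  obtain ⟨x, P', g1, -, g3, g4, g5, g6, -⟩ := step h1 c8
  obtain ⟨y, P'', e1, -, e3, e4, e5, e6, -⟩ := step h2 (Ne.symm c10)
  have hx : x = z ∨ x = d := by
    rcases (nk x).1 g1.1 with h | h | h | h
    · exact absurd (h ▸ g6) hu1
    · exact absurd (h ▸ g6) hlk
    · exact Or.inl h
    · exact Or.inr h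
  have hy : y = z ∨ y = d' := by
    rcases (nm y).1 e1.1 with h | h | h | h
    · exact absurd (h ▸ e6) hu2
    · exact absurd (h ▸ e6) hp2
    · exact Or.inl h
    · exact Or.inr h
  -- the path from `d'` to `wl` is found if `R₁` contains `d` or `z`
  have key2 : (d ∈ vs R₁) → y = d' → z ∉ vs P'' := by
    intro hd hyd hz
    subst hyd
    obtain ⟨x₁, x₂, f1, _, _, f4, f5, f6, f7⟩ := two_nbs e4 hz (Ne.symm b6) (Ne.symm c12)
    have f : ∀ x₃, x₃ ∈ vs P'' → (del G {u}).Adj z x₃ → x₃ = y := by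
      intro x₃ f8 f9
      rcases (nz x₃).1 f9.1 with h | h | h | h
      · exact absurd (e5 (h ▸ f8)) hk2
      · exact absurd (h ▸ f8) e3
      · exact absurd (e5 (h ▸ f8)) (hD1 _ hd)
      · exact h
    exact f1 ((f _ f4 f6).trans (f _ f5 f7).symm)
  rcases hx with rfl | rfl
  · -- `R₁ = wk z d …`
    have hy' : y = d' := by
      rcases hy with rfl | h
      · exact absurd e6 (hD1 _ g6)
      · exact h
    subst hy'
    obtain ⟨x', Q, i1, -, i3, i4, i5, i6, -⟩ := step g4 (Ne.symm c15)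
    have hx' : x' = d := by
      rcases (nz x').1 i1.1 with h | h | h | h
      · exact absurd (h ▸ i6) g3
      · exact absurd (g5 (h ▸ i6)) hmk
      · exact h
      · exact absurd (h ▸ e6) (hD1 _ (g5 i6))
    subst hx'
    refine ⟨Q, P'', avoid (i4.mono (del_le _ _)) ?_ ?_ i3 ?_, avoid (e4.mono (del_le _ _)) ?_ ?_ ?_ e3,
      ?_⟩
    · exact fun h => hu1 (g5 (i5 h))
    · exact fun h => g3 (i5 h)
    · exact fun h => hmk (g5 (i5 h))
    · exact fun h => hu2 (e5 h)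
    · exact fun h => hk2 (e5 h)
    · exact fun h => hD1 _ g6 (e5 h)
    · rw [Finset.disjoint_left]
      exact fun v hv hv' => hD1 v (g5 (i5 hv)) (e5 hv')
  · -- `R₁ = wk d …`
    have hz1 : z ∉ vs P' := by
      intro hz
      obtain ⟨x₁, x₂, f1, _, _, f4, f5, f6, f7⟩ := two_nbs g4 hz (Ne.symm a6) (Ne.symm c15)
      have f : ∀ x₃, x₃ ∈ vs P' → (del G {u}).Adj z x₃ → x₃ = x ∨ x₃ = d' := by
        intro x₃ f8 f9
        rcases (nz x₃).1 f9.1 with h | h | h | h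
        · exact absurd (h ▸ f8) g3
        · exact absurd (g5 (h ▸ f8)) hmk
        · exact Or.inl h
        · exact Or.inr h
      have hd' : d' ∈ vs P' := by
        rcases f _ f4 f6 with h3 | h3
        · rcases f _ f5 f7 with h4 | h4
          · exact absurd (h3.trans h4.symm) f1
          · exact h4 ▸ f5
        · exact h3 ▸ f4
      rcases hy with rfl | rfl
      · exact hD1 _ (g5 hz) e6
      · exact hD1 _ (g5 hd') e6
    rcases hy with rfl | rfl
    · obtain ⟨y', Q, i1, -, i3, i4, i5, i6, -⟩ := step e4 (Ne.symm c12)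
      have hy' : y' = d' := by
        rcases (nz y').1 i1.1 with h | h | h | h
        · exact absurd (e5 (h ▸ i6)) hk2
        · exact absurd (h ▸ i6) e3
        · exact absurd (e5 (h ▸ i6)) (hD1 _ g6)
        · exact h
      subst hy'
      refine ⟨P', Q, avoid (g4.mono (del_le _ _)) ?_ g3 hz1 ?_,
        avoid (i4.mono (del_le _ _)) ?_ ?_ i3 ?_, ?_⟩
      · exact fun h => hu1 (g5 h)
      · exact fun h => hmk (g5 h)
      · exact fun h => hu2 (e5 (i5 h))
      · exact fun h => hk2 (e5 (i5 h))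
      · exact fun h => e3 (i5 h)
      · rw [Finset.disjoint_left]
        exact fun v hv hv' => hD1 v (g5 hv) (e5 (i5 hv'))
    · refine ⟨P', P'', avoid (g4.mono (del_le _ _)) ?_ g3 hz1 ?_,
        avoid (e4.mono (del_le _ _)) ?_ ?_ (key2 g6 rfl) e3, ?_⟩
      · exact fun h => hu1 (g5 h)
      · exact fun h => hmk (g5 h)
      · exact fun h => hu2 (e5 h)
      · exact fun h => hk2 (e5 h)
      · rw [Finset.disjoint_left]
        exact fun v hv hv' => hD1 v (g5 hv) (e5 hv')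

/-- an inner vertex of degree two of a path: both neighbours are on the path -/
theorem notMem_of_deg {H : SimpleGraph α} {s t v a b : α} {P : Finset (Sym2 α)} (h : IsPth H s t P)
    (hs : v ≠ s) (ht : v ≠ t) (hv : ∀ x, H.Adj v x → x = a ∨ x = b) (hab : a ∉ vs P ∨ b ∉ vs P) :
    v ∉ vs P := by
  intro h0
  obtain ⟨x, y, hxy, -, -, hx, hy, hvx, hvy⟩ := two_nbs h h0 hs ht
  rcases hv x hvx with rfl | rfl <;> rcases hv y hvy with rfl | rfl
  · exact hxy rfl
  · rcases hab with h | h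
    · exact h hx
    · exact h hy
  · rcases hab with h | h
    · exact h hy
    · exact h hx
  · exact hxy rfl

/-- a cycle with `wl → wk`, later `wp → wm`, from the nonvanishing of the torus -/
theorem exists_coh (hKUR : SpecKUR) {J : SimpleGraph α} (hJ : KZ J) {a b c d : α}
    {C₁ C₂ : Finset (Sym2 α)} (h1 : IsCyc J C₁) (h2 : IsCyc J C₂) (hD : Disjoint (vs C₁) (vs C₂))
    (hab : s(a, b) ∈ C₁) (hcd : s(c, d) ∈ C₂) : ∃ C, IsCyc J C ∧ coh a b c d C = 1 := by
  by_contra hno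
  push Not at hno
  have h0 : ∀ C, IsCyc J C → coh a b c d C = 0 := fun C hC => by
    rcases zmod2_cases (coh a b c d C) with h | h
    · exact h
    · exact absurd h (hno C hC)
  have htor := hKUR.tor (vs C₁) (vs C₂) h1.chi_mem h2.chi_mem
    (fun e v he hv => mem_vs.2 ⟨e, chi_ne_zero.1 he, hv⟩)
    (fun e v he hv => mem_vs.2 ⟨e, chi_ne_zero.1 he, hv⟩) hD
  have h3 := hJ (fun x y z t => if x = a ∧ y = b ∧ z = c ∧ t = d then 1 else 0)
    ⟨0, ?_, rfl, fun C hC => ?_⟩ _ htor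
  · have e : ∀ F : α → α → α → α → ZMod 2, ∑ x, ∑ y, ∑ z, ∑ t,
        (if x = a ∧ y = b ∧ z = c ∧ t = d then (1 : ZMod 2) else 0) * F x y z t = F a b c d := by
      intro F
      rw [sum_eq_single a, sum_eq_single b, sum_eq_single c, sum_eq_single d]
      · simp
      all_goals simp +contextual
    rw [e] at h3
    have h4 : chi C₂ s(a, b) = 0 := chi_of_notMem fun h =>
      Finset.disjoint_left.1 hD (left_mem_vs hab) (left_mem_vs h)
    rw [chi_of_mem hab, chi_of_mem hcd, h4, zero_mul, add_zero, one_mul] at h3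
    exact one_ne_zero h3
  · simp [DegLE]
  · have e : ∀ F : α → α → α → α → ZMod 2, ∑ x, ∑ y, ∑ z, ∑ t,
        (if x = a ∧ y = b ∧ z = c ∧ t = d then (1 : ZMod 2) else 0) * F x y z t = F a b c d := by
      intro F
      rw [sum_eq_single a, sum_eq_single b, sum_eq_single c, sum_eq_single d]
      · simp
      all_goals simp +contextual
    rw [Pi.zero_apply]
    exact (e fun x y z t => coh x y z t C).trans (h0 C hC)

end RCXM

open RCXM

theorem specRCX (hKUR : SpecKUR) : SpecRCX := by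
  intro α _ _ G u w hR hKZ k l m p z d d' hn hB
  have hC := cf hR hn hB
  have hC' := hC
  obtain ⟨hnd, ⟨a1, a2, a3, a4, a5, a6⟩, ⟨b1, b2, b3, b4, b5, b6⟩, hdd, nu, nk, nm, nz⟩ := hC'
  simp only [List.nodup_cons, List.mem_cons, List.not_mem_nil, or_false, not_or, List.nodup_nil,
    not_false_iff, and_true] at hnd
  obtain ⟨⟨c1, c2, c3, c4, c5⟩, ⟨c6, c7, c8, c9⟩, ⟨c10, c11, c12⟩, ⟨c13, c14⟩, c15⟩ := hnd
  have hVS : VS (del G {w k, w m}) = VS G \ {w k, w m} :=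
    hR.k48.1.VS_del (lt_of_le_of_lt card_le_two (by norm_num))
  have hV : ∀ x, x ∈ VS G → x ≠ w k → x ≠ w m → x ∈ VS (del G {w k, w m}) := by
    intro x hx h1 h2
    rw [hVS, mem_sdiff, mem_insert, mem_singleton, not_or]
    exact ⟨hx, h1, h2⟩
  have hl : w l ∈ VS G := right_mem_VS ((nu (w l)).2 (Or.inr (Or.inl rfl)))
  have hp : w p ∈ VS G := right_mem_VS ((nu (w p)).2 (Or.inr (Or.inr (Or.inr rfl))))
  have hd : d ∈ VS G := right_mem_VS ((nz d).2 (Or.inr (Or.inr (Or.inl rfl))))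
  have hd' : d' ∈ VS G := right_mem_VS ((nz d').2 (Or.inr (Or.inr (Or.inr rfl))))
  have hH : KConn 2 (del G {w k, w m}) := KConn.del_pair (by norm_num) hR.k48.1 _ _
  obtain ⟨c', d'', P, Q, hcd, hP, hQ, hD⟩ := hH.two_paths (hV _ hl (Ne.symm c6) c10)
    (hV _ hp (Ne.symm c8) (Ne.symm c13)) (hV _ hd a2 a4) (hV _ hd' b2 b4) c11 hdd
  have hDD : ∀ x, x ∈ insert (w l) (vs P) → x ∉ insert (w p) (vs Q) := fun x hx hx' =>
    Finset.disjoint_left.1 hD hx hx'
  have huH : ∀ x, (del G {w k, w m}).Adj u x → x = w l ∨ x = w p := by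
    intro x hx
    have h1 := hx.2.2
    rw [mem_insert, mem_singleton, not_or] at h1
    rcases (nu x).1 hx.1 with h | h | h | h
    · exact absurd h h1.1
    · exact Or.inl h
    · exact absurd h h1.2
    · exact Or.inr h
  have hzH : ∀ x, (del G {w k, w m}).Adj z x → x = d ∨ x = d' := by
    intro x hx
    have h1 := hx.2.2
    rw [mem_insert, mem_singleton, not_or] at h1
    rcases (nz x).1 hx.1 with h | h | h | h
    · exact absurd h h1.1
    · exact absurd h h1.2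
    · exact Or.inl h
    · exact Or.inr h
  have hcl : c' ≠ w l ∧ c' ≠ u ∧ c' ≠ z := by
    rcases hcd with ⟨h, -⟩ | ⟨h, -⟩ <;> rw [h]
    exacts [⟨a3, a1, a6⟩, ⟨b3, b1, b6⟩]
  have hdl : d'' ≠ w p ∧ d'' ≠ u ∧ d'' ≠ z := by
    rcases hcd with ⟨-, h⟩ | ⟨-, h⟩ <;> rw [h]
    exacts [⟨b5, b1, b6⟩, ⟨a5, a1, a6⟩]
  have hcP : c' ∈ vs P := hP.right_mem (Ne.symm hcl.1)
  have hdQ : d'' ∈ vs Q := hQ.right_mem (Ne.symm hdl.1)
  have hcd' : (d ∉ vs P ∨ d' ∉ vs P) ∧ (d ∉ vs Q ∨ d' ∉ vs Q) := by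
    have h1 : d'' ∉ vs P := fun h => hDD _ (mem_insert_of_mem h) (mem_insert_of_mem hdQ)
    have h2 : c' ∉ vs Q := fun h => hDD _ (mem_insert_of_mem hcP) (mem_insert_of_mem h)
    rcases hcd with ⟨h3, h4⟩ | ⟨h3, h4⟩ <;> rw [h4] at h1 <;> rw [h3] at h2
    · exact ⟨Or.inr h1, Or.inl h2⟩
    · exact ⟨Or.inl h1, Or.inr h2⟩
  have huP : u ∉ vs P := notMem_of_deg hP c2 (Ne.symm hcl.2.1) huH
    (Or.inr fun h => hDD _ (mem_insert_of_mem h) (mem_insert_self _ _))
  have huQ : u ∉ vs Q := notMem_of_deg hQ c4 (Ne.symm hdl.2.1) huH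
    (Or.inl fun h => hDD _ (mem_insert_self _ _) (mem_insert_of_mem h))
  have hzP : z ∉ vs P := notMem_of_deg hP (Ne.symm c12) (Ne.symm hcl.2.2) hzH hcd'.1
  have hzQ : z ∉ vs Q := notMem_of_deg hQ (Ne.symm c15) (Ne.symm hdl.2.2) hzH hcd'.2
  have hPd := isPth_del.1 hP
  have hQd := isPth_del.1 hQ
  have hkP : w k ∉ vs P := Finset.disjoint_right.1 hPd.2 (by simp)
  have hmP : w m ∉ vs P := Finset.disjoint_right.1 hPd.2 (by simp)
  have hkQ : w k ∉ vs Q := Finset.disjoint_right.1 hQd.2 (by simp)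
  have hmQ : w m ∉ vs Q := Finset.disjoint_right.1 hQd.2 (by simp)
  rcases hcd with ⟨rfl, rfl⟩ | ⟨rfl, rfl⟩
  · -- the crossing pair is found with `KZ`
    have hadj : ∀ {a b}, G.Adj a b → a ≠ u → b ≠ u → (del G {u}).Adj a b := by
      intro a b hab ha hb
      exact ⟨hab, by rwa [mem_singleton], by rwa [mem_singleton]⟩
    have hP' : IsPth (del (del G {u}) {w k}) (w l) c' P := by
      rw [isPth_del, isPth_del]
      exact ⟨⟨hPd.1, by rwa [disjoint_singleton_right]⟩, by rwa [disjoint_singleton_right]⟩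
    have hQ' : IsPth (del (del G {u}) {w m}) (w p) d'' Q := by
      rw [isPth_del, isPth_del]
      exact ⟨⟨hQd.1, by rwa [disjoint_singleton_right]⟩, by rwa [disjoint_singleton_right]⟩
    have hC1 := isCyc_of_isPth_del (G := del G {u}) (hadj ((nk (w l)).2 (by simp)) (Ne.symm c1)
      (Ne.symm c2)) (hadj ((nk c').2 (by simp)) (Ne.symm c1) a1) (Ne.symm a3) hP'
    have hC2 := isCyc_of_isPth_del (G := del G {u}) (hadj ((nm (w p)).2 (by simp)) (Ne.symm c3)
      (Ne.symm c4)) (hadj ((nm d'').2 (by simp)) (Ne.symm c3) b1) (Ne.symm b5) hQ'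
    have hDC : Disjoint (vs (insert s(w k, w l) (insert s(w k, c') P)))
        (vs (insert s(w m, w p) (insert s(w m, d'') Q))) := by
      rw [Finset.disjoint_left]
      intro x hx hx'
      rw [vs_insert, vs_insert] at hx hx'
      simp only [mem_union, mem_insert, mem_singleton] at hx hx'
      have h1 : x = w k ∨ x ∈ insert (w l) (vs P) := by
        rw [mem_insert]
        rcases hx with (h | h) | (h | h) | h
        exacts [Or.inl h, Or.inr (Or.inl h), Or.inl h, Or.inr (Or.inr (h ▸ hcP)), Or.inr (Or.inr h)]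
      have h2 : x = w m ∨ x ∈ insert (w p) (vs Q) := by
        rw [mem_insert]
        rcases hx' with (h | h) | (h | h) | h
        exacts [Or.inl h, Or.inr (Or.inl h), Or.inl h, Or.inr (Or.inr (h ▸ hdQ)), Or.inr (Or.inr h)]
      rcases h1 with rfl | h1
      · rcases h2 with h2 | h2
        · exact c7 h2
        · rw [mem_insert] at h2
          rcases h2 with h2 | h2
          · exact c8 h2
          · exact hkQ h2
      · rcases h2 with rfl | h2
        · rw [mem_insert] at h1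
          rcases h1 with h1 | h1
          · exact c10 h1.symm
          · exact hmP h1
        · exact hDD x h1 h2
    obtain ⟨C, hC1', hC2'⟩ := exists_coh hKUR hKZ (a := w l) (b := w k) (c := w p) (d := w m) hC1 hC2
      hDC (by rw [Sym2.eq_swap]; exact mem_insert_self _ _)
      (by rw [Sym2.eq_swap]; exact mem_insert_self _ _)
    have hne : s(w l, w k) ≠ s(w p, w m) := by
      intro h
      rw [Sym2.eq_iff] at h
      rcases h with ⟨h, -⟩ | ⟨h, -⟩
      · exact c11 h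
      · exact c10 h
    obtain ⟨R₁, R₂, -, -, h1, h2, -, -, h3⟩ := (hC1'.coh_eq_one_iff hne).1 hC2'
    exact fromCyc hC h1 h2 h3
  · refine ⟨Q, P, ?_, ?_, ?_⟩
    · exact (avoid hQd.1 huQ hkQ hzQ hmQ).symm
    · exact (avoid hPd.1 huP hkP hzP hmP).symm
    · rw [Finset.disjoint_left]
      exact fun v hv hv' => hDD v (mem_insert_of_mem hv') (mem_insert_of_mem hv)

end DL
end

section
/-!
MP_3ff0f8_gt, ALGEBRA HALF, R1A block, module CR1 (helper56): the cross configuration at a beta-pair.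
-/
open SimpleGraph Finset

namespace DL

namespace CR1M

open RCXM

set_option linter.unusedSectionVars false

variable {α : Type} [Fintype α] [DecidableEq α] {G : SimpleGraph α} {u : α} {w : Fin 4 → α}

theorem ed_left {a b : α} {e : Sym2 α} (h : a ∉ e) : ed a b e = 0 := by
  rw [ed_apply, if_neg]
  rintro rfl
  exact h (Sym2.mem_mk_left _ _)

theorem ed_right {a b : α} {e : Sym2 α} (h : b ∉ e) : ed a b e = 0 := by
  rw [ed_comm]
  exact ed_left h

theorem ed_self (a b : α) : ed a b s(a, b) = 1 := by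
  rw [ed_apply, if_pos rfl]

theorem chi_nv {P : Finset (Sym2 α)} {e : Sym2 α} {v : α} (hv : v ∈ e) (h : v ∉ vs P) :
    chi P e = 0 := chi_of_notMem fun he => h (mem_vs.2 ⟨e, he, hv⟩)

theorem ev (z d : α) (R : Finset (Sym2 α)) (x : α) :
    x ∈ insert z (vs (insert s(z, d) R)) ↔ x = z ∨ x ∈ insert d (vs R) := by
  rw [vs_insert]
  simp only [mem_insert, mem_union, mem_singleton]
  tauto

theorem core (hTPD : SpecTPD) (hTRE : SpecTRE) (hR : R1 G u w) {k l m p : Fin 4} {z d d' bp bl : α}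
    {R₁ R₂ : Finset (Sym2 α)} (hn : [k, l, m, p].Nodup) (hB : Bta G u w k l m p z d d')
    (hkl : G.Adj (w k) (w l)) (hmp : G.Adj (w m) (w p))
    (h1 : IsPth (del G {u, w k, z, w m}) bp d R₁) (h2 : IsPth (del G {u, w k, z, w m}) bl d' R₂)
    (hp1 : w p ∉ vs R₁) (hl1 : w l ∉ vs R₁) (hp2 : w p ∉ vs R₂) (hl2 : w l ∉ vs R₂)
    (hD : Disjoint (insert d (vs R₁)) (insert d' (vs R₂))) (hbp : G.Adj (w p) bp)
    (hbl : G.Adj (w l) bl) :
    ∃ X Y, Cfg G u w k l m p X Y ∧ X s(w k, w l) = 1 ∧ Y s(w m, w p) = 1 ∧ X s(w m, w p) = 0 ∧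
      pr (tht w k z d) X = 1 ∧ pr (tht w k z d) Y = 1 ∧
      X = ed (w k) z + ed (w l) bl + ed (w k) (w l) + chi (insert s(z, d') R₂) := by
  have hz := mem_CC.1 hB.ti.cC
  have hd := mem_CC.1 hB.ti.dC
  have hd' := mem_CC.1 hB.tm.dC
  have hzd : G.Adj z d := hB.ti.cd
  have hzd' : G.Adj z d' := hB.tm.cd
  have hw : ∀ i, w i ≠ u := fun i => ((hR.nu (w i)).2 ⟨i, rfl⟩).ne.symm
  have hne : ∀ {i j : Fin 4}, i ≠ j → w i ≠ w j := fun h e => h (hR.inj e)
  have hn' := hn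
  simp only [List.nodup_cons, List.mem_cons, List.not_mem_nil, or_false, not_or, List.nodup_nil,
    not_false_iff, and_true] at hn'
  obtain ⟨⟨n1, n2, n3⟩, ⟨n4, n5⟩, n6⟩ := hn'
  obtain ⟨h1', h1d⟩ := isPth_del.1 h1
  obtain ⟨h2', h2d⟩ := isPth_del.1 h2
  have hu1 : u ∉ vs R₁ := Finset.disjoint_right.1 h1d (by simp)
  have hk1 : w k ∉ vs R₁ := Finset.disjoint_right.1 h1d (by simp)
  have hz1 : z ∉ vs R₁ := Finset.disjoint_right.1 h1d (by simp)
  have hm1 : w m ∉ vs R₁ := Finset.disjoint_right.1 h1d (by simp)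
  have hu2 : u ∉ vs R₂ := Finset.disjoint_right.1 h2d (by simp)
  have hk2 : w k ∉ vs R₂ := Finset.disjoint_right.1 h2d (by simp)
  have hz2 : z ∉ vs R₂ := Finset.disjoint_right.1 h2d (by simp)
  have hm2 : w m ∉ vs R₂ := Finset.disjoint_right.1 h2d (by simp)
  have pe1 : IsPth G z bp (insert s(z, d) R₁) := h1'.symm.cons hzd hz1
  have pe2 : IsPth G z bl (insert s(z, d') R₂) := h2'.symm.cons hzd' hz2
  have t1 := hTRE.pth pe1
  have t2 := hTRE.pth pe2
  have ev1 := ev z d R₁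
  have ev2 := ev z d' R₂
  have hcap : insert z (vs (insert s(z, d) R₁)) ∩ insert z (vs (insert s(z, d') R₂)) = {z} := by
    ext x
    rw [mem_inter, ev1, ev2, mem_singleton]
    constructor
    · rintro ⟨h | h, h' | h'⟩
      exacts [h, h, h', absurd h' (Finset.disjoint_left.1 hD h)]
    · rintro rfl
      exact ⟨Or.inl rfl, Or.inl rfl⟩
  have tg := hTRE.glue t1.1 t2.1 hcap
  have hz1' : z ∈ insert z (vs (insert s(z, d) R₁)) := mem_insert_self _ _
  have hz2' : z ∈ insert z (vs (insert s(z, d') R₂)) := mem_insert_self _ _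
  have hbp1 : bp ∈ insert z (vs (insert s(z, d) R₁)) := pe1.end_mem
  have hbl1 : bl ∈ insert z (vs (insert s(z, d') R₂)) := pe2.end_mem
  have tp1 := hTRE.tpm t1.1 tg.1 le_sup_left subset_union_left z hz1' bp hbp1
  have tp2 := hTRE.tpm t2.1 tg.1 le_sup_right subset_union_right z hz2' bl hbl1
  rw [t1.2] at tp1
  rw [t2.2] at tp2
  have hTG : fromEdgeSet (((insert s(z, d) R₁ : Finset (Sym2 α)) : Set (Sym2 α))) ⊔
      fromEdgeSet (((insert s(z, d') R₂ : Finset (Sym2 α)) : Set (Sym2 α))) ≤ G := by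
    apply sup_le
    · intro x y hxy
      rw [fromEdgeSet_adj, mem_coe] at hxy
      exact pe1.adj_of_mem hxy.1
    · intro x y hxy
      rw [fromEdgeSet_adj, mem_coe] at hxy
      exact pe2.adj_of_mem hxy.1
  have vsG1 : ∀ x ∈ vs R₁, x ∈ VS G := fun x hx => h1'.vs_subset hx
  have vsG2 : ∀ x ∈ vs R₂, x ∈ VS G := fun x hx => h2'.vs_subset hx
  have hwi : ∀ i, i = k ∨ i = l ∨ i = m ∨ i = p := fun i => four k l m p i n1 n2 n3 n4 n5 n6
  have hXC : insert z (vs (insert s(z, d) R₁)) ∪ insert z (vs (insert s(z, d') R₂)) ⊆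
      CC G u w := by
    intro x hx
    rw [mem_union, ev1, ev2, mem_insert, mem_insert] at hx
    rcases hx with (rfl | rfl | hx) | (rfl | rfl | hx)
    · exact hB.ti.cC
    · exact hB.ti.dC
    · refine mem_CC.2 ⟨vsG1 x hx, fun e => hu1 (e ▸ hx), fun i e => ?_⟩
      rcases hwi i with rfl | rfl | rfl | rfl
      exacts [hk1 (e ▸ hx), hl1 (e ▸ hx), hm1 (e ▸ hx), hp1 (e ▸ hx)]
    · exact hB.ti.cC
    · exact hB.tm.dC
    · refine mem_CC.2 ⟨vsG2 x hx, fun e => hu2 (e ▸ hx), fun i e => ?_⟩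
      rcases hwi i with rfl | rfl | rfl | rfl
      exacts [hk2 (e ▸ hx), hl2 (e ▸ hx), hm2 (e ▸ hx), hp2 (e ▸ hx)]
  have hbpC := mem_CC.1 (hXC (mem_union_left _ hbp1))
  have hblC := mem_CC.1 (hXC (mem_union_right _ hbl1))
  have hkz : G.Adj (w k) z := (hB.ti.nb z).2 (by simp)
  have hmz : G.Adj (w m) z := (hB.tm.nb z).2 (by simp)
  have hcfg := hTPD hR k l m p hn hkl hmp _ _ tg.1 hTG hXC z (mem_union_left _ hz1') bl
    (mem_union_right _ hbl1) z (mem_union_left _ hz1') bp (mem_union_left _ hbp1) hkz hbl hmz hbp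
  rw [tp1, tp2] at hcfg
  have hkv2 : w k ∉ vs (insert s(z, d') R₂) := by
    intro h
    have := (ev2 (w k)).1 (mem_insert_of_mem h)
    rw [mem_insert] at this
    rcases this with h | h | h
    exacts [hz.2.2 k h.symm, hd'.2.2 k h.symm, hk2 h]
  have hmv2 : w m ∉ vs (insert s(z, d') R₂) := by
    intro h
    have := (ev2 (w m)).1 (mem_insert_of_mem h)
    rw [mem_insert] at this
    rcases this with h | h | h
    exacts [hz.2.2 m h.symm, hd'.2.2 m h.symm, hm2 h]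
  have hkv1 : w k ∉ vs (insert s(z, d) R₁) := by
    intro h
    have := (ev1 (w k)).1 (mem_insert_of_mem h)
    rw [mem_insert] at this
    rcases this with h | h | h
    exacts [hz.2.2 k h.symm, hd.2.2 k h.symm, hk1 h]
  have hmv1 : w m ∉ vs (insert s(z, d) R₁) := by
    intro h
    have := (ev1 (w m)).1 (mem_insert_of_mem h)
    rw [mem_insert] at this
    rcases this with h | h | h
    exacts [hz.2.2 m h.symm, hd.2.2 m h.symm, hm1 h]
  have nm : ∀ {x y v : α}, v ≠ x → v ≠ y → v ∉ s(x, y) := by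
    intro x y v h h'
    rw [Sym2.mem_iff, not_or]
    exact ⟨h, h'⟩
  refine ⟨_, _, hcfg, ?_, ?_, ?_, ?_, ?_, rfl⟩
  · simp only [Pi.add_apply]
    rw [ed_right (nm (hz.2.2 k) (hz.2.2 l)), ed_right (nm (hblC.2.2 k) (hblC.2.2 l)), ed_self,
      chi_nv (Sym2.mem_mk_left _ _) hkv2]
    rfl
  · simp only [Pi.add_apply]
    rw [ed_right (nm (hz.2.2 m) (hz.2.2 p)), ed_right (nm (hbpC.2.2 m) (hbpC.2.2 p)), ed_self,
      chi_nv (Sym2.mem_mk_left _ _) hmv1]
    rfl
  · simp only [Pi.add_apply]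
    rw [ed_left (nm (hne n2) (hne n3)), ed_left (nm (hne n4) (hne n5)), ed_left (nm (hne n2) (hne n3)),
      chi_nv (Sym2.mem_mk_left _ _) hmv2]
    rfl
  · rw [pr_tht]
    simp only [Pi.add_apply]
    rw [ed_self, ed_left (nm (hne n1).symm (hz.2.2 l).symm), ed_right (nm (hne n1).symm (hz.2.2 l).symm),
      chi_nv (Sym2.mem_mk_left _ _) hkv2, ed_left (nm (hz.2.2 k).symm (hd.2.2 k).symm),
      ed_left (nm (hz.2.2 l).symm (hd.2.2 l).symm), ed_left (nm (hz.2.2 k).symm (hd.2.2 k).symm),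
      chi_of_notMem]
    · rfl
    · rw [mem_insert, not_or]
      refine ⟨fun h => ?_, fun h => hz2 (left_mem_vs h)⟩
      rw [Sym2.eq_iff] at h
      rcases h with ⟨-, h⟩ | ⟨h, -⟩
      · exact hB.dd h
      · exact hzd'.ne h
  · rw [pr_tht]
    simp only [Pi.add_apply]
    rw [ed_left (nm (hne n2).symm (hz.2.2 m).symm), ed_left (nm (hne n3).symm (hz.2.2 p).symm),
      ed_left (nm (hne n2).symm (hz.2.2 m).symm), chi_nv (Sym2.mem_mk_left _ _) hkv1,
      ed_left (nm (hz.2.2 m).symm (hd.2.2 m).symm), ed_left (nm (hz.2.2 p).symm (hd.2.2 p).symm),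
      ed_left (nm (hz.2.2 m).symm (hd.2.2 m).symm), chi_of_mem (mem_insert_self _ _)]
    rfl

end CR1M

open RCXM CR1M

theorem specCR1 (hTPD : SpecTPD) (hRCX : SpecRCX) (hTRE : SpecTRE) : SpecCR1 := by
  intro α _ _ G u w hR hKZ k l m p z d d' hn hB hkl hmp
  obtain ⟨Q₁, Q₂, h1, h2, hD⟩ := hRCX hR hKZ k l m p z d d' hn hB
  have hd := mem_CC.1 hB.ti.dC
  have hd' := mem_CC.1 hB.tm.dC
  have hp1 : w p ∈ vs Q₁ := h1.right_mem (hd.2.2 p)
  have hl2 : w l ∈ vs Q₂ := h2.right_mem (hd'.2.2 l)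
  have hd1 : d ∈ vs Q₁ := h1.left_mem (hd.2.2 p)
  have hd2 : d' ∈ vs Q₂ := h2.left_mem (hd'.2.2 l)
  obtain ⟨bp, R₁, g1, -, g3, g4, g5, g6, -⟩ := step h1.symm (hd.2.2 p).symm
  obtain ⟨bl, R₂, e1, -, e3, e4, e5, e6, -⟩ := step h2.symm (hd'.2.2 l).symm
  obtain ⟨X, Y, i1, i2, i3, i4, i5, i6, -⟩ := core hTPD hTRE hR hn hB hkl hmp g4 e4 g3
    (fun h => Finset.disjoint_left.1 hD (g5 h) hl2) (fun h => Finset.disjoint_left.1 hD hp1 (e5 h)) e3
    (by
      rw [Finset.disjoint_left]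
      intro x hx hx'
      rw [mem_insert] at hx hx'
      have hx1 : x ∈ vs Q₁ := by
        rcases hx with rfl | hx
        exacts [hd1, g5 hx]
      have hx2 : x ∈ vs Q₂ := by
        rcases hx' with rfl | hx'
        exacts [hd2, e5 hx']
      exact Finset.disjoint_left.1 hD hx1 hx2)
    g1.1 e1.1
  exact ⟨X, Y, i1, i2, i3, i4, i5, i6⟩

end DL
end

section
/-!
MP_3ff0f8_gt, ALGEBRA HALF, R1A block, module CR2 (helper56): the cross configuration at one of two beta-pairs.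
-/
open SimpleGraph Finset

namespace DL

open RCXM CR1M

theorem specCR2 (hTPD : SpecTPD) (hRCX : SpecRCX) (hTRE : SpecTRE) : SpecCR2 := by
  intro α _ _ G u w hR hKZ k l m p z d d' z' e e' hn hB hB'
  obtain ⟨Q₁, Q₂, h1, h2, hD⟩ := hRCX hR hKZ k l m p z d d' hn hB
  have hz := mem_CC.1 hB.ti.cC
  have hd := mem_CC.1 hB.ti.dC
  have hd' := mem_CC.1 hB.tm.dC
  have hz' := mem_CC.1 hB'.ti.cC
  have he := mem_CC.1 hB'.ti.dC
  have he' := mem_CC.1 hB'.tm.dC
  have hp1 : w p ∈ vs Q₁ := h1.right_mem (hd.2.2 p)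
  have hl2 : w l ∈ vs Q₂ := h2.right_mem (hd'.2.2 l)
  have hd1 : d ∈ vs Q₁ := h1.left_mem (hd.2.2 p)
  have hd2 : d' ∈ vs Q₂ := h2.left_mem (hd'.2.2 l)
  have hDD : ∀ x, x ∈ vs Q₁ → x ∉ vs Q₂ := fun x hx hx' => Finset.disjoint_left.1 hD hx hx'
  have h1d := (isPth_del.1 h1).2
  have h2d := (isPth_del.1 h2).2
  have hu1 : u ∉ vs Q₁ := Finset.disjoint_right.1 h1d (by simp)
  have hm1 : w m ∉ vs Q₁ := Finset.disjoint_right.1 h1d (by simp)
  have hu2 : u ∉ vs Q₂ := Finset.disjoint_right.1 h2d (by simp)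
  have hk2 : w k ∉ vs Q₂ := Finset.disjoint_right.1 h2d (by simp)
  have hp2 : w p ∉ vs Q₂ := hDD _ hp1
  -- `z'` is not adjacent to `z`, so `z' ≠ d'`
  have hzz : ∀ {x}, G.Adj z x → x ≠ z' := by
    intro x hx h
    rw [h] at hx
    rcases (hB'.nz z).1 hx.symm with h3 | h3 | h3 | h3
    · exact hz.2.2 _ h3
    · exact hz.2.2 _ h3
    · have h4 : G.Adj z (w l) := h3 ▸ ((hB'.ti.nb e).2 (by simp)).symm
      rcases (hB.nz (w l)).1 h4 with h5 | h5 | h5 | h5
      · have := hR.inj h5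
        subst this
        simp at hn
      · have := hR.inj h5
        subst this
        simp at hn
      · exact hd.2.2 _ h5.symm
      · exact hd'.2.2 _ h5.symm
    · have h4 : G.Adj z (w p) := h3 ▸ ((hB'.tm.nb e').2 (by simp)).symm
      rcases (hB.nz (w p)).1 h4 with h5 | h5 | h5 | h5
      · have := hR.inj h5
        subst this
        simp at hn
      · have := hR.inj h5
        subst this
        simp at hn
      · exact hd.2.2 _ h5.symm
      · exact hd'.2.2 _ h5.symm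
  have hdz' : d' ≠ z' := hzz hB.tm.cd
  obtain ⟨bp, R₁, g1, -, g3, g4, g5, g6, -⟩ := step h1.symm (hd.2.2 p).symm
  obtain ⟨bl, R₂, e1, -, e3, e4, e5, e6, -⟩ := step h2.symm (hd'.2.2 l).symm
  have hbp : bp = z' ∨ bp = e' := by
    rcases (hB'.tm.nb bp).1 g1.1 with h | h | h | h
    · exact absurd (h ▸ g6) hu1
    · exact absurd (h ▸ g6) hm1
    · exact Or.inl h
    · exact Or.inr h
  have hbl : bl = z' ∨ bl = e := by
    rcases (hB'.ti.nb bl).1 e1.1 with h | h | h | h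
    · exact absurd (h ▸ e6) hu2
    · exact absurd (h ▸ e6) hk2
    · exact Or.inl h
    · exact Or.inr h
  -- if `z' ∈ Q₂` then `e' ∈ Q₁`
  have hze : z' ∈ vs Q₂ → e' ∉ vs Q₂ := by
    intro h
    rcases hbp with hb | hb
    · exact absurd h (hDD _ (hb ▸ g6))
    · exact hDD _ (hb ▸ g6)
  -- the path from `e` to `d'`
  have key : ∃ R, IsPth (del G {u, w k, z, w m}) e d' R ∧ vs R ⊆ vs Q₂ ∧ w l ∉ vs R ∧ z' ∉ vs R := by
    have hnz : ∀ {x R}, R ⊆ vs Q₂ → w l ∉ R → x ∈ R → z' ∈ vs Q₂ →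
        (del G {u, w k, z, w m}).Adj z' x → x = e := by
      intro x R hRQ hlR hx hz2 hadj
      rcases (hB'.nz x).1 hadj.1 with h | h | h | h
      · exact absurd (h ▸ hx) hlR
      · exact absurd (hRQ (h ▸ hx)) hp2
      · exact h
      · exact absurd (hRQ (h ▸ hx)) (hze hz2)
    rcases hbl with rfl | rfl
    · obtain ⟨x, R, i1, -, i3, i4, i5, i6, -⟩ := step e4 hdz'.symm
      have hx : x = e := hnz e5 e3 i6 e6 i1
      subst hx
      exact ⟨R, i4, fun v hv => e5 (i5 hv), fun h => e3 (i5 h), i3⟩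
    · refine ⟨R₂, e4, e5, e3, fun h => ?_⟩
      obtain ⟨x, y, hxy, -, -, hx, hy, hvx, hvy⟩ := two_nbs e4 h (hB'.ti.cd.ne) hdz'.symm
      exact hxy ((hnz e5 e3 hx (e5 h) hvx).trans (hnz e5 e3 hy (e5 h) hvy).symm)
  obtain ⟨R, k1, k2, k3, k4⟩ := key
  have hkl : G.Adj (w k) (w l) := (hB.ti.nb _).2 (by simp)
  have hmp : G.Adj (w m) (w p) := (hB.tm.nb _).2 (by simp)
  obtain ⟨X, Y, i1, i2, i3, i4, i5, i6, i7⟩ := core hTPD hTRE hR hn hB hkl hmp g4 k1 g3
    (fun h => hDD _ (g5 h) hl2) (fun h => hDD _ hp1 (k2 h)) k3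
    (by
      rw [Finset.disjoint_left]
      intro x hx hx'
      rw [mem_insert] at hx hx'
      have hx1 : x ∈ vs Q₁ := by
        rcases hx with rfl | hx
        exacts [hd1, g5 hx]
      have hx2 : x ∈ vs Q₂ := by
        rcases hx' with rfl | hx'
        exacts [hd2, k2 hx']
      exact Finset.disjoint_left.1 hD hx1 hx2)
    g1.1 ((hB'.ti.nb e).2 (by simp))
  refine ⟨X, Y, i1, i2, i3, i4, i5, i6, ?_⟩
  have nm : ∀ {x y v : α}, v ≠ x → v ≠ y → v ∉ s(x, y) := by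
    intro x y v h h'
    rw [Sym2.mem_iff, not_or]
    exact ⟨h, h'⟩
  have hzz' : z ≠ z' := by
    rintro rfl
    rcases (hB'.nz (w k)).1 ((hB.nz (w k)).2 (by simp)) with h5 | h5 | h5 | h5
    · have := hR.inj h5
      subst this
      simp at hn
    · have := hR.inj h5
      subst this
      simp at hn
    · exact he.2.2 _ h5.symm
    · exact he'.2.2 _ h5.symm
  have hez' : e ≠ z' := hB'.ti.cd.ne.symm
  have hv : z' ∉ vs (insert s(z, d') R) := by
    intro h
    have := (ev z d' R z').1 (mem_insert_of_mem h)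
    rw [mem_insert] at this
    rcases this with h | h | h
    exacts [hzz' h.symm, hdz' h.symm, k4 h]
  have hlk : w l ≠ w k := by
    intro h
    have := hR.inj h
    subst this
    simp at hn
  rw [i7, pr_tht]
  simp only [Pi.add_apply]
  rw [ed_left (nm hlk.symm (hz'.2.2 k).symm), ed_right (nm (he.2.2 l) hez'),
    ed_left (nm hlk.symm (hz'.2.2 k).symm), chi_nv (Sym2.mem_mk_right _ _) hv,
    ed_left (nm (hz'.2.2 k).symm (he.2.2 k).symm), ed_left (nm (hz'.2.2 l).symm (he.2.2 l).symm),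
    ed_left (nm (hz'.2.2 k).symm (he.2.2 k).symm), chi_nv (Sym2.mem_mk_left _ _) hv]
  rfl

end DL
end
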