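import Pool.Agent.DL.R1A.Spec
import Pool.Agent.DL.EX.INJ

section
/-!
# MP_3ff0f8_gt, R1A block: module `D4X` (helper83)
-/
open SimpleGraph Finset

namespace DL

namespace D4XM

/-- an isolated vertex is only connected to itself -/
theorem eq_of_reach {α : Type} {T : SimpleGraph α} {a w : α} (ha : ∀ x, ¬ T.Adj a x)
    (h : T.Reachable a w) : a = w := by
  obtain ⟨p⟩ := h
  cases p with
  | nil => rfl
  | cons h _ => exact absurd h (ha _)

/-- `u` is not in a chain of `G - u` between other vertices -/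
theorem not_mem {α : Type} [Fintype α] [DecidableEq α] {G : SimpleGraph α} {u x y : α}
    (K : Ch2 (del G {u}) x y) (hx : x ≠ u) (hy : y ≠ u) (i : Fin 3) : u ∉ K.X i := by
  intro haX
  have hiso : ∀ z, ¬ (K.T i).Adj u z := fun z hz => ((K.sub i) hz).2.1 (mem_singleton_self u)
  have key : ∀ w ∈ K.X i, w ≠ u → False := by
    intro w hw hwS
    exact hwS (eq_of_reach hiso (K.conn i u haX w hw)).symm
  fin_cases i
  · exact key x K.sX hx
  · exact key (K.q 0 false) (K.qX 0 false) fun h => (K.adj 0 false).2.2 (by rw [h]; simp)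
  · exact key y K.tX hy

/-- the four trees -/
def XX {α : Type} [Fintype α] [DecidableEq α] {G : SimpleGraph α} {s t : α} (K : Ch2 G s t)
    (u : α) : Fin 4 → Finset α := ![K.X 0, K.X 1, K.X 2, {u}]

theorem un4 {β : Type} [DecidableEq β] (E : Fin 4 → β) (P : Fin 4 → Finset β) :
    univ.image E ∪ univ.biUnion P =
      {E 3, E 2} ∪ (P 3 ∪ {E 0} ∪ P 0 ∪ {E 1} ∪ P 1 ∪ P 2) := by
  ext x
  constructor
  · intro h
    rw [mem_union, mem_image, mem_biUnion] at h
    rcases h with ⟨i, _, rfl⟩ | ⟨i, _, hi⟩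
    · fin_cases i <;> simp
    · fin_cases i <;> simp at hi <;> simp [hi]
  · intro h
    rw [mem_union, mem_image, mem_biUnion]
    simp only [mem_insert, mem_union, mem_singleton] at h
    rcases h with (rfl | rfl) | (((((h | rfl) | h) | rfl) | h) | h)
    · exact Or.inl ⟨3, mem_univ _, rfl⟩
    · exact Or.inl ⟨2, mem_univ _, rfl⟩
    · exact Or.inr ⟨3, mem_univ _, h⟩
    · exact Or.inl ⟨0, mem_univ _, rfl⟩
    · exact Or.inr ⟨0, mem_univ _, h⟩
    · exact Or.inl ⟨1, mem_univ _, rfl⟩
    · exact Or.inr ⟨1, mem_univ _, h⟩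
    · exact Or.inr ⟨2, mem_univ _, h⟩

/-- the minor -/
theorem minor (hTRE : SpecTRE) {α : Type} [Fintype α] [DecidableEq α] {G : SimpleGraph α}
    {u s t s' t' : α} (K : Ch2 (del G {u}) s t) (hs' : s' ∈ K.X 0) (ht' : t' ∈ K.X 2)
    (hss : s ≠ s') (htt : t ≠ t') (hus : G.Adj u s) (hus' : G.Adj u s') (hut : G.Adj u t)
    (hut' : G.Adj u t') :
    ∃ D : D4M G, ∀ e : Fin 4 → Bool, D.cyc e =
      {s(u, if e 3 then s' else s), s(u, if e 2 then t' else t)} ∪
        (tp (K.T 0) (if e 3 then s' else s) (K.p 0 (e 0)) ∪ {s(K.p 0 (e 0), K.q 0 (e 0))} ∪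
          tp (K.T 1) (K.q 0 (e 0)) (K.p 1 (e 1)) ∪ {s(K.p 1 (e 1), K.q 1 (e 1))} ∪
          tp (K.T 2) (K.q 1 (e 1)) (if e 2 then t' else t)) := by
  have hu := not_mem K hus.ne' hut.ne'
  obtain ⟨tu, tue⟩ := hTRE.single u
  let D : D4M G :=
    { X := ![K.X 0, K.X 1, K.X 2, {u}]
      disj := by
        intro i j hij
        fin_cases i <;> fin_cases j
        · exact absurd rfl hij
        · exact K.disj 0 1 (by decide)
        · exact K.disj 0 2 (by decide)
        · simpa using hu 0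
        · exact K.disj 1 0 (by decide)
        · exact absurd rfl hij
        · exact K.disj 1 2 (by decide)
        · simpa using hu 1
        · exact K.disj 2 0 (by decide)
        · exact K.disj 2 1 (by decide)
        · exact absurd rfl hij
        · simpa using hu 2
        · simpa using hu 0
        · simpa using hu 1
        · simpa using hu 2
        · exact absurd rfl hij
      T := ![K.T 0, K.T 1, K.T 2, ⊥]
      sub := by
        intro i
        fin_cases i
        · exact (K.sub 0).trans fun _ _ h => h.1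
        · exact (K.sub 1).trans fun _ _ h => h.1
        · exact (K.sub 2).trans fun _ _ h => h.1
        · exact bot_le
      inX := by
        intro i
        fin_cases i
        · exact K.inX 0
        · exact K.inX 1
        · exact K.inX 2
        · exact tu.inX
      conn := by
        intro i
        fin_cases i
        · exact K.conn 0
        · exact K.conn 1
        · exact K.conn 2
        · exact tu.conn
      acyc := by
        intro i
        fin_cases i
        · exact K.acyc 0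
        · exact K.acyc 1
        · exact K.acyc 2
        · exact tu.acyc
      p := ![K.p 0, K.p 1, fun b => if b then t' else t, fun _ => u]
      q := ![K.q 0, K.q 1, fun _ => u, fun b => if b then s' else s]
      pX := by
        intro i b
        fin_cases i
        · exact K.pX 0 b
        · exact K.pX 1 b
        · show (if b then t' else t) ∈ K.X 2
          cases b
          · exact K.tX
          · exact ht'
        · show u ∈ ({u} : Finset α)
          simp
      qX := by
        intro i b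
        fin_cases i
        · exact K.qX 0 b
        · exact K.qX 1 b
        · show u ∈ ({u} : Finset α)
          simp
        · show (if b then s' else s) ∈ K.X 0
          cases b
          · exact K.sX
          · exact hs'
      adj := by
        intro i b
        fin_cases i
        · exact (K.adj 0 b).1
        · exact (K.adj 1 b).1
        · show G.Adj (if b then t' else t) u
          cases b
          · exact hut.symm
          · exact hut'.symm
        · show G.Adj u (if b then s' else s)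
          cases b
          · exact hus
          · exact hus'
      ne := by
        intro i
        fin_cases i
        · exact K.ne 0
        · exact K.ne 1
        · show s(t, u) ≠ s(t', u)
          intro h
          exact htt (Sym2.congr_left.1 h)
        · show s(u, s) ≠ s(u, s')
          intro h
          exact hss (Sym2.congr_right.1 h) }
  refine ⟨D, fun e => ?_⟩
  have h1 : D.cyc e = _ := un4 (fun i => s(D.p i (e i), D.q i (e i)))
    (fun i => tp (D.T (i + 1)) (D.q i (e i)) (D.p (i + 1) (e (i + 1))))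
  rw [h1]
  have h2 : tp (⊥ : SimpleGraph α) u u = ∅ := tue
  show ({s(u, if e 3 then s' else s), s((if e 2 then t' else t), u)} ∪
    (tp (K.T 0) (if e 3 then s' else s) (K.p 0 (e 0)) ∪ {s(K.p 0 (e 0), K.q 0 (e 0))} ∪
      tp (K.T 1) (K.q 0 (e 0)) (K.p 1 (e 1)) ∪ {s(K.p 1 (e 1), K.q 1 (e 1))} ∪
      tp (K.T 2) (K.q 1 (e 1)) (if e 2 then t' else t) ∪ tp (⊥ : SimpleGraph α) u u) :
        Finset (Sym2 α)) = _
  rw [h2, union_empty, Sym2.eq_swap (a := (if e 2 then t' else t)) (b := u)]

/-- the cube -/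
def cube : Bool × Bool × Bool × Bool ≃ (Fin 4 → Bool) where
  toFun x := ![x.1, x.2.1, x.2.2.1, x.2.2.2]
  invFun e := (e 0, e 1, e 2, e 3)
  left_inv _ := rfl
  right_inv e := by
    funext i
    fin_cases i <;> rfl

def sq : Bool × Bool ≃ (Fin 2 → Bool) where
  toFun x := ![x.1, x.2]
  invFun e := (e 0, e 1)
  left_inv _ := rfl
  right_inv e := by
    funext i
    fin_cases i <;> rfl

theorem sum16' (H : Bool → Bool → Bool → Bool → ZMod 2) :
    ∑ e : Fin 4 → Bool, H (e 0) (e 1) (e 2) (e 3) =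
      ∑ b2 : Bool, ∑ b3 : Bool, ∑ e : Fin 2 → Bool, H (e 0) (e 1) b2 b3 := by
  have h1 : ∑ e : Fin 4 → Bool, H (e 0) (e 1) (e 2) (e 3) =
      ∑ b0 : Bool, ∑ b1 : Bool, ∑ b2 : Bool, ∑ b3 : Bool, H b0 b1 b2 b3 := by
    rw [← cube.sum_comp (fun e => H (e 0) (e 1) (e 2) (e 3))]
    simp only [Fintype.sum_prod_type]
    rfl
  have h2 : ∀ b2 b3 : Bool, ∑ e : Fin 2 → Bool, H (e 0) (e 1) b2 b3 =
      ∑ b0 : Bool, ∑ b1 : Bool, H b0 b1 b2 b3 := by
    intro b2 b3
    rw [← sq.sum_comp (fun e => H (e 0) (e 1) b2 b3)]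
    simp only [Fintype.sum_prod_type]
    rfl
  rw [h1]
  simp only [h2, Fintype.sum_bool]
  ring

end D4XM

open D4XM in
theorem specD4X (hTRE : SpecTRE) (hBDF : SpecBDF) : SpecD4X := by
  intro α _ _ G u s t s' t' f hf K hs' ht' hss htt hus hus' hut hut' b b₁ b₂ b₃ hb hb1 hb2 hb3
  obtain ⟨D, hD⟩ := minor hTRE K hs' ht' hss htt hus hus' hut hut'
  have h1 := hf D
  simp only [hD] at h1
  have h2 := sum16' (fun e0 e1 e2 e3 => f ({s(u, if e3 then s' else s), s(u, if e2 then t' else t)} ∪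
        (tp (K.T 0) (if e3 then s' else s) (K.p 0 e0) ∪ {s(K.p 0 e0, K.q 0 e0)} ∪
          tp (K.T 1) (K.q 0 e0) (K.p 1 e1) ∪ {s(K.p 1 e1, K.q 1 e1)} ∪
          tp (K.T 2) (K.q 1 e1) (if e2 then t' else t))))
  rw [h2] at h1
  simp only [Fintype.sum_bool, if_true, if_false, Bool.false_eq_true] at h1
  -- the four chains
  have key : ∀ {x y : α} (b : Sym2 α → Sym2 α → ZMod 2), x ∈ K.X 0 → y ∈ K.X 2 →
      Rep (del G {u}) x y (fun P => f ({s(u, x), s(u, y)} ∪ P)) b →
      ∑ e : Fin 2 → Bool, f ({s(u, x), s(u, y)} ∪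
        (tp (K.T 0) x (K.p 0 (e 0)) ∪ {s(K.p 0 (e 0), K.q 0 (e 0))} ∪
          tp (K.T 1) (K.q 0 (e 0)) (K.p 1 (e 1)) ∪ {s(K.p 1 (e 1), K.q 1 (e 1))} ∪
          tp (K.T 2) (K.q 1 (e 1)) y)) = frm b K.bd0 K.bd1 := by
    intro x y b hx hy hb
    obtain ⟨K', -, hT, hp, hq, h0, h1⟩ := hBDF.re K hx hy
    have h3 := hb K'
    rw [h0, h1] at h3
    rw [← h3]
    refine sum_congr rfl fun e _ => ?_
    simp only [Ch2.pth, hT, hp, hq]
  rw [key b K.sX K.tX hb, key b₁ K.sX ht' hb1, key b₂ hs' K.tX hb2, key b₃ hs' ht' hb3] at h1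
  rw [frm_add, frm_add, frm_add]
  rw [← h1]
  ring

end DL
end

section
/-!
# Module DGC (R1A block): the diagonal of an element of `K_st` is a cut
-/
open SimpleGraph Finset

namespace DL

set_option linter.unusedSectionVars false

namespace DGCM

variable {α : Type} [Fintype α] [DecidableEq α]

/-- the sum of `μ` over the two orientations of `e` -/
def fib (μ : α → α → ZMod 2) (e : Sym2 α) : ZMod 2 :=
  ∑ x ∈ univ.filter (fun x : α × α => s(x.1, x.2) = e), μ x.1 x.2

theorem sum_fib (μ : α → α → ZMod 2) (Z : Sym2 α → ZMod 2) :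
    ∑ c, ∑ d, μ c d * Z s(c, d) = ∑ e, fib μ e * Z e := by
  rw [← Fintype.sum_prod_type' (f := fun c d => μ c d * Z s(c, d)),
    ← Finset.sum_fiberwise_of_maps_to (s := univ) (t := univ)
      (g := fun x : α × α => s(x.1, x.2)) (fun _ _ => mem_univ _)]
  refine sum_congr rfl fun e _ => ?_
  rw [fib, sum_mul]
  refine sum_congr rfl fun x hx => ?_
  rw [(mem_filter.1 hx).2]

theorem fib_pair (μ : α → α → ZMod 2) {c d : α} (hcd : c ≠ d) : fib μ s(c, d) = μ c d + μ d c := by
  have h : univ.filter (fun x : α × α => s(x.1, x.2) = s(c, d)) = {(c, d), (d, c)} := by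
    ext ⟨x, y⟩
    simp only [mem_filter, mem_univ, true_and, Sym2.eq_iff, mem_insert, mem_singleton,
      Prod.mk.injEq]
  have hne : ((c, d) : α × α) ≠ (d, c) := fun h => hcd (Prod.ext_iff.1 h).1
  rw [fib, h, sum_pair hne]

theorem sum_single (μ : α → α → ZMod 2) (s t : α) (g : α → α → α → α → ZMod 2) :
    ∑ a, ∑ b, ∑ c, ∑ d, (if a = t ∧ b = s then μ c d else 0) * g a b c d =
      ∑ c, ∑ d, μ c d * g t s c d := by
  rw [sum_eq_single t, sum_eq_single s]
  · simp
  · intro b _ hb
    simp [hb]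
  · simp
  · intro a _ ha
    simp [ha]
  · simp

end DGCM

open DGCM

theorem specDGC (hHBF : SpecHBF) (hRT1 : SpecRT1) (hLPE : SpecLPE) (hPOL : SpecPOL) : SpecDGC := by
  intro α _ _ N N₁ s t hst hKZ hle hst1 hS3 hs ht b hb
  obtain ⟨q, μ, hq, hq0, hqp, hμ0, hμ, hchain⟩ := hHBF b hb.1
  obtain ⟨w0, w, hw⟩ := hRT1 (delE N s t) s t hst.ne
    (fun P => q (chi P) + ∑ c, ∑ d, μ c d * dirn s c d P)
    (fun K => (hchain K).1.trans (hb.2 K))
  -- the coherence functions of `μ` are cubic
  have hcub : InP3 N (fun C => ∑ a, ∑ b, ∑ c, ∑ d, (if a = t ∧ b = s then μ c d else 0) *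
      coh a b c d C) := by
    refine ⟨fun c => c s(s, t) * (q (c + ed s t) + ((w0 + pr w (c + ed s t)) + (μ t s + μ s t))),
      ?_, ?_, ?_⟩
    · have h1 : DegLE 1 (fun c : Chain α => c s(s, t)) := hPOL.ofAdd fun a b => rfl
      have h2 : DegLE 2 (fun c : Chain α => q (c + ed s t)) := hPOL.shift (ed s t) hq
      have h3 : DegLE 1 (fun c : Chain α => pr w c) := hPOL.ofAdd fun a b => pr_add' w a b
      have h4 : DegLE 2 (fun c : Chain α => pr w (c + ed s t)) :=
        hPOL.shift (ed s t) (hPOL.mono (by norm_num) h3)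
      have h5 := hPOL.add h2 (hPOL.add (hPOL.add (hPOL.const (A := Chain α) 2 w0) h4)
        (hPOL.const (A := Chain α) 2 (μ t s + μ s t)))
      exact hPOL.mul h1 h5
    · simp
    · intro C hC
      show ∑ a, ∑ b, ∑ c, ∑ d, (if a = t ∧ b = s then μ c d else 0) * coh a b c d C =
        chi C s(s, t) * (q (chi C + ed s t) + ((w0 + pr w (chi C + ed s t)) + (μ t s + μ s t)))
      rw [sum_single μ s t (fun a b c d => coh a b c d C)]
      by_cases hm : s(t, s) ∈ C
      · have hm' : s(s, t) ∈ C := by rwa [Sym2.eq_swap] at hm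
        have hP : IsPth (delE N s t) s t (C \ {s(t, s)}) := by
          rw [isPth_delE]
          refine ⟨hC.isPth' hm, ?_⟩
          rw [Sym2.eq_swap]
          simp
        have h1 := hw _ hP
        have hchi : chi (C \ {s(t, s)}) = chi C + ed s t := by
          rw [chi_sdiff (by simpa using hm), Sym2.eq_swap]
          rfl
        have h2 : ∑ c, ∑ d, μ c d * coh t s c d C =
            ∑ c, ∑ d, μ c d * dirn s c d (C \ {s(t, s)}) + ∑ c, ∑ d, μ c d * ed t s s(c, d) := by
          rw [← sum_add_distrib]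
          refine sum_congr rfl fun c _ => ?_
          rw [← sum_add_distrib]
          refine sum_congr rfl fun d _ => ?_
          rw [← mul_add]
          congr 1
          by_cases he : s(c, d) = s(t, s)
          · have h3 : dirn s c d (C \ {s(t, s)}) = 0 :=
              dirn_eq_zero_of_notMem (by rw [he]; simp)
            rw [h3, zero_add, ed_apply, if_pos he]
            rw [Sym2.eq_iff] at he
            rcases he with ⟨rfl, rfl⟩ | ⟨rfl, rfl⟩
            · rw [hC.coh_self, chi_of_mem hm]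
            · rw [coh_self_rev, chi_of_mem hm]
          · rw [coh_eq_dirn hm he, ed_apply, if_neg he, add_zero]
        have h3 : ∑ c, ∑ d, μ c d * ed t s s(c, d) = μ t s + μ s t := by
          rw [sum_fib μ (ed t s), sum_eq_single s(t, s)]
          · rw [fib_pair μ hst.ne', ed_apply, if_pos rfl, mul_one]
          · intro e _ he
            rw [ed_apply, if_neg he, mul_zero]
          · intro h
            exact absurd (mem_univ _) h
        have h4 : ∑ h ∈ C \ {s(t, s)}, w h = pr w (chi C + ed s t) := by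
          rw [← hchi]
          exact (sum_mul_chi w _).symm
        rw [h2, h3, chi_of_mem hm', one_mul]
        rw [h4, hchi] at h1
        have h5 : ∑ c, ∑ d, μ c d * dirn s c d (C \ {s(t, s)}) =
            q (chi C + ed s t) + (w0 + pr w (chi C + ed s t)) := by
          rw [← h1, ← add_assoc, zmod2_add_self, zero_add]
        rw [h5, add_assoc]
      · have hm' : s(s, t) ∉ C := by rwa [Sym2.eq_swap] at hm
        rw [chi_of_notMem hm', zero_mul]
        refine sum_eq_zero fun c _ => sum_eq_zero fun d _ => ?_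
        rw [coh_eq_zero_left hm, mul_zero]
  have hzero := hKZ _ hcub
  -- the diagonal is orthogonal to the cycle space of `N₁ - s - t`
  have horth : ∀ Z ∈ Z1 (del N₁ {s, t}), ∑ e, fib μ e * Z e = 0 := by
    intro Z hZ
    obtain ⟨z, hz, hzZ⟩ := hLPE.edge hst1 hS3 hs ht Z hZ
    have hz' : IsZ2 N z := ⟨hz.1, fun e f hne =>
      ⟨edgeSet_mono hle (hz.2.1 e f hne).1, edgeSet_mono hle (hz.2.1 e f hne).2.1,
        (hz.2.1 e f hne).2.2⟩, hz.2.2⟩
    have h1 := hzero z hz'
    rw [sum_single μ s t (fun a b c d => z s(a, b) s(c, d))] at h1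
    rw [← sum_fib μ Z, ← h1]
    refine sum_congr rfl fun c _ => sum_congr rfl fun d _ => ?_
    rw [Sym2.eq_swap (a := t), hzZ]
  obtain ⟨σ, hσ⟩ := cut horth
  refine ⟨σ, fun c d hcd => ?_⟩
  rw [← hσ c d hcd, fib_pair μ hcd.ne, hμ c d hcd.ne]

end DL
end

section
/-!
MP_3ff0f8_gt, ALGEBRA HALF, R1A block: module DGM (helper35).
-/
open SimpleGraph Finset

namespace DL

namespace DGMM

set_option linter.unusedSectionVars false

variable {α : Type} [Fintype α] [DecidableEq α] {G : SimpleGraph α} {u : α} {w : Fin 4 → α}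

theorem mm_adj (x y : α) : (MM G u w).Adj x y ↔ (del G {u}).Adj x y ∧ ¬ ∃ i j, s(x, y) = s(w i, w j) := by
  unfold MM
  rw [deleteEdges_adj]
  rfl

/-- a trace at `w k` in `M` extends to a cycle avoiding the `w l`, `l ∈ S` -/
theorem ext (hTRC : SpecTRC) (hCWC : SpecCWC) (h : R1 G u w) (k : Fin 4) (S : Finset (Fin 4))
    (hk : k ∉ S) (hS : insert k S ≠ univ) (T : Chain α)
    (hT : ∀ e, T e ≠ 0 → e ∈ (MM G u w).edgeSet ∧ w k ∈ e) (hT0 : ∑ e, T e = 0) :
    ∃ Z ∈ Z1 (MM G u w), (∀ e, w k ∈ e → Z e = T e) ∧ ∀ l ∈ S, ∀ e, w l ∈ e → Z e = 0 := by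
  have h1 : w k ∉ S.image w := by
    rw [mem_image]
    rintro ⟨l, hl, hlk⟩
    exact hk (h.inj hlk ▸ hl)
  have h2 : insert (w k) (S.image w) = (insert k S).image w := by rw [image_insert]
  have h3 : ConnOff (MM G u w) (insert (w k) (S.image w)) := by
    rw [h2]
    refine hCWC.conn h _ (image_subset_image (subset_univ _)) fun h4 => hS ?_
    exact image_injective h.inj h4
  have h4 : ∀ e, T e ≠ 0 → e ∈ (del (MM G u w) (S.image w)).edgeSet ∧ w k ∈ e := by
    intro e he
    obtain ⟨h5, h6⟩ := hT e he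
    refine ⟨?_, h6⟩
    induction e using Sym2.ind with
    | _ a b =>
      have h7 : (MM G u w).Adj a b := h5
      have h8 : ∀ i j, ¬ s(a, b) = s(w i, w j) := fun i j h9 => ((mm_adj a b).1 h7).2 ⟨i, j, h9⟩
      refine ⟨h7, ?_, ?_⟩
      · intro h9
        obtain ⟨l, hl, rfl⟩ := mem_image.1 h9
        rcases Sym2.mem_iff.1 h6 with h10 | h10
        · exact hk (h.inj h10 ▸ hl)
        · exact h8 l k (by rw [h10])
      · intro h9
        obtain ⟨l, hl, rfl⟩ := mem_image.1 h9
        rcases Sym2.mem_iff.1 h6 with h10 | h10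
        · exact h8 k l (by rw [h10])
        · exact hk (h.inj h10 ▸ hl)
  obtain ⟨Z, hZ, hZT⟩ := hTRC (MM G u w) (S.image w) (w k) h1 h3 T h4 hT0
  refine ⟨Z, Z1_mono (G := del (MM G u w) (S.image w)) (fun a b hab => hab.1) hZ, hZT,
    fun l hl e he => ?_⟩
  by_contra h5
  have h6 := (mem_Z1.1 hZ).1 e h5
  induction e using Sym2.ind with
  | _ a b =>
    have h7 : (del (MM G u w) (S.image w)).Adj a b := h6
    rcases Sym2.mem_iff.1 he with h8 | h8
    · exact h7.2.1 (mem_image.2 ⟨l, hl, h8⟩)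
    · exact h7.2.2 (mem_image.2 ⟨l, hl, h8⟩)

/-- a cycle of `M` with the same edges at `w k` which avoids the `w l`, `l ∈ S` -/
theorem loc (hTRC : SpecTRC) (hCWC : SpecCWC) (h : R1 G u w) (k : Fin 4) (S : Finset (Fin 4))
    (hk : k ∉ S) (hS : insert k S ≠ univ) (X : Chain α) (hX : X ∈ Z1 (MM G u w)) :
    ∃ Z ∈ Z1 (MM G u w), (∀ e, w k ∈ e → Z e = X e) ∧ ∀ l ∈ S, ∀ e, w l ∈ e → Z e = 0 := by
  obtain ⟨Z, h1, h2, h3⟩ := ext hTRC hCWC h k S hk hS (fun e => if w k ∈ e then X e else 0) (by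
    intro e he
    by_cases h1 : w k ∈ e
    · rw [if_pos h1] at he
      exact ⟨(mem_Z1.1 hX).1 e he, h1⟩
    · rw [if_neg h1] at he
      exact absurd rfl he) (by
    rw [← bdy_eq_sum_ite]
    exact (mem_Z1.1 hX).2 _)
  refine ⟨Z, h1, fun e he => ?_, h3⟩
  rw [h2 e he, if_pos he]

end DGMM

open DGMM in
theorem specDGM (hTRC : SpecTRC) (hCWC : SpecCWC) : SpecDGM := by
  intro α _ _ G u w h r hr h0 k X hX Y hY
  obtain ⟨S₁, S₂, hk1, hk2, hS1, hS2, hS⟩ : ∃ S₁ S₂ : Finset (Fin 4), k ∉ S₁ ∧ k ∉ S₂ ∧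
      insert k S₁ ≠ univ ∧ insert k S₂ ≠ univ ∧ ∀ l, l ≠ k → l ∈ S₁ ∨ l ∈ S₂ := by
    fin_cases k
    · exact ⟨{1, 2}, {3}, by decide⟩
    · exact ⟨{0, 2}, {3}, by decide⟩
    · exact ⟨{0, 1}, {3}, by decide⟩
    · exact ⟨{0, 1}, {2}, by decide⟩
  obtain ⟨X', hX', hXe, hX0⟩ := loc hTRC hCWC h k S₁ hk1 hS1 X hX
  obtain ⟨Y', hY', hYe, hY0⟩ := loc hTRC hCWC h k S₂ hk2 hS2 Y hY
  have h1 := h0 X' hX' Y' hY'
  rw [sum_eq_single k] at h1
  · rw [← h1]
    exact frm_at_congr (hr k) (fun e he => (hXe e he).symm) fun e he => (hYe e he).symm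
  · intro l _ hl
    rcases hS l hl with h2 | h2
    · exact frm_at (hr l) (Or.inl (hX0 l h2))
    · exact frm_at (hr l) (Or.inr (hY0 l h2))
  · intro h2
    exact absurd (mem_univ k) h2

end DL
end

section
/-!
MP_3ff0f8_gt, ALGEBRA HALF, R1A block: module RPQ (helper35).
-/
open SimpleGraph Finset

namespace DL

namespace RPQM

set_option linter.unusedSectionVars false

variable {α : Type} [Fintype α] [DecidableEq α]

/-- sums over the four choices -/
theorem sum4 (f : (Fin 2 → Bool) → ZMod 2) : ∑ e : Fin 2 → Bool, f e =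
    f ![false, false] + f ![false, true] + f ![true, false] + f ![true, true] := by
  have h : ∀ e : Fin 2 → Bool, e = ![e 0, e 1] := by
    intro e
    funext i
    fin_cases i <;> rfl
  rw [← (finTwoArrowEquiv Bool).symm.sum_comp, Fintype.sum_prod_type]
  simp only [Fintype.sum_bool]
  have h1 : ∀ a b : Bool, (finTwoArrowEquiv Bool).symm (a, b) = ![a, b] := by
    intro a b
    funext i
    fin_cases i <;> rfl
  rw [h1, h1, h1, h1]
  ring

theorem add4 {a b c d : ZMod 2} {e f g h : ZMod 2}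
    (H : a + b + c + d + e + f + g + h = 0) : b + e + f + h = a + c + d + g := by
  have h2 : (2 : ZMod 2) = 0 := rfl
  have : b + e + f + h - (a + c + d + g) = (a + b + c + d + e + f + g + h) - 2 * (a + c + d + g) := by
    ring
  rw [H, h2, zero_mul, sub_zero] at this
  exact sub_eq_zero.1 this

/-- the polar form of a quadratic function is additive -/
theorem polar_add (hPOL : SpecPOL) {q : Chain α → ZMod 2} (hq : DegLE 2 q) (X X' Y : Chain α) :
    q 0 + q (X + X') + q Y + q (X + X' + Y) =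
      (q 0 + q X + q Y + q (X + Y)) + (q 0 + q X' + q Y + q (X' + Y)) := by
  have h := hPOL.two hq 0 X X' Y
  simp only [zero_add] at h
  have h2 : (2 : ZMod 2) = 0 := rfl
  have : q 0 + q (X + X') + q Y + q (X + X' + Y) -
      ((q 0 + q X + q Y + q (X + Y)) + (q 0 + q X' + q Y + q (X' + Y))) =
      (q 0 + q X + q X' + q Y + q (X + X') + q (X + Y) + q (X' + Y) + q (X + X' + Y)) -
        2 * (q 0 + q X + q X' + q Y + q (X + Y) + q (X' + Y)) := by ring
  rw [h, h2, zero_mul, sub_zero] at this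
  exact sub_eq_zero.1 this

/-- the unit chain -/
def dl (e : Sym2 α) : Chain α := Pi.single e 1

/-- an additive function on chains -/
theorem additive_eq (f : Chain α → ZMod 2) (hf : ∀ X X', f (X + X') = f X + f X') (X : Chain α) :
    f X = ∑ e, X e * f (dl e) := by
  have h0 : f 0 = 0 := by
    have := hf 0 0
    rw [add_zero] at this
    have h1 : f 0 + f 0 = 0 := zmod2_add_self _
    rw [← this] at h1
    exact h1
  let F : Chain α →+ ZMod 2 := { toFun := f, map_zero' := h0, map_add' := hf }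
  have h1 : X = ∑ e, Pi.single e (X e) := (Finset.univ_sum_single X).symm
  have h2 : f X = ∑ e, f (Pi.single e (X e)) := by
    conv_lhs => rw [h1]
    exact map_sum F _ _
  rw [h2]
  refine sum_congr rfl fun e _ => ?_
  rcases zmod2_cases (X e) with h | h
  · rw [h, Pi.single_zero, h0, zero_mul]
  · rw [h, one_mul]
    rfl

theorem pr_one (x : Sym2 α) (c : Chain α) : pr (chi {x}) c = c x := by
  unfold pr chi
  rw [sum_eq_single x]
  · simp
  · intro e _ he
    simp [he]
  · simp

end RPQM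

open RPQM in
theorem specRPQ (hPOL : SpecPOL) (hBDF : SpecBDF) : SpecRPQ where
  pol := by
    intro α _ _ G s t K q hq a
    have hsw : ∀ x y : Bool, a + chi (K.pth ![x, y]) = a + chi (K.pth ![false, false]) +
        (if x then K.bd0 else 0) + (if y then K.bd1 else 0) := by
      intro x y
      rw [hBDF.sw K ![x, y]]
      cases x <;> cases y <;> simp [add_assoc]
    rw [sum4, hsw false false, hsw false true, hsw true false, hsw true true]
    simp only [Bool.false_eq_true, if_false, if_true, add_zero]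
    have h := add4 (hPOL.two hq 0 (a + chi (K.pth ![false, false])) K.bd0 K.bd1)
    simp only [zero_add] at h
    rw [← h]
    ring
  form := by
    intro α _ _ q hq
    have h20 : (2 : ZMod 2) = 0 := rfl
    refine ⟨fun e f => q 0 + q (dl e) + q (dl f) + q (dl e + dl f), ?_, ?_, ?_⟩
    · intro e f
      show q 0 + q (dl e) + q (dl f) + q (dl e + dl f) = q 0 + q (dl f) + q (dl e) + q (dl f + dl e)
      rw [add_comm (dl f) (dl e)]
      ring
    · intro e
      show q 0 + q (dl e) + q (dl e) + q (dl e + dl e) = 0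
      rw [chain_add_self]
      linear_combination (q 0 + q (dl e)) * h20
    · intro X Y
      have h1 := additive_eq (fun X => q 0 + q X + q Y + q (X + Y))
        (fun X X' => polar_add hPOL hq X X' Y) X
      have h2 : ∀ e : Sym2 α, q 0 + q (dl e) + q Y + q (dl e + Y) =
          ∑ f, Y f * (q 0 + q (dl e) + q (dl f) + q (dl e + dl f)) := by
        intro e
        refine additive_eq (fun Y => q 0 + q (dl e) + q Y + q (dl e + Y)) ?_ Y
        intro Z Z'
        have := polar_add hPOL hq Z Z' (dl e)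
        show q 0 + q (dl e) + q (Z + Z') + q (dl e + (Z + Z')) =
          (q 0 + q (dl e) + q Z + q (dl e + Z)) + (q 0 + q (dl e) + q Z' + q (dl e + Z'))
        rw [add_comm (dl e) (Z + Z'), add_comm (dl e) Z, add_comm (dl e) Z']
        linear_combination this
      have h1' : q 0 + q X + q Y + q (X + Y) =
          ∑ e, X e * (q 0 + q (dl e) + q Y + q (dl e + Y)) := h1
      rw [h1']
      unfold frm
      refine sum_congr rfl fun e _ => ?_
      rw [h2 e, mul_sum]
      refine sum_congr rfl fun f _ => ?_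
      ring
  real := by
    intro α _ _ b hb
    classical
    let o : Sym2 α → ℕ := fun e => (Fintype.equivFin (Sym2 α) e : ℕ)
    have ho : ∀ e f, o e = o f → e = f := by
      intro e f h
      exact (Fintype.equivFin (Sym2 α)).injective (Fin.ext h)
    refine ⟨fun c => ∑ e, ∑ f, if o e < o f then b e f * (c e * c f) else 0, ?_, ?_, ?_⟩
    · refine hPOL.sum _ _ fun e _ => hPOL.sum _ _ fun f _ => ?_
      by_cases h : o e < o f
      · simp only [h, if_true]
        have h1 := hPOL.mul (hPOL.const (A := Chain α) 0 (b e f))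
          (hPOL.mul (hPOL.ofAdd (f := fun c : Chain α => c e) fun _ _ => rfl)
            (hPOL.ofAdd (f := fun c : Chain α => c f) fun _ _ => rfl))
        exact h1
      · simp only [h, if_false]
        exact hPOL.zero _
    · simp
    · intro X Y
      have h2 : (2 : ZMod 2) = 0 := rfl
      have h3 : ∑ e, ∑ f, (if o e < o f then b e f * (Y e * X f) else 0) =
          ∑ e, ∑ f, (if o f < o e then b e f * (X e * Y f) else 0) := by
        rw [sum_comm]
        refine sum_congr rfl fun e _ => sum_congr rfl fun f _ => ?_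
        rw [hb f e, mul_comm (Y f)]
      have h4 : ∑ e, ∑ f, (if o e < o f then b e f * (X e * X f) else 0) +
          ∑ e, ∑ f, (if o e < o f then b e f * (Y e * Y f) else 0) +
          ∑ e, ∑ f, (if o e < o f then b e f * ((X + Y) e * (X + Y) f) else 0) =
          ∑ e, ∑ f, (if o e < o f then b e f * (X e * Y f) else 0) +
          ∑ e, ∑ f, (if o e < o f then b e f * (Y e * X f) else 0) := by
        simp only [← sum_add_distrib]
        refine sum_congr rfl fun e _ => sum_congr rfl fun f _ => ?_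
        split_ifs
        · simp only [Pi.add_apply]
          linear_combination (b e f * (X e * X f + Y e * Y f)) * h2
        · ring
      rw [h4, h3]
      simp only [← sum_add_distrib]
      refine sum_congr rfl fun e _ => sum_congr rfl fun f _ => ?_
      by_cases hef : e = f
      · subst hef
        simp
      · rw [if_neg hef]
        rcases lt_trichotomy (o e) (o f) with h | h | h
        · rw [if_pos h, if_neg (not_lt.2 h.le), add_zero]
        · exact absurd (ho e f h) hef
        · rw [if_neg (not_lt.2 h.le), if_pos h, zero_add]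
  pr := by
    intro α _ _ J a ρ hρ
    have h2 : (2 : ZMod 2) = 0 := rfl
    unfold PR at hρ
    refine Submodule.span_induction (p := fun ρ _ => ∃ g : Sym2 α → Sym2 α → ZMod 2, At a g ∧
      (∀ e, g e e = 0) ∧ ∀ X Y : Chain α, ρ X + ρ Y + ρ (X + Y) = frm g X Y) ?_ ?_ ?_ ?_ hρ
    · rintro _ ⟨x, hx, y, hy, hxy, rfl⟩
      refine ⟨dtm (chi {x}) (chi {y}), ?_, ?_, ?_⟩
      · refine at_dtm (fun e he => ?_) (fun e he => ?_)
        · rw [chi_ne_zero, mem_singleton] at he
          rw [he]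
          exact hx.2
        · rw [chi_ne_zero, mem_singleton] at he
          rw [he]
          exact hy.2
      · intro e
        unfold dtm
        rw [mul_comm (chi {y} e)]
        exact zmod2_add_self _
      · intro X Y
        rw [frm_dtm, pr_one, pr_one, pr_one, pr_one]
        simp only [Pi.add_apply]
        linear_combination (X x * X y + Y x * Y y) * h2
    · exact ⟨0, at_zero a, fun _ => rfl, fun X Y => by rw [frm_zero]; simp⟩
    · rintro ρ₁ ρ₂ _ _ ⟨g₁, h1, h1', h1''⟩ ⟨g₂, h2, h2', h2''⟩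
      refine ⟨g₁ + g₂, at_add h1 h2, fun e => ?_, fun X Y => ?_⟩
      · rw [Pi.add_apply, Pi.add_apply, h1', h2', add_zero]
      · rw [frm_add, ← h1'', ← h2'']
        simp only [Pi.add_apply]
        ring
    · rintro k ρ₁ _ ⟨g₁, h1, h1', h1''⟩
      refine ⟨k • g₁, at_smul k h1, fun e => ?_, fun X Y => ?_⟩
      · rw [Pi.smul_apply, Pi.smul_apply, h1', smul_zero]
      · rw [frm_smul, ← h1'']
        simp only [Pi.smul_apply, smul_eq_mul]
        ring

end DL
end

section
/-!
MP_3ff0f8_gt, ALGEBRA HALF, R1A block: module HBF (helper35).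
-/
open SimpleGraph Finset

namespace DL

namespace HBFM

set_option linter.unusedSectionVars false

variable {α : Type} [Fintype α] [DecidableEq α]

/-- a sum over unordered pairs as a sum over ordered pairs -/
theorem sum_ord (o : α → ℕ) (ho : ∀ a b, o a = o b → a = b) (F : Sym2 α → ZMod 2)
    (hF : ∀ e, e.IsDiag → F e = 0) :
    ∑ c, ∑ d, (if o c < o d then F s(c, d) else 0) = ∑ e, F e := by
  classical
  rw [← Fintype.sum_prod_type' (f := fun c d => if o c < o d then F s(c, d) else 0),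
    ← sum_filter]
  have hinj : Set.InjOn (fun p : α × α => s(p.1, p.2))
      (univ.filter fun p : α × α => o p.1 < o p.2 : Finset (α × α)) := by
    rintro ⟨a, b⟩ h ⟨c, d⟩ h' he
    simp only [coe_filter, mem_univ, true_and, Set.mem_ofPred_eq] at h h'
    simp only [Sym2.eq_iff] at he
    rcases he with ⟨rfl, rfl⟩ | ⟨rfl, rfl⟩
    · rfl
    · omega
  rw [← sum_image (f := F) (g := fun p : α × α => s(p.1, p.2)) hinj]
  refine sum_subset (subset_univ _) fun e _ he => ?_
  apply hF
  by_contra hd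
  apply he
  induction e using Sym2.ind with
  | _ a b =>
    have hab : a ≠ b := by simpa using hd
    rw [mem_image]
    rcases lt_trichotomy (o a) (o b) with h | h | h
    · exact ⟨(a, b), by simpa using h, rfl⟩
    · exact absurd (ho a b h) hab
    · exact ⟨(b, a), by simpa using h, Sym2.eq_swap⟩

end HBFM

open HBFM in
theorem specHBF (hRDR : SpecRDR) (hRPQ : SpecRPQ) (hBDF : SpecBDF) : SpecHBF := by
  intro α _ _ b hb
  classical
  obtain ⟨q, hq, hq0, hqb⟩ := hRPQ.real b hb
  let o : α → ℕ := fun e => (Fintype.equivFin α e : ℕ)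
  have ho : ∀ e f, o e = o f → e = f := by
    intro e f h
    exact (Fintype.equivFin α).injective (Fin.ext h)
  refine ⟨q, fun c d => if o c < o d then b s(c, d) s(c, d) else 0, hq, hq0, hqb, ?_, ?_, ?_⟩
  · intro c
    simp
  · intro c d hcd
    show (if o c < o d then b s(c, d) s(c, d) else 0) + (if o d < o c then b s(d, c) s(d, c) else 0) = _
    rcases lt_trichotomy (o c) (o d) with h | h | h
    · rw [if_pos h, if_neg (not_lt.2 h.le), add_zero]
    · exact absurd (ho c d h) hcd
    · rw [if_neg (not_lt.2 h.le), if_pos h, zero_add, Sym2.eq_swap]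
  · intro G s t K
    have hdiag : ∀ e : Sym2 α, e.IsDiag → b e e * (K.bd0 e * K.bd1 e) = 0 := by
      intro e he
      have h1 : K.bd0 e = 0 := by
        by_contra h
        exact G.not_isDiag_of_mem_edgeSet ((mem_Z1.1 (hBDF.z0 K).1).1 e h) he
      rw [h1, zero_mul, mul_zero]
    have hpol : ∑ e : Fin 2 → Bool, q (chi (K.pth e)) =
        ∑ e, ∑ f, if e = f then 0 else b e f * (K.bd0 e * K.bd1 f) := by
      have h := hRPQ.pol K q hq 0
      simp only [zero_add] at h
      rw [h, hq0, zero_add]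
      exact hqb K.bd0 K.bd1
    have hsum : (∑ e, ∑ f, if e = f then 0 else b e f * (K.bd0 e * K.bd1 f)) +
        ∑ e, b e e * (K.bd0 e * K.bd1 e) = frm b K.bd0 K.bd1 := by
      unfold frm
      rw [← sum_add_distrib]
      refine sum_congr rfl fun e _ => ?_
      have h1 : b e e * (K.bd0 e * K.bd1 e) =
          ∑ f, if e = f then b e f * (K.bd0 e * K.bd1 f) else 0 := by
        rw [sum_ite_eq]
        simp
      rw [h1, ← sum_add_distrib]
      refine sum_congr rfl fun f _ => ?_
      split_ifs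
      · rw [zero_add]
      · rw [add_zero]
    have hdir : ∀ D : α → α → Finset (Sym2 α) → ZMod 2,
        (∀ c d, ∑ e : Fin 2 → Bool, D c d (K.pth e) = K.bd0 s(c, d) * K.bd1 s(c, d)) →
        ∑ e : Fin 2 → Bool, ∑ c, ∑ d, (if o c < o d then b s(c, d) s(c, d) else 0) *
          D c d (K.pth e) = ∑ e, b e e * (K.bd0 e * K.bd1 e) := by
      intro D hD
      rw [sum_comm]
      rw [← sum_ord o ho (fun e => b e e * (K.bd0 e * K.bd1 e)) hdiag]
      refine sum_congr rfl fun c _ => ?_
      rw [sum_comm]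
      refine sum_congr rfl fun d _ => ?_
      rw [← mul_sum, hD c d]
      split_ifs
      · rfl
      · rw [zero_mul]
    refine ⟨?_, ?_⟩
    · rw [sum_add_distrib, hpol, hdir (fun c d P => dirn s c d P) fun c d => (hRDR K c d).1, hsum]
    · rw [sum_add_distrib, hpol, hdir (fun c d P => dirn t c d P) fun c d => (hRDR K c d).2, hsum]

end DL
end

section
/-!
MP_3ff0f8_gt, ALGEBRA HALF, R1A block, module INQ: quadratic functions which vanish on all `a`-`b` paths of
`G - ab` (second half of the proof of `specINJ`).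
-/
open SimpleGraph Finset

namespace DL

open INJM TRAM in
/-- Module INQ. -/
theorem specINQ (hPOL : SpecPOL) (hTRA : SpecTRA) (hI3K : SpecI3K) (hDIR : SpecDIR)
    (hS3F : SpecS3F) : SpecINQ := by
  intro α _ _ G a b hab hK3 q hq hP
  classical
  obtain ⟨r, hr, hr1⟩ := hI3K G hK3 (fun c : Chain α => c s(a, b) * q (c + chi {s(a, b)}))
    (cub hPOL hq) (by simp) (by
      intro C hC
      rw [cub_cyc]
      split_ifs with h
      · exact hP _ (cpth hC h)
      · rfl)
  choose r' hr' hr2 using fun v => hTRA.res {s(a, b)} (hr v)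
  have hr3 : ∀ v, r' v ∈ RV (delE G a b) v := fun v => by
    have := hr' v
    rw [star_delE] at this
    exact this
  have hr4 : ∀ v (c : Chain α), c s(a, b) = 0 → r v c = r' v c := by
    intro v c hc
    refine hr2 v c ?_
    rintro e ⟨_, he⟩
    rw [Set.mem_singleton_iff] at he
    rw [he, hc]
  have hJ0 : ∀ c : Chain α, (∀ e, c e ≠ 0 → e ∈ (delE G a b).edgeSet) → c s(a, b) = 0 := by
    intro c hc
    by_contra h
    exact (edge_delE.1 (hc _ h)).2 rfl
  have hdir := hDIR (delE G a b) (hS3F.dhE a b hK3) r' hr3 (by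
    intro c hc
    have h0 := hJ0 c hc.1
    have h1 : c ∈ Z1 G := ⟨fun e he => (edge_delE.1 (hc.1 e he)).1, hc.2⟩
    have h2 := hr1 c h1
    beta_reduce at h2
    rw [h0, zero_mul] at h2
    rw [h2]
    exact sum_congr rfl fun v _ => (hr4 v c h0).symm)
  have hK2 : KConn 2 G := ⟨by have := hK3.1; omega, fun S hS => hK3.2 S (by omega)⟩
  have hvs := hS3F.vsE a b hK2
  -- the ends
  have hend : ∀ u, u = a ∨ u = b → ∃ ρ ∈ PR (star (delE G a b) u), ∀ c : Chain α,
      (∀ e, c e ≠ 0 → e ∈ (delE G a b).edgeSet) → bdy c u = 1 →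
        r u (c + chi {s(a, b)}) = ρ c := by
    intro u hu
    have huV : u ∈ VS (delE G a b) := by
      rw [hvs]; simp only [VS, mem_filter, mem_univ, true_and]
      rcases hu with rfl | rfl
      · exact ⟨b, hab⟩
      · exact ⟨a, hab.symm⟩
    simp only [VS, mem_filter, mem_univ, true_and] at huV
    obtain ⟨x, hx0⟩ := huV
    have hx : (delE G a b).Adj u x := hx0
    have hk : s(u, x) ∈ star (delE G a b) u := ⟨hx, by simp⟩
    obtain ⟨r0, hr0, ρ0, hρ0, h0⟩ := split_ins (A := star (delE G a b) u) (e := s(a, b)) (by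
      intro e he hne
      exact ⟨edge_delE.2 ⟨he.1, hne⟩, he.2⟩) (hr u)
    refine ⟨_, (PR (star (delE G a b) u)).add_mem (dif (k := s(u, x)) hr0) hρ0, ?_⟩
    intro c hc hb
    have hc0 := hJ0 c hc
    rw [h0, add_chi_self, hc0, zero_add, one_mul, Pi.add_apply]
    have hloc : ∀ e ∈ star (delE G a b) u, (c + chi {s(a, b)}) e = c e := by
      intro e he
      exact add_chi_ne c (edge_delE.1 he.1).2
    rw [hTRA.loc hr0 _ c hloc, locP hρ0 _ c hloc]
    have hsup : ∀ e, (c + chi {s(u, x)}) e ≠ 0 → e ∈ (delE G a b).edgeSet := by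
      intro e he
      by_cases h : e = s(u, x)
      · rw [h]; exact hx
      · rw [add_chi_ne c h] at he
        exact hc e he
    have h5 : r0 (c + chi {s(u, x)}) = 0 := by
      have e1 := h0 (c + chi {s(u, x)})
      rw [hJ0 _ hsup, zero_mul, add_zero] at e1
      rw [← e1, hr4 u _ (hJ0 _ hsup)]
      refine hdir u _ hsup ?_
      rw [bdy_add, hb, bdy_chi_edge u hx.ne]
      simp [hx.ne]
      decide
    rw [h5, add_zero]
  obtain ⟨ρ, hρ, hρ1⟩ := hend a (Or.inl rfl)
  obtain ⟨ρ', hρ', hρ1'⟩ := hend b (Or.inr rfl)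
  refine ⟨ρ, ρ', hρ, hρ', ?_⟩
  intro c hc hb
  have hc0 := hJ0 c hc
  -- the closed chain
  have hZ : c + chi {s(a, b)} ∈ Z1 G := by
    refine ⟨fun e he => ?_, fun v => ?_⟩
    · by_cases h : e = s(a, b)
      · rw [h]; exact hab
      · rw [add_chi_ne c h] at he
        exact (edge_delE.1 (hc e he)).1
    · rw [bdy_add, hb, bdy_chi_edge v hab.ne]
      by_cases h1 : v = a
      · subst h1; simp [hab.ne]; decide
      · by_cases h2 : v = b
        · subst h2; simp [h1]; decide
        · simp [h1, h2]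
  have h1 := hr1 _ hZ
  beta_reduce at h1
  rw [add_chi_self, hc0, zero_add, one_mul, add_assoc, chain_add_self, add_zero,
    sum_two _ hab.ne, hρ1 c hc (by rw [hb]; simp), hρ1' c hc (by rw [hb]; simp)] at h1
  have h2 : (∑ x, if x = a ∨ x = b then 0 else r x (c + chi {s(a, b)})) = 0 := by
    refine sum_eq_zero fun v _ => ?_
    split_ifs with hv
    · rfl
    · rw [not_or] at hv
      have : r v (c + chi {s(a, b)}) = r v c := by
        refine hTRA.loc (hr v) _ _ fun e he => add_chi_ne c ?_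
        rintro rfl
        have := he.2
        rw [Sym2.mem_iff] at this
        exact this.elim hv.1 hv.2
      rw [this, hr4 v c hc0]
      refine hdir v c hc ?_
      rw [hb]; simp [hv.1, hv.2]
  rw [h2, zero_add] at h1
  exact h1

end DL
end

section
/-!
MP_3ff0f8_gt, ALGEBRA HALF, R1A block: module JS3 (helper21)
-/
open SimpleGraph Finset

namespace DL

set_option linter.unusedSectionVars false
set_option linter.unusedVariables false

namespace JS3M

variable {α : Type} [Fintype α] [DecidableEq α] {G J H : SimpleGraph α}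

lemma mem_NB {A : Finset α} {x : α} : x ∈ NB G A ↔ x ∉ A ∧ ∃ a ∈ A, G.Adj a x := by
  classical
  simp [NB]

/-- the graph without the bad edges and `st` -/
def HH (J : SimpleGraph α) (s t : α) : SimpleGraph α := delE (J.deleteEdges (bads J s t)) s t

lemma hh_adj {s t x y : α} :
    (HH J s t).Adj x y ↔ J.Adj x y ∧ s(x, y) ∉ bads J s t ∧ s(x, y) ≠ s(s, t) := by
  unfold HH delE
  rw [deleteEdges_adj, deleteEdges_adj, Set.mem_singleton_iff, and_assoc]

lemma bd_symm {s t c d : α} (h : Bd J s t c d) : Bd J s t d c :=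
  ⟨h.1.symm, h.2.2.1, h.2.1, fun x => by rw [h.2.2.2 x]; tauto⟩

lemma bd_eq {s t c d x y : α} (h : Bd J s t c d) (h' : Bd J s t x y) :
    (x = c ∧ y = d) ∨ (x = d ∧ y = c) := by
  have hx := (h.2.2.2 x).1 ((h'.2.2.2 x).2 (Or.inr (Or.inl rfl)))
  have hy := (h.2.2.2 y).1 ((h'.2.2.2 y).2 (Or.inr (Or.inr rfl)))
  have h1 := h'.1
  have h2 := h'.2.1
  have h3 := h'.2.2.1
  rcases hx with hx | hx | hx
  · exact absurd hx h2
  · rcases hy with hy | hy | hy
    · exact absurd hy h3
    · exact absurd (hx.trans hy.symm) h1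
    · exact Or.inl ⟨hx, hy⟩
  · rcases hy with hy | hy | hy
    · exact absurd hy h3
    · exact Or.inr ⟨hx, hy⟩
    · exact absurd (hx.trans hy.symm) h1

lemma bd_adj {s t c d : α} (h : Bd J s t c d) : J.Adj s t ∧ J.Adj s c ∧ J.Adj s d :=
  ⟨(h.2.2.2 t).2 (Or.inl rfl), (h.2.2.2 c).2 (Or.inr (Or.inl rfl)), (h.2.2.2 d).2 (Or.inr (Or.inr rfl))⟩

lemma mem_bads {s t x y : α} (h : s(x, y) ∈ bads J s t) :
    J.Adj x y ∧ (Bd J s t x y ∨ Bd J t s x y) := by
  obtain ⟨c, d, he, hcd, hB⟩ := h
  rw [Sym2.eq_iff] at he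
  rcases he with ⟨rfl, rfl⟩ | ⟨rfl, rfl⟩
  · exact ⟨hcd, hB⟩
  · exact ⟨hcd.symm, hB.imp bd_symm bd_symm⟩

lemma bads_comm (s t : α) : bads J s t = bads J t s := by
  ext e
  constructor
  · rintro ⟨c, d, h1, h2, h3⟩
    exact ⟨c, d, h1, h2, h3.symm⟩
  · rintro ⟨c, d, h1, h2, h3⟩
    exact ⟨c, d, h1, h2, h3.symm⟩

lemma hh_comm (s t : α) : HH J s t = HH J t s := by
  unfold HH delE
  rw [bads_comm s t, Sym2.eq_swap]

lemma notMem_bads {s t x : α} : s(s, x) ∉ bads J s t := by
  intro h
  rcases (mem_bads h).2 with h1 | h1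
  · exact J.loopless.irrefl s (bd_adj h1).2.1
  · exact h1.2.1 rfl

lemma hh_s {s t x : α} : (HH J s t).Adj s x ↔ J.Adj s x ∧ x ≠ t := by
  rw [hh_adj]
  constructor
  · rintro ⟨h1, -, h2⟩
    exact ⟨h1, fun h => h2 (by rw [h])⟩
  · rintro ⟨h1, h2⟩
    refine ⟨h1, notMem_bads, fun h => ?_⟩
    rw [Sym2.eq_iff] at h
    rcases h with ⟨_, h⟩ | ⟨h3, h4⟩
    · exact h2 h
    · exact h2 (h4.trans h3)

lemma hh_t {s t x : α} : (HH J s t).Adj t x ↔ J.Adj t x ∧ x ≠ s := by
  rw [hh_comm]
  exact hh_s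

lemma hh_le {s t : α} : HH J s t ≤ J := fun x y h => (hh_adj.1 h).1

/-- a partition without edges of `H` between the parts -/
structure Pt (J H : SimpleGraph α) (S A B : Finset α) : Prop where
  na : A.Nonempty
  nb : B.Nonempty
  dj : Disjoint A B
  un : A ∪ B = VS J \ S
  no : ∀ x ∈ A, ∀ y ∈ B, ¬ H.Adj x y

lemma Pt.symm {S A B : Finset α} (P : Pt J H S A B) : Pt J H S B A :=
  ⟨P.nb, P.na, P.dj.symm, by rw [union_comm, P.un], fun x hx y hy h => P.no y hy x hx h.symm⟩

lemma Pt.memA {S A B : Finset α} (P : Pt J H S A B) {x : α} (hx : x ∈ A) : x ∈ VS J ∧ x ∉ S :=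
  mem_sdiff.1 (P.un ▸ mem_union_left _ hx)

lemma Pt.memB {S A B : Finset α} (P : Pt J H S A B) {x : α} (hx : x ∈ B) : x ∈ VS J ∧ x ∉ S :=
  mem_sdiff.1 (P.un ▸ mem_union_right _ hx)

lemma Pt.cov {S A B : Finset α} (P : Pt J H S A B) {x : α} (hx : x ∈ VS J) (hS : x ∉ S) :
    x ∈ A ∨ x ∈ B := mem_union.1 (P.un ▸ mem_sdiff.2 ⟨hx, hS⟩)

lemma exists_pt {S : Finset α} (hHJ : H ≤ J) (h : ¬ ConnOff H S) : ∃ A B, Pt J H S A B := by
  classical
  unfold ConnOff at h
  push Not at h
  obtain ⟨a, ha, b, hb, haS, hbS, hr⟩ := h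
  refine ⟨univ.filter fun x => x ∈ VS J ∧ x ∉ S ∧ (del H S).Reachable a x,
    univ.filter fun x => x ∈ VS J ∧ x ∉ S ∧ ¬ (del H S).Reachable a x, ?_, ?_, ?_, ?_, ?_⟩
  · exact ⟨a, mem_filter.2 ⟨mem_univ _, VS_mono hHJ ha, haS, Reachable.refl a⟩⟩
  · exact ⟨b, mem_filter.2 ⟨mem_univ _, VS_mono hHJ hb, hbS, hr⟩⟩
  · rw [Finset.disjoint_left]
    intro x hx hx'
    exact (mem_filter.1 hx').2.2.2 (mem_filter.1 hx).2.2.2
  · ext x
    simp only [mem_union, mem_filter, mem_univ, true_and, mem_sdiff]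
    tauto
  · intro x hx y hy hxy
    rw [mem_filter] at hx hy
    apply hy.2.2.2
    refine hx.2.2.2.trans (Adj.reachable ?_)
    exact ⟨hxy, hx.2.2.1, hy.2.2.1⟩

/-- edges of `J` between the parts -/
lemma cross {s t : α} (hst : J.Adj s t) {S A B : Finset α} (P : Pt J (HH J s t) S A B) {x y : α}
    (hx : x ∈ A) (hy : y ∈ B) (hxy : J.Adj x y) :
    s(x, y) = s(s, t) ∨ (s ∈ S ∧ Bd J s t x y) ∨ (t ∈ S ∧ Bd J t s x y) := by
  by_cases h1 : s(x, y) = s(s, t)
  · exact Or.inl h1
  by_cases h2 : s(x, y) ∈ bads J s t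
  · right
    rcases (mem_bads h2).2 with h3 | h3
    · left
      refine ⟨?_, h3⟩
      by_contra hs
      rcases P.cov (left_mem_VS hst) hs with h4 | h4
      · exact P.no s h4 y hy (hh_s.2 ⟨(bd_adj h3).2.2, h3.2.2.1⟩)
      · exact P.no x hx s h4 (hh_s.2 ⟨(bd_adj h3).2.1, h3.2.1⟩).symm
    · right
      refine ⟨?_, h3⟩
      by_contra ht
      rcases P.cov (right_mem_VS hst) ht with h4 | h4
      · exact P.no t h4 y hy (hh_t.2 ⟨(bd_adj h3).2.2, h3.2.2.1⟩)
      · exact P.no x hx t h4 (hh_t.2 ⟨(bd_adj h3).2.1, h3.2.1⟩).symm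
  · exact absurd (hh_adj.2 ⟨hxy, h2, h1⟩) (P.no x hx y hy)

/-! ## Counting -/

variable {u : α}

lemma vsJ (hG : K48 G) : VS (del G {u}) = VS G \ {u} := hG.1.VS_del (S := {u}) (by simp)

lemma vsJ_mem (hG : K48 G) {x : α} : x ∈ VS (del G {u}) ↔ x ∈ VS G ∧ x ≠ u := by
  rw [vsJ hG, mem_sdiff, mem_singleton]

lemma adjJ {a b : α} : (del G {u}).Adj a b ↔ G.Adj a b ∧ a ≠ u ∧ b ≠ u := by
  rw [del_adj, mem_singleton, mem_singleton]

lemma kJ (hG : K48 G) : KConn 3 (del G {u}) := hG.1.del_vertex (by norm_num) u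

lemma cardJ (hG : K48 G) : 7 ≤ (VS (del G {u})).card := by
  rw [vsJ hG]
  have h1 := Finset.le_card_sdiff {u} (VS G)
  have h2 := hG.2
  rw [card_singleton] at h1
  omega

/-- one cut edge and rigidity -/
lemma side (hNBF : SpecNBF) (hG : K48 G) (hu : Rig G u) {p q : α} {A B : Finset α} (hd : Disjoint A B)
    (hun : A ∪ B = VS (del G {u}) \ {p, q}) (hB : B.Nonempty) {x : α} (hx : x ∈ A)
    (hno : ∀ a ∈ A, a ≠ x → ∀ b ∈ B, ¬ (del G {u}).Adj a b) : A.card ≤ 2 ∨ B.card ≤ 1 := by
  have hA' : ∀ y ∈ A, y ∈ VS (del G {u}) ∧ y ∉ ({p, q} : Finset α) := fun y hy =>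
    mem_sdiff.1 (hun ▸ mem_union_left _ hy)
  have hB' : ∀ y ∈ B, y ∈ VS (del G {u}) ∧ y ∉ ({p, q} : Finset α) := fun y hy =>
    mem_sdiff.1 (hun ▸ mem_union_right _ hy)
  have hcA : (A.erase x).card = A.card - 1 := card_erase_of_mem hx
  by_cases hX : (A.erase x).Nonempty
  swap
  · rw [not_nonempty_iff_eq_empty] at hX
    rw [hX, card_empty] at hcA
    left
    omega
  have hsub : NB G (A.erase x) ⊆ {u, p, q, x} := by
    intro y hy
    rw [mem_NB] at hy
    obtain ⟨hy1, a, ha, hay⟩ := hy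
    rw [mem_erase] at ha
    by_cases hyu : y = u
    · simp [hyu]
    have hau : a ≠ u := ((vsJ_mem hG).1 (hA' a ha.2).1).2
    have hJ : (del G {u}).Adj a y := adjJ.2 ⟨hay, hau, hyu⟩
    by_cases hyS : y ∈ ({p, q} : Finset α)
    · simp only [mem_insert, mem_singleton] at hyS ⊢
      tauto
    have hyAB : y ∈ A ∪ B := by
      rw [hun]
      exact mem_sdiff.2 ⟨right_mem_VS hJ, hyS⟩
    rcases mem_union.1 hyAB with h | h
    · have : y = x := by
        by_contra hne
        exact hy1 (mem_erase.2 ⟨hne, h⟩)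
      simp [this]
    · exact absurd hJ (hno a ha.2 ha.1 y h)
  have hXV : A.erase x ⊆ VS G := fun y hy => ((vsJ_mem hG).1 (hA' y (mem_erase.1 hy).2).1).1
  have hBout : ∀ b ∈ B, b ∉ A.erase x ∪ {u, p, q, x} := by
    intro b hb h
    have h1 := hB' b hb
    have h2 := (vsJ_mem hG).1 h1.1
    simp only [mem_insert, mem_singleton, not_or] at h1
    rcases mem_union.1 h with h3 | h3
    · exact Finset.disjoint_left.1 hd (mem_erase.1 h3).2 hb
    · simp only [mem_insert, mem_singleton] at h3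
      rcases h3 with h3 | h3 | h3 | h3
      · exact h2.2 h3
      · exact h1.2.1 h3
      · exact h1.2.2 h3
      · exact Finset.disjoint_left.1 hd hx (h3 ▸ hb)
  have hc4 : (({u, p, q, x} : Finset α)).card ≤ 4 := card_le_four
  have hle := card_le_card hsub
  by_cases hlt : (NB G (A.erase x)).card < 4
  · exfalso
    obtain ⟨b, hb⟩ := hB
    have h1 := hNBF.nb hG.1 hXV hX hlt
    have h2 := h1 ((vsJ_mem hG).1 (hB' b hb).1).1
    exact hBout b hb (union_subset_union_right hsub h2)
  · have h4 : (NB G (A.erase x)).card = 4 := by omega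
    have heq : NB G (A.erase x) = {u, p, q, x} := eq_of_subset_of_card_le hsub (by omega)
    by_cases h2 : 2 ≤ (A.erase x).card
    · right
      have h5 := hNBF.rig hu hXV (by rw [heq]; simp) h4 h2
      refine (card_le_card ?_).trans h5
      intro b hb
      rw [mem_sdiff, heq]
      exact ⟨((vsJ_mem hG).1 (hB' b hb).1).1, hBout b hb⟩
    · left
      omega

lemma card_parts (hG : K48 G) {p q : α} {A B : Finset α} (hd : Disjoint A B)
    (hun : A ∪ B = VS (del G {u}) \ {p, q}) : 5 ≤ A.card + B.card := by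
  rw [← card_union_of_disjoint hd, hun]
  have h1 := Finset.le_card_sdiff {p, q} (VS (del G {u}))
  have h2 := cardJ (u := u) hG
  have h3 : (({p, q} : Finset α)).card ≤ 2 := card_le_two
  omega

/-- a single cut edge: one side is a single vertex -/
lemma single (hNBF : SpecNBF) (hG : K48 G) (hu : Rig G u) {p q : α} {A B : Finset α} (hd : Disjoint A B)
    (hun : A ∪ B = VS (del G {u}) \ {p, q}) {x y : α} (hx : x ∈ A) (hy : y ∈ B)
    (hno : ∀ a ∈ A, ∀ b ∈ B, (del G {u}).Adj a b → a = x ∧ b = y) :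
    (∀ a ∈ A, a = x) ∨ ∀ b ∈ B, b = y := by
  have h1 := side hNBF hG hu hd hun ⟨y, hy⟩ hx fun a ha hax b hb h => hax (hno a ha b hb h).1
  have h2 := side hNBF hG hu hd.symm (by rw [union_comm, hun]) ⟨x, hx⟩ hy
    fun b hb hby a ha h => hby (hno a ha b hb h.symm).2
  have h3 := card_parts hG hd hun
  have h4 : A.card ≤ 1 ∨ B.card ≤ 1 := by omega
  rcases h4 with h4 | h4
  · exact Or.inl fun a ha => card_le_one.1 h4 a ha x hx
  · exact Or.inr fun b hb => card_le_one.1 h4 b hb y hy

/-- the contradiction for a bad edge -/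
lemma bad_false (hNBF : SpecNBF) (hG : K48 G) (hu : Rig G u) {s t c d q : α} (hs : G.Adj u s) (hB : Bd (del G {u}) s t c d)
    (hd : ∀ y, (del G {u}).Adj d y → y = s ∨ y = q ∨ y = c) : False := by
  have hsd := (bd_adj hB).2.2
  have hsne : s ≠ d := hsd.ne
  have hsub : NB G {s, d} ⊆ {u, t, c, q} := by
    intro y hy
    rw [mem_NB] at hy
    obtain ⟨hy1, a, ha, hay⟩ := hy
    simp only [mem_insert, mem_singleton, not_or] at hy1 ha
    by_cases hyu : y = u
    · simp [hyu]
    rcases ha with rfl | rfl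
    · have h1 := (hB.2.2.2 y).1 (adjJ.2 ⟨hay, hs.ne', hyu⟩)
      simp only [mem_insert, mem_singleton]
      rcases h1 with h1 | h1 | h1
      · exact Or.inr (Or.inl h1)
      · exact Or.inr (Or.inr (Or.inl h1))
      · exact absurd h1 hy1.2
    · have hau : a ≠ u := (adjJ.1 hsd).2.2
      have h1 := hd y (adjJ.2 ⟨hay, hau, hyu⟩)
      simp only [mem_insert, mem_singleton]
      rcases h1 with h1 | h1 | h1
      · exact absurd h1 hy1.1
      · exact Or.inr (Or.inr (Or.inr h1))
      · exact Or.inr (Or.inr (Or.inl h1))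
  have hV : ({s, d} : Finset α) ⊆ VS G := by
    intro y hy
    simp only [mem_insert, mem_singleton] at hy
    rcases hy with rfl | rfl
    · exact right_mem_VS hs
    · exact right_mem_VS (adjJ.1 hsd).1
  have hc4 : (({u, t, c, q} : Finset α)).card ≤ 4 := card_le_four
  have hc2 : (({s, d} : Finset α)).card = 2 := card_pair hsne
  have hle := card_le_card hsub
  have h8 := hG.2
  by_cases hlt : (NB G {s, d}).card < 4
  · have h1 := hNBF.nb hG.1 hV ⟨s, by simp⟩ hlt
    have h2 := card_le_card h1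
    have h3 := card_union_le {s, d} (NB G {s, d})
    omega
  · have h4 : (NB G {s, d}).card = 4 := by omega
    have heq : NB G {s, d} = {u, t, c, q} := eq_of_subset_of_card_le hsub (by omega)
    have h5 := hNBF.rig hu hV (by rw [heq]; simp) h4 (by omega)
    have h3 := card_union_le {s, d} (NB G {s, d})
    have h6 := Finset.le_card_sdiff ({s, d} ∪ NB G {s, d}) (VS G)
    omega

/-- there is an edge between the parts if `S` has at most two elements -/
lemma exists_cross (hNBF : SpecNBF) (hG : K48 G) {S A B : Finset α} (P : Pt (del G {u}) H S A B)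
    (hS : S.card < 3) : ∃ a ∈ A, ∃ b ∈ B, (del G {u}).Adj a b := by
  by_contra hcon
  push Not at hcon
  have hsub : NB (del G {u}) A ⊆ S := by
    intro y hy
    rw [mem_NB] at hy
    obtain ⟨hy1, a, ha, hay⟩ := hy
    by_contra hyS
    rcases P.cov (right_mem_VS hay) hyS with h | h
    · exact hy1 h
    · exact hcon a ha y h hay
  have h1 := hNBF.nb (kJ hG) (fun y hy => (P.memA hy).1) P.na (lt_of_le_of_lt (card_le_card hsub) hS)
  obtain ⟨b, hb⟩ := P.nb
  rcases mem_union.1 (h1 (P.memB hb).1) with h2 | h2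
  · exact Finset.disjoint_left.1 P.dj h2 hb
  · exact (P.memB hb).2 (hsub h2)

/-- no cut edge if `S` has at most one element -/
lemma no_cut1 (hNBF : SpecNBF) (hG : K48 G) {S A B : Finset α} (P : Pt (del G {u}) H S A B)
    (hS : S.card ≤ 1) {x y : α} (hx : x ∈ A) (hy : y ∈ B)
    (hno : ∀ a ∈ A, ∀ b ∈ B, (del G {u}).Adj a b → a = x ∧ b = y) : False := by
  have key : ∀ (A B : Finset α) (x y : α), Pt (del G {u}) H S A B → x ∈ A → y ∈ B →
      (∀ a ∈ A, ∀ b ∈ B, (del G {u}).Adj a b → a = x ∧ b = y) → A.card ≤ 1 := by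
    intro A B x y P hx hy hno
    by_contra hA
    have hX : (A.erase x).Nonempty := by
      rw [← card_pos, card_erase_of_mem hx]
      omega
    have hsub : NB (del G {u}) (A.erase x) ⊆ insert x S := by
      intro z hz
      rw [mem_NB] at hz
      obtain ⟨hz1, a, ha, haz⟩ := hz
      rw [mem_erase] at ha
      by_cases hzS : z ∈ S
      · exact mem_insert_of_mem hzS
      rcases P.cov (right_mem_VS haz) hzS with h | h
      · by_contra h'
        rw [mem_insert, not_or] at h'
        exact hz1 (mem_erase.2 ⟨h'.1, h⟩)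
      · exact absurd (hno a ha.2 z h haz).1 ha.1
    have h0 := card_insert_le x S
    have h1 := hNBF.nb (kJ hG) (fun y hy => (P.memA (mem_erase.1 hy).2).1) hX
      (lt_of_le_of_lt (card_le_card hsub) (by omega))
    rcases mem_union.1 (h1 (P.memB hy).1) with h2 | h2
    · exact Finset.disjoint_left.1 P.dj (mem_erase.1 h2).2 hy
    · rcases mem_insert.1 (hsub h2) with h3 | h3
      · exact Finset.disjoint_left.1 P.dj hx (h3 ▸ hy)
      · exact (P.memB hy).2 h3
  have h1 := key A B x y P hx hy hno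
  have h2 := key B A y x P.symm hy hx fun b hb a ha h => (hno a ha b hb h.symm).symm
  have h3 : A.card + B.card = (VS (del G {u}) \ S).card := by
    rw [← P.un, card_union_of_disjoint P.dj]
  have h4 := Finset.le_card_sdiff S (VS (del G {u}))
  have h5 := cardJ (u := u) hG
  omega

/-! ## The cases -/

/-- the exceptional case: `N_J(s) = {t, p, q}` -/
lemma exc (hNBF : SpecNBF) (hG : K48 G) {s t p q : α} (hst : (del G {u}).Adj s t) (hpq : p ≠ q)
    (hs : s ∉ ({p, q} : Finset α)) (ht : t ∉ ({p, q} : Finset α))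
    (hN : ∀ y, (del G {u}).Adj s y → y = t ∨ y = p ∨ y = q) :
    (∀ w, (HH (del G {u}) s t).Adj s w ↔ w = p ∨ w = q) ∧ ¬ (HH (del G {u}) s t).Adj p q ∧
      ConnOff (HH (del G {u}) s t) {p, q, s} := by
  simp only [mem_insert, mem_singleton, not_or] at hs ht
  have h3 := (kJ hG).le_nbs (left_mem_VS hst)
  have hsub : nbs (del G {u}) s ⊆ {t, p, q} := by
    intro y hy
    have := hN y (mem_nbs.1 hy)
    simpa using this
  have hc3 : (({t, p, q} : Finset α)).card ≤ 3 := card_le_three
  have heq := eq_of_subset_of_card_le hsub (by omega)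
  have hB : Bd (del G {u}) s t p q := by
    refine ⟨hpq, fun h => ht.1 h.symm, fun h => ht.2 h.symm, fun x => ⟨hN x, fun h => ?_⟩⟩
    have : x ∈ nbs (del G {u}) s := by
      rw [heq]
      simpa using h
    exact mem_nbs.1 this
  refine ⟨fun w => ?_, fun h => ?_, ?_⟩
  · rw [hh_s, hB.2.2.2 w]
    constructor
    · rintro ⟨h1 | h1 | h1, h2⟩
      · exact absurd h1 h2
      · exact Or.inl h1
      · exact Or.inr h1
    · rintro (rfl | rfl)
      · exact ⟨Or.inr (Or.inl rfl), hB.2.1⟩
      · exact ⟨Or.inr (Or.inr rfl), hB.2.2.1⟩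
  · obtain ⟨h1, h2, -⟩ := hh_adj.1 h
    exact h2 ⟨p, q, rfl, h1, Or.inl hB⟩
  · by_contra hcon
    obtain ⟨A, B, P⟩ := exists_pt hh_le hcon
    have htS : t ∉ ({p, q, s} : Finset α) := by
      simp only [mem_insert, mem_singleton, not_or]
      exact ⟨ht.1, ht.2, hst.ne'⟩
    have key : ∀ A B : Finset α, Pt (del G {u}) (HH (del G {u}) s t) {p, q, s} A B → t ∈ A → False := by
      intro A B P htA
      have hsub : NB (del G {u}) B ⊆ {p, q} := by
        intro y hy
        rw [mem_NB] at hy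
        obtain ⟨hy1, b, hb, hby⟩ := hy
        have hbS := (P.memB hb).2
        simp only [mem_insert, mem_singleton, not_or] at hbS
        by_contra hyn
        simp only [mem_insert, mem_singleton, not_or] at hyn
        by_cases hys : y = s
        · rw [hys] at hby
          rcases hN b hby.symm with h | h | h
          · exact Finset.disjoint_left.1 P.dj htA (h ▸ hb)
          · exact hbS.1 h
          · exact hbS.2.1 h
        · have hyS : y ∉ ({p, q, s} : Finset α) := by
            simp only [mem_insert, mem_singleton, not_or]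
            exact ⟨hyn.1, hyn.2, hys⟩
          rcases P.cov (right_mem_VS hby) hyS with h | h
          · rcases cross hst P h hb hby.symm with h1 | ⟨-, h1⟩ | ⟨h1, -⟩
            · rw [Sym2.eq_iff] at h1
              rcases h1 with ⟨h1, -⟩ | ⟨-, h1⟩
              · exact hys h1
              · exact hbS.2.2 h1
            · rcases bd_eq hB h1 with ⟨h2, -⟩ | ⟨h2, -⟩
              · exact hyn.1 h2
              · exact hyn.2 h2
            · exact htS h1
          · exact hy1 h
      have h1 := hNBF.nb (kJ hG) (fun y hy => (P.memB hy).1) P.nb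
        (lt_of_le_of_lt (card_le_card hsub) (lt_of_le_of_lt card_le_two (by norm_num)))
      rcases mem_union.1 (h1 (right_mem_VS hst)) with h2 | h2
      · exact Finset.disjoint_left.1 P.dj htA h2
      · have := hsub h2
        simp only [mem_insert, mem_singleton] at this
        rcases this with h | h
        · exact ht.1 h
        · exact ht.2 h
    rcases P.cov (right_mem_VS hst) htS with h | h
    · exact key A B P h
    · exact key B A P.symm h

/-- all edges between the parts are bad edges of `s` -/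
lemma all_bad (hNBF : SpecNBF) (hG : K48 G) (hu : Rig G u) {s t q : α} (hs : G.Adj u s)
    {A B : Finset α} (P : Pt (del G {u}) H {s, q} A B)
    (hall : ∀ x ∈ A, ∀ y ∈ B, (del G {u}).Adj x y → Bd (del G {u}) s t x y) : False := by
  obtain ⟨c, hc, d, hd, hcd⟩ := exists_cross hNBF hG P (lt_of_le_of_lt card_le_two (by norm_num))
  have hB := hall c hc d hd hcd
  have hno : ∀ a ∈ A, ∀ b ∈ B, (del G {u}).Adj a b → a = c ∧ b = d := by
    intro a ha b hb hab
    rcases bd_eq hB (hall a ha b hb hab) with h | ⟨h, -⟩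
    · exact h
    · exact absurd (h ▸ hd) (Finset.disjoint_left.1 P.dj ha)
  rcases single hNBF hG hu P.dj P.un hc hd hno with h1 | h1
  · refine bad_false (q := q) hNBF hG hu hs (bd_symm hB) fun y hy => ?_
    by_cases hyS : y ∈ ({s, q} : Finset α)
    · simp only [mem_insert, mem_singleton] at hyS
      tauto
    rcases P.cov (right_mem_VS hy) hyS with h | h
    · exact absurd (h1 y h) hy.ne'
    · exact Or.inr (Or.inr (hno c hc y h hy).2)
  · refine bad_false (q := q) hNBF hG hu hs hB fun y hy => ?_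
    by_cases hyS : y ∈ ({s, q} : Finset α)
    · simp only [mem_insert, mem_singleton] at hyS
      tauto
    rcases P.cov (right_mem_VS hy) hyS with h | h
    · exact Or.inr (Or.inr (hno y h d hd hy.symm).1)
    · exact absurd (h1 y h) hy.ne'

/-- both kinds of bad edges between the parts -/
lemma both_bad (hNBF : SpecNBF) (hG : K48 G) {s t : α} (hst : (del G {u}).Adj s t)
    {A B : Finset α} (P : Pt (del G {u}) (HH (del G {u}) s t) {s, t} A B) {c d c' d' : α}
    (hc : c ∈ A) (hd : d ∈ B) (hc' : c' ∈ A) (hd' : d' ∈ B) (hB : Bd (del G {u}) s t c d)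
    (hB' : Bd (del G {u}) t s c' d') : False := by
  have key : ∀ (A B : Finset α) (c d c' d' : α), Pt (del G {u}) (HH (del G {u}) s t) {s, t} A B → c ∈ A →
      d ∈ B → c' ∈ A → d' ∈ B → Bd (del G {u}) s t c d → Bd (del G {u}) t s c' d' → A ⊆ {c, c'} := by
    intro A B c d c' d' P hc hd hc' hd' hB hB'
    by_contra hcon
    have hX : (A \ {c, c'}).Nonempty := by
      obtain ⟨x, hx, hx'⟩ := not_subset.1 hcon
      exact ⟨x, mem_sdiff.2 ⟨hx, hx'⟩⟩
    have hsub : NB G (A \ {c, c'}) ⊆ {u, c, c'} := by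
      intro y hy
      rw [mem_NB] at hy
      obtain ⟨hy1, a, ha, hay⟩ := hy
      rw [mem_sdiff] at ha
      have haS := (P.memA ha.1).2
      simp only [mem_insert, mem_singleton, not_or] at haS
      have han := ha.2
      simp only [mem_insert, mem_singleton, not_or] at han
      by_contra hyn
      simp only [mem_insert, mem_singleton, not_or] at hyn
      have hau : a ≠ u := ((vsJ_mem hG).1 (P.memA ha.1).1).2
      have hJ : (del G {u}).Adj a y := adjJ.2 ⟨hay, hau, hyn.1⟩
      have had : ∀ {x}, x ∈ B → a ≠ x := fun hx h => Finset.disjoint_left.1 P.dj ha.1 (h ▸ hx)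
      by_cases hys : y = s
      · rw [hys] at hJ
        rcases (hB.2.2.2 a).1 hJ.symm with h | h | h
        · exact haS.2 h
        · exact han.1 h
        · exact had hd h
      by_cases hyt : y = t
      · rw [hyt] at hJ
        rcases (hB'.2.2.2 a).1 hJ.symm with h | h | h
        · exact haS.1 h
        · exact han.2 h
        · exact had hd' h
      have hyS : y ∉ ({s, t} : Finset α) := by
        simp only [mem_insert, mem_singleton, not_or]
        exact ⟨hys, hyt⟩
      rcases P.cov (right_mem_VS hJ) hyS with h | h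
      · apply hy1
        rw [mem_sdiff]
        refine ⟨h, ?_⟩
        simp only [mem_insert, mem_singleton, not_or]
        exact hyn.2
      · rcases cross hst P ha.1 h hJ with h1 | ⟨-, h1⟩ | ⟨-, h1⟩
        · rw [Sym2.eq_iff] at h1
          rcases h1 with ⟨h1, -⟩ | ⟨h1, -⟩
          · exact haS.1 h1
          · exact haS.2 h1
        · rcases bd_eq hB h1 with ⟨h2, -⟩ | ⟨h2, -⟩
          · exact han.1 h2
          · exact had hd h2
        · rcases bd_eq hB' h1 with ⟨h2, -⟩ | ⟨h2, -⟩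
          · exact han.2 h2
          · exact had hd' h2
    have hXV : A \ {c, c'} ⊆ VS G := fun y hy =>
      ((vsJ_mem hG).1 (P.memA (mem_sdiff.1 hy).1).1).1
    have h1 := hNBF.nb hG.1 hXV hX
      (lt_of_le_of_lt (card_le_card hsub) (lt_of_le_of_lt card_le_three (by norm_num)))
    have hdV := (vsJ_mem hG).1 (P.memB hd).1
    rcases mem_union.1 (h1 hdV.1) with h2 | h2
    · exact Finset.disjoint_left.1 P.dj (mem_sdiff.1 h2).1 hd
    · have h3 := hsub h2
      simp only [mem_insert, mem_singleton] at h3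
      rcases h3 with h3 | h3 | h3
      · exact hdV.2 h3
      · exact Finset.disjoint_left.1 P.dj hc (h3 ▸ hd)
      · exact Finset.disjoint_left.1 P.dj hc' (h3 ▸ hd)
  have h1 := card_le_card (key A B c d c' d' P hc hd hc' hd' hB hB')
  have h2 := card_le_card (key B A d c d' c' P.symm hd hc hd' hc' (bd_symm hB) (bd_symm hB'))
  have h3 : (({c, c'} : Finset α)).card ≤ 2 := card_le_two
  have h4 : (({d, d'} : Finset α)).card ≤ 2 := card_le_two
  have h5 := card_parts hG P.dj P.un
  omega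

lemma pair_sub {s t p q : α} (hs : s ∈ ({p, q} : Finset α)) :
    ∃ q', ({p, q} : Finset α) = {s, q'} := by
  simp only [mem_insert, mem_singleton] at hs
  rcases hs with rfl | rfl
  · exact ⟨q, rfl⟩
  · exact ⟨p, pair_comm _ _⟩

/-- the pairs -/
lemma pairs (hNBF : SpecNBF) (hG : K48 G) (hu : Rig G u) {s t : α} (hus : G.Adj u s) (hut : G.Adj u t)
    (hst : (del G {u}).Adj s t) {p q : α} (hpq : p ≠ q) :
    ConnOff (HH (del G {u}) s t) {p, q} ∨ ∃ v, (∀ w, (HH (del G {u}) s t).Adj v w ↔ w = p ∨ w = q) ∧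
      ¬ (HH (del G {u}) s t).Adj p q ∧ ConnOff (HH (del G {u}) s t) {p, q, v} := by
  by_cases hC : ConnOff (HH (del G {u}) s t) {p, q}
  · exact Or.inl hC
  right
  obtain ⟨A, B, P⟩ := exists_pt hh_le hC
  have hS3 : (({p, q} : Finset α)).card < 3 := lt_of_le_of_lt card_le_two (by norm_num)
  by_cases hs : s ∈ ({p, q} : Finset α)
  · exfalso
    by_cases ht : t ∈ ({p, q} : Finset α)
    · -- both
      have hset : ({p, q} : Finset α) = {s, t} := by
        simp only [mem_insert, mem_singleton] at hs ht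
        have hne := hst.ne
        rcases hs with rfl | rfl <;> rcases ht with rfl | rfl
        · exact absurd rfl hne
        · rfl
        · exact pair_comm _ _
        · exact absurd rfl hne
      rw [hset] at P
      have hcr : ∀ x ∈ A, ∀ y ∈ B, (del G {u}).Adj x y →
          Bd (del G {u}) s t x y ∨ Bd (del G {u}) t s x y := by
        intro x hx y hy hxy
        rcases cross hst P hx hy hxy with h1 | ⟨-, h1⟩ | ⟨-, h1⟩
        · have hxS := (P.memA hx).2
          simp only [mem_insert, mem_singleton, not_or] at hxS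
          rw [Sym2.eq_iff] at h1
          rcases h1 with ⟨h1, -⟩ | ⟨h1, -⟩
          · exact absurd h1 hxS.1
          · exact absurd h1 hxS.2
        · exact Or.inl h1
        · exact Or.inr h1
      by_cases h1 : ∀ x ∈ A, ∀ y ∈ B, (del G {u}).Adj x y → Bd (del G {u}) s t x y
      · exact all_bad hNBF hG hu hus P h1
      by_cases h2 : ∀ x ∈ A, ∀ y ∈ B, (del G {u}).Adj x y → Bd (del G {u}) t s x y
      · rw [pair_comm] at P
        exact all_bad hNBF hG hu hut P h2
      push Not at h1 h2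
      obtain ⟨x, hx, y, hy, hxy, hn⟩ := h1
      obtain ⟨x', hx', y', hy', hxy', hn'⟩ := h2
      have hB' := (hcr x hx y hy hxy).resolve_left hn
      have hB := (hcr x' hx' y' hy' hxy').resolve_right hn'
      exact both_bad hNBF hG hst P hx' hy' hx hy hB hB'
    · obtain ⟨q', hq'⟩ := pair_sub (t := t) hs
      rw [hq'] at P ht
      apply all_bad hNBF hG hu hus P (t := t)
      intro x hx y hy hxy
      rcases cross hst P hx hy hxy with h1 | ⟨-, h1⟩ | ⟨h1, -⟩
      · have hxS := (P.memA hx).2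
        have hyS := (P.memB hy).2
        simp only [mem_insert, mem_singleton, not_or] at hxS hyS
        rw [Sym2.eq_iff] at h1
        rcases h1 with ⟨h1, -⟩ | ⟨-, h1⟩
        · exact absurd h1 hxS.1
        · exact absurd h1 hyS.1
      · exact h1
      · exact absurd h1 ht
  · by_cases ht : t ∈ ({p, q} : Finset α)
    · exfalso
      obtain ⟨q', hq'⟩ := pair_sub (t := s) ht
      rw [hq'] at P hs
      apply all_bad hNBF hG hu hut P (t := s)
      intro x hx y hy hxy
      rcases cross hst P hx hy hxy with h1 | ⟨h1, -⟩ | ⟨-, h1⟩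
      · have hxS := (P.memA hx).2
        have hyS := (P.memB hy).2
        simp only [mem_insert, mem_singleton, not_or] at hxS hyS
        rw [Sym2.eq_iff] at h1
        rcases h1 with ⟨-, h1⟩ | ⟨h1, -⟩
        · exact absurd h1 hyS.1
        · exact absurd h1 hxS.1
      · exact absurd h1 hs
      · exact h1
    · -- none
      have hcr : ∀ x ∈ A, ∀ y ∈ B, (del G {u}).Adj x y → s(x, y) = s(s, t) := by
        intro x hx y hy hxy
        rcases cross hst P hx hy hxy with h1 | ⟨h1, -⟩ | ⟨h1, -⟩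
        · exact h1
        · exact absurd h1 hs
        · exact absurd h1 ht
      have key : ∀ A B : Finset α, Pt (del G {u}) (HH (del G {u}) s t) {p, q} A B →
          (∀ x ∈ A, ∀ y ∈ B, (del G {u}).Adj x y → s(x, y) = s(s, t)) → s ∈ A → t ∈ B →
          ∃ v, (∀ w, (HH (del G {u}) s t).Adj v w ↔ w = p ∨ w = q) ∧
            ¬ (HH (del G {u}) s t).Adj p q ∧ ConnOff (HH (del G {u}) s t) {p, q, v} := by
        intro A B P hcr hsA htB
        have hno : ∀ a ∈ A, ∀ b ∈ B, (del G {u}).Adj a b → a = s ∧ b = t := by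
          intro a ha b hb hab
          have h1 := hcr a ha b hb hab
          rw [Sym2.eq_iff] at h1
          rcases h1 with h1 | ⟨h1, -⟩
          · exact h1
          · exact absurd (h1 ▸ htB) (Finset.disjoint_left.1 P.dj ha)
        rcases single hNBF hG hu P.dj P.un hsA htB hno with h1 | h1
        · refine ⟨s, exc hNBF hG hst hpq hs ht fun y hy => ?_⟩
          by_cases hyS : y ∈ ({p, q} : Finset α)
          · simp only [mem_insert, mem_singleton] at hyS
            exact Or.inr hyS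
          rcases P.cov (right_mem_VS hy) hyS with h | h
          · exact absurd (h1 y h) hy.ne'
          · exact Or.inl (hno s hsA y h hy).2
        · refine ⟨t, ?_⟩
          rw [hh_comm]
          refine exc hNBF hG hst.symm hpq ht hs fun y hy => ?_
          by_cases hyS : y ∈ ({p, q} : Finset α)
          · simp only [mem_insert, mem_singleton] at hyS
            exact Or.inr hyS
          rcases P.cov (right_mem_VS hy) hyS with h | h
          · exact Or.inl (hno y h t htB hy.symm).1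
          · exact absurd (h1 y h) hy.ne'
      obtain ⟨a, ha, b, hb, hab⟩ := exists_cross hNBF hG P hS3
      have h1 := hcr a ha b hb hab
      rw [Sym2.eq_iff] at h1
      rcases h1 with ⟨h1, h2⟩ | ⟨h1, h2⟩
      · exact key A B P hcr (h1 ▸ ha) (h2 ▸ hb)
      · refine key B A P.symm (fun x hx y hy hxy => ?_) (h2 ▸ hb) (h1 ▸ ha)
        rw [Sym2.eq_swap]
        exact hcr y hy x hx hxy.symm

lemma cover (J : SimpleGraph α) (s t : α) :
    ∃ F : Finset α, F.card ≤ 2 ∧ ∀ c d, Bd J s t c d → c ∈ F := by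
  by_cases h : ∃ c d, Bd J s t c d
  · obtain ⟨c, d, hB⟩ := h
    refine ⟨{c, d}, card_le_two, fun c' d' hB' => ?_⟩
    rcases bd_eq hB hB' with ⟨h1, -⟩ | ⟨h1, -⟩ <;> simp [h1]
  · exact ⟨∅, by simp, fun c d hB => absurd ⟨c, d, hB⟩ h⟩

end JS3M

open JS3M

theorem specJS3 (hNBF : SpecNBF) : SpecJS3 := by
  classical
  intro α _ _ G u s t hG hu hus hut hst'
  have hst : (del G {u}).Adj s t := adjJ.2 ⟨hst', hus.ne', hut.ne'⟩
  have hsV : s ∈ VS (HH (del G {u}) s t) := by
    have h3 := (kJ hG).le_nbs (left_mem_VS hst)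
    obtain ⟨y, hy, hyt⟩ := exists_mem_ne (show 1 < (nbs (del G {u}) s).card by omega) t
    exact left_mem_VS (hh_s.2 ⟨mem_nbs.1 hy, hyt⟩)
  have htV : t ∈ VS (HH (del G {u}) s t) := by
    have h3 := (kJ hG).le_nbs (right_mem_VS hst)
    obtain ⟨y, hy, hys⟩ := exists_mem_ne (show 1 < (nbs (del G {u}) t).card by omega) s
    exact left_mem_VS (hh_t.2 ⟨mem_nbs.1 hy, hys⟩)
  -- a vertex with three neighbours
  have hv0 : ∃ c x y z, x ≠ y ∧ x ≠ z ∧ y ≠ z ∧ (HH (del G {u}) s t).Adj c x ∧
      (HH (del G {u}) s t).Adj c y ∧ (HH (del G {u}) s t).Adj c z := by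
    obtain ⟨F, hF, hF'⟩ := cover (del G {u}) s t
    obtain ⟨F₂, hF₂, hF₂'⟩ := cover (del G {u}) t s
    have h7 := cardJ (u := u) hG
    have hc : (({s, t} : Finset α) ∪ F ∪ F₂).card ≤ 6 := by
      have h1 := card_union_le (({s, t} : Finset α) ∪ F) F₂
      have h2 := card_union_le ({s, t} : Finset α) F
      have h3 : (({s, t} : Finset α)).card ≤ 2 := card_le_two
      omega
    have h8 := Finset.le_card_sdiff (({s, t} : Finset α) ∪ F ∪ F₂) (VS (del G {u}))
    obtain ⟨v, hv⟩ : (VS (del G {u}) \ (({s, t} : Finset α) ∪ F ∪ F₂)).Nonempty := by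
      rw [← card_pos]
      omega
    rw [mem_sdiff, mem_union, mem_union, not_or, not_or] at hv
    simp only [mem_insert, mem_singleton, not_or] at hv
    obtain ⟨hvV, ⟨⟨hvs, hvt⟩, hvF⟩, hvF₂⟩ := hv
    have h3 := (kJ hG).le_nbs hvV
    obtain ⟨x, hx, y, hy, z, hz, hxy, hxz, hyz⟩ := two_lt_card.1 (show 2 < (nbs (del G {u}) v).card by omega)
    have hadj : ∀ x, (del G {u}).Adj v x → (HH (del G {u}) s t).Adj v x := by
      intro x hx
      rw [hh_adj]
      refine ⟨hx, fun h => ?_, fun h => ?_⟩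
      · rcases (mem_bads h).2 with h1 | h1
        · exact hvF (hF' _ _ h1)
        · exact hvF₂ (hF₂' _ _ h1)
      · rw [Sym2.eq_iff] at h
        rcases h with ⟨h, -⟩ | ⟨h, -⟩
        · exact hvs h
        · exact hvt h
    exact ⟨v, x, y, z, hxy, hxz, hyz, hadj x (mem_nbs.1 hx), hadj y (mem_nbs.1 hy), hadj z (mem_nbs.1 hz)⟩
  refine ⟨⟨⟨?_, ?_⟩, hv0, fun p q hpq => pairs hNBF hG hu hus hut hst hpq⟩, hsV, htV, ?_⟩
  · obtain ⟨c, x, y, z, hxy, hxz, hyz, h1, h2, h3⟩ := hv0
    have hsub : ({x, y, z} : Finset α) ⊆ VS (HH (del G {u}) s t) := by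
      intro a ha
      simp only [mem_insert, mem_singleton] at ha
      rcases ha with rfl | rfl | rfl
      · exact right_mem_VS h1
      · exact right_mem_VS h2
      · exact right_mem_VS h3
    have h4 := card_le_card hsub
    rw [card_eq_three.2 ⟨x, y, z, hxy, hxz, hyz, rfl⟩] at h4
    exact lt_of_lt_of_le (by norm_num) h4
  · intro S hS
    by_contra hcon
    obtain ⟨A, B, P⟩ := exists_pt hh_le hcon
    obtain ⟨a, ha, b, hb, hab⟩ := exists_cross hNBF hG P (by omega)
    refine no_cut1 hNBF hG P (by omega) ha hb fun a' ha' b' hb' hab' => ?_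
    have hne : a' ≠ b := fun h => Finset.disjoint_left.1 P.dj ha' (h ▸ hb)
    have hS1 : ¬ (s ∈ S ∧ t ∈ S) := by
      rintro ⟨h1, h2⟩
      exact hst.ne (card_le_one.1 (by omega) s h1 t h2)
    have hsolve : s(a', b') = s(a, b) → a' = a ∧ b' = b := by
      intro h
      rw [Sym2.eq_iff] at h
      rcases h with h | ⟨h, -⟩
      · exact h
      · exact absurd h hne
    rcases cross hst P ha hb hab with h1 | ⟨h0, h1⟩ | ⟨h0, h1⟩ <;>
      rcases cross hst P ha' hb' hab' with h2 | ⟨h0', h2⟩ | ⟨h0', h2⟩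
    · exact hsolve (h2.trans h1.symm)
    · exfalso
      rw [Sym2.eq_iff] at h1
      rcases h1 with ⟨h1, -⟩ | ⟨-, h1⟩
      · exact (P.memA ha).2 (h1 ▸ h0')
      · exact (P.memB hb).2 (h1 ▸ h0')
    · exfalso
      rw [Sym2.eq_iff] at h1
      rcases h1 with ⟨-, h1⟩ | ⟨h1, -⟩
      · exact (P.memB hb).2 (h1 ▸ h0')
      · exact (P.memA ha).2 (h1 ▸ h0')
    · exfalso
      rw [Sym2.eq_iff] at h2
      rcases h2 with ⟨h2, -⟩ | ⟨-, h2⟩
      · exact (P.memA ha').2 (h2 ▸ h0)
      · exact (P.memB hb').2 (h2 ▸ h0)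
    · rcases bd_eq h1 h2 with h | ⟨h, -⟩
      · exact h
      · exact absurd h hne
    · exact absurd ⟨h0, h0'⟩ hS1
    · exfalso
      rw [Sym2.eq_iff] at h2
      rcases h2 with ⟨-, h2⟩ | ⟨h2, -⟩
      · exact (P.memB hb').2 (h2 ▸ h0)
      · exact (P.memA ha').2 (h2 ▸ h0)
    · exact absurd ⟨h0', h0⟩ hS1
    · rcases bd_eq h1 h2 with h | ⟨h, -⟩
      · exact h
      · exact absurd h hne
  · rintro ⟨c, d, hB, hB'⟩
    have hsub : NB G {s, t} ⊆ {u, c, d} := by
      intro y hy
      rw [mem_NB] at hy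
      obtain ⟨hy1, a, ha, hay⟩ := hy
      simp only [mem_insert, mem_singleton, not_or] at hy1 ha ⊢
      by_cases hyu : y = u
      · exact Or.inl hyu
      right
      rcases ha with rfl | rfl
      · rcases (hB.2.2.2 y).1 (adjJ.2 ⟨hay, hus.ne', hyu⟩) with h | h
        · exact absurd h hy1.2
        · exact h
      · rcases (hB'.2.2.2 y).1 (adjJ.2 ⟨hay, hut.ne', hyu⟩) with h | h
        · exact absurd h hy1.1
        · exact h
    have hV : ({s, t} : Finset α) ⊆ VS G := by
      intro y hy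
      simp only [mem_insert, mem_singleton] at hy
      rcases hy with rfl | rfl
      · exact right_mem_VS hus
      · exact right_mem_VS hut
    have h3 : (({u, c, d} : Finset α)).card ≤ 3 := card_le_three
    have h1 := card_le_card (hNBF.nb hG.1 hV ⟨s, by simp⟩
      (lt_of_le_of_lt (card_le_card hsub) (lt_of_le_of_lt h3 (by norm_num))))
    have h2 := card_union_le {s, t} (NB G {s, t})
    have h4 := card_le_card hsub
    have h5 : (({s, t} : Finset α)).card ≤ 2 := card_le_two
    have h6 := hG.2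
    omega

end DL
end

section
/-!
MP_3ff0f8_gt, ALGEBRA HALF, R1A block: module KIL (helper21)
-/
open SimpleGraph Finset

namespace DL

set_option linter.unusedSectionVars false
set_option linter.unusedVariables false

namespace KILM

lemma four : ∀ k l m p i : Fin 4, [k, l, m, p].Nodup → i = k ∨ i = l ∨ i = m ∨ i = p := by decide

lemma disj_eq : ∀ k l m p i j : Fin 4, [k, l, m, p].Nodup → i ≠ j → i ≠ k → i ≠ l → j ≠ k → j ≠ l →
    s(i, j) = s(m, p) := by decide

variable {α : Type} [Fintype α] [DecidableEq α] {G : SimpleGraph α} {u : α} {w : Fin 4 → α}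

/-- elements of `KJ` vanish on the beads of chains with the right ends -/
lemma kj_zero (hBDF : SpecBDF) (hKJM : SpecKJM) {i j : Fin 4} (hij : i ≠ j)
    {B : ↥(Z1 (del G {u})) → ↥(Z1 (del G {u})) → ZMod 2} (hB : B ∈ KJ G u w s(i, j)) {s t : α}
    (K : Ch2 (del G {u}) s t) (hs : w i ∈ K.X 0) (ht : w j ∈ K.X 2)
    (hX : K.bd0 ∈ Z1 (del G {u})) (hY : K.bd1 ∈ Z1 (del G {u})) : B ⟨K.bd0, hX⟩ ⟨K.bd1, hY⟩ = 0 := by
  obtain ⟨b, hb, rfl⟩ := (hKJM.mem hij B).1 hB
  obtain ⟨K', -, -, -, -, h0, h1⟩ := hBDF.re K hs ht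
  have := hb.2 K'
  rw [h0, h1] at this
  exact this

lemma kj_zero' (hBDF : SpecBDF) (hKJM : SpecKJM) {i j : Fin 4} (hij : i ≠ j)
    {B : ↥(Z1 (del G {u})) → ↥(Z1 (del G {u})) → ZMod 2} (hB : B ∈ KJ G u w s(i, j)) {s t : α}
    (K : Ch2 (del G {u}) s t) (hs : w j ∈ K.X 0) (ht : w i ∈ K.X 2)
    (hX : K.bd0 ∈ Z1 (del G {u})) (hY : K.bd1 ∈ Z1 (del G {u})) : B ⟨K.bd0, hX⟩ ⟨K.bd1, hY⟩ = 0 := by
  rw [Sym2.eq_swap] at hB
  exact kj_zero hBDF hKJM hij.symm hB K hs ht hX hY

/-- the relations in the triples vanish -/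
lemma trel_zero (hBDF : SpecBDF) (hKJM : SpecKJM) {k l m p : Fin 4} (hn : [k, l, m, p].Nodup)
    {t : Sym2 (Fin 4) → ↥(Z1 (del G {u})) → ↥(Z1 (del G {u})) → ZMod 2} (ht : TRel (KJ G u w) t)
    (K : Ch2 (del G {u}) (w k) (w m)) (hl : w l ∈ K.X 0) (hp : w p ∈ K.X 2)
    (hX : K.bd0 ∈ Z1 (del G {u})) (hY : K.bd1 ∈ Z1 (del G {u})) :
    t s(k, l) ⟨K.bd0, hX⟩ ⟨K.bd1, hY⟩ = 0 := by
  obtain ⟨tt, h1, h2, h3, h4⟩ := ht
  have hk := K.sX
  have hm := K.tX
  rw [h4, Finset.sum_apply, Finset.sum_apply]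
  apply Finset.sum_eq_zero
  intro q _
  by_cases hq : q ∈ s(k, l)
  · rw [h2 q _ hq]
    rfl
  have hq' : q = m ∨ q = p := by
    rcases four k l m p q hn with h | h | h | h
    · exact absurd (by rw [h]; exact Sym2.mem_mk_left _ _) hq
    · exact absurd (by rw [h]; exact Sym2.mem_mk_right _ _) hq
    · exact Or.inl h
    · exact Or.inr h
  have h5 := congrFun (congrFun (h3 q) ⟨K.bd0, hX⟩) ⟨K.bd1, hY⟩
  rw [Finset.sum_apply, Finset.sum_apply, Finset.sum_eq_single s(k, l)] at h5
  · exact h5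
  · intro e _ he
    induction e using Sym2.ind with
    | _ i j =>
      by_cases hij : i = j
      · subst hij
        have h6 := h1 q s(i, i)
        rw [hKJM.diag s(i, i) rfl, Submodule.mem_bot] at h6
        rw [h6]
        rfl
      by_cases hqe : q ∈ s(i, j)
      · rw [h2 q _ hqe]
        rfl
      have hB := h1 q s(i, j)
      have hmem0 : ∀ x : Fin 4, x = k ∨ x = l → w x ∈ K.X 0 := by
        rintro x (rfl | rfl)
        · exact hk
        · exact hl
      have hmem2 : ∀ x : Fin 4, x = m ∨ x = p → w x ∈ K.X 2 := by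
        rintro x (rfl | rfl)
        · exact hm
        · exact hp
      have hside : (i = k ∨ i = l) ∧ (j = m ∨ j = p) ∨ (j = k ∨ j = l) ∧ (i = m ∨ i = p) := by
        rcases four k l m p i hn with h6 | h6 | h6 | h6 <;>
          rcases four k l m p j hn with h7 | h7 | h7 | h7
        · exact absurd (h6.trans h7.symm) hij
        · exact absurd (by rw [h6, h7]) he
        · exact Or.inl ⟨Or.inl h6, Or.inl h7⟩
        · exact Or.inl ⟨Or.inl h6, Or.inr h7⟩
        · exact absurd (by rw [h6, h7, Sym2.eq_swap]) he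
        · exact absurd (h6.trans h7.symm) hij
        · exact Or.inl ⟨Or.inr h6, Or.inl h7⟩
        · exact Or.inl ⟨Or.inr h6, Or.inr h7⟩
        · exact Or.inr ⟨Or.inl h7, Or.inl h6⟩
        · exact Or.inr ⟨Or.inr h7, Or.inl h6⟩
        · exact absurd (h6.trans h7.symm) hij
        · exact absurd (by rcases hq' with rfl | rfl <;> simp [h6, h7]) hqe
        · exact Or.inr ⟨Or.inl h7, Or.inr h6⟩
        · exact Or.inr ⟨Or.inr h7, Or.inr h6⟩
        · exact absurd (by rcases hq' with rfl | rfl <;> simp [h6, h7]) hqe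
        · exact absurd (h6.trans h7.symm) hij
      rcases hside with ⟨h6, h7⟩ | ⟨h6, h7⟩
      · exact kj_zero hBDF hKJM hij hB K (hmem0 _ h6) (hmem2 _ h7) hX hY
      · exact kj_zero' hBDF hKJM hij hB K (hmem0 _ h6) (hmem2 _ h7) hX hY
  · intro h
    exact absurd (Finset.mem_univ _) h

/-- the value of `D` -/
lemma d_val {i j i' j' : Fin 4} (X Y : ↥(Z1 (del G {u}))) :
    rf (del G {u}) (dtm (chi {(s(i, j) : Sym2 (Fin 4)).map w}) (chi {(s(i', j') : Sym2 (Fin 4)).map w})) X Y =
      X.1 s(w i, w j) * Y.1 s(w i', w j') + X.1 s(w i', w j') * Y.1 s(w i, w j) := by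
  rw [Sym2.map_mk, Sym2.map_mk]
  show frm (dtm (ed (w i) (w j)) (ed (w i') (w j'))) X.1 Y.1 = _
  rw [frm_dtm, pr_ed, pr_ed, pr_ed, pr_ed]

/-- the equation of a configuration -/
lemma eq_cfg (hBDF : SpecBDF) (hKJM : SpecKJM) {k l m p : Fin 4} (hn : [k, l, m, p].Nodup)
    {r t : Sym2 (Fin 4) → ↥(Z1 (del G {u})) → ↥(Z1 (del G {u})) → ZMod 2} (ht : TRel (KJ G u w) t)
    {Dd : Sym2 (Fin 4) → Sym2 (Fin 4) → ↥(Z1 (del G {u})) → ↥(Z1 (del G {u})) → ZMod 2}
    (hD : ∀ e f, Dd e f = rf (del G {u}) (dtm (chi {e.map w}) (chi {f.map w})))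
    {μ : Sym2 (Fin 4) → Sym2 (Fin 4) → ZMod 2}
    (hμ : ∀ e f, μ e f ≠ 0 → ¬ e.IsDiag ∧ ¬ f.IsDiag ∧ ∀ v, ¬ (v ∈ e ∧ v ∈ f))
    (s : Sym2 (Fin 4) → ↥(Z1 (del G {u})) → ↥(Z1 (del G {u})) → ZMod 2)
    (hr : ∀ e, r e = t e + ∑ f, μ e f • Dd e f + s e)
    (hk : ∀ K : Ch2 (del G {u}) (w k) (w m), w l ∈ K.X 0 → w p ∈ K.X 2 →
      ∀ (hX : K.bd0 ∈ Z1 (del G {u})) (hY : K.bd1 ∈ Z1 (del G {u})), r s(k, l) ⟨K.bd0, hX⟩ ⟨K.bd1, hY⟩ = 0)
    {X Y : Chain α} (hC : Cfg G u w k l m p X Y) :
    ∃ (hX : X ∈ Z1 (del G {u})) (hY : Y ∈ Z1 (del G {u})),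
      μ s(k, l) s(m, p) * (X s(w k, w l) * Y s(w m, w p)) + s s(k, l) ⟨X, hX⟩ ⟨Y, hY⟩ = 0 := by
  obtain ⟨K, hl, hp, rfl, rfl⟩ := hC
  refine ⟨(hBDF.z0 K).1, (hBDF.z0 K).2, ?_⟩
  have h1 := hk K hl hp (hBDF.z0 K).1 (hBDF.z0 K).2
  rw [hr, Pi.add_apply, Pi.add_apply, Pi.add_apply, Pi.add_apply, trel_zero hBDF hKJM hn ht K hl hp, zero_add,
    Finset.sum_apply, Finset.sum_apply] at h1
  have hY0 : K.bd1 s(w k, w l) = 0 := by
    by_contra h
    rcases hBDF.s1 K _ h (w k) (Sym2.mem_mk_left _ _) with h2 | h2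
    · exact Finset.disjoint_left.1 (K.disj 0 1 (by decide)) K.sX h2
    · exact Finset.disjoint_left.1 (K.disj 0 2 (by decide)) K.sX h2
  rw [Finset.sum_eq_single s(m, p)] at h1
  · rw [Pi.smul_apply, Pi.smul_apply, hD, d_val] at h1
    simp only [hY0, mul_zero, add_zero, smul_eq_mul] at h1
    exact h1
  · intro f _ hf
    by_cases h0 : μ s(k, l) f = 0
    · rw [h0, zero_smul]
      rfl
    · exfalso
      obtain ⟨-, h3, h4⟩ := hμ _ _ h0
      induction f using Sym2.ind with
      | _ i j =>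
        apply hf
        refine disj_eq k l m p i j hn (fun h => h3 h) ?_ ?_ ?_ ?_
        · rintro rfl
          exact h4 i ⟨Sym2.mem_mk_left _ _, Sym2.mem_mk_left _ _⟩
        · rintro rfl
          exact h4 i ⟨Sym2.mem_mk_right _ _, Sym2.mem_mk_left _ _⟩
        · rintro rfl
          exact h4 j ⟨Sym2.mem_mk_left _ _, Sym2.mem_mk_right _ _⟩
        · rintro rfl
          exact h4 j ⟨Sym2.mem_mk_right _ _, Sym2.mem_mk_right _ _⟩
  · intro h
    exact absurd (Finset.mem_univ _) h

lemma bdy_nbr (c : Chain α) (v : α) : bdy c v = ∑ x, c s(v, x) := by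
  unfold bdy
  symm
  refine sum_bij (fun y _ => s(v, y)) ?_ ?_ ?_ ?_
  · intro y _
    simp
  · intro y _ y' _ h
    rw [Sym2.eq_iff] at h
    rcases h with ⟨_, h⟩ | ⟨h1, h2⟩
    · exact h
    · exact h2.trans h1
  · intro e he
    rw [mem_filter] at he
    obtain ⟨y, rfl⟩ := Sym2.mem_iff_exists.1 he.2
    exact ⟨y, mem_univ _, rfl⟩
  · intro y _
    rfl

lemma z1_zero {X : Chain α} (hX : X ∈ Z1 (del G {u})) {a b : α} (h : ¬ G.Adj a b) : X s(a, b) = 0 := by
  by_contra h0
  exact h ((mem_Z1.1 hX).1 _ h0).1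

lemma cc_ne {x : α} (hx : x ∈ CC G u w) (i : Fin 4) : x ≠ w i := by
  rintro rfl
  rw [CC, mem_sdiff, mem_insert, not_or] at hx
  exact hx.2.2 (mem_image_of_mem w (mem_univ i))

/-- swap of a beta-pair -/
lemma bta_symm {i j m j' : Fin 4} {z d d' : α} (h : Bta G u w i j m j' z d d') :
    Bta G u w m j' i j z d' d where
  im := h.im.symm
  jm := h.ji
  ji := h.jm
  dd := h.dd.symm
  ti := h.tm
  tm := h.ti
  nz := fun x => by
    rw [h.nz x]
    tauto

/-- the star of `z` -/
lemma star_z (hR : R1 G u w) {i j m j' : Fin 4} {z d d' : α} (h : Bta G u w i j m j' z d d') {X : Chain α}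
    (hX : X ∈ Z1 (del G {u})) : pr (tht w m z d') X = pr (tht w i z d) X := by
  have h1 := (mem_Z1.1 hX).2 z
  rw [bdy_nbr] at h1
  have h2 : ∑ x ∈ ({w i, w m, d, d'} : Finset α), X s(z, x) = ∑ x, X s(z, x) := by
    apply Finset.sum_subset (Finset.subset_univ _)
    intro x _ hx
    apply z1_zero hX
    rw [h.nz x]
    simpa using hx
  rw [← h2, sum_insert, sum_insert, sum_insert, sum_singleton] at h1
  · rw [pr_tht, pr_tht, Sym2.eq_swap (a := w m), Sym2.eq_swap (a := w i)]
    have h3 : ∀ a b c d : ZMod 2, a + (b + (c + d)) = 0 → b + d = a + c := by decide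
    exact h3 _ _ _ _ h1
  · simpa using h.dd
  · simp only [mem_insert, mem_singleton, not_or]
    exact ⟨(cc_ne h.ti.dC m).symm, (cc_ne h.tm.dC m).symm⟩
  · simp only [mem_insert, mem_singleton, not_or]
    exact ⟨fun e => h.im (hR.inj e), (cc_ne h.ti.dC i).symm, (cc_ne h.tm.dC i).symm⟩

lemma ta_adj {i j : Fin 4} {c d : α} (h : TA G u w i j c d) : G.Adj (w i) (w j) :=
  (h.nb _).2 (Or.inr (Or.inl rfl))

/-- a type A vertex has only one neighbour among the `w` -/
lemma ta_unique (hR : R1 G u w) {i j k : Fin 4} {c d : α} (h : TA G u w i j c d) (hk : G.Adj (w i) (w k)) :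
    j = k := by
  rcases (h.nb _).1 hk with h1 | h1 | h1 | h1
  · exact absurd ((hR.nu (w k)).2 ⟨k, rfl⟩) (by rw [h1]; exact G.loopless.irrefl u)
  · exact (hR.inj h1).symm
  · exact absurd h1.symm (cc_ne h.cC k)
  · exact absurd h1.symm (cc_ne h.dC k)

/-- if all coefficients vanish -/
lemma finish {r t : Sym2 (Fin 4) → ↥(Z1 (del G {u})) → ↥(Z1 (del G {u})) → ZMod 2} (ht : TRel (KJ G u w) t)
    {Dd : Sym2 (Fin 4) → Sym2 (Fin 4) → ↥(Z1 (del G {u})) → ↥(Z1 (del G {u})) → ZMod 2}
    (hD : ∀ e f, Dd e f = rf (del G {u}) (dtm (chi {e.map w}) (chi {f.map w})))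
    {μ : Sym2 (Fin 4) → Sym2 (Fin 4) → ZMod 2}
    (hμ : ∀ e f, μ e f ≠ 0 → ¬ e.IsDiag ∧ ¬ f.IsDiag ∧ ∀ v, ¬ (v ∈ e ∧ v ∈ f))
    (hr : ∀ e, r e = t e + ∑ f, μ e f • Dd e f)
    (h0 : ∀ k l m p : Fin 4, [k, l, m, p].Nodup → G.Adj (w k) (w l) → G.Adj (w m) (w p) →
      μ s(k, l) s(m, p) = 0) : TRel (KJ G u w) r := by
  have h1 : ∀ e f, μ e f • Dd e f = 0 := by
    intro e f
    by_cases hne : μ e f = 0
    · rw [hne, zero_smul]
    obtain ⟨d1, d2, d3⟩ := hμ e f hne
    induction e using Sym2.ind with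
    | _ k l =>
      induction f using Sym2.ind with
      | _ m p =>
        have hn : [k, l, m, p].Nodup := by
          have e1 : k ≠ l := fun h => d1 h
          have e2 : m ≠ p := fun h => d2 h
          have e3 : k ≠ m := by
            rintro rfl
            exact d3 k ⟨Sym2.mem_mk_left _ _, Sym2.mem_mk_left _ _⟩
          have e4 : k ≠ p := by
            rintro rfl
            exact d3 k ⟨Sym2.mem_mk_left _ _, Sym2.mem_mk_right _ _⟩
          have e5 : l ≠ m := by
            rintro rfl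
            exact d3 l ⟨Sym2.mem_mk_right _ _, Sym2.mem_mk_left _ _⟩
          have e6 : l ≠ p := by
            rintro rfl
            exact d3 l ⟨Sym2.mem_mk_right _ _, Sym2.mem_mk_right _ _⟩
          simp [e1, e2, e3, e4, e5, e6]
        by_cases a1 : G.Adj (w k) (w l)
        · by_cases a2 : G.Adj (w m) (w p)
          · exact absurd (h0 k l m p hn a1 a2) hne
          · funext X Y
            rw [Pi.smul_apply, Pi.smul_apply, hD, d_val, z1_zero X.2 a2, z1_zero Y.2 a2]
            simp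
        · funext X Y
          rw [Pi.smul_apply, Pi.smul_apply, hD, d_val, z1_zero X.2 a1, z1_zero Y.2 a1]
          simp
  have h2 : r = t := by
    funext e
    rw [hr e]
    simp only [h1, Finset.sum_const_zero, add_zero]
  rw [h2]
  exact ht

lemma two_left : ∀ k l m p a b : Fin 4, [k, l, m, p].Nodup → [k, m, a, b].Nodup →
    (a = l ∧ b = p) ∨ (a = p ∧ b = l) := by
  intro k l m p a b h1 h2
  simp only [List.nodup_cons, List.mem_cons, List.not_mem_nil, or_false, not_or, not_false_eq_true,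
    List.nodup_nil, and_true] at h1 h2
  rcases four k l m p a (by simp; tauto) with h | h | h | h <;>
  rcases four k l m p b (by simp; tauto) with h' | h' | h' | h' <;> subst h <;> subst h' <;> simp_all

end KILM

open KILM

theorem specKIL (hLIN : SpecLIN) (hBS0 : SpecBS0) (hBS1 : SpecBS1) (hBS2 : SpecBS2) (hCR1 : SpecCR1)
    (hCR2 : SpecCR2) (hKJM : SpecKJM) (hBDF : SpecBDF) : SpecKIL := by
  classical
  intro α _ _ G u w hR hKZ D hDK hDD hbp r hrK hrs hkill
  obtain ⟨t, μ, E, ϑ, ht, hsym, hμ, hE1, hE2, hr⟩ := hLIN D r (fun e => hDK ▸ hrK e) hrs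
  rw [hDK] at ht
  set s : Sym2 (Fin 4) → ↥(Z1 (del G {u})) → ↥(Z1 (del G {u})) → ZMod 2 := fun e =>
    ∑ q ∈ E, if e = s(q.1, D.j q.1) ∨ e = s(q.2, D.j q.2) then ϑ q else 0 with hs
  have hr' : ∀ e, r e = t e + ∑ f, μ e f • D.D e f + s e := hr
  rcases E.eq_empty_or_nonempty with hE | ⟨q, hq⟩
  · -- no pairs
    apply finish ht hDD hμ (r := r)
    · intro e
      rw [hr', hs, hE]
      simp
    · intro k l m p hn a1 a2
      obtain ⟨X, Y, hC, x1, y1, -⟩ := hBS0 hR k l m p hn a1 a2
      obtain ⟨hX, hY, h1⟩ := eq_cfg hBDF hKJM hn ht hDD hμ s hr' (hkill k l m p hn) hC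
      rw [x1, y1, hs, hE] at h1
      simpa using h1
  · exfalso
    obtain ⟨k, m⟩ := q
    obtain ⟨hb, hn⟩ := hE1 _ hq
    simp only at hb hn
    set l := D.j k with hl
    set p := D.j m with hp
    obtain ⟨z, d, d', hB, hϑ⟩ := hbp _ _ _ hb
    rw [← hl, ← hp] at hB
    have a1 := ta_adj hB.ti
    have a2 := ta_adj hB.tm
    have hother : ∀ q' ∈ E, q' ≠ (k, m) → q' = (l, p) ∨ q' = (p, l) := by
      intro q' hq' hne
      rcases two_left k l m p q'.1 q'.2 hn (hE2 _ hq _ hq' hne.symm) with ⟨h1, h2⟩ | ⟨h1, h2⟩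
      · exact Or.inl (Prod.ext h1 h2)
      · exact Or.inr (Prod.ext h1 h2)
    have hins : E = insert (k, m) (E.erase (k, m)) := (Finset.insert_erase hq).symm
    have hsE : s s(k, l) = ϑ (k, m) + ∑ q ∈ E.erase (k, m),
        if s(k, l) = s(q.1, D.j q.1) ∨ s(k, l) = s(q.2, D.j q.2) then ϑ q else 0 := by
      rw [hs]
      simp only
      rw [hins, Finset.sum_insert (Finset.notMem_erase _ _), Finset.erase_insert (Finset.notMem_erase _ _)]
      simp only [← hl, true_or, if_true]
    have hϑv : ∀ X Y : ↥(Z1 (del G {u})), ϑ (k, m) X Y = pr (tht w k z d) X.1 * pr (tht w k z d) Y.1 := by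
      intro X Y
      rw [hϑ]
      exact frm_sqm _ _ _
    rcases (E.erase (k, m)).eq_empty_or_nonempty with hE' | ⟨q', hq'⟩
    · -- one pair
      rw [hE', Finset.sum_empty, add_zero] at hsE
      obtain ⟨X, Y, hC, x1, y1, -, x2⟩ := hBS1 hR k l m p z d d' hn hB a1 a2
      obtain ⟨hX, hY, h1⟩ := eq_cfg hBDF hKJM hn ht hDD hμ s hr' (hkill k l m p hn) hC
      obtain ⟨X', Y', hC', x1', y1', -, x2', y2'⟩ := hCR1 hR hKZ k l m p z d d' hn hB a1 a2
      obtain ⟨hX', hY', h1'⟩ := eq_cfg hBDF hKJM hn ht hDD hμ s hr' (hkill k l m p hn) hC'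
      rw [x1, y1, hsE, hϑv, x2] at h1
      rw [x1', y1', hsE, hϑv, x2', y2'] at h1'
      simp only [mul_one, zero_mul, add_zero] at h1
      rw [h1] at h1'
      simp at h1'
    · -- two pairs
      rw [Finset.mem_erase] at hq'
      have hE' : E.erase (k, m) = {q'} := by
        ext q''
        rw [Finset.mem_erase, Finset.mem_singleton]
        constructor
        · rintro ⟨h1, h2⟩
          by_contra h3
          have h4 := hE2 _ h2 _ hq'.2 h3
          rcases hother _ h2 h1 with h5 | h5 <;> rcases hother _ hq'.2 hq'.1 with h6 | h6 <;>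
            rw [h5, h6] at h4 <;> simp at h4
        · rintro rfl
          exact hq'
      have hkey : ∃ z' e e', Bta G u w l k p m z' e e' ∧ (∀ X Y : ↥(Z1 (del G {u})),
          ϑ q' X Y = pr (tht w l z' e) X.1 * pr (tht w l z' e) Y.1) ∧
          (s(k, l) = s(q'.1, D.j q'.1) ∨ s(k, l) = s(q'.2, D.j q'.2)) := by
        obtain ⟨hb', -⟩ := hE1 _ hq'.2
        obtain ⟨z', e, e', hB', hϑ'⟩ := hbp _ _ _ hb'
        rcases hother _ hq'.2 hq'.1 with h5 | h5
        · rw [h5] at hB' hϑ' ⊢
          simp only at hB' hϑ'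
          have hjl : D.j l = k := ta_unique hR hB'.ti a1.symm
          have hjp : D.j p = m := ta_unique hR hB'.tm a2.symm
          rw [hjl, hjp] at hB'
          refine ⟨z', e, e', hB', fun X Y => ?_, Or.inl ?_⟩
          · rw [hϑ']
            exact frm_sqm _ _ _
          · simp only
            rw [hjl, Sym2.eq_swap]
        · rw [h5] at hB' hϑ' ⊢
          simp only at hB' hϑ'
          have hjl : D.j l = k := ta_unique hR hB'.tm a1.symm
          have hjp : D.j p = m := ta_unique hR hB'.ti a2.symm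
          rw [hjl, hjp] at hB'
          refine ⟨z', e', e, bta_symm hB', fun X Y => ?_, Or.inr ?_⟩
          · rw [hϑ']
            show frm (sqm (tht w p z' e)) X.1 Y.1 = _
            rw [frm_sqm, star_z hR hB' X.2, star_z hR hB' Y.2]
          · simp only
            rw [hjl, Sym2.eq_swap]
      obtain ⟨z', e, e', hB', hϑv', hcond⟩ := hkey
      rw [hE', Finset.sum_singleton, if_pos hcond] at hsE
      obtain ⟨X, Y, hC, x1, y1, -, x2, x3⟩ := hBS2 hR k l m p z d d' z' e e' hn hB hB'
      obtain ⟨hX, hY, h1⟩ := eq_cfg hBDF hKJM hn ht hDD hμ s hr' (hkill k l m p hn) hC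
      obtain ⟨X', Y', hC', x1', y1', -, x2', y2', x3'⟩ := hCR2 hR hKZ k l m p z d d' z' e e' hn hB hB'
      obtain ⟨hX', hY', h1'⟩ := eq_cfg hBDF hKJM hn ht hDD hμ s hr' (hkill k l m p hn) hC'
      rw [x1, y1, hsE, Pi.add_apply, Pi.add_apply, hϑv, hϑv', x2, x3] at h1
      rw [x1', y1', hsE, Pi.add_apply, Pi.add_apply, hϑv, hϑv', x2', y2', x3'] at h1'
      simp only [mul_one, zero_mul, add_zero] at h1
      rw [h1] at h1'
      simp at h1'

end DL
end

section
/-!
MP_3ff0f8_gt, ALGEBRA HALF, R1A block: module KIN (helper35).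
-/
open SimpleGraph Finset

namespace DL

namespace KINM

set_option linter.unusedSectionVars false

variable {α : Type} [Fintype α] [DecidableEq α]

theorem tp_self (T : SimpleGraph α) (v : α) : tp T v v = ∅ := by
  unfold tp
  split_ifs with h
  · exact h.choose_spec.eq_empty
  · rfl

theorem tp_sub {T : SimpleGraph α} {v w : α} {e : Sym2 α} (h : e ∈ tp T v w) : e ∈ T.edgeSet := by
  unfold tp at h
  split_ifs at h with h1
  · exact h1.choose_spec.subset e h
  · exact absurd h (notMem_empty e)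

theorem tp_adj {T : SimpleGraph α} (hT : T.IsAcyclic) {v w : α} (h : T.Adj v w) :
    tp T v w = {s(v, w)} := by
  have h1 : ∃ P, IsPth T v w P := ⟨_, IsPth.edge h⟩
  unfold tp
  rw [dif_pos h1]
  obtain ⟨p, hp, hp'⟩ := h1.choose_spec
  obtain ⟨q, hq, hq'⟩ := IsPth.edge h
  have h2 : (⟨p, hp⟩ : T.Path v w) = ⟨q, hq⟩ := (hT.subsingleton_path v w).elim _ _
  have h3 : p = q := congrArg Subtype.val h2
  rw [← hp', ← hq', h3]

variable {J : SimpleGraph α} {s t : α}

theorem bd1_s (hBDF : SpecBDF) (K : Ch2 J s t) {e : Sym2 α} (he : s ∈ e) : K.bd1 e = 0 := by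
  by_contra h
  rcases hBDF.s1 K e h s he with h1 | h1
  · exact disjoint_left.1 (K.disj 0 1 (by decide)) K.sX h1
  · exact disjoint_left.1 (K.disj 0 2 (by decide)) K.sX h1

theorem bd0_t (hBDF : SpecBDF) (K : Ch2 J s t) {e : Sym2 α} (he : t ∈ e) : K.bd0 e = 0 := by
  by_contra h
  rcases hBDF.s0 K e h t he with h1 | h1
  · exact disjoint_left.1 (K.disj 0 2 (by decide)) h1 K.tX
  · exact disjoint_left.1 (K.disj 1 2 (by decide)) h1 K.tX

theorem kap (hBDF : SpecBDF) {c d : α} (h : Bd J s t c d) (K : Ch2 J s t) :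
    frm (kapm s c d) K.bd0 K.bd1 = 0 := by
  obtain ⟨hcd, hct, hdt, hN⟩ := h
  unfold kapm
  rw [frm_add, frm_sqm, frm_dtm, pr_ed, pr_ed, pr_ed, pr_ed,
    bd1_s hBDF K (e := s(s, c)) (Sym2.mem_mk_left _ _), mul_zero, add_zero]
  by_cases h1 : K.bd1 s(c, d) = 0
  · rw [h1, mul_zero, mul_zero, add_zero]
  -- `c`, `d` are not in `X 0`
  have d01 := disjoint_left.1 (K.disj 0 1 (by decide))
  have d02 := disjoint_left.1 (K.disj 0 2 (by decide))
  have d12 := disjoint_left.1 (K.disj 1 2 (by decide))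
  have hc0 : c ∉ K.X 0 := fun hc => by
    rcases hBDF.s1 K _ h1 c (Sym2.mem_mk_left _ _) with h2 | h2
    · exact d01 hc h2
    · exact d02 hc h2
  have hd0 : d ∉ K.X 0 := fun hc => by
    rcases hBDF.s1 K _ h1 d (Sym2.mem_mk_right _ _) with h2 | h2
    · exact d01 hc h2
    · exact d02 hc h2
  have ht0 : t ∉ K.X 0 := fun hc => d02 hc K.tX
  have hsc : s ≠ c := fun h => hc0 (h ▸ K.sX)
  have hsd : s ≠ d := fun h => hd0 (h ▸ K.sX)
  have hX0 : ∀ v ∈ K.X 0, v = s := by
    intro v hv
    obtain ⟨w⟩ := K.conn 0 s K.sX v hv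
    cases w with
    | nil => rfl
    | cons hx w' =>
      rename_i x
      exfalso
      have hx0 : x ∈ K.X 0 := K.inX 0 _ _ hx.symm
      rcases (hN x).1 (K.sub 0 hx) with h2 | h2 | h2
      · exact ht0 (h2 ▸ hx0)
      · exact hc0 (h2 ▸ hx0)
      · exact hd0 (h2 ▸ hx0)
  have hp : ∀ b, K.p 0 b = s := fun b => hX0 _ (K.pX 0 b)
  have hq1 : ∀ b, K.q 0 b ∈ K.X 1 := fun b => K.qX 0 b
  have hq : ∀ b, K.q 0 b = c ∨ K.q 0 b = d := by
    intro b
    have h2 := K.adj 0 b
    rw [hp b] at h2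
    rcases (hN _).1 h2 with h3 | h3 | h3
    · exfalso
      have h4 := hq1 b
      rw [h3] at h4
      exact d12 h4 K.tX
    · exact Or.inl h3
    · exact Or.inr h3
  have hqne : K.q 0 false ≠ K.q 0 true := by
    intro h2
    apply K.ne 0
    rw [hp, hp, h2]
  have hc1 : c ∈ K.X 1 ∧ d ∈ K.X 1 := by
    rcases hq false with h2 | h2 <;> rcases hq true with h3 | h3
    · exact absurd (h2.trans h3.symm) hqne
    · exact ⟨h2 ▸ hq1 false, h3 ▸ hq1 true⟩
    · exact ⟨h3 ▸ hq1 true, h2 ▸ hq1 false⟩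
    · exact absurd (h2.trans h3.symm) hqne
  -- `cd` is an edge of `T 1`
  have hT1 : (K.T 1).Adj c d := by
    rw [(hBDF.eq K).2] at h1
    simp only [Pi.add_apply] at h1
    have e1 : ∀ b, ed (K.p 1 b) (K.q 1 b) s(c, d) = 0 := by
      intro b
      by_contra h2
      have h3 := ed_ne h2
      have h4 : K.q 1 b ∈ K.X 2 := K.qX 1 b
      rcases Sym2.eq_iff.1 h3 with ⟨-, h5⟩ | ⟨h5, -⟩
      · exact d12 hc1.2 (h5 ▸ h4)
      · exact d12 hc1.1 (h5 ▸ h4)
    have e2 : chi (tp (K.T 2) (K.q 1 false) (K.q 1 true)) s(c, d) = 0 := by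
      apply chi_of_notMem
      intro h2
      have h3 : (K.T 2).Adj c d := tp_sub h2
      exact d12 hc1.1 (K.inX 2 _ _ h3)
    rw [e1, e1, e2, zero_add, zero_add, add_zero] at h1
    exact tp_sub (chi_ne_zero.1 h1)
  -- values of the first bead
  have hX : K.bd0 s(c, d) = 1 ∧ K.bd0 s(s, c) = 1 := by
    rw [(hBDF.eq K).1, hp, hp, tp_self]
    have hnT : ∀ x y, s(s, c) ∉ tp (K.T 1) x y := by
      intro x y h2
      have h3 : (K.T 1).Adj s c := tp_sub h2
      exact d01 K.sX (K.inX 1 _ _ h3)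
    have hne : ∀ x, s(c, d) ≠ s(s, x) := by
      intro x h2
      rcases Sym2.eq_iff.1 h2 with ⟨h3, -⟩ | ⟨-, h3⟩
      · exact hsc h3.symm
      · exact hsd h3.symm
    have hcc : chi (∅ : Finset (Sym2 α)) = 0 := by
      funext e
      simp [chi]
    rw [hcc]
    simp only [Pi.add_apply, ed_apply, if_neg (hne _), zero_add, add_zero,
      chi_of_notMem (hnT _ _)]
    have hmem : s(c, d) ∈ tp (K.T 1) c d := by
      rw [tp_adj (K.acyc 1) hT1]
      exact mem_singleton_self _
    have hmem' : s(c, d) ∈ tp (K.T 1) d c := by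
      rw [tp_adj (K.acyc 1) hT1.symm, Sym2.eq_swap]
      exact mem_singleton_self _
    have hscd : s(s, c) ≠ s(s, d) := by
      intro h2
      rcases Sym2.eq_iff.1 h2 with ⟨-, h3⟩ | ⟨h3, -⟩
      · exact hcd h3
      · exact hsd h3
    rcases hq false with h2 | h2 <;> rcases hq true with h3 | h3
    · exact absurd (h2.trans h3.symm) hqne
    · rw [h2, h3]
      exact ⟨chi_of_mem hmem, by rw [if_pos rfl, if_neg hscd, add_zero]⟩
    · rw [h2, h3]
      exact ⟨chi_of_mem hmem', by rw [if_pos rfl, if_neg hscd, zero_add]⟩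
    · exact absurd (h2.trans h3.symm) hqne
  rw [hX.1, hX.2]
  exact zmod2_add_self _

end KINM

open KINM in
theorem specKIN (hBDF : SpecBDF) : SpecKIN where
  at0 := by
    intro α _ _ J s t b hb
    exact ⟨hb.1, fun K => frm_at hb (Or.inr fun e he => bd1_s hBDF K he)⟩
  at1 := by
    intro α _ _ J s t b hb
    exact ⟨hb.1, fun K => frm_at hb (Or.inl fun e he => bd0_t hBDF K he)⟩
  dot := by
    intro α _ _ J s t v
    refine ⟨sy_dtm _ _, fun K => ?_⟩
    rw [frm_dtm, pr_ed, pr_ed, bd0_t hBDF K (Sym2.mem_mk_right _ _),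
      bd1_s hBDF K (Sym2.mem_mk_left _ _)]
    ring
  kap := by
    intro α _ _ J s t c d h
    exact ⟨sy_kapm _ _ _, fun K => KINM.kap hBDF h K⟩
  symm := by
    intro α _ _ J s t b hb
    refine ⟨hb.1, fun K => ?_⟩
    obtain ⟨K', h0, h1⟩ := hBDF.rv K
    have := hb.2 K'
    rwa [h0, h1, frm_symm hb.1] at this
  add := by
    intro α _ _ J s t b b' hb hb'
    exact ⟨sy_add hb.1 hb'.1, fun K => by rw [frm_add, hb.2 K, hb'.2 K, add_zero]⟩
  fe := by
    intro α _ _ J s t b b' hb hb' h
    exact ⟨hb', fun K => by rw [← h _ (hBDF.z0 K).1 _ (hBDF.z0 K).2, hb.2 K]⟩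

end DL
end

section
/-!
MP_3ff0f8_gt, ALGEBRA HALF, R1A block: module KJM (helper35).
-/
open SimpleGraph Finset

namespace DL

theorem specKJM (hKIN : SpecKIN) : SpecKJM where
  mem := by
    intro α _ _ G u w i j hij B
    constructor
    · intro hB
      unfold KJ at hB
      refine Submodule.span_induction (p := fun B _ => ∃ b, InK (del G {u}) (w i) (w j) b ∧
        B = rf (del G {u}) b) ?_ ?_ ?_ ?_ hB
      · rintro _ ⟨i', j', he, hij', b, hb, rfl⟩
        rcases Sym2.eq_iff.1 he with ⟨rfl, rfl⟩ | ⟨rfl, rfl⟩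
        · exact ⟨b, hb, rfl⟩
        · exact ⟨b, hKIN.symm hb, rfl⟩
      · refine ⟨0, ⟨sy_zero, fun K => frm_zero _ _⟩, ?_⟩
        funext X Y
        exact (frm_zero _ _).symm
      · rintro _ _ _ _ ⟨b, hb, rfl⟩ ⟨b', hb', rfl⟩
        refine ⟨b + b', hKIN.add hb hb', ?_⟩
        funext X Y
        exact (frm_add _ _ _ _).symm
      · rintro k _ _ ⟨b, hb, rfl⟩
        refine ⟨k • b, ⟨sy_smul k hb.1, fun K => by rw [frm_smul, hb.2 K, mul_zero]⟩, ?_⟩
        funext X Y
        exact (frm_smul _ _ _ _).symm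
    · rintro ⟨b, hb, rfl⟩
      exact Submodule.subset_span ⟨i, j, rfl, hij, b, hb, rfl⟩
  diag := by
    intro α _ _ G u w e he
    unfold KJ
    rw [Submodule.span_eq_bot]
    rintro _ ⟨i, j, rfl, hij, -⟩
    exact absurd (Sym2.mk_isDiag_iff.1 he) hij

end DL
end

section
/-!
# Module M33: recognition of `K_3 □ K_3`
-/
open SimpleGraph Finset

namespace DL

set_option maxHeartbeats 1000000 in
theorem specM33 : SpecM33 := by
  intro α _ _ G u a b c d p q r s hnd hV hu ha hb hc hd hp hq hr hs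
  have hv : ∀ i j, (![![u, a, b], ![c, p, r], ![d, q, s]] : Fin 3 → Fin 3 → α) i j =
      [u, a, b, c, p, r, d, q, s].get ⟨3 * i.val + j.val, by
        have := i.isLt
        have := j.isLt
        simp only [List.length_cons, List.length_nil]
        omega⟩ := by
    intro i j
    fin_cases i <;> fin_cases j <;> rfl
  have hnd' : [u, a, b, c, p, r, d, q, s].Nodup := by
    simp only [List.nodup_cons, List.mem_cons, List.not_mem_nil, or_false, not_or,
      not_false_eq_true, List.nodup_nil, and_true] at hnd ⊢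
    tauto
  refine ⟨![![u, a, b], ![c, p, r], ![d, q, s]], ?_, ?_⟩
  · intro i j k l h
    rw [hv, hv] at h
    have h1 := (List.Nodup.get_inj_iff hnd').1 h
    rw [Fin.mk.injEq] at h1
    have := i.isLt
    have := j.isLt
    have := k.isLt
    have := l.isLt
    constructor <;> apply Fin.ext <;> omega
  · intro x y
    constructor
    · intro hxy
      have hx := hV x (left_mem_VS hxy)
      simp only [List.mem_cons, List.not_mem_nil, or_false] at hx
      rcases hx with rfl | rfl | rfl | rfl | rfl | rfl | rfl | rfl | rfl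
      · rw [hu] at hxy
        simp only [List.mem_cons, List.not_mem_nil, or_false] at hxy
        rcases hxy with rfl | rfl | rfl | rfl
        · exact ⟨0, 0, 0, 1, rfl, rfl, by decide⟩
        · exact ⟨0, 0, 0, 2, rfl, rfl, by decide⟩
        · exact ⟨0, 0, 1, 0, rfl, rfl, by decide⟩
        · exact ⟨0, 0, 2, 0, rfl, rfl, by decide⟩
      · rw [ha] at hxy
        simp only [List.mem_cons, List.not_mem_nil, or_false] at hxy
        rcases hxy with rfl | rfl | rfl | rfl
        · exact ⟨0, 1, 0, 0, rfl, rfl, by decide⟩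
        · exact ⟨0, 1, 0, 2, rfl, rfl, by decide⟩
        · exact ⟨0, 1, 1, 1, rfl, rfl, by decide⟩
        · exact ⟨0, 1, 2, 1, rfl, rfl, by decide⟩
      · rw [hb] at hxy
        simp only [List.mem_cons, List.not_mem_nil, or_false] at hxy
        rcases hxy with rfl | rfl | rfl | rfl
        · exact ⟨0, 2, 0, 0, rfl, rfl, by decide⟩
        · exact ⟨0, 2, 0, 1, rfl, rfl, by decide⟩
        · exact ⟨0, 2, 1, 2, rfl, rfl, by decide⟩
        · exact ⟨0, 2, 2, 2, rfl, rfl, by decide⟩
      · rw [hc] at hxy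
        simp only [List.mem_cons, List.not_mem_nil, or_false] at hxy
        rcases hxy with rfl | rfl | rfl | rfl
        · exact ⟨1, 0, 0, 0, rfl, rfl, by decide⟩
        · exact ⟨1, 0, 2, 0, rfl, rfl, by decide⟩
        · exact ⟨1, 0, 1, 1, rfl, rfl, by decide⟩
        · exact ⟨1, 0, 1, 2, rfl, rfl, by decide⟩
      · rw [hd] at hxy
        simp only [List.mem_cons, List.not_mem_nil, or_false] at hxy
        rcases hxy with rfl | rfl | rfl | rfl
        · exact ⟨2, 0, 0, 0, rfl, rfl, by decide⟩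
        · exact ⟨2, 0, 1, 0, rfl, rfl, by decide⟩
        · exact ⟨2, 0, 2, 1, rfl, rfl, by decide⟩
        · exact ⟨2, 0, 2, 2, rfl, rfl, by decide⟩
      · rw [hp] at hxy
        simp only [List.mem_cons, List.not_mem_nil, or_false] at hxy
        rcases hxy with rfl | rfl | rfl | rfl
        · exact ⟨1, 1, 0, 1, rfl, rfl, by decide⟩
        · exact ⟨1, 1, 1, 0, rfl, rfl, by decide⟩
        · exact ⟨1, 1, 2, 1, rfl, rfl, by decide⟩
        · exact ⟨1, 1, 1, 2, rfl, rfl, by decide⟩
      · rw [hq] at hxy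
        simp only [List.mem_cons, List.not_mem_nil, or_false] at hxy
        rcases hxy with rfl | rfl | rfl | rfl
        · exact ⟨2, 1, 0, 1, rfl, rfl, by decide⟩
        · exact ⟨2, 1, 2, 0, rfl, rfl, by decide⟩
        · exact ⟨2, 1, 1, 1, rfl, rfl, by decide⟩
        · exact ⟨2, 1, 2, 2, rfl, rfl, by decide⟩
      · rw [hr] at hxy
        simp only [List.mem_cons, List.not_mem_nil, or_false] at hxy
        rcases hxy with rfl | rfl | rfl | rfl
        · exact ⟨1, 2, 0, 2, rfl, rfl, by decide⟩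
        · exact ⟨1, 2, 1, 0, rfl, rfl, by decide⟩
        · exact ⟨1, 2, 1, 1, rfl, rfl, by decide⟩
        · exact ⟨1, 2, 2, 2, rfl, rfl, by decide⟩
      · rw [hs] at hxy
        simp only [List.mem_cons, List.not_mem_nil, or_false] at hxy
        rcases hxy with rfl | rfl | rfl | rfl
        · exact ⟨2, 2, 0, 2, rfl, rfl, by decide⟩
        · exact ⟨2, 2, 2, 0, rfl, rfl, by decide⟩
        · exact ⟨2, 2, 2, 1, rfl, rfl, by decide⟩
        · exact ⟨2, 2, 1, 2, rfl, rfl, by decide⟩
    · rintro ⟨i, j, k, l, rfl, rfl, hh⟩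
      fin_cases i <;> fin_cases j <;> fin_cases k <;> fin_cases l <;>
        first
        | exact absurd hh (by decide)
        | exact (hu _).2 (by simp)
        | exact (ha _).2 (by simp)
        | exact (hb _).2 (by simp)
        | exact (hc _).2 (by simp)
        | exact (hd _).2 (by simp)
        | exact (hp _).2 (by simp)
        | exact (hq _).2 (by simp)
        | exact (hr _).2 (by simp)
        | exact (hs _).2 (by simp)

end DL
end
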