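import Pool.Agent.DL.R1A.Spec
import Pool.Agent.DL.EX.VRS
import Pool.Agent.DL.KC
import Pool.Agent.DL.TREE

section
/-!
# MP_3ff0f8_gt, ALGEBRA HALF, R1A block, module BDF: beads of 2-bead chains
-/
open SimpleGraph Finset

namespace DL

namespace BDFM

variable {α : Type} [Fintype α] [DecidableEq α] {G : SimpleGraph α}

theorem eq_aux (hTRE : SpecTRE) (hDCB : SpecDCB) {s t : α} (K : Ch2 G s t) :
    K.bd0 = ed (K.p 0 false) (K.q 0 false) + ed (K.p 0 true) (K.q 0 true) +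
      chi (tp (K.T 0) (K.p 0 false) (K.p 0 true)) + chi (tp (K.T 1) (K.q 0 false) (K.q 0 true)) ∧
    K.bd1 = ed (K.p 1 false) (K.q 1 false) + ed (K.p 1 true) (K.q 1 true) +
      chi (tp (K.T 1) (K.p 1 false) (K.p 1 true)) + chi (tp (K.T 2) (K.q 1 false) (K.q 1 true)) := by
  have hff := (hDCB.pth K ![false, false]).2.2
  have htf := (hDCB.pth K ![true, false]).2.2
  have hft := (hDCB.pth K ![false, true]).2.2
  simp only [Matrix.cons_val_zero, Matrix.cons_val_one] at hff htf hft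
  have q0X : ∀ b, K.q 0 b ∈ K.X 1 := fun b => K.qX 0 b
  have p1X : ∀ b, K.p 1 b ∈ K.X 1 := fun b => K.pX 1 b
  have p0X : ∀ b, K.p 0 b ∈ K.X 0 := fun b => K.pX 0 b
  have q1X : ∀ b, K.q 1 b ∈ K.X 2 := fun b => K.qX 1 b
  constructor
  · rw [Ch2.bd0, hff, htf]
    have h1 := hTRE.four (DCBM.treeK K 0) s K.sX _ (p0X false) _ (p0X true)
    have h2 := hTRE.four (DCBM.treeK K 1) _ (p1X false) _ (q0X false) _ (q0X true)
    rw [DCBM.chi_comm hTRE (DCBM.treeK K 1) (p1X false) (q0X false),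
      DCBM.chi_comm hTRE (DCBM.treeK K 1) (p1X false) (q0X true)] at h2
    rw [← h1, ← h2, ed, ed]
    funext e
    simp only [Pi.add_apply]
    have h3 := zmod2_add_self (chi {s(K.p 1 false, K.q 1 false)} e)
    have h4 := zmod2_add_self (chi (tp (K.T 2) (K.q 1 false) t) e)
    linear_combination h3 + h4
  · rw [Ch2.bd1, hff, hft]
    have h1 := hTRE.four (DCBM.treeK K 1) _ (q0X false) _ (p1X false) _ (p1X true)
    have h2 := hTRE.four (DCBM.treeK K 2) _ K.tX _ (q1X false) _ (q1X true)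
    rw [DCBM.chi_comm hTRE (DCBM.treeK K 2) K.tX (q1X false),
      DCBM.chi_comm hTRE (DCBM.treeK K 2) K.tX (q1X true)] at h2
    rw [← h1, ← h2, ed, ed]
    funext e
    simp only [Pi.add_apply]
    have h3 := zmod2_add_self (chi {s(K.p 0 false, K.q 0 false)} e)
    have h4 := zmod2_add_self (chi (tp (K.T 0) s (K.p 0 false)) e)
    linear_combination h3 + h4

theorem mem_tp (hTRE : SpecTRE) {T : SimpleGraph α} {X : Finset α} (hT : TreeOn T X) {v w : α}
    (hv : v ∈ X) (hw : w ∈ X) {e : Sym2 α} (he : chi (tp T v w) e ≠ 0) : ∀ x ∈ e, x ∈ X := by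
  rw [chi_ne_zero] at he
  have h1 := (hTRE.tp hT v hv w hw).1.subset e he
  intro x hx
  induction e with
  | _ a b =>
    rw [SimpleGraph.mem_edgeSet] at h1
    rcases Sym2.mem_iff.1 hx with rfl | rfl
    · exact hT.inX _ _ h1
    · exact hT.inX _ _ h1.symm

theorem four_ne {a b c d : ZMod 2} (h : a + b + c + d ≠ 0) : a ≠ 0 ∨ b ≠ 0 ∨ c ≠ 0 ∨ d ≠ 0 := by
  by_contra h1
  push Not at h1
  obtain ⟨h2, h3, h4, h5⟩ := h1
  apply h
  rw [h2, h3, h4, h5]
  simp

theorem supp (hTRE : SpecTRE) {T T' : SimpleGraph α} {X X' : Finset α} (hT : TreeOn T X)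
    (hT' : TreeOn T' X') {p q : Bool → α} (hp : ∀ b, p b ∈ X) (hq : ∀ b, q b ∈ X') (e : Sym2 α)
    (he : (ed (p false) (q false) + ed (p true) (q true) + chi (tp T (p false) (p true)) +
      chi (tp T' (q false) (q true))) e ≠ 0) : ∀ v ∈ e, v ∈ X ∨ v ∈ X' := by
  simp only [Pi.add_apply] at he
  intro v hv
  rcases four_ne he with h | h | h | h
  · have h1 := ed_ne h
    subst h1
    rcases Sym2.mem_iff.1 hv with rfl | rfl
    · exact Or.inl (hp _)
    · exact Or.inr (hq _)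
  · have h1 := ed_ne h
    subst h1
    rcases Sym2.mem_iff.1 hv with rfl | rfl
    · exact Or.inl (hp _)
    · exact Or.inr (hq _)
  · exact Or.inl (mem_tp hTRE hT (hp _) (hp _) h v hv)
  · exact Or.inr (mem_tp hTRE hT' (hq _) (hq _) h v hv)

theorem vec_eq (e : Fin 2 → Bool) : e = ![e 0, e 1] := by
  funext i; fin_cases i <;> rfl

end BDFM

theorem specBDF (hTRE : SpecTRE) (hDCB : SpecDCB) : SpecBDF where
  z0 := by
    intro α _ _ G s t K
    obtain ⟨⟨Z, hZ, h1⟩, ⟨Z', hZ', h2⟩⟩ := hDCB.bead K false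
    refine ⟨?_, ?_⟩
    · rw [Ch2.bd0, h1]; exact hZ.chi_mem
    · rw [Ch2.bd1, h2]; exact hZ'.chi_mem
  eq := by
    intro α _ _ G s t K
    exact BDFM.eq_aux hTRE hDCB K
  s0 := by
    intro α _ _ G s t K e he
    rw [(BDFM.eq_aux hTRE hDCB K).1] at he
    exact BDFM.supp hTRE (DCBM.treeK K 0) (DCBM.treeK K 1) (K.pX 0) (K.qX 0) e he
  s1 := by
    intro α _ _ G s t K e he
    rw [(BDFM.eq_aux hTRE hDCB K).2] at he
    exact BDFM.supp hTRE (DCBM.treeK K 1) (DCBM.treeK K 2) (K.pX 1) (K.qX 1) e he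
  sw := by
    intro α _ _ G s t K e
    have h4 := hDCB.four K
    rw [DCBM.two_sum] at h4
    rw [BDFM.vec_eq e]
    generalize e 0 = a
    generalize e 1 = b
    simp only [Matrix.cons_val_zero, Matrix.cons_val_one, Ch2.bd0, Ch2.bd1]
    have e1 := chain_add_self (chi (K.pth ![false, false]))
    cases a <;> cases b
    · simp
    · simp only [Bool.false_eq_true, if_false, if_true, add_zero]
      rw [← add_assoc, e1, zero_add]
    · simp only [Bool.false_eq_true, if_false, if_true, add_zero]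
      rw [← add_assoc, e1, zero_add]
    · simp only [if_true]
      funext x
      have h5 := congrFun h4 x
      have h6 := congrFun e1 x
      have h7 := zmod2_add_self (chi (K.pth ![true, true]) x)
      simp only [Pi.add_apply, Pi.zero_apply] at h5 h6 ⊢
      linear_combination h7 - h5 - h6
  re := by
    intro α _ _ G s t K s' t' hs ht
    refine ⟨{ X := K.X, disj := K.disj, T := K.T, sub := K.sub, inX := K.inX, conn := K.conn,
              acyc := K.acyc, sX := hs, tX := ht, p := K.p, q := K.q, pX := K.pX, qX := K.qX,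
              adj := K.adj, ne := K.ne }, rfl, rfl, rfl, rfl, ?_, ?_⟩
    · rw [(BDFM.eq_aux hTRE hDCB _).1, (BDFM.eq_aux hTRE hDCB K).1]
    · rw [(BDFM.eq_aux hTRE hDCB _).2, (BDFM.eq_aux hTRE hDCB K).2]
  rv := by
    intro α _ _ G s t K
    refine ⟨{ X := fun i => K.X i.rev, disj := fun i j h => K.disj _ _ (fun h' => h (Fin.rev_injective h')),
              T := fun i => K.T i.rev, sub := fun i => K.sub _, inX := fun i => K.inX _,
              conn := fun i => K.conn _, acyc := fun i => K.acyc _, sX := K.tX, tX := K.sX,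
              p := fun i b => K.q i.rev b, q := fun i b => K.p i.rev b,
              pX := fun i b => by rw [Fin.rev_castSucc]; exact K.qX _ b,
              qX := fun i b => by rw [Fin.rev_succ]; exact K.pX _ b,
              adj := fun i b => (K.adj _ b).symm,
              ne := fun i h => K.ne i.rev (by
                rw [Sym2.eq_swap, h, Sym2.eq_swap]) }, ?_, ?_⟩
    · rw [(BDFM.eq_aux hTRE hDCB _).1, (BDFM.eq_aux hTRE hDCB K).2]
      show ed (K.q 1 false) (K.p 1 false) + ed (K.q 1 true) (K.p 1 true) +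
        chi (tp (K.T 2) (K.q 1 false) (K.q 1 true)) + chi (tp (K.T 1) (K.p 1 false) (K.p 1 true)) = _
      rw [ed_comm (K.q 1 false), ed_comm (K.q 1 true)]
      exact add_right_comm _ _ _
    · rw [(BDFM.eq_aux hTRE hDCB _).2, (BDFM.eq_aux hTRE hDCB K).1]
      show ed (K.q 0 false) (K.p 0 false) + ed (K.q 0 true) (K.p 0 true) +
        chi (tp (K.T 1) (K.q 0 false) (K.q 0 true)) + chi (tp (K.T 0) (K.p 0 false) (K.p 0 true)) = _
      rw [ed_comm (K.q 0 false), ed_comm (K.q 0 true)]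
      exact add_right_comm _ _ _
  mono := by
    intro α _ _ G G' s t K hle
    exact ⟨{ X := K.X, disj := K.disj, T := K.T, sub := fun i => (K.sub i).trans hle, inX := K.inX,
              conn := K.conn, acyc := K.acyc, sX := K.sX, tX := K.tX, p := K.p, q := K.q, pX := K.pX,
              qX := K.qX, adj := fun i b => hle (K.adj i b), ne := K.ne }, rfl, rfl, rfl, rfl,
            fun _ => rfl, rfl, rfl⟩

end DL
end

section
/-!
MP_3ff0f8_gt, R1A block: BS0 (two disjoint edges between neighbours of `u`, no `θ`).  (helper85)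
-/
open SimpleGraph Finset

namespace DL

set_option linter.unusedSectionVars false

namespace BS0M

variable {α : Type} [Fintype α] [DecidableEq α] {G : SimpleGraph α} {u : α} {w : Fin 4 → α}

/-- spanning trees -/
theorem span {A : Finset α} {H : SimpleGraph α} (hin : ∀ v w, H.Adj v w → v ∈ A)
    (hc : ∀ v ∈ A, ∀ w ∈ A, H.Reachable v w) : ∃ T ≤ H, TreeOn T A := by
  obtain ⟨T, hle, hac, hr⟩ := H.exists_isAcyclic_reachable_eq_le
  exact ⟨T, hle, fun v w h => hin v w (hle h), fun v hv w hw => by rw [hr]; exact hc v hv w hw, hac⟩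

/-- reachability inside a closed set -/
theorem reach_closed {A C : Finset α} (hA : ∀ a ∈ A, ∀ b ∈ C, G.Adj a b → b ∈ A) {x y : α}
    (hx : x ∈ A) (h : (del G (univ \ C)).Reachable x y) :
    y ∈ A ∧ (del G (univ \ A)).Reachable x y := by
  obtain ⟨p⟩ := h
  induction p with
  | nil => exact ⟨hx, Reachable.refl _⟩
  | cons h p ih =>
    have h1 := hA _ hx _ (by simpa using h.2.2) h.1
    obtain ⟨h2, h3⟩ := ih h1
    refine ⟨h2, Reachable.trans (Adj.reachable ?_) h3⟩
    exact ⟨h.1, by simpa using hx, by simpa using h1⟩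

/-- the component of `x` in `G[C]` with a spanning tree -/
theorem comp (G : SimpleGraph α) {C : Finset α} {x : α} (hx : x ∈ C) : ∃ A ⊆ C, x ∈ A ∧
    (∀ a ∈ A, ∀ b ∈ C, G.Adj a b → b ∈ A) ∧
    (∀ a ∈ A, ∀ b ∈ A, (del G (univ \ A)).Reachable a b) ∧
    (∀ b ∈ C, (del G (univ \ C)).Reachable x b → b ∈ A) := by
  classical
  have hcl : ∀ a ∈ C.filter (fun a => (del G (univ \ C)).Reachable x a), ∀ b ∈ C, G.Adj a b →
      b ∈ C.filter (fun a => (del G (univ \ C)).Reachable x a) := by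
    intro a ha b hb hab
    rw [mem_filter] at ha ⊢
    refine ⟨hb, ha.2.trans (Adj.reachable ?_)⟩
    exact ⟨hab, by simpa using ha.1, by simpa using hb⟩
  have hxm : x ∈ C.filter (fun a => (del G (univ \ C)).Reachable x a) :=
    mem_filter.2 ⟨hx, Reachable.refl _⟩
  refine ⟨C.filter (fun a => (del G (univ \ C)).Reachable x a), filter_subset _ _, hxm, hcl, ?_, ?_⟩
  · have h1 : ∀ a ∈ C.filter (fun a => (del G (univ \ C)).Reachable x a),
        (del G (univ \ C.filter (fun a => (del G (univ \ C)).Reachable x a))).Reachable x a :=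
      fun a ha => (reach_closed hcl hxm (mem_filter.1 ha).2).2
    exact fun a ha b hb => (h1 a ha).symm.trans (h1 b hb)
  · exact fun b hb h => mem_filter.2 ⟨hb, h⟩

theorem tree (G : SimpleGraph α) {A : Finset α}
    (h : ∀ a ∈ A, ∀ b ∈ A, (del G (univ \ A)).Reachable a b) :
    ∃ T ≤ del G (univ \ A), TreeOn T A :=
  span (fun v w h => by simpa using h.2.1) h

/-- the chain of a tree path lives on the tree -/
theorem tp_zero (hTRE : SpecTRE) {T : SimpleGraph α} {X : Finset α} (hT : TreeOn T X) {a b : α}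
    (ha : a ∈ X) (hb : b ∈ X) {e : Sym2 α} {v : α} (hv : v ∈ e) (hvX : v ∉ X) :
    chi (tp T a b) e = 0 := by
  refine chi_of_notMem fun he => hvX ?_
  have h1 := (hTRE.tp hT a ha b hb).1.subset e he
  induction e using Sym2.ind with
  | _ p q =>
    rw [mem_edgeSet] at h1
    rw [Sym2.mem_iff] at hv
    rcases hv with rfl | rfl
    · exact hT.inX _ _ h1
    · exact hT.inX _ _ h1.symm

theorem notMem_CC (i : Fin 4) : w i ∉ CC G u w := by
  intro h
  rw [CC, mem_sdiff] at h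
  exact h.2 (mem_insert_of_mem (mem_image_of_mem w (mem_univ i)))

theorem ed_self (a b : α) : ed a b s(a, b) = 1 := by
  rw [ed_apply, if_pos rfl]

theorem ed_zero {a b : α} {e : Sym2 α} (h : e ≠ s(a, b)) : ed a b e = 0 := by
  rw [ed_apply, if_neg h]

theorem ed_zero_of {a b v : α} {e : Sym2 α} (hv : v ∈ e) (ha : v ≠ a) (hb : v ≠ b) :
    ed a b e = 0 := by
  refine ed_zero fun h => ?_
  rw [h, Sym2.mem_iff] at hv
  rcases hv with h | h
  · exact ha h
  · exact hb h

/-- the values of the beads at the edges between neighbours of `u` -/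
theorem bead_self (hTRE : SpecTRE) (hinj : Function.Injective w) {T : SimpleGraph α}
    {X : Finset α} (hT : TreeOn T X) (hX : X ⊆ CC G u w) {k l : Fin 4} (hkl : k ≠ l) {a b : α}
    (ha : a ∈ X) (hb : b ∈ X) :
    (ed (w k) a + ed (w l) b + ed (w k) (w l) + chi (tp T a b)) s(w k, w l) = 1 := by
  have ha' : a ∈ CC G u w := hX ha
  have hb' : b ∈ CC G u w := hX hb
  have hna : ∀ i, w i ≠ a := fun i h => notMem_CC (G := G) (u := u) i (h ▸ ha')
  have hnb : ∀ i, w i ≠ b := fun i h => notMem_CC (G := G) (u := u) i (h ▸ hb')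
  have hne : w k ≠ w l := fun h => hkl (hinj h)
  rw [Pi.add_apply, Pi.add_apply, Pi.add_apply, ed_self,
    ed_zero_of (v := w l) (Sym2.mem_mk_right _ _) hne.symm (hna l),
    ed_zero_of (v := w k) (Sym2.mem_mk_left _ _) hne (hnb k),
    tp_zero hTRE hT ha hb (Sym2.mem_mk_left (w k) (w l)) fun h => notMem_CC (G := G) (u := u) k (hX h)]
  norm_num

theorem bead_other (hTRE : SpecTRE) (hinj : Function.Injective w) {T : SimpleGraph α}
    {X : Finset α} (hT : TreeOn T X) (hX : X ⊆ CC G u w) {k l m : Fin 4} (hmk : m ≠ k)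
    (hml : m ≠ l) {a b : α} (ha : a ∈ X) (hb : b ∈ X) {e : Sym2 α} (he : w m ∈ e) :
    (ed (w k) a + ed (w l) b + ed (w k) (w l) + chi (tp T a b)) e = 0 := by
  have ha' : a ∈ CC G u w := hX ha
  have hb' : b ∈ CC G u w := hX hb
  have hna : ∀ i, w i ≠ a := fun i h => notMem_CC (G := G) (u := u) i (h ▸ ha')
  have hnb : ∀ i, w i ≠ b := fun i h => notMem_CC (G := G) (u := u) i (h ▸ hb')
  have h1 : w m ≠ w k := fun h => hmk (hinj h)
  have h2 : w m ≠ w l := fun h => hml (hinj h)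
  rw [Pi.add_apply, Pi.add_apply, Pi.add_apply, ed_zero_of he h1 (hna m), ed_zero_of he h2 (hnb m),
    ed_zero_of he h1 h2,
    tp_zero hTRE hT ha hb he fun h => notMem_CC (G := G) (u := u) m (hX h)]
  norm_num

end BS0M

open BS0M in
theorem specBS0 (hTRE : SpecTRE) (hTPD : SpecTPD) (hCWC : SpecCWC) : SpecBS0 := by
  intro α _ _ G u w h k l m p hnd hkl hmp
  have hnd' : k ≠ l ∧ k ≠ m ∧ k ≠ p ∧ l ≠ m ∧ l ≠ p ∧ m ≠ p := by
    simp only [List.nodup_cons, List.mem_cons, List.not_mem_nil, or_false, not_or] at hnd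
    tauto
  obtain ⟨n1, n2, n3, n4, n5, n6⟩ := hnd'
  have hcard := (hCWC.card h).1
  obtain ⟨x, hx⟩ : (CC G u w).Nonempty := card_pos.1 (by omega)
  obtain ⟨A, hAC, hxA, hcl, hcon, -⟩ := comp G hx
  obtain ⟨T, hT, hTA⟩ := tree G hcon
  have hnb := hCWC.nbC h A hAC ⟨x, hxA⟩ hcl
  obtain ⟨ak, hak, jk⟩ := hnb k
  obtain ⟨al, hal, jl⟩ := hnb l
  obtain ⟨am, ham, jm⟩ := hnb m
  obtain ⟨ap, hap, jp⟩ := hnb p
  have hC := hTPD h k l m p hnd hkl hmp T A hTA (hT.trans (del_le _ _)) hAC ak hak al hal am ham ap hap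
    jk jl jm jp
  exact ⟨_, _, hC, bead_self hTRE h.inj hTA hAC n1 hak hal, bead_self hTRE h.inj hTA hAC n6 ham hap,
    bead_other hTRE h.inj hTA hAC n2.symm n4.symm hak hal (Sym2.mem_mk_left _ _)⟩

end DL
end

section
/-!
# CBS: bridges of `G[C]` and cycles through them
-/
open SimpleGraph Finset

namespace DL

namespace CBSM

variable {α : Type} [Fintype α] [DecidableEq α] {G : SimpleGraph α} {u : α} {w : Fin 4 → α}

omit [Fintype α] in
theorem mem_WW {v : α} : v ∈ WW w ↔ ∃ i, v = w i := by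
  unfold WW
  simp only [mem_image, mem_univ, true_and]
  exact ⟨fun ⟨i, h⟩ => ⟨i, h.symm⟩, fun ⟨i, h⟩ => ⟨i, h.symm⟩⟩

omit [Fintype α] in
theorem mem_UW {v : α} : v ∈ insert u (WW w) ↔ v = u ∨ ∃ i, v = w i := by
  rw [mem_insert, mem_WW]

theorem mem_CC {v : α} : v ∈ CC G u w ↔ v ∈ VS G ∧ v ≠ u ∧ ∀ i, v ≠ w i := by
  unfold CC
  rw [mem_sdiff, mem_UW, not_or, not_exists]

theorem MM_adj {a b : α} : (MM G u w).Adj a b ↔
    G.Adj a b ∧ a ≠ u ∧ b ≠ u ∧ ∀ i j, s(a, b) ≠ s(w i, w j) := by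
  unfold MM
  rw [deleteEdges_adj, del_adj, mem_singleton, mem_singleton, Set.mem_ofPred_eq, not_exists]
  constructor
  · rintro ⟨⟨h1, h2, h3⟩, h4⟩
    exact ⟨h1, h2, h3, fun i j e => h4 i ⟨j, e⟩⟩
  · rintro ⟨h1, h2, h3, h4⟩
    exact ⟨⟨h1, h2, h3⟩, fun i ⟨j, e⟩ => h4 i j e⟩

/-- edges with one end outside `WW w` -/
theorem MM_adj_of {a b : α} (h : G.Adj a b) (ha : a ≠ u) (hb : b ≠ u) (hb' : ∀ i, b ≠ w i) :
    (MM G u w).Adj a b := by
  rw [MM_adj]
  refine ⟨h, ha, hb, fun i j e => ?_⟩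
  rw [Sym2.eq_iff] at e
  rcases e with ⟨_, e⟩ | ⟨_, e⟩
  · exact hb' j e
  · exact hb' i e

/-- vertices connected to `c` in `R` form a connected set -/
theorem cset {R : SimpleGraph α} {P : Finset α} {c : α} (hR : R ≤ G) (hc : c ∈ P)
    (h1 : ∀ v ∈ P, R.Reachable c v) (h2 : ∀ v v', R.Adj v v' → v ∈ P → v' ∈ P) : CSet G P := by
  have key : ∀ v ∈ P, (del G (univ \ P)).Reachable c v := by
    intro v hv
    have h3 := DL.mem_of_reachable (X := {x | x ∈ P ∧ (del G (univ \ P)).Reachable c x})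
      (h1 v hv) ⟨hc, Reachable.refl _⟩ (by
        rintro x y hxy ⟨hx, hx'⟩
        have hy := h2 x y hxy hx
        refine ⟨hy, hx'.trans (Adj.reachable ⟨hR hxy, ?_, ?_⟩)⟩
        · simp [hx]
        · simp [hy])
    exact h3.2
  exact ⟨⟨c, hc⟩, fun a ha b hb => (key a ha).symm.trans (key b hb)⟩

theorem side (hc : ConnOff G (insert u (WW w))) {c d : α} (hcC : c ∈ CC G u w)
    (hdC : d ∈ CC G u w) (hcd : G.Adj c d)
    (hZ : ∀ Z ∈ Z1 (del G (insert u (WW w))), Z s(c, d) = 0) :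
    ∃ P Q : Finset α, P ∪ Q = CC G u w ∧ Disjoint P Q ∧ c ∈ P ∧ d ∈ Q ∧ CSet G P ∧ CSet G Q ∧
      ∀ x ∈ P, ∀ y ∈ Q, G.Adj x y → x = c ∧ y = d := by
  classical
  have mC : ∀ {v}, v ∈ CC G u w ↔ v ∈ VS G ∧ v ∉ insert u (WW w) := fun {v} => mem_sdiff
  set D := del G (insert u (WW w)) with hD
  set R := delE D c d with hR
  have hDcd : D.Adj c d := ⟨hcd, (mC.1 hcC).2, (mC.1 hdC).2⟩
  have hRD : R ≤ D := delE_le _ _ _
  have hDG : D ≤ G := fun x y h => h.1
  have hDC : ∀ {x y}, D.Adj x y → y ∈ CC G u w := by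
    intro x y h
    exact mC.2 ⟨right_mem_VS h.1, h.2.2⟩
  -- no path in `R` from `c` to `d`
  have hnr : ¬ R.Reachable c d := by
    intro hr
    obtain ⟨P, hP⟩ := exists_isPth hr
    have h1 : s(c, d) ∉ P := fun h => (delE_adj.1 (hP.subset _ h)).2 rfl
    have h2 := (hP.mono hRD).isCyc hDcd h1
    have h3 := hZ _ h2.chi_mem
    rw [chi_of_mem (mem_insert_self _ _)] at h3
    exact one_ne_zero h3
  let P : Finset α := (CC G u w).filter fun v => R.Reachable c v
  let Q : Finset α := (CC G u w).filter fun v => R.Reachable d v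
  have mP : ∀ {v}, v ∈ P ↔ v ∈ CC G u w ∧ R.Reachable c v := fun {v} => mem_filter
  have mQ : ∀ {v}, v ∈ Q ↔ v ∈ CC G u w ∧ R.Reachable d v := fun {v} => mem_filter
  have hcP : c ∈ P := mP.2 ⟨hcC, Reachable.refl _⟩
  have hdQ : d ∈ Q := mQ.2 ⟨hdC, Reachable.refl _⟩
  have hdisj : ∀ {x}, R.Reachable c x → ¬ R.Reachable d x := fun h h' => hnr (h.trans h'.symm)
  refine ⟨P, Q, ?_, ?_, hcP, hdQ, ?_, ?_, ?_⟩
  · apply Subset.antisymm
    · exact union_subset (filter_subset _ _) (filter_subset _ _)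
    · intro x hx
      have h1 : D.Reachable c x := hc c (mC.1 hcC).1 x (mC.1 hx).1 (mC.1 hcC).2 (mC.1 hx).2
      have h2 := DL.mem_of_reachable (X := {x | R.Reachable c x ∨ R.Reachable d x}) h1
        (Or.inl (Reachable.refl _)) (by
          intro a b hab ha
          by_cases e : s(a, b) = s(c, d)
          · rw [Sym2.eq_iff] at e
            rcases e with ⟨rfl, rfl⟩ | ⟨rfl, rfl⟩
            · exact Or.inr (Reachable.refl _)
            · exact Or.inl (Reachable.refl _)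
          · have h3 : R.Adj a b := delE_adj.2 ⟨hab, e⟩
            rcases ha with ha | ha
            · exact Or.inl (ha.trans h3.reachable)
            · exact Or.inr (ha.trans h3.reachable))
      rw [mem_union, mP, mQ]
      rcases h2 with h2 | h2
      · exact Or.inl ⟨hx, h2⟩
      · exact Or.inr ⟨hx, h2⟩
  · rw [Finset.disjoint_left]
    intro x hx hx'
    exact hdisj (mP.1 hx).2 (mQ.1 hx').2
  · exact cset (hRD.trans hDG) hcP (fun v hv => (mP.1 hv).2) fun v v' h hv =>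
      mP.2 ⟨hDC (hRD h), (mP.1 hv).2.trans h.reachable⟩
  · exact cset (hRD.trans hDG) hdQ (fun v hv => (mQ.1 hv).2) fun v v' h hv =>
      mQ.2 ⟨hDC (hRD h), (mQ.1 hv).2.trans h.reachable⟩
  · intro x hx y hy hxy
    have hx' := mP.1 hx
    have hy' := mQ.1 hy
    by_cases e : s(x, y) = s(c, d)
    · rw [Sym2.eq_iff] at e
      rcases e with e | ⟨rfl, _⟩
      · exact e
      · exact absurd hx'.2 hnr
    · exfalso
      have h1 : R.Adj x y := delE_adj.2 ⟨⟨hxy, (mC.1 hx'.1).2, (mC.1 hy'.1).2⟩, e⟩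
      exact hdisj (hx'.2.trans h1.reachable) hy'.2

/-- a path inside a connected set -/
theorem path_in {P : Finset α} (hP : CSet G P) (hPC : P ⊆ CC G u w) {x c : α} (hx : x ∈ P)
    (hc : c ∈ P) (a : Fin 4) : ∃ A, IsPth (del (MM G u w) {w a}) x c A ∧ vs A ⊆ P := by
  obtain ⟨A, hA⟩ := exists_isPth (hP.2 x hx c hc)
  refine ⟨A, hA.mono ?_, ?_⟩
  · intro p q hpq
    have hp : p ∈ P := by
      have := hpq.2.1
      simpa using this
    have hq : q ∈ P := by
      have := hpq.2.2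
      simpa using this
    have hp' := mem_CC.1 (hPC hp)
    have hq' := mem_CC.1 (hPC hq)
    refine ⟨MM_adj_of hpq.1 hp'.2.1 hq'.2.1 hq'.2.2, ?_, ?_⟩
    · rw [mem_singleton]
      exact hp'.2.2 a
    · rw [mem_singleton]
      exact hq'.2.2 a
  · intro v hv
    have := (DL.isPth_del.1 hA).2
    by_contra hvP
    exact Finset.disjoint_left.1 this hv (by simp [hvP])

theorem cyc (hR : R1 G u w) {P Q : Finset α} {c d x y : α} {a : Fin 4} (hPC : P ⊆ CC G u w)
    (hQC : Q ⊆ CC G u w) (hPQ : Disjoint P Q) (hP : CSet G P) (hQ : CSet G Q) (hc : c ∈ P)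
    (hd : d ∈ Q) (hx : x ∈ P) (hy : y ∈ Q) (hcd : G.Adj c d) (hax : G.Adj (w a) x)
    (hay : G.Adj (w a) y) :
    ∃ X ∈ Z1 (MM G u w), X s(c, d) = 1 ∧ (∀ e, X e ≠ 0 → ∀ v ∈ e, v = w a ∨ v ∈ P ∨ v ∈ Q) ∧
      (∀ v, X s(w a, v) ≠ 0 → v = x ∨ v = y) ∧ X s(w a, y) = 1 ∧
      ∀ v ∈ P, ∀ v' ∈ Q, X s(v, v') ≠ 0 → v = c ∧ v' = d := by
  have hwa : w a ≠ u := ((hR.nu (w a)).2 ⟨a, rfl⟩).ne.symm
  have pP : ∀ {v}, v ∈ P → v ≠ u ∧ ∀ i, v ≠ w i := fun h => (mem_CC.1 (hPC h)).2
  have pQ : ∀ {v}, v ∈ Q → v ≠ u ∧ ∀ i, v ≠ w i := fun h => (mem_CC.1 (hQC h)).2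
  have nPQ : ∀ {v}, v ∈ P → v ∉ Q := fun h => Finset.disjoint_left.1 hPQ h
  obtain ⟨A, hA, hAP⟩ := path_in hP hPC hx hc a
  obtain ⟨B, hB, hBQ⟩ := path_in hQ hQC hd hy a
  have hcd' : (del (MM G u w) {w a}).Adj c d := by
    refine ⟨MM_adj_of hcd (pP hc).1 (pQ hd).1 (pQ hd).2, ?_, ?_⟩
    · rw [mem_singleton]
      exact (pP hc).2 a
    · rw [mem_singleton]
      exact (pQ hd).2 a
  have h1 := hA.concat hcd' fun h => nPQ (hAP h) hd
  have h2 := h1.append hB (by
    intro v hv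
    rw [mem_inter, vs_insert, mem_union, mem_insert, mem_singleton] at hv
    rw [mem_singleton]
    rcases hv.1 with (rfl | rfl) | h
    · exact absurd (hBQ hv.2) (nPQ hc)
    · rfl
    · exact absurd (hBQ hv.2) (nPQ (hAP h)))
  have hxy : x ≠ y := fun e => nPQ hx (e ▸ hy)
  have h3 := isCyc_of_isPth_del (MM_adj_of hax hwa (pP hx).1 (pP hx).2)
    (MM_adj_of hay hwa (pQ hy).1 (pQ hy).2) hxy h2
  set T := insert s(c, d) A ∪ B with hT
  have hvT : ∀ {v}, v ∈ vs T → v ∈ P ∨ v ∈ Q := by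
    intro v hv
    rw [hT, mem_vs_union, vs_insert, mem_union, mem_insert, mem_singleton] at hv
    rcases hv with ((rfl | rfl) | h) | h
    · exact Or.inl hc
    · exact Or.inr hd
    · exact Or.inl (hAP h)
    · exact Or.inr (hBQ h)
  have hwT : w a ∉ vs T := by
    intro h
    rcases hvT h with h | h
    · exact (pP h).2 a rfl
    · exact (pQ h).2 a rfl
  refine ⟨_, h3.chi_mem, ?_, ?_, ?_, ?_, ?_⟩
  · apply chi_of_mem
    rw [mem_insert, mem_insert, hT, mem_union, mem_insert]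
    tauto
  · intro e he v hv
    rw [chi_ne_zero, mem_insert, mem_insert] at he
    rcases he with rfl | rfl | he
    · rw [Sym2.mem_iff] at hv
      rcases hv with rfl | rfl
      · exact Or.inl rfl
      · exact Or.inr (Or.inl hx)
    · rw [Sym2.mem_iff] at hv
      rcases hv with rfl | rfl
      · exact Or.inl rfl
      · exact Or.inr (Or.inr hy)
    · exact Or.inr (hvT (mem_vs.2 ⟨e, he, hv⟩))
  · intro v hv
    rw [chi_ne_zero, mem_insert, mem_insert] at hv
    rcases hv with e | e | h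
    · rw [Sym2.eq_iff] at e
      rcases e with ⟨_, e⟩ | ⟨e, _⟩
      · exact Or.inl e
      · exact absurd e.symm ((pP hx).2 a)
    · rw [Sym2.eq_iff] at e
      rcases e with ⟨_, e⟩ | ⟨e, _⟩
      · exact Or.inr e
      · exact absurd e.symm ((pQ hy).2 a)
    · exact absurd (left_mem_vs h) hwT
  · apply chi_of_mem
    rw [mem_insert, mem_insert]
    tauto
  · intro v hv v' hv' h
    rw [chi_ne_zero, mem_insert, mem_insert, hT, mem_union, mem_insert] at h
    rcases h with e | e | (e | h) | h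
    · rw [Sym2.eq_iff] at e
      rcases e with ⟨e, _⟩ | ⟨_, e⟩
      · exact absurd e ((pP hv).2 a)
      · exact absurd e ((pQ hv').2 a)
    · rw [Sym2.eq_iff] at e
      rcases e with ⟨e, _⟩ | ⟨_, e⟩
      · exact absurd e ((pP hv).2 a)
      · exact absurd e ((pQ hv').2 a)
    · rw [Sym2.eq_iff] at e
      rcases e with e | ⟨rfl, _⟩
      · exact e
      · exact absurd hd (nPQ hv)
    · exact absurd hv' (nPQ (hAP (right_mem_vs h)))
    · exact absurd (hBQ (left_mem_vs h)) (nPQ hv)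

end CBSM

theorem specCBS : SpecCBS where
  side := by
    intro α _ _ G u w hc c hcC d hdC hcd hZ _
    exact CBSM.side hc hcC hdC hcd hZ
  cyc := by
    intro α _ _ G u w hR P Q c d x y a hPC hQC hPQ hP hQ hc hd hx hy hcd hax hay
    exact CBSM.cyc hR hPC hQC hPQ hP hQ hc hd hx hy hcd hax hay

end DL
end

section
/-!
# CL2: claim A for one bridge
-/
open SimpleGraph Finset

namespace DL

namespace CL2M

variable {α : Type} [Fintype α] [DecidableEq α] {G : SimpleGraph α} {u : α} {w : Fin 4 → α}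

omit [DecidableEq α] in
theorem mem_NB {A : Finset α} {x : α} : x ∈ NB G A ↔ x ∉ A ∧ ∃ a ∈ A, G.Adj a x := by
  unfold NB
  simp only [mem_filter, mem_univ, true_and]

/-- neighbours of the vertices of `C` -/
theorem nbr (hR : R1 G u w) {a y : α} (ha : a ∈ CC G u w) (h : G.Adj a y) :
    y ∈ CC G u w ∨ ∃ k, y = w k := by
  by_cases hk : ∃ k, y = w k
  · exact Or.inr hk
  · left
    rw [not_exists] at hk
    refine CBSM.mem_CC.2 ⟨right_mem_VS h, ?_, hk⟩
    rintro rfl
    obtain ⟨i, hi⟩ := (hR.nu a).1 h.symm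
    exact (CBSM.mem_CC.1 ha).2.2 i hi

/-- NB1 in the setting R1 -/
theorem nb3 (hB : SpecNBF) (hR : R1 G u w) {A T : Finset α} (hA : A ⊆ CC G u w)
    (hne : A.Nonempty) (hT : ∀ a ∈ A, ∀ y, y ∉ A → G.Adj a y → y ∈ T) (h3 : T.card ≤ 3) :
    False := by
  have hAV : A ⊆ VS G := fun a ha => (CBSM.mem_CC.1 (hA ha)).1
  have hsub : NB G A ⊆ T := by
    intro y hy
    obtain ⟨h1, a, ha, h2⟩ := mem_NB.1 hy
    exact hT a ha y h1 h2
  have h4 := hB.nb hR.k48.1 hAV hne (lt_of_le_of_lt (card_le_card hsub) (by omega))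
  have huV : u ∈ VS G := left_mem_VS ((hR.nu (w 0)).2 ⟨0, rfl⟩)
  have h5 := h4 huV
  rw [mem_union] at h5
  rcases h5 with h5 | h5
  · exact (CBSM.mem_CC.1 (hA h5)).2.1 rfl
  · obtain ⟨_, a, ha, h6⟩ := mem_NB.1 h5
    obtain ⟨i, hi⟩ := (hR.nu a).1 h6.symm
    exact (CBSM.mem_CC.1 (hA ha)).2.2 i hi

omit [Fintype α] in
/-- a vertex and two of the `w k` -/
theorem card_two (c : α) {i b : Fin 4} (hib : i ≠ b) :
    (insert c (image w (univ \ {i, b}))).card ≤ 3 := by
  have h1 : (univ \ {i, b} : Finset (Fin 4)).card = 2 := by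
    rw [card_sdiff_of_subset (subset_univ _), card_univ, Fintype.card_fin, card_pair hib]
  have h2 : (image w (univ \ {i, b})).card ≤ 2 := by
    rw [← h1]
    exact card_image_le
  have h3 := card_insert_le c (image w (univ \ {i, b}))
  omega

/-- at most one `w k` has no neighbour on a side of a bridge -/
theorem most (hB : SpecNBF) (hR : R1 G u w) {P : Finset α} {d : α} (hP : P ⊆ CC G u w)
    (hne : P.Nonempty) (hd : ∀ x ∈ P, ∀ y ∈ CC G u w, y ∉ P → G.Adj x y → y = d) {a b : Fin 4}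
    (hab : a ≠ b) (ha : ¬ ∃ x ∈ P, G.Adj (w a) x) (hb : ¬ ∃ x ∈ P, G.Adj (w b) x) : False := by
  refine nb3 hB hR hP hne (T := insert d (image w (univ \ {a, b}))) ?_ (card_two d hab)
  intro x hx y hy hxy
  rcases nbr hR (hP hx) hxy with h | ⟨k, rfl⟩
  · rw [hd x hx y h hy hxy]
    exact mem_insert_self _ _
  · apply mem_insert_of_mem
    refine mem_image.2 ⟨k, ?_, rfl⟩
    simp only [mem_sdiff, mem_univ, true_and, mem_insert, mem_singleton, not_or]
    constructor
    · rintro rfl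
      exact ha ⟨x, hx, hxy.symm⟩
    · rintro rfl
      exact hb ⟨x, hx, hxy.symm⟩

/-- the side is a single vertex -/
theorem single (hB : SpecNBF) (hR : R1 G u w) {P : Finset α} {c : α} (hP : P ⊆ CC G u w)
    (hc : c ∈ P) (hd : ∀ x ∈ P, ∀ y ∈ CC G u w, y ∉ P → G.Adj x y → x = c) {i b : Fin 4}
    (hib : i ≠ b) (hi : ∀ x ∈ P, G.Adj (w i) x → x = c)
    (hb : ∀ x ∈ P, G.Adj (w b) x → x = c) : P = {c} := by
  by_contra hne
  have hne' : (P.erase c).Nonempty := by
    rw [nonempty_iff_ne_empty]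
    intro h
    apply hne
    rw [erase_eq_empty_iff] at h
    rcases h with h | h
    · rw [h] at hc
      simp at hc
    · exact h
  refine nb3 hB hR ((erase_subset _ _).trans hP) hne'
    (T := insert c (image w (univ \ {i, b}))) ?_ (card_two c hib)
  intro x hx y hy hxy
  rw [mem_erase] at hx
  by_cases hyc : y = c
  · rw [hyc]
    exact mem_insert_self _ _
  have hyP : y ∉ P := fun h => hy (mem_erase.2 ⟨hyc, h⟩)
  rcases nbr hR (hP hx.2) hxy with h | ⟨k, rfl⟩
  · exact absurd (hd x hx.2 y h hyP hxy) hx.1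
  · apply mem_insert_of_mem
    refine mem_image.2 ⟨k, ?_, rfl⟩
    simp only [mem_sdiff, mem_univ, true_and, mem_insert, mem_singleton, not_or]
    constructor
    · rintro rfl
      exact hx.1 (hi x hx.2 hxy.symm)
    · rintro rfl
      exact hx.1 (hb x hx.2 hxy.symm)

/-- three other indices -/
theorem others : ∀ i : Fin 4, ∃ a b l : Fin 4, a ≠ i ∧ b ≠ i ∧ l ≠ i ∧ a ≠ b ∧ a ≠ l ∧ b ≠ l := by
  decide

theorem one_sided {f g : Fin 4 → Prop} {i : Fin 4}
    (h2 : ∀ a b, a ≠ b → a ≠ i → b ≠ i → f a → g a → f b → g b → False)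
    (h3 : ∀ a b, a ≠ b → ¬ f a → ¬ f b → False) : ∃ a, a ≠ i ∧ ¬ g a := by
  by_contra hcon
  push Not at hcon
  obtain ⟨a, b, l, ha, hb, hl, hab, hal, hbl⟩ := others i
  have ga := hcon a ha
  have gb := hcon b hb
  have gl := hcon l hl
  by_cases fa : f a
  · have fb : ¬ f b := fun fb => h2 a b hab ha hb fa ga fb gb
    have fl : ¬ f l := fun fl => h2 a l hal ha hl fa ga fl gl
    exact h3 b l hbl fb fl
  · have fb : f b := by
      by_contra fb
      exact h3 a b hab fa fb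
    have fl : f l := by
      by_contra fl
      exact h3 a l hal fa fl
    exact h2 b l hbl hb hl fb gb fl gl

theorem main (hW : SpecCWC) (hC : SpecCCC) (hS : SpecCBS) (hB : SpecNBF) (hR : R1 G u w)
    {i j : Fin 4} {c d : Fin 4 → α} (hT : TA G u w i j (c i) (d i))
    (hZ : ∀ Z ∈ Z1 (del G (insert u (WW w))), Z s(c i, d i) = 0) : ¬ RLN G u w {i} c d := by
  intro hrel
  obtain ⟨P, Q, hPQ, hdis, hcP, hdQ, sP, sQ, hcr⟩ := hS.side (hC.conn hR hT) (c i) hT.cC (d i)
    hT.dC hT.cd hZ fun x _ y h => right_mem_VS h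
  have hP : P ⊆ CC G u w := hPQ ▸ subset_union_left
  have hQ : Q ⊆ CC G u w := hPQ ▸ subset_union_right
  have hPQ' : ∀ {y}, y ∈ CC G u w → y ∉ P → y ∈ Q := by
    intro y hy hyP
    rw [← hPQ, mem_union] at hy
    exact hy.resolve_left hyP
  have hQP' : ∀ {y}, y ∈ CC G u w → y ∉ Q → y ∈ P := by
    intro y hy hyP
    rw [← hPQ, mem_union] at hy
    exact hy.resolve_right hyP
  -- (1)
  have key : ∀ a b, a ≠ b → a ≠ i → b ≠ i → (∃ x ∈ P, G.Adj (w a) x) → (∃ y ∈ Q, G.Adj (w a) y) →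
      (∃ x ∈ P, G.Adj (w b) x) → (∃ y ∈ Q, G.Adj (w b) y) → False := by
    rintro a b hab ha hb ⟨x, hx, hax⟩ ⟨y, hy, hay⟩ ⟨x', hx', hbx⟩ ⟨y', hy', hby⟩
    obtain ⟨X, hX, X1, X2, -⟩ := hS.cyc hR P Q (c i) (d i) x y a hP hQ hdis sP sQ hcP hdQ hx hy
      hT.cd hax hay
    obtain ⟨Y, hY, Y1, Y2, -⟩ := hS.cyc hR P Q (c i) (d i) x' y' b hP hQ hdis sP sQ hcP hdQ hx' hy'
      hT.cd hbx hby
    have gen : ∀ {X : Chain α} {a : Fin 4},
        (∀ e, X e ≠ 0 → ∀ v ∈ e, v = w a ∨ v ∈ P ∨ v ∈ Q) → ∀ k, k ≠ a → ∀ e, w k ∈ e → X e = 0 := by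
      intro X a h k hk e he
      by_contra h0
      rcases h e h0 _ he with h1 | h1 | h1
      · exact hk (hR.inj h1)
      · exact (CBSM.mem_CC.1 (hP h1)).2.2 k rfl
      · exact (CBSM.mem_CC.1 (hQ h1)).2.2 k rfl
    have h0 := hrel.eval hX hY (by
      intro k
      by_cases hk : k = a
      · exact Or.inr (gen Y2 k fun e => hab (hk.symm.trans e))
      · exact Or.inl (gen X2 k hk))
    rw [sum_singleton, pr_tht, pr_tht, X1, Y1, gen X2 i (Ne.symm ha) s(w i, c i) (by simp),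
      gen Y2 i (Ne.symm hb) s(w i, c i) (by simp)] at h0
    revert h0
    decide
  obtain ⟨a, hai, ha⟩ := one_sided (f := fun a => ∃ x ∈ P, G.Adj (w a) x)
    (g := fun a => ∃ x ∈ Q, G.Adj (w a) x) (i := i) key fun a b hab ha hb =>
      most hB hR hP ⟨_, hcP⟩ (d := d i) (fun x hx y hy hyP hxy => (hcr x hx y (hPQ' hy hyP) hxy).2)
        hab ha hb
  obtain ⟨b, hbi, hb⟩ := one_sided (f := fun a => ∃ x ∈ Q, G.Adj (w a) x)
    (g := fun a => ∃ x ∈ P, G.Adj (w a) x) (i := i)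
    (fun a b hab ha hb h1 h2 h3 h4 => key a b hab ha hb h2 h1 h4 h3) fun a b hab ha hb =>
      most hB hR hQ ⟨_, hdQ⟩ (d := c i)
        (fun x hx y hy hyP hxy => (hcr y (hQP' hy hyP) x hx hxy.symm).1) hab ha hb
  have e1 : P = {c i} := by
    refine single hB hR hP hcP (fun x hx y hy hyP hxy =>
      (hcr x hx y (hPQ' hy hyP) hxy).1) (Ne.symm hbi) ?_ fun x hx h => absurd ⟨x, hx, h⟩ hb
    intro x hx h
    have hx' := CBSM.mem_CC.1 (hP hx)
    rcases (hT.nb x).1 h with h1 | h1 | h1 | h1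
    · exact absurd h1 hx'.2.1
    · exact absurd h1 (hx'.2.2 j)
    · exact h1
    · exact absurd hdQ (Finset.disjoint_left.1 hdis (h1 ▸ hx))
  have e2 : Q = {d i} := by
    refine single hB hR hQ hdQ (fun x hx y hy hyP hxy =>
      (hcr y (hQP' hy hyP) x hx hxy.symm).2) (Ne.symm hai) ?_ fun x hx h => absurd ⟨x, hx, h⟩ ha
    intro x hx h
    have hx' := CBSM.mem_CC.1 (hQ hx)
    rcases (hT.nb x).1 h with h1 | h1 | h1 | h1
    · exact absurd h1 hx'.2.1
    · exact absurd h1 (hx'.2.2 j)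
    · exact absurd hx (Finset.disjoint_left.1 hdis (h1 ▸ hcP))
    · exact h1
  have h3 := (hW.card hR).1
  rw [← hPQ, e1, e2] at h3
  have h4 := card_union_le {c i} {d i}
  rw [card_singleton, card_singleton] at h4
  omega

end CL2M

theorem specCL2 (hCWC : SpecCWC) (hCCC : SpecCCC) (hCBS : SpecCBS) (hNBF : SpecNBF) :
    SpecCL2 := by
  intro α _ _ G u w hR i j c d hT hZ
  exact CL2M.main hCWC hCCC hCBS hNBF hR hT hZ

end DL
end

section
/-!
# CL3: claim A for two indices with the same bridge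
-/
open SimpleGraph Finset

namespace DL

namespace CL3M

variable {α : Type} [Fintype α] [DecidableEq α] {G : SimpleGraph α} {u : α} {w : Fin 4 → α}

/-- two type A vertices with the same bridge -/
theorem main (hW : SpecCWC) (hC : SpecCCC) (hS : SpecCBS) (hB : SpecNBF) (hR : R1 G u w)
    {i m j j' : Fin 4} {c d : α} (him : i ≠ m) (hT : TA G u w i j c d) (hT' : TA G u w m j' c d)
    (hZ : ∀ Z ∈ Z1 (del G (insert u (WW w))), Z s(c, d) = 0) : False := by
  obtain ⟨P, Q, hPQ, hdis, hcP, hdQ, sP, sQ, hcr⟩ := hS.side (hC.conn hR hT) c hT.cC d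
    hT.dC hT.cd hZ fun x _ y h => right_mem_VS h
  have hP : P ⊆ CC G u w := hPQ ▸ subset_union_left
  have hQ : Q ⊆ CC G u w := hPQ ▸ subset_union_right
  have hPQ' : ∀ {y}, y ∈ CC G u w → y ∉ P → y ∈ Q := by
    intro y hy hyP
    rw [← hPQ, mem_union] at hy
    exact hy.resolve_left hyP
  have hQP' : ∀ {y}, y ∈ CC G u w → y ∉ Q → y ∈ P := by
    intro y hy hyP
    rw [← hPQ, mem_union] at hy
    exact hy.resolve_right hyP
  have k1 : ∀ {i j : Fin 4}, TA G u w i j c d → ∀ x ∈ P, G.Adj (w i) x → x = c := by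
    intro i j hT x hx h
    have hx' := CBSM.mem_CC.1 (hP hx)
    rcases (hT.nb x).1 h with h1 | h1 | h1 | h1
    · exact absurd h1 hx'.2.1
    · exact absurd h1 (hx'.2.2 j)
    · exact h1
    · exact absurd hdQ (Finset.disjoint_left.1 hdis (h1 ▸ hx))
  have k2 : ∀ {i j : Fin 4}, TA G u w i j c d → ∀ x ∈ Q, G.Adj (w i) x → x = d := by
    intro i j hT x hx h
    have hx' := CBSM.mem_CC.1 (hQ hx)
    rcases (hT.nb x).1 h with h1 | h1 | h1 | h1
    · exact absurd h1 hx'.2.1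
    · exact absurd h1 (hx'.2.2 j)
    · exact absurd hx (Finset.disjoint_left.1 hdis (h1 ▸ hcP))
    · exact h1
  have e1 : P = {c} := CL2M.single hB hR hP hcP (fun x hx y hy hyP hxy =>
    (hcr x hx y (hPQ' hy hyP) hxy).1) him (k1 hT) (k1 hT')
  have e2 : Q = {d} := CL2M.single hB hR hQ hdQ (fun x hx y hy hyP hxy =>
    (hcr y (hQP' hy hyP) x hx hxy.symm).2) him (k2 hT) (k2 hT')
  have h3 := (hW.card hR).1
  rw [← hPQ, e1, e2] at h3
  have h4 := card_union_le {c} {d}
  rw [card_singleton, card_singleton] at h4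
  omega

end CL3M

theorem specCL3 (hCWC : SpecCWC) (hCCC : SpecCCC) (hCBS : SpecCBS) (hNBF : SpecNBF) :
    SpecCL3 := by
  intro α _ _ G u w hR i m j j' c d him hT hT' hc hd hZ _
  rw [hc, hd] at hT'
  exact CL3M.main hCWC hCCC hCBS hNBF hR him hT hT' hZ

end DL
end

section
/-!
# CL5: claim A for at least three bridges (helper68)
-/
open SimpleGraph Finset

namespace DL

namespace CL5M

variable {α : Type} [Fintype α] [DecidableEq α] {G : SimpleGraph α} {u : α} {w : Fin 4 → α}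

/-- the two sides of a bridge `cd` of `G[C]` -/
structure Sd (G : SimpleGraph α) (u : α) (w : Fin 4 → α) (c d : α) (P Q : Finset α) : Prop where
  un : P ∪ Q = CC G u w
  dis : Disjoint P Q
  mc : c ∈ P
  md : d ∈ Q
  sP : CSet G P
  sQ : CSet G Q
  cr : ∀ x ∈ P, ∀ y ∈ Q, G.Adj x y → x = c ∧ y = d

theorem Sd.symm {c d : α} {P Q : Finset α} (h : Sd G u w c d P Q) : Sd G u w d c Q P where
  un := by rw [union_comm]; exact h.un
  dis := h.dis.symm
  mc := h.md
  md := h.mc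
  sP := h.sQ
  sQ := h.sP
  cr := fun x hx y hy hxy => (h.cr y hy x hx hxy.symm).symm

theorem Sd.subP {c d : α} {P Q : Finset α} (h : Sd G u w c d P Q) : P ⊆ CC G u w :=
  h.un ▸ subset_union_left

theorem Sd.subQ {c d : α} {P Q : Finset α} (h : Sd G u w c d P Q) : Q ⊆ CC G u w :=
  h.un ▸ subset_union_right

theorem Sd.memQ {c d : α} {P Q : Finset α} (h : Sd G u w c d P Q) {y : α} (hy : y ∈ CC G u w)
    (hyP : y ∉ P) : y ∈ Q := by
  rw [← h.un, mem_union] at hy
  exact hy.resolve_left hyP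

theorem Sd.memP {c d : α} {P Q : Finset α} (h : Sd G u w c d P Q) {y : α} (hy : y ∈ CC G u w)
    (hyQ : y ∉ Q) : y ∈ P := by
  rw [← h.un, mem_union] at hy
  exact hy.resolve_right hyQ

theorem Sd.notMem {c d : α} {P Q : Finset α} (h : Sd G u w c d P Q) {y : α} (hy : y ∈ P) :
    y ∉ Q := Finset.disjoint_left.1 h.dis hy

/-- an edge of `G[C]` different from `cd` is inside one side -/
theorem Sd.inside {c d : α} {P Q : Finset α} (h : Sd G u w c d P Q) {a b : α}
    (ha : a ∈ CC G u w) (hb : b ∈ CC G u w) (hab : G.Adj a b) (hne : s(a, b) ≠ s(c, d)) :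
    (a ∈ P ∧ b ∈ P) ∨ (a ∈ Q ∧ b ∈ Q) := by
  by_cases h1 : a ∈ P
  · by_cases h2 : b ∈ P
    · exact Or.inl ⟨h1, h2⟩
    · obtain ⟨e1, e2⟩ := h.cr a h1 b (h.memQ hb h2) hab
      exact absurd (by rw [e1, e2]) hne
  · by_cases h2 : b ∈ P
    · obtain ⟨e1, e2⟩ := h.cr b h2 a (h.memQ ha h1) hab.symm
      exact absurd (by rw [e1, e2, Sym2.eq_swap]) hne
    · exact Or.inr ⟨h.memQ ha h1, h.memQ hb h2⟩

/-- a connected set which meets `P` and does not contain `cd` is in `P` -/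
theorem Sd.incl {c d : α} {P Q R : Finset α} (h : Sd G u w c d P Q) (hR : CSet G R)
    (hRC : R ⊆ CC G u w) {x : α} (hxR : x ∈ R) (hxP : x ∈ P) (hcd : ¬ (c ∈ R ∧ d ∈ R)) :
    R ⊆ P := by
  intro v hv
  have := DL.mem_of_reachable (X := {x | x ∈ P}) (hR.2 x hxR v hv) hxP (by
    rintro a b hab ha
    have ha' : a ∈ P := ha
    have haR : a ∈ R := by
      have := hab.2.1
      simpa using this
    have hbR : b ∈ R := by
      have := hab.2.2
      simpa using this
    by_contra hb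
    have hb' : b ∉ P := hb
    obtain ⟨e1, e2⟩ := h.cr a ha' b (h.memQ (hRC hbR) hb') hab.1
    exact hcd ⟨e1 ▸ haR, e2 ▸ hbR⟩)
  exact this

theorem exists_sd (hC : SpecCCC) (hS : SpecCBS) (hR : R1 G u w) {i j : Fin 4} {c d : α}
    (hT : TA G u w i j c d) (hZ : ∀ Z ∈ Z1 (del G (insert u (WW w))), Z s(c, d) = 0) :
    ∃ P Q, Sd G u w c d P Q := by
  obtain ⟨P, Q, hPQ, hdis, hcP, hdQ, sP, sQ, hcr⟩ := hS.side (hC.conn hR hT) c hT.cC d
    hT.dC hT.cd hZ fun x _ y h => right_mem_VS h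
  exact ⟨P, Q, hPQ, hdis, hcP, hdQ, sP, sQ, hcr⟩

theorem TA_swap {i j : Fin 4} {c d : α} (hT : TA G u w i j c d) : TA G u w i j d c where
  ij := hT.ij
  nb := fun x => by
    rw [hT.nb x]
    tauto
  cd := hT.cd.symm
  cC := hT.dC
  dC := hT.cC

/-- neighbours in `C` of a type A vertex -/
theorem TA_nb {i j : Fin 4} {c d : α} (hT : TA G u w i j c d) {x : α} (hx : x ∈ CC G u w)
    (h : G.Adj (w i) x) : x = c ∨ x = d := by
  have hx' := CBSM.mem_CC.1 hx
  rcases (hT.nb x).1 h with h1 | h1 | h1 | h1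
  · exact absurd h1 hx'.2.1
  · exact absurd h1 (hx'.2.2 j)
  · exact Or.inl h1
  · exact Or.inr h1

theorem main (hW : SpecCWC) (hC : SpecCCC) (hS : SpecCBS) (hB : SpecNBF) (hR : R1 G u w)
    {S : Finset (Fin 4)} {j : Fin 4 → Fin 4} {c d : Fin 4 → α} (h3 : 3 ≤ S.card)
    (hT : ∀ i ∈ S, TA G u w i (j i) (c i) (d i))
    (hZ : ∀ i ∈ S, ∀ Z ∈ Z1 (del G (insert u (WW w))), Z s(c i, d i) = 0) : False := by
  classical
  -- the bridges are different
  have hdif : ∀ i ∈ S, ∀ m ∈ S, i ≠ m → s(c m, d m) ≠ s(c i, d i) := by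
    intro i hi m hm him he
    rcases Sym2.eq_iff.1 he with ⟨e1, e2⟩ | ⟨e1, e2⟩
    · refine CL3M.main hW hC hS hB hR him (hT i hi) ?_ (hZ i hi) (j' := j m)
      rw [← e1, ← e2]
      exact hT m hm
    · refine CL3M.main hW hC hS hB hR him (hT i hi) ?_ (hZ i hi) (j' := j m)
      rw [← e1, ← e2]
      exact TA_swap (hT m hm)
  -- a smallest side
  have hex : ∃ n : ℕ, ∃ i ∈ S, ∃ c' d' P Q, s(c', d') = s(c i, d i) ∧ Sd G u w c' d' P Q ∧
      P.card = n := by
    obtain ⟨i, hi⟩ : S.Nonempty := by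
      rw [← card_pos]
      omega
    obtain ⟨P, Q, h⟩ := exists_sd hC hS hR (hT i hi) (hZ i hi)
    exact ⟨_, i, hi, _, _, P, Q, rfl, h, rfl⟩
  obtain ⟨i, hi, c', d', P, Q, hcd, hPQ, hcard⟩ := Nat.find_spec hex
  have hmin : ∀ m ∈ S, ∀ c'' d'' P' Q', s(c'', d'') = s(c m, d m) → Sd G u w c'' d'' P' Q' →
      P.card ≤ P'.card := by
    intro m hm c'' d'' P' Q' h1 h2
    rw [hcard]
    exact Nat.find_min' hex ⟨m, hm, c'', d'', P', Q', h1, h2, rfl⟩
  have hc'd' : G.Adj c' d' := by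
    have h1 : s(c i, d i) ∈ G.edgeSet := (hT i hi).cd
    rw [← hcd] at h1
    exact h1
  -- the other bridges are in `Q`
  have hout : ∀ m ∈ S, m ≠ i → c m ∈ Q ∧ d m ∈ Q := by
    intro m hm hmi
    have hne : s(c m, d m) ≠ s(c', d') := by
      rw [hcd]
      exact hdif i hi m hm (Ne.symm hmi)
    rcases hPQ.inside (hT m hm).cC (hT m hm).dC (hT m hm).cd hne with ⟨h1, h2⟩ | h
    · exfalso
      obtain ⟨P', Q', h'⟩ := exists_sd hC hS hR (hT m hm) (hZ m hm)
      have key : ∀ {a b : α} {A B : Finset α}, s(a, b) = s(c m, d m) → Sd G u w a b A B → a ∈ P →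
          b ∈ P → c' ∉ A → False := by
        intro a b A B hab hAB ha hb hcA
        have hsub : A ⊆ P := hPQ.incl hAB.sP hAB.subP hAB.mc ha fun h => hcA h.1
        have hlt : A ⊂ P := by
          refine Finset.ssubset_iff_subset_ne.2 ⟨hsub, ?_⟩
          rintro rfl
          exact hAB.notMem hb hAB.md
        exact absurd (card_lt_card hlt) (not_lt.2 (hmin m hm a b A B hab hAB))
      by_cases hc : c' ∈ P'
      · exact key Sym2.eq_swap h'.symm h2 h1 (h'.notMem hc)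
      · exact key rfl h' h1 h2 hc
    · exact h
  -- two of them
  obtain ⟨a, b, ha, hb, hab⟩ : ∃ a b, a ∈ S.erase i ∧ b ∈ S.erase i ∧ a ≠ b := by
    have : 1 < (S.erase i).card := by
      rw [card_erase_of_mem hi]
      omega
    obtain ⟨a, ha, b, hb, hab⟩ := one_lt_card.1 this
    exact ⟨a, b, ha, hb, hab⟩
  rw [mem_erase] at ha hb
  have hno : ∀ m ∈ S, m ≠ i → ¬ ∃ x ∈ P, G.Adj (w m) x := by
    rintro m hm hmi ⟨x, hx, hmx⟩
    obtain ⟨h1, h2⟩ := hout m hm hmi
    rcases TA_nb (hT m hm) (hPQ.subP hx) hmx with rfl | rfl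
    · exact hPQ.notMem hx h1
    · exact hPQ.notMem hx h2
  exact CL2M.most hB hR hPQ.subP ⟨_, hPQ.mc⟩ (d := d')
    (fun x hx y hy hyP hxy => (hPQ.cr x hx y (hPQ.memQ hy hyP) hxy).2) hab (hno a ha.2 ha.1)
    (hno b hb.2 hb.1)

end CL5M

theorem specCL5 (hCWC : SpecCWC) (hCCC : SpecCCC) (hCBS : SpecCBS) (hNBF : SpecNBF) :
    SpecCL5 := by
  intro α _ _ G u w hR S j c d h3 hT hZ
  exact CL5M.main hCWC hCCC hCBS hNBF hR h3 hT hZ

end DL
end

section
/-!
# BS1: one beta-pair (helper68)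
-/
open SimpleGraph Finset

namespace DL

namespace BS1M

open CL5M

variable {α : Type} [Fintype α] [DecidableEq α] {G : SimpleGraph α} {u : α} {w : Fin 4 → α}

/-- a connected set has a spanning tree -/
theorem exists_tree {R : Finset α} (hR : CSet G R) : ∃ T : SimpleGraph α, T ≤ G ∧ RTree R T := by
  classical
  obtain ⟨x₀, hx₀⟩ := hR.1
  obtain ⟨Y, hY, hmax⟩ := exists_max_image
    (R.powerset.filter fun Y => x₀ ∈ Y ∧ ∃ T : SimpleGraph α, T ≤ G ∧ RTree Y T) card
    ⟨{x₀}, mem_filter.2 ⟨mem_powerset.2 (singleton_subset_iff.2 hx₀), mem_singleton_self _, ⊥,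
      bot_le, RTree.single x₀⟩⟩
  rw [mem_filter, mem_powerset] at hY
  obtain ⟨hYR, hxY, T, hT, hTY⟩ := hY
  have hRY : R ⊆ Y := by
    intro v hv
    by_contra hvY
    have : v ∈ {x | x ∈ Y} := DL.mem_of_reachable (X := {x | x ∈ Y}) (hR.2 x₀ hx₀ v hv) hxY (by
      rintro a b hab ha
      by_contra hb
      have ha' : a ∈ Y := ha
      have hb' : b ∉ Y := hb
      have hbR : b ∈ R := by
        have := hab.2.2
        simpa using this
      have h1 := hTY.add_leaf ha' hb'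
      have h2 := hmax (insert b Y) (mem_filter.2 ⟨mem_powerset.2 (insert_subset hbR hYR),
        mem_insert_of_mem hxY, _, sup_le hT (gr_le fun e he => by
          rw [mem_singleton] at he
          rw [he]
          exact hab.1), h1⟩)
      rw [card_insert_of_notMem hb'] at h2
      omega)
    exact hvY this
  have e : Y = R := Subset.antisymm hYR hRY
  rw [e] at hTY
  exact ⟨T, hT, hTY⟩

omit [Fintype α] [DecidableEq α] in
theorem treeOn {T : SimpleGraph α} {X : Finset α} (h : RTree X T) : TreeOn T X :=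
  ⟨h.inY, h.conn, h.acyc⟩

theorem chi_zero {P : Finset (Sym2 α)} {a b : α} (h : a ∉ vs P) : chi P s(a, b) = 0 :=
  chi_of_notMem fun hh => h (left_mem_vs hh)

theorem ed_zero {a b x y : α} (h : x ≠ a ∧ x ≠ b) : ed a b s(x, y) = 0 := by
  rw [ed_apply, if_neg]
  intro hh
  rcases Sym2.eq_iff.1 hh with ⟨e, _⟩ | ⟨e, _⟩
  · exact h.1 e
  · exact h.2 e

theorem ed_zero' {a b x y : α} (h : y ≠ a ∧ y ≠ b) : ed a b s(x, y) = 0 := by
  rw [Sym2.eq_swap]
  exact ed_zero h

theorem ed_zeroA {a b x y : α} (h : a ≠ x ∧ a ≠ y) : ed a b s(x, y) = 0 := by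
  rw [ed_apply, if_neg]
  intro hh
  rcases Sym2.eq_iff.1 hh with ⟨e, _⟩ | ⟨_, e⟩
  · exact h.1 e.symm
  · exact h.2 e.symm

theorem ed_one (a b : α) : ed a b s(a, b) = 1 := by
  rw [ed_apply, if_pos rfl]

/-- the end of the proof -/
theorem fin (hD : SpecTPD) (hR : R1 G u w) {k l m p : Fin 4} {z d d' : α}
    (hnd : [k, l, m, p].Nodup) (hb : Bta G u w k l m p z d d') (hkl : G.Adj (w k) (w l))
    (hmp : G.Adj (w m) (w p)) {T : SimpleGraph α} {X : Finset α} (hT : RTree X T) (hTG : T ≤ G)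
    (hXC : X ⊆ CC G u w) (hd : d ∈ X) {al am ap : α} (hal : al ∈ X) (ham : am ∈ X) (hap : ap ∈ X)
    (h2 : G.Adj (w l) al) (h3 : G.Adj (w m) am) (h4 : G.Adj (w p) ap)
    (hz : z ∉ vs (tp T d al)) :
    ∃ X Y, Cfg G u w k l m p X Y ∧ X s(w k, w l) = 1 ∧ Y s(w m, w p) = 1 ∧ X s(w m, w p) = 0 ∧
      pr (tht w k z d) X = 0 := by
  have h1 : G.Adj (w k) d := (hb.ti.nb d).2 (Or.inr (Or.inr (Or.inr rfl)))
  have hC : ∀ {x}, x ∈ X → ∀ i, w i ≠ x := fun hx i h =>
    (CBSM.mem_CC.1 (hXC hx)).2.2 i h.symm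
  have hzC : ∀ i, w i ≠ z := fun i h => (CBSM.mem_CC.1 hb.ti.cC).2.2 i h.symm
  have hV : ∀ {x y : α} {i : Fin 4}, x ∈ X → y ∈ X → w i ∉ vs (tp T x y) := by
    intro x y i hx hy h
    exact hC (hT.vs_tp hx hy h) i rfl
  have hzd : z ≠ d := hb.ti.cd.ne
  have nd : k ≠ l ∧ k ≠ m ∧ k ≠ p ∧ l ≠ m ∧ l ≠ p ∧ m ≠ p := by
    simp only [List.nodup_cons, List.mem_cons, List.not_mem_nil, or_false, not_or,
      List.nodup_nil, and_true, not_false_eq_true] at hnd
    tauto
  obtain ⟨nkl, nkm, nkp, nlm, nlp, nmp⟩ := nd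
  have hw : ∀ {i j : Fin 4}, i ≠ j → w i ≠ w j := fun h e => h (hR.inj e)
  refine ⟨_, _, hD hR k l m p hnd hkl hmp T X (treeOn hT) hTG hXC d hd al hal am ham ap hap h1 h2
    h3 h4, ?_, ?_, ?_, ?_⟩
  · simp only [Pi.add_apply]
    rw [ed_zero' ⟨hw nkl.symm, hC hd l⟩, ed_zero ⟨hw nkl, hC hal k⟩, ed_one,
      chi_zero (hV hd hal)]
    decide
  · simp only [Pi.add_apply]
    rw [ed_zero' ⟨hw nmp.symm, hC ham p⟩, ed_zero ⟨hw nmp, hC hap m⟩, ed_one,
      chi_zero (hV ham hap)]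
    decide
  · simp only [Pi.add_apply]
    rw [ed_zero ⟨hw nkm.symm, hC hd m⟩, ed_zero ⟨hw nlm.symm, hC hal m⟩,
      ed_zero ⟨hw nkm.symm, hw nlm.symm⟩, chi_zero (hV hd hal)]
    decide
  · rw [pr_tht]
    simp only [Pi.add_apply]
    rw [ed_zero' ⟨(hzC k).symm, hzd⟩, ed_zero ⟨hw nkl, hC hal k⟩, ed_zero' ⟨(hzC k).symm,
      (hzC l).symm⟩, chi_zero (hV hd hal), ed_zero ⟨(hzC k).symm, hzd⟩,
      ed_zeroA ⟨hzC l, hC hd l⟩, ed_zero ⟨(hzC k).symm, (hzC l).symm⟩, chi_zero hz]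
    decide

theorem four_all : ∀ k l m p : Fin 4, [k, l, m, p].Nodup →
    ∀ q : Fin 4, q = k ∨ q = l ∨ q = m ∨ q = p := by
  decide

theorem main (hD : SpecTPD) (hW : SpecCWC) (hB : SpecNBF) (hR : R1 G u w) {k l m p : Fin 4}
    {z d d' : α} (hnd : [k, l, m, p].Nodup) (hb : Bta G u w k l m p z d d')
    (hkl : G.Adj (w k) (w l)) (hmp : G.Adj (w m) (w p)) :
    ∃ X Y, Cfg G u w k l m p X Y ∧ X s(w k, w l) = 1 ∧ Y s(w m, w p) = 1 ∧ X s(w m, w p) = 0 ∧
      pr (tht w k z d) X = 0 := by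
  classical
  have nd : k ≠ l ∧ k ≠ m ∧ k ≠ p ∧ l ≠ m ∧ l ≠ p ∧ m ≠ p := by
    simp only [List.nodup_cons, List.mem_cons, List.not_mem_nil, or_false, not_or,
      List.nodup_nil, and_true, not_false_eq_true] at hnd
    tauto
  obtain ⟨nkl, nkm, nkp, nlm, nlp, nmp⟩ := nd
  have hall : ∀ q : Fin 4, q = k ∨ q = l ∨ q = m ∨ q = p := four_all k l m p hnd
  have hzC : z ∈ CC G u w := hb.ti.cC
  have hdC : d ∈ CC G u w := hb.ti.dC
  have hd'C : d' ∈ CC G u w := hb.tm.dC
  have hzd : G.Adj z d := hb.ti.cd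
  have hzd' : G.Adj z d' := hb.tm.cd
  have hkd : G.Adj (w k) d := (hb.ti.nb d).2 (Or.inr (Or.inr (Or.inr rfl)))
  have hmd' : G.Adj (w m) d' := (hb.tm.nb d').2 (Or.inr (Or.inr (Or.inr rfl)))
  have hmz : G.Adj (w m) z := (hb.tm.nb z).2 (Or.inr (Or.inr (Or.inl rfl)))
  have hCw : ∀ {x}, x ∈ CC G u w → ∀ i, x ≠ w i := fun hx i => (CBSM.mem_CC.1 hx).2.2 i
  -- `w l`, `w p` are not adjacent to `z`
  have hz : ∀ {i}, i ≠ k → i ≠ m → ¬ G.Adj (w i) z := by
    intro i hik him h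
    rcases (hb.nz (w i)).1 h.symm with h1 | h1 | h1 | h1
    · exact hik (hR.inj h1)
    · exact him (hR.inj h1)
    · exact hCw hdC i h1.symm
    · exact hCw hd'C i h1.symm
  -- the component
  set H := del G (insert z (insert u (WW w))) with hH
  set R := (CC G u w).filter (fun v => v ≠ z ∧ H.Reachable d v) with hRdef
  have hRC : R ⊆ CC G u w := filter_subset _ _
  have hdR : d ∈ R := mem_filter.2 ⟨hdC, hzd.ne.symm, Reachable.refl _⟩
  have hzR : z ∉ R := fun h => (mem_filter.1 h).2.1 rfl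
  have hnotin : ∀ {x}, x ∈ CC G u w → x ≠ z → x ∉ insert z (insert u (WW w)) := by
    intro x hx hxz
    have h1 := CBSM.mem_CC.1 hx
    rw [mem_insert, CBSM.mem_UW]
    rintro (h | h | ⟨i, h⟩)
    · exact hxz h
    · exact h1.2.1 h
    · exact h1.2.2 i h
  have hcl : ∀ {x y}, x ∈ R → y ∈ CC G u w → y ≠ z → G.Adj x y → y ∈ R := by
    intro x y hx hy hyz hxy
    have hx' := mem_filter.1 hx
    refine mem_filter.2 ⟨hy, hyz, hx'.2.2.trans (Adj.reachable ?_)⟩
    exact ⟨hxy, hnotin hx'.1 hx'.2.1, hnotin hy hyz⟩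
  have hRc : CSet G R := by
    refine CBSM.cset (R := H) (c := d) (del_le _ _) hdR (fun v hv => (mem_filter.1 hv).2.2) ?_
    intro v v' hvv' hv
    have h1 : v' ∉ insert z (insert u (WW w)) := hvv'.2.2
    rw [mem_insert, CBSM.mem_UW, not_or, not_or, not_exists] at h1
    exact hcl hv (CBSM.mem_CC.2 ⟨right_mem_VS hvv'.1, h1.2.1, h1.2.2⟩) h1.1 hvv'.1
  obtain ⟨T, hTG, hT⟩ := exists_tree hRc
  by_cases hd'R : d' ∈ R
  · -- all of `C - z`
    have hallR : ∀ v ∈ CC G u w, v ≠ z → v ∈ R := by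
      by_contra hcon
      push Not at hcon
      obtain ⟨v, hv, hvz, hvR⟩ := hcon
      refine CL2M.nb3 hB hR (A := ((CC G u w).erase z) \ R)
        (sdiff_subset.trans (erase_subset _ _)) ⟨v, by simp [hv, hvz, hvR]⟩
        (T := {z, w l, w p}) ?_ card_le_three
      intro x hx y hy hxy
      rw [mem_sdiff, mem_erase] at hx
      obtain ⟨⟨hxz, hxC⟩, hxR⟩ := hx
      simp only [mem_insert, mem_singleton]
      rcases CL2M.nbr hR hxC hxy with h | ⟨q, rfl⟩
      · by_cases hyz : y = z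
        · exact Or.inl hyz
        · exfalso
          have hyR : y ∈ R := by
            by_contra hyR
            exact hy (mem_sdiff.2 ⟨mem_erase.2 ⟨hyz, h⟩, hyR⟩)
          exact hxR (hcl hyR hxC hxz hxy.symm)
      · rcases hall q with rfl | rfl | rfl | rfl
        · exfalso
          rcases TA_nb hb.ti hxC hxy.symm with rfl | rfl
          · exact hxz rfl
          · exact hxR hdR
        · exact Or.inr (Or.inl rfl)
        · exfalso
          rcases TA_nb hb.tm hxC hxy.symm with rfl | rfl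
          · exact hxz rfl
          · exact hxR hd'R
        · exact Or.inr (Or.inr rfl)
    have hnb : ∀ i, i ≠ k → i ≠ m → ∃ a ∈ R, G.Adj (w i) a := by
      intro i hik him
      obtain ⟨a, ha, hia⟩ := hW.nbC hR (CC G u w) (Subset.refl _) ⟨d, hdC⟩
        (fun _ _ b hb _ => hb) i
      refine ⟨a, hallR a ha ?_, hia⟩
      rintro rfl
      exact hz hik him hia
    obtain ⟨al, hal, hlal⟩ := hnb l nkl.symm nlm
    obtain ⟨ap, hap, hpap⟩ := hnb p nkp.symm nmp.symm
    exact fin hD hR hnd hb hkl hmp hT hTG hRC hdR hal hd'R hap hlal hmd' hpap fun h =>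
      hzR (hT.vs_tp hdR hal h)
  · -- `w m` has no neighbour in `R`
    have hm : ∀ x ∈ R, ¬ G.Adj (w m) x := by
      intro x hx h
      rcases TA_nb hb.tm (hRC hx) h with rfl | rfl
      · exact hzR hx
      · exact hd'R hx
    have hnb : ∀ i, i ≠ k → i ≠ m → ∃ a ∈ R, G.Adj (w i) a := by
      intro i hik him
      by_contra hcon
      push Not at hcon
      refine CL2M.nb3 hB hR hRC ⟨d, hdR⟩ (T := insert z (image w (univ \ {i, m}))) ?_
        (CL2M.card_two z him)
      intro x hx y hy hxy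
      rcases CL2M.nbr hR (hRC hx) hxy with h | ⟨q, rfl⟩
      · by_cases hyz : y = z
        · rw [hyz]
          exact mem_insert_self _ _
        · exact absurd (hcl hx h hyz hxy) hy
      · apply mem_insert_of_mem
        refine mem_image.2 ⟨q, ?_, rfl⟩
        simp only [mem_sdiff, mem_univ, true_and, mem_insert, mem_singleton, not_or]
        constructor
        · rintro rfl
          exact hcon x hx hxy.symm
        · rintro rfl
          exact hm x hx hxy.symm
    obtain ⟨al, hal, hlal⟩ := hnb l nkl.symm nlm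
    obtain ⟨ap, hap, hpap⟩ := hnb p nkp.symm nmp.symm
    have hT' := hT.add_leaf hdR hzR
    refine fin hD hR hnd hb hkl hmp hT' (sup_le hTG (gr_le fun e he => ?_))
      (insert_subset hzC hRC) (mem_insert_of_mem hdR) (mem_insert_of_mem hal)
      (mem_insert_self _ _) (mem_insert_of_mem hap) hlal hmz hpap ?_
    · rw [mem_singleton] at he
      rw [he]
      exact hzd.symm
    · rw [tp_mono hT'.acyc le_sup_left (hT.conn d hdR al hal)]
      exact fun h => hzR (hT.vs_tp hdR hal h)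

end BS1M

theorem specBS1 (hTPD : SpecTPD) (hCWC : SpecCWC) (hNBF : SpecNBF) : SpecBS1 := by
  intro α _ _ G u w hR k l m p z d d' hnd hb hkl hmp
  exact BS1M.main hTPD hCWC hNBF hR hnd hb hkl hmp

end DL
end

section
/-!
MP_3ff0f8_gt, R1A block: BS2 (two beta-pairs, straight configuration).  (helper85)
-/
open SimpleGraph Finset

namespace DL

set_option linter.unusedSectionVars false

namespace BS2M

open BS0M

variable {α : Type} [Fintype α] [DecidableEq α] {G : SimpleGraph α} {u : α} {w : Fin 4 → α}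

/-- a set with at most 4 neighbours, among them the rigid vertex `u` -/
theorem rig2 (hNBF : SpecNBF) (hG : K48 G) (hu : Rig G u) {A S : Finset α} (hA : A ⊆ VS G)
    (h2 : 2 ≤ A.card) (huA : u ∈ NB G A) (hS : NB G A ⊆ S) (hS4 : S.card ≤ 4)
    (hn : A.card + 6 ≤ (VS G).card) : False := by
  have hle := (card_le_card hS).trans hS4
  have hne : A.Nonempty := card_pos.1 (by omega)
  have hcu := card_union_le A (NB G A)
  rcases hle.lt_or_eq with h4 | h4
  · have h1 := card_le_card (hNBF.nb hG.1 hA hne h4)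
    omega
  · have h1 := hNBF.rig hu hA huA h4 h2
    have h3 : (VS G).card ≤ (VS G \ (A ∪ NB G A)).card + (A ∪ NB G A).card := by
      have := card_le_card (show VS G ⊆ (VS G \ (A ∪ NB G A)) ∪ (A ∪ NB G A) by
        intro x hx
        by_cases hxm : x ∈ A ∪ NB G A
        · exact mem_union_right _ hxm
        · exact mem_union_left _ (mem_sdiff.2 ⟨hx, hxm⟩))
      exact this.trans (card_union_le _ _)
    omega

theorem mem_NB {A : Finset α} {x : α} : x ∈ NB G A ↔ x ∉ A ∧ ∃ a ∈ A, G.Adj a x := by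
  classical
  simp [NB]

theorem not_adj_u (h : R1 G u w) {x : α} (hx : x ∈ CC G u w) : ¬ G.Adj u x := by
  intro hux
  obtain ⟨i, rfl⟩ := (h.nu x).1 hux
  exact notMem_CC i hx

theorem CC_sub : CC G u w ⊆ VS G := sdiff_subset

theorem ne_u {x : α} (hx : x ∈ CC G u w) : x ≠ u := by
  rintro rfl
  rw [CC, mem_sdiff] at hx
  exact hx.2 (mem_insert_self _ _)

theorem ne_w {x : α} (hx : x ∈ CC G u w) (i : Fin 4) : x ≠ w i := by
  rintro rfl
  exact notMem_CC i hx

theorem four {k l m p : Fin 4} (hnd : [k, l, m, p].Nodup) (i : Fin 4) :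
    i = k ∨ i = l ∨ i = m ∨ i = p := by
  revert hnd
  revert k l m p i
  decide

theorem u_mem (h : R1 G u w) : u ∈ VS G :=
  left_mem_VS ((h.nu (w 0)).2 ⟨0, rfl⟩)

theorem w_mem (h : R1 G u w) (i : Fin 4) : w i ∈ VS G :=
  right_mem_VS ((h.nu (w i)).2 ⟨i, rfl⟩)

/-- the data of BS2 -/
structure Dat (G : SimpleGraph α) (u : α) (w : Fin 4 → α) (k l m p : Fin 4)
    (z d d' z' e e' : α) : Prop where
  r : R1 G u w
  nd : [k, l, m, p].Nodup
  b : Bta G u w k l m p z d d'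
  b' : Bta G u w l k p m z' e e'

section

variable {k l m p : Fin 4} {z d d' z' e e' : α}

theorem Dat.ne (D : Dat G u w k l m p z d d' z' e e') :
    k ≠ l ∧ k ≠ m ∧ k ≠ p ∧ l ≠ m ∧ l ≠ p ∧ m ≠ p := by
  have := D.nd
  simp only [List.nodup_cons, List.mem_cons, List.not_mem_nil, or_false, not_or] at this
  tauto

theorem Dat.wne (D : Dat G u w k l m p z d d' z' e e') :
    w k ≠ w l ∧ w k ≠ w m ∧ w k ≠ w p ∧ w l ≠ w m ∧ w l ≠ w p ∧ w m ≠ w p := by
  obtain ⟨h1, h2, h3, h4, h5, h6⟩ := D.ne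
  exact ⟨fun h => h1 (D.r.inj h), fun h => h2 (D.r.inj h), fun h => h3 (D.r.inj h),
    fun h => h4 (D.r.inj h), fun h => h5 (D.r.inj h), fun h => h6 (D.r.inj h)⟩

theorem Dat.zz (D : Dat G u w k l m p z d d' z' e e') : z ≠ z' ∧ z' ≠ d ∧ z' ≠ d' ∧ z ≠ e ∧ z ≠ e' := by
  obtain ⟨h1, h2, h3, h4, h5, h6⟩ := D.wne
  have c1 : ¬ G.Adj z' (w k) := by
    rw [D.b'.nz]
    rintro (h | h | h | h)
    · exact h1 h
    · exact h3 h
    · exact ne_w D.b'.ti.dC k h.symm
    · exact ne_w D.b'.tm.dC k h.symm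
  have c2 : ¬ G.Adj z' (w m) := by
    rw [D.b'.nz]
    rintro (h | h | h | h)
    · exact h4 h.symm
    · exact h6 h
    · exact ne_w D.b'.ti.dC m h.symm
    · exact ne_w D.b'.tm.dC m h.symm
  have c3 : ¬ G.Adj z (w l) := by
    rw [D.b.nz]
    rintro (h | h | h | h)
    · exact h1 h.symm
    · exact h4 h
    · exact ne_w D.b.ti.dC l h.symm
    · exact ne_w D.b.tm.dC l h.symm
  have c4 : ¬ G.Adj z (w p) := by
    rw [D.b.nz]
    rintro (h | h | h | h)
    · exact h3 h.symm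
    · exact h6 h.symm
    · exact ne_w D.b.ti.dC p h.symm
    · exact ne_w D.b.tm.dC p h.symm
  refine ⟨?_, ?_, ?_, ?_, ?_⟩
  · rintro rfl
    exact c1 ((D.b.nz _).2 (Or.inl rfl))
  · rintro rfl
    exact c1 ((D.b.ti.nb _).2 (Or.inr (Or.inr (Or.inr rfl)))).symm
  · rintro rfl
    exact c2 ((D.b.tm.nb _).2 (Or.inr (Or.inr (Or.inr rfl)))).symm
  · rintro rfl
    exact c3 ((D.b'.ti.nb _).2 (Or.inr (Or.inr (Or.inr rfl)))).symm
  · rintro rfl
    exact c4 ((D.b'.tm.nb _).2 (Or.inr (Or.inr (Or.inr rfl)))).symm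

/-- edges from `C - z - z'` to the rest -/
theorem Dat.out (D : Dat G u w k l m p z d d' z' e e') {a v : α} (ha : a ∈ CC G u w)
    (haz : a ≠ z) (haz' : a ≠ z') (hv : v ∉ CC G u w ∨ v = z ∨ v = z') (hav : G.Adj a v) :
    (v = w k ∧ a = d) ∨ (v = w m ∧ a = d') ∨ (v = w l ∧ a = e) ∨ (v = w p ∧ a = e') ∨
      (v = z ∧ (a = d ∨ a = d')) ∨ (v = z' ∧ (a = e ∨ a = e')) := by
  have hau := ne_u ha
  have haw := ne_w ha
  rcases hv with hv | rfl | rfl
  · have hvV : v ∈ VS G := right_mem_VS hav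
    rw [CC, mem_sdiff, not_and_or, not_not] at hv
    rcases hv with hv | hv
    · exact absurd hvV hv
    · rw [mem_insert, WW, mem_image] at hv
      rcases hv with rfl | ⟨i, -, rfl⟩
      · exact absurd hav.symm (not_adj_u D.r ha)
      · rcases four D.nd i with rfl | rfl | rfl | rfl
        · rcases (D.b.ti.nb a).1 hav.symm with h | h | h | h
          · exact absurd h hau
          · exact absurd h (haw _)
          · exact absurd h haz
          · exact Or.inl ⟨rfl, h⟩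
        · rcases (D.b'.ti.nb a).1 hav.symm with h | h | h | h
          · exact absurd h hau
          · exact absurd h (haw _)
          · exact absurd h haz'
          · exact Or.inr (Or.inr (Or.inl ⟨rfl, h⟩))
        · rcases (D.b.tm.nb a).1 hav.symm with h | h | h | h
          · exact absurd h hau
          · exact absurd h (haw _)
          · exact absurd h haz
          · exact Or.inr (Or.inl ⟨rfl, h⟩)
        · rcases (D.b'.tm.nb a).1 hav.symm with h | h | h | h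
          · exact absurd h hau
          · exact absurd h (haw _)
          · exact absurd h haz'
          · exact Or.inr (Or.inr (Or.inr (Or.inl ⟨rfl, h⟩)))
  · rcases (D.b.nz a).1 hav.symm with h | h | h | h
    · exact absurd h (haw _)
    · exact absurd h (haw _)
    · exact Or.inr (Or.inr (Or.inr (Or.inr (Or.inl ⟨rfl, Or.inl h⟩))))
    · exact Or.inr (Or.inr (Or.inr (Or.inr (Or.inl ⟨rfl, Or.inr h⟩))))
  · rcases (D.b'.nz a).1 hav.symm with h | h | h | h
    · exact absurd h (haw _)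
    · exact absurd h (haw _)
    · exact Or.inr (Or.inr (Or.inr (Or.inr (Or.inr ⟨rfl, Or.inl h⟩))))
    · exact Or.inr (Or.inr (Or.inr (Or.inr (Or.inr ⟨rfl, Or.inr h⟩))))

/-- `d ≠ e` -/
theorem Dat.de (hNBF : SpecNBF) (D : Dat G u w k l m p z d d' z' e e') : d ≠ e := by
  rintro rfl
  obtain ⟨h1, -⟩ := D.wne
  have hA : ({w k, w l} : Finset α).card = 2 := card_pair h1
  refine rig2 hNBF D.r.k48 D.r.rig (A := {w k, w l}) (S := {u, z, z', d}) ?_ (by omega) ?_ ?_ ?_ ?_
  · intro x hx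
    rw [mem_insert, mem_singleton] at hx
    rcases hx with rfl | rfl
    · exact w_mem D.r k
    · exact w_mem D.r l
  · rw [mem_NB]
    refine ⟨?_, w k, mem_insert_self _ _, ((D.r.nu _).2 ⟨k, rfl⟩).symm⟩
    rw [mem_insert, mem_singleton, not_or]
    exact ⟨((D.r.nu _).2 ⟨k, rfl⟩).ne, ((D.r.nu _).2 ⟨l, rfl⟩).ne⟩
  · intro x hx
    rw [mem_NB] at hx
    obtain ⟨hx1, a, ha, hax⟩ := hx
    rw [mem_insert, mem_singleton] at ha hx1
    simp only [mem_insert, mem_singleton]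
    rcases ha with rfl | rfl
    · rcases (D.b.ti.nb x).1 hax with h | h | h | h <;> tauto
    · rcases (D.b'.ti.nb x).1 hax with h | h | h | h <;> tauto
  · exact card_le_four
  · have := D.r.k48.2
    omega

/-- exchange of the two sides -/
theorem Dat.swap (D : Dat G u w k l m p z d d' z' e e') : Dat G u w m p k l z d' d z' e' e where
  r := D.r
  nd := by
    obtain ⟨h1, h2, h3, h4, h5, h6⟩ := D.ne
    simp only [List.nodup_cons, List.mem_cons, List.not_mem_nil, or_false, not_or]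
    refine ⟨⟨h6, h2.symm, h4.symm⟩, ⟨h3.symm, h5.symm⟩, h1, not_false, List.nodup_nil⟩
  b := ⟨D.b.im.symm, D.b.ji, D.b.jm, D.b.dd.symm, D.b.tm, D.b.ti, fun x => by
    rw [D.b.nz]
    tauto⟩
  b' := ⟨D.b'.im.symm, D.b'.ji, D.b'.jm, D.b'.dd.symm, D.b'.tm, D.b'.ti, fun x => by
    rw [D.b'.nz]
    tauto⟩

/-- exchange of the two pairs -/
theorem Dat.swap' (D : Dat G u w k l m p z d d' z' e e') : Dat G u w l k p m z' e e' z d d' where
  r := D.r
  nd := by
    obtain ⟨h1, h2, h3, h4, h5, h6⟩ := D.ne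
    simp only [List.nodup_cons, List.mem_cons, List.not_mem_nil, or_false, not_or]
    refine ⟨⟨h1.symm, h5, h4⟩, ⟨h3, h2⟩, h6.symm, not_false, List.nodup_nil⟩
  b := D.b'
  b' := D.b

theorem Dat.de' (hNBF : SpecNBF) (D : Dat G u w k l m p z d d' z' e e') : d' ≠ e' := D.swap.de hNBF

/-- a closed subset of `C - z - z'` -/
structure Dat.Cl (_D : Dat G u w k l m p z d d' z' e e') (K : Finset α) : Prop where
  sub : ∀ a ∈ K, a ∈ CC G u w ∧ a ≠ z ∧ a ≠ z'
  ne : K.Nonempty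
  cl : ∀ a ∈ K, ∀ b ∈ CC G u w, b ≠ z → b ≠ z' → G.Adj a b → b ∈ K

variable {K : Finset α}

theorem Dat.Cl.out {D : Dat G u w k l m p z d d' z' e e'} (h : D.Cl K) {a v : α} (ha : a ∈ K)
    (hv : v ∉ K) (hav : G.Adj a v) :
    (v = w k ∧ a = d) ∨ (v = w m ∧ a = d') ∨ (v = w l ∧ a = e) ∨ (v = w p ∧ a = e') ∨
      (v = z ∧ (a = d ∨ a = d')) ∨ (v = z' ∧ (a = e ∨ a = e')) := by
  obtain ⟨h1, h2, h3⟩ := h.sub a ha
  refine D.out h1 h2 h3 ?_ hav
  by_contra hc
  rw [not_or, not_or, not_not] at hc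
  exact hv (h.cl a ha v hc.1 hc.2.1 hc.2.2 hav)

theorem Dat.Cl.hasd (hNBF : SpecNBF) {D : Dat G u w k l m p z d d' z' e e'} (h : D.Cl K) :
    d ∈ K ∨ d' ∈ K := by
  by_contra hc
  rw [not_or] at hc
  have hsub : K ⊆ VS G := fun a ha => CC_sub (h.sub a ha).1
  have hNB : NB G K ⊆ {w l, w p, z'} := by
    intro v hv
    rw [mem_NB] at hv
    obtain ⟨hv, a, ha, hav⟩ := hv
    have hd : a ≠ d := fun h => hc.1 (h ▸ ha)
    have hd' : a ≠ d' := fun h => hc.2 (h ▸ ha)
    simp only [mem_insert, mem_singleton]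
    rcases h.out ha hv hav with h | h | h | h | h | h <;> tauto
  have h4 : (NB G K).card < 4 := lt_of_le_of_lt (card_le_card hNB) (lt_of_le_of_lt card_le_three (by norm_num))
  have h5 := hNBF.nb D.r.k48.1 hsub h.ne h4 (u_mem D.r)
  rw [mem_union, mem_NB] at h5
  rcases h5 with h5 | ⟨-, a, ha, hau⟩
  · exact ne_u (h.sub u h5).1 rfl
  · exact not_adj_u D.r (h.sub a ha).1 hau.symm

theorem Dat.Cl.swap' {D : Dat G u w k l m p z d d' z' e e'} (h : D.Cl K) : D.swap'.Cl K :=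
  ⟨fun a ha => ⟨(h.sub a ha).1, (h.sub a ha).2.2, (h.sub a ha).2.1⟩, h.ne,
    fun a ha b hb h1 h2 hab => h.cl a ha b hb h2 h1 hab⟩

theorem Dat.Cl.swap {D : Dat G u w k l m p z d d' z' e e'} (h : D.Cl K) : D.swap.Cl K :=
  ⟨h.sub, h.ne, h.cl⟩

theorem Dat.Cl.hase (hNBF : SpecNBF) {D : Dat G u w k l m p z d d' z' e e'} (h : D.Cl K) :
    e ∈ K ∨ e' ∈ K := h.swap'.hasd hNBF

/-- a closed set which contains only `d` and `y` of `d, d', e, e'` is `{d, y}` -/
theorem Dat.Cl.pair (hNBF : SpecNBF) {D : Dat G u w k l m p z d d' z' e e'} (h : D.Cl K) {y : α}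
    (hd : d' ∉ K) (hy : ∀ a ∈ K, (a = e ∨ a = e') → a = y) : ∀ a ∈ K, a = d ∨ a = y := by
  by_contra hc
  push Not at hc
  obtain ⟨a0, ha0, ha1, ha2⟩ := hc
  have hsub : (K \ {d, y}) ⊆ VS G := fun a ha => CC_sub (h.sub a (mem_sdiff.1 ha).1).1
  have hne : (K \ {d, y}).Nonempty := ⟨a0, by
    rw [mem_sdiff, mem_insert, mem_singleton, not_or]
    exact ⟨ha0, ha1, ha2⟩⟩
  have hNB : NB G (K \ {d, y}) ⊆ {d, y} := by
    intro v hv
    rw [mem_NB] at hv
    obtain ⟨hv, a, ha, hav⟩ := hv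
    rw [mem_sdiff, mem_insert, mem_singleton, not_or] at ha
    obtain ⟨haK, had, hay⟩ := ha
    have hae : a ≠ e := fun h => hay (hy a haK (Or.inl h))
    have hae' : a ≠ e' := fun h => hay (hy a haK (Or.inr h))
    have had' : a ≠ d' := fun h => hd (h ▸ haK)
    by_cases hvK : v ∈ K
    · by_contra hvn
      exact hv (mem_sdiff.2 ⟨hvK, hvn⟩)
    · exfalso
      rcases h.out haK hvK hav with h | h | h | h | h | h <;> tauto
  have h4 : (NB G (K \ {d, y})).card < 4 :=
    lt_of_le_of_lt (card_le_card hNB) (lt_of_le_of_lt card_le_two (by norm_num))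
  have h5 := hNBF.nb D.r.k48.1 hsub hne h4 (u_mem D.r)
  rw [mem_union, mem_NB] at h5
  rcases h5 with h5 | ⟨-, a, ha, hau⟩
  · exact ne_u (h.sub u (mem_sdiff.1 h5).1).1 rfl
  · exact not_adj_u D.r (h.sub a (mem_sdiff.1 ha).1).1 hau.symm

theorem Dat.deg (D : Dat G u w k l m p z d d' z' e e') {a : α} (ha : a ∈ CC G u w) :
    4 ≤ (nbs G a).card := D.r.k48.1.le_nbs (CC_sub ha)

/-- a closed set with `d`, without `d'`, and exactly one of `e`, `e'` : it is `{d}` and `d` is this vertex -/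
theorem Dat.Cl.one (hNBF : SpecNBF) {D : Dat G u w k l m p z d d' z' e e'} (h : D.Cl K) {y : α}
    (hdK : d ∈ K) (hd : d' ∉ K) (hyK : y ∈ K) (hy : ∀ a ∈ K, (a = e ∨ a = e') → a = y) :
    d = y ∧ K = {d} := by
  have h1 := h.pair hNBF hd hy
  have hdy : d = y := by
    by_contra hne
    have h2 : nbs G d ⊆ {w k, z, y} := by
      intro v hv
      rw [mem_nbs] at hv
      have hde : ¬ (d = e ∨ d = e') := fun h => hne (hy d hdK h)
      rw [not_or] at hde
      have hdd := D.b.dd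
      simp only [mem_insert, mem_singleton]
      by_cases hvK : v ∈ K
      · rcases h1 v hvK with h | h
        · exact absurd h.symm hv.ne
        · exact Or.inr (Or.inr h)
      · rcases h.out hdK hvK hv with h | h | h | h | h | h <;> tauto
    have h3 := D.deg (h.sub d hdK).1
    have h4 := card_le_card h2
    have h5 : ({w k, z, y} : Finset α).card ≤ 3 := card_le_three
    omega
  refine ⟨hdy, ?_⟩
  ext a
  rw [mem_singleton]
  constructor
  · intro ha
    rcases h1 a ha with h | h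
    · exact h
    · rw [h, hdy]
  · rintro rfl
    exact hdK

/-- `C - z - z'` is not the union of two disjoint closed sets, case `d ∈ K` -/
theorem Dat.no2 (hNBF : SpecNBF) (hM33 : SpecM33) (D : Dat G u w k l m p z d d' z' e e')
    {K' : Finset α} (h : D.Cl K) (h' : D.Cl K') (hdisj : Disjoint K K') (hdK : d ∈ K)
    (hall : ∀ a ∈ CC G u w, a ≠ z → a ≠ z' → a ∈ K ∨ a ∈ K') : False := by
  have hd'K' : d' ∈ K' := (h'.hasd hNBF).resolve_left fun hc => disjoint_left.1 hdisj hdK hc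
  have hd'K : d' ∉ K := fun hc => disjoint_left.1 hdisj hc hd'K'
  have hdK' : d ∉ K' := fun hc => disjoint_left.1 hdisj hdK hc
  rcases h.hase hNBF with he | he
  · have he' : e' ∈ K' := (h'.hase hNBF).resolve_left fun hc => disjoint_left.1 hdisj he hc
    have he'K : e' ∉ K := fun hc => disjoint_left.1 hdisj hc he'
    obtain ⟨h1, -⟩ := h.one hNBF hdK hd'K he (fun a ha hae => by
      rcases hae with h | h
      · exact h
      · exact absurd (h ▸ ha) he'K)
    exact D.de hNBF h1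
  · have he'K' : e' ∉ K' := fun hc => disjoint_left.1 hdisj he hc
    have heK' : e ∈ K' := (h'.hase hNBF).resolve_right he'K'
    have heK : e ∉ K := fun hc => disjoint_left.1 hdisj hc heK'
    obtain ⟨h1, h2⟩ := h.one hNBF hdK hd'K he (fun a ha hae => by
      rcases hae with h | h
      · exact absurd (h ▸ ha) heK
      · exact h)
    obtain ⟨h3, h4⟩ := h'.swap.one hNBF hd'K' hdK' heK' (fun a ha hae => by
      rcases hae with h | h
      · exact absurd (h ▸ ha) he'K'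
      · exact h)
    subst h1
    subst h3
    obtain ⟨z1, z2, z3, z4, z5⟩ := D.zz
    obtain ⟨w1, w2, w3, w4, w5, w6⟩ := D.wne
    have cz := D.b.ti.cC
    have cz' := D.b'.ti.cC
    have cd := D.b.ti.dC
    have cd' := D.b.tm.dC
    have huw : ∀ i, u ≠ w i := fun i => ((D.r.nu _).2 ⟨i, rfl⟩).ne
    have hzd : z ≠ d := D.b.ti.cd.ne
    have hzd' : z ≠ d' := D.b.tm.cd.ne
    have hz'd : z' ≠ d := D.b'.tm.cd.ne
    have hz'd' : z' ≠ d' := D.b'.ti.cd.ne
    have hdd := D.b.dd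
    refine D.r.n33 (hM33 u (w k) (w l) (w m) (w p) z d d' z' ?_ ?_ ?_ ?_ ?_ ?_ ?_ ?_ ?_ ?_ ?_)
    · simp only [List.nodup_cons, List.mem_cons, List.not_mem_nil, or_false, not_or]
      exact ⟨⟨huw k, huw l, huw m, huw p, (ne_u cz).symm, (ne_u cd).symm, (ne_u cd').symm,
        (ne_u cz').symm⟩, ⟨w1, w2, w3, (ne_w cz k).symm, (ne_w cd k).symm, (ne_w cd' k).symm,
        (ne_w cz' k).symm⟩, ⟨w4, w5, (ne_w cz l).symm, (ne_w cd l).symm, (ne_w cd' l).symm,
        (ne_w cz' l).symm⟩, ⟨w6, (ne_w cz m).symm, (ne_w cd m).symm, (ne_w cd' m).symm,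
        (ne_w cz' m).symm⟩, ⟨(ne_w cz p).symm, (ne_w cd p).symm, (ne_w cd' p).symm,
        (ne_w cz' p).symm⟩, ⟨hzd, hzd', z1⟩, ⟨hdd, hz'd.symm⟩, hz'd'.symm, not_false, List.nodup_nil⟩
    · intro x hx
      simp only [List.mem_cons, List.not_mem_nil, or_false]
      by_cases hxC : x ∈ CC G u w
      · by_cases hxz : x = z
        · tauto
        · by_cases hxz' : x = z'
          · tauto
          · rcases hall x hxC hxz hxz' with h | h
            · rw [h2, mem_singleton] at h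
              tauto
            · rw [h4, mem_singleton] at h
              tauto
      · rw [CC, mem_sdiff, not_and_or, not_not] at hxC
        rcases hxC with hxC | hxC
        · exact absurd hx hxC
        · rw [mem_insert, WW, mem_image] at hxC
          rcases hxC with h | ⟨i, -, h⟩
          · tauto
          · rcases four D.nd i with rfl | rfl | rfl | rfl <;> tauto
    · intro x
      simp only [List.mem_cons, List.not_mem_nil, or_false]
      rw [D.r.nu]
      constructor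
      · rintro ⟨i, rfl⟩
        rcases four D.nd i with rfl | rfl | rfl | rfl <;> tauto
      · rintro (h | h | h | h)
        · exact ⟨k, h⟩
        · exact ⟨l, h⟩
        · exact ⟨m, h⟩
        · exact ⟨p, h⟩
    · intro x
      simp only [List.mem_cons, List.not_mem_nil, or_false]
      exact D.b.ti.nb x
    · intro x
      simp only [List.mem_cons, List.not_mem_nil, or_false]
      rw [D.b'.ti.nb]
      tauto
    · intro x
      simp only [List.mem_cons, List.not_mem_nil, or_false]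
      exact D.b.tm.nb x
    · intro x
      simp only [List.mem_cons, List.not_mem_nil, or_false]
      rw [D.b'.tm.nb]
      tauto
    · intro x
      simp only [List.mem_cons, List.not_mem_nil, or_false]
      exact D.b.nz x
    · intro x
      simp only [List.mem_cons, List.not_mem_nil, or_false]
      constructor
      · intro hx
        have hxK : x ∉ K := by
          rw [h2, mem_singleton]
          exact hx.ne'
        rcases h.out hdK hxK hx with h | h | h | h | h | h <;> tauto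
      · rintro (rfl | rfl | rfl | rfl)
        · exact ((D.b.ti.nb _).2 (Or.inr (Or.inr (Or.inr rfl)))).symm
        · exact ((D.b'.tm.nb _).2 (Or.inr (Or.inr (Or.inr rfl)))).symm
        · exact D.b.ti.cd.symm
        · exact D.b'.tm.cd.symm
    · intro x
      simp only [List.mem_cons, List.not_mem_nil, or_false]
      constructor
      · intro hx
        have hxK : x ∉ K' := by
          rw [h4, mem_singleton]
          exact hx.ne'
        rcases h'.out hd'K' hxK hx with h | h | h | h | h | h <;> tauto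
      · rintro (rfl | rfl | rfl | rfl)
        · exact ((D.b'.ti.nb _).2 (Or.inr (Or.inr (Or.inr rfl)))).symm
        · exact ((D.b.tm.nb _).2 (Or.inr (Or.inr (Or.inr rfl)))).symm
        · exact D.b.tm.cd.symm
        · exact D.b'.ti.cd.symm
    · intro x
      simp only [List.mem_cons, List.not_mem_nil, or_false]
      rw [D.b'.nz]
      tauto

/-- `C - z - z'` is connected -/
theorem Dat.Cl.all (hNBF : SpecNBF) (hM33 : SpecM33) {D : Dat G u w k l m p z d d' z' e e'}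
    (h : D.Cl K) : ∀ a ∈ CC G u w, a ≠ z → a ≠ z' → a ∈ K := by
  by_contra hc
  push Not at hc
  obtain ⟨a0, h1, h2, h3, h4⟩ := hc
  have h' : D.Cl ((CC G u w \ {z, z'}) \ K) := by
    refine ⟨fun a ha => ?_, ⟨a0, ?_⟩, fun a ha b hb hbz hbz' hab => ?_⟩
    · rw [mem_sdiff, mem_sdiff, mem_insert, mem_singleton, not_or] at ha
      exact ha.1
    · rw [mem_sdiff, mem_sdiff, mem_insert, mem_singleton, not_or]
      exact ⟨⟨h1, h2, h3⟩, h4⟩
    · rw [mem_sdiff, mem_sdiff, mem_insert, mem_singleton, not_or] at ha ⊢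
      exact ⟨⟨hb, hbz, hbz'⟩, fun hbK => ha.2 (h.cl b hbK a ha.1.1 ha.1.2.1 ha.1.2.2 hab.symm)⟩
  have hdisj : Disjoint K ((CC G u w \ {z, z'}) \ K) := disjoint_sdiff
  have hall : ∀ a ∈ CC G u w, a ≠ z → a ≠ z' → a ∈ K ∨ a ∈ (CC G u w \ {z, z'}) \ K := by
    intro a ha haz haz'
    by_cases haK : a ∈ K
    · exact Or.inl haK
    · right
      rw [mem_sdiff, mem_sdiff, mem_insert, mem_singleton, not_or]
      exact ⟨⟨ha, haz, haz'⟩, haK⟩
  rcases h.hasd hNBF with hd | hd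
  · exact D.no2 hNBF hM33 h h' hdisj hd hall
  · exact D.swap.no2 hNBF hM33 h.swap h'.swap hdisj hd hall

end

end BS2M

open BS0M BS2M in
theorem specBS2 (hTRE : SpecTRE) (hTPD : SpecTPD) (hM33 : SpecM33) (hNBF : SpecNBF) : SpecBS2 := by
  intro α _ _ G u w h k l m p z d d' z' e e' hnd hb hb'
  have D : Dat G u w k l m p z d d' z' e e' := ⟨h, hnd, hb, hb'⟩
  obtain ⟨n1, n2, n3, n4, n5, n6⟩ := D.ne
  obtain ⟨z1, z2, z3, z4, z5⟩ := D.zz
  have hkl : G.Adj (w k) (w l) := (hb.ti.nb _).2 (Or.inr (Or.inl rfl))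
  have hmp : G.Adj (w m) (w p) := (hb.tm.nb _).2 (Or.inr (Or.inl rfl))
  have cz := D.b.ti.cC
  have cz' := D.b'.ti.cC
  have hmem : ∀ {a : α}, a ∈ CC G u w → a ≠ z → a ≠ z' → a ∈ CC G u w \ {z, z'} := by
    intro a h1 h2 h3
    rw [mem_sdiff, mem_insert, mem_singleton, not_or]
    exact ⟨h1, h2, h3⟩
  have hd := hmem D.b.ti.dC D.b.ti.cd.ne' z2.symm
  have hd' := hmem D.b.tm.dC D.b.tm.cd.ne' z3.symm
  have he := hmem D.b'.ti.dC z4.symm D.b'.ti.cd.ne'
  have he' := hmem D.b'.tm.dC z5.symm D.b'.tm.cd.ne'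
  obtain ⟨A, hAC, hxA, hcl, hcon, -⟩ := comp G hd
  have hAC' : A ⊆ CC G u w := hAC.trans sdiff_subset
  have hCl : D.Cl A := by
    refine ⟨fun a ha => ?_, ⟨d, hxA⟩, fun a ha b hb hbz hbz' hab => hcl a ha b (hmem hb hbz hbz') hab⟩
    have := hAC ha
    rw [mem_sdiff, mem_insert, mem_singleton, not_or] at this
    exact this
  have hall := hCl.all hNBF hM33
  have hA : ∀ {a : α}, a ∈ CC G u w \ {z, z'} → a ∈ A := by
    intro a ha
    rw [mem_sdiff, mem_insert, mem_singleton, not_or] at ha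
    exact hall a ha.1 ha.2.1 ha.2.2
  obtain ⟨T, hT, hTA⟩ := tree G hcon
  have hzA : z ∉ A := fun hc => (hCl.sub z hc).2.1 rfl
  have hz'A : z' ∉ A := fun hc => (hCl.sub z' hc).2.2 rfl
  have hC := hTPD h k l m p hnd hkl hmp T A hTA (hT.trans (del_le _ _)) hAC' d (hA hd) e (hA he) d'
    (hA hd') e' (hA he') ((hb.ti.nb _).2 (Or.inr (Or.inr (Or.inr rfl))))
    ((hb'.ti.nb _).2 (Or.inr (Or.inr (Or.inr rfl)))) ((hb.tm.nb _).2 (Or.inr (Or.inr (Or.inr rfl))))
    ((hb'.tm.nb _).2 (Or.inr (Or.inr (Or.inr rfl))))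
  have hz0 : ∀ f : Sym2 α, z ∈ f →
      (ed (w k) d + ed (w l) e + ed (w k) (w l) + chi (tp T d e)) f = 0 := by
    intro f hf
    rw [Pi.add_apply, Pi.add_apply, Pi.add_apply, ed_zero_of hf (ne_w cz k) D.b.ti.cd.ne,
      ed_zero_of hf (ne_w cz l) z4, ed_zero_of hf (ne_w cz k) (ne_w cz l),
      tp_zero hTRE hTA (hA hd) (hA he) hf hzA]
    norm_num
  have hz0' : ∀ f : Sym2 α, z' ∈ f →
      (ed (w k) d + ed (w l) e + ed (w k) (w l) + chi (tp T d e)) f = 0 := by
    intro f hf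
    rw [Pi.add_apply, Pi.add_apply, Pi.add_apply, ed_zero_of hf (ne_w cz' k) z2,
      ed_zero_of hf (ne_w cz' l) D.b'.ti.cd.ne, ed_zero_of hf (ne_w cz' k) (ne_w cz' l),
      tp_zero hTRE hTA (hA hd) (hA he) hf hz'A]
    norm_num
  refine ⟨_, _, hC, bead_self hTRE h.inj hTA hAC' n1 (hA hd) (hA he),
    bead_self hTRE h.inj hTA hAC' n6 (hA hd') (hA he'),
    bead_other hTRE h.inj hTA hAC' n2.symm n4.symm (hA hd) (hA he) (Sym2.mem_mk_left _ _), ?_, ?_⟩
  · rw [pr_tht, hz0 _ (Sym2.mem_mk_right _ _), hz0 _ (Sym2.mem_mk_left _ _), add_zero]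
  · rw [pr_tht, hz0' _ (Sym2.mem_mk_right _ _), hz0' _ (Sym2.mem_mk_left _ _), add_zero]

end DL
end

section
/-!
# Module CWC: the neighbours of a rigid vertex of degree 4 and the other vertices
-/
open SimpleGraph Finset

namespace DL

namespace CWCM

variable {α : Type} [Fintype α] [DecidableEq α] {G : SimpleGraph α} {u : α} {w : Fin 4 → α}

theorem mem_WW {v : α} : v ∈ WW w ↔ ∃ i, v = w i := by
  rw [WW, mem_image]
  constructor
  · rintro ⟨i, _, h⟩
    exact ⟨i, h.symm⟩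
  · rintro ⟨i, h⟩
    exact ⟨i, mem_univ _, h.symm⟩

theorem w_mem (i : Fin 4) : w i ∈ WW w := mem_WW.2 ⟨i, rfl⟩

theorem mem_CC {v : α} : v ∈ CC G u w ↔ v ∈ VS G ∧ v ≠ u ∧ v ∉ WW w := by
  rw [CC, mem_sdiff, mem_insert, not_or]

theorem mem_NB {A : Finset α} {v : α} : v ∈ NB G A ↔ v ∉ A ∧ ∃ a ∈ A, G.Adj a v := by
  simp [NB]

theorem MM_adj {a b : α} : (MM G u w).Adj a b ↔
    G.Adj a b ∧ a ≠ u ∧ b ≠ u ∧ ¬ ∃ i j, s(a, b) = s(w i, w j) := by
  rw [MM, deleteEdges_adj, del_adj, mem_singleton, mem_singleton]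
  exact ⟨fun h => ⟨h.1.1, h.1.2.1, h.1.2.2, h.2⟩, fun h => ⟨⟨h.1, h.2.1, h.2.2.1⟩, h.2.2.2⟩⟩

theorem MM_le : MM G u w ≤ del G {u} := deleteEdges_le _

/-- an edge with one end in `CC` and none in `u` -/
theorem MM_adj_of {a b : α} (h : G.Adj a b) (ha : a ∉ WW w) (hau : a ≠ u) (hbu : b ≠ u) :
    (MM G u w).Adj a b := by
  rw [MM_adj]
  refine ⟨h, hau, hbu, ?_⟩
  rintro ⟨i, j, e⟩
  rw [Sym2.eq_iff] at e
  rcases e with ⟨e, _⟩ | ⟨e, _⟩
  · exact ha (mem_WW.2 ⟨i, e⟩)
  · exact ha (mem_WW.2 ⟨j, e⟩)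

theorem u_mem (h : R1 G u w) : u ∈ VS G := left_mem_VS ((h.nu (w 0)).2 ⟨0, rfl⟩)

theorem adj_u (h : R1 G u w) (i : Fin 4) : G.Adj u (w i) := (h.nu (w i)).2 ⟨i, rfl⟩

theorem w_ne (h : R1 G u w) (i : Fin 4) : w i ≠ u := (adj_u h i).ne'

theorem u_notMem (h : R1 G u w) : u ∉ WW w := fun hu => by
  obtain ⟨i, e⟩ := mem_WW.1 hu
  exact w_ne h i e.symm

theorem card_WW (h : R1 G u w) : (WW w).card = 4 := by
  rw [WW, card_image_of_injective _ h.inj]
  rfl

theorem WW_sub (h : R1 G u w) : WW w ⊆ VS G := fun v hv => by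
  obtain ⟨i, rfl⟩ := mem_WW.1 hv
  exact right_mem_VS (adj_u h i)

theorem card' (h : R1 G u w) : 3 ≤ (CC G u w).card ∧ (VS G).card = (CC G u w).card + 5 := by
  have h1 : insert u (WW w) ⊆ VS G := insert_subset (u_mem h) (WW_sub h)
  have h2 : (insert u (WW w)).card = 5 := by
    rw [card_insert_of_notMem (u_notMem h), card_WW h]
  have h3 := card_sdiff_add_card_eq_card h1
  have h4 : (CC G u w).card = (VS G \ insert u (WW w)).card := rfl
  have h5 := h.k48.2
  omega

theorem nonempty (h : R1 G u w) : (CC G u w).Nonempty := by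
  rw [← card_pos]
  have := (card' h).1
  omega

theorem adj_CC_ne {a b : α} (h : R1 G u w) (ha : a ∈ CC G u w) (hab : G.Adj a b) : b ≠ u := by
  rintro rfl
  obtain ⟨i, e⟩ := (h.nu a).1 hab.symm
  exact (mem_CC.1 ha).2.2 (mem_WW.2 ⟨i, e⟩)

theorem nbC (hNBF : SpecNBF) (h : R1 G u w) {A : Finset α} (hA : A ⊆ CC G u w) (hne : A.Nonempty)
    (hcl : ∀ a ∈ A, ∀ b ∈ CC G u w, G.Adj a b → b ∈ A) (i : Fin 4) : ∃ a ∈ A, G.Adj (w i) a := by
  by_contra hc
  push Not at hc
  have hsub : NB G A ⊆ (WW w).erase (w i) := by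
    intro v hv
    obtain ⟨h1, a, ha, h2⟩ := mem_NB.1 hv
    rw [mem_erase]
    refine ⟨fun e => hc a ha (e ▸ h2.symm), ?_⟩
    by_contra hvW
    exact h1 (hcl a ha v (mem_CC.2 ⟨right_mem_VS h2, adj_CC_ne h (hA ha) h2, hvW⟩) h2)
  have hcard : (NB G A).card < 4 := by
    refine lt_of_le_of_lt (card_le_card hsub) ?_
    rw [card_erase_of_mem (w_mem i), card_WW h]
    omega
  have h3 := hNBF.nb h.k48.1 (hA.trans (fun v hv => (mem_CC.1 hv).1)) hne hcard (u_mem h)
  rw [mem_union] at h3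
  rcases h3 with h3 | h3
  · exact (mem_CC.1 (hA h3)).2.1 rfl
  · exact u_notMem h (mem_erase.1 (hsub h3)).2

/-- every vertex of `CC` is connected with `w j` -/
theorem reach_w (hNBF : SpecNBF) (h : R1 G u w) {S : Finset α} (hS : S ⊆ WW w) {j : Fin 4}
    (hj : w j ∉ S) {a : α} (ha : a ∈ CC G u w) : (del (MM G u w) S).Reachable a (w j) := by
  classical
  have hCS : ∀ v ∈ CC G u w, v ∉ S := fun v hv hvS => (mem_CC.1 hv).2.2 (hS hvS)
  obtain ⟨b, hb, hjb⟩ := nbC hNBF h (A := (CC G u w).filter fun v => (del (MM G u w) S).Reachable a v)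
    (filter_subset _ _) ⟨a, mem_filter.2 ⟨ha, Reachable.refl _⟩⟩ (by
      intro x hx y hy hxy
      rw [mem_filter] at hx ⊢
      refine ⟨hy, hx.2.trans (Adj.reachable ⟨MM_adj_of hxy (mem_CC.1 hx.1).2.2 (mem_CC.1 hx.1).2.1
        (mem_CC.1 hy).2.1, hCS x hx.1, hCS y hy⟩)⟩) j
  rw [mem_filter] at hb
  exact hb.2.trans (Adj.reachable ⟨MM_adj_of hjb.symm (mem_CC.1 hb.1).2.2 (mem_CC.1 hb.1).2.1
    (w_ne h j), hCS b hb.1, hj⟩)

theorem VS_MM_sub : VS (MM G u w) ⊆ (VS G).erase u := fun v hv => by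
  obtain ⟨x, hx⟩ := mem_VS.1 hv
  rw [MM_adj] at hx
  exact mem_erase.2 ⟨hx.2.1, left_mem_VS hx.1⟩

/-- an edge of `M` from `w k` to `CC` -/
theorem exists_nb (hNBF : SpecNBF) (h : R1 G u w) (k : Fin 4) :
    ∃ a ∈ CC G u w, (MM G u w).Adj (w k) a := by
  obtain ⟨a, ha, hka⟩ := nbC hNBF h (Subset.refl _) (nonempty h) (fun _ _ b hb _ => hb) k
  exact ⟨a, ha, (MM_adj_of hka.symm (mem_CC.1 ha).2.2 (mem_CC.1 ha).2.1 (w_ne h k)).symm⟩

theorem conn (hNBF : SpecNBF) (h : R1 G u w) {S : Finset α} (hS : S ⊆ WW w) (hne : S ≠ WW w) :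
    ConnOff (MM G u w) S := by
  obtain ⟨j, hj⟩ : ∃ j, w j ∉ S := by
    by_contra hc
    push Not at hc
    apply hne
    refine Subset.antisymm hS fun v hv => ?_
    obtain ⟨i, rfl⟩ := mem_WW.1 hv
    exact hc i
  have key : ∀ a ∈ VS (MM G u w), a ∉ S → (del (MM G u w) S).Reachable a (w j) := by
    intro a ha haS
    have h1 := mem_erase.1 (VS_MM_sub ha)
    by_cases hW : a ∈ WW w
    · obtain ⟨k, rfl⟩ := mem_WW.1 hW
      obtain ⟨b, hb, hkb⟩ := exists_nb hNBF h k
      have hadj : (del (MM G u w) S).Adj (w k) b :=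
        ⟨hkb, haS, fun hbS => (mem_CC.1 hb).2.2 (hS hbS)⟩
      exact hadj.reachable.trans (reach_w hNBF h hS hj hb)
    · exact reach_w hNBF h hS hj (mem_CC.2 ⟨h1.2, h1.1, hW⟩)
  intro a ha b hb haS hbS
  exact (key a ha haS).trans (key b hb hbS).symm

theorem vs (hNBF : SpecNBF) (h : R1 G u w) : VS (MM G u w) = (VS G).erase u := by
  apply Subset.antisymm VS_MM_sub
  intro v hv
  rw [mem_erase] at hv
  by_cases hW : v ∈ WW w
  · obtain ⟨k, rfl⟩ := mem_WW.1 hW
    obtain ⟨b, _, hkb⟩ := exists_nb hNBF h k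
    exact left_mem_VS hkb
  · obtain ⟨x, hx⟩ := mem_VS.1 hv.2
    exact left_mem_VS (MM_adj_of hx hW hv.1 (adj_CC_ne h (mem_CC.2 ⟨hv.2, hv.1, hW⟩) hx))

theorem mem {X : Chain α} :
    X ∈ Z1 (MM G u w) ↔ X ∈ Z1 (del G {u}) ∧ ∀ i j, X s(w i, w j) = 0 := by
  constructor
  · intro h
    refine ⟨Z1_mono MM_le h, fun i j => ?_⟩
    by_contra hc
    have h1 : (MM G u w).Adj (w i) (w j) := (mem_Z1.1 h).1 _ hc
    exact (MM_adj.1 h1).2.2.2 ⟨i, j, rfl⟩
  · rintro ⟨h1, h2⟩
    refine mem_Z1.2 ⟨fun e he => ?_, (mem_Z1.1 h1).2⟩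
    have h3 := (mem_Z1.1 h1).1 e he
    induction e using Sym2.ind with
    | _ a b =>
      have h4 : (del G {u}).Adj a b := h3
      rw [del_adj, mem_singleton, mem_singleton] at h4
      refine MM_adj.2 ⟨h4.1, h4.2.1, h4.2.2, ?_⟩
      rintro ⟨i, j, e⟩
      rw [e] at he
      exact he (h2 i j)

theorem dual (hNBF : SpecNBF) (h : R1 G u w) (i j : Fin 4) (hij : G.Adj (w i) (w j)) :
    ∃ Z ∈ Z1 (del G {u}), Z s(w i, w j) = 1 ∧
      ∀ k l, s(w k, w l) ≠ s(w i, w j) → Z s(w k, w l) = 0 := by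
  have hc := conn hNBF h (S := ∅) (empty_subset _) (fun e => by
    have := card_WW h
    rw [← e] at this
    simp at this)
  have hV : ∀ k, w k ∈ VS (MM G u w) := fun k => by
    rw [vs hNBF h, mem_erase]
    exact ⟨w_ne h k, WW_sub h (w_mem k)⟩
  have hr := hc (w i) (hV i) (w j) (hV j) (notMem_empty _) (notMem_empty _)
  obtain ⟨P, hP⟩ := exists_isPth hr
  have hP' : IsPth (MM G u w) (w i) (w j) P := hP.mono (del_le _ _)
  have hno : ∀ k l, s(w k, w l) ∉ P := by
    intro k l hkl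
    exact (MM_adj.1 (hP'.adj_of_mem hkl)).2.2.2 ⟨k, l, rfl⟩
  have hadj : (del G {u}).Adj (w i) (w j) := by
    rw [del_adj, mem_singleton, mem_singleton]
    exact ⟨hij, w_ne h i, w_ne h j⟩
  have hC := (hP'.mono MM_le).isCyc hadj (hno i j)
  refine ⟨_, hC.chi_mem, chi_of_mem (mem_insert_self _ _), fun k l hkl => chi_of_notMem ?_⟩
  rw [mem_insert, not_or]
  exact ⟨hkl, hno k l⟩

end CWCM

theorem specCWC (hNBF : SpecNBF) : SpecCWC where
  nbC := fun h _ hA hne hcl i => CWCM.nbC hNBF h hA hne hcl i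
  conn := fun h _ hS hne => CWCM.conn hNBF h hS hne
  vs := fun h => CWCM.vs hNBF h
  card := fun h => CWCM.card' h
  dual := fun h i j hij => CWCM.dual hNBF h i j hij
  mem := CWCM.mem

end DL
end

section
/-!
# Module CCC: the graph `G[C]`
-/
open SimpleGraph Finset

namespace DL

open CWCM in
theorem specCCC (hCWC : SpecCWC) : SpecCCC where
  conn := by
    classical
    intro α _ _ G u w i j c d h ht
    have key : ∀ a ∈ VS G, a ∉ insert u (WW w) → (del G (insert u (WW w))).Reachable a c := by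
      intro a ha hau
      have haC : a ∈ CC G u w := mem_sdiff.2 ⟨ha, hau⟩
      have hout : ∀ v ∈ CC G u w, v ∉ insert u (WW w) := fun v hv => (mem_sdiff.1 hv).2
      obtain ⟨b, hb, hib⟩ := hCWC.nbC h
        ((CC G u w).filter fun v => (del G (insert u (WW w))).Reachable a v)
        (filter_subset _ _) ⟨a, mem_filter.2 ⟨haC, Reachable.refl _⟩⟩ (by
          intro x hx y hy hxy
          rw [mem_filter] at hx ⊢
          exact ⟨hy, hx.2.trans (Adj.reachable ⟨hxy, hout x hx.1, hout y hy⟩)⟩) i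
      rw [mem_filter] at hb
      rcases (ht.nb b).1 hib with rfl | rfl | rfl | rfl
      · exact absurd rfl (mem_CC.1 hb.1).2.1
      · exact absurd (w_mem j) (mem_CC.1 hb.1).2.2
      · exact hb.2
      · refine hb.2.trans (Adj.reachable ⟨ht.cd.symm, hout _ ht.dC, hout _ ht.cC⟩)
    intro a ha b hb hau hbu
    exact (key a ha hau).trans (key b hb hbu).symm
  sub := by
    intro α _ _ G u w Z hZ
    have hle : del G (insert u (WW w)) ≤ MM G u w := by
      intro a b hab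
      rw [del_adj, mem_insert, mem_insert, not_or, not_or] at hab
      exact MM_adj_of hab.1 hab.2.1.2 hab.2.1.1 hab.2.2.1
    refine ⟨Z1_mono hle hZ, ?_⟩
    intro k e hk
    by_contra hc
    obtain ⟨v, rfl⟩ := Sym2.mem_iff_exists.1 hk
    have h1 : (del G (insert u (WW w))).Adj (w k) v := (mem_Z1.1 hZ).1 _ hc
    exact h1.2.1 (mem_insert_of_mem (w_mem k))

end DL
end

section
/-!
# Module CJ1: `J = G - u` and `J + w_i w_j` are in `C1`
-/
open SimpleGraph Finset

namespace DL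

namespace CJ1M

variable {α : Type} [Fintype α] [DecidableEq α]

/-- adding an edge between two vertices -/
theorem VS_sup {J : SimpleGraph α} {a b : α} (ha : a ∈ VS J) (hb : b ∈ VS J) :
    VS (J ⊔ fromEdgeSet {s(a, b)}) = VS J := by
  apply Subset.antisymm _ (VS_mono le_sup_left)
  intro v hv
  obtain ⟨x, hx⟩ := mem_VS.1 hv
  rw [sup_adj, fromEdgeSet_adj] at hx
  rcases hx with hx | ⟨hx, _⟩
  · exact left_mem_VS hx
  · rw [Set.mem_singleton_iff, Sym2.eq_iff] at hx
    rcases hx with ⟨rfl, _⟩ | ⟨rfl, _⟩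
    · exact ha
    · exact hb

theorem C1_sup {J J' : SimpleGraph α} (h : J ≤ J') (hV : VS J' = VS J) (hC : C1 J) : C1 J' := by
  refine ⟨⟨by rw [hV]; exact hC.1.1, ?_⟩, ?_⟩
  · intro S hS a ha b hb haS hbS
    rw [hV] at ha hb
    exact (hC.1.2 S hS a ha b hb haS hbS).mono (del_mono_graph h S)
  · intro S P Q hs hS
    exact hC.2 S P Q ⟨by rw [hs.1, hV], hs.2.1, hs.2.2.1, hs.2.2.2.1,
      fun a ha b hb hab => hs.2.2.2.2 a ha b hb (h hab)⟩ hS

end CJ1M

open CWCM CJ1M in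
theorem specCJ1 (hNPC : SpecNPC) : SpecCJ1 := by
  intro α _ _ G u w h
  have hK : KConn 3 (del G {u}) := h.k48.1.del_vertex (by omega) u
  have hV : VS (del G {u}) = (VS G).erase u := by
    rw [h.k48.1.VS_del (S := {u}) (by rw [card_singleton]; omega), sdiff_singleton_eq_erase]
  have hC : C1 (del G {u}) := by
    refine ⟨hK, ?_⟩
    intro S P Q hs hS
    have huV : u ∉ VS (del G {u}) := by rw [hV]; exact notMem_erase _ _
    have huS : u ∉ S := fun e => huV (hs.subS e)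
    have huP : u ∉ P := fun e => huV (hs.subP e)
    have huQ : u ∉ Q := fun e => huV (hs.subQ e)
    refine h.rig (insert u S) P Q ⟨?_, ?_, ?_, hs.2.2.2.1, ?_⟩ ?_ (mem_insert_self _ _)
    · rw [insert_union, insert_union, hs.1, hV, insert_erase (u_mem h)]
    · rw [disjoint_insert_left]; exact ⟨huP, hs.2.1⟩
    · rw [disjoint_insert_left]; exact ⟨huQ, hs.2.2.1⟩
    · intro a ha b hb hab
      refine hs.2.2.2.2 a ha b hb ⟨hab, ?_, ?_⟩
      · rw [mem_singleton]; exact fun e => huP (e ▸ ha)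
      · rw [mem_singleton]; exact fun e => huQ (e ▸ hb)
    · rw [card_insert_of_notMem huS, hS]
  have hw : ∀ i, w i ∈ VS (del G {u}) := fun i => by
    rw [hV, mem_erase]
    exact ⟨w_ne h i, WW_sub h (w_mem i)⟩
  refine ⟨hK, hC, hV, hw, ?_⟩
  intro i j _ _
  have hV' := VS_sup (hw i) (hw j)
  exact ⟨C1_sup le_sup_left hV' hC, hNPC.mono le_sup_left h.np, by rw [hV', hV]⟩

end DL
end

section
/-!
# CL4: claim A for two indices with different bridges (helper68)
-/
open SimpleGraph Finset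

namespace DL

namespace CL4M

open CL5M

variable {α : Type} [Fintype α] [DecidableEq α] {G : SimpleGraph α} {u : α} {w : Fin 4 → α}

/-- on `Z1 M` the two edges of a type A vertex have the same value -/
theorem TA_eq {i j : Fin 4} {c d : α} (hT : TA G u w i j c d) {X : Chain α}
    (hX : X ∈ Z1 (MM G u w)) : X s(w i, c) = X s(w i, d) := by
  have hcd : c ≠ d := hT.cd.ne
  have h1 : ∑ e, cob (fun v => if v = w i then (1 : ZMod 2) else 0) e * X e = 0 := cob_orth hX _
  have h2 : ∀ e, e ≠ s(w i, c) → e ≠ s(w i, d) →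
      cob (fun v => if v = w i then (1 : ZMod 2) else 0) e * X e = 0 := by
    intro e he1 he2
    by_contra h0
    have hX0 : X e ≠ 0 := fun h => h0 (by rw [h, mul_zero])
    have hc0 : cob (fun v => if v = w i then (1 : ZMod 2) else 0) e ≠ 0 :=
      fun h => h0 (by rw [h, zero_mul])
    have hw : w i ∈ e := by
      by_contra hw
      apply hc0
      induction e using Sym2.ind with
      | _ a b =>
        rw [Sym2.mem_iff, not_or] at hw
        rw [cob_mk, if_neg (Ne.symm hw.1), if_neg (Ne.symm hw.2), add_zero]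
    obtain ⟨x, rfl⟩ := Sym2.mem_iff_exists.1 hw
    have hadj : (MM G u w).Adj (w i) x := (mem_Z1.1 hX).1 _ hX0
    rw [CBSM.MM_adj] at hadj
    rcases (hT.nb x).1 hadj.1 with h | h | h | h
    · exact hadj.2.2.1 h
    · exact hadj.2.2.2 i j (by rw [h])
    · exact he1 (by rw [h])
    · exact he2 (by rw [h])
  have hne : s(w i, c) ≠ s(w i, d) := by
    intro h
    exact hcd (Sym2.congr_right.1 h)
  rw [← add_sum_erase univ _ (mem_univ s(w i, c)),
    ← add_sum_erase (univ.erase s(w i, c)) _ (mem_erase.2 ⟨hne.symm, mem_univ s(w i, d)⟩),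
    sum_eq_zero (s := (univ.erase s(w i, c)).erase s(w i, d)) (fun e he => by
      rw [mem_erase, mem_erase] at he
      exact h2 e he.2.1 he.1)] at h1
  have hc : c ≠ w i := fun h => (CBSM.mem_CC.1 hT.cC).2.2 i h
  have hd : d ≠ w i := fun h => (CBSM.mem_CC.1 hT.dC).2.2 i h
  rw [cob_mk, cob_mk, if_pos rfl, if_neg hc, if_neg hd, add_zero, one_mul, one_mul, add_zero] at h1
  exact CharTwo.add_eq_zero.1 h1

/-- exchanging `c` and `d` does not change `θ` on `Z1 M` -/
theorem tht_swap {i j : Fin 4} {c d : α} (hT : TA G u w i j c d) {X : Chain α}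
    (hX : X ∈ Z1 (MM G u w)) : pr (tht w i d c) X = pr (tht w i c d) X := by
  rw [pr_tht, pr_tht, TA_eq hT hX, Sym2.eq_swap (a := d) (b := c)]

/-- parity of the edges leaving a side -/
theorem parity {c d : α} {P Q : Finset α} (h : Sd G u w c d P Q) {X : Chain α}
    (hX : X ∈ Z1 (MM G u w)) {a : Fin 4} {x y : α}
    (h1 : ∀ e, X e ≠ 0 → ∀ v ∈ e, v = w a ∨ v ∈ CC G u w)
    (h2 : ∀ v, X s(w a, v) ≠ 0 → v = x ∨ v = y) (hx : x ∉ Q) :
    X s(c, d) = if y ∈ Q then X s(w a, y) else 0 := by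
  have hw : ∀ v ∈ CC G u w, v ≠ w a := fun v hv => (CBSM.mem_CC.1 hv).2.2 a
  have g1 : ∑ e, cob (fun v => if v ∈ Q then (1 : ZMod 2) else 0) e * X e = 0 := cob_orth hX _
  have hcQ : c ∉ Q := h.notMem h.mc
  have hwQ : w a ∉ Q := fun hh => hw _ (h.subQ hh) rfl
  have g2 : ∀ e, e ≠ s(c, d) → e ≠ s(w a, y) →
      cob (fun v => if v ∈ Q then (1 : ZMod 2) else 0) e * X e = 0 := by
    intro e he1 he2
    by_contra h0
    have hX0 : X e ≠ 0 := fun h => h0 (by rw [h, mul_zero])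
    have hc0 : cob (fun v => if v ∈ Q then (1 : ZMod 2) else 0) e ≠ 0 :=
      fun h => h0 (by rw [h, zero_mul])
    have hkey : ∀ p q, e = s(p, q) → p ∈ Q → q ∉ Q → False := by
      rintro p q rfl hp hq
      have hadj : (MM G u w).Adj p q := (mem_Z1.1 hX).1 _ hX0
      rw [CBSM.MM_adj] at hadj
      rcases h1 _ hX0 q (Sym2.mem_mk_right _ _) with hq1 | hq1
      · rw [hq1] at hX0
        rw [Sym2.eq_swap] at hX0
        rcases h2 p hX0 with rfl | rfl
        · exact hx hp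
        · exact he2 (by rw [hq1, Sym2.eq_swap])
      · obtain ⟨e1, e2⟩ := h.cr q (h.memP hq1 hq) p hp hadj.1.symm
        exact he1 (by rw [e1, e2, Sym2.eq_swap])
    induction e using Sym2.ind with
    | _ p q =>
      rw [cob_mk] at hc0
      by_cases hp : p ∈ Q
      · by_cases hq : q ∈ Q
        · rw [if_pos hp, if_pos hq] at hc0
          exact hc0 (by decide)
        · exact hkey p q rfl hp hq
      · by_cases hq : q ∈ Q
        · exact hkey q p Sym2.eq_swap hq hp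
        · rw [if_neg hp, if_neg hq] at hc0
          exact hc0 (by decide)
  have hne : s(w a, y) ≠ s(c, d) := by
    intro hh
    rcases Sym2.eq_iff.1 hh with ⟨e, _⟩ | ⟨e, _⟩
    · exact hw c (h.subP h.mc) e.symm
    · exact hw d (h.subQ h.md) e.symm
  rw [← add_sum_erase univ _ (mem_univ s(c, d)),
    ← add_sum_erase (univ.erase s(c, d)) _ (mem_erase.2 ⟨hne, mem_univ s(w a, y)⟩),
    sum_eq_zero (s := (univ.erase s(c, d)).erase s(w a, y)) (fun e he => by
      rw [mem_erase, mem_erase] at he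
      exact g2 e he.2.1 he.1), cob_mk, cob_mk, if_neg hcQ, if_pos h.md, if_neg hwQ, zero_add,
    zero_add, one_mul, add_zero] at g1
  rw [CharTwo.add_eq_zero.1 g1]
  split_ifs
  · rw [one_mul]
  · rw [zero_mul]

/-- the two other indices -/
theorem others2 : ∀ i m : Fin 4, i ≠ m → ∃ a b : Fin 4, a ≠ i ∧ a ≠ m ∧ b ≠ i ∧ b ≠ m ∧ a ≠ b ∧
    ∀ k, k = i ∨ k = m ∨ k = a ∨ k = b := by
  decide

/-- the main case: `c ∈ P`, `d, c' ∈` the middle, `d' ∈ R` -/
theorem main (hS : SpecCBS) (hB : SpecNBF) (hR : R1 G u w)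
    {i m j j' : Fin 4} (him : i ≠ m) {c d c' d' : α} (hT : TA G u w i j c d)
    (hT' : TA G u w m j' c' d')
    (hrel : ∀ X ∈ Z1 (MM G u w), ∀ Y ∈ Z1 (MM G u w),
      (∀ k, (∀ e, w k ∈ e → X e = 0) ∨ ∀ e, w k ∈ e → Y e = 0) →
      pr (tht w i c d) X * pr (tht w i c d) Y + pr (tht w m c' d') X * pr (tht w m c' d') Y = 0)
    {P Q' P' R : Finset α} (hP : Sd G u w c d P Q') (hR' : Sd G u w c' d' P' R)
    (hc'Q : c' ∈ Q') (hd'Q : d' ∈ Q') (hcP : c ∈ P') (hdP : d ∈ P') :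
    ∃ z e e', Bta G u w i j m j' z e e' := by
  obtain ⟨a, b, hai, ham, hbi, hbm, hab, hall⟩ := others2 i m him
  -- `P ⊆ P'`, `R ⊆ Q'`
  have hPP' : P ⊆ P' := hR'.incl hP.sP hP.subP hP.mc hcP fun h => hP.notMem h.1 hc'Q
  have hRQ' : R ⊆ Q' := hP.symm.incl hR'.sQ hR'.subQ hR'.md hd'Q fun h => hR'.notMem hcP h.2
  have hPR : ∀ {x}, x ∈ P → x ∉ R := fun hx => hR'.notMem (hPP' hx)
  -- neighbours of `w m` in `P`, of `w i` in `R`
  have hmP : ¬ ∃ x ∈ P, G.Adj (w m) x := by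
    rintro ⟨x, hx, hmx⟩
    rcases TA_nb hT' (hP.subP hx) hmx with rfl | rfl
    · exact hP.notMem hx hc'Q
    · exact hP.notMem hx hd'Q
  have hiR : ¬ ∃ x ∈ R, G.Adj (w i) x := by
    rintro ⟨x, hx, hix⟩
    rcases TA_nb hT (hR'.subQ hx) hix with rfl | rfl
    · exact hR'.notMem hcP hx
    · exact hR'.notMem hdP hx
  -- `w a`, `w b` have neighbours in `P` and in `R`
  have nP : ∀ k, k ≠ m → ∃ x ∈ P, G.Adj (w k) x := by
    intro k hk
    by_contra h
    exact CL2M.most hB hR hP.subP ⟨_, hP.mc⟩ (d := d)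
      (fun x hx y hy hyP hxy => (hP.cr x hx y (hP.memQ hy hyP) hxy).2) hk h hmP
  have nR : ∀ k, k ≠ i → ∃ x ∈ R, G.Adj (w k) x := by
    intro k hk
    by_contra h
    exact CL2M.most hB hR hR'.subQ ⟨_, hR'.md⟩ (d := c')
      (fun x hx y hy hyP hxy => (hR'.cr y (hR'.memP hy hyP) x hx hxy.symm).1) hk h hiR
  -- no neighbours in the middle
  have hmid : ∀ a b : Fin 4, a ≠ i → a ≠ m → b ≠ i → b ≠ m → a ≠ b →
      ∀ x ∈ Q', x ∉ R → ¬ G.Adj (w a) x := by
    intro a b hai ham hbi hbm hab y hy hyR hay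
    obtain ⟨x, hx, hax⟩ := nP a ham
    obtain ⟨x', hx', hbx⟩ := nP b hbm
    obtain ⟨y', hy', hby⟩ := nR b hbi
    obtain ⟨X, hX, X1, X2, X3, X4, -⟩ := hS.cyc hR P Q' c d x y a hP.subP hP.subQ hP.dis hP.sP hP.sQ
      hP.mc hP.md hx hy hT.cd hax hay
    obtain ⟨Y, hY, Y1, Y2, Y3, Y4, -⟩ := hS.cyc hR P Q' c d x' y' b hP.subP hP.subQ hP.dis hP.sP
      hP.sQ hP.mc hP.md hx' (hRQ' hy') hT.cd hbx hby
    have gen : ∀ {X : Chain α} {a : Fin 4},
        (∀ e, X e ≠ 0 → ∀ v ∈ e, v = w a ∨ v ∈ P ∨ v ∈ Q') → ∀ k, k ≠ a → ∀ e, w k ∈ e →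
        X e = 0 := by
      intro X a h k hk e he
      by_contra h0
      rcases h e h0 _ he with h1 | h1 | h1
      · exact hk (hR.inj h1)
      · exact (CBSM.mem_CC.1 (hP.subP h1)).2.2 k rfl
      · exact (CBSM.mem_CC.1 (hP.subQ h1)).2.2 k rfl
    have gen2 : ∀ {X : Chain α} {a : Fin 4},
        (∀ e, X e ≠ 0 → ∀ v ∈ e, v = w a ∨ v ∈ P ∨ v ∈ Q') →
        ∀ e, X e ≠ 0 → ∀ v ∈ e, v = w a ∨ v ∈ CC G u w := by
      intro X a h e he v hv
      rcases h e he v hv with h1 | h1 | h1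
      · exact Or.inl h1
      · exact Or.inr (hP.subP h1)
      · exact Or.inr (hP.subQ h1)
    have pX : X s(c', d') = 0 := by
      rw [parity hR' hX (gen2 X2) X3 (hPR hx), if_neg hyR]
    have h0 := hrel X hX Y hY (by
      intro k
      by_cases hk : k = a
      · exact Or.inr (gen Y2 k fun e => hab (hk.symm.trans e))
      · exact Or.inl (gen X2 k hk))
    rw [pr_tht, pr_tht, pr_tht, pX, X1, Y1, gen X2 i (Ne.symm hai) s(w i, c) (by simp),
      gen Y2 i (Ne.symm hbi) s(w i, c) (by simp), gen X2 m (Ne.symm ham) s(w m, c') (by simp)] at h0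
    simp at h0
  have hma := hmid a b hai ham hbi hbm hab
  have hmb := hmid b a hbi hbm hai ham (Ne.symm hab)
  -- the middle
  have hQ : ∀ x ∈ Q', x ∉ R → x = d ∨ x = c' := by
    by_contra hcon
    push Not at hcon
    obtain ⟨x₀, hx₀, hx₀R, hx₀d, hx₀c⟩ := hcon
    refine CL2M.nb3 hB hR (A := ((Q' \ R).erase d).erase c')
      (((erase_subset _ _).trans (erase_subset _ _)).trans (sdiff_subset.trans hP.subQ))
      ⟨x₀, by simp [hx₀, hx₀R, hx₀d, hx₀c]⟩ (T := {d, c'}) ?_ ((card_le_two).trans (by norm_num))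
    intro x hx y hy hxy
    rw [mem_erase, mem_erase, mem_sdiff] at hx
    obtain ⟨hxc', hxd, hxQ, hxR⟩ := hx
    rw [mem_insert, mem_singleton]
    by_contra hne
    rw [not_or] at hne
    rcases CL2M.nbr hR (hP.subQ hxQ) hxy with h | ⟨k, rfl⟩
    · have hyQ : y ∈ Q' := by
        by_contra hyQ
        exact hxd (hP.cr y (hP.memP h hyQ) x hxQ hxy.symm).2
      have hyR : y ∉ R := by
        intro hyR
        exact hxc' (hR'.cr x (hR'.memP (hP.subQ hxQ) hxR) y hyR hxy).1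
      exact hy (by simp [hyQ, hyR, hne.1, hne.2])
    · rcases hall k with rfl | rfl | rfl | rfl
      · rcases TA_nb hT (hP.subQ hxQ) hxy.symm with rfl | rfl
        · exact hP.notMem hP.mc hxQ
        · exact hxd rfl
      · rcases TA_nb hT' (hP.subQ hxQ) hxy.symm with rfl | rfl
        · exact hxc' rfl
        · exact hxR hR'.md
      · exact hma x hxQ hxR hxy.symm
      · exact hmb x hxQ hxR hxy.symm
  have hdR : d ∉ R := hR'.notMem hdP
  have hc'R : c' ∉ R := hR'.notMem hR'.mc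
  have hdC := hP.subQ hP.md
  have hV : ∀ {x}, x ∈ CC G u w → x ∈ VS G := fun h => (CBSM.mem_CC.1 h).1
  -- the neighbours of `d`
  have hNd : ∀ x, G.Adj d x → x = w i ∨ x = c ∨ x = c' ∨ (d = c' ∧ (x = w m ∨ x = d')) := by
    intro x hdx
    rcases CL2M.nbr hR hdC hdx with h | ⟨k, rfl⟩
    · by_cases hxQ : x ∈ Q'
      · by_cases hxR : x ∈ R
        · obtain ⟨e1, e2⟩ := hR'.cr d hdP x hxR hdx
          exact Or.inr (Or.inr (Or.inr ⟨e1, Or.inr e2⟩))
        · rcases hQ x hxQ hxR with rfl | rfl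
          · exact absurd hdx (SimpleGraph.irrefl _)
          · exact Or.inr (Or.inr (Or.inl rfl))
      · exact Or.inr (Or.inl (hP.cr x (hP.memP h hxQ) d hP.md hdx.symm).1)
    · rcases hall k with rfl | rfl | rfl | rfl
      · exact Or.inl rfl
      · rcases TA_nb hT' hdC hdx.symm with h | h
        · exact Or.inr (Or.inr (Or.inr ⟨h, Or.inl rfl⟩))
        · exact absurd (h ▸ hR'.md) hdR
      · exact absurd hdx.symm (hma d hP.md hdR)
      · exact absurd hdx.symm (hmb d hP.md hdR)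
  -- degree at least 4
  have hdeg : ∀ {x : α} {T : Finset α}, x ∈ CC G u w → (∀ y, G.Adj x y → y ∈ T) → T.card ≤ 3 →
      False := by
    intro x T hx hT h3
    refine CL2M.nb3 hB hR (A := {x}) (singleton_subset_iff.2 hx) (singleton_nonempty x) (T := T) ?_ h3
    intro a ha y _ hay
    rw [mem_singleton] at ha
    exact hT y (ha ▸ hay)
  have hdc : d = c' := by
    by_contra hne
    refine hdeg hdC (T := {w i, c, c'}) ?_ card_le_three
    intro y hy
    simp only [mem_insert, mem_singleton]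
    rcases hNd y hy with h | h | h | h
    · exact Or.inl h
    · exact Or.inr (Or.inl h)
    · exact Or.inr (Or.inr h)
    · exact absurd h.1 hne
  subst hdc
  have hNz : ∀ x, G.Adj d x ↔ x = w i ∨ x = w m ∨ x = c ∨ x = d' := by
    intro x
    constructor
    · intro h
      rcases hNd x h with h1 | h1 | h1 | h1
      · exact Or.inl h1
      · exact Or.inr (Or.inr (Or.inl h1))
      · rw [h1] at h
        exact absurd h (SimpleGraph.irrefl _)
      · rcases h1.2 with h1 | h1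
        · exact Or.inr (Or.inl h1)
        · exact Or.inr (Or.inr (Or.inr h1))
    · rintro (rfl | rfl | rfl | rfl)
      · exact ((hT.nb d).2 (Or.inr (Or.inr (Or.inr rfl)))).symm
      · exact ((hT'.nb d).2 (Or.inr (Or.inr (Or.inl rfl)))).symm
      · exact hT.cd.symm
      · exact hT'.cd
  have hcd' : c ≠ d' := fun h => hPR hP.mc (h ▸ hR'.md)
  have huV : u ∈ VS G := left_mem_VS ((hR.nu (w 0)).2 ⟨0, rfl⟩)
  have hnu : ∀ k, G.Adj u (w k) := fun k => (hR.nu (w k)).2 ⟨k, rfl⟩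
  -- `w i`, `w m` not adjacent
  have hnadj : ¬ G.Adj (w i) (w m) := by
    intro hadj
    have hjm : j = m := by
      rcases (hT.nb (w m)).1 hadj with h | h | h | h
      · exact absurd h (hnu m).ne.symm
      · exact (hR.inj h).symm
      · exact absurd h.symm ((CBSM.mem_CC.1 hT.cC).2.2 m)
      · exact absurd h.symm ((CBSM.mem_CC.1 hT.dC).2.2 m)
    subst hjm
    have hdC' := CBSM.mem_CC.1 hdC
    have hNB : NB G {d, w i} = {u, w j, c, d'} := by
      ext x
      rw [CL2M.mem_NB]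
      simp only [mem_insert, mem_singleton]
      constructor
      · rintro ⟨h1, a, ha, hax⟩
        rw [not_or] at h1
        rcases ha with rfl | rfl
        · rcases (hNz x).1 hax with h | h | h | h
          · exact absurd h h1.2
          · exact Or.inr (Or.inl h)
          · exact Or.inr (Or.inr (Or.inl h))
          · exact Or.inr (Or.inr (Or.inr h))
        · rcases (hT.nb x).1 hax with h | h | h | h
          · exact Or.inl h
          · exact Or.inr (Or.inl h)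
          · exact Or.inr (Or.inr (Or.inl h))
          · exact absurd h h1.1
      · rintro (rfl | rfl | rfl | rfl)
        · refine ⟨?_, w i, Or.inr rfl, (hnu i).symm⟩
          rw [not_or]
          exact ⟨Ne.symm hdC'.2.1, (hnu i).ne⟩
        · refine ⟨?_, w i, Or.inr rfl, hadj⟩
          rw [not_or]
          exact ⟨Ne.symm (hdC'.2.2 j), hadj.ne.symm⟩
        · refine ⟨?_, d, Or.inl rfl, hT.cd.symm⟩
          rw [not_or]
          exact ⟨hT.cd.ne, (CBSM.mem_CC.1 hT.cC).2.2 i⟩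
        · refine ⟨?_, d, Or.inl rfl, hT'.cd⟩
          rw [not_or]
          exact ⟨hT'.cd.ne.symm, (CBSM.mem_CC.1 hT'.dC).2.2 i⟩
    have hcC' := CBSM.mem_CC.1 hT.cC
    have hd'C' := CBSM.mem_CC.1 hT'.dC
    have hcard : (NB G {d, w i}).card = 4 := by
      rw [hNB, card_insert_of_notMem, card_insert_of_notMem, card_insert_of_notMem, card_singleton]
      · simpa using hcd'
      · simp only [mem_insert, mem_singleton, not_or]
        exact ⟨Ne.symm (hcC'.2.2 j), Ne.symm (hd'C'.2.2 j)⟩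
      · simp only [mem_insert, mem_singleton, not_or]
        exact ⟨(hnu j).ne, Ne.symm hcC'.2.1, Ne.symm hd'C'.2.1⟩
    have hsub : ({d, w i} : Finset α) ⊆ VS G := by
      intro x hx
      rw [mem_insert, mem_singleton] at hx
      rcases hx with rfl | rfl
      · exact hdC'.1
      · exact right_mem_VS (hnu i)
    have h2 : ({d, w i} : Finset α).card = 2 := card_pair (hdC'.2.2 i)
    have huNB : u ∈ NB G {d, w i} := by
      rw [hNB]
      simp
    have hrig := hB.rig hR.rig hsub huNB hcard h2.ge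
    have h8 := hR.k48.2
    have hle : (VS G).card ≤ (VS G \ ({d, w i} ∪ NB G {d, w i})).card +
        ({d, w i} ∪ NB G {d, w i}).card := by
      have := card_le_card_sdiff_add_card (s := VS G) (t := {d, w i} ∪ NB G {d, w i})
      exact this
    have h6 := card_union_le {d, w i} (NB G {d, w i})
    omega
  refine ⟨d, c, d', him, ?_, ?_, hcd', TA_swap hT, hT', hNz⟩
  · rintro rfl
    exact hnadj ((hT.nb _).2 (Or.inr (Or.inl rfl)))
  · rintro rfl
    exact hnadj ((hT'.nb _).2 (Or.inr (Or.inl rfl))).symm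

end CL4M

open CL5M CL4M in
theorem specCL4 (hCCC : SpecCCC) (hCBS : SpecCBS) (hNBF : SpecNBF) :
    SpecCL4 := by
  intro α _ _ G u w hR i m j j' c d him hT hT' hne hZ hrel
  -- the relation for the four ways of writing the bridges
  have rel : ∀ X ∈ Z1 (MM G u w), ∀ Y ∈ Z1 (MM G u w),
      (∀ k, (∀ e, w k ∈ e → X e = 0) ∨ ∀ e, w k ∈ e → Y e = 0) →
      pr (tht w i (c i) (d i)) X * pr (tht w i (c i) (d i)) Y +
        pr (tht w m (c m) (d m)) X * pr (tht w m (c m) (d m)) Y = 0 := by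
    intro X hX Y hY hk
    have := hrel.eval hX hY hk
    rw [sum_pair him] at this
    exact this
  obtain ⟨P, Q, hP⟩ := exists_sd hCCC hCBS hR hT fun Z hZ' => (hZ Z hZ').1
  obtain ⟨P', Q', hP'⟩ := exists_sd hCCC hCBS hR hT' fun Z hZ' => (hZ Z hZ').2
  -- second step
  have step2 : ∀ {c₁ d₁ : α} {P Q : Finset α}, TA G u w i j c₁ d₁ → s(c₁, d₁) = s(c i, d i) →
      (∀ X ∈ Z1 (MM G u w), pr (tht w i c₁ d₁) X = pr (tht w i (c i) (d i)) X) →
      Sd G u w c₁ d₁ P Q → c m ∈ Q → d m ∈ Q → ∃ z e e', Bta G u w i j m j' z e e' := by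
    intro c₁ d₁ P Q hT₁ he hth hP hcm hdm
    have hne1 : s(c₁, d₁) ≠ s(c m, d m) := by
      rw [he]
      exact Ne.symm hne
    rcases hP'.inside hT₁.cC hT₁.dC hT₁.cd hne1 with ⟨h1, h2⟩ | ⟨h1, h2⟩
    · refine main hCBS hNBF hR him hT₁ hT' ?_ hP hP' hcm hdm h1 h2
      intro X hX Y hY hk
      rw [hth X hX, hth Y hY]
      exact rel X hX Y hY hk
    · refine main hCBS hNBF hR him hT₁ (TA_swap hT') ?_ hP hP'.symm hdm hcm h1 h2
      intro X hX Y hY hk
      rw [hth X hX, hth Y hY, tht_swap hT' hX, tht_swap hT' hY]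
      exact rel X hX Y hY hk
  rcases hP.inside hT'.cC hT'.dC hT'.cd hne with ⟨h1, h2⟩ | ⟨h1, h2⟩
  · exact step2 (TA_swap hT) Sym2.eq_swap (fun X hX => tht_swap hT hX) hP.symm h1 h2
  · exact step2 hT rfl (fun _ _ => rfl) hP h1 h2

end DL
end
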