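import Pool.Agent.DL.R1A.Spec
import Pool.Agent.DL.R1A.M33
import Pool.Agent.DL.R1A.CL4

section
/-!
# Module KRN (R1A block): the kernel `K_st`, `s`, `t` not adjacent

`KRNM.core` is the common part of KRN and KRA.
-/
open SimpleGraph Finset

namespace DL

set_option linter.unusedSectionVars false

namespace KRNM

variable {α : Type} [Fintype α] [DecidableEq α]

theorem two_eq : (2 : ZMod 2) = 0 := rfl

/-- the off-diagonal part of a form -/
def off (b : Sym2 α → Sym2 α → ZMod 2) (X Y : Chain α) : ZMod 2 :=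
  ∑ e, ∑ f, if e = f then 0 else b e f * (X e * Y f)

theorem frm_split (b : Sym2 α → Sym2 α → ZMod 2) (X Y : Chain α) :
    frm b X Y = off b X Y + ∑ e, b e e * (X e * Y e) := by
  rw [frm, off, ← sum_add_distrib]
  refine sum_congr rfl fun e _ => ?_
  have h1 : b e e * (X e * Y e) = ∑ f, if e = f then b e f * (X e * Y f) else 0 := by
    rw [sum_ite_eq]
    simp
  rw [h1, ← sum_add_distrib]
  refine sum_congr rfl fun f _ => ?_
  by_cases h : e = f <;> simp [h]

theorem off_add (b : Sym2 α → Sym2 α → ZMod 2) (X Y Z : Chain α) :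
    off b X (Y + Z) = off b X Y + off b X Z := by
  simp only [off, ← sum_add_distrib]
  refine sum_congr rfl fun e _ => sum_congr rfl fun f _ => ?_
  by_cases h : e = f
  · simp [h]
  · simp only [if_neg h, Pi.add_apply]
    ring

/-- second differences of a quadratic function do not depend on the base point -/
theorem sd {q : Chain α → ZMod 2} {B : Chain α → Chain α → ZMod 2}
    (hB : ∀ c X Y, B c (X + Y) = B c X + B c Y) (hq : ∀ X Y, q X + q Y + q (X + Y) = B X Y)
    (c X Y : Chain α) : q c + q (c + X) + q (c + Y) + q (c + (X + Y)) = B X Y := by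
  have h1 := hq c X
  have h2 := hq c Y
  have h3 := hq c (X + Y)
  have h4 := hq X Y
  have h5 := hB c X Y
  linear_combination h1 + h2 + h3 - h4 - h5 + (B c (X + Y) - q c - B X Y) * two_eq

/-- the diagonal form `Σ_{e ∈ A} b e e x_e y_e` -/
def dgm (b : Sym2 α → Sym2 α → ZMod 2) (A : Sym2 α → Prop) [DecidablePred A] :
    Sym2 α → Sym2 α → ZMod 2 := fun e f => if e = f ∧ A e then b e e else 0

theorem frm_dgm (b : Sym2 α → Sym2 α → ZMod 2) (A : Sym2 α → Prop) [DecidablePred A]
    (X Y : Chain α) : frm (dgm b A) X Y = ∑ e, if A e then b e e * (X e * Y e) else 0 := by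
  unfold frm
  refine sum_congr rfl fun e _ => ?_
  rw [sum_eq_single e]
  · by_cases h : A e <;> simp [dgm, h]
  · intro f _ hf
    rw [dgm, if_neg fun h => hf h.1.symm, zero_mul]
  · intro h
    exact absurd (mem_univ _) h

theorem at_dgm (b : Sym2 α → Sym2 α → ZMod 2) (A : Sym2 α → Prop) [DecidablePred A] {v : α}
    (hA : ∀ e, A e → v ∈ e) : At v (dgm b A) := by
  refine ⟨fun e f => ?_, fun e f hne => ?_⟩
  · by_cases h : e = f
    · rw [h]
    · rw [dgm, dgm, if_neg fun h' => h h'.1, if_neg fun h' => h h'.1.symm]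
  · have h : e = f ∧ A e := by
      by_contra h
      exact hne (if_neg h)
    exact ⟨hA e h.2, h.1 ▸ hA e h.2⟩

/-- **the common part of KRN and KRA** -/
theorem core (hRPQ : SpecRPQ) (hRT1 : SpecRT1) (hINQ : SpecINQ) (hBDF : SpecBDF) (hPOL : SpecPOL)
    {N : SimpleGraph α} {s t : α} (hst : N.Adj s t) (hN : KConn 3 N)
    {b : Sym2 α → Sym2 α → ZMod 2} (hb : InK (delE N s t) s t b)
    (hd : ∀ e ∈ (delE N s t).edgeSet, s ∉ e → t ∉ e → b e e = 0) :
    ∃ g g' : Sym2 α → Sym2 α → ZMod 2, At s g ∧ At t g' ∧ FE (delE N s t) b (g + g') := by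
  obtain ⟨q, hq2, hq0, hqp⟩ := hRPQ.real b hb.1
  have hqp' : ∀ X Y : Chain α, q X + q Y + q (X + Y) = off b X Y := hqp
  -- chain sums
  have hch : ∀ K : Ch2 (delE N s t) s t, ∑ e : Fin 2 → Bool, (fun P => q (chi P)) (K.pth e) = 0 := by
    intro K
    have h1 := hRPQ.pol K q hq2 0
    simp only [zero_add] at h1
    show ∑ e : Fin 2 → Bool, q (chi (K.pth e)) = 0
    rw [h1, hq0, zero_add, hqp']
    have h2 := frm_split b K.bd0 K.bd1
    rw [hb.2 K] at h2
    have h3 : ∑ e, b e e * (K.bd0 e * K.bd1 e) = 0 := by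
      refine sum_eq_zero fun e _ => ?_
      by_cases h4 : K.bd0 e = 0
      · rw [h4, zero_mul, mul_zero]
      by_cases h5 : K.bd1 e = 0
      · rw [h5, mul_zero, mul_zero]
      have h6 : e ∈ (delE N s t).edgeSet := (hBDF.z0 K).1.1 e h4
      have h7 : s ∉ e := by
        intro h
        rcases hBDF.s1 K e h5 s h with h | h
        · exact Finset.disjoint_left.1 (K.disj 0 1 (by decide)) K.sX h
        · exact Finset.disjoint_left.1 (K.disj 0 2 (by decide)) K.sX h
      have h8 : t ∉ e := by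
        intro h
        rcases hBDF.s0 K e h4 t h with h | h
        · exact Finset.disjoint_left.1 (K.disj 2 0 (by decide)) K.tX h
        · exact Finset.disjoint_left.1 (K.disj 2 1 (by decide)) K.tX h
      rw [hd e h6 h7 h8, zero_mul]
    rw [h3, add_zero] at h2
    exact h2.symm
  obtain ⟨w0, w, hw⟩ := hRT1 (delE N s t) s t hst.ne (fun P => q (chi P)) hch
  -- the function which vanishes on the paths
  have hq'2 : DegLE 2 (fun c : Chain α => q c + (w0 + pr w c)) := by
    have h3 : DegLE 1 (fun c : Chain α => pr w c) := hPOL.ofAdd fun a b => pr_add' w a b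
    exact hPOL.add hq2 (hPOL.add (hPOL.const (A := Chain α) 2 w0) (hPOL.mono (by norm_num) h3))
  have hq'0 : ∀ P, IsPth (delE N s t) s t P → (fun c : Chain α => q c + (w0 + pr w c)) (chi P) = 0 := by
    intro P hP
    have h1 : q (chi P) = w0 + ∑ h ∈ P, w h := hw P hP
    have h2 : pr w (chi P) = ∑ h ∈ P, w h := sum_mul_chi w P
    show q (chi P) + (w0 + pr w (chi P)) = 0
    rw [h1, h2, zmod2_add_self]
  obtain ⟨ρ, ρ', hρ, hρ', hrel⟩ := hINQ hst hN _ hq'2 hq'0
  obtain ⟨g, hg, hg0, hgp⟩ := hRPQ.pr (delE N s t) s ρ hρ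
  obtain ⟨g', hg', hg0', hgp'⟩ := hRPQ.pr (delE N s t) t ρ' hρ'
  -- a path
  have hVS : VS (delE N s t) = VS N := VS_delE fun v hv => le_trans (by norm_num) (hN.le_nbs hv)
  have hcon : (delE N s t).Reachable s t :=
    (hN.delE (k := 2) (by norm_num) s t).connected (by norm_num)
      (by rw [hVS]; exact left_mem_VS hst) (by rw [hVS]; exact right_mem_VS hst)
  obtain ⟨P, hP⟩ := exists_isPth hcon
  have hne := hst.ne
  have hc0 : ∀ v, bdy (chi P) v = if v = s ∨ v = t then 1 else 0 := by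
    intro v
    rw [hP.bdy_chi]
    by_cases h1 : v = s
    · have h2 : v ≠ t := fun h => hne (h1.symm.trans h)
      simp [h1, hne]
    · by_cases h2 : v = t
      · subst h2
        simp [h1]
      · simp [h1, h2]
  have hval : ∀ X ∈ Z1 (delE N s t), q (chi P + X) + (w0 + pr w (chi P + X)) =
      ρ (chi P + X) + ρ' (chi P + X) := by
    intro X hX
    refine hrel (chi P + X) (fun e he => ?_) fun v => ?_
    · by_cases h1 : X e = 0
      · have h2 : chi P e ≠ 0 := fun h => he (by rw [Pi.add_apply, h, h1, add_zero])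
        exact hP.subset e (chi_ne_zero.1 h2)
      · exact hX.1 e h1
    · rw [bdy_add, hc0, hX.2, add_zero]
  have hoff : ∀ X ∈ Z1 (delE N s t), ∀ Y ∈ Z1 (delE N s t),
      off b X Y = frm g X Y + frm g' X Y := by
    intro X hX Y hY
    have e0 := hval 0 (Z1 (delE N s t)).zero_mem
    rw [add_zero] at e0
    have e1 := hval X hX
    have e2 := hval Y hY
    have e3 := hval (X + Y) ((Z1 (delE N s t)).add_mem hX hY)
    have s1 := sd (B := off b) (fun c X Y => off_add b c X Y) hqp' (chi P) X Y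
    have s2 := sd (B := frm g) (fun c X Y => frm_right g c X Y) hgp (chi P) X Y
    have s3 := sd (B := frm g') (fun c X Y => frm_right g' c X Y) hgp' (chi P) X Y
    rw [pr_add'] at e1 e2 e3
    rw [pr_add'] at e3
    linear_combination -s1 + s2 + s3 + e0 + e1 + e2 + e3 -
      (2 * w0 + 2 * pr w (chi P) + pr w X + pr w Y) * two_eq
  refine ⟨g + dgm b (fun e => s ∈ e), g' + dgm b (fun e => t ∈ e ∧ s ∉ e),
    at_add hg (at_dgm b _ fun e h => h), at_add hg' (at_dgm b _ fun e h => h.1), ?_⟩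
  intro X hX Y hY
  rw [frm_add, frm_add, frm_add, frm_dgm, frm_dgm, frm_split, hoff X hX Y hY]
  have hdg : ∑ e, b e e * (X e * Y e) = (∑ e, if s ∈ e then b e e * (X e * Y e) else 0) +
      ∑ e, if t ∈ e ∧ s ∉ e then b e e * (X e * Y e) else 0 := by
    rw [← sum_add_distrib]
    refine sum_congr rfl fun e _ => ?_
    by_cases h1 : s ∈ e
    · simp [h1]
    · by_cases h2 : t ∈ e
      · simp [h1, h2]
      · by_cases h3 : X e = 0
        · simp [h3]
        · rw [hd e (hX.1 e h3) h1 h2]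
          simp
  rw [hdg]
  ring

/-! ## Subtracting a coboundary from the diagonal -/

/-- the characteristic function of the edges at `v` -/
noncomputable def stv (v : α) : Chain α := by
  classical exact fun e => if v ∈ e ∧ ¬ e.IsDiag then 1 else 0

theorem pr_stv {J : SimpleGraph α} {X : Chain α} (hX : X ∈ Z1 J) (v : α) : pr (stv v) X = 0 := by
  classical
  rw [← hX.2 v, bdy_eq_sum_ite, pr]
  refine sum_congr rfl fun e _ => ?_
  unfold stv
  by_cases h1 : v ∈ e
  · by_cases h2 : e.IsDiag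
    · have h3 : X e = 0 := by
        by_contra h3
        exact J.not_isDiag_of_mem_edgeSet (hX.1 e h3) h2
      simp [h3]
    · simp [h1, h2]
  · simp [h1]

/-- `Σ_v σ v • sqm (1_{star v})` -/
noncomputable def cor (σ : α → ZMod 2) : Sym2 α → Sym2 α → ZMod 2 := ∑ v, σ v • sqm (stv v)

theorem sy_cor (σ : α → ZMod 2) : Sy (cor σ) := by
  intro e f
  unfold cor
  rw [Finset.sum_apply, Finset.sum_apply, Finset.sum_apply, Finset.sum_apply]
  exact sum_congr rfl fun v _ => sy_smul (σ v) (sy_sqm (stv v)) e f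

theorem frm_cor {J : SimpleGraph α} (σ : α → ZMod 2) {X : Chain α} (hX : X ∈ Z1 J) (Y : Chain α) :
    frm (cor σ) X Y = 0 := by
  unfold cor
  rw [frm_sum]
  refine sum_eq_zero fun v _ => ?_
  rw [frm_smul, frm_sqm, pr_stv hX, zero_mul, mul_zero]

theorem cor_diag (σ : α → ZMod 2) {c d : α} (hcd : c ≠ d) :
    cor σ s(c, d) s(c, d) = σ c + σ d := by
  classical
  unfold cor
  rw [Finset.sum_apply, Finset.sum_apply]
  have h : ∀ v, (σ v • sqm (stv v)) s(c, d) s(c, d) =
      (if v = c then σ v else 0) + if v = d then σ v else 0 := by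
    intro v
    rw [Pi.smul_apply, Pi.smul_apply, sqm, stv]
    have h1 : ¬ (s(c, d) : Sym2 α).IsDiag := by simpa using hcd
    simp only [h1, Sym2.mem_iff, not_false_eq_true, and_true, smul_eq_mul]
    by_cases h2 : v = c
    · have h3 : v ≠ d := fun h => hcd (h2.symm.trans h)
      simp [h2, hcd]
    · by_cases h3 : v = d
      · subst h3
        simp [h2]
      · simp [h2, h3]
  rw [sum_congr rfl fun v _ => h v, sum_add_distrib, sum_ite_eq', sum_ite_eq']
  simp

theorem inK_add_of_fe (hBDF : SpecBDF) {J : SimpleGraph α} {s t : α}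
    {b b' : Sym2 α → Sym2 α → ZMod 2} (hb : InK J s t b) (hs : Sy b') (h : FE J b b') :
    InK J s t b' :=
  ⟨hs, fun K => by rw [← h _ (hBDF.z0 K).1 _ (hBDF.z0 K).2]; exact hb.2 K⟩

end KRNM

open KRNM

theorem specKRN (hDGC : SpecDGC) (hINQ : SpecINQ) (hRPQ : SpecRPQ) (hRT1 : SpecRT1)
    (hS3F : SpecS3F) (hBDF : SpecBDF) (hPOL : SpecPOL) : SpecKRN := by
  intro α _ _ J s t hne hst hs ht hJ hKZ b hb
  have hNadj : (J ⊔ fromEdgeSet {s(s, t)}).Adj s t := by
    rw [sup_adj, fromEdgeSet_adj]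
    exact Or.inr ⟨rfl, hne⟩
  have hdel : delE (J ⊔ fromEdgeSet {s(s, t)}) s t = J := by
    ext x y
    rw [delE, deleteEdges_adj, sup_adj, fromEdgeSet_adj, Set.mem_singleton_iff]
    constructor
    · rintro ⟨h | h, h'⟩
      · exact h
      · exact absurd h.1 h'
    · intro h
      refine ⟨Or.inl h, fun h' => hst ?_⟩
      rw [← mem_edgeSet, ← h', mem_edgeSet]
      exact h
  have hVS : VS (J ⊔ fromEdgeSet {s(s, t)}) = VS J := by
    apply Subset.antisymm
    · intro v hv
      obtain ⟨x, hx⟩ := mem_VS.1 hv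
      rw [sup_adj, fromEdgeSet_adj, Set.mem_singleton_iff, Sym2.eq_iff] at hx
      rcases hx with hx | ⟨⟨rfl, rfl⟩ | ⟨rfl, rfl⟩, _⟩
      · exact left_mem_VS hx
      · exact hs
      · exact ht
    · exact VS_mono le_sup_left
  have hN : KConn 3 (J ⊔ fromEdgeSet {s(s, t)}) := by
    refine ⟨by rw [hVS]; exact hJ.1, fun S hS x hx y hy hxS hyS => ?_⟩
    rw [hVS] at hx hy
    refine (hJ.2 S hS x hx y hy hxS hyS).mono fun p q hpq => ?_
    exact ⟨Or.inl hpq.1, hpq.2⟩
  have hb' : InK (delE (J ⊔ fromEdgeSet {s(s, t)}) s t) s t b := by rw [hdel]; exact hb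
  obtain ⟨σ, hσ⟩ := hDGC (N := J ⊔ fromEdgeSet {s(s, t)}) (N₁ := J ⊔ fromEdgeSet {s(s, t)})
    hNadj hKZ le_rfl hNadj (by rw [hdel]; exact hS3F.k3 hJ) (by rw [hdel]; exact hs)
    (by rw [hdel]; exact ht) b hb'
  have hFE : FE J b (b + cor σ) := fun X hX Y _ => by
    rw [frm_add, frm_cor σ hX, add_zero]
  have hK : InK (delE (J ⊔ fromEdgeSet {s(s, t)}) s t) s t (b + cor σ) := by
    rw [hdel]
    exact inK_add_of_fe hBDF hb (sy_add hb.1 (sy_cor σ)) hFE
  obtain ⟨g, g', hg, hg', h⟩ := core hRPQ hRT1 hINQ hBDF hPOL hNadj hN hK (by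
    intro e he hse hte
    induction e using Sym2.ind with
    | _ c d =>
      rw [hdel] at he
      have hcd : J.Adj c d := he
      have h1 : (del (J ⊔ fromEdgeSet {s(s, t)}) {s, t}).Adj c d := by
        refine ⟨Or.inl hcd, ?_, ?_⟩
        · intro h
          rw [mem_insert, mem_singleton] at h
          rcases h with rfl | rfl
          · exact hse (Sym2.mem_mk_left _ _)
          · exact hte (Sym2.mem_mk_left _ _)
        · intro h
          rw [mem_insert, mem_singleton] at h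
          rcases h with rfl | rfl
          · exact hse (Sym2.mem_mk_right _ _)
          · exact hte (Sym2.mem_mk_right _ _)
      rw [Pi.add_apply, Pi.add_apply, cor_diag σ hcd.ne, hσ c d h1, zmod2_add_self])
  rw [hdel] at h
  exact ⟨g, g', hg, hg', hFE.trans h⟩

end DL
end

section
/-!
# Module KRA (R1A block): the kernel `K_st`, `s`, `t` adjacent
-/
open SimpleGraph Finset

namespace DL

set_option linter.unusedSectionVars false

namespace KRAM

open KRNM

variable {α : Type} [Fintype α] [DecidableEq α]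

theorem bd_swap {J : SimpleGraph α} {s t c d : α} (h : Bd J s t c d) : Bd J s t d c :=
  ⟨h.1.symm, h.2.2.1, h.2.1, fun x => by rw [h.2.2.2 x]; tauto⟩

theorem bd_unique {J : SimpleGraph α} {s t c d c' d' : α} (h : Bd J s t c d) (h' : Bd J s t c' d') :
    s(c', d') = s(c, d) := by
  obtain ⟨h1, h2, h3, h4⟩ := h
  obtain ⟨h1', h2', h3', h4'⟩ := h'
  have a1 := (h4 c').1 ((h4' c').2 (Or.inr (Or.inl rfl)))
  have a2 := (h4 d').1 ((h4' d').2 (Or.inr (Or.inr rfl)))
  rw [Sym2.eq_iff]
  rcases a1 with a1 | a1 | a1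
  · exact absurd a1 h2'
  · rcases a2 with a2 | a2 | a2
    · exact absurd a2 h3'
    · exact absurd (a1.trans a2.symm) h1'
    · exact Or.inl ⟨a1, a2⟩
  · rcases a2 with a2 | a2 | a2
    · exact absurd a2 h3'
    · exact Or.inr ⟨a1, a2⟩
    · exact absurd (a1.trans a2.symm) h1'

theorem kapm_diag (s c d : α) (e : Sym2 α) : kapm s c d e e = if e = s(c, d) then 1 else 0 := by
  rw [kapm, Pi.add_apply, Pi.add_apply, sqm, dtm, ed_apply c d]
  have h : ∀ x y : ZMod 2, x * y + y * x = 0 := by decide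
  rw [h, add_zero]
  split_ifs <;> simp

/-- the correction at the bad edge of `s` -/
theorem pick (hKIN : SpecKIN) (J : SimpleGraph α) (s t : α) (β : Sym2 α → ZMod 2) :
    ∃ k : Sym2 α → Sym2 α → ZMod 2, InK J s t k ∧
      (k = 0 ∨ ∃ c d, J.Adj c d ∧ Bd J s t c d ∧ k = kapm s c d) ∧
      (∀ e, (∃ c d, e = s(c, d) ∧ J.Adj c d ∧ Bd J s t c d) → β e + k e e = 0) ∧
      ∀ e, (¬ ∃ c d, e = s(c, d) ∧ J.Adj c d ∧ Bd J s t c d) → k e e = 0 := by
  have hz : InK J s t 0 := ⟨sy_zero, fun K => frm_zero _ _⟩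
  by_cases h : ∃ c d, J.Adj c d ∧ Bd J s t c d
  · obtain ⟨c, d, hcd, hB⟩ := h
    rcases zmod2_cases (β s(c, d)) with h0 | h0
    · refine ⟨0, hz, Or.inl rfl, ?_, fun _ _ => rfl⟩
      rintro e ⟨c', d', rfl, h1, h2⟩
      rw [bd_unique hB h2, h0]
      simp
    · refine ⟨kapm s c d, hKIN.kap hB, Or.inr ⟨c, d, hcd, hB, rfl⟩, ?_, ?_⟩
      · rintro e ⟨c', d', rfl, h1, h2⟩
        rw [bd_unique hB h2, h0, kapm_diag, if_pos rfl]
        rfl
      · intro e he
        rw [kapm_diag, if_neg]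
        rintro rfl
        exact he ⟨c, d, rfl, hcd, hB⟩
  · refine ⟨0, hz, Or.inl rfl, ?_, fun _ _ => rfl⟩
    rintro e ⟨c', d', rfl, h1, h2⟩
    exact absurd ⟨c', d', h1, h2⟩ h

end KRAM

open KRNM KRAM

theorem specKRA (hDGC : SpecDGC) (hINQ : SpecINQ) (hRPQ : SpecRPQ) (hRT1 : SpecRT1)
    (hKIN : SpecKIN) (hBDF : SpecBDF) (hPOL : SpecPOL) : SpecKRA := by
  intro α _ _ J s t hst hJ hKZ hS3 hs ht hno b hb
  -- the graph without the bad edges
  have hst1 : (J.deleteEdges (bads J s t)).Adj s t := by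
    rw [deleteEdges_adj]
    refine ⟨hst, ?_⟩
    rintro ⟨c, d, he, -, h | h⟩
    · have h1 : t ∈ s(c, d) := he ▸ Sym2.mem_mk_right s t
      rcases Sym2.mem_iff.1 h1 with h1 | h1
      · exact h.2.1 h1.symm
      · exact h.2.2.1 h1.symm
    · have h1 : s ∈ s(c, d) := he ▸ Sym2.mem_mk_left s t
      rcases Sym2.mem_iff.1 h1 with h1 | h1
      · exact h.2.1 h1.symm
      · exact h.2.2.1 h1.symm
  have hmono : ∀ {b : Sym2 α → Sym2 α → ZMod 2}, InK J s t b → InK (delE J s t) s t b := by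
    intro b hb
    refine ⟨hb.1, fun K => ?_⟩
    obtain ⟨K', -, -, -, -, -, h0, h1⟩ := hBDF.mono K (delE_le J s t)
    rw [← h0, ← h1]
    exact hb.2 K'
  obtain ⟨σ, hσ⟩ := hDGC (N := J) (N₁ := J.deleteEdges (bads J s t)) hst hKZ
    (deleteEdges_le _) hst1 hS3 hs ht b (hmono hb)
  obtain ⟨k, hk, hk', hkb, hkn⟩ := pick hKIN J s t (fun e => b e e + cor σ e e)
  obtain ⟨l, hl, hl', hlb, hln⟩ := pick hKIN J t s (fun e => b e e + cor σ e e)
  have hcor : InK J s t (b + cor σ) :=
    inK_add_of_fe hBDF hb (sy_add hb.1 (sy_cor σ)) fun X hX Y _ => by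
      rw [frm_add, frm_cor σ hX, add_zero]
  have hb' : InK J s t (b + cor σ + k + l) := hKIN.add (hKIN.add hcor hk) (hKIN.symm hl)
  obtain ⟨g, g', hg, hg', hFE⟩ := core hRPQ hRT1 hINQ hBDF hPOL hst hJ (hmono hb') (by
    intro e he hse hte
    induction e using Sym2.ind with
    | _ x y =>
      have hxy : J.Adj x y := (deleteEdges_adj.1 he).1
      have hval : (b + cor σ + k + l) s(x, y) s(x, y) =
          b s(x, y) s(x, y) + cor σ s(x, y) s(x, y) + k s(x, y) s(x, y) + l s(x, y) s(x, y) := rfl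
      rw [hval]
      by_cases h1 : ∃ c d, s(x, y) = s(c, d) ∧ J.Adj c d ∧ Bd J s t c d
      · have h2 : ¬ ∃ c d, s(x, y) = s(c, d) ∧ J.Adj c d ∧ Bd J t s c d := by
          rintro ⟨c', d', h2, -, h3⟩
          obtain ⟨c, d, h4, -, h5⟩ := h1
          rw [h4, Sym2.eq_iff] at h2
          rcases h2 with ⟨rfl, rfl⟩ | ⟨rfl, rfl⟩
          · exact hno ⟨c, d, h5, h3⟩
          · exact hno ⟨c, d, h5, bd_swap h3⟩
        rw [hln _ h2, add_zero]
        exact hkb _ h1
      · rw [hkn _ h1, add_zero]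
        by_cases h2 : ∃ c d, s(x, y) = s(c, d) ∧ J.Adj c d ∧ Bd J t s c d
        · exact hlb _ h2
        · rw [hln _ h2, add_zero]
          have h3 : (del (J.deleteEdges (bads J s t)) {s, t}).Adj x y := by
            refine ⟨?_, ?_, ?_⟩
            · rw [deleteEdges_adj]
              refine ⟨hxy, ?_⟩
              rintro ⟨c, d, he', hcd, h | h⟩
              · exact h1 ⟨c, d, he', hcd, h⟩
              · exact h2 ⟨c, d, he', hcd, h⟩
            · intro h
              rw [mem_insert, mem_singleton] at h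
              rcases h with rfl | rfl
              · exact hse (Sym2.mem_mk_left _ _)
              · exact hte (Sym2.mem_mk_left _ _)
            · intro h
              rw [mem_insert, mem_singleton] at h
              rcases h with rfl | rfl
              · exact hse (Sym2.mem_mk_right _ _)
              · exact hte (Sym2.mem_mk_right _ _)
          rw [cor_diag σ hxy.ne, hσ x y h3, zmod2_add_self])
  -- a cycle through `st`
  obtain ⟨C, hC, hCst⟩ := (hJ.mono (by norm_num : 2 ≤ 3)).cycle_through_edge hst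
  have hX0 : chi C ∈ Z1 J := hC.chi_mem
  have hX1 : chi C s(s, t) = 1 := chi_of_mem hCst
  have hres : ∀ X ∈ Z1 J, X + X s(s, t) • chi C ∈ Z1 (delE J s t) := by
    intro X hX
    have h1 : X + X s(s, t) • chi C ∈ Z1 J := (Z1 J).add_mem hX ((Z1 J).smul_mem _ hX0)
    refine ⟨fun e he => ?_, h1.2⟩
    have h2 := h1.1 e he
    rw [delE, edgeSet_deleteEdges, Set.mem_sdiff, Set.mem_singleton_iff]
    refine ⟨h2, ?_⟩
    rintro rfl
    apply he
    rw [Pi.add_apply, Pi.smul_apply, hX1, smul_eq_mul, mul_one, zmod2_add_self]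
  set δ : Sym2 α → Sym2 α → ZMod 2 := (b + cor σ + k + l) + (g + g') with hδ
  have hδs : Sy δ := sy_add hb'.1 (sy_add hg.1 hg'.1)
  have hδ0 : ∀ X ∈ Z1 (delE J s t), ∀ Y ∈ Z1 (delE J s t), frm δ X Y = 0 := by
    intro X hX Y hY
    rw [hδ, frm_add, hFE X hX Y hY, zmod2_add_self]
  set v : Chain α := fun f => ∑ e, δ e f * chi C e with hv
  have hprv : ∀ Y : Chain α, pr v Y = frm δ (chi C) Y := by
    intro Y
    simp only [pr, frm, hv, sum_mul]
    rw [sum_comm]
    refine sum_congr rfl fun e _ => sum_congr rfl fun f _ => by ring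
  have hexp : ∀ X ∈ Z1 J, ∀ Y ∈ Z1 J, frm δ X Y = Y s(s, t) * pr v X + X s(s, t) * pr v Y +
      X s(s, t) * Y s(s, t) * frm δ (chi C) (chi C) := by
    intro X hX Y hY
    have h1 := hδ0 _ (hres X hX) _ (hres Y hY)
    rw [frm_left, frm_right, frm_right, frm_smul_left, frm_smul_left, frm_smul_right,
      frm_smul_right, frm_symm hδs X (chi C), ← hprv, ← hprv] at h1
    linear_combination h1 - (Y s(s, t) * pr v X + X s(s, t) * pr v Y +
      X s(s, t) * Y s(s, t) * frm δ (chi C) (chi C)) * two_eq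
  refine ⟨g + frm δ (chi C) (chi C) • sqm (ed s t), g', k, l, v, ?_, hg', hk', hl', ?_⟩
  · refine at_add hg (at_smul _ (at_sqm fun e he => ?_))
    rw [ed_ne he]
    exact Sym2.mem_mk_left s t
  · intro X hX Y hY
    have h1 := hexp X hX Y hY
    rw [hδ, frm_add, frm_add, frm_add, frm_add, frm_add, frm_cor σ hX, ← hδ] at h1
    rw [frm_add, frm_add, frm_add, frm_add, frm_add, frm_smul, frm_sqm, frm_dtm, pr_ed, pr_ed]
    linear_combination h1 - (frm k X Y + frm l X Y + frm g X Y + frm g' X Y) * two_eq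

end DL
end

section
/-!
MP_3ff0f8_gt, ALGEBRA HALF, R1A block: module LCF (helper35).
-/
open SimpleGraph Finset

namespace DL

namespace LCFM

set_option linter.unusedSectionVars false

variable {α : Type} [Fintype α] [DecidableEq α] {G : SimpleGraph α} {u : α} {w : Fin 4 → α}

theorem frm_zero_left (b : Sym2 α → Sym2 α → ZMod 2) (Y : Chain α) : frm b 0 Y = 0 := by
  simp [frm]

theorem frm_zero_right (b : Sym2 α → Sym2 α → ZMod 2) (X : Chain α) : frm b X 0 = 0 := by
  simp [frm]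

theorem frm_lin_left (b : Sym2 α → Sym2 α → ZMod 2) (x : Fin 4 → ZMod 2) (a : Fin 4 → Chain α)
    (Y : Chain α) : frm b (∑ l, x l • a l) Y = ∑ l, x l * frm b (a l) Y := by
  simp only [Fin.sum_univ_four, frm_left, frm_smul_left]

theorem frm_lin_right (b : Sym2 α → Sym2 α → ZMod 2) (x : Fin 4 → ZMod 2) (a : Fin 4 → Chain α)
    (Y : Chain α) : frm b Y (∑ l, x l • a l) = ∑ l, x l * frm b Y (a l) := by
  simp only [Fin.sum_univ_four, frm_right, frm_smul_right]

theorem frm_pr (b : Sym2 α → Sym2 α → ZMod 2) (a Y : Chain α) :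
    frm b a Y = pr (fun f => ∑ e, a e * b e f) Y := by
  unfold frm pr
  rw [sum_comm]
  refine sum_congr rfl fun f _ => ?_
  rw [sum_mul]
  refine sum_congr rfl fun e _ => ?_
  ring

theorem ed_sum (a b : α) : ∑ e, ed a b e = 1 := by
  simp only [ed_apply, sum_ite_eq', mem_univ, if_true]

/-- the algebra -/
theorem quad (x y : Fin 4 → ZMod 2) (g : Fin 4 → Fin 4 → ZMod 2) (hg : ∀ l m, g l m = g m l) :
    ∑ l, x l * ∑ m, y m * g l m =
      ∑ l, (x l * ∑ m, (if l < m then g l m * y m else 0)) +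
      ∑ l, ((∑ m, (if l < m then g l m * x m else 0)) * y l) + ∑ l, g l l * (x l * y l) := by
  simp only [Fin.sum_univ_four]
  have e : ∀ a b : Fin 4, (a < b) = (a.1 < b.1) := fun _ _ => rfl
  simp only [e]
  rw [hg 1 0, hg 2 0, hg 3 0, hg 2 1, hg 3 1, hg 3 2]
  norm_num
  ring

end LCFM

open LCFM DGMM in
theorem specLCF (hTRC : SpecTRC) (hCWC : SpecCWC) : SpecLCF := by
  intro α _ _ G u w h i g hg h0
  classical
  have t2 : (2 : ZMod 2) = 0 := rfl
  -- a neighbour `y₀` of `w i` in `C`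
  obtain ⟨y₀, hy₀, hwy⟩ := hCWC.nbC h (CC G u w) (Subset.refl _)
    (card_pos.1 (by have := (hCWC.card h).1; omega)) (fun _ _ _ hb _ => hb) i
  have hyu : y₀ ≠ u := by
    rintro rfl
    exact (mem_sdiff.1 hy₀).2 (mem_insert_self _ _)
  have hyw : ∀ j, y₀ ≠ w j := by
    rintro j rfl
    exact (mem_sdiff.1 hy₀).2 (mem_insert_of_mem (mem_image_of_mem _ (mem_univ j)))
  have hwu : w i ≠ u := by
    intro h1
    have h2 : G.Adj u (w i) := (h.nu _).2 ⟨i, rfl⟩
    exact h2.ne h1.symm
  set J := del G {u} with hJ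
  let a : Fin 4 → Chain α := fun l => if G.Adj (w i) (w l) then ed (w i) (w l) + ed (w i) y₀ else 0
  have ha : ∀ l, a l = if G.Adj (w i) (w l) then ed (w i) (w l) + ed (w i) y₀ else 0 := fun _ => rfl
  have hane : ∀ l e, a l e ≠ 0 → w i ∈ e := by
    intro l e he
    rw [ha] at he
    split_ifs at he with h1
    · by_contra h2
      apply he
      rw [Pi.add_apply, ed_apply, ed_apply, if_neg, if_neg, add_zero]
      · rintro rfl
        exact h2 (Sym2.mem_mk_left _ _)
      · rintro rfl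
        exact h2 (Sym2.mem_mk_left _ _)
    · exact absurd rfl he
  have hasum : ∀ l, ∑ e, a l e = 0 := by
    intro l
    rw [ha]
    split_ifs
    · simp only [Pi.add_apply, sum_add_distrib, ed_sum]
      rfl
    · simp
  -- the trace in `M`
  let P : Chain α → Chain α := fun X e => if w i ∈ e then X e else 0
  let A : Chain α → Chain α := fun X => ∑ l, X s(w i, w l) • a l
  have hP : ∀ X e, w i ∈ e → P X e = X e := fun X e he => if_pos he
  have hadj : ∀ X ∈ Z1 J, ∀ l, ¬ G.Adj (w i) (w l) → X s(w i, w l) = 0 := by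
    intro X hX l hl
    by_contra h1
    have h2 : J.Adj (w i) (w l) := (mem_Z1.1 hX).1 _ h1
    exact hl h2.1
  have hPA : ∀ X ∈ Z1 J, ∃ Z ∈ Z1 (MM G u w), ∀ e, w i ∈ e → Z e = (P X + A X) e := by
    intro X hX
    have hval : ∀ l', (A X) s(w i, w l') = X s(w i, w l') := by
      intro l'
      show (∑ l, X s(w i, w l) • a l) s(w i, w l') = _
      rw [Finset.sum_apply, sum_eq_single l']
      · rw [Pi.smul_apply, smul_eq_mul]
        by_cases h1 : G.Adj (w i) (w l')
        · rw [ha, if_pos h1, Pi.add_apply, ed_apply, ed_apply, if_pos rfl, if_neg, add_zero, mul_one]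
          intro h2
          rcases Sym2.eq_iff.1 h2 with ⟨-, h3⟩ | ⟨h3, -⟩
          · exact hyw l' h3.symm
          · exact hyw i h3.symm
        · rw [hadj X hX l' h1, zero_mul]
      · intro l _ hl
        rw [Pi.smul_apply, smul_eq_mul]
        have h2 : a l s(w i, w l') = 0 := by
          rw [ha]
          split_ifs
          · rw [Pi.add_apply, ed_apply, ed_apply, if_neg, if_neg, add_zero]
            · intro h2
              rcases Sym2.eq_iff.1 h2 with ⟨-, h3⟩ | ⟨h3, -⟩
              · exact hyw l' h3.symm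
              · exact hyw i h3.symm
            · intro h2
              rcases Sym2.eq_iff.1 h2 with ⟨-, h3⟩ | ⟨h3, h4⟩
              · exact hl (h.inj h3).symm
              · exact hl (h.inj (h4.trans h3)).symm
          · rfl
        rw [h2, mul_zero]
      · intro h1
        exact absurd (mem_univ _) h1
    obtain ⟨Z, hZ, hZe, -⟩ := ext hTRC hCWC h i ∅ (notMem_empty _) (by
      intro h1
      have := congrArg Finset.card h1
      simp at this) (P X + A X) (by
      intro e he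
      by_cases h1 : w i ∈ e
      · refine ⟨?_, h1⟩
        obtain ⟨y, rfl⟩ := Sym2.mem_iff_exists.1 h1
        by_cases h2 : ∃ l, y = w l
        · obtain ⟨l, rfl⟩ := h2
          exfalso
          apply he
          rw [Pi.add_apply, hP _ _ h1, hval]
          exact zmod2_add_self _
        · have h3 : (del G {u}).Adj (w i) y := by
            by_cases h4 : X s(w i, y) = 0
            · have h5 : (A X) s(w i, y) ≠ 0 := by
                intro h6
                apply he
                rw [Pi.add_apply, hP _ _ h1, h4, h6, add_zero]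
              have h6 : ∃ l, a l s(w i, y) ≠ 0 := by
                by_contra h7
                push Not at h7
                apply h5
                show (∑ l, X s(w i, w l) • a l) s(w i, y) = 0
                rw [Finset.sum_apply]
                refine sum_eq_zero fun l _ => ?_
                rw [Pi.smul_apply, h7, smul_zero]
              obtain ⟨l, hl⟩ := h6
              rw [ha] at hl
              split_ifs at hl with h7
              · rw [Pi.add_apply, ed_apply, ed_apply, if_neg, zero_add] at hl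
                · have h8 : s(w i, y) = s(w i, y₀) := by
                    by_contra h9
                    exact hl (if_neg h9)
                  have h9 : y = y₀ := by
                    rcases Sym2.eq_iff.1 h8 with ⟨-, h9⟩ | ⟨h9, -⟩
                    · exact h9
                    · exact absurd h9.symm (hyw i)
                  rw [h9]
                  exact ⟨hwy, by simpa using hwu, by simpa using hyu⟩
                · intro h8
                  rcases Sym2.eq_iff.1 h8 with ⟨-, h9⟩ | ⟨-, h9⟩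
                  · exact h2 ⟨l, h9⟩
                  · exact h2 ⟨i, h9⟩
              · exact absurd rfl hl
            · exact (mem_Z1.1 hX).1 _ h4
          refine (mm_adj _ _).2 ⟨h3, ?_⟩
          rintro ⟨j, k, hjk⟩
          rcases Sym2.eq_iff.1 hjk with ⟨-, h9⟩ | ⟨-, h9⟩
          · exact h2 ⟨k, h9⟩
          · exact h2 ⟨j, h9⟩
      · exfalso
        apply he
        rw [Pi.add_apply]
        have h2 : P X e = 0 := if_neg h1
        have h3 : A X e = 0 := by
          show (∑ l, X s(w i, w l) • a l) e = 0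
          rw [Finset.sum_apply]
          refine sum_eq_zero fun l _ => ?_
          rw [Pi.smul_apply]
          by_contra h4
          exact h1 (hane l e (right_ne_zero_of_smul h4))
        rw [h2, h3, add_zero]) (by
      simp only [Pi.add_apply, sum_add_distrib]
      have h1 : ∑ e, P X e = 0 := by
        have := (mem_Z1.1 hX).2 (w i)
        rwa [bdy_eq_sum_ite] at this
      have h2 : ∑ e, A X e = 0 := by
        show ∑ e, (∑ l, X s(w i, w l) • a l) e = 0
        simp only [Finset.sum_apply, Pi.smul_apply, smul_eq_mul]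
        rw [sum_comm]
        refine sum_eq_zero fun l _ => ?_
        rw [← mul_sum, hasum, mul_zero]
      rw [h1, h2, add_zero])
    exact ⟨Z, hZ, hZe⟩
  -- the expansion
  have hmain : ∀ X ∈ Z1 J, ∀ Y ∈ Z1 J, frm g X Y =
      ∑ l, Y s(w i, w l) * frm g (a l) X + ∑ l, X s(w i, w l) * frm g (a l) Y +
      ∑ l, X s(w i, w l) * ∑ m, Y s(w i, w m) * frm g (a l) (a m) := by
    intro X hX Y hY
    obtain ⟨Z, hZ, hZe⟩ := hPA X hX
    obtain ⟨Z', hZ', hZe'⟩ := hPA Y hY
    have h1 : frm g (P X + A X) (P Y + A Y) = 0 := by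
      rw [← h0 Z hZ Z' hZ']
      exact frm_at_congr hg (fun e he => (hZe e he).symm) fun e he => (hZe' e he).symm
    have h2 : frm g (P X) (P Y) = frm g X Y := frm_at_congr hg (hP X) (hP Y)
    have h3 : frm g (P X) (A Y) = ∑ l, Y s(w i, w l) * frm g (a l) X := by
      show frm g (P X) (∑ l, Y s(w i, w l) • a l) = _
      rw [frm_lin_right g (fun l => Y s(w i, w l)) a]
      refine sum_congr rfl fun l _ => ?_
      rw [frm_symm hg.1 (P X)]
      congr 1
      exact frm_at_congr hg (fun _ _ => rfl) (hP X)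
    have h4 : frm g (A X) (P Y) = ∑ l, X s(w i, w l) * frm g (a l) Y := by
      show frm g (∑ l, X s(w i, w l) • a l) (P Y) = _
      rw [frm_lin_left g (fun l => X s(w i, w l)) a]
      refine sum_congr rfl fun l _ => ?_
      congr 1
      exact frm_at_congr hg (fun _ _ => rfl) (hP Y)
    have h5 : frm g (A X) (A Y) =
        ∑ l, X s(w i, w l) * ∑ m, Y s(w i, w m) * frm g (a l) (a m) := by
      show frm g (∑ l, X s(w i, w l) • a l) (∑ l, Y s(w i, w l) • a l) = _
      rw [frm_lin_left g (fun l => X s(w i, w l)) a]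
      refine sum_congr rfl fun l _ => ?_
      rw [frm_lin_right g (fun l => Y s(w i, w l)) a]
    rw [frm_left, frm_right, frm_right, h2, h3, h4, h5] at h1
    linear_combination h1 - (∑ l, Y s(w i, w l) * frm g (a l) X +
      ∑ l, X s(w i, w l) * frm g (a l) Y +
      ∑ l, X s(w i, w l) * ∑ m, Y s(w i, w m) * frm g (a l) (a m)) * t2
  -- the forms
  let ν : Fin 4 → Chain α := fun l f => ∑ e, a l e * g e f
  have hν : ∀ l Y, frm g (a l) Y = pr (ν l) Y := fun l Y => frm_pr g (a l) Y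
  refine ⟨fun l => ν l + ∑ m, (if l < m then frm g (a l) (a m) else 0) • ed (w i) (w m),
    fun l => frm g (a l) (a l), ?_, ?_, ?_⟩
  · intro l e he
    by_contra h1
    apply he
    show (ν l + ∑ m, (if l < m then frm g (a l) (a m) else 0) • ed (w i) (w m)) e = 0
    rw [Pi.add_apply, Finset.sum_apply]
    have h2 : ν l e = 0 := by
      show ∑ f, a l f * g f e = 0
      refine sum_eq_zero fun f _ => ?_
      by_cases h3 : g f e = 0
      · rw [h3, mul_zero]
      · exact absurd (hg.2 f e h3).2 h1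
    rw [h2, zero_add]
    refine sum_eq_zero fun m _ => ?_
    have h3 : ed (w i) (w m) e = 0 := by
      rw [ed_apply, if_neg]
      rintro rfl
      exact h1 (Sym2.mem_mk_left _ _)
    rw [Pi.smul_apply, h3, smul_zero]
  · intro l hl
    have h1 : a l = 0 := by
      rw [ha, if_neg hl]
    refine ⟨?_, ?_⟩
    · show ν l + ∑ m, (if l < m then frm g (a l) (a m) else 0) • ed (w i) (w m) = 0
      have h2 : ν l = 0 := by
        funext f
        show ∑ e, a l e * g e f = 0
        simp [h1]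
      rw [h2, zero_add]
      refine sum_eq_zero fun m _ => ?_
      rw [h1, frm_zero_left, ite_self, zero_smul]
    · show frm g (a l) (a l) = 0
      rw [h1, frm_zero_left]
  · intro X hX Y hY
    rw [frm_sum, hmain X hX Y hY]
    have hpr : ∀ (l : Fin 4) (Y : Chain α),
        pr (ν l + ∑ m, (if l < m then frm g (a l) (a m) else 0) • ed (w i) (w m)) Y =
        frm g (a l) Y + ∑ m, (if l < m then frm g (a l) (a m) * Y s(w i, w m) else 0) := by
      intro l Y
      rw [pr_add, hν]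
      congr 1
      unfold pr
      simp only [Finset.sum_apply, Pi.smul_apply, smul_eq_mul, sum_mul]
      rw [sum_comm]
      refine sum_congr rfl fun m _ => ?_
      simp only [mul_assoc]
      rw [← mul_sum]
      have h1 : ∑ e, ed (w i) (w m) e * Y e = Y s(w i, w m) := pr_ed (w i) (w m) Y
      rw [h1]
      split_ifs
      · rfl
      · rw [zero_mul]
    have hterm : ∀ l, frm (dtm (ed (w i) (w l)) (ν l +
        ∑ m, (if l < m then frm g (a l) (a m) else 0) • ed (w i) (w m)) +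
        frm g (a l) (a l) • sqm (ed (w i) (w l))) X Y =
        X s(w i, w l) * (frm g (a l) Y + ∑ m, (if l < m then frm g (a l) (a m) * Y s(w i, w m) else 0)) +
        (frm g (a l) X + ∑ m, (if l < m then frm g (a l) (a m) * X s(w i, w m) else 0)) *
          Y s(w i, w l) + frm g (a l) (a l) * (X s(w i, w l) * Y s(w i, w l)) := by
      intro l
      rw [frm_add, frm_dtm, frm_smul, frm_sqm, pr_ed, pr_ed, hpr, hpr]
    rw [sum_congr rfl fun l _ => hterm l]
    have hq := quad (fun l => X s(w i, w l)) (fun l => Y s(w i, w l))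
      (fun l m => frm g (a l) (a m)) (fun l m => frm_symm hg.1 _ _)
    rw [hq]
    simp only [mul_add, add_mul, sum_add_distrib]
    have hc : ∑ l, Y s(w i, w l) * frm g (a l) X = ∑ l, frm g (a l) X * Y s(w i, w l) :=
      sum_congr rfl fun l _ => mul_comm _ _
    rw [hc]
    ring

end DL
end

section
/-!
MP_3ff0f8_gt, ALGEBRA HALF, R1A block, module LDG (helper16): the data of Lemma LIN.
-/
open SimpleGraph Finset

namespace DL
namespace LDGM

set_option linter.unusedSectionVars false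

variable {α : Type} [Fintype α] [DecidableEq α]

/-- forms on the cycle space -/
abbrev LL (J : SimpleGraph α) := ↥(Z1 J) → ↥(Z1 J) → ZMod 2

lemma rf_add (J : SimpleGraph α) (b b' : Sym2 α → Sym2 α → ZMod 2) :
    rf J (b + b') = rf J b + rf J b' := by
  funext X Y
  exact frm_add b b' X.1 Y.1

lemma rf_zero (J : SimpleGraph α) : rf J (0 : Sym2 α → Sym2 α → ZMod 2) = 0 := by
  funext X Y
  exact frm_zero X.1 Y.1

lemma rf_smul (J : SimpleGraph α) (k : ZMod 2) (b : Sym2 α → Sym2 α → ZMod 2) :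
    rf J (k • b) = k • rf J b := by
  funext X Y
  exact frm_smul k b X.1 Y.1

lemma rf_FE {J : SimpleGraph α} {b b' : Sym2 α → Sym2 α → ZMod 2} (h : FE J b b') : rf J b = rf J b' := by
  funext X Y
  exact h X.1 X.2 Y.1 Y.2

lemma rf_sum {ι : Type*} (J : SimpleGraph α) (s : Finset ι) (b : ι → Sym2 α → Sym2 α → ZMod 2) :
    rf J (∑ i ∈ s, b i) = ∑ i ∈ s, rf J (b i) := by
  classical
  induction s using Finset.induction_on with
  | empty => simp [rf_zero]
  | insert a s ha ih => rw [sum_insert ha, sum_insert ha, rf_add, ih]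

lemma self {J : SimpleGraph α} (x : LL J) : x + x = 0 := by
  funext X Y
  exact CharTwo.add_self_eq_zero (x X Y)

lemma pr_smul' (k : ZMod 2) (a c : Chain α) : pr a (k • c) = k * pr a c := by
  simp only [pr, Pi.smul_apply, smul_eq_mul, mul_sum]
  exact sum_congr rfl fun e _ => by ring

lemma pr_sum' {ι : Type*} (s : Finset ι) (a : Chain α) (c : ι → Chain α) :
    pr a (∑ i ∈ s, c i) = ∑ i ∈ s, pr a (c i) := by
  classical
  induction s using Finset.induction_on with
  | empty => simp [pr_zero]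
  | insert x s hx ih => rw [sum_insert hx, sum_insert hx, pr_add', ih]

/-- the coordinate of a pair of indices -/
def xe (w : Fin 4 → α) (e : Sym2 (Fin 4)) : Chain α := chi {e.map w}

lemma xe_mk (w : Fin 4 → α) (i j : Fin 4) : xe w s(i, j) = ed (w i) (w j) := rfl

lemma pr_xe (w : Fin 4 → α) (e : Sym2 (Fin 4)) (X : Chain α) : pr (xe w e) X = X (e.map w) := by
  induction e using Sym2.ind with
  | _ i j => rw [xe_mk, pr_ed]; rfl

/-- forms at a vertex -/
def GaS (J : SimpleGraph α) (v : α) : Submodule (ZMod 2) (LL J) where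
  carrier := {B | ∃ b, At v b ∧ B = rf J b}
  add_mem' := by
    rintro _ _ ⟨b, hb, rfl⟩ ⟨b', hb', rfl⟩
    exact ⟨b + b', at_add hb hb', (rf_add J b b').symm⟩
  zero_mem' := ⟨0, at_zero v, (rf_zero J).symm⟩
  smul_mem' := by
    rintro k _ ⟨b, hb, rfl⟩
    exact ⟨k • b, at_smul k hb, (rf_smul J k b).symm⟩

lemma mem_GaS {J : SimpleGraph α} {v : α} {B : LL J} : B ∈ GaS J v ↔ ∃ b, At v b ∧ B = rf J b := Iff.rfl

/-- forms with a factor `x` -/
def XsS (J : SimpleGraph α) (x : Chain α) : Submodule (ZMod 2) (LL J) where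
  carrier := {B | ∃ (v : Chain α) (c : ZMod 2), B = rf J (dtm x v + c • sqm x)}
  add_mem' := by
    rintro _ _ ⟨v, c, rfl⟩ ⟨v', c', rfl⟩
    refine ⟨v + v', c + c', ?_⟩
    rw [← rf_add]
    congr 1
    funext e f
    simp only [dtm, sqm, Pi.add_apply, Pi.smul_apply, smul_eq_mul]
    ring
  zero_mem' := ⟨0, 0, by
    rw [show dtm x 0 + (0 : ZMod 2) • sqm x = 0 by
      funext e f
      simp [dtm]]
    exact (rf_zero J).symm⟩
  smul_mem' := by
    rintro k _ ⟨v, c, rfl⟩
    refine ⟨k • v, k * c, ?_⟩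
    rw [← rf_smul]
    congr 1
    funext e f
    simp only [dtm, sqm, Pi.add_apply, Pi.smul_apply, smul_eq_mul]
    ring

lemma mem_XsS {J : SimpleGraph α} {x : Chain α} {B : LL J} :
    B ∈ XsS J x ↔ ∃ (v : Chain α) (c : ZMod 2), B = rf J (dtm x v + c • sqm x) := Iff.rfl

lemma dtm_XsS (J : SimpleGraph α) (x v : Chain α) : rf J (dtm x v) ∈ XsS J x :=
  ⟨v, 0, by rw [zero_smul, add_zero]⟩

lemma sqm_XsS (J : SimpleGraph α) (x : Chain α) : rf J (sqm x) ∈ XsS J x :=
  ⟨0, 1, by
    congr 1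
    funext e f
    simp [dtm]⟩

lemma xs_eval (J : SimpleGraph α) (x v : Chain α) (c : ZMod 2) (X Y : ↥(Z1 J)) :
    rf J (dtm x v + c • sqm x) X Y =
      pr x X.1 * pr v Y.1 + pr v X.1 * pr x Y.1 + c * (pr x X.1 * pr x Y.1) := by
  show frm _ X.1 Y.1 = _
  rw [frm_add, frm_smul, frm_dtm, frm_sqm]

lemma Bd_symm {J : SimpleGraph α} {s t c d : α} (h : Bd J s t c d) : Bd J s t d c :=
  ⟨h.1.symm, h.2.2.1, h.2.1, fun x => by
    rw [h.2.2.2 x]
    tauto⟩

/-! ## Type A -/

section TA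

variable {G : SimpleGraph α} {u : α} {w : Fin 4 → α}

lemma not_CC (i : Fin 4) : w i ∉ CC G u w := by
  intro h
  simp only [CC, WW, mem_sdiff, mem_insert, mem_image, mem_univ, true_and, not_or] at h
  exact h.2.2 ⟨i, rfl⟩

lemma u_CC : u ∉ CC G u w := by
  intro h
  simp only [CC, mem_sdiff, mem_insert, true_or, not_true_eq_false, and_false] at h

lemma TA_sym {i j : Fin 4} {c d : α} (h : TA G u w i j c d) : TA G u w i j d c :=
  ⟨h.ij, fun x => by rw [h.nb x]; tauto, h.cd.symm, h.dC, h.cC⟩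

lemma TA_bd (hR : R1 G u w) {i j : Fin 4} {c d : α} (h : TA G u w i j c d) :
    Bd (del G {u}) (w i) (w j) c d := by
  have hu : ∀ k, w k ≠ u := fun k hk => by
    have := (hR.nu (w k)).2 ⟨k, rfl⟩
    rw [hk] at this
    exact this.ne rfl
  refine ⟨h.cd.ne, fun he => not_CC j (he ▸ h.cC), fun he => not_CC j (he ▸ h.dC), fun x => ?_⟩
  simp only [del, Finset.mem_singleton, h.nb x]
  constructor
  · rintro ⟨h1 | h1, h2, h3⟩
    · exact absurd h1 h3
    · exact h1
  · intro h1
    refine ⟨Or.inr h1, hu i, ?_⟩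
    rcases h1 with h1 | h1 | h1
    · rw [h1]
      exact hu j
    · rw [h1]
      exact fun he => u_CC (he ▸ h.cC)
    · rw [h1]
      exact fun he => u_CC (he ▸ h.dC)

/-- uniqueness of the type A data -/
lemma TA_uniq (hR : R1 G u w) {i j j' : Fin 4} {c d c' d' : α} (h : TA G u w i j c d)
    (h' : TA G u w i j' c' d') : j' = j ∧ ((c' = c ∧ d' = d) ∨ (c' = d ∧ d' = c)) := by
  have hu : ∀ k, w k ≠ u := fun k hk => by
    have := (hR.nu (w k)).2 ⟨k, rfl⟩
    rw [hk] at this
    exact this.ne rfl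
  have hj : j' = j := by
    have h1 : G.Adj (w i) (w j') := (h'.nb _).2 (Or.inr (Or.inl rfl))
    rcases (h.nb _).1 h1 with h2 | h2 | h2 | h2
    · exact absurd h2 (hu j')
    · exact hR.inj h2
    · exact absurd (h2 ▸ h.cC) (not_CC j')
    · exact absurd (h2 ▸ h.dC) (not_CC j')
  have hc : c' = c ∨ c' = d := by
    have h1 : G.Adj (w i) c' := (h'.nb _).2 (Or.inr (Or.inr (Or.inl rfl)))
    rcases (h.nb _).1 h1 with h2 | h2 | h2 | h2
    · exact absurd (h2 ▸ h'.cC) u_CC
    · exact absurd (h2 ▸ h'.cC) (not_CC j)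
    · exact Or.inl h2
    · exact Or.inr h2
  have hd : d' = c ∨ d' = d := by
    have h1 : G.Adj (w i) d' := (h'.nb _).2 (Or.inr (Or.inr (Or.inr rfl)))
    rcases (h.nb _).1 h1 with h2 | h2 | h2 | h2
    · exact absurd (h2 ▸ h'.dC) u_CC
    · exact absurd (h2 ▸ h'.dC) (not_CC j)
    · exact Or.inl h2
    · exact Or.inr h2
  refine ⟨hj, ?_⟩
  have hne := h'.cd.ne
  rcases hc with hc | hc <;> rcases hd with hd | hd
  · exact absurd (hc.trans hd.symm) hne
  · exact Or.inl ⟨hc, hd⟩
  · exact Or.inr ⟨hc, hd⟩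
  · exact absurd (hc.trans hd.symm) hne

/-- the star of `s` with three neighbours -/
lemma star3 {J : SimpleGraph α} {s t c d : α} (h : Bd J s t c d) {X : Chain α} (hX : X ∈ Z1 J) :
    X s(s, t) + X s(s, c) + X s(s, d) = 0 := by
  have h1 := hX.2 s
  unfold bdy at h1
  have h2 : ∑ e ∈ univ.filter (fun e => s ∈ e), X e =
      ∑ e ∈ ({s(s, t), s(s, c), s(s, d)} : Finset (Sym2 α)), X e := by
    symm
    apply sum_subset
    · intro e he
      simp only [mem_insert, Finset.mem_singleton] at he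
      rw [mem_filter]
      refine ⟨mem_univ _, ?_⟩
      rcases he with rfl | rfl | rfl <;> exact Sym2.mem_mk_left _ _
    · intro e he hne
      by_contra h0
      have h3 := hX.1 e h0
      rw [mem_filter] at he
      obtain ⟨y, rfl⟩ := Sym2.mem_iff_exists.1 he.2
      rw [mem_edgeSet, h.2.2.2] at h3
      apply hne
      simp only [mem_insert, Finset.mem_singleton]
      rcases h3 with rfl | rfl | rfl
      · exact Or.inl rfl
      · exact Or.inr (Or.inl rfl)
      · exact Or.inr (Or.inr rfl)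
  rw [h2, sum_insert, sum_insert, sum_singleton] at h1
  · rw [← h1]
    ring
  · rw [Finset.mem_singleton, Sym2.eq_iff]
    rintro (⟨-, h3⟩ | ⟨h3, h4⟩)
    · exact h.1 h3
    · exact h.1 (h4.trans h3)
  · rw [mem_insert, Finset.mem_singleton, Sym2.eq_iff, Sym2.eq_iff]
    rintro ((⟨-, h3⟩ | ⟨h3, h4⟩) | (⟨-, h3⟩ | ⟨h3, h4⟩))
    · exact h.2.1 h3.symm
    · exact h.2.1 (h3.symm.trans h4.symm)
    · exact h.2.2.1 h3.symm
    · exact h.2.2.1 (h3.symm.trans h4.symm)

/-- comparison of `θ^{[2]}` with the labels exchanged -/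
lemma tht_swap {J : SimpleGraph α} {w : Fin 4 → α} {i j : Fin 4} {c d : α} (h : Bd J (w i) (w j) c d) :
    rf J (sqm (tht w i d c)) = rf J (sqm (tht w i c d)) +
      rf J (dtm (ed (w i) (w j)) (tht w i c d) + (1 : ZMod 2) • sqm (ed (w i) (w j))) := by
  funext X Y
  have h1 : ∀ Z : ↥(Z1 J), pr (tht w i d c) Z.1 = pr (tht w i c d) Z.1 + Z.1 s(w i, w j) := by
    intro Z
    have h2 := star3 h Z.2
    rw [pr_tht, pr_tht, show (s(d, c) : Sym2 α) = s(c, d) from Sym2.eq_swap]
    have e2 : (2 : ZMod 2) = 0 := rfl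
    linear_combination h2 - (Z.1 s(w i, w j) + Z.1 s(w i, c)) * e2
  show frm (sqm (tht w i d c)) X.1 Y.1 = frm (sqm (tht w i c d)) X.1 Y.1 +
    rf J (dtm (ed (w i) (w j)) (tht w i c d) + (1 : ZMod 2) • sqm (ed (w i) (w j))) X Y
  rw [xs_eval, frm_sqm, frm_sqm, h1 X, h1 Y, pr_ed, pr_ed]
  ring

/-- `θ` at a common neighbour -/
lemma tht_common {J : SimpleGraph α} {z a b d d' : α} (hne : [a, b, d, d'].Nodup)
    (h : ∀ x, J.Adj z x ↔ x = a ∨ x = b ∨ x = d ∨ x = d') {X : Chain α} (hX : X ∈ Z1 J) :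
    X s(a, z) + X s(z, d) = X s(b, z) + X s(z, d') := by
  simp only [List.nodup_cons, List.mem_cons, List.not_mem_nil, or_false, not_or,
    List.nodup_nil, and_true, not_false_eq_true] at hne
  obtain ⟨⟨n1, n2, n3⟩, ⟨n4, n5⟩, n6⟩ := hne
  have h1 := hX.2 z
  unfold bdy at h1
  have h2 : ∑ e ∈ univ.filter (fun e => z ∈ e), X e =
      ∑ e ∈ ({s(z, a), s(z, b), s(z, d), s(z, d')} : Finset (Sym2 α)), X e := by
    symm
    apply sum_subset
    · intro e he
      simp only [mem_insert, Finset.mem_singleton] at he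
      rw [mem_filter]
      refine ⟨mem_univ _, ?_⟩
      rcases he with rfl | rfl | rfl | rfl <;> exact Sym2.mem_mk_left _ _
    · intro e he hne
      by_contra h0
      have h3 := hX.1 e h0
      rw [mem_filter] at he
      obtain ⟨y, rfl⟩ := Sym2.mem_iff_exists.1 he.2
      rw [mem_edgeSet, h] at h3
      apply hne
      simp only [mem_insert, Finset.mem_singleton]
      rcases h3 with rfl | rfl | rfl | rfl
      · exact Or.inl rfl
      · exact Or.inr (Or.inl rfl)
      · exact Or.inr (Or.inr (Or.inl rfl))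
      · exact Or.inr (Or.inr (Or.inr rfl))
  have hs : ∀ x y : α, x ≠ y → s(z, x) ≠ s(z, y) := by
    intro x y hxy he
    rw [Sym2.eq_iff] at he
    rcases he with ⟨-, h3⟩ | ⟨h3, h4⟩
    · exact hxy h3
    · exact hxy (h4.trans h3)
  rw [h2, sum_insert (by
      simp only [mem_insert, Finset.mem_singleton, not_or]
      exact ⟨hs _ _ n1, hs _ _ n2, hs _ _ n3⟩), sum_insert (by
      simp only [mem_insert, Finset.mem_singleton, not_or]
      exact ⟨hs _ _ n4, hs _ _ n5⟩), sum_insert (by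
      simp only [Finset.mem_singleton]
      exact hs _ _ n6), sum_singleton] at h1
  rw [show (s(a, z) : Sym2 α) = s(z, a) from Sym2.eq_swap, show (s(b, z) : Sym2 α) = s(z, b) from Sym2.eq_swap]
  have e2 : (2 : ZMod 2) = 0 := rfl
  linear_combination h1 - (X s(z, b) + X s(z, d')) * e2

end TA

end LDGM

open LDGM

set_option maxHeartbeats 4000000 in
theorem specLDG (hKRN : SpecKRN) (hKRA : SpecKRA) (hJS3 : SpecJS3) (hCJ1 : SpecCJ1) (hKIN : SpecKIN)
    (hKJM : SpecKJM) (hRCL : SpecRCL) (hCWC : SpecCWC) (hDGM : SpecDGM) (hLCF : SpecLCF)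
    (hCLA : SpecCLA) : SpecLDG := by
  classical
  intro α _ _ G u w hR hKZ hKZ'
  obtain ⟨hK3, -, hVS, hwV, -⟩ := hCJ1 hR
  set J := del G {u} with hJ
  have hu : ∀ k, w k ≠ u := fun k hk => by
    have := (hR.nu (w k)).2 ⟨k, rfl⟩
    rw [hk] at this
    exact this.ne rfl
  have hJadj : ∀ i j, J.Adj (w i) (w j) ↔ G.Adj (w i) (w j) := by
    intro i j
    simp only [hJ, del, Finset.mem_singleton]
    exact ⟨fun h => h.1, fun h => ⟨h, hu i, hu j⟩⟩
  -- coordinates
  have hbad : ∀ e : Sym2 (Fin 4), e.map w ∉ J.edgeSet → ∀ X : ↥(Z1 J), X.1 (e.map w) = 0 := by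
    intro e he X
    by_contra h
    exact he (X.2.1 _ h)
  -- type A data
  have hex : ∀ i : Fin 4, ∃ (jj : Fin 4) (cd : α × α), (∃ j c d, TA G u w i j c d) → TA G u w i jj cd.1 cd.2 := by
    intro i
    by_cases h : ∃ j c d, TA G u w i j c d
    · obtain ⟨j, c, d, h1⟩ := h
      exact ⟨j, (c, d), fun _ => h1⟩
    · exact ⟨i, (u, u), fun h1 => absurd h1 h⟩
  choose jj cd hTA using hex
  set A : Finset (Fin 4) := univ.filter fun i => ∃ j c d, TA G u w i j c d with hA
  have hA' : ∀ i ∈ A, TA G u w i (jj i) (cd i).1 (cd i).2 := fun i hi => hTA i (by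
    rw [hA, mem_filter] at hi
    exact hi.2)
  have hAm : ∀ i j c d, TA G u w i j c d → i ∈ A := fun i j c d h => by
    rw [hA, mem_filter]
    exact ⟨mem_univ _, j, c, d, h⟩
  -- the spaces
  have hGK : ∀ e : Sym2 (Fin 4), ¬ e.IsDiag → ∀ i ∈ e, GaS J (w i) ≤ KJ G u w e := by
    intro e he i hi B hB
    obtain ⟨b, hb, rfl⟩ := mem_GaS.1 hB
    obtain ⟨k, rfl⟩ := Sym2.mem_iff_exists.1 hi
    rw [Sym2.mk_isDiag_iff] at he
    exact (hKJM.mem he _).2 ⟨b, hKIN.at0 hb, rfl⟩
  have hsqAt : ∀ a b : α, At a (sqm (ed a b)) := fun a b => at_sqm fun e he => by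
    rw [ed_ne he]
    exact Sym2.mem_mk_left _ _
  have hXK : ∀ e : Sym2 (Fin 4), XsS J (xe w e) ≤ KJ G u w e := by
    intro e B hB
    obtain ⟨v, c, rfl⟩ := mem_XsS.1 hB
    by_cases he : e.IsDiag
    · have h0 : rf J (dtm (xe w e) v + c • sqm (xe w e)) = 0 := by
        funext X Y
        have h1 : e.map w ∉ J.edgeSet := by
          induction e using Sym2.ind with
          | _ a b =>
            rw [Sym2.mk_isDiag_iff] at he
            rw [Sym2.map_mk, he, mem_edgeSet]
            exact fun h => h.ne rfl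
        rw [xs_eval, pr_xe, pr_xe, hbad e h1 X, hbad e h1 Y]
        simp
      rw [h0]
      exact Submodule.zero_mem _
    · induction e using Sym2.ind with
      | _ a b =>
        rw [Sym2.mk_isDiag_iff] at he
        refine (hKJM.mem he _).2 ⟨_, ?_, rfl⟩
        rw [xe_mk]
        exact hKIN.add (hKIN.dot v) (hKIN.at0 (at_smul c (hsqAt _ _)))
  -- kapm and theta
  have hkth : ∀ i (c d : α), rf J (kapm (w i) c d) =
      rf J (sqm (tht w i c d)) + rf J (sqm (ed (w i) c)) := by
    intro i c d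
    have h1 := kapm_add (w i) c d
    rw [tht, ← h1, rf_add, add_assoc, self, add_zero]
  have hthK : ∀ i ∈ A, rf J (sqm (tht w i (cd i).1 (cd i).2)) ∈ KJ G u w s(i, jj i) := by
    intro i hi
    have h1 := hA' i hi
    have h2 : rf J (sqm (tht w i (cd i).1 (cd i).2)) =
        rf J (kapm (w i) (cd i).1 (cd i).2 + sqm (ed (w i) (cd i).1)) := by
      rw [rf_add, hkth, add_assoc, self, add_zero]
    rw [h2]
    exact (hKJM.mem h1.ij _).2 ⟨_, hKIN.add (hKIN.kap (TA_bd hR h1)) (hKIN.at0 (hsqAt _ _)), rfl⟩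
  -- half of `dec`
  have hhalf : ∀ a b, a ≠ b → G.Adj (w a) (w b) → ∀ k : Sym2 α → Sym2 α → ZMod 2,
      (k = 0 ∨ ∃ c d, J.Adj c d ∧ Bd J (w a) (w b) c d ∧ k = kapm (w a) c d) →
      ∃ (τ : Fin 4 → LL J) (y : LL J) (ε : ZMod 2), (∀ l, τ l ∈ GaS J (w l) ⊓ KJ G u w s(a, b)) ∧
        y ∈ XsS J (xe w s(a, b)) ∧ (ε ≠ 0 → a ∈ A ∧ jj a = b) ∧
        rf J k = ∑ l, τ l + y + ε • rf J (sqm (tht w a (cd a).1 (cd a).2)) := by
    intro a b hab hadj k hk
    rcases hk with rfl | ⟨c, d, hcd, hBd, rfl⟩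
    · refine ⟨0, 0, 0, fun l => Submodule.zero_mem _, Submodule.zero_mem _, fun h => absurd rfl h, ?_⟩
      rw [rf_zero, zero_smul]
      simp
    have hone : ∀ (l : Fin 4) (B y : LL J) (ε : ZMod 2), B ∈ GaS J (w l) → B ∈ KJ G u w s(a, b) →
        y ∈ XsS J (xe w s(a, b)) → (ε ≠ 0 → a ∈ A ∧ jj a = b) →
        rf J (kapm (w a) c d) = B + y + ε • rf J (sqm (tht w a (cd a).1 (cd a).2)) →
        ∃ (τ : Fin 4 → LL J) (y : LL J) (ε : ZMod 2), (∀ l, τ l ∈ GaS J (w l) ⊓ KJ G u w s(a, b)) ∧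
          y ∈ XsS J (xe w s(a, b)) ∧ (ε ≠ 0 → a ∈ A ∧ jj a = b) ∧
          rf J (kapm (w a) c d) = ∑ l, τ l + y + ε • rf J (sqm (tht w a (cd a).1 (cd a).2)) := by
      intro l B y ε h1 h2 h3 h4 h5
      refine ⟨fun l' => if l' = l then B else 0, y, ε, fun l' => ?_, h3, h4, ?_⟩
      · show (if l' = l then B else 0) ∈ _
        split_ifs with h
        · rw [h]
          exact ⟨h1, h2⟩
        · exact Submodule.zero_mem _
      · rw [h5, sum_ite_eq' univ l, if_pos (mem_univ l)]
    rcases hRCL.cls hR a b c d hab hadj hcd hBd with hT | ⟨k, hka, hkb, hk⟩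
    · have haA := hAm _ _ _ _ hT
      have h1 := hA' a haA
      obtain ⟨h2, h3⟩ := TA_uniq hR hT h1
      have h4 : rf J (sqm (ed (w a) (cd a).1)) ∈ GaS J (w a) := ⟨_, hsqAt _ _, rfl⟩
      have h5 : rf J (sqm (ed (w a) (cd a).1)) ∈ KJ G u w s(a, b) :=
        hGK s(a, b) (by rw [Sym2.mk_isDiag_iff]; exact hab) a (Sym2.mem_mk_left _ _) h4
      rcases h3 with ⟨h6, h7⟩ | ⟨h6, h7⟩
      · refine hone a _ 0 1 h4 h5 (Submodule.zero_mem _) (fun _ => ⟨haA, h2⟩) ?_
        rw [hkth, ← h6, ← h7, one_smul, add_zero, add_comm]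
      · refine hone a _ (rf J (dtm (ed (w a) (w b)) (ed c d))) 1 h4 h5 (dtm_XsS J _ _)
          (fun _ => ⟨haA, h2⟩) ?_
        have h8 := rf_FE (hRCL.sw hBd)
        rw [rf_add] at h8
        have h9 : rf J (kapm (w a) c d) = rf J (kapm (w a) d c) +
            rf J (dtm (ed (w a) (w b)) (ed c d)) := by
          rw [h8, add_assoc, self, add_zero]
        rw [h9, hkth a d c, ← h6, ← h7, one_smul]
        abel
    · have hK : ∀ c d, Bd J (w a) (w b) c d → rf J (kapm (w a) c d) ∈ KJ G u w s(a, b) :=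
        fun c d h => (hKJM.mem hab _).2 ⟨_, hKIN.kap h, rfl⟩
      rcases hk with ⟨h1, h2⟩ | ⟨h1, h2⟩
      · refine hone k (rf J (kapm (w a) c d)) 0 0 ⟨_, ?_, rfl⟩ (hK c d hBd) (Submodule.zero_mem _)
          (fun h => absurd rfl h) ?_
        · rw [h1]
          exact hRCL.atk _ _ _
        · rw [zero_smul, add_zero, add_zero]
      · have h8 := rf_FE (hRCL.sw hBd)
        rw [rf_add] at h8
        have h9 : rf J (kapm (w a) c d) = rf J (kapm (w a) d c) +
            rf J (dtm (ed (w a) (w b)) (ed c d)) := by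
          rw [h8, add_assoc, self, add_zero]
        refine hone k (rf J (kapm (w a) d c)) (rf J (dtm (ed (w a) (w b)) (ed c d))) 0 ⟨_, ?_, rfl⟩
          (hK d c (Bd_symm hBd)) (dtm_XsS J _ _) (fun h => absurd rfl h) ?_
        · rw [h1]
          exact hRCL.atk _ _ _
        · rw [h9, zero_smul, add_zero]
  have hdec : ∀ a b, a ≠ b → ∀ x ∈ KJ G u w s(a, b), ∃ (τ : Fin 4 → LL J) (y : LL J) (ε ε' : ZMod 2),
      (∀ k, τ k ∈ GaS J (w k) ⊓ KJ G u w s(a, b)) ∧ y ∈ XsS J (xe w s(a, b)) ∧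
      (ε ≠ 0 → a ∈ A ∧ jj a = b) ∧ (ε' ≠ 0 → b ∈ A ∧ jj b = a) ∧
      x = ∑ k, τ k + y + ε • rf J (sqm (tht w a (cd a).1 (cd a).2)) +
        ε' • rf J (sqm (tht w b (cd b).1 (cd b).2)) := by
    intro a b hab x hx
    obtain ⟨β, hβ, rfl⟩ := (hKJM.mem hab _).1 hx
    have hwab : w a ≠ w b := fun h => hab (hR.inj h)
    have hnd : ¬ (s(a, b) : Sym2 (Fin 4)).IsDiag := by
      rw [Sym2.mk_isDiag_iff]
      exact hab
    -- the local parts
    have hloc : ∀ g g' : Sym2 α → Sym2 α → ZMod 2, At (w a) g → At (w b) g' → ∃ τ : Fin 4 → LL J,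
        (∀ k, τ k ∈ GaS J (w k) ⊓ KJ G u w s(a, b)) ∧ ∑ k, τ k = rf J g + rf J g' := by
      intro g g' hg hg'
      have h1 : rf J g ∈ GaS J (w a) := ⟨_, hg, rfl⟩
      have h2 : rf J g' ∈ GaS J (w b) := ⟨_, hg', rfl⟩
      refine ⟨fun k => (if k = a then rf J g else 0) + (if k = b then rf J g' else 0), fun k => ?_, ?_⟩
      · refine Submodule.add_mem _ ?_ ?_
        · split_ifs with h
          · rw [h]
            exact ⟨h1, hGK _ hnd a (Sym2.mem_mk_left _ _) h1⟩
          · exact Submodule.zero_mem _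
        · split_ifs with h
          · rw [h]
            exact ⟨h2, hGK _ hnd b (Sym2.mem_mk_right _ _) h2⟩
          · exact Submodule.zero_mem _
      · rw [sum_add_distrib, sum_ite_eq' univ a, sum_ite_eq' univ b, if_pos (mem_univ a),
          if_pos (mem_univ b)]
    by_cases hadj : G.Adj (w a) (w b)
    · obtain ⟨h1, h2, h3, h4⟩ := hJS3 hR.k48 hR.rig ((hR.nu _).2 ⟨a, rfl⟩) ((hR.nu _).2 ⟨b, rfl⟩) hadj
      obtain ⟨g, g', k, k', v, hg, hg', hk, hk', hFE⟩ := hKRA J (w a) (w b) ((hJadj a b).2 hadj) hK3 hKZ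
        h1 h2 h3 h4 β hβ
      obtain ⟨τ, hτ, hτs⟩ := hloc g g' hg hg'
      obtain ⟨τ₁, y₁, ε, p1, p2, p3, p4⟩ := hhalf a b hab hadj k hk
      obtain ⟨τ₂, y₂, ε', q1, q2, q3, q4⟩ := hhalf b a hab.symm hadj.symm k' hk'
      rw [show (s(b, a) : Sym2 (Fin 4)) = s(a, b) from Sym2.eq_swap] at q1 q2
      refine ⟨fun k => τ k + τ₁ k + τ₂ k, rf J (dtm (ed (w a) (w b)) v) + y₁ + y₂, ε, ε', fun k => ?_, ?_,
        p3, q3, ?_⟩
      · exact Submodule.add_mem _ (Submodule.add_mem _ (hτ k) (p1 k)) (q1 k)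
      · exact Submodule.add_mem _ (Submodule.add_mem _ (dtm_XsS J _ _) p2) q2
      · rw [rf_FE hFE, rf_add, rf_add, rf_add, rf_add, p4, q4, sum_add_distrib, sum_add_distrib, hτs]
        abel
    · obtain ⟨g, g', hg, hg', hFE⟩ := hKRN J (w a) (w b) hwab (fun h => hadj ((hJadj a b).1 h)) (hwV a)
        (hwV b) hK3 (hKZ' a b hab hadj) β hβ
      obtain ⟨τ, hτ, hτs⟩ := hloc g g' hg hg'
      refine ⟨τ, 0, 0, 0, hτ, Submodule.zero_mem _, fun h => absurd rfl h, fun h => absurd rfl h, ?_⟩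
      rw [rf_FE hFE, rf_add, hτs, zero_smul, zero_smul, add_zero, add_zero, add_zero]
  -- beta pairs
  have hbphalf : ∀ m z e, TA G u w m (jj m) z e → ∃ g ∈ GaS J (w m), ∃ y ∈ XsS J (xe w s(m, jj m)),
      rf J (sqm (tht w m (cd m).1 (cd m).2)) = rf J (sqm (tht w m z e)) + g + y := by
    intro m z e hT
    have hm := hAm _ _ _ _ hT
    obtain ⟨-, h3⟩ := TA_uniq hR hT (hA' m hm)
    rcases h3 with ⟨h6, h7⟩ | ⟨h6, h7⟩
    · refine ⟨0, Submodule.zero_mem _, 0, Submodule.zero_mem _, ?_⟩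
      rw [h6, h7, add_zero, add_zero]
    · refine ⟨0, Submodule.zero_mem _, rf J (dtm (ed (w m) (w (jj m))) (tht w m z e) +
        (1 : ZMod 2) • sqm (ed (w m) (w (jj m)))), ⟨tht w m z e, 1, rfl⟩, ?_⟩
      rw [h6, h7, add_zero]
      exact tht_swap (TA_bd hR hT)
  -- evaluation on `M`
  have hM0 : ∀ (e : Sym2 (Fin 4)) (X : Chain α), X ∈ Z1 (MM G u w) → X (e.map w) = 0 := by
    intro e X hX
    induction e using Sym2.ind with
    | _ a b => exact (hCWC.mem.1 hX).2 a b
  have hMJ : ∀ X : Chain α, X ∈ Z1 (MM G u w) → X ∈ Z1 J := fun X hX => (hCWC.mem.1 hX).1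
  have hXM : ∀ (e : Sym2 (Fin 4)) (y : LL J), y ∈ XsS J (xe w e) → ∀ (X Y : Chain α)
      (hX : X ∈ Z1 (MM G u w)) (hY : Y ∈ Z1 (MM G u w)), y ⟨X, hMJ X hX⟩ ⟨Y, hMJ Y hY⟩ = 0 := by
    rintro e _ ⟨v, c, rfl⟩ X Y hX hY
    rw [xs_eval, pr_xe, pr_xe]
    show X (e.map w) * _ + _ * Y (e.map w) + c * (X (e.map w) * Y (e.map w)) = 0
    rw [hM0 e X hX, hM0 e Y hY]
    ring
  have hH1 : ∀ S ⊆ A, S.Nonempty → ∀ (g : Fin 4 → LL J) (y : Sym2 (Fin 4) → LL J),
      (∀ i, g i ∈ GaS J (w i)) → (∀ e, y e ∈ XsS J (xe w e)) →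
      ∑ i, g i + ∑ e, y e + ∑ i ∈ S, rf J (sqm (tht w i (cd i).1 (cd i).2)) = 0 →
      ∃ i ∈ S, ∃ m ∈ S, ∃ ϑ : LL J, ∃ z e e', Bta G u w i (jj i) m (jj m) z e e' ∧
        ϑ = rf J (sqm (tht w i z e)) := by
    intro S hSA hSn g y hg hy hsum
    choose r hr hgr using fun i => mem_GaS.1 (hg i)
    have hRLN : RLN G u w S (fun i => (cd i).1) (fun i => (cd i).2) := by
      refine ⟨r, hr, fun X hX Y hY => ?_⟩
      have h1 := congrFun (congrFun hsum ⟨X, hMJ X hX⟩) ⟨Y, hMJ Y hY⟩
      simp only [Pi.add_apply, Finset.sum_apply, Pi.zero_apply] at h1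
      rw [sum_eq_zero (s := (univ : Finset (Sym2 (Fin 4)))) fun e _ => hXM e (y e) (hy e) X Y hX hY,
        add_zero, add_comm] at h1
      rw [← h1]
      congr 1
      · refine sum_congr rfl fun i _ => ?_
        show _ = frm (sqm (tht w i (cd i).1 (cd i).2)) X Y
        rw [frm_sqm]
      · refine sum_congr rfl fun i _ => ?_
        rw [hgr i]
        rfl
    obtain ⟨i, hi, m, hm, z, e, e', hB⟩ := hCLA hR S jj (fun i => (cd i).1) (fun i => (cd i).2) hSn
      (fun i hi => hA' i (hSA hi)) hRLN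
    exact ⟨i, hi, m, hm, _, z, e, e', hB, rfl⟩
  have hH2 : ∀ (g : Fin 4 → LL J) (y : Sym2 (Fin 4) → LL J), (∀ i, g i ∈ GaS J (w i)) →
      (∀ e, y e ∈ XsS J (xe w e)) → ∑ i, g i + ∑ e, y e = 0 →
      ∀ i, ∃ z : Fin 4 → LL J, (∀ l, z l ∈ GaS J (w i) ⊓ XsS J (xe w s(i, l))) ∧ g i = ∑ l, z l := by
    intro g y hg hy hsum i
    choose r hr hgr using fun i => mem_GaS.1 (hg i)
    have h0 : ∀ X ∈ Z1 (MM G u w), ∀ Y ∈ Z1 (MM G u w), ∑ k, frm (r k) X Y = 0 := by
      intro X hX Y hY
      have h1 := congrFun (congrFun hsum ⟨X, hMJ X hX⟩) ⟨Y, hMJ Y hY⟩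
      simp only [Pi.add_apply, Finset.sum_apply, Pi.zero_apply] at h1
      rw [sum_eq_zero (s := (univ : Finset (Sym2 (Fin 4)))) fun e _ => hXM e (y e) (hy e) X Y hX hY,
        add_zero] at h1
      rw [← h1]
      refine sum_congr rfl fun k _ => ?_
      rw [hgr k]
      rfl
    have h1 := hDGM hR r hr h0 i
    obtain ⟨μ, c, hμ, -, hFE⟩ := hLCF hR i (r i) (hr i) h1
    refine ⟨fun l => rf J (dtm (ed (w i) (w l)) (μ l) + c l • sqm (ed (w i) (w l))), fun l => ⟨?_, ?_⟩, ?_⟩
    · refine ⟨_, at_add (at_dtm (fun e he => ?_) (hμ l)) (at_smul _ (hsqAt _ _)), rfl⟩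
      rw [ed_ne he]
      exact Sym2.mem_mk_left _ _
    · exact ⟨_, _, rfl⟩
    · rw [hgr i, rf_FE hFE, rf_sum]
  have hH3 : ∀ y : Sym2 (Fin 4) → LL J, (∀ e, y e ∈ XsS J (xe w e)) → ∑ e, y e = 0 →
      ∃ m : Sym2 (Fin 4) → Sym2 (Fin 4) → ZMod 2, (∀ e f, m e f = m f e) ∧
        ∀ e, y e = ∑ f, m e f • rf J (dtm (xe w e) (xe w f)) := by
    intro y hy hsum
    -- dual cycles
    have hZex : ∀ e : Sym2 (Fin 4), ∃ Z : Chain α, Z ∈ Z1 J ∧ (e.map w ∈ J.edgeSet → Z (e.map w) = 1) ∧
        (∀ f, f ≠ e → Z (f.map w) = 0) ∧ (e.map w ∉ J.edgeSet → Z = 0) := by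
      intro e
      by_cases he : e.map w ∈ J.edgeSet
      · induction e using Sym2.ind with
        | _ a b =>
          obtain ⟨Z, h1, h2, h3⟩ := hCWC.dual hR a b ((hJadj a b).1 he)
          refine ⟨Z, h1, fun _ => h2, fun f hf => ?_, fun h => absurd he h⟩
          induction f using Sym2.ind with
          | _ k l => exact h3 k l fun h => hf (Sym2.map.injective hR.inj h)
      · exact ⟨0, Submodule.zero_mem _, fun h => absurd h he, fun _ _ => rfl, fun _ => rfl⟩
    choose Z hZ1 hZe hZf hZ0 using hZex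
    have hvex : ∀ e : Sym2 (Fin 4), ∃ (v : Chain α) (c : ZMod 2),
        y e = rf J (dtm (xe w e) v + c • sqm (xe w e)) ∧ (e.map w ∉ J.edgeSet → v = 0 ∧ c = 0) := by
      intro e
      obtain ⟨v, c, h1⟩ := mem_XsS.1 (hy e)
      by_cases he : e.map w ∈ J.edgeSet
      · exact ⟨v, c, h1, fun h => absurd he h⟩
      · refine ⟨0, 0, ?_, fun _ => ⟨rfl, rfl⟩⟩
        rw [h1]
        funext X Y
        rw [xs_eval, xs_eval, pr_xe, pr_xe, hbad e he X, hbad e he Y]
        simp
    choose v c hyv hv0 using hvex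
    have hkey : ∀ X Y : Chain α, X ∈ Z1 J → Y ∈ Z1 J →
        ∑ e, (X (e.map w) * pr (v e) Y + pr (v e) X * Y (e.map w) + c e * (X (e.map w) * Y (e.map w))) = 0 := by
      intro X Y hX hY
      have h1 := congrFun (congrFun hsum ⟨X, hX⟩) ⟨Y, hY⟩
      simp only [Finset.sum_apply, Pi.zero_apply] at h1
      rw [← h1]
      refine sum_congr rfl fun e _ => ?_
      rw [hyv e, xs_eval, pr_xe, pr_xe]
    -- (1)
    have h1 : ∀ e, e.map w ∈ J.edgeSet → ∀ Y ∈ Z1 (MM G u w), pr (v e) Y = 0 := by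
      intro e he Y hY
      have h2 := hkey (Z e) Y (hZ1 e) (hMJ Y hY)
      rw [sum_eq_single e] at h2
      · rw [hZe e he, hM0 e Y hY] at h2
        simpa using h2
      · intro f _ hf
        rw [hZf e f hf, hM0 f Y hY]
        ring
      · exact fun h => absurd (mem_univ _) h
    -- (2)
    have h2 : ∀ e, e.map w ∈ J.edgeSet → ∀ X ∈ Z1 J, pr (v e) X = ∑ f, X (f.map w) * pr (v e) (Z f) := by
      intro e he X hX
      have hmem : X + ∑ f : Sym2 (Fin 4), X (f.map w) • Z f ∈ Z1 (MM G u w) := by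
        rw [hCWC.mem]
        refine ⟨Submodule.add_mem _ hX (Submodule.sum_mem _ fun f _ => Submodule.smul_mem _ _ (hZ1 f)),
          fun i j => ?_⟩
        rw [Pi.add_apply, Finset.sum_apply, sum_eq_single s(i, j)]
        · rw [Pi.smul_apply, smul_eq_mul, Sym2.map_mk]
          by_cases hg : (s(i, j) : Sym2 (Fin 4)).map w ∈ J.edgeSet
          · have h3 := hZe _ hg
            rw [Sym2.map_mk] at h3
            rw [h3, mul_one]
            exact CharTwo.add_self_eq_zero _
          · have h3 := hbad _ hg ⟨X, hX⟩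
            rw [Sym2.map_mk] at h3
            rw [show X s(w i, w j) = 0 from h3]
            ring
        · intro f _ hf
          rw [Pi.smul_apply, smul_eq_mul]
          have h3 := hZf f s(i, j) hf.symm
          rw [Sym2.map_mk] at h3
          rw [h3, mul_zero]
        · exact fun h => absurd (mem_univ _) h
      have h3 := h1 e he _ hmem
      rw [pr_add', pr_sum'] at h3
      simp only [pr_smul'] at h3
      exact CharTwo.add_eq_zero.1 h3
    -- (3)
    have h3 : ∀ e, c e = 0 := by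
      intro e
      by_cases he : e.map w ∈ J.edgeSet
      · have h4 := hkey (Z e) (Z e) (hZ1 e) (hZ1 e)
        rw [sum_eq_single e] at h4
        · rw [hZe e he] at h4
          have e2 : (2 : ZMod 2) = 0 := rfl
          linear_combination h4 - pr (v e) (Z e) * e2
        · intro f _ hf
          rw [hZf e f hf]
          ring
        · exact fun h => absurd (mem_univ _) h
      · exact (hv0 e he).2
    -- (4)
    have h4 : ∀ e f, pr (v e) (Z f) = pr (v f) (Z e) := by
      intro e f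
      by_cases hef : e = f
      · rw [hef]
      by_cases he : e.map w ∈ J.edgeSet
      · by_cases hf : f.map w ∈ J.edgeSet
        · have h5 := hkey (Z e) (Z f) (hZ1 e) (hZ1 f)
          have hsub : ∑ g, ((Z e) (g.map w) * pr (v g) (Z f) + pr (v g) (Z e) * (Z f) (g.map w) +
              c g * ((Z e) (g.map w) * (Z f) (g.map w))) =
              ∑ g ∈ ({e, f} : Finset (Sym2 (Fin 4))), ((Z e) (g.map w) * pr (v g) (Z f) +
                pr (v g) (Z e) * (Z f) (g.map w) + c g * ((Z e) (g.map w) * (Z f) (g.map w))) := by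
            symm
            apply sum_subset (subset_univ _)
            intro g _ hg
            rw [mem_insert, Finset.mem_singleton, not_or] at hg
            rw [hZf e g hg.1, hZf f g hg.2]
            ring
          rw [hsub, sum_pair hef, hZe e he, hZe f hf, hZf e f (Ne.symm hef), hZf f e hef] at h5
          have h6 : pr (v e) (Z f) + pr (v f) (Z e) = 0 := by
            rw [← h5]
            ring
          exact CharTwo.add_eq_zero.1 h6
        · rw [hZ0 f hf, (hv0 f hf).1, pr_zero, zero_pr]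
      · rw [hZ0 e he, (hv0 e he).1, pr_zero, zero_pr]
    refine ⟨fun e f => pr (v e) (Z f), h4, fun e => ?_⟩
    rw [hyv e]
    funext X Y
    rw [xs_eval, h3 e, pr_xe, pr_xe, Finset.sum_apply, Finset.sum_apply]
    have hD : ∀ f, (pr (v e) (Z f) • rf J (dtm (xe w e) (xe w f))) X Y =
        pr (v e) (Z f) * (X.1 (e.map w) * Y.1 (f.map w) + X.1 (f.map w) * Y.1 (e.map w)) := by
      intro f
      show pr (v e) (Z f) * frm (dtm (xe w e) (xe w f)) X.1 Y.1 = _
      rw [frm_dtm, pr_xe, pr_xe, pr_xe, pr_xe]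
    simp only [hD]
    by_cases he : e.map w ∈ J.edgeSet
    · rw [h2 e he X.1 X.2, h2 e he Y.1 Y.2, mul_sum, sum_mul, zero_mul, add_zero, ← sum_add_distrib]
      refine sum_congr rfl fun f _ => by ring
    · rw [(hv0 e he).1]
      simp [zero_pr]
  -- the data
  refine ⟨{
    K := KJ G u w
    Ga := fun i => GaS J (w i)
    Xs := fun e => XsS J (xe w e)
    D := fun e f => rf J (dtm (xe w e) (xe w f))
    A := A
    j := jj
    th := fun i => rf J (sqm (tht w i (cd i).1 (cd i).2))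
    bp := fun i m ϑ => ∃ z e e', Bta G u w i (jj i) m (jj m) z e e' ∧ ϑ = rf J (sqm (tht w i z e))
    Kd := fun e he => hKJM.diag e he
    GK := hGK
    XK := hXK
    DX := fun e f => dtm_XsS J _ _
    DS := fun e f => by
      have h1 : dtm (xe w e) (xe w f) = dtm (xe w f) (xe w e) := by
        funext a b
        simp only [dtm]
        ring
      rw [h1]
    D0 := fun e => by
      funext X Y
      show frm (dtm (xe w e) (xe w e)) X.1 Y.1 = 0
      rw [frm_dtm]
      exact CharTwo.add_self_eq_zero _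
    hj := fun i hi => (hA' i hi).ij.symm
    hth := hthK
    dec := hdec
    hbp := by
      rintro i m ϑ ⟨z, e, e', hB, rfl⟩
      refine ⟨hB.im, hAm _ _ _ _ hB.ti, hAm _ _ _ _ hB.tm, hbphalf i z e hB.ti, ?_⟩
      obtain ⟨g, hg, y, hy, h1⟩ := hbphalf m z e' hB.tm
      refine ⟨g, hg, y, hy, ?_⟩
      rw [h1]
      congr 2
      funext X Y
      show frm (sqm (tht w m z e')) X.1 Y.1 = frm (sqm (tht w i z e)) X.1 Y.1
      have hzu : z ≠ u := fun h => u_CC (h ▸ hB.ti.cC)
      have hnb : ∀ x, J.Adj z x ↔ x = w i ∨ x = w m ∨ x = e ∨ x = e' := by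
        intro x
        simp only [hJ, del, Finset.mem_singleton]
        rw [hB.nz x]
        constructor
        · exact fun h => h.1
        · intro h
          refine ⟨h, hzu, ?_⟩
          rcases h with h | h | h | h
          · rw [h]
            exact hu i
          · rw [h]
            exact hu m
          · rw [h]
            exact fun h' => u_CC (h' ▸ hB.ti.dC)
          · rw [h]
            exact fun h' => u_CC (h' ▸ hB.tm.dC)
      have hnn : [w i, w m, e, e'].Nodup := by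
        simp only [List.nodup_cons, List.mem_cons, List.not_mem_nil, or_false, not_or,
          List.nodup_nil, and_true, not_false_eq_true]
        exact ⟨⟨fun h => hB.im (hR.inj h), fun h => not_CC i (h ▸ hB.ti.dC), fun h => not_CC i (h ▸ hB.tm.dC)⟩,
          ⟨fun h => not_CC m (h ▸ hB.ti.dC), fun h => not_CC m (h ▸ hB.tm.dC)⟩, hB.dd⟩
      rw [frm_sqm, frm_sqm, pr_tht, pr_tht, pr_tht, pr_tht, tht_common hnn hnb X.2, tht_common hnn hnb Y.2]
    H1 := hH1
    H2 := hH2
    H3 := hH3 }, rfl, fun e f => rfl, fun i m ϑ h => h⟩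

end DL
end

section
/-!
MP_3ff0f8_gt, R1A block, module LIN: linear algebra over the six pairs.
-/
open SimpleGraph Finset

namespace DL

set_option linter.unusedSectionVars false

namespace LINM

/-! ## The index avoided by two pairs with a common index -/

theorem avoid4 : ∀ a b c d : Fin 4, (∃ v, (v = a ∨ v = b) ∧ (v = c ∨ v = d)) →
    ∃ p : Fin 4, ¬ (p = a ∨ p = b) ∧ ¬ (p = c ∨ p = d) := by decide

theorem avoid (e f : Sym2 (Fin 4)) (v : Fin 4) (he : v ∈ e) (hf : v ∈ f) :
    ∃ p : Fin 4, p ∉ e ∧ p ∉ f := by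
  revert he hf
  refine Sym2.inductionOn₂ e f fun a b c d => ?_
  intro he hf
  rw [Sym2.mem_iff] at he hf
  obtain ⟨p, h1, h2⟩ := avoid4 a b c d ⟨v, he, hf⟩
  exact ⟨p, fun h => h1 (Sym2.mem_iff.mp h), fun h => h2 (Sym2.mem_iff.mp h)⟩

variable {L : Type} [AddCommGroup L] [Module (ZMod 2) L]

theorem dbl (a : L) : a + a = 0 := by
  have h : (2 : ZMod 2) • a = a + a := two_smul _ a
  rw [← h, show (2 : ZMod 2) = 0 from rfl, zero_smul]

theorem plc_add (e : Sym2 (Fin 4)) (a b : L) : plc e (a + b) = plc e a + plc e b := by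
  funext f
  rw [Pi.add_apply]
  unfold plc
  split_ifs
  · rfl
  · rw [add_zero]

theorem plc_zero (e : Sym2 (Fin 4)) : plc e (0 : L) = 0 := by
  funext f
  unfold plc
  split_ifs <;> rfl

theorem plc_sum {ι : Type} (s : Finset ι) (e : Sym2 (Fin 4)) (a : ι → L) :
    plc e (∑ i ∈ s, a i) = ∑ i ∈ s, plc e (a i) := by
  classical
  induction s using Finset.induction_on with
  | empty => rw [sum_empty, sum_empty, plc_zero]
  | insert i s hi ih => rw [sum_insert hi, sum_insert hi, plc_add, ih]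

theorem sum_plc (e : Sym2 (Fin 4)) (a : L) : ∑ f, plc e a f = a := by
  simp only [plc, sum_ite_eq', mem_univ, if_true]

theorem eq_sum_plc (y : Sym2 (Fin 4) → L) : y = ∑ e, plc e (y e) := by
  funext f
  rw [Finset.sum_apply]
  simp only [plc, sum_ite_eq, mem_univ, if_true]

section T

variable {K : Sym2 (Fin 4) → Submodule (ZMod 2) L}

theorem tsum {ι : Type} (s : Finset ι) (r : ι → Sym2 (Fin 4) → L) (h : ∀ i ∈ s, TRel K (r i)) :
    TRel K (∑ i ∈ s, r i) := by
  classical
  induction s using Finset.induction_on with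
  | empty => rw [sum_empty]; exact TRel.zero
  | insert i s hi ih =>
    rw [sum_insert hi]
    exact (h i (mem_insert_self i s)).add (ih fun k hk => h k (mem_insert_of_mem hk))

theorem tot {t : Sym2 (Fin 4) → L} (h : TRel K t) : ∑ e, t e = 0 := by
  obtain ⟨u, -, -, h3, h4⟩ := h
  rw [sum_congr rfl fun e _ => h4 e, sum_comm]
  exact sum_eq_zero fun p _ => h3 p

/-- MOVE between two pairs with a common index -/
theorem mv {e f : Sym2 (Fin 4)} {a : L} (v : Fin 4) (he : v ∈ e) (hf : v ∈ f) (hae : a ∈ K e)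
    (haf : a ∈ K f) : TRel K (plc e a + plc f a) := by
  obtain ⟨p, h1, h2⟩ := avoid e f v he hf
  exact TRel.move hae haf (dbl a) h1 h2

/-- transitivity -/
theorem tr {a b c : Sym2 (Fin 4) → L} (h : TRel K (a + b)) (h' : TRel K (b + c)) : TRel K (a + c) := by
  have h1 := h.add h'
  have h2 : a + b + (b + c) = a + c := by
    rw [add_assoc, ← add_assoc b b c, dbl b, zero_add]
  rwa [h2] at h1

end T

theorem LDzero (D : LD L) {e : Sym2 (Fin 4)} (he : e.IsDiag) {x : L} (hx : x ∈ D.K e) : x = 0 := by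
  rw [D.Kd e he] at hx
  exact (Submodule.mem_bot _).mp hx

/-! ## Normal form -/

/-- the family of the data `G`, `y`, `S` -/
def Fam (D : LD L) (h : Fin 4 → Sym2 (Fin 4)) (G : Fin 4 → L) (y : Sym2 (Fin 4) → L)
    (c : Fin 4 → ZMod 2) : Sym2 (Fin 4) → L :=
  ∑ k, plc (h k) (G k) + y + ∑ i, plc s(i, D.j i) (c i • D.th i)

def NF (D : LD L) (h : Fin 4 → Sym2 (Fin 4)) (r : Sym2 (Fin 4) → L) : Prop :=
  ∃ (G : Fin 4 → L) (y : Sym2 (Fin 4) → L) (c : Fin 4 → ZMod 2), (∀ k, G k ∈ D.Ga k) ∧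
    (∀ e, y e ∈ D.Xs e) ∧ (∀ i, c i ≠ 0 → i ∈ D.A) ∧ TRel D.K (r + Fam D h G y c)

theorem Fam_add (D : LD L) (h : Fin 4 → Sym2 (Fin 4)) (G G' : Fin 4 → L) (y y' : Sym2 (Fin 4) → L)
    (c c' : Fin 4 → ZMod 2) :
    Fam D h (G + G') (y + y') (c + c') = Fam D h G y c + Fam D h G' y' c' := by
  unfold Fam
  simp only [Pi.add_apply, plc_add, add_smul, sum_add_distrib]
  abel

theorem NF.add {D : LD L} {h : Fin 4 → Sym2 (Fin 4)} {r r' : Sym2 (Fin 4) → L} (hr : NF D h r)
    (hr' : NF D h r') : NF D h (r + r') := by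
  obtain ⟨G, y, c, h1, h2, h3, h4⟩ := hr
  obtain ⟨G', y', c', h1', h2', h3', h4'⟩ := hr'
  refine ⟨G + G', y + y', c + c', fun k => (D.Ga k).add_mem (h1 k) (h1' k),
    fun e => (D.Xs e).add_mem (h2 e) (h2' e), fun i hi => ?_, ?_⟩
  · by_cases h0 : c i = 0
    · refine h3' i fun h0' => hi ?_
      rw [Pi.add_apply, h0, h0', add_zero]
    · exact h3 i h0
  · have h5 := h4.add h4'
    rw [Fam_add]
    have h6 : r + r' + (Fam D h G y c + Fam D h G' y' c') =
        r + Fam D h G y c + (r' + Fam D h G' y' c') := by abel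
    rw [h6]
    exact h5

theorem NF.zero (D : LD L) (h : Fin 4 → Sym2 (Fin 4)) : NF D h 0 := by
  refine ⟨0, 0, 0, fun k => (D.Ga k).zero_mem, fun e => (D.Xs e).zero_mem,
    fun i hi => absurd rfl hi, ?_⟩
  have h1 : Fam D h 0 0 0 = 0 := by
    unfold Fam
    simp [plc_zero]
  rw [h1, add_zero]
  exact TRel.zero

theorem NF.sum {D : LD L} {h : Fin 4 → Sym2 (Fin 4)} {ι : Type} (s : Finset ι)
    (r : ι → Sym2 (Fin 4) → L) (hr : ∀ i ∈ s, NF D h (r i)) : NF D h (∑ i ∈ s, r i) := by
  classical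
  induction s using Finset.induction_on with
  | empty => rw [sum_empty]; exact NF.zero D h
  | insert i s hi ih =>
    rw [sum_insert hi]
    exact (hr i (mem_insert_self i s)).add (ih fun k hk => hr k (mem_insert_of_mem hk))

/-- the part in `Ga k` -/
theorem NF.ga {D : LD L} {h : Fin 4 → Sym2 (Fin 4)} (hh : ∀ k, k ∈ h k ∧ ¬ (h k).IsDiag)
    (e : Sym2 (Fin 4)) (k : Fin 4) (g : L) (hg : g ∈ D.Ga k) (hg' : g ∈ D.K e) : NF D h (plc e g) := by
  by_cases hd : e.IsDiag
  · rw [LDzero D hd hg', plc_zero]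
    exact NF.zero D h
  have key : TRel D.K (plc e g + plc (h k) g) := by
    by_cases hk : k ∈ e
    · exact mv k hk (hh k).1 hg' (D.GK _ (hh k).2 k (hh k).1 hg)
    · revert hd hk hg'
      refine Sym2.inductionOn e fun a b => ?_
      intro hg' hd hk
      have hka : a ≠ k := fun h => hk (h ▸ Sym2.mem_mk_left a b)
      have h1 : g ∈ D.K s(a, k) := D.GK _ (fun h => hka (Sym2.mk_isDiag_iff.mp h)) k
        (Sym2.mem_mk_right a k) hg
      have h2 : TRel D.K (plc s(a, b) g + plc s(a, k) g) :=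
        mv a (Sym2.mem_mk_left a b) (Sym2.mem_mk_left a k) hg' h1
      have h3 : TRel D.K (plc s(a, k) g + plc (h k) g) :=
        mv k (Sym2.mem_mk_right a k) (hh k).1 h1 (D.GK _ (hh k).2 k (hh k).1 hg)
      exact tr h2 h3
  refine ⟨Pi.single k g, 0, 0, fun l => ?_, fun e => (D.Xs e).zero_mem, fun i hi => absurd rfl hi, ?_⟩
  · by_cases hl : l = k
    · subst hl
      rw [Pi.single_eq_same]
      exact hg
    · rw [Pi.single_eq_of_ne hl]
      exact (D.Ga l).zero_mem
  · have h1 : Fam D h (Pi.single k g) 0 0 = plc (h k) g := by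
      unfold Fam
      rw [sum_eq_single k]
      · simp [plc_zero]
      · intro l _ hl
        rw [Pi.single_eq_of_ne hl, plc_zero]
      · intro h
        exact absurd (mem_univ k) h
    rw [h1]
    exact key

/-- the part in `Xs e` -/
theorem NF.xs {D : LD L} (h : Fin 4 → Sym2 (Fin 4)) (e : Sym2 (Fin 4)) (y : L) (hy : y ∈ D.Xs e) :
    NF D h (plc e y) := by
  refine ⟨0, plc e y, 0, fun k => (D.Ga k).zero_mem, fun f => ?_, fun i hi => absurd rfl hi, ?_⟩
  · unfold plc
    split_ifs with hf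
    · rw [hf]
      exact hy
    · exact (D.Xs f).zero_mem
  · have h1 : Fam D h 0 (plc e y) 0 = plc e y := by
      unfold Fam
      simp [plc_zero]
    rw [h1, dbl]
    exact TRel.zero

/-- the part of `th` -/
theorem NF.th {D : LD L} (h : Fin 4 → Sym2 (Fin 4)) (i : Fin 4) (ε : ZMod 2) (hi : ε ≠ 0 → i ∈ D.A) :
    NF D h (plc s(i, D.j i) (ε • D.th i)) := by
  refine ⟨0, 0, Pi.single i ε, fun k => (D.Ga k).zero_mem, fun e => (D.Xs e).zero_mem,
    fun k hk => ?_, ?_⟩
  · by_cases hki : k = i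
    · subst hki
      rw [Pi.single_eq_same] at hk
      exact hi hk
    · rw [Pi.single_eq_of_ne hki] at hk
      exact absurd rfl hk
  · have h1 : Fam D h 0 0 (Pi.single i ε) = plc s(i, D.j i) (ε • D.th i) := by
      unfold Fam
      rw [sum_eq_single (a := i) (f := fun k => plc s(k, D.j k) ((Pi.single i ε : Fin 4 → ZMod 2) k • D.th k))]
      · simp [plc_zero]
      · intro l _ hl
        rw [Pi.single_eq_of_ne hl, zero_smul, plc_zero]
      · intro h
        exact absurd (mem_univ i) h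
    rw [h1, dbl]
    exact TRel.zero

theorem NF.one {D : LD L} {h : Fin 4 → Sym2 (Fin 4)} (hh : ∀ k, k ∈ h k ∧ ¬ (h k).IsDiag)
    (e : Sym2 (Fin 4)) (x : L) (hx : x ∈ D.K e) : NF D h (plc e x) := by
  by_cases hd : e.IsDiag
  · rw [LDzero D hd hx, plc_zero]
    exact NF.zero D h
  revert hd hx
  refine Sym2.inductionOn e fun a b => ?_
  intro hx hd
  have hab : a ≠ b := fun h => hd (Sym2.mk_isDiag_iff.mpr h)
  obtain ⟨τ, y, ε, ε', h1, h2, h3, h4, h5⟩ := D.dec a b hab x hx
  rw [h5, plc_add, plc_add, plc_add, plc_sum]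
  refine ((NF.add (NF.sum _ _ fun k _ => NF.ga hh _ k _ (h1 k).1 (h1 k).2) (NF.xs h _ _ h2)).add ?_).add ?_
  · by_cases h0 : ε = 0
    · rw [h0, zero_smul, plc_zero]
      exact NF.zero D h
    · obtain ⟨h6, h7⟩ := h3 h0
      rw [← h7]
      exact NF.th h a ε fun _ => h6
  · by_cases h0 : ε' = 0
    · rw [h0, zero_smul, plc_zero]
      exact NF.zero D h
    · obtain ⟨h6, h7⟩ := h4 h0
      rw [show s(a, b) = s(b, a) from Sym2.eq_swap, ← h7]
      exact NF.th h b ε' fun _ => h6

/-! ## The end: `S` empty -/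

/-- `e` and `f` are different pairs without common index -/
def Opp (e f : Sym2 (Fin 4)) : Prop := ¬ e.IsDiag ∧ ¬ f.IsDiag ∧ ∀ v, ¬ (v ∈ e ∧ v ∈ f)

theorem Opp.symm {e f : Sym2 (Fin 4)} (h : Opp e f) : Opp f e :=
  ⟨h.2.1, h.1, fun v hv => h.2.2 v ⟨hv.2, hv.1⟩⟩

theorem sym_sum {K : Sym2 (Fin 4) → Submodule (ZMod 2) L} (a : Sym2 (Fin 4) → Sym2 (Fin 4) → L)
    (hs : ∀ e f, a e f = a f e) (h0 : ∀ e, a e e = 0)
    (ht : ∀ e f, TRel K (plc e (a e f) + plc f (a e f))) :
    TRel K (fun e => ∑ f, a e f) := by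
  classical
  let o : Sym2 (Fin 4) → Fin (Fintype.card (Sym2 (Fin 4))) := Fintype.equivFin _
  have ho : Function.Injective o := (Fintype.equivFin _).injective
  have h1 : (fun e => ∑ f, a e f) = ∑ e, ∑ f, if o e < o f then plc e (a e f) + plc f (a e f) else 0 := by
    have h2 : (fun e => ∑ f, a e f) = ∑ e, ∑ f, plc e (a e f) := by
      rw [eq_sum_plc (fun e => ∑ f, a e f)]
      exact sum_congr rfl fun e _ => plc_sum _ _ _
    have h3 : ∀ e f, plc e (a e f) = (if o e < o f then plc e (a e f) else 0) +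
        if o f < o e then plc e (a e f) else 0 := by
      intro e f
      rcases lt_trichotomy (o e) (o f) with h | h | h
      · rw [if_pos h, if_neg (lt_asymm h), add_zero]
      · have h4 := ho h
        subst h4
        rw [h0, plc_zero, if_neg (lt_irrefl _), add_zero]
      · rw [if_neg (lt_asymm h), if_pos h, zero_add]
    have h5 : ∑ e, ∑ f, (if o f < o e then plc e (a e f) else 0) =
        ∑ e, ∑ f, (if o e < o f then plc f (a e f) else 0) := by
      rw [sum_comm]
      refine sum_congr rfl fun e _ => sum_congr rfl fun f _ => ?_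
      rw [hs f e]
    rw [h2, sum_congr rfl fun e _ => sum_congr rfl fun f _ => h3 e f]
    simp only [sum_add_distrib]
    rw [h5, ← sum_add_distrib]
    refine sum_congr rfl fun e _ => ?_
    rw [← sum_add_distrib]
    refine sum_congr rfl fun f _ => ?_
    split_ifs
    · rfl
    · rw [add_zero]
  rw [h1]
  refine tsum _ _ fun e _ => tsum _ _ fun f _ => ?_
  split_ifs
  · exact ht e f
  · exact TRel.zero

theorem fin0 (D : LD L) (h : Fin 4 → Sym2 (Fin 4)) (hh : ∀ k, k ∈ h k ∧ ¬ (h k).IsDiag)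
    (G : Fin 4 → L) (y : Sym2 (Fin 4) → L) (hG : ∀ k, G k ∈ D.Ga k) (hy : ∀ e, y e ∈ D.Xs e)
    (h0 : ∑ k, G k + ∑ e, y e = 0) :
    ∃ (t : Sym2 (Fin 4) → L) (m : Sym2 (Fin 4) → Sym2 (Fin 4) → ZMod 2), TRel D.K t ∧
      (∀ e f, m e f = m f e) ∧ (∀ e f, m e f ≠ 0 → Opp e f) ∧
      ∑ k, plc (h k) (G k) + y = t + fun e => ∑ f, m e f • D.D e f := by
  classical
  choose z hz1 hz2 using D.H2 G y hG hy h0
  let y1 : Sym2 (Fin 4) → L := ∑ k, ∑ l, plc s(k, l) (z k l)
  have hy1 : ∀ e, y1 e ∈ D.Xs e := by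
    intro e
    show (∑ k, ∑ l, plc s(k, l) (z k l)) e ∈ D.Xs e
    rw [Finset.sum_apply]
    refine (D.Xs e).sum_mem fun k _ => ?_
    rw [Finset.sum_apply]
    refine (D.Xs e).sum_mem fun l _ => ?_
    unfold plc
    split_ifs with he
    · rw [he]
      exact (hz1 k l).2
    · exact (D.Xs e).zero_mem
  have ht1 : TRel D.K (∑ k, plc (h k) (G k) + y1) := by
    have h1 : ∑ k, plc (h k) (G k) + y1 = ∑ k, ∑ l, (plc (h k) (z k l) + plc s(k, l) (z k l)) := by
      simp only [sum_add_distrib]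
      congr 1
      refine sum_congr rfl fun k _ => ?_
      rw [hz2 k, plc_sum]
    rw [h1]
    refine tsum _ _ fun k _ => tsum _ _ fun l _ => ?_
    by_cases hkl : k = l
    · have h2 : z k l = 0 := LDzero D (Sym2.mk_isDiag_iff.mpr hkl) (D.XK _ (hz1 k l).2)
      rw [h2, plc_zero, plc_zero, add_zero]
      exact TRel.zero
    · exact mv k (hh k).1 (Sym2.mem_mk_left k l) (D.GK _ (hh k).2 k (hh k).1 (hz1 k l).1)
        (D.XK _ (hz1 k l).2)
  have h2 : ∑ e, (y1 + y) e = 0 := by
    have h3 := tot ht1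
    have h4 : ∑ e, (∑ k, plc (h k) (G k) + y1) e = ∑ k, G k + ∑ e, y1 e := by
      simp only [Pi.add_apply, sum_add_distrib]
      congr 1
      simp only [Finset.sum_apply]
      rw [sum_comm]
      exact sum_congr rfl fun k _ => sum_plc _ _
    rw [h4] at h3
    have h5 : ∑ e, (y1 + y) e = ∑ e, y1 e + ∑ e, y e := by
      simp only [Pi.add_apply, sum_add_distrib]
    rw [h5]
    have h6 : ∑ e, y1 e + ∑ e, y e = (∑ k, G k + ∑ e, y1 e) + (∑ k, G k + ∑ e, y e) := by
      have h7 := dbl (∑ k, G k)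
      calc ∑ e, y1 e + ∑ e, y e = (∑ k, G k + ∑ k, G k) + (∑ e, y1 e + ∑ e, y e) := by
            rw [h7, zero_add]
        _ = _ := by abel
    rw [h6, h3, h0, add_zero]
  obtain ⟨m, hm1, hm2⟩ := D.H3 (y1 + y) (fun e => (D.Xs e).add_mem (hy1 e) (hy e)) h2
  let m1 : Sym2 (Fin 4) → Sym2 (Fin 4) → ZMod 2 := fun e f => if Opp e f then m e f else 0
  let m2 : Sym2 (Fin 4) → Sym2 (Fin 4) → ZMod 2 := fun e f => if Opp e f then 0 else m e f
  have hm12 : ∀ e f, m e f = m2 e f + m1 e f := by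
    intro e f
    show m e f = (if Opp e f then 0 else m e f) + if Opp e f then m e f else 0
    split_ifs
    · rw [zero_add]
    · rw [add_zero]
  have hsy : ∀ e f, Opp e f ↔ Opp f e := fun e f => ⟨Opp.symm, Opp.symm⟩
  have ht2 : TRel D.K (fun e => ∑ f, m2 e f • D.D e f) := by
    refine sym_sum (fun e f => m2 e f • D.D e f) (fun e f => ?_) (fun e => ?_) fun e f => ?_
    · show m2 e f • D.D e f = m2 f e • D.D f e
      rw [D.DS e f]
      congr 1
      show (if Opp e f then 0 else m e f) = if Opp f e then 0 else m f e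
      rw [hm1 e f]
      by_cases h3 : Opp e f
      · rw [if_pos h3, if_pos h3.symm]
      · rw [if_neg h3, if_neg fun h4 => h3 h4.symm]
    · show m2 e e • D.D e e = 0
      rw [D.D0, smul_zero]
    · show TRel D.K (plc e (m2 e f • D.D e f) + plc f (m2 e f • D.D e f))
      have hxe : m2 e f • D.D e f ∈ D.K e := (D.K e).smul_mem _ (D.XK _ (D.DX e f))
      have hxf : m2 e f • D.D e f ∈ D.K f := by
        rw [D.DS e f]
        exact (D.K f).smul_mem _ (D.XK _ (D.DX f e))
      by_cases h3 : Opp e f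
      · have h4 : m2 e f = 0 := if_pos h3
        rw [h4, zero_smul, plc_zero, plc_zero, add_zero]
        exact TRel.zero
      by_cases hde : e.IsDiag
      · rw [LDzero D hde hxe, plc_zero, plc_zero, add_zero]
        exact TRel.zero
      by_cases hdf : f.IsDiag
      · rw [LDzero D hdf hxf, plc_zero, plc_zero, add_zero]
        exact TRel.zero
      have h5 : ∃ v, v ∈ e ∧ v ∈ f := by
        by_contra hcon
        exact h3 ⟨hde, hdf, fun v hv => hcon ⟨v, hv⟩⟩
      obtain ⟨v, hv1, hv2⟩ := h5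
      exact mv v hv1 hv2 hxe hxf
  refine ⟨(∑ k, plc (h k) (G k) + y1) + fun e => ∑ f, m2 e f • D.D e f, m1, ht1.add ht2, fun e f => ?_,
    fun e f hne => ?_, ?_⟩
  · show (if Opp e f then m e f else 0) = if Opp f e then m f e else 0
    rw [hm1 e f]
    by_cases h3 : Opp e f
    · rw [if_pos h3, if_pos h3.symm]
    · rw [if_neg h3, if_neg fun h4 => h3 h4.symm]
  · by_contra h3
    exact hne (if_neg h3)
  · have h3 : (fun e => ∑ f, m2 e f • D.D e f) + (fun e => ∑ f, m1 e f • D.D e f) = y1 + y := by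
      funext e
      rw [hm2 e, Pi.add_apply, ← sum_add_distrib]
      refine sum_congr rfl fun f _ => ?_
      rw [hm12 e f, add_smul]
    rw [add_assoc, h3]
    have h4 := dbl y1
    calc ∑ k, plc (h k) (G k) + y = ∑ k, plc (h k) (G k) + y + (y1 + y1) := by rw [h4, add_zero]
      _ = _ := by abel

/-! ## The induction -/

/-- the family of a pair in `E` -/
def bq (D : LD L) (q : Fin 4 × Fin 4) (x : L) : Sym2 (Fin 4) → L :=
  fun e => if e = s(q.1, D.j q.1) ∨ e = s(q.2, D.j q.2) then x else 0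

def Good (D : LD L) (S : Finset (Fin 4)) (r : Sym2 (Fin 4) → L) : Prop :=
  ∃ (t : Sym2 (Fin 4) → L) (m : Sym2 (Fin 4) → Sym2 (Fin 4) → ZMod 2) (E : Finset (Fin 4 × Fin 4))
    (ϑ : Fin 4 × Fin 4 → L), TRel D.K t ∧ (∀ e f, m e f = m f e) ∧ (∀ e f, m e f ≠ 0 → Opp e f) ∧
    (∀ q ∈ E, D.bp q.1 q.2 (ϑ q) ∧ [q.1, D.j q.1, q.2, D.j q.2].Nodup) ∧
    (∀ q ∈ E, ∀ q' ∈ E, q ≠ q' → [q.1, q.2, q'.1, q'.2].Nodup) ∧
    (∀ q ∈ E, q.1 ∈ S ∧ q.2 ∈ S) ∧
    r = t + (fun e => ∑ f, m e f • D.D e f) + ∑ q ∈ E, bq D q (ϑ q)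

theorem Good.tadd {D : LD L} {S : Finset (Fin 4)} {r t' : Sym2 (Fin 4) → L} (h : Good D S r)
    (ht' : TRel D.K t') : Good D S (t' + r) := by
  obtain ⟨t, m, E, ϑ, h1, h2, h3, h4, h5, h6, h7⟩ := h
  refine ⟨t' + t, m, E, ϑ, ht'.add h1, h2, h3, h4, h5, h6, ?_⟩
  rw [h7]
  abel

theorem Good.mono {D : LD L} {S S' : Finset (Fin 4)} {r : Sym2 (Fin 4) → L} (h : Good D S r)
    (hS : S ⊆ S') : Good D S' r := by
  obtain ⟨t, m, E, ϑ, h1, h2, h3, h4, h5, h6, h7⟩ := h
  exact ⟨t, m, E, ϑ, h1, h2, h3, h4, h5, fun q hq => ⟨hS (h6 q hq).1, hS (h6 q hq).2⟩, h7⟩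

theorem step (D : LD L) (h : Fin 4 → Sym2 (Fin 4)) (hh : ∀ k, k ∈ h k ∧ ¬ (h k).IsDiag) (n : ℕ) :
    ∀ S : Finset (Fin 4), S.card ≤ n → S ⊆ D.A → ∀ (G : Fin 4 → L) (y : Sym2 (Fin 4) → L),
    (∀ k, G k ∈ D.Ga k) → (∀ e, y e ∈ D.Xs e) → ∑ k, G k + ∑ e, y e + ∑ i ∈ S, D.th i = 0 →
    Good D S (∑ k, plc (h k) (G k) + y + ∑ i ∈ S, plc s(i, D.j i) (D.th i)) := by
  classical
  induction n with
  | zero =>
    intro S hS hSA G y hG hy h0
    have hS0 : S = ∅ := card_eq_zero.mp (Nat.le_zero.mp hS)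
    subst hS0
    rw [sum_empty, add_zero] at h0
    obtain ⟨t, m, h1, h2, h3, h4⟩ := fin0 D h hh G y hG hy h0
    refine ⟨t, m, ∅, fun _ => 0, h1, h2, h3, by simp, by simp, by simp, ?_⟩
    rw [sum_empty, sum_empty, add_zero, add_zero, h4]
  | succ n ih =>
    intro S hS hSA G y hG hy h0
    rcases S.eq_empty_or_nonempty with hS0 | hSne
    · subst hS0
      exact ih ∅ (by simp) hSA G y hG hy h0
    obtain ⟨i, hi, m, hm, ϑ, hb⟩ := D.H1 S hSA hSne G y hG hy h0
    obtain ⟨him, -, -, ⟨g, hg, y1, hy1, h1⟩, ⟨g', hg', y2, hy2, h2⟩⟩ := D.hbp i m ϑ hb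
    have hiA := hSA hi
    have hmA := hSA hm
    have hndi : ¬ (s(i, D.j i) : Sym2 (Fin 4)).IsDiag := fun hd =>
      D.hj i hiA (Sym2.mk_isDiag_iff.mp hd).symm
    have hndm : ¬ (s(m, D.j m) : Sym2 (Fin 4)).IsDiag := fun hd =>
      D.hj m hmA (Sym2.mk_isDiag_iff.mp hd).symm
    let S' := (S.erase i).erase m
    have hmS : m ∈ S.erase i := mem_erase.mpr ⟨him.symm, hm⟩
    have hsumL : ∑ k ∈ S, D.th k = ∑ k ∈ S', D.th k + D.th m + D.th i := by
      rw [← sum_erase_add _ _ hi, ← sum_erase_add _ _ hmS]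
    have hsumP : ∑ k ∈ S, plc s(k, D.j k) (D.th k) = ∑ k ∈ S', plc s(k, D.j k) (D.th k) +
        plc s(m, D.j m) (D.th m) + plc s(i, D.j i) (D.th i) := by
      rw [← sum_erase_add _ _ hi, ← sum_erase_add _ _ hmS]
    have hS' : S'.card ≤ n := by
      have h3 : S'.card < (S.erase i).card := card_erase_lt_of_mem hmS
      have h4 : (S.erase i).card < S.card := card_erase_lt_of_mem hi
      omega
    have hS'S : S' ⊆ S := (erase_subset _ _).trans (erase_subset _ _)
    let G' : Fin 4 → L := G + Pi.single i g + Pi.single m g'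
    let y' : Sym2 (Fin 4) → L := y + plc s(i, D.j i) y1 + plc s(m, D.j m) y2
    have hG' : ∀ k, G' k ∈ D.Ga k := by
      intro k
      show G k + (Pi.single i g : Fin 4 → L) k + (Pi.single m g' : Fin 4 → L) k ∈ D.Ga k
      refine (D.Ga k).add_mem ((D.Ga k).add_mem (hG k) ?_) ?_
      · by_cases hk : k = i
        · subst hk
          rw [Pi.single_eq_same]
          exact hg
        · rw [Pi.single_eq_of_ne hk]
          exact (D.Ga k).zero_mem
      · by_cases hk : k = m
        · subst hk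
          rw [Pi.single_eq_same]
          exact hg'
        · rw [Pi.single_eq_of_ne hk]
          exact (D.Ga k).zero_mem
    have hy' : ∀ e, y' e ∈ D.Xs e := by
      intro e
      show y e + plc s(i, D.j i) y1 e + plc s(m, D.j m) y2 e ∈ D.Xs e
      refine (D.Xs e).add_mem ((D.Xs e).add_mem (hy e) ?_) ?_
      · unfold plc
        split_ifs with he
        · rw [he]
          exact hy1
        · exact (D.Xs e).zero_mem
      · unfold plc
        split_ifs with he
        · rw [he]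
          exact hy2
        · exact (D.Xs e).zero_mem
    have hG's : ∑ k, G' k = ∑ k, G k + g + g' := by
      show ∑ k, (G k + (Pi.single i g : Fin 4 → L) k + (Pi.single m g' : Fin 4 → L) k) = _
      rw [sum_add_distrib, sum_add_distrib, Finset.sum_pi_single', Finset.sum_pi_single',
        if_pos (mem_univ _), if_pos (mem_univ _)]
    have hy's : ∑ e, y' e = ∑ e, y e + y1 + y2 := by
      show ∑ e, (y e + plc s(i, D.j i) y1 e + plc s(m, D.j m) y2 e) = _
      rw [sum_add_distrib, sum_add_distrib, sum_plc, sum_plc]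
    have h0' : ∑ k, G' k + ∑ e, y' e + ∑ k ∈ S', D.th k = 0 := by
      rw [hG's, hy's]
      rw [hsumL, h1, h2] at h0
      have h3 := dbl ϑ
      calc ∑ k, G k + g + g' + (∑ e, y e + y1 + y2) + ∑ k ∈ S', D.th k
          = ∑ k, G k + g + g' + (∑ e, y e + y1 + y2) + ∑ k ∈ S', D.th k + (ϑ + ϑ) := by
            rw [h3, add_zero]
        _ = ∑ k, G k + ∑ e, y e + (∑ k ∈ S', D.th k + (ϑ + g' + y2) + (ϑ + g + y1)) := by abel
        _ = 0 := h0
    have IH := ih S' hS' (hS'S.trans hSA) G' y' hG' hy' h0'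
    -- the pieces
    have hϑi : ϑ ∈ D.K s(i, D.j i) := by
      have h3 : ϑ = D.th i + g + y1 := by
        rw [h1]
        have h4 := dbl g
        have h5 := dbl y1
        calc ϑ = ϑ + (g + g) + (y1 + y1) := by rw [h4, h5, add_zero, add_zero]
          _ = _ := by abel
      rw [h3]
      exact (D.K _).add_mem ((D.K _).add_mem (D.hth i hiA)
        (D.GK _ hndi i (Sym2.mem_mk_left _ _) hg)) (D.XK _ hy1)
    have hϑm : ϑ ∈ D.K s(m, D.j m) := by
      have h3 : ϑ = D.th m + g' + y2 := by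
        rw [h2]
        have h4 := dbl g'
        have h5 := dbl y2
        calc ϑ = ϑ + (g' + g') + (y2 + y2) := by rw [h4, h5, add_zero, add_zero]
          _ = _ := by abel
      rw [h3]
      exact (D.K _).add_mem ((D.K _).add_mem (D.hth m hmA)
        (D.GK _ hndm m (Sym2.mem_mk_left _ _) hg')) (D.XK _ hy2)
    have t1 : TRel D.K (plc s(i, D.j i) g + plc (h i) g) :=
      mv i (Sym2.mem_mk_left _ _) (hh i).1 (D.GK _ hndi i (Sym2.mem_mk_left _ _) hg)
        (D.GK _ (hh i).2 i (hh i).1 hg)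
    have t2 : TRel D.K (plc s(m, D.j m) g' + plc (h m) g') :=
      mv m (Sym2.mem_mk_left _ _) (hh m).1 (D.GK _ hndm m (Sym2.mem_mk_left _ _) hg')
        (D.GK _ (hh m).2 m (hh m).1 hg')
    have hPG : ∑ k, plc (h k) (G' k) = ∑ k, plc (h k) (G k) + plc (h i) g + plc (h m) g' := by
      have h3 : ∀ k, plc (h k) (G' k) = plc (h k) (G k) + plc (h k) ((Pi.single i g : Fin 4 → L) k) +
          plc (h k) ((Pi.single m g' : Fin 4 → L) k) := by
        intro k
        rw [← plc_add, ← plc_add]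
        rfl
      rw [sum_congr rfl fun k _ => h3 k, sum_add_distrib, sum_add_distrib]
      congr 1
      · congr 1
        rw [sum_eq_single i]
        · rw [Pi.single_eq_same]
        · intro l _ hl
          rw [Pi.single_eq_of_ne hl, plc_zero]
        · intro h
          exact absurd (mem_univ i) h
      · rw [sum_eq_single m]
        · rw [Pi.single_eq_same]
        · intro l _ hl
          rw [Pi.single_eq_of_ne hl, plc_zero]
        · intro h
          exact absurd (mem_univ m) h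
    have hmain : ∑ k, plc (h k) (G k) + y + ∑ k ∈ S, plc s(k, D.j k) (D.th k) =
        (plc s(i, D.j i) g + plc (h i) g) + (plc s(m, D.j m) g' + plc (h m) g') +
        (∑ k, plc (h k) (G' k) + y' + ∑ k ∈ S', plc s(k, D.j k) (D.th k)) +
        (plc s(i, D.j i) ϑ + plc s(m, D.j m) ϑ) := by
      rw [hsumP, hPG, h1, h2, plc_add, plc_add, plc_add, plc_add]
      show _ = (plc s(i, D.j i) g + plc (h i) g) + (plc s(m, D.j m) g' + plc (h m) g') +
        (∑ k, plc (h k) (G k) + plc (h i) g + plc (h m) g' +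
          (y + plc s(i, D.j i) y1 + plc s(m, D.j m) y2) + ∑ k ∈ S', plc s(k, D.j k) (D.th k)) +
        (plc s(i, D.j i) ϑ + plc s(m, D.j m) ϑ)
      have h3 := dbl (plc (h i) g)
      have h4 := dbl (plc (h m) g')
      have h5 : (plc s(i, D.j i) g + plc (h i) g) + (plc s(m, D.j m) g' + plc (h m) g') +
        (∑ k, plc (h k) (G k) + plc (h i) g + plc (h m) g' +
          (y + plc s(i, D.j i) y1 + plc s(m, D.j m) y2) + ∑ k ∈ S', plc s(k, D.j k) (D.th k)) +
        (plc s(i, D.j i) ϑ + plc s(m, D.j m) ϑ) =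
        (plc (h i) g + plc (h i) g) + (plc (h m) g' + plc (h m) g') +
        (∑ k, plc (h k) (G k) + y + (∑ k ∈ S', plc s(k, D.j k) (D.th k) +
          (plc s(m, D.j m) ϑ + plc s(m, D.j m) g' + plc s(m, D.j m) y2) +
          (plc s(i, D.j i) ϑ + plc s(i, D.j i) g + plc s(i, D.j i) y1))) := by abel
      rw [h5, h3, h4, zero_add, zero_add]
    rw [hmain, add_assoc, add_comm _ (plc s(i, D.j i) ϑ + plc s(m, D.j m) ϑ), ← add_assoc, ← add_comm]
    by_cases hsh : ∃ v, v ∈ s(i, D.j i) ∧ v ∈ s(m, D.j m)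
    · obtain ⟨v, hv1, hv2⟩ := hsh
      have t3 : TRel D.K (plc s(i, D.j i) ϑ + plc s(m, D.j m) ϑ) := mv v hv1 hv2 hϑi hϑm
      have h6 := IH.tadd ((t1.add t2).add t3)
      rw [add_comm] at h6
      exact h6.mono hS'S
    · have hji : D.j i ≠ m := fun h3 => hsh ⟨m, h3 ▸ Sym2.mem_mk_right _ _, Sym2.mem_mk_left _ _⟩
      have hjm : D.j m ≠ i := fun h3 => hsh ⟨i, Sym2.mem_mk_left _ _, h3 ▸ Sym2.mem_mk_right _ _⟩
      have hjj : D.j i ≠ D.j m := fun h3 => hsh ⟨D.j i, Sym2.mem_mk_right _ _,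
        h3 ▸ Sym2.mem_mk_right _ _⟩
      have hef : (s(i, D.j i) : Sym2 (Fin 4)) ≠ s(m, D.j m) := fun h3 =>
        hsh ⟨i, Sym2.mem_mk_left _ _, h3 ▸ Sym2.mem_mk_left _ _⟩
      obtain ⟨t, mm, E, ϑ', e1, e2, e3, e4, e5, e6, e7⟩ := IH
      have hmS' : m ∉ S' := notMem_erase _ _
      have hiS' : i ∉ S' := fun h3 => notMem_erase i S (mem_of_mem_erase h3)
      have hnE : (i, m) ∉ E := fun h3 => hiS' (e6 _ h3).1
      have hneq : ∀ q ∈ E, q ≠ (i, m) := fun q hq h3 => hnE (h3 ▸ hq)
      refine ⟨(plc s(i, D.j i) g + plc (h i) g + (plc s(m, D.j m) g' + plc (h m) g')) + t, mm,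
        insert (i, m) E, Function.update ϑ' (i, m) ϑ, (t1.add t2).add e1, e2, e3, ?_, ?_, ?_, ?_⟩
      · intro q hq
        rcases mem_insert.mp hq with h3 | h3
        · subst h3
          rw [Function.update_self]
          refine ⟨hb, ?_⟩
          show [i, D.j i, m, D.j m].Nodup
          simp only [List.nodup_cons, List.mem_cons, List.not_mem_nil, or_false, not_or,
            not_false_eq_true, List.nodup_nil, and_true]
          exact ⟨⟨(D.hj i hiA).symm, him, hjm.symm⟩, ⟨hji, hjj⟩, (D.hj m hmA).symm⟩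
        · rw [Function.update_of_ne (hneq q h3)]
          exact e4 q h3
      · have hcase : ∀ q ∈ E, [i, m, q.1, q.2].Nodup ∧ [q.1, q.2, i, m].Nodup := by
          intro q hq
          have h6 := e6 q hq
          have h7 := (e4 q hq).2
          simp only [List.nodup_cons, List.mem_cons, List.not_mem_nil, or_false, not_or,
            not_false_eq_true, List.nodup_nil, and_true] at h7 ⊢
          have a1 : q.1 ≠ i := fun h => hiS' (h ▸ h6.1)
          have a2 : q.2 ≠ i := fun h => hiS' (h ▸ h6.2)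
          have a3 : q.1 ≠ m := fun h => hmS' (h ▸ h6.1)
          have a4 : q.2 ≠ m := fun h => hmS' (h ▸ h6.2)
          exact ⟨⟨⟨him, a1.symm, a2.symm⟩, ⟨a3.symm, a4.symm⟩, h7.1.2.1⟩,
            ⟨⟨h7.1.2.1, a1, a3⟩, ⟨a2, a4⟩, him⟩⟩
        intro q hq q' hq' hqq
        rcases mem_insert.mp hq with h3 | h3
        · rcases mem_insert.mp hq' with h4 | h4
          · exact absurd (h3.trans h4.symm) hqq
          · rw [h3]
            exact (hcase q' h4).1
        · rcases mem_insert.mp hq' with h4 | h4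
          · rw [h4]
            exact (hcase q h3).2
          · exact e5 q h3 q' h4 hqq
      · intro q hq
        rcases mem_insert.mp hq with h3 | h3
        · rw [h3]
          exact ⟨hi, hm⟩
        · exact ⟨hS'S (e6 q h3).1, hS'S (e6 q h3).2⟩
      · have h8 : bq D (i, m) ϑ = plc s(i, D.j i) ϑ + plc s(m, D.j m) ϑ := by
          funext e
          rw [Pi.add_apply]
          unfold bq plc
          by_cases he1 : e = s(i, D.j i)
          · have he2 : e ≠ s(m, D.j m) := fun h => hef (he1.symm.trans h)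
            rw [if_pos (Or.inl he1), if_pos he1, if_neg he2, add_zero]
          · by_cases he2 : e = s(m, D.j m)
            · rw [if_pos (Or.inr he2), if_neg he1, if_pos he2, zero_add]
            · rw [if_neg (fun h => h.elim he1 he2), if_neg he1, if_neg he2, add_zero]
        have h9 : ∑ q ∈ E, bq D q (Function.update ϑ' (i, m) ϑ q) = ∑ q ∈ E, bq D q (ϑ' q) :=
          sum_congr rfl fun q hq => by rw [Function.update_of_ne (hneq q hq)]
        rw [sum_insert hnE, Function.update_self, h8, e7, h9]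
        abel

end LINM

theorem specLIN : SpecLIN := by
  classical
  intro L _ _ D r hr h0
  have h01 : ∃ h : Fin 4 → Sym2 (Fin 4), ∀ k, k ∈ h k ∧ ¬ (h k).IsDiag := by
    refine ⟨fun k => s(k, k + 1), fun k => ⟨Sym2.mem_mk_left _ _, fun h => ?_⟩⟩
    have h1 := Sym2.mk_isDiag_iff.mp h
    revert h1
    revert k
    decide
  obtain ⟨h, hh⟩ := h01
  have h1 : LINM.NF D h r := by
    rw [LINM.eq_sum_plc r]
    exact LINM.NF.sum _ _ fun e _ => LINM.NF.one hh e (r e) (hr e)
  obtain ⟨G, y, c, h2, h3, h4, h5⟩ := h1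
  let S : Finset (Fin 4) := univ.filter fun i => c i ≠ 0
  have hc1 : ∀ a : ZMod 2, a ≠ 0 → a = 1 := by decide
  have hSL : ∑ i ∈ S, D.th i = ∑ i, c i • D.th i := by
    rw [sum_filter]
    refine sum_congr rfl fun i _ => ?_
    split_ifs with hc
    · rw [hc1 _ hc, one_smul]
    · rw [not_not.mp hc, zero_smul]
  have hSP : ∑ i ∈ S, plc s(i, D.j i) (D.th i) = ∑ i, plc s(i, D.j i) (c i • D.th i) := by
    rw [sum_filter]
    refine sum_congr rfl fun i _ => ?_
    split_ifs with hc
    · rw [hc1 _ hc, one_smul]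
    · rw [not_not.mp hc, zero_smul, LINM.plc_zero]
  have h6 : ∑ k, G k + ∑ e, y e + ∑ i ∈ S, D.th i = 0 := by
    have h7 := LINM.tot h5
    have h8 : ∑ e, (r + LINM.Fam D h G y c) e = ∑ e, r e + (∑ k, G k + ∑ e, y e + ∑ i, c i • D.th i) := by
      unfold LINM.Fam
      simp only [Pi.add_apply, sum_add_distrib, Finset.sum_apply]
      congr 1
      congr 1
      · congr 1
        rw [sum_comm]
        exact sum_congr rfl fun k _ => LINM.sum_plc _ _
      · rw [sum_comm]
        exact sum_congr rfl fun k _ => LINM.sum_plc _ _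
    rw [h8, h0, zero_add] at h7
    rw [hSL]
    exact h7
  have h7 := LINM.step D h hh 4 S (by
    have := card_le_univ S
    simpa using this) (fun i hi => h4 i (mem_filter.mp hi).2) G y h2 h3 h6
  rw [hSP] at h7
  have h8 : LINM.Good D S r := by
    have h9 := h7.tadd h5
    have h10 : r + LINM.Fam D h G y c + (∑ k, plc (h k) (G k) + y + ∑ i, plc s(i, D.j i) (c i • D.th i)) =
        r := by
      show r + LINM.Fam D h G y c + LINM.Fam D h G y c = r
      rw [add_assoc, LINM.dbl, add_zero]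
    rwa [h10] at h9
  obtain ⟨t, m, E, ϑ, e1, e2, e3, e4, e5, -, e7⟩ := h8
  refine ⟨t, m, E, ϑ, e1, e2, e3, e4, e5, fun e => ?_⟩
  have h9 := congrFun e7 e
  rw [Pi.add_apply, Pi.add_apply, Finset.sum_apply] at h9
  exact h9

end DL
end

section
/-!
# Module RCL: types of bad neighbour triples
-/
open SimpleGraph Finset

namespace DL

namespace RCLM

variable {α : Type} [Fintype α] [DecidableEq α]

/-- the boundary at a vertex with exactly three neighbours -/
theorem three {J : SimpleGraph α} {s t c d : α} (h : Bd J s t c d) {X : Chain α} (hX : X ∈ Z1 J) :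
    X s(s, d) = X s(s, c) + X s(s, t) := by
  obtain ⟨hcd, hct, hdt, hs⟩ := h
  have hsd : s ≠ d := ((hs d).2 (by tauto)).ne
  have hsc : s ≠ c := ((hs c).2 (by tauto)).ne
  have hst : s ≠ t := ((hs t).2 (by tauto)).ne
  have key : ∀ x y, x ≠ y → s(s, x) ≠ s(s, y) := by
    intro x y hxy e
    rw [Sym2.eq_iff] at e
    rcases e with ⟨_, e⟩ | ⟨e1, e2⟩
    · exact hxy e
    · exact hxy (e2.trans e1)
  have h1 := (mem_Z1.1 hX).2 s
  rw [bdy_eq] at h1
  have h2 : ∑ e ∈ univ.filter (fun e => s ∈ e), X e = ∑ e ∈ ({s(s, t), s(s, c), s(s, d)} : Finset (Sym2 α)), X e := by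
    symm
    apply sum_subset
    · intro e he
      simp only [mem_insert, mem_singleton] at he
      rw [mem_filter]
      refine ⟨mem_univ _, ?_⟩
      rcases he with rfl | rfl | rfl <;> exact Sym2.mem_mk_left _ _
    · intro e he hne
      rw [mem_filter] at he
      by_contra hz
      obtain ⟨y, rfl⟩ := Sym2.mem_iff_exists.1 he.2
      have h3 : J.Adj s y := (mem_Z1.1 hX).1 _ hz
      apply hne
      simp only [mem_insert, mem_singleton]
      rcases (hs y).1 h3 with rfl | rfl | rfl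
      · exact Or.inl rfl
      · exact Or.inr (Or.inl rfl)
      · exact Or.inr (Or.inr rfl)
  rw [h2, sum_insert, sum_insert, sum_singleton] at h1
  · generalize X s(s, t) = a at h1 ⊢
    generalize X s(s, c) = b at h1 ⊢
    generalize X s(s, d) = e at h1 ⊢
    revert a b e
    decide
  · rw [mem_singleton]
    exact key _ _ hcd
  · rw [mem_insert, mem_singleton, not_or]
    exact ⟨key _ _ hct.symm, key _ _ hdt.symm⟩

end RCLM

open CWCM in
theorem specRCL (hCWC : SpecCWC) : SpecRCL where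
  cls := by
    intro α _ _ G u w h i j c d hij hadj hcd hB
    obtain ⟨ncd, nct, ndt, hs⟩ := hB
    have hcu : c ≠ u := fun e => hcd.2.1 (by rw [e]; exact mem_singleton_self _)
    have hdu : d ≠ u := fun e => hcd.2.2 (by rw [e]; exact mem_singleton_self _)
    have hcV : c ∈ VS G := left_mem_VS hcd.1
    have hdV : d ∈ VS G := right_mem_VS hcd.1
    have hic : (del G {u}).Adj (w i) c := (hs c).2 (by tauto)
    have hid : (del G {u}).Adj (w i) d := (hs d).2 (by tauto)
    have hnb : ∀ x, G.Adj (w i) x ↔ x = u ∨ x = w j ∨ x = c ∨ x = d := by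
      intro x
      by_cases hx : x = u
      · subst hx
        exact ⟨fun _ => Or.inl rfl, fun _ => (adj_u h i).symm⟩
      · rw [← hs x, del_adj, mem_singleton, mem_singleton]
        constructor
        · exact fun h1 => Or.inr ⟨h1, w_ne h i, hx⟩
        · rintro (h1 | h1)
          · exact absurd h1 hx
          · exact h1.1
    by_cases hcW : c ∈ WW w
    · right
      obtain ⟨k, hk⟩ := mem_WW.1 hcW
      refine ⟨k, ?_, ?_, Or.inl ⟨hk, ?_⟩⟩
      · rintro rfl
        exact hic.ne hk.symm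
      · rintro rfl
        exact nct hk
      · refine mem_CC.2 ⟨hdV, hdu, fun hdW => ?_⟩
        obtain ⟨a, ha, hia⟩ := hCWC.nbC h (CC G u w) (Subset.refl _) (nonempty h)
          (fun _ _ b hb _ => hb) i
        obtain ⟨_, h2, h3⟩ := mem_CC.1 ha
        rcases (hnb a).1 hia with e | e | e | e
        · exact h2 e
        · exact h3 (e ▸ w_mem j)
        · exact h3 (e ▸ hcW)
        · exact h3 (e ▸ hdW)
    · by_cases hdW : d ∈ WW w
      · right
        obtain ⟨k, hk⟩ := mem_WW.1 hdW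
        refine ⟨k, ?_, ?_, Or.inr ⟨hk, mem_CC.2 ⟨hcV, hcu, hcW⟩⟩⟩
        · rintro rfl
          exact hid.ne hk.symm
        · rintro rfl
          exact ndt hk
      · left
        exact ⟨hij, hnb, hcd.1, mem_CC.2 ⟨hcV, hcu, hcW⟩, mem_CC.2 ⟨hdV, hdu, hdW⟩⟩
  sw := by
    intro α _ _ J s t c d h X hX Y hY
    have h1 := RCLM.three h hX
    have h2 := RCLM.three h hY
    rw [frm_add, kapm, kapm, frm_add, frm_add, frm_sqm, frm_sqm, frm_dtm, frm_dtm, frm_dtm]
    simp only [pr_ed]
    rw [h1, h2, Sym2.eq_swap (a := d) (b := c)]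
    ring
  atk := by
    intro α _ _ s k d
    rw [kapm]
    refine at_add (at_sqm fun e he => ?_) (at_dtm (fun e he => ?_) fun e he => ?_)
    · rw [ed_ne he]; exact Sym2.mem_mk_left _ _
    · rw [ed_ne he]; exact Sym2.mem_mk_right _ _
    · rw [ed_ne he]; exact Sym2.mem_mk_left _ _

end DL
end
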