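import Pool.Agent.DL.R1A.Spec
import Pool.Agent.DL.EX.VRS

section
/-!
MP_3ff0f8_gt, ALGEBRA HALF, R1A block, module RDR: chain sums of directions.
-/
open SimpleGraph Finset

namespace DL

namespace RDRM

open DCBM

variable {α : Type} [Fintype α] [DecidableEq α] {G : SimpleGraph α}

theorem step_dirn {A B : Finset α} {s p q r : α} {P Q : Finset (Sym2 α)} (hP : InP G A s p P)
    (hQ : InP G B q r Q) (hAB : Disjoint A B) (hpq : G.Adj p q) (c d : α) :
    dirn s c d (P ∪ {s(p, q)} ∪ Q) = dirn s c d P + dirn p c d {s(p, q)} + dirn q c d Q := by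
  have hA : ∀ x ∈ A, x ∉ B := fun x hx hx' => Finset.disjoint_left.1 hAB hx hx'
  have h0 : IsPth G p q {s(p, q)} := IsPth.edge hpq
  have h0' : vs ({s(p, q)} : Finset (Sym2 α)) ∩ vs Q ⊆ {q} := by
    intro x hx
    rw [mem_inter, vs_singleton, mem_insert, mem_singleton] at hx
    obtain ⟨rfl | rfl, hx2⟩ := hx
    · exact absurd (hQ.sub hx2) (hA _ hP.right)
    · simp
  have h1 : IsPth G p r ({s(p, q)} ∪ Q) := h0.append hQ.pth h0'
  have h1' : vs P ∩ vs ({s(p, q)} ∪ Q) ⊆ {p} := by
    intro x hx
    rw [mem_inter, mem_vs_union, vs_singleton, mem_insert, mem_singleton] at hx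
    obtain ⟨hx1, (rfl | rfl) | hx2⟩ := hx
    · simp
    · exact absurd hQ.left (hA _ (hP.sub hx1))
    · exact absurd (hQ.sub hx2) (hA _ (hP.sub hx1))
  rw [union_assoc, hP.pth.dirn_append h1 h1', h0.dirn_append hQ.pth h0', add_assoc]

/-- direction on a path of a tree -/
theorem tree_dirn (hTRE : SpecTRE) {T : SimpleGraph α} {X : Finset α} (hT : TreeOn T X) {x y c d : α}
    (hx : x ∈ X) (hy : y ∈ X) (hcd : T.Adj c d) :
    dirn x c d (tp T x y) = (1 + chi (tp T c x) s(c, d)) * chi (tp T c y) s(c, d) := by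
  have hc : c ∈ X := hT.inX _ _ hcd
  have hd : d ∈ X := hT.inX _ _ hcd.symm
  have hk : chi (tp T c x) s(c, d) + chi (tp T c y) s(c, d) = chi (tp T x y) s(c, d) := by
    have := congrFun (hTRE.four hT c hc x hx y hy) s(c, d)
    rwa [Pi.add_apply] at this
  have hP := (hTRE.tp hT x hx y hy).1
  rcases zmod2_cases (dirn x c d (tp T x y)) with h | h
  · -- the other direction or no passage
    rw [h]
    by_contra hne
    have hne' := Ne.symm hne
    rw [zmod2_ne_zero] at hne'
    have h1 : chi (tp T c x) s(c, d) = 0 ∧ chi (tp T c y) s(c, d) = 1 := by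
      revert hne'
      generalize chi (tp T c x) s(c, d) = u
      generalize chi (tp T c y) s(c, d) = v
      revert u v
      decide
    rw [h1.1, h1.2, zero_add] at hk
    have h2 := hP.dirn_add_swap c d
    rw [h, zero_add, ← hk] at h2
    obtain ⟨P1, P2, -, hP2, -, h3, -, -⟩ := hP.dirn_eq_one_iff.1 h2
    have h4 := (hTRE.tp hT c hc y hy).2 P2 hP2
    have h5 : s(c, d) ∈ P2 := by
      rw [h4]
      exact chi_eq_one.1 h1.2
    have h6 : s(c, d) ∈ tp T x y \ {s(d, c)} := h3 ▸ mem_union_right _ h5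
    rw [mem_sdiff, mem_singleton] at h6
    exact h6.2 Sym2.eq_swap
  · rw [h]
    obtain ⟨P1, P2, hP1, -, h2, h3, -, -⟩ := hP.dirn_eq_one_iff.1 h
    have h4 := (hTRE.tp hT c hc x hx).2 P1 hP1.symm
    have h5 : chi (tp T c x) s(c, d) = 0 := by
      rw [← h4]
      apply chi_of_notMem
      intro h5
      have h6 : s(c, d) ∈ tp T x y \ {s(c, d)} := h3 ▸ mem_union_left _ h5
      rw [mem_sdiff, mem_singleton] at h6
      exact h6.2 rfl
    rw [h5, zero_add, chi_of_mem h2] at hk
    rw [h5, hk, add_zero, one_mul]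

theorem tree_sum (hTRE : SpecTRE) {T : SimpleGraph α} {X : Finset α} (hT : TreeOn T X)
    {x x' y y' : α} (hx : x ∈ X) (hx' : x' ∈ X) (hy : y ∈ X) (hy' : y' ∈ X) (c d : α) :
    dirn x c d (tp T x y) + dirn x' c d (tp T x' y) + dirn x c d (tp T x y') +
      dirn x' c d (tp T x' y') = chi (tp T x x') s(c, d) * chi (tp T y y') s(c, d) := by
  by_cases hcd : T.Adj c d
  · have hc : c ∈ X := hT.inX _ _ hcd
    rw [tree_dirn hTRE hT hx hy hcd, tree_dirn hTRE hT hx' hy hcd, tree_dirn hTRE hT hx hy' hcd,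
      tree_dirn hTRE hT hx' hy' hcd, ← hTRE.four hT c hc x hx x' hx', ← hTRE.four hT c hc y hy y' hy',
      Pi.add_apply, Pi.add_apply]
    generalize chi (tp T c x) s(c, d) = u
    generalize chi (tp T c x') s(c, d) = u'
    generalize chi (tp T c y) s(c, d) = v
    generalize chi (tp T c y') s(c, d) = v'
    revert u u' v v'
    decide
  · have h0 : ∀ x ∈ X, ∀ y ∈ X, s(c, d) ∉ tp T x y := by
      intro x hx y hy h
      exact hcd ((hTRE.tp hT x hx y hy).1.adj_of_mem h)
    rw [dirn_eq_zero_of_notMem (h0 x hx y hy), dirn_eq_zero_of_notMem (h0 x' hx' y hy),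
      dirn_eq_zero_of_notMem (h0 x hx y' hy'), dirn_eq_zero_of_notMem (h0 x' hx' y' hy'),
      chi_of_notMem (h0 x hx x' hx')]
    simp

theorem sum_aux (f h : Bool → ZMod 2) (f' h' : Bool → ZMod 2) (m : Bool → Bool → ZMod 2) :
    (f false + f' false + m false false + h' false + h false) +
      (f true + f' true + m true false + h' false + h false) +
      (f false + f' false + m false true + h' true + h true) +
      (f true + f' true + m true true + h' true + h true) =
    m false false + m true false + m false true + m true true := by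
  have h1 := zmod2_add_self (f false)
  have h2 := zmod2_add_self (f true)
  have h3 := zmod2_add_self (f' false)
  have h4 := zmod2_add_self (f' true)
  have h5 := zmod2_add_self (h false)
  have h6 := zmod2_add_self (h true)
  have h7 := zmod2_add_self (h' false)
  have h8 := zmod2_add_self (h' true)
  linear_combination h1 + h2 + h3 + h4 + h5 + h6 + h7 + h8

end RDRM

open RDRM DCBM

/-- Module RDR. -/
theorem specRDR (hBDF : SpecBDF) (hTRE : SpecTRE) : SpecRDR := by
  intro α _ _ G s t K c d
  have hd01 : Disjoint (K.X 0) (K.X 1) := K.disj 0 1 (by decide)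
  have hd02 : Disjoint (K.X 0) (K.X 2) := K.disj 0 2 (by decide)
  have hd12 : Disjoint (K.X 1) (K.X 2) := K.disj 1 2 (by decide)
  have hp0 : ∀ b, K.p 0 b ∈ K.X 0 := fun b => K.pX 0 b
  have hq0 : ∀ b, K.q 0 b ∈ K.X 1 := fun b => K.qX 0 b
  have hp1 : ∀ b, K.p 1 b ∈ K.X 1 := fun b => K.pX 1 b
  have hq1 : ∀ b, K.q 1 b ∈ K.X 2 := fun b => K.qX 1 b
  have hdir : ∀ e : Fin 2 → Bool, dirn s c d (K.pth e) =
      dirn s c d (tp (K.T 0) s (K.p 0 (e 0))) +
        dirn (K.p 0 (e 0)) c d {s(K.p 0 (e 0), K.q 0 (e 0))} +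
        dirn (K.q 0 (e 0)) c d (tp (K.T 1) (K.q 0 (e 0)) (K.p 1 (e 1))) +
        dirn (K.p 1 (e 1)) c d {s(K.p 1 (e 1), K.q 1 (e 1))} +
        dirn (K.q 1 (e 1)) c d (tp (K.T 2) (K.q 1 (e 1)) t) := by
    intro e
    have hA := inP hTRE (treeK K 0) (K.sub 0) K.sX (hp0 (e 0))
    have hB := inP hTRE (treeK K 1) (K.sub 1) (hq0 (e 0)) (hp1 (e 1))
    have hC := inP hTRE (treeK K 2) (K.sub 2) (hq1 (e 1)) K.tX
    obtain ⟨h1, -⟩ := step hA hB hd01 (K.adj 0 (e 0))
    have h2 := step_dirn hA hB hd01 (K.adj 0 (e 0)) c d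
    have h3 := step_dirn h1 hC (disjoint_union_left.2 ⟨hd02, hd12⟩) (K.adj 1 (e 1)) c d
    unfold Ch2.pth
    rw [h3, h2]
  -- the beads inside the middle tree
  have hbd : c ∈ K.X 1 → d ∈ K.X 1 →
      K.bd0 s(c, d) = chi (tp (K.T 1) (K.q 0 false) (K.q 0 true)) s(c, d) ∧
        K.bd1 s(c, d) = chi (tp (K.T 1) (K.p 1 false) (K.p 1 true)) s(c, d) := by
    intro hc hd
    have hmem : ∀ x, x ∈ s(c, d) → x ∈ K.X 1 := by
      intro x hx
      rw [Sym2.mem_iff] at hx
      rcases hx with rfl | rfl <;> assumption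
    have he : ∀ x y, x ∉ K.X 1 ∨ y ∉ K.X 1 → ed x y s(c, d) = 0 := by
      intro x y hxy
      rw [ed_apply, if_neg]
      intro h
      rcases hxy with h' | h'
      · exact h' (hmem x (h ▸ Sym2.mem_mk_left x y))
      · exact h' (hmem y (h ▸ Sym2.mem_mk_right x y))
    have h0 : ∀ x ∈ K.X 0, x ∉ K.X 1 := fun x hx hx' => Finset.disjoint_left.1 hd01 hx hx'
    have h2 : ∀ x ∈ K.X 2, x ∉ K.X 1 := fun x hx hx' => Finset.disjoint_left.1 hd12 hx' hx
    have ht0 : chi (tp (K.T 0) (K.p 0 false) (K.p 0 true)) s(c, d) = 0 := by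
      apply chi_of_notMem
      intro h
      exact h0 c ((treeK K 0).inX _ _ ((hTRE.tp (treeK K 0) _ (hp0 _) _ (hp0 _)).1.adj_of_mem h)) hc
    have ht2 : chi (tp (K.T 2) (K.q 1 false) (K.q 1 true)) s(c, d) = 0 := by
      apply chi_of_notMem
      intro h
      exact h2 c ((treeK K 2).inX _ _ ((hTRE.tp (treeK K 2) _ (hq1 _) _ (hq1 _)).1.adj_of_mem h)) hc
    obtain ⟨e0, e1⟩ := hBDF.eq K
    constructor
    · rw [e0]
      simp only [Pi.add_apply]
      rw [he _ _ (Or.inl (h0 _ (hp0 false))), he _ _ (Or.inl (h0 _ (hp0 true))), ht0]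
      simp
    · rw [e1]
      simp only [Pi.add_apply]
      rw [he _ _ (Or.inr (h2 _ (hq1 false))), he _ _ (Or.inr (h2 _ (hq1 true))), ht2]
      simp
  have hprod : K.bd0 s(c, d) * K.bd1 s(c, d) =
      chi (tp (K.T 1) (K.q 0 false) (K.q 0 true)) s(c, d) *
        chi (tp (K.T 1) (K.p 1 false) (K.p 1 true)) s(c, d) := by
    by_cases hX : c ∈ K.X 1 ∧ d ∈ K.X 1
    · rw [(hbd hX.1 hX.2).1, (hbd hX.1 hX.2).2]
    · have h1 : K.bd0 s(c, d) * K.bd1 s(c, d) = 0 := by
        by_contra hne
        have ha := left_ne_zero_of_mul hne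
        have hb := right_ne_zero_of_mul hne
        apply hX
        have hv : ∀ v ∈ s(c, d), v ∈ K.X 1 := by
          intro v hv
          rcases hBDF.s0 K _ ha v hv with h | h
          · rcases hBDF.s1 K _ hb v hv with h' | h'
            · exact h'
            · exact absurd h' (Finset.disjoint_left.1 hd02 h)
          · exact h
        exact ⟨hv c (Sym2.mem_mk_left c d), hv d (Sym2.mem_mk_right c d)⟩
      have h2 : chi (tp (K.T 1) (K.q 0 false) (K.q 0 true)) s(c, d) = 0 := by
        apply chi_of_notMem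
        intro h
        apply hX
        have h3 := (hTRE.tp (treeK K 1) _ (hq0 false) _ (hq0 true)).1.adj_of_mem h
        exact ⟨(treeK K 1).inX _ _ h3, (treeK K 1).inX _ _ h3.symm⟩
      rw [h1, h2, zero_mul]
  have hfirst : ∑ e : Fin 2 → Bool, dirn s c d (K.pth e) = K.bd0 s(c, d) * K.bd1 s(c, d) := by
    rw [sum_congr rfl fun e _ => hdir e, two_sum, hprod,
      ← tree_sum hTRE (treeK K 1) (hq0 false) (hq0 true) (hp1 false) (hp1 true) c d]
    exact sum_aux (fun b => dirn s c d (tp (K.T 0) s (K.p 0 b)))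
      (fun b => dirn (K.q 1 b) c d (tp (K.T 2) (K.q 1 b) t))
      (fun b => dirn (K.p 0 b) c d {s(K.p 0 b, K.q 0 b)})
      (fun b => dirn (K.p 1 b) c d {s(K.p 1 b, K.q 1 b)})
      (fun b b' => dirn (K.q 0 b) c d (tp (K.T 1) (K.q 0 b) (K.p 1 b')))
  refine ⟨hfirst, ?_⟩
  have hsecond : ∀ e : Fin 2 → Bool, dirn t c d (K.pth e) =
      chi (K.pth e) s(c, d) + dirn s c d (K.pth e) := by
    intro e
    have hP := (DCBM.pth hTRE K e).1
    rw [hP.dirn_reverse d c, ← hP.dirn_add_swap c d, add_comm (dirn s c d (K.pth e)), add_assoc,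
      zmod2_add_self, add_zero]
  rw [sum_congr rfl fun e _ => hsecond e, sum_add_distrib, hfirst]
  have h4 := congrFun (DCBM.four hTRE K) s(c, d)
  rw [Finset.sum_apply] at h4
  rw [h4, Pi.zero_apply, zero_add]

end DL
end

section
open SimpleGraph Finset

namespace DL

set_option linter.unusedSectionVars false

namespace RP1M

variable {α : Type} [Fintype α] [DecidableEq α]

theorem union_eq (u i j : α) (P : Finset (Sym2 α)) :
    ({s(u, i), s(u, j)} ∪ P : Finset (Sym2 α)) = insert s(u, i) (insert s(u, j) P) := by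
  ext e
  simp

theorem edge_at {G : SimpleGraph α} {u : α} {e : Sym2 α}
    (h : e ∈ G.edgeSet \ (del G {u}).edgeSet) : ∃ k, e = s(u, k) ∧ G.Adj u k := by
  induction e using Sym2.ind with
  | _ a b =>
    obtain ⟨h1, h2⟩ := h
    rw [mem_edgeSet] at h1 h2
    by_cases ha : a = u
    · subst ha
      exact ⟨b, rfl, h1⟩
    · by_cases hb : b = u
      · subst hb
        exact ⟨a, Sym2.eq_swap, h1.symm⟩
      · exact absurd ⟨h1, by simpa using ha, by simpa using hb⟩ h2

theorem notMem_path {G : SimpleGraph α} {u i j k : α} {P : Finset (Sym2 α)}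
    (hP : IsPth (del G {u}) i j P) : s(u, k) ∉ P := fun h =>
  (Finset.disjoint_left.1 (isPth_del.1 hP).2 (left_mem_vs h)) (mem_singleton_self u)

theorem sum_four {F : α → α → ZMod 2} {u i j : α} (hi : u ≠ i) (hj : u ≠ j) (hij : i ≠ j)
    (h : ∀ a b, F a b ≠ 0 →
      (a = u ∧ b = i) ∨ (a = u ∧ b = j) ∨ (a = i ∧ b = u) ∨ (a = j ∧ b = u)) :
    ∑ a, ∑ b, F a b = F u i + F u j + F i u + F j u := by
  have e1 : ∑ a, ∑ b, F a b = ∑ p : α × α, F p.1 p.2 := by
    rw [Fintype.sum_prod_type]
  rw [e1, ← Finset.sum_subset (s₁ := {(u, i), (u, j), (i, u), (j, u)}) (subset_univ _)]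
  · rw [sum_insert, sum_insert, sum_insert, sum_singleton]
    · ring
    · simp [hij]
    · simp [hi, hj, hj.symm]
    · simp [hi, hj, hij]
  · rintro ⟨a, b⟩ _ hab
    by_contra h0
    apply hab
    rcases h a b h0 with ⟨rfl, rfl⟩ | ⟨rfl, rfl⟩ | ⟨rfl, rfl⟩ | ⟨rfl, rfl⟩ <;> simp

/-- the edges at `u` of the cycle -/
theorem mem_cyc {G : SimpleGraph α} {u i j k : α} {P : Finset (Sym2 α)}
    (hP : IsPth (del G {u}) i j P) :
    s(u, k) ∈ insert s(u, i) (insert s(u, j) P) ↔ k = i ∨ k = j := by
  rw [mem_insert, mem_insert]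
  constructor
  · rintro (h | h | h)
    · exact Or.inl (Sym2.congr_right.1 h)
    · exact Or.inr (Sym2.congr_right.1 h)
    · exact absurd h (notMem_path hP)
  · rintro (rfl | rfl) <;> simp

end RP1M

open RP1M

theorem specRP1 (hEXD : SpecEXD) (hRDR : SpecRDR) (hRPQ : SpecRPQ) (hDCB : SpecDCB) : SpecRP1 := by
  intro α _ _ G₁ u hS hK φ hF hz
  have hle : del G₁ {u} ≤ G₁ := fun a b h => h.1
  obtain ⟨q, μ, hq2, hq0, hμ, hφ⟩ := hEXD (del G₁ {u}) G₁ hle hS hK φ hF hz
  choose b hbs hb0 hbf using fun i : α => hRPQ.form (q s(u, i)) (hq2 s(u, i))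
  -- the diagonal
  let ν : α → α → α → ZMod 2 := fun i c d => μ u i c d + μ i u c d
  let dg : α → Sym2 α → Sym2 α → ZMod 2 := fun i e f =>
    if e = f then ∑ c, ∑ d, if s(c, d) = e then ν i c d else 0 else 0
  have dg_sy : ∀ i, Sy (dg i) := by
    intro i e f
    by_cases h : e = f
    · subst h
      rfl
    · simp only [dg, if_neg h, if_neg (Ne.symm h)]
  have dg_frm : ∀ i (X Y : Chain α), frm (dg i) X Y =
      ∑ c, ∑ d, ν i c d * (X s(c, d) * Y s(c, d)) := by
    intro i X Y
    have e1 : frm (dg i) X Y = ∑ e, (∑ c, ∑ d, if s(c, d) = e then ν i c d else 0) * (X e * Y e) := by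
      unfold frm
      refine sum_congr rfl fun e _ => ?_
      rw [sum_eq_single e]
      · simp only [dg, if_true]
      · intro f _ hf
        simp only [dg, if_neg (Ne.symm hf), zero_mul]
      · simp
    rw [e1]
    simp only [sum_mul]
    rw [sum_comm]
    refine sum_congr rfl fun c _ => ?_
    rw [sum_comm]
    refine sum_congr rfl fun d _ => ?_
    rw [sum_eq_single s(c, d)]
    · simp
    · intro e _ he
      rw [if_neg (Ne.symm he), zero_mul]
    · simp
  refine ⟨fun i => b i + dg i, fun i => sy_add (hbs i) (dg_sy i), ?_⟩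
  intro i j hi hj hij K
  have hui : u ≠ i := hi.ne
  have huj : u ≠ j := hj.ne
  -- the value on a cycle
  have val : ∀ P, IsPth (del G₁ {u}) i j P → φ ({s(u, i), s(u, j)} ∪ P) =
      q s(u, i) (chi {s(u, i), s(u, j)} + chi P) + q s(u, j) (chi {s(u, i), s(u, j)} + chi P) +
      ∑ c, ∑ d, (μ u i c d * dirn i c d P + μ u j c d * dirn j c d P + μ i u c d * dirn j c d P +
        μ j u c d * dirn i c d P) := by
    intro P hP
    have hC := isCyc_of_isPth_del hi hj hij hP
    have hchi : chi (insert s(u, i) (insert s(u, j) P)) = chi {s(u, i), s(u, j)} + chi P := by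
      rw [← union_eq, chi_union]
      rw [Finset.disjoint_left]
      intro e he he'
      rw [mem_insert, mem_singleton] at he
      rcases he with rfl | rfl
      · exact notMem_path hP he'
      · exact notMem_path hP he'
    rw [union_eq, hφ _ hC, hchi]
    congr 1
    · rw [← hchi]
      have e1 : ∀ g : Sym2 α → ZMod 2, ∑ e, chi (insert s(u, i) (insert s(u, j) P)) e * g e =
          ∑ e ∈ insert s(u, i) (insert s(u, j) P), g e := by
        intro g
        rw [← sum_mul_chi g]
        exact sum_congr rfl fun e _ => mul_comm _ _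
      rw [e1 (fun e => q e (chi (insert s(u, i) (insert s(u, j) P)))), sum_insert, sum_insert,
        sum_eq_zero, add_zero]
      · intro e he
        rw [hq0 e fun h => h.2 (hP.subset e he)]
        rfl
      · exact notMem_path hP
      · rw [mem_insert, not_or]
        exact ⟨fun h => hij (Sym2.congr_right.1 h), notMem_path hP⟩
    · unfold cohs
      have e2 : ∑ a, ∑ b', ∑ c, ∑ d, μ a b' c d * coh a b' c d (insert s(u, i) (insert s(u, j) P)) =
          ∑ c, ∑ d, ∑ a, ∑ b', μ a b' c d * coh a b' c d (insert s(u, i) (insert s(u, j) P)) := by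
        have h1 : ∀ a, ∑ b', ∑ c, ∑ d, μ a b' c d * coh a b' c d (insert s(u, i) (insert s(u, j) P)) =
            ∑ c, ∑ d, ∑ b', μ a b' c d * coh a b' c d (insert s(u, i) (insert s(u, j) P)) := by
          intro a
          rw [sum_comm]
          exact sum_congr rfl fun c _ => sum_comm
        simp_rw [h1]
        rw [sum_comm]
        exact sum_congr rfl fun c _ => sum_comm
      rw [e2]
      refine sum_congr rfl fun c _ => sum_congr rfl fun d _ => ?_
      have hPji : insert s(u, j) (insert s(u, i) P) = insert s(u, i) (insert s(u, j) P) :=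
        Finset.insert_comm _ _ _
      have hdj : ∀ x y, μ x y c d ≠ 0 → x = u ∨ y = u → s(c, d) ≠ s(u, i) ∧ s(c, d) ≠ s(u, j) := by
        intro x y hne hxy
        obtain ⟨-, h1, h2, h3, h4, h5, h6⟩ := hμ x y c d hne
        have hc : c ≠ u := by
          rcases hxy with rfl | rfl
          · exact h3.symm
          · exact h5.symm
        have hd : d ≠ u := by
          rcases hxy with rfl | rfl
          · exact h4.symm
          · exact h6.symm
        constructor <;> intro h <;> rw [Sym2.eq_iff] at h <;> tauto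
      rw [sum_four hui huj hij]
      · have t1 : μ u i c d * coh u i c d (insert s(u, i) (insert s(u, j) P)) =
            μ u i c d * dirn i c d P := by
          by_cases h0 : μ u i c d = 0
          · rw [h0, zero_mul, zero_mul]
          · obtain ⟨n1, n2⟩ := hdj u i h0 (Or.inl rfl)
            rw [coh_two hP hj hij n1 n2]
        have t2 : μ u j c d * coh u j c d (insert s(u, i) (insert s(u, j) P)) =
            μ u j c d * dirn j c d P := by
          by_cases h0 : μ u j c d = 0
          · rw [h0, zero_mul, zero_mul]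
          · obtain ⟨n1, n2⟩ := hdj u j h0 (Or.inl rfl)
            rw [← hPji, coh_two hP.symm hi hij.symm n2 n1]
        have t3 : μ i u c d * coh i u c d (insert s(u, i) (insert s(u, j) P)) =
            μ i u c d * dirn j c d P := by
          by_cases h0 : μ i u c d = 0
          · rw [h0, zero_mul, zero_mul]
          · obtain ⟨n1, n2⟩ := hdj i u h0 (Or.inr rfl)
            rw [coh_two' hP hj hij n1 n2]
        have t4 : μ j u c d * coh j u c d (insert s(u, i) (insert s(u, j) P)) =
            μ j u c d * dirn i c d P := by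
          by_cases h0 : μ j u c d = 0
          · rw [h0, zero_mul, zero_mul]
          · obtain ⟨n1, n2⟩ := hdj j u h0 (Or.inr rfl)
            rw [← hPji, coh_two' hP.symm hi hij.symm n2 n1]
        rw [t1, t2, t3, t4]
      · intro a b' hne
        obtain ⟨k, hk, -⟩ := edge_at (hμ a b' c d (left_ne_zero_of_mul hne)).1
        have hmem : s(a, b') ∈ insert s(u, i) (insert s(u, j) P) := by
          by_contra h0
          exact right_ne_zero_of_mul hne (coh_eq_zero_left h0)
        rw [hk] at hmem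
        have hk' := (mem_cyc hP).1 hmem
        rw [Sym2.eq_iff] at hk
        rcases hk with ⟨rfl, rfl⟩ | ⟨rfl, rfl⟩ <;> tauto
  -- the chain sum
  have hpth : ∀ e, IsPth (del G₁ {u}) i j (K.pth e) := fun e => (hDCB.pth K e).1
  have e3 : ∑ e : Fin 2 → Bool, φ ({s(u, i), s(u, j)} ∪ K.pth e) =
      ∑ e : Fin 2 → Bool, q s(u, i) (chi {s(u, i), s(u, j)} + chi (K.pth e)) +
      ∑ e : Fin 2 → Bool, q s(u, j) (chi {s(u, i), s(u, j)} + chi (K.pth e)) +
      ∑ e : Fin 2 → Bool, ∑ c, ∑ d, (μ u i c d * dirn i c d (K.pth e) +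
        μ u j c d * dirn j c d (K.pth e) + μ i u c d * dirn j c d (K.pth e) +
        μ j u c d * dirn i c d (K.pth e)) := by
    rw [← sum_add_distrib, ← sum_add_distrib]
    exact sum_congr rfl fun e _ => val _ (hpth e)
  show ∑ e : Fin 2 → Bool, φ ({s(u, i), s(u, j)} ∪ K.pth e) = frm (b i + dg i + (b j + dg j)) K.bd0 K.bd1
  rw [e3, hRPQ.pol K _ (hq2 s(u, i)), hRPQ.pol K _ (hq2 s(u, j)), hbf i, hbf j, frm_add, frm_add,
    frm_add, dg_frm, dg_frm]
  have e4 : ∑ e : Fin 2 → Bool, ∑ c, ∑ d, (μ u i c d * dirn i c d (K.pth e) +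
        μ u j c d * dirn j c d (K.pth e) + μ i u c d * dirn j c d (K.pth e) +
        μ j u c d * dirn i c d (K.pth e)) =
      ∑ c, ∑ d, ν i c d * (K.bd0 s(c, d) * K.bd1 s(c, d)) +
        ∑ c, ∑ d, ν j c d * (K.bd0 s(c, d) * K.bd1 s(c, d)) := by
    rw [sum_comm, ← sum_add_distrib]
    refine sum_congr rfl fun c _ => ?_
    rw [sum_comm, ← sum_add_distrib]
    refine sum_congr rfl fun d _ => ?_
    rw [sum_add_distrib, sum_add_distrib, sum_add_distrib, ← mul_sum, ← mul_sum, ← mul_sum,
      ← mul_sum, (hRDR K c d).1, (hRDR K c d).2]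
    simp only [ν]
    ring
  rw [e4]
  ring

end DL
end

section
open SimpleGraph Finset

namespace DL

set_option linter.unusedSectionVars false

namespace RP2M

variable {α : Type} [Fintype α] [DecidableEq α]

/-- drop the edges at `u` -/
def res (u : α) : Chain α →+ Chain α where
  toFun c e := if u ∈ e then 0 else c e
  map_zero' := by
    funext e
    simp
  map_add' c d := by
    funext e
    by_cases h : u ∈ e <;> simp [h]

theorem res_apply (u : α) (c : Chain α) (e : Sym2 α) : res u c e = if u ∈ e then 0 else c e := rfl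

end RP2M

open RP1M RP2M

theorem specRP2 (hPOL : SpecPOL) (hHBF : SpecHBF) (hRT1 : SpecRT1) (hDCB : SpecDCB) : SpecRP2 := by
  intro α _ _ G₁ u φ hφ β hβ hRep
  choose q μ hq2 hq0 _ _ _ hK using fun i => hHBF (β i) (hβ i)
  have : DecidableRel G₁.Adj := Classical.decRel _
  set J := del G₁ {u} with hJ
  let o := Fintype.equivFin α
  let h : α → Finset (Sym2 α) → ZMod 2 := fun i P =>
    q i (chi P) + ∑ c, ∑ d, μ i c d * dirn i c d P
  have hpth : ∀ {i j : α} (K : Ch2 J i j) e, IsPth J i j (K.pth e) := fun K e => (hDCB.pth K e).1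
  have hw : ∀ i j, ∃ (w0 : ZMod 2) (w : Chain α), G₁.Adj u i → G₁.Adj u j → i ≠ j →
      ∀ P, IsPth J i j P → φ ({s(u, i), s(u, j)} ∪ P) + (h i P + h j P) = w0 + ∑ e ∈ P, w e := by
    intro i j
    by_cases hc : G₁.Adj u i ∧ G₁.Adj u j ∧ i ≠ j
    · obtain ⟨h1, h2, h3⟩ := hc
      obtain ⟨w0, w, hw⟩ := hRT1 J i j h3
        (fun P => φ ({s(u, i), s(u, j)} ∪ P) + (h i P + h j P)) (by
          intro K
          rw [sum_add_distrib, sum_add_distrib]
          have e1 : ∑ e : Fin 2 → Bool, h i (K.pth e) = frm (β i) K.bd0 K.bd1 := (hK i K).1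
          have e2 : ∑ e : Fin 2 → Bool, h j (K.pth e) = frm (β j) K.bd0 K.bd1 := (hK j K).2
          have e3 : ∑ e : Fin 2 → Bool, φ ({s(u, i), s(u, j)} ∪ K.pth e) =
            frm (β i + β j) K.bd0 K.bd1 := hRep i j h1 h2 h3 K
          rw [e1, e2, e3, frm_add]
          exact zmod2_add_self _)
      exact ⟨w0, w, fun _ _ _ => hw⟩
    · exact ⟨0, 0, fun h1 h2 h3 => absurd ⟨h1, h2, h3⟩ hc⟩
  choose w0 w hw using hw
  let μ' : α → α → α → ZMod 2 := fun i c d => if c = u ∨ d = u then 0 else μ i c d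
  let l : α → α → α → α → ZMod 2 := fun a b c d => if a = u then μ' b c d else 0
  let p1 : Chain α → ZMod 2 := fun c => ∑ i, c s(u, i) * q i (res u c)
  let p2 : Chain α → ZMod 2 := fun c => ∑ i, ∑ j, if o i < o j ∧ G₁.Adj u i ∧ G₁.Adj u j then
    c s(u, i) * (c s(u, j) * (w0 i j + ∑ e, (if u ∈ e then 0 else w i j e) * c e)) else 0
  have dco : ∀ e : Sym2 α, DegLE 1 (fun c : Chain α => c e) := fun e => hPOL.ofAdd fun a b => rfl
  have dp1 : DegLE 3 p1 := hPOL.sum _ _ fun i _ => hPOL.mul (d := 1) (e := 2) (dco _)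
    (hPOL.comp (res u) (hq2 i))
  have dp2 : DegLE 3 p2 := by
    refine hPOL.sum _ _ fun i _ => hPOL.sum _ _ fun j _ => ?_
    by_cases hc : o i < o j ∧ G₁.Adj u i ∧ G₁.Adj u j
    · simp only [if_pos hc]
      refine hPOL.mul (d := 1) (e := 2) (dco _) (hPOL.mul (d := 1) (e := 1) (dco _)
        (hPOL.add (hPOL.const 1 _) (hPOL.ofAdd fun a b => ?_)))
      simp only [Pi.add_apply, mul_add, sum_add_distrib]
    · simp only [if_neg hc]
      exact hPOL.zero 3
  have z1 : p1 0 = 0 := by simp [p1]
  have z2 : p2 0 = 0 := by simp [p2]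
  -- the coherence part
  have ecoh : ∀ C, cohs l C = ∑ b, ∑ c, ∑ d, μ' b c d * coh u b c d C := by
    intro C
    unfold cohs
    rw [Fintype.sum_eq_single u]
    · simp only [l, if_true]
    · intro a ha
      refine sum_eq_zero fun b _ => sum_eq_zero fun c _ => sum_eq_zero fun d _ => ?_
      simp only [l, if_neg ha, zero_mul]
  refine ⟨fun c => p1 c + p2 c, hPOL.add dp1 dp2, by simp only [z1, z2, add_zero], l, ?_⟩
  intro C hC
  show φ C = p1 (chi C) + p2 (chi C) + cohs l C
  rw [ecoh]
  by_cases hu : u ∈ vs C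
  · obtain ⟨i, j, hij, hi, hj, hlt⟩ : ∃ i j, i ≠ j ∧ s(u, i) ∈ C ∧ s(u, j) ∈ C ∧ o i < o j := by
      obtain ⟨i, j, hij, hi, hj, -⟩ := hC.two_edges hu
      rcases lt_or_gt_of_ne (o.injective.ne hij) with h1 | h1
      · exact ⟨i, j, hij, hi, hj, h1⟩
      · exact ⟨j, i, hij.symm, hj, hi, h1⟩
    have hP := hC.isPth_del hi hj hij
    have hCP : C = insert s(u, i) (insert s(u, j) (C \ {s(u, i), s(u, j)})) := by
      ext x
      simp only [mem_insert, mem_sdiff, mem_singleton, not_or]
      constructor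
      · intro hx
        by_cases hx1 : x = s(u, i)
        · exact Or.inl hx1
        · by_cases hx2 : x = s(u, j)
          · exact Or.inr (Or.inl hx2)
          · exact Or.inr (Or.inr ⟨hx, hx1, hx2⟩)
      · rintro (rfl | rfl | hx)
        · exact hi
        · exact hj
        · exact hx.1
    have ai := hC.adj_of_mem hi
    have aj := hC.adj_of_mem hj
    rw [← hJ] at hP
    generalize C \ {s(u, i), s(u, j)} = P at hP hCP
    subst hCP
    have hmem : ∀ k, s(u, k) ∈ insert s(u, i) (insert s(u, j) P) ↔ k = i ∨ k = j :=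
      fun k => mem_cyc hP
    have hchi : ∀ k, k ≠ i → k ≠ j → chi (insert s(u, i) (insert s(u, j) P)) s(u, k) = 0 :=
      fun k h1 h2 => chi_of_notMem (by rw [hmem]; tauto)
    have hchi1 : chi (insert s(u, i) (insert s(u, j) P)) s(u, i) = 1 := chi_of_mem hi
    have hchi2 : chi (insert s(u, i) (insert s(u, j) P)) s(u, j) = 1 := chi_of_mem hj
    have huP : ∀ e ∈ P, u ∉ e := by
      intro e he hue
      exact (Finset.disjoint_left.1 (isPth_del.1 hP).2 (mem_vs.2 ⟨e, he, hue⟩))
        (mem_singleton_self u)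
    have hres : res u (chi (insert s(u, i) (insert s(u, j) P))) = chi P := by
      funext e
      rw [res_apply]
      by_cases hue : u ∈ e
      · rw [if_pos hue, chi_of_notMem fun he => huP e he hue]
      · rw [if_neg hue, chi_apply, chi_apply]
        have : e ∈ insert s(u, i) (insert s(u, j) P) ↔ e ∈ P := by
          rw [mem_insert, mem_insert]
          constructor
          · rintro (rfl | rfl | he)
            · exact absurd (Sym2.mem_mk_left _ _) hue
            · exact absurd (Sym2.mem_mk_left _ _) hue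
            · exact he
          · exact fun he => Or.inr (Or.inr he)
        simp only [this]
    have v1 : p1 (chi (insert s(u, i) (insert s(u, j) P))) = q i (chi P) + q j (chi P) := by
      simp only [p1]
      rw [hres, Fintype.sum_eq_add i j hij, hchi1, hchi2, one_mul, one_mul]
      rintro k ⟨h1, h2⟩
      rw [hchi k h1 h2, zero_mul]
    have v2 : p2 (chi (insert s(u, i) (insert s(u, j) P))) = w0 i j + ∑ e ∈ P, w i j e := by
      simp only [p2]
      rw [Fintype.sum_eq_single i, Fintype.sum_eq_single j, if_pos ⟨hlt, ai, aj⟩, hchi1, hchi2,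
        one_mul, one_mul, sum_mul_chi, sum_insert, sum_insert, if_pos (Sym2.mem_mk_left _ _),
        if_pos (Sym2.mem_mk_left _ _), zero_add, zero_add]
      · congr 1
        exact sum_congr rfl fun e he => if_neg (huP e he)
      · exact notMem_path hP
      · rw [mem_insert, not_or]
        exact ⟨fun e => hij (Sym2.congr_right.1 e), notMem_path hP⟩
      · intro b hb
        by_cases hbi : b = i
        · subst hbi
          rw [if_neg fun hc => lt_irrefl _ hc.1]
        · rw [hchi b hbi hb]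
          simp
      · intro a ha
        by_cases haj : a = j
        · subst haj
          refine sum_eq_zero fun b _ => ?_
          by_cases hb1 : b = i
          · subst hb1
            rw [if_neg fun hc => lt_asymm hlt hc.1]
          · by_cases hb2 : b = a
            · subst hb2
              rw [if_neg fun hc => lt_irrefl _ hc.1]
            · rw [hchi b hb1 hb2]
              simp
        · refine sum_eq_zero fun b _ => ?_
          rw [hchi a ha haj]
          simp
    have hmu : ∀ k c d, μ' k c d * dirn k c d P = μ k c d * dirn k c d P := by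
      intro k c d
      simp only [μ']
      split_ifs with hc
      · have : s(c, d) ∉ P := fun he => by
          rcases hc with rfl | rfl
          · exact huP _ he (Sym2.mem_mk_left _ _)
          · exact huP _ he (Sym2.mem_mk_right _ _)
        rw [dirn_eq_zero_of_notMem this, mul_zero, mul_zero]
      · rfl
    have hcu : ∀ k c d, μ' k c d ≠ 0 → s(c, d) ≠ s(u, i) ∧ s(c, d) ≠ s(u, j) := by
      intro k c d hne
      simp only [μ'] at hne
      have hc : ¬ (c = u ∨ d = u) := fun hc => hne (if_pos hc)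
      rw [not_or] at hc
      constructor <;> intro e <;> rw [Sym2.eq_iff] at e <;> tauto
    have hPji : insert s(u, j) (insert s(u, i) P) = insert s(u, i) (insert s(u, j) P) :=
      Finset.insert_comm _ _ _
    have v3 : ∑ b, ∑ c, ∑ d, μ' b c d * coh u b c d (insert s(u, i) (insert s(u, j) P)) =
        ∑ c, ∑ d, μ i c d * dirn i c d P + ∑ c, ∑ d, μ j c d * dirn j c d P := by
      rw [Fintype.sum_eq_add i j hij]
      · congr 1
        · refine sum_congr rfl fun c _ => sum_congr rfl fun d _ => ?_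
          rw [← hmu]
          by_cases h0 : μ' i c d = 0
          · rw [h0, zero_mul, zero_mul]
          · obtain ⟨n1, n2⟩ := hcu i c d h0
            rw [coh_two hP aj hij n1 n2]
        · refine sum_congr rfl fun c _ => sum_congr rfl fun d _ => ?_
          rw [← hmu]
          by_cases h0 : μ' j c d = 0
          · rw [h0, zero_mul, zero_mul]
          · obtain ⟨n1, n2⟩ := hcu j c d h0
            rw [← hPji, coh_two hP.symm ai hij.symm n2 n1]
      · rintro k ⟨h1, h2⟩
        refine sum_eq_zero fun c _ => sum_eq_zero fun d _ => ?_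
        rw [coh_eq_zero_left (by rw [hmem]; tauto), mul_zero]
    have v4 := hw i j ai aj hij P hP
    rw [union_eq] at v4
    rw [v1, v2, v3, ← v4]
    have e5 : h i P + h j P = q i (chi P) + q j (chi P) +
        (∑ c, ∑ d, μ i c d * dirn i c d P + ∑ c, ∑ d, μ j c d * dirn j c d P) := by
      simp only [h]
      ring
    rw [e5]
    generalize q i (chi P) + q j (chi P) = x
    generalize (∑ c, ∑ d, μ i c d * dirn i c d P + ∑ c, ∑ d, μ j c d * dirn j c d P) = y
    have e6 : x + (φ (insert s(u, i) (insert s(u, j) P)) + (x + y)) + y =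
        φ (insert s(u, i) (insert s(u, j) P)) + (x + x) + (y + y) := by ring
    rw [e6, zmod2_add_self, zmod2_add_self, add_zero, add_zero]
  · have hnu : ∀ k, s(u, k) ∉ C := fun k hk => hu (left_mem_vs hk)
    have hCJ : IsCyc (del G₁ {u}) C := isCyc_del.2 ⟨hC, by
      rw [disjoint_singleton_right]
      exact hu⟩
    rw [hφ C hCJ]
    have v1 : p1 (chi C) = 0 := sum_eq_zero fun i _ => by
      rw [chi_of_notMem (hnu i), zero_mul]
    have v2 : p2 (chi C) = 0 := by
      refine sum_eq_zero fun i _ => sum_eq_zero fun j _ => ?_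
      rw [chi_of_notMem (hnu i), zero_mul]
      simp
    have v3 : ∑ b, ∑ c, ∑ d, μ' b c d * coh u b c d C = 0 := by
      refine sum_eq_zero fun b _ => sum_eq_zero fun c _ => sum_eq_zero fun d _ => ?_
      rw [coh_eq_zero_left (hnu b), mul_zero]
    rw [v1, v2, v3]
    simp

end DL
end
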