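import Pool.Agent.DL.R1A.Defs

/-!
MP_3ff0f8_gt, ALGEBRA HALF, R1A block (helper16): basic lemmas (proved) on forms, `θ`, relations.
-/

open SimpleGraph Finset

namespace DL

set_option linter.unusedSectionVars false

variable {α : Type} [Fintype α] [DecidableEq α]

/-! ## Functionals and forms -/

theorem pr_add (a b c : Chain α) : pr (a + b) c = pr a c + pr b c := by
  simp only [pr, Pi.add_apply, add_mul, sum_add_distrib]

theorem pr_add' (a c d : Chain α) : pr a (c + d) = pr a c + pr a d := by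
  simp only [pr, Pi.add_apply, mul_add, sum_add_distrib]

theorem pr_zero (a : Chain α) : pr a 0 = 0 := by simp [pr]

theorem zero_pr (c : Chain α) : pr 0 c = 0 := by simp [pr]

theorem pr_ed (a b : α) (c : Chain α) : pr (ed a b) c = c s(a, b) := by
  unfold pr ed chi
  rw [sum_eq_single s(a, b)]
  · simp
  · intro e _ he
    simp [he]
  · simp

theorem pr_tht (w : Fin 4 → α) (i : Fin 4) (c d : α) (X : Chain α) :
    pr (tht w i c d) X = X s(w i, c) + X s(c, d) := by
  rw [tht, pr_add, pr_ed, pr_ed]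

theorem frm_add (b b' : Sym2 α → Sym2 α → ZMod 2) (X Y : Chain α) :
    frm (b + b') X Y = frm b X Y + frm b' X Y := by
  simp only [frm, Pi.add_apply, add_mul, sum_add_distrib]

theorem frm_zero (X Y : Chain α) : frm (0 : Sym2 α → Sym2 α → ZMod 2) X Y = 0 := by
  simp [frm]

theorem frm_sum {ι : Type*} (s : Finset ι) (b : ι → Sym2 α → Sym2 α → ZMod 2) (X Y : Chain α) :
    frm (∑ i ∈ s, b i) X Y = ∑ i ∈ s, frm (b i) X Y := by
  classical
  induction s using Finset.induction_on with
  | empty => simp [frm_zero]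
  | insert a s ha ih => rw [sum_insert ha, sum_insert ha, frm_add, ih]

theorem frm_smul (k : ZMod 2) (b : Sym2 α → Sym2 α → ZMod 2) (X Y : Chain α) :
    frm (k • b) X Y = k * frm b X Y := by
  simp only [frm, Pi.smul_apply, smul_eq_mul, mul_sum, mul_assoc]

theorem frm_left (b : Sym2 α → Sym2 α → ZMod 2) (X X' Y : Chain α) :
    frm b (X + X') Y = frm b X Y + frm b X' Y := by
  simp only [frm, Pi.add_apply, add_mul, mul_add, sum_add_distrib]

theorem frm_right (b : Sym2 α → Sym2 α → ZMod 2) (X Y Y' : Chain α) :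
    frm b X (Y + Y') = frm b X Y + frm b X Y' := by
  simp only [frm, Pi.add_apply, mul_add, sum_add_distrib]

theorem frm_smul_left (b : Sym2 α → Sym2 α → ZMod 2) (k : ZMod 2) (X Y : Chain α) :
    frm b (k • X) Y = k * frm b X Y := by
  simp only [frm, Pi.smul_apply, smul_eq_mul, mul_sum]
  refine sum_congr rfl fun e _ => sum_congr rfl fun f _ => by ring

theorem frm_smul_right (b : Sym2 α → Sym2 α → ZMod 2) (k : ZMod 2) (X Y : Chain α) :
    frm b X (k • Y) = k * frm b X Y := by
  simp only [frm, Pi.smul_apply, smul_eq_mul, mul_sum]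
  refine sum_congr rfl fun e _ => sum_congr rfl fun f _ => by ring

theorem frm_symm {b : Sym2 α → Sym2 α → ZMod 2} (hb : Sy b) (X Y : Chain α) :
    frm b X Y = frm b Y X := by
  unfold frm
  rw [sum_comm]
  refine sum_congr rfl fun e _ => sum_congr rfl fun f _ => by rw [hb f e, mul_comm (X f)]

theorem frm_congr {b : Sym2 α → Sym2 α → ZMod 2} {X X' Y Y' : Chain α}
    (h : ∀ e f, b e f ≠ 0 → X e = X' e ∧ Y f = Y' f) : frm b X Y = frm b X' Y' := by
  unfold frm
  refine sum_congr rfl fun e _ => sum_congr rfl fun f _ => ?_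
  by_cases hb : b e f = 0
  · rw [hb, zero_mul, zero_mul]
  · rw [(h e f hb).1, (h e f hb).2]

theorem frm_sqm (a X Y : Chain α) : frm (sqm a) X Y = pr a X * pr a Y := by
  simp only [frm, sqm, pr, sum_mul_sum]
  refine sum_congr rfl fun e _ => sum_congr rfl fun f _ => by ring

theorem frm_dtm (a b X Y : Chain α) : frm (dtm a b) X Y = pr a X * pr b Y + pr b X * pr a Y := by
  simp only [frm, dtm, pr, sum_mul_sum, add_mul, sum_add_distrib]
  congr 1 <;> refine sum_congr rfl fun e _ => sum_congr rfl fun f _ => by ring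

theorem sy_add {b b' : Sym2 α → Sym2 α → ZMod 2} (h : Sy b) (h' : Sy b') : Sy (b + b') := fun e f => by
  rw [Pi.add_apply, Pi.add_apply, Pi.add_apply, Pi.add_apply, h e f, h' e f]

theorem sy_smul {b : Sym2 α → Sym2 α → ZMod 2} (k : ZMod 2) (h : Sy b) : Sy (k • b) := fun e f => by
  rw [Pi.smul_apply, Pi.smul_apply, Pi.smul_apply, Pi.smul_apply, h e f]

theorem sy_zero : Sy (0 : Sym2 α → Sym2 α → ZMod 2) := fun _ _ => rfl

theorem sy_sqm (a : Chain α) : Sy (sqm a) := fun _ _ => mul_comm _ _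

theorem sy_dtm (a b : Chain α) : Sy (dtm a b) := fun e f => by
  unfold dtm
  ring

theorem sy_kapm (s c d : α) : Sy (kapm s c d) := sy_add (sy_sqm _) (sy_dtm _ _)

theorem kapm_add (s c d : α) : kapm s c d + sqm (ed s c) = sqm (ed s c + ed c d) := by
  funext e f
  simp only [kapm, sqm, dtm, Pi.add_apply]
  ring

theorem at_add {v : α} {b b' : Sym2 α → Sym2 α → ZMod 2} (h : At v b) (h' : At v b') : At v (b + b') :=
  ⟨sy_add h.1 h'.1, fun e f hne => by
    by_cases h0 : b e f = 0
    · exact h'.2 e f fun h1 => hne (by rw [Pi.add_apply, Pi.add_apply, h0, h1, add_zero])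
    · exact h.2 e f h0⟩

theorem at_smul {v : α} {b : Sym2 α → Sym2 α → ZMod 2} (k : ZMod 2) (h : At v b) : At v (k • b) :=
  ⟨sy_smul k h.1, fun e f hne => h.2 e f fun h1 => hne (by
    rw [Pi.smul_apply, Pi.smul_apply, h1, smul_zero])⟩

theorem at_zero (v : α) : At v (0 : Sym2 α → Sym2 α → ZMod 2) := ⟨sy_zero, fun _ _ h => absurd rfl h⟩

theorem at_sqm {v : α} {a : Chain α} (h : ∀ e, a e ≠ 0 → v ∈ e) : At v (sqm a) :=
  ⟨sy_sqm a, fun _ _ hne => ⟨h _ (left_ne_zero_of_mul hne), h _ (right_ne_zero_of_mul hne)⟩⟩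

theorem at_dtm {v : α} {a b : Chain α} (h : ∀ e, a e ≠ 0 → v ∈ e) (h' : ∀ e, b e ≠ 0 → v ∈ e) :
    At v (dtm a b) :=
  ⟨sy_dtm a b, fun e f hne => by
    by_cases h0 : a e * b f = 0
    · have h1 : b e * a f ≠ 0 := fun h1 => hne (by rw [dtm, h0, h1, add_zero])
      exact ⟨h' _ (left_ne_zero_of_mul h1), h _ (right_ne_zero_of_mul h1)⟩
    · exact ⟨h _ (left_ne_zero_of_mul h0), h' _ (right_ne_zero_of_mul h0)⟩⟩

theorem ed_apply (a b : α) (e : Sym2 α) : ed a b e = if e = s(a, b) then 1 else 0 := by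
  simp [ed, chi]

theorem ed_ne {a b : α} {e : Sym2 α} (h : ed a b e ≠ 0) : e = s(a, b) := by
  rw [ed_apply] at h
  by_contra h1
  exact h (if_neg h1)

theorem ed_comm (a b : α) : ed a b = ed b a := by
  rw [ed, ed, Sym2.eq_swap]

/-- a form at `v` vanishes if one argument avoids `v` -/
theorem frm_at {v : α} {b : Sym2 α → Sym2 α → ZMod 2} (hb : At v b) {X Y : Chain α}
    (h : (∀ e, v ∈ e → X e = 0) ∨ ∀ e, v ∈ e → Y e = 0) : frm b X Y = 0 := by
  unfold frm
  refine sum_eq_zero fun e _ => sum_eq_zero fun f _ => ?_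
  by_cases h0 : b e f = 0
  · rw [h0, zero_mul]
  · rcases h with h | h
    · rw [h e (hb.2 e f h0).1, zero_mul, mul_zero]
    · rw [h f (hb.2 e f h0).2, mul_zero, mul_zero]

/-- a form at `v` only sees the edges at `v` -/
theorem frm_at_congr {v : α} {b : Sym2 α → Sym2 α → ZMod 2} (hb : At v b) {X X' Y Y' : Chain α}
    (h : ∀ e, v ∈ e → X e = X' e) (h' : ∀ e, v ∈ e → Y e = Y' e) : frm b X Y = frm b X' Y' :=
  frm_congr fun e f hne => ⟨h e (hb.2 e f hne).1, h' f (hb.2 e f hne).2⟩

theorem FE.refl (J : SimpleGraph α) (b : Sym2 α → Sym2 α → ZMod 2) : FE J b b := fun _ _ _ _ => rfl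

theorem FE.symm {J : SimpleGraph α} {b b' : Sym2 α → Sym2 α → ZMod 2} (h : FE J b b') : FE J b' b :=
  fun X hX Y hY => (h X hX Y hY).symm

theorem FE.trans {J : SimpleGraph α} {b b' b'' : Sym2 α → Sym2 α → ZMod 2} (h : FE J b b')
    (h' : FE J b' b'') : FE J b b'' := fun X hX Y hY => (h X hX Y hY).trans (h' X hX Y hY)

theorem FE.add {J : SimpleGraph α} {b b' c c' : Sym2 α → Sym2 α → ZMod 2} (h : FE J b b')
    (h' : FE J c c') : FE J (b + c) (b' + c') := fun X hX Y hY => by
  rw [frm_add, frm_add, h X hX Y hY, h' X hX Y hY]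

/-! ## Relations -/

/-- evaluation of a relation at two chains such that every `w k` is avoided by one of them -/
theorem RLN.eval {G : SimpleGraph α} {u : α} {w : Fin 4 → α} {S : Finset (Fin 4)} {c d : Fin 4 → α}
    (h : RLN G u w S c d) {X Y : Chain α} (hX : X ∈ Z1 (MM G u w)) (hY : Y ∈ Z1 (MM G u w))
    (hk : ∀ k, (∀ e, w k ∈ e → X e = 0) ∨ ∀ e, w k ∈ e → Y e = 0) :
    ∑ i ∈ S, pr (tht w i (c i) (d i)) X * pr (tht w i (c i) (d i)) Y = 0 := by
  obtain ⟨r, hr, h1⟩ := h
  have h2 := h1 X hX Y hY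
  have h3 : ∑ k, frm (r k) X Y = 0 := sum_eq_zero fun k _ => frm_at (hr k) (hk k)
  rw [h3, add_zero] at h2
  exact h2

/-! ## The relations in the triples -/

section TRel

variable {L : Type} [AddCommGroup L] [Module (ZMod 2) L] {K : Sym2 (Fin 4) → Submodule (ZMod 2) L}

theorem TRel.zero : TRel K (0 : Sym2 (Fin 4) → L) :=
  ⟨0, fun p e => (K e).zero_mem, fun _ _ _ => rfl, fun _ => by simp, fun _ => by simp⟩

theorem TRel.add {r r' : Sym2 (Fin 4) → L} (h : TRel K r) (h' : TRel K r') : TRel K (r + r') := by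
  obtain ⟨t, h1, h2, h3, h4⟩ := h
  obtain ⟨t', h1', h2', h3', h4'⟩ := h'
  refine ⟨fun p e => t p e + t' p e, fun p e => (K e).add_mem (h1 p e) (h1' p e), fun p e hp => ?_,
    fun p => ?_, fun e => ?_⟩
  · show t p e + t' p e = 0
    rw [h2 p e hp, h2' p e hp, add_zero]
  · show ∑ e, (t p e + t' p e) = 0
    rw [sum_add_distrib, h3 p, h3' p, add_zero]
  · rw [Pi.add_apply, h4 e, h4' e, sum_add_distrib]

/-- the family with `a` at the pair `e` -/
def plc (e : Sym2 (Fin 4)) (a : L) : Sym2 (Fin 4) → L := fun f => if f = e then a else 0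

/-- MOVE: `a` at `e` and `f`, if `e`, `f` both avoid the index `p` -/
theorem TRel.move {e f : Sym2 (Fin 4)} {p : Fin 4} {a : L} (he : a ∈ K e) (hf : a ∈ K f) (h2 : a + a = 0)
    (hpe : p ∉ e) (hpf : p ∉ f) : TRel K (plc e a + plc f a) := by
  refine ⟨fun q g => if q = p then plc e a g + plc f a g else 0, fun q g => ?_, fun q g hq => ?_,
    fun q => ?_, fun g => ?_⟩
  · show (if q = p then plc e a g + plc f a g else 0) ∈ K g
    split_ifs
    · refine (K g).add_mem ?_ ?_
      · unfold plc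
        split_ifs with h
        · rw [h]
          exact he
        · exact (K g).zero_mem
      · unfold plc
        split_ifs with h
        · rw [h]
          exact hf
        · exact (K g).zero_mem
    · exact (K g).zero_mem
  · show (if q = p then plc e a g + plc f a g else 0) = 0
    split_ifs with h
    · subst h
      have h3 : g ≠ e := fun h => hpe (h ▸ hq)
      have h4 : g ≠ f := fun h => hpf (h ▸ hq)
      simp [plc, h3, h4]
    · rfl
  · show ∑ g, (if q = p then plc e a g + plc f a g else 0) = 0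
    split_ifs
    · rw [sum_add_distrib]
      simp only [plc, sum_ite_eq', mem_univ, if_true]
      exact h2
    · simp
  · rw [Pi.add_apply]
    simp

end TRel

end DL
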